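import Pool.Agent.Lib.MP_d0d59f_nt.GE.A1c

/-! Interface facts on words used in part B. -/

namespace Pool.Agent.Lib.MP_d0d59f_nt.GE

open Finset

theorem bvalid_unit {α : List ℕ} {x : ℤ} (hv : valid α x) : ¬ (3 : ℤ) ∣ x := (valid_unit hv).1

theorem bact_unit {α : List ℕ} {x : ℤ} (hv : valid α x) : ¬ (3 : ℤ) ∣ act α x :=
  (valid_unit hv).2

theorem bact_congr {α : List ℕ} {k : ℕ} {x y : ℤ} (hv : valid α x)
    (h : x ≡ y [ZMOD 3 ^ (α.length + k)]) (hk : 1 ≤ k) : act α x ≡ act α y [ZMOD 3 ^ k] := by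
  have hy : valid α y := by
    refine (valid_congr (x := x) (y := y) ?_).mp hv
    exact h.of_dvd (pow_dvd_pow 3 (by omega))
  rw [add_comm] at h
  exact (act_congr hv hy k).mp h

theorem mem_blk {L M : ℕ} {α : List ℕ} : α ∈ blk L M ↔
    α.length = L ∧ (∀ a ∈ α, 1 ≤ a ∧ a ≤ M) ∧ Even α.sum ∧ 17 * L ≤ 10 * α.sum := by
  unfold blk
  rw [Finset.mem_filter, mem_wds]
  tauto

end Pool.Agent.Lib.MP_d0d59f_nt.GE
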