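import Pool.Agent.Lib.MP_d0d59f_nt.GE.Defs
import Pool.Agent.Lib.MP_d0d59f_nt.AA.A6Cc

/-! Row ge_A1a: words acting on integers. -/

namespace Pool.Agent.Lib.MP_d0d59f_nt.GE

open Finset

theorem act_append (α β : List ℕ) (x : ℤ) : act (α ++ β) x = act β (act α x) := by
  induction α generalizing x with
  | nil => rfl
  | cons a α ih => exact ih (stp a x)

theorem valid_append (α β : List ℕ) (x : ℤ) :
    valid (α ++ β) x ↔ valid α x ∧ valid β (act α x) := by
  induction α generalizing x with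
  | nil =>
    constructor
    · intro h
      refine ⟨?_, h⟩
      cases β with
      | nil => exact h
      | cons b β => exact h.1
    · intro h
      exact h.2
  | cons a α ih =>
    have h1 : valid (a :: α ++ β) x ↔
        (¬ (3 : ℤ) ∣ x ∧ 1 ≤ a ∧ (3 : ℤ) ∣ 2 ^ a * x - 1 ∧ valid (α ++ β) (stp a x)) := Iff.rfl
    have h2 : valid (a :: α) x ↔
        (¬ (3 : ℤ) ∣ x ∧ 1 ≤ a ∧ (3 : ℤ) ∣ 2 ^ a * x - 1 ∧ valid α (stp a x)) := Iff.rfl
    have h3 : act (a :: α) x = act α (stp a x) := rfl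
    rw [h1, h2, h3, ih]
    tauto

theorem a1a_head {α : List ℕ} {x : ℤ} (h : valid α x) : ¬ (3 : ℤ) ∣ x := by
  cases α with
  | nil => exact h
  | cons a α => exact h.1

/-- Both ends of a valid word are units. -/
theorem valid_unit {α : List ℕ} {x : ℤ} (h : valid α x) :
    ¬ (3 : ℤ) ∣ x ∧ ¬ (3 : ℤ) ∣ act α x := by
  refine ⟨a1a_head h, ?_⟩
  induction α generalizing x with
  | nil => exact h
  | cons a α ih => exact ih h.2.2.2

theorem valid_pos {α : List ℕ} {x : ℤ} (h : valid α x) : ∀ a ∈ α, 1 ≤ a := by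
  induction α generalizing x with
  | nil =>
    intro a ha
    simp at ha
  | cons b α ih =>
    intro a ha
    rcases List.mem_cons.1 ha with rfl | ha
    · exact h.2.1
    · exact ih h.2.2.2 a ha

theorem a1a_stp {a : ℕ} {x : ℤ} (h : (3 : ℤ) ∣ 2 ^ a * x - 1) : 3 * stp a x = 2 ^ a * x - 1 :=
  Int.mul_ediv_cancel' h

/-- `3^n (α.x) = 2^{|α|} x - C(α)`. Induction: `3 (stp a x) = 2^a x - 1`,
`cc (a :: α) = 2^{|α|} + 3 cc α`. -/
theorem act_identity {α : List ℕ} {x : ℤ} (h : valid α x) :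
    3 ^ α.length * act α x = 2 ^ α.sum * x - (AA.cc α : ℤ) := by
  induction α generalizing x with
  | nil => simp [act, AA.cc]
  | cons a α ih =>
    have h1 := ih h.2.2.2
    have h2 := a1a_stp h.2.2.1
    have h3 : act (a :: α) x = act α (stp a x) := rfl
    rw [h3, List.length_cons, List.sum_cons, AA.cc, pow_succ, pow_add]
    push_cast
    linear_combination 3 * h1 + 2 ^ α.sum * h2

/-- Validity of a word of length `n` depends on `x` modulo `3^(n+1)`. -/
theorem valid_congr {α : List ℕ} {x y : ℤ} (h : x ≡ y [ZMOD 3 ^ (α.length + 1)]) :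
    valid α x ↔ valid α y := by
  have key : ∀ (α : List ℕ) (x y : ℤ), x ≡ y [ZMOD 3 ^ (α.length + 1)] → valid α x →
      valid α y := by
    intro α
    induction α with
    | nil =>
      intro x y h hv
      have h1 : (3 : ℤ) ∣ y - x := by simpa using h.dvd
      have hv' : ¬ (3 : ℤ) ∣ x := hv
      show ¬ (3 : ℤ) ∣ y
      intro h2
      exact hv' ((dvd_sub_right h2).1 h1)
    | cons a α ih =>
      intro x y h hv
      have h1 : (3 : ℤ) ^ (α.length + 2) ∣ y - x := h.dvd
      have h3 : (3 : ℤ) ∣ y - x := (dvd_pow_self 3 (by omega)).trans h1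
      obtain ⟨hv1, hv2, hv3, hv4⟩ := hv
      have hy3 : (3 : ℤ) ∣ 2 ^ a * y - 1 := by
        have e : (2 : ℤ) ^ a * y - 1 = (2 ^ a * x - 1) + 2 ^ a * (y - x) := by ring
        rw [e]
        exact dvd_add hv3 (Dvd.dvd.mul_left h3 _)
      refine ⟨fun h2 => hv1 ((dvd_sub_right h2).1 h3), hv2, hy3, ih _ _ ?_ hv4⟩
      rw [Int.modEq_iff_dvd]
      have e : 3 * (stp a y - stp a x) = 2 ^ a * (y - x) := by
        rw [mul_sub, a1a_stp hy3, a1a_stp hv3]
        ring
      have h4 : (3 : ℤ) * 3 ^ (α.length + 1) ∣ 3 * (stp a y - stp a x) := by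
        rw [e, ← pow_succ']
        exact Dvd.dvd.mul_left h1 _
      exact Int.dvd_of_mul_dvd_mul_left (by norm_num) h4
  exact ⟨key α x y h, key α y x h.symm⟩

/-- For a word `α` of length `n` valid at `x` and at `y`: `x ≡ y mod 3^(k+n)` iff
`α.x ≡ α.y mod 3^k` (`act_identity`; `2^{|α|}` is a unit). -/
theorem act_congr {α : List ℕ} {x y : ℤ} (hx : valid α x) (hy : valid α y) (k : ℕ) :
    x ≡ y [ZMOD 3 ^ (k + α.length)] ↔ act α x ≡ act α y [ZMOD 3 ^ k] := by
  have e : 3 ^ α.length * (act α y - act α x) = 2 ^ α.sum * (y - x) := by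
    rw [mul_sub, act_identity hx, act_identity hy]
    ring
  have hc : IsCoprime ((3 : ℤ) ^ (k + α.length)) (2 ^ α.sum) := by
    refine IsCoprime.pow ?_
    norm_num [Int.isCoprime_iff_gcd_eq_one]
  rw [Int.modEq_iff_dvd, Int.modEq_iff_dvd]
  constructor
  · intro h
    have h1 : (3 : ℤ) ^ α.length * 3 ^ k ∣ 3 ^ α.length * (act α y - act α x) := by
      rw [e, ← pow_add, add_comm]
      exact Dvd.dvd.mul_left h _
    exact Int.dvd_of_mul_dvd_mul_left (by positivity) h1
  · intro h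
    have h1 : (3 : ℤ) ^ (k + α.length) ∣ 2 ^ α.sum * (y - x) := by
      rw [← e, add_comm k, pow_add]
      exact mul_dvd_mul_left _ h
    exact hc.dvd_of_dvd_mul_left h1

end Pool.Agent.Lib.MP_d0d59f_nt.GE
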