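import Pool.Agent.Lib.MP_d0d59f_nt.GE.A1a

/-! Row ge_A1b: two words from the same point; separation of words. -/

namespace Pool.Agent.Lib.MP_d0d59f_nt.GE

open Finset

/-- `C(α) < 3^n 2^{|α|}` for entries `≥ 1` and `n ≥ 1`; we state `cc α < 3^n * 2^{|α|}` for all `n`
(`cc [] = 0 < 1`). Induction: `2^{|α|} + 3 cc α < 3^{n+1} 2^{a+|α|}`. -/
theorem cc_lt {α : List ℕ} (h : ∀ a ∈ α, 1 ≤ a) : AA.cc α < 3 ^ α.length * 2 ^ α.sum := by
  induction α with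
  | nil => simp [AA.cc]
  | cons a e ih =>
    have h1 := ih fun x hx => h x (List.mem_cons_of_mem _ hx)
    have ha : 1 ≤ a := h a (by simp)
    rw [AA.cc, List.length_cons, List.sum_cons, pow_add]
    have h2 : 2 ≤ 2 ^ a := by
      calc 2 = 2 ^ 1 := by norm_num
        _ ≤ 2 ^ a := Nat.pow_le_pow_right (by norm_num) ha
    have h3 : 1 ≤ 3 ^ (e.length + 1) := Nat.one_le_pow _ _ (by norm_num)
    have h4 : 2 ^ e.sum ≤ 3 ^ (e.length + 1) * 2 ^ e.sum := Nat.le_mul_of_pos_left _ (by omega)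
    have h5 : 3 * AA.cc e < 3 ^ (e.length + 1) * 2 ^ e.sum := by
      rw [pow_succ]
      nlinarith
    calc 2 ^ e.sum + 3 * AA.cc e < 2 * (3 ^ (e.length + 1) * 2 ^ e.sum) := by omega
      _ ≤ 2 ^ a * (3 ^ (e.length + 1) * 2 ^ e.sum) := Nat.mul_le_mul_right _ h2
      _ = _ := by ring

/-- Words are determined by length, sum and `cc` (`AA.cc_inj`; see `AA.mem_comps`). -/
theorem word_inj {α β : List ℕ} (hα : ∀ a ∈ α, 1 ≤ a) (hβ : ∀ a ∈ β, 1 ≤ a)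
    (hl : α.length = β.length) (hs : α.sum = β.sum) (hc : AA.cc α = AA.cc β) : α = β :=
  AA.cc_inj (t := α.length) (s := α.sum) (AA.mem_comps.2 ⟨rfl, rfl, hα⟩)
    (AA.mem_comps.2 ⟨hl.symm, hs.symm, hβ⟩) hc

/-- Separation: two words of the same length `n` and sum valid at `x`, whose end points agree
modulo `3^k`, `k ≥ |α|`, are equal: `cc α ≡ cc β mod 3^{k+n}`, both are `< 3^n 2^{|α|} ≤ 3^{n+k}`, and
`word_inj`. -/
theorem word_sep {α β : List ℕ} {x : ℤ} (hα : valid α x) (hβ : valid β x)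
    (hl : α.length = β.length) (hs : α.sum = β.sum) {k : ℕ} (hk : α.sum ≤ k)
    (h : act α x ≡ act β x [ZMOD 3 ^ k]) : α = β := by
  refine word_inj (valid_pos hα) (valid_pos hβ) hl hs ?_
  have h1 := act_identity hα
  have h2 := act_identity hβ
  have c1 := cc_lt (valid_pos hα)
  have c2 := cc_lt (valid_pos hβ)
  rw [← hl, ← hs] at h2 c2
  obtain ⟨D, hD⟩ := h.dvd
  have h3 : (AA.cc α : ℤ) - AA.cc β = 3 ^ α.length * (3 ^ k) * D := by
    have : (AA.cc α : ℤ) - AA.cc β = 3 ^ α.length * (act β x - act α x) := by linarith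
    rw [this, hD]
    ring
  have h4 : (2 : ℤ) ^ α.sum ≤ 3 ^ k :=
    calc (2 : ℤ) ^ α.sum ≤ 3 ^ α.sum := pow_le_pow_left₀ (by norm_num) (by norm_num) _
      _ ≤ 3 ^ k := pow_le_pow_right₀ (by norm_num) hk
  have c1' : (AA.cc α : ℤ) < 3 ^ α.length * 3 ^ k := by
    have : (AA.cc α : ℤ) < 3 ^ α.length * 2 ^ α.sum := by exact_mod_cast c1
    exact this.trans_le (mul_le_mul_of_nonneg_left h4 (by positivity))
  have c2' : (AA.cc β : ℤ) < 3 ^ α.length * 3 ^ k := by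
    have : (AA.cc β : ℤ) < 3 ^ α.length * 2 ^ α.sum := by exact_mod_cast c2
    exact this.trans_le (mul_le_mul_of_nonneg_left h4 (by positivity))
  have p1 : (0 : ℤ) ≤ AA.cc α := Int.natCast_nonneg _
  have p2 : (0 : ℤ) ≤ AA.cc β := Int.natCast_nonneg _
  have hDz : D = 0 := by
    set P : ℤ := 3 ^ α.length * 3 ^ k with hP
    have hPpos : 0 < P := by positivity
    have hlt : D < 1 := by
      by_contra hcon
      push Not at hcon
      have : P * 1 ≤ P * D := mul_le_mul_of_nonneg_left hcon hPpos.le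
      linarith
    have hgt : -1 < D := by
      by_contra hcon
      push Not at hcon
      have : P * D ≤ P * (-1) := mul_le_mul_of_nonneg_left hcon hPpos.le
      linarith
    omega
  rw [hDz, mul_zero] at h3
  have : (AA.cc α : ℤ) = AA.cc β := by linarith
  exact_mod_cast this

/-- Two words of the same length `n` from the point `x`:
`3^n (2^{|α|} (β.x) - 2^{|β|} (α.x)) = 2^{|β|} C(α) - 2^{|α|} C(β)`. -/
theorem two_words {α β : List ℕ} {x : ℤ} (hα : valid α x) (hβ : valid β x)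
    (hl : α.length = β.length) :
    3 ^ α.length * (2 ^ α.sum * act β x - 2 ^ β.sum * act α x) =
      2 ^ β.sum * (AA.cc α : ℤ) - 2 ^ α.sum * (AA.cc β : ℤ) := by
  have h1 := act_identity hα
  have h2 := act_identity hβ
  rw [← hl] at h2
  linear_combination (2 : ℤ) ^ α.sum * h2 - (2 : ℤ) ^ β.sum * h1

/-- The digits `j, j+1` of an integer, as an element of `ℤ/9`. -/
def zj (j : ℕ) (x : ℤ) : ZMod 9 := ((x / 3 ^ j : ℤ) : ZMod 9)

theorem a1b_zj_sub {j : ℕ} {x y D : ℤ} (h : x - y = 3 ^ j * D) : zj j x - zj j y = (D : ZMod 9) := by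
  have hx : x = y + 3 ^ j * D := by linarith
  have h1 : x / 3 ^ j = y / 3 ^ j + D := by
    rw [hx, Int.add_mul_ediv_left _ _ (by positivity)]
  unfold zj
  rw [h1]
  push_cast
  ring

theorem a1b_dvd_iff (k : ℕ) (x y : ℤ) :
    (((x : ℤ) : ZMod (3 ^ k)) = ((y : ℤ) : ZMod (3 ^ k))) ↔ (3 : ℤ) ^ k ∣ x - y := by
  rw [← sub_eq_zero, ← Int.cast_sub, ZMod.intCast_zmod_eq_zero_iff_dvd]
  push_cast
  exact Iff.rfl

/-- The pair `(x mod 3^j, digits j, j+1)` is the same as `x mod 3^(j+2)`. -/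
theorem zj_iff (j : ℕ) (x y : ℤ) :
    (((x : ℤ) : ZMod (3 ^ (j + 2))) = ((y : ℤ) : ZMod (3 ^ (j + 2)))) ↔
      (((x : ℤ) : ZMod (3 ^ j)) = ((y : ℤ) : ZMod (3 ^ j)) ∧ zj j x = zj j y) := by
  rw [a1b_dvd_iff, a1b_dvd_iff]
  constructor
  · rintro ⟨D, hD⟩
    refine ⟨⟨9 * D, by rw [hD]; ring⟩, ?_⟩
    have h1 : x - y = 3 ^ j * (9 * D) := by rw [hD]; ring
    have h2 := a1b_zj_sub h1
    rw [← sub_eq_zero, h2]
    push_cast
    have : (9 : ZMod 9) = 0 := by decide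
    rw [this, zero_mul]
  · rintro ⟨⟨D, hD⟩, hz⟩
    have h2 := a1b_zj_sub hD
    rw [hz, sub_self] at h2
    have h3 : (9 : ℤ) ∣ D := by
      have := (ZMod.intCast_zmod_eq_zero_iff_dvd D 9).1 h2.symm
      exact_mod_cast this
    obtain ⟨E, hE⟩ := h3
    exact ⟨E, by rw [hD, hE]; ring⟩

theorem a1b_val (m : ℤ) : (((m : ZMod 9).val : ℕ) : ZMod 3) = (m : ZMod 3) := by
  rw [ZMod.natCast_val]
  exact ZMod.cast_intCast (by norm_num : 3 ∣ 9) m

/-- `x mod 3^j` and the first of the two digits give `x mod 3^(j+1)`. -/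
theorem zj_iff_one (j : ℕ) (x y : ℤ) :
    (((x : ℤ) : ZMod (3 ^ (j + 1))) = ((y : ℤ) : ZMod (3 ^ (j + 1)))) ↔
      (((x : ℤ) : ZMod (3 ^ j)) = ((y : ℤ) : ZMod (3 ^ j)) ∧
        ((zj j x).val : ZMod 3) = ((zj j y).val : ZMod 3)) := by
  have key : ∀ D : ℤ, x - y = 3 ^ j * D →
      (((zj j x).val : ZMod 3) = ((zj j y).val : ZMod 3) ↔ (3 : ℤ) ∣ D) := by
    intro D hD
    have hx : x = y + 3 ^ j * D := by linarith
    have h1 : x / 3 ^ j = y / 3 ^ j + D := by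
      rw [hx, Int.add_mul_ediv_left _ _ (by positivity)]
    unfold zj
    rw [a1b_val, a1b_val, h1, ← sub_eq_zero, ← Int.cast_sub, add_sub_cancel_left,
      ZMod.intCast_zmod_eq_zero_iff_dvd]
    exact Iff.rfl
  rw [a1b_dvd_iff, a1b_dvd_iff]
  constructor
  · rintro ⟨D, hD⟩
    have h1 : x - y = 3 ^ j * (3 * D) := by rw [hD]; ring
    exact ⟨⟨3 * D, h1⟩, (key _ h1).2 ⟨D, rfl⟩⟩
  · rintro ⟨⟨D, hD⟩, hz⟩
    obtain ⟨E, hE⟩ := (key D hD).1 hz
    exact ⟨E, by rw [hD, hE]; ring⟩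

/-- Transport of digits: let `2^s Y = 2^t X + Q` and `2^s Y' = 2^t X' + Q` with the same `s, t, Q`, and
`X ≡ X' mod 3^j`. Then `Y ≡ Y' mod 3^j` and `zj Y - zj Y' = U (zj X - zj X')` with `U = 2^t 5^s` in
`ℤ/9` (`5 = 1/2`): `X - X' = 3^j D`, `2^s (Y - Y') = 2^t 3^j D`, so `Y - Y' = 3^j E` with `2^s E = 2^t D`, and
`zj X - zj X' = D`, `zj Y - zj Y' = E` modulo `9` (`(x + 3^j D)/3^j = x/3^j + D`). -/
theorem zj_transport {j s t : ℕ} {X Y X' Y' Q : ℤ} (h1 : 2 ^ s * Y = 2 ^ t * X + Q)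
    (h2 : 2 ^ s * Y' = 2 ^ t * X' + Q) (hX : X ≡ X' [ZMOD 3 ^ j]) :
    Y ≡ Y' [ZMOD 3 ^ j] ∧ zj j Y - zj j Y' = 2 ^ t * 5 ^ s * (zj j X - zj j X') := by
  obtain ⟨D, hD⟩ := hX.symm.dvd
  have h3 : (2 : ℤ) ^ s * (Y - Y') = 3 ^ j * (2 ^ t * D) := by
    have : (2 : ℤ) ^ s * (Y - Y') = 2 ^ t * (X - X') := by linarith
    rw [this, hD]
    ring
  have hcop : IsCoprime ((3 : ℤ) ^ j) (2 ^ s) := by
    refine IsCoprime.pow ?_
    exact ⟨1, -1, by norm_num⟩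
  have h4 : (3 : ℤ) ^ j ∣ Y - Y' := by
    refine hcop.dvd_of_dvd_mul_left ?_
    exact ⟨_, h3⟩
  obtain ⟨E, hE⟩ := h4
  have h5 : (2 : ℤ) ^ s * E = 2 ^ t * D := by
    have h6 : (3 : ℤ) ^ j * (2 ^ s * E) = 3 ^ j * (2 ^ t * D) := by
      rw [← h3, hE]
      ring
    exact mul_left_cancel₀ (by positivity) h6
  refine ⟨(Int.modEq_iff_dvd.2 ⟨-E, by linarith⟩), ?_⟩
  rw [a1b_zj_sub hE, a1b_zj_sub hD]
  have h7 : ((2 : ZMod 9) ^ s) * (E : ZMod 9) = 2 ^ t * (D : ZMod 9) := by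
    have := congrArg (fun z : ℤ => (z : ZMod 9)) h5
    push_cast at this
    exact this
  have h8 : (2 : ZMod 9) ^ s * 5 ^ s = 1 := by
    rw [← mul_pow]
    have : (2 * 5 : ZMod 9) = 1 := by decide
    rw [this, one_pow]
  calc (E : ZMod 9) = ((2 : ZMod 9) ^ s * 5 ^ s) * E := by rw [h8, one_mul]
    _ = 5 ^ s * ((2 : ZMod 9) ^ s * E) := by ring
    _ = 5 ^ s * (2 ^ t * (D : ZMod 9)) := by rw [h7]
    _ = _ := by ring

end Pool.Agent.Lib.MP_d0d59f_nt.GE
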