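import Pool.Agent.Lib.MP_d0d59f_nt.GE.A1a

/-! Row ge_A1c: kids with labels in `[3, 8]`; extension of words. -/

namespace Pool.Agent.Lib.MP_d0d59f_nt.GE

open Finset

theorem a1c_two_pow (k : ℕ) : (2 : ℤ) ^ (2 * k) ≡ 1 [ZMOD 3] := by
  rw [pow_mul]
  have h : ((2 : ℤ) ^ 2) ≡ 1 [ZMOD 3] := by decide
  simpa using h.pow k

theorem a1c_two_pow' (k : ℕ) : (2 : ℤ) ^ (2 * k + 1) ≡ 2 [ZMOD 3] := by
  rw [pow_succ]
  simpa using (a1c_two_pow k).mul_right 2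

theorem a1c_cases {x : ℤ} (hx : ¬ (3 : ℤ) ∣ x) : x ≡ 1 [ZMOD 3] ∨ x ≡ 2 [ZMOD 3] := by
  unfold Int.ModEq
  omega

/-- A letter `a ≥ 1` can be applied at the unit `x` iff `a` is even (`x ≡ 1`) or odd (`x ≡ 2`). -/
theorem letter_iff {x : ℤ} (hx : ¬ (3 : ℤ) ∣ x) (a : ℕ) :
    (3 : ℤ) ∣ 2 ^ a * x - 1 ↔ (Even a ↔ x ≡ 1 [ZMOD 3]) := by
  have key : ∀ u : ℤ, 2 ^ a ≡ u [ZMOD 3] → ((3 : ℤ) ∣ 2 ^ a * x - 1 ↔ (3 : ℤ) ∣ u * x - 1) := by
    intro u hu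
    have h1 : (2 : ℤ) ^ a * x - 1 ≡ u * x - 1 [ZMOD 3] := (hu.mul_right x).sub_right 1
    rw [Int.dvd_iff_emod_eq_zero, Int.dvd_iff_emod_eq_zero, h1.eq]
  rcases Nat.even_or_odd' a with ⟨k, rfl | rfl⟩
  · rw [key 1 (a1c_two_pow k)]
    have he : Even (2 * k) := even_two_mul k
    simp only [he, true_iff]
    unfold Int.ModEq
    omega
  · rw [key 2 (a1c_two_pow' k)]
    have he : ¬ Even (2 * k + 1) := by
      rw [Nat.not_even_iff_odd]; exact odd_two_mul_add_one k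
    simp only [he, false_iff]
    unfold Int.ModEq
    omega

/-- `stp (a+2) x = 4 stp a x + 1`. -/
theorem stp_add_two {x : ℤ} {a : ℕ} (h : (3 : ℤ) ∣ 2 ^ a * x - 1) :
    stp (a + 2) x = 4 * stp a x + 1 := by
  obtain ⟨q, hq⟩ := h
  have h1 : stp a x = q := by
    unfold stp; rw [hq]; simp
  have h2 : (2 : ℤ) ^ (a + 2) * x - 1 = 3 * (4 * q + 1) := by
    rw [pow_add]; linear_combination 4 * hq
  rw [h1]
  unfold stp
  rw [h2]
  simp

/-- A unit `x` has, for every class `c ∈ {1, 2}` modulo `3`, a kid in the class `c` with a letter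
`a ∈ [3, 8]`: the three letters `a, a+2, a+4` of the right parity (`3,5,7` or `4,6,8`) give the classes
`r, r+1, r+2` (`stp_add_two`). -/
theorem kid {x : ℤ} (hx : ¬ (3 : ℤ) ∣ x) {c : ℤ} (hc : c = 1 ∨ c = 2) :
    ∃ a : ℕ, 3 ≤ a ∧ a ≤ 8 ∧ (3 : ℤ) ∣ 2 ^ a * x - 1 ∧ stp a x ≡ c [ZMOD 3] ∧
      (Even a ↔ x ≡ 1 [ZMOD 3]) := by
  -- the first letter
  obtain ⟨b, hb1, hb2, hb⟩ : ∃ b : ℕ, 3 ≤ b ∧ b ≤ 4 ∧ (Even b ↔ x ≡ 1 [ZMOD 3]) := by
    by_cases h : x ≡ 1 [ZMOD 3]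
    · exact ⟨4, by norm_num, le_rfl, by simp [h]; decide⟩
    · exact ⟨3, le_rfl, by norm_num, by simp [h]; decide⟩
  have hb' : (Even (b + 2) ↔ x ≡ 1 [ZMOD 3]) := by
    rw [← hb]; simp [Nat.even_add]
  have hb'' : (Even (b + 4) ↔ x ≡ 1 [ZMOD 3]) := by
    rw [← hb]
    have : Even 4 := by decide
    simp [Nat.even_add, this]
  have d0 := (letter_iff hx b).2 hb
  have d1 := (letter_iff hx (b + 2)).2 hb'
  have d2 := (letter_iff hx (b + 4)).2 hb''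
  have e1 := stp_add_two d0
  have e2 : stp (b + 4) x = 4 * stp (b + 2) x + 1 := stp_add_two d1
  have hcases : stp b x ≡ c [ZMOD 3] ∨ stp (b + 2) x ≡ c [ZMOD 3] ∨
      stp (b + 4) x ≡ c [ZMOD 3] := by
    rw [e2, e1]
    unfold Int.ModEq
    have h3 : stp b x % 3 = 0 ∨ stp b x % 3 = 1 ∨ stp b x % 3 = 2 := by omega
    rcases hc with rfl | rfl <;> rcases h3 with h3 | h3 | h3 <;> omega
  rcases hcases with h | h | h
  · exact ⟨b, hb1, by omega, d0, h, hb⟩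
  · exact ⟨b + 2, by omega, by omega, d1, h, hb'⟩
  · exact ⟨b + 4, by omega, by omega, d2, h, hb''⟩

theorem a1c_not_dvd {y c : ℤ} (hc : c = 1 ∨ c = 2) (h : y ≡ c [ZMOD 3]) : ¬ (3 : ℤ) ∣ y := by
  unfold Int.ModEq at h
  rcases hc with rfl | rfl <;> omega

/-- Every unit `x` has a valid word of length `n` with letters in `[3,8]`, ending in the class
`c` (if `n ≥ 1`): induction with `kid`. -/
theorem exists_word {x : ℤ} (hx : ¬ (3 : ℤ) ∣ x) (n : ℕ) :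
    ∃ α : List ℕ, α.length = n ∧ (∀ a ∈ α, 3 ≤ a ∧ a ≤ 8) ∧ valid α x := by
  induction n generalizing x with
  | zero => exact ⟨[], rfl, by simp, hx⟩
  | succ n ih =>
    obtain ⟨a, h1, h2, h3, h4, -⟩ := kid hx (c := 1) (Or.inl rfl)
    obtain ⟨α, hα1, hα2, hα3⟩ := ih (a1c_not_dvd (Or.inl rfl) h4)
    refine ⟨a :: α, by simp [hα1], ?_, hx, by omega, h3, hα3⟩
    intro b hb
    rcases List.mem_cons.1 hb with rfl | hb
    · exact ⟨h1, h2⟩
    · exact hα2 b hb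

/-- Extension by two letters to a word of EVEN sum: for a word `α` valid at `x` and `c ∈ {1,2}` there
are `a, a' ∈ [3,8]` with `α ++ [a, a']` valid at `x`, of even sum, with end point in the class `c`.
`a` has the parity given by the class of `y = α.x`, and goes to the class `c'` for either `c' = 1` or `2`
(`kid`), `a'` is even iff `c' = 1`: choose `c'` so that the total is even. -/
theorem extend_two {α : List ℕ} {x : ℤ} (h : valid α x) {c : ℤ} (hc : c = 1 ∨ c = 2) :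
    ∃ a a' : ℕ, 3 ≤ a ∧ a ≤ 8 ∧ 3 ≤ a' ∧ a' ≤ 8 ∧ valid (α ++ [a, a']) x ∧
      Even (α ++ [a, a']).sum ∧ act (α ++ [a, a']) x ≡ c [ZMOD 3] := by
  have hy : ¬ (3 : ℤ) ∣ act α x := (valid_unit h).2
  set y := act α x with hydef
  -- choice of the intermediate class
  have hch : ∃ c' : ℤ, (c' = 1 ∨ c' = 2) ∧
      ((c' ≡ 1 [ZMOD 3]) ↔ (Even α.sum ↔ y ≡ 1 [ZMOD 3])) := by
    by_cases h0 : (Even α.sum ↔ y ≡ 1 [ZMOD 3])
    · exact ⟨1, Or.inl rfl, by simp [h0]⟩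
    · refine ⟨2, Or.inr rfl, ?_⟩
      have : ¬ ((2 : ℤ) ≡ 1 [ZMOD 3]) := by decide
      simp only [this, h0]
  obtain ⟨c', hc', hcc⟩ := hch
  obtain ⟨a, a1, a2, a3, a4, a5⟩ := kid hy hc'
  have hz : ¬ (3 : ℤ) ∣ stp a y := a1c_not_dvd hc' a4
  obtain ⟨a', b1, b2, b3, b4, b5⟩ := kid hz hc
  refine ⟨a, a', a1, a2, b1, b2, ?_, ?_, ?_⟩
  · rw [valid_append]
    exact ⟨h, hy, by omega, a3, hz, by omega, b3, a1c_not_dvd hc b4⟩
  · have hs : (α ++ [a, a']).sum = α.sum + (a + a') := by simp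
    rw [hs, Nat.even_add, Nat.even_add, a5, b5]
    have h6 : (stp a y ≡ 1 [ZMOD 3]) ↔ (c' ≡ 1 [ZMOD 3]) := ⟨fun h => a4.symm.trans h, a4.trans⟩
    rw [h6, hcc]
    by_cases p1 : Even α.sum <;> by_cases p2 : y ≡ 1 [ZMOD 3] <;> simp [p1, p2]
  · rw [act_append]
    exact b4

/-- Members of `wds M n`. -/
theorem mem_wds {M n : ℕ} {α : List ℕ} :
    α ∈ wds M n ↔ α.length = n ∧ ∀ a ∈ α, 1 ≤ a ∧ a ≤ M := by
  induction n generalizing α with
  | zero =>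
    simp only [wds, mem_singleton]
    constructor
    · rintro rfl
      simp
    · rintro ⟨h, -⟩
      exact List.length_eq_zero_iff.1 h
  | succ n ih =>
    simp only [wds, mem_image, mem_product, mem_Icc, Prod.exists]
    constructor
    · rintro ⟨a, β, ⟨h1, h2⟩, rfl⟩
      obtain ⟨h3, h4⟩ := ih.1 h2
      refine ⟨by simp [h3], ?_⟩
      intro b hb
      rcases List.mem_cons.1 hb with rfl | hb
      · exact h1
      · exact h4 b hb
    · rintro ⟨h1, h2⟩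
      cases α with
      | nil => simp at h1
      | cons a β =>
        refine ⟨a, β, ⟨h2 a (by simp), ih.2 ⟨by simpa using h1, fun b hb => h2 b (by simp [hb])⟩⟩, rfl⟩

end Pool.Agent.Lib.MP_d0d59f_nt.GE
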