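import Pool.Agent.Lib.MP_d0d59f_nt.GE.A1c

/-! Row ge_A2: the natural kernel. -/

namespace Pool.Agent.Lib.MP_d0d59f_nt.GE

open Finset

theorem a2_mem_blk {L M : ℕ} {α : List ℕ} :
    α ∈ blk L M ↔ (α.length = L ∧ ∀ a ∈ α, 1 ≤ a ∧ a ≤ M) ∧ Even α.sum ∧
      17 * L ≤ 10 * α.sum := by
  unfold blk
  rw [mem_filter, mem_wds]

theorem a2_sum_ge (w : List ℕ) (h : ∀ a ∈ w, 3 ≤ a) : 3 * w.length ≤ w.sum := by
  induction w with
  | nil => simp
  | cons a w ih =>
    rw [List.sum_cons, List.length_cons]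
    have h1 := h a (by simp)
    have h2 := ih (fun b hb => h b (by simp [hb]))
    omega

theorem a2_sum_le (w : List ℕ) (h : ∀ a ∈ w, a ≤ 8) : w.sum ≤ 8 * w.length := by
  induction w with
  | nil => simp
  | cons a w ih =>
    rw [List.sum_cons, List.length_cons]
    have h1 := h a (by simp)
    have h2 := ih (fun b hb => h b (by simp [hb]))
    omega

/-- A valid block ending in a prescribed class. -/
theorem a2_block {L M : ℕ} (hL : 2 ≤ L) (hM : 8 ≤ M) {x : ℤ} (hx : ¬ (3 : ℤ) ∣ x) {c : ℤ}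
    (hc : c = 1 ∨ c = 2) : ∃ α ∈ blk L M, valid α x ∧ act α x ≡ c [ZMOD 3] ∧
      (3 / 256 : ℝ) ^ L ≤ wt α := by
  obtain ⟨β, b1, b2, b3⟩ := exists_word hx (L - 2)
  obtain ⟨a, a', h1, h2, h3, h4, h5, h6, h7⟩ := extend_two b3 hc
  have hlen : (β ++ [a, a']).length = L := by
    rw [List.length_append, b1]
    simp only [List.length_cons, List.length_nil]
    omega
  have hall : ∀ b ∈ β ++ [a, a'], 3 ≤ b ∧ b ≤ 8 := by
    intro b hb
    rcases List.mem_append.1 hb with hb | hb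
    · exact b2 b hb
    · simp only [List.mem_cons, List.not_mem_nil, or_false] at hb
      rcases hb with rfl | rfl
      · exact ⟨h1, h2⟩
      · exact ⟨h3, h4⟩
  have hs1 := a2_sum_ge _ (fun b hb => (hall b hb).1)
  have hs2 := a2_sum_le _ (fun b hb => (hall b hb).2)
  rw [hlen] at hs1 hs2
  refine ⟨β ++ [a, a'], a2_mem_blk.2 ⟨⟨hlen, fun b hb => ?_⟩, h6, by omega⟩, h5, h7, ?_⟩
  · have := hall b hb
    omega
  · unfold wt
    rw [hlen, div_pow]
    have h8 : (256 : ℝ) ^ L = 2 ^ (8 * L) := by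
      rw [pow_mul]; norm_num
    rw [h8]
    apply div_le_div_of_nonneg_left (by positivity) (by positivity)
    exact pow_le_pow_right₀ (by norm_num) hs2

theorem a2_wt_pos (α : List ℕ) : 0 < wt α := by
  unfold wt; positivity

open Classical in
theorem a2_term_nonneg (x : ℤ) (α : List ℕ) : 0 ≤ (if valid α x then wt α else 0) := by
  split_ifs
  · exact (a2_wt_pos α).le
  · exact le_rfl

theorem a2_NN_nonneg (L M : ℕ) (x : ℤ) : 0 ≤ NN L M x := by
  unfold NN
  exact sum_nonneg fun α _ => a2_term_nonneg x α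

/-- Lower bound: `NN L M x ≥ (3/256)^L` for `L ≥ 2`, `M ≥ 8`, `x` a unit: `exists_word` of length `L - 2`
and `extend_two` give a valid block with letters in `[3,8]` (sum `≥ 3 L`, even), of weight
`≥ (3/2^8)^L`; all terms are nonnegative. -/
theorem NN_ge {L M : ℕ} (hL : 2 ≤ L) (hM : 8 ≤ M) {x : ℤ} (hx : ¬ (3 : ℤ) ∣ x) :
    (3 / 256 : ℝ) ^ L ≤ NN L M x := by
  classical
  obtain ⟨α, h1, h2, -, h3⟩ := a2_block hL hM hx (c := 1) (Or.inl rfl)
  refine h3.trans ?_
  unfold NN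
  have h4 := single_le_sum (f := fun α => if valid α x then wt α else 0)
    (fun β _ => a2_term_nonneg x β) h1
  simpa only [if_pos h2] using h4

theorem NN_pos {L M : ℕ} (hL : 2 ≤ L) (hM : 8 ≤ M) {x : ℤ} (hx : ¬ (3 : ℤ) ∣ x) :
    0 < NN L M x := lt_of_lt_of_le (by positivity) (NN_ge hL hM hx)

/-- `NN L M` has period `3^(L+1)`. -/
theorem NN_congr {L M : ℕ} {x y : ℤ} (h : x ≡ y [ZMOD 3 ^ (L + 1)]) : NN L M x = NN L M y := by
  classical
  unfold NN
  refine sum_congr rfl fun α hα => ?_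
  have hl : α.length = L := (a2_mem_blk.1 hα).1.1
  rw [← hl] at h
  exact if_congr (valid_congr h) rfl rfl

/-- `kp L M x α` is a probability on `blk L M` (`x` a unit) and depends on `x mod 3^(L+1)`. -/
theorem kp_congr {L M : ℕ} {x y : ℤ} (h : x ≡ y [ZMOD 3 ^ (L + 1)]) {α : List ℕ}
    (hα : α ∈ blk L M) : kp L M x α = kp L M y α := by
  classical
  unfold kp
  have hl : α.length = L := (a2_mem_blk.1 hα).1.1
  rw [NN_congr h]
  rw [← hl] at h
  rw [if_congr (valid_congr h) rfl rfl]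

theorem a2_kp_nonneg (L M : ℕ) (x : ℤ) (α : List ℕ) : 0 ≤ kp L M x α := by
  unfold kp
  exact div_nonneg (a2_term_nonneg x α) (a2_NN_nonneg L M x)

theorem a2_kp_sum {L M : ℕ} (hL : 2 ≤ L) (hM : 8 ≤ M) {x : ℤ} (hx : ¬ (3 : ℤ) ∣ x) :
    ∑ α ∈ blk L M, kp L M x α = 1 := by
  unfold kp
  rw [← sum_div]
  exact div_self (NN_pos hL hM hx).ne'

theorem a2_kp_pos {L M : ℕ} (hL : 2 ≤ L) (hM : 8 ≤ M) {x : ℤ} (hx : ¬ (3 : ℤ) ∣ x)
    {α : List ℕ} (hα : valid α x) : 0 < kp L M x α := by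
  unfold kp
  rw [if_pos hα]
  exact div_pos (a2_wt_pos α) (NN_pos hL hM hx)

theorem a2_kp_le_one {L M : ℕ} (hL : 2 ≤ L) (hM : 8 ≤ M) {x : ℤ} (hx : ¬ (3 : ℤ) ∣ x)
    {α : List ℕ} (hα : α ∈ blk L M) : kp L M x α ≤ 1 := by
  rw [← a2_kp_sum hL hM hx]
  exact single_le_sum (fun β _ => a2_kp_nonneg L M x β) hα

theorem a2_ent_pos {L M : ℕ} (hL : 2 ≤ L) (hM : 8 ≤ M) {x : ℤ} (hx : ¬ (3 : ℤ) ∣ x) :
    0 < ∑ α ∈ blk L M, Real.negMulLog (kp L M x α) := by
  obtain ⟨α, h1, h2, h3, -⟩ := a2_block hL hM hx (c := 1) (Or.inl rfl)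
  obtain ⟨β, g1, g2, g3, -⟩ := a2_block hL hM hx (c := 2) (Or.inr rfl)
  have hne : α ≠ β := by
    rintro rfl
    have := h3.symm.trans g3
    exact absurd this (by decide)
  have hlt : kp L M x α < 1 := by
    have hsub : ({α, β} : Finset (List ℕ)) ⊆ blk L M := by
      intro γ hγ
      rcases mem_insert.1 hγ with rfl | hγ
      · exact h1
      · rw [mem_singleton.1 hγ]; exact g1
    have h4 := sum_le_sum_of_subset_of_nonneg hsub (f := fun γ => kp L M x γ)
      (fun γ _ _ => a2_kp_nonneg L M x γ)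
    rw [sum_pair hne, a2_kp_sum hL hM hx] at h4
    have h5 := a2_kp_pos hL hM hx g2
    linarith
  have hpos := a2_kp_pos hL hM hx h2
  have h6 : 0 < Real.negMulLog (kp L M x α) := by
    unfold Real.negMulLog
    have := Real.log_neg hpos hlt
    nlinarith
  refine lt_of_lt_of_le h6 ?_
  exact single_le_sum (f := fun γ => Real.negMulLog (kp L M x γ))
    (fun γ hγ => Real.negMulLog_nonneg (a2_kp_nonneg L M x γ) (a2_kp_le_one hL hM hx hγ)) h1

/-- The entropy of `kp L M x` is bounded below by a positive constant, uniformly in the unit `x`: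
two different blocks of positive probability exist (`extend_two` with `c = 1` and with `c = 2`), so the
entropy is positive; it depends only on `x` modulo `3^(L+1)`, finitely many classes. -/
theorem kp_ent {L M : ℕ} (hL : 2 ≤ L) (hM : 8 ≤ M) : ∃ c0 : ℝ, 0 < c0 ∧
    ∀ x : ℤ, ¬ (3 : ℤ) ∣ x → c0 ≤ ∑ α ∈ blk L M, Real.negMulLog (kp L M x α) := by
  classical
  set e : ℤ → ℝ := fun x => ∑ α ∈ blk L M, Real.negMulLog (kp L M x α) with he
  set S : Finset ℤ := (Finset.Ico (0 : ℤ) (3 ^ (L + 1))).filter fun i => ¬ (3 : ℤ) ∣ i with hS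
  have h3 : (1 : ℤ) < 3 ^ (L + 1) := one_lt_pow₀ (by norm_num) (by omega)
  have hne : S.Nonempty := by
    refine ⟨1, ?_⟩
    rw [hS, mem_filter, Finset.mem_Ico]
    exact ⟨⟨by norm_num, h3⟩, by norm_num⟩
  refine ⟨S.inf' hne e, ?_, ?_⟩
  · rw [Finset.lt_inf'_iff]
    intro i hi
    rw [hS, mem_filter] at hi
    exact a2_ent_pos hL hM hi.2
  · intro x hx
    have hmod : x % 3 ^ (L + 1) ≡ x [ZMOD 3 ^ (L + 1)] := Int.mod_modEq _ _
    have hd : (3 : ℤ) ∣ 3 ^ (L + 1) := dvd_pow_self 3 (by omega)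
    have hmem : x % 3 ^ (L + 1) ∈ S := by
      rw [hS, mem_filter, Finset.mem_Ico]
      refine ⟨⟨Int.emod_nonneg _ (by positivity), Int.emod_lt_of_pos _ (by positivity)⟩, ?_⟩
      intro h
      apply hx
      have h4 : x % 3 ^ (L + 1) ≡ x [ZMOD 3] := hmod.of_dvd hd
      rw [Int.dvd_iff_emod_eq_zero] at h ⊢
      rw [← h4.eq]
      exact h
    have h5 : e (x % 3 ^ (L + 1)) = e x := by
      rw [he]
      exact sum_congr rfl fun α hα => by rw [kp_congr hmod hα]
    have h6 := Finset.inf'_le e hmem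
    rw [h5] at h6
    exact h6

/-- The natural kernel as a `Ker`. -/
theorem exists_natK {L M : ℕ} (hL : 2 ≤ L) (hM : 8 ≤ M) : ∃ K : Ker, K.L = L ∧ K.M = M ∧
    K.B = blk L M ∧ K.κ = kp L M := by
  obtain ⟨c0, h0, h⟩ := kp_ent hL hM
  refine ⟨{ L := L, M := M, B := blk L M, κ := kp L M, hL := by omega
            len := fun α hα => (a2_mem_blk.1 hα).1.1
            bd := fun α hα => (a2_mem_blk.1 hα).1.2
            even := fun α hα => (a2_mem_blk.1 hα).2.1
            nonneg := a2_kp_nonneg L M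
            sum_one := fun x hx => a2_kp_sum hL hM hx
            supp := ?_
            per := fun x y hxy α hα => kp_congr hxy hα
            c0 := c0
            c0_pos := h0
            ent_ge := h }, rfl, rfl, rfl, rfl⟩
  intro x α _ hne
  by_contra hv
  apply hne
  unfold kp
  rw [if_neg hv, zero_div]

end Pool.Agent.Lib.MP_d0d59f_nt.GE
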