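import Pool.Agent.Lib.MP_d0d59f_nt.GE.A1Words
import Pool.Agent.Lib.MP_d0d59f_nt.GE.A2

/-! The natural kernel as a term of `Ker`. -/

namespace Pool.Agent.Lib.MP_d0d59f_nt.GE

open Finset

theorem kp_nonneg (L M : ℕ) (x : ℤ) (α : List ℕ) : 0 ≤ kp L M x α := by
  classical
  have hN : 0 ≤ NN L M x := by
    unfold NN
    refine Finset.sum_nonneg fun α _ => ?_
    split_ifs
    · unfold wt
      positivity
    · exact le_rfl
  unfold kp
  refine div_nonneg ?_ hN
  split_ifs
  · unfold wt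
    positivity
  · exact le_rfl

theorem kp_sum {L M : ℕ} (hL : 2 ≤ L) (hM : 8 ≤ M) {x : ℤ} (hx : ¬ (3 : ℤ) ∣ x) :
    ∑ α ∈ blk L M, kp L M x α = 1 := by
  unfold kp
  rw [← Finset.sum_div]
  exact div_self (NN_pos hL hM hx).ne'

/-- The natural kernel. -/
noncomputable def natK (L M : ℕ) (hL : 2 ≤ L) (hM : 8 ≤ M) : Ker where
  L := L
  M := M
  B := blk L M
  κ := kp L M
  hL := by omega
  len := fun α hα => (mem_blk.mp hα).1
  bd := fun α hα => (mem_blk.mp hα).2.1
  even := fun α hα => (mem_blk.mp hα).2.2.1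
  nonneg := fun x α => kp_nonneg L M x α
  sum_one := fun x hx => kp_sum hL hM hx
  supp := by
    intro x α _ h
    by_contra hv
    apply h
    unfold kp
    rw [if_neg hv, zero_div]
  per := fun x y h α hα => kp_congr h hα
  c0 := (kp_ent hL hM).choose
  c0_pos := (kp_ent hL hM).choose_spec.1
  ent_ge := (kp_ent hL hM).choose_spec.2

end Pool.Agent.Lib.MP_d0d59f_nt.GE
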