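import Pool.Agent.Lib.MP_d0d59f_nt.AA.B1Path
import Pool.Agent.Lib.MP_d0d59f_nt.GE.A1Words

/-! Row C1 (about 110 lines): words valid for `3x+1` at `x` give paths of `T_d` to `y ≡ x d`. -/

namespace Pool.Agent.Lib.MP_d0d59f_nt.GE

open Finset

/-- One step down in the inverse tree of `T_d`. -/
def stpd (d : ℤ) (a : ℕ) (y : ℤ) : ℤ := (2 ^ a * y - d) / 3

/-- End point of a word started at `y` in the inverse tree of `T_d`. -/
def actd (d : ℤ) : List ℕ → ℤ → ℤ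
  | [], y => y
  | a :: α, y => actd d α (stpd d a y)

/-- If `3 ∣ 2^a x - 1` and `x d ≡ y` modulo `3^(m+1)` then `3 ∣ 2^a y - d` and
`stp a x * d ≡ stpd d a y` modulo `3^m`: `3 (stpd d a y - d * stp a x) = 2^a (y - x d)`. -/
theorem stpd_congr {d x y : ℤ} {a m : ℕ} (h : (3 : ℤ) ∣ 2 ^ a * x - 1)
    (hxy : x * d ≡ y [ZMOD 3 ^ (m + 1)]) :
    3 * stpd d a y = 2 ^ a * y - d ∧ stp a x * d ≡ stpd d a y [ZMOD 3 ^ m] := by
  obtain ⟨x', hx'⟩ := h
  have hx : stp a x = x' := by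
    rw [stp, hx']
    exact Int.mul_ediv_cancel_left x' three_ne_zero
  rw [Int.modEq_iff_dvd] at hxy
  obtain ⟨t, ht⟩ := hxy
  have h1 : 2 ^ a * y - d = 3 * (2 ^ a * 3 ^ m * t + d * x') := by
    have h2 : 2 ^ a * y - d = 2 ^ a * (y - x * d) + d * (2 ^ a * x - 1) := by ring
    rw [h2, ht, hx', pow_succ]
    ring
  have h3 : stpd d a y = 2 ^ a * 3 ^ m * t + d * x' := by
    rw [stpd, h1]
    exact Int.mul_ediv_cancel_left _ three_ne_zero
  refine ⟨by rw [h3, h1], ?_⟩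
  rw [hx, h3, Int.modEq_iff_dvd]
  exact ⟨2 ^ a * t, by ring⟩

/-- Induction on `α`, generalizing `x y`; `stpd_congr` with `m = α.length + k`. -/
theorem actd_congr {d : ℤ} {α : List ℕ} {k : ℕ} {x y : ℤ} (hv : valid α x)
    (hxy : x * d ≡ y [ZMOD 3 ^ (α.length + k)]) :
    act α x * d ≡ actd d α y [ZMOD 3 ^ k] := by
  induction α generalizing x y with
  | nil =>
    simp only [List.length_nil, zero_add] at hxy
    simpa only [act, actd] using hxy
  | cons a α ih =>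
    obtain ⟨_, _, h3, h4⟩ := hv
    have h5 := stpd_congr (d := d) (y := y) (m := α.length + k) h3 (by
      rw [List.length_cons] at hxy
      rwa [show α.length + 1 + k = α.length + k + 1 by omega] at hxy)
    exact ih h4 h5.2

/-- Induction on `α`, generalizing `x y`. `[]`: both sides `y`. `a :: α`: `isPath d (a :: α) N y` is
`∃ M', isPath d α N M' ∧ 1 ≤ a ∧ 2^a y = 3 M' + d ∧ Odd y`, take `M' = stpd d a y` (odd, since
`3 M' = 2^a y - d` is odd, `a ≥ 1`). -/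
theorem actd_path {d : ℤ} (hd : Odd d) {α : List ℕ} {x y : ℤ} (hv : valid α x) (hy : Odd y)
    (hxy : x * d ≡ y [ZMOD 3 ^ (α.length + 1)]) : AA.isPath d α (actd d α y) y := by
  induction α generalizing x y with
  | nil => exact ⟨hy, rfl⟩
  | cons a α ih =>
    obtain ⟨_, h2, h3, h4⟩ := hv
    have h5 := stpd_congr (d := d) (y := y) (m := α.length + 1) h3 (by
      rwa [List.length_cons] at hxy)
    have hodd : Odd (stpd d a y) := by
      obtain ⟨b, rfl⟩ : ∃ b, a = b + 1 := ⟨a - 1, by omega⟩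
      have h6 : Odd (3 * stpd d (b + 1) y) := by
        rw [h5.1]
        refine Even.sub_odd ?_ hd
        rw [pow_succ, show (2 : ℤ) ^ b * 2 * y = 2 * (2 ^ b * y) by ring]
        exact even_two_mul _
      exact (Int.odd_mul.1 h6).2
    exact ⟨stpd d a y, ih h4 hodd h5.2, h2, by rw [h5.1]; ring, hy⟩

/-- From `actd_congr` with `k = 1` and `bact_unit`. -/
theorem actd_unit {d : ℤ} (h3 : ¬ (3 : ℤ) ∣ d) {α : List ℕ} {x y : ℤ} (hv : valid α x)
    (hxy : x * d ≡ y [ZMOD 3 ^ (α.length + 1)]) : ¬ (3 : ℤ) ∣ actd d α y := by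
  intro h
  have h1 := actd_congr (k := 1) hv hxy
  rw [pow_one] at h1
  have h2 : (3 : ℤ) ∣ act α x * d := by
    rw [Int.modEq_iff_dvd] at h1
    have h4 := dvd_sub h h1
    rwa [sub_sub_cancel] at h4
  rcases Int.prime_three.dvd_or_dvd h2 with h5 | h5
  · exact bact_unit hv h5
  · exact h3 h5

/-- An inverse of `d` modulo `3^m`: `Int.mod_coprime` / `IsCoprime`. -/
theorem exists_inv {d : ℤ} (h3 : ¬ (3 : ℤ) ∣ d) (m : ℕ) : ∃ e : ℤ, d * e ≡ 1 [ZMOD 3 ^ m] := by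
  have h1 : IsCoprime (3 : ℤ) d := (Prime.coprime_iff_not_dvd Int.prime_three).2 h3
  have h2 : IsCoprime ((3 : ℤ) ^ m) d := h1.pow_left
  obtain ⟨u, v, huv⟩ := h2
  refine ⟨v, ?_⟩
  rw [Int.modEq_iff_dvd]
  exact ⟨u, by linarith⟩

open Classical in
/-- Transfer of the weight. Take `e` inverse to `d` modulo `3^(L+K+1)` and `H y = h (y e)`. For `y` prime to
`3`, `x = y e` is prime to `3` and `x d ≡ y` modulo `3^(L+K+1)`; for `α` valid at `x` put `y' = actd d α y`; then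
`act α x * d ≡ y'` modulo `3^(K+1)` (`actd_congr`, `α.length = L` by `mem_blk`), so `act α x ≡ y' e` modulo
`3^K`, so `h (act α x) = H y'`. So `H y ≤ ∑ [valid α x] wt α ^ s * H (actd d α y)`; sum over
`W y := (blk L M).filter (valid · (y e))`. -/
theorem transfer {s H₀ : ℝ} {L M K : ℕ} {h : ℤ → ℝ}
    (hper : ∀ x y : ℤ, x ≡ y [ZMOD 3 ^ K] → h x = h y)
    (h1 : ∀ x : ℤ, ¬ (3 : ℤ) ∣ x → 1 ≤ h x) (h2 : ∀ x : ℤ, h x ≤ H₀)
    (hsub : ∀ x : ℤ, ¬ (3 : ℤ) ∣ x →
      h x ≤ ∑ α ∈ blk L M, if valid α x then wt α ^ s * h (act α x) else 0)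
    {d : ℤ} (hd : Odd d) (h3 : ¬ (3 : ℤ) ∣ d) :
    ∃ (H : ℤ → ℝ) (W : ℤ → Finset (List ℕ)), (∀ y : ℤ, ¬ (3 : ℤ) ∣ y → 1 ≤ H y) ∧
      (∀ y : ℤ, H y ≤ H₀) ∧ (∀ y, W y ⊆ blk L M) ∧
      (∀ y : ℤ, ¬ (3 : ℤ) ∣ y → Odd y → ∀ α ∈ W y,
        AA.isPath d α (actd d α y) y ∧ ¬ (3 : ℤ) ∣ actd d α y) ∧
      ∀ y : ℤ, ¬ (3 : ℤ) ∣ y → H y ≤ ∑ α ∈ W y, wt α ^ s * H (actd d α y) := by
  obtain ⟨e, he⟩ := exists_inv h3 (L + K + 1)
  have he3 : ¬ (3 : ℤ) ∣ e := by
    intro h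
    have h5 : d * e ≡ 1 [ZMOD 3] :=
      he.of_dvd (dvd_pow_self 3 (by omega))
    rw [Int.modEq_iff_dvd] at h5
    have h6 : (3 : ℤ) ∣ 1 := by
      have h7 := dvd_add h5 (h.mul_left d)
      rwa [sub_add_cancel] at h7
    norm_num at h6
  have hunit : ∀ y : ℤ, ¬ (3 : ℤ) ∣ y → ¬ (3 : ℤ) ∣ y * e := by
    intro y hy h
    rcases Int.prime_three.dvd_or_dvd h with h5 | h5
    · exact hy h5
    · exact he3 h5
  have hbase : ∀ y : ℤ, y * e * d ≡ y [ZMOD 3 ^ (L + K + 1)] := by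
    intro y
    have h5 := he.mul_left y
    rw [mul_one] at h5
    rwa [show y * e * d = y * (d * e) by ring]
  have hlow : ∀ (y : ℤ) (k : ℕ), k ≤ K + 1 → y * e * d ≡ y [ZMOD 3 ^ (L + k)] := by
    intro y k hk
    exact (hbase y).of_dvd (pow_dvd_pow 3 (by omega))
  refine ⟨fun y => h (y * e), fun y => (blk L M).filter fun α => valid α (y * e),
    fun y hy => h1 _ (hunit y hy), fun y => h2 _, fun y => filter_subset _ _, ?_, ?_⟩
  · intro y hy hyo α hα
    rw [mem_filter] at hα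
    have hl : α.length = L := (mem_blk.1 hα.1).1
    have h5 : y * e * d ≡ y [ZMOD 3 ^ (α.length + 1)] := by
      rw [hl]
      exact hlow y 1 (by omega)
    exact ⟨actd_path hd hα.2 hyo h5, actd_unit h3 hα.2 h5⟩
  · intro y hy
    refine (hsub _ (hunit y hy)).trans (le_of_eq ?_)
    rw [sum_filter]
    refine sum_congr rfl fun α hα => ?_
    have hl : α.length = L := (mem_blk.1 hα).1
    split_ifs with hv
    · congr 1
      apply hper
      have h5 : y * e * d ≡ y [ZMOD 3 ^ (α.length + K)] := by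
        rw [hl]
        exact hlow y K (by omega)
      have h6 := (actd_congr hv h5).mul_right e
      have h7 : act α (y * e) * d * e ≡ act α (y * e) [ZMOD 3 ^ K] := by
        have h8 := (he.of_dvd (pow_dvd_pow 3 (show K ≤ L + K + 1 by omega))).mul_left
          (act α (y * e))
        rwa [mul_one, ← mul_assoc] at h8
      exact h7.symm.trans h6
    · rfl

end Pool.Agent.Lib.MP_d0d59f_nt.GE
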