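import Pool.Agent.Lib.MP_d0d59f_nt.GE.A2Ker

/-! Row N1 (about 110 lines): constants and the Gibbs (Jensen) step for one block. -/

namespace Pool.Agent.Lib.MP_d0d59f_nt.GE

open Finset

theorem wt_pos (α : List ℕ) : 0 < wt α := by
  unfold wt
  positivity

/-- `3^17 = 129140163 < 134217728 = 2^27`, so `17 log 3 ≤ 27 log 2`, so the left side of
`17/10 log 2 - log 3 ≥ (17/10 - 27/17) log 2 = (19/170) log 2 ≥ 0.077`; `Real.log_two_gt_d9`. -/
theorem log_const : (7 / 100 : ℝ) ≤ 17 / 10 * Real.log 2 - Real.log 3 := by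
  have h1 : (17 : ℝ) * Real.log 3 ≤ 27 * Real.log 2 := by
    have h2 : Real.log ((3 : ℝ) ^ 17) ≤ Real.log ((2 : ℝ) ^ 27) :=
      Real.log_le_log (by norm_num) (by norm_num)
    rw [Real.log_pow, Real.log_pow] at h2
    exact_mod_cast h2
  have h3 := Real.log_two_gt_d9
  linarith

/-- `-log (wt α) = |α| log 2 - L log 3 ≥ L (17/10 log 2 - log 3)` by `mem_blk`, `log_const`. -/
theorem neg_log_wt {L M : ℕ} {α : List ℕ} (h : α ∈ blk L M) :
    7 / 100 * (L : ℝ) ≤ -Real.log (wt α) := by
  obtain ⟨h1, -, -, h2⟩ := mem_blk.mp h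
  have h3 : Real.log (wt α) = (L : ℝ) * Real.log 3 - (α.sum : ℝ) * Real.log 2 := by
    unfold wt
    rw [Real.log_div (by positivity) (by positivity), Real.log_pow, Real.log_pow, h1]
  have h4 : (17 : ℝ) * L ≤ 10 * (α.sum : ℝ) := by exact_mod_cast h2
  have h5 : 0 ≤ Real.log 2 := Real.log_nonneg (by norm_num)
  have h6 : (17 : ℝ) / 10 * L * Real.log 2 ≤ (α.sum : ℝ) * Real.log 2 :=
    mul_le_mul_of_nonneg_right (by linarith) h5
  have h7 : 7 / 100 * (L : ℝ) ≤ (17 / 10 * Real.log 2 - Real.log 3) * L :=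
    mul_le_mul_of_nonneg_right log_const (Nat.cast_nonneg L)
  rw [h3]
  linarith

open Classical in
/-- **Gibbs step.** Let `N = NN L M x > 0` (`NN_ge`), `p α = kp L M x α` (`0 ≤ p`, `∑ p = 1`:
`(natK L M hL hM).nonneg`, `.sum_one x hx`; or directly), and for valid `α`:
`Y α = N * wt α ^ (s-1) * g (act α x) > 0`. Then `∑ p α * Y α = ∑ [valid] wt α ^ s * g (act α x)`, and by
concavity of the logarithm (`strictConcaveOn_log_Ioi.concaveOn.le_map_sum`, restrict the sum to the
blocks valid at `x` by `Finset.sum_filter`, on which `p` still sums to `1`)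
`∑ p α * log (Y α) ≤ log (∑ p α * Y α)`.
Finally `log (Y α) = log N + (1 - s) * (-log (wt α)) + log (g (act α x)) ≥ log N + (1-s) * (7/100 * L) + log g`
(`neg_log_wt`). For invalid `α`, `kp L M x α = 0`. -/
theorem gibbs_step {L M : ℕ} (hL : 2 ≤ L) (hM : 8 ≤ M) {s : ℝ} (hs : s ≤ 1) {x : ℤ}
    (hx : ¬ (3 : ℤ) ∣ x) (g : ℤ → ℝ) (hg : ∀ y : ℤ, ¬ (3 : ℤ) ∣ y → 0 < g y) :
    Real.log (NN L M x) + (1 - s) * (7 / 100 * (L : ℝ))
        + ∑ α ∈ blk L M, kp L M x α * Real.log (g (act α x)) ≤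
      Real.log (∑ α ∈ blk L M, if valid α x then wt α ^ s * g (act α x) else 0) := by
  have hN : 0 < NN L M x := lt_of_lt_of_le (by positivity) (NN_ge hL hM hx)
  obtain ⟨N, hNdef⟩ : ∃ N : ℝ, N = NN L M x := ⟨_, rfl⟩
  rw [← hNdef] at hN ⊢
  -- the filtered set
  have hkp : ∀ α, valid α x → kp L M x α = wt α / N := by
    intro α hα
    unfold kp
    rw [if_pos hα, ← hNdef]
  have hkp0 : ∀ α, ¬ valid α x → kp L M x α = 0 := by
    intro α hα
    unfold kp
    rw [if_neg hα, zero_div]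
  have hsum : ∑ α ∈ (blk L M).filter (fun α => valid α x), wt α / N = 1 := by
    rw [← Finset.sum_div, Finset.sum_filter]
    have : (∑ α ∈ blk L M, if valid α x then wt α else 0) = N := by
      rw [hNdef]
      rfl
    rw [this, div_self hN.ne']
  have hlhs : ∑ α ∈ blk L M, kp L M x α * Real.log (g (act α x)) =
      ∑ α ∈ (blk L M).filter (fun α => valid α x), wt α / N * Real.log (g (act α x)) := by
    rw [Finset.sum_filter]
    refine Finset.sum_congr rfl fun α _ => ?_
    by_cases hα : valid α x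
    · rw [if_pos hα, hkp α hα]
    · rw [if_neg hα, hkp0 α hα, zero_mul]
  have hrhs : (∑ α ∈ blk L M, if valid α x then wt α ^ s * g (act α x) else 0) =
      ∑ α ∈ (blk L M).filter (fun α => valid α x),
        wt α / N * (N * wt α ^ (s - 1) * g (act α x)) := by
    rw [← Finset.sum_filter]
    refine Finset.sum_congr rfl fun α _ => ?_
    have hw := wt_pos α
    rw [Real.rpow_sub_one hw.ne']
    field_simp
  rw [hlhs, hrhs]
  have hJ := (strictConcaveOn_log_Ioi.concaveOn).le_map_sum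
    (t := (blk L M).filter (fun α => valid α x)) (w := fun α => wt α / N)
    (p := fun α => N * wt α ^ (s - 1) * g (act α x))
    (fun α _ => div_nonneg (wt_pos α).le hN.le) hsum
    (fun α hα => by
      have hv := (Finset.mem_filter.mp hα).2
      have h1 := hg _ (bact_unit hv)
      have h2 : 0 < wt α ^ (s - 1) := Real.rpow_pos_of_pos (wt_pos α) _
      exact Set.mem_Ioi.mpr (by positivity))
  simp only [smul_eq_mul] at hJ
  refine le_trans ?_ hJ
  have hlow : ∀ α ∈ (blk L M).filter (fun α => valid α x),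
      wt α / N * (Real.log N + (1 - s) * (7 / 100 * (L : ℝ))) +
        wt α / N * Real.log (g (act α x)) ≤
      wt α / N * Real.log (N * wt α ^ (s - 1) * g (act α x)) := by
    intro α hα
    have hv := (Finset.mem_filter.mp hα).2
    have hb := (Finset.mem_filter.mp hα).1
    have h1 := hg _ (bact_unit hv)
    have h2 : 0 < wt α ^ (s - 1) := Real.rpow_pos_of_pos (wt_pos α) _
    rw [← mul_add]
    refine mul_le_mul_of_nonneg_left ?_ (div_nonneg (wt_pos α).le hN.le)
    rw [Real.log_mul (by positivity) h1.ne', Real.log_mul hN.ne' h2.ne',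
      Real.log_rpow (wt_pos α)]
    have h3 := neg_log_wt hb
    have h4 : (1 - s) * (7 / 100 * (L : ℝ)) ≤ (1 - s) * (-Real.log (wt α)) :=
      mul_le_mul_of_nonneg_left h3 (by linarith)
    linarith
  have hfin := Finset.sum_le_sum hlow
  rw [Finset.sum_add_distrib, ← Finset.sum_mul, hsum, one_mul] at hfin
  exact hfin

end Pool.Agent.Lib.MP_d0d59f_nt.GE
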