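import Pool.Agent.Lib.MP_d0d59f_nt.AA.A6Cc
import Pool.Agent.Lib.MP_d0d59f_nt.GE.N1Const

/-! Row C2 (about 70 lines): the potential `|y| + c |d|`. -/

namespace Pool.Agent.Lib.MP_d0d59f_nt.GE

open Finset

/-- `wt α ≤ exp (-(7/100) L) < 1`: `neg_log_wt`. -/
theorem wt_le {L M : ℕ} {α : List ℕ} (h : α ∈ blk L M) : wt α ≤ Real.exp (-(7 / 100 * (L : ℝ))) := by
  have h1 := neg_log_wt h
  rw [← Real.log_le_iff_le_exp (wt_pos α)]
  linarith

/-- `wt α ≥ 1 / 2^(L*M)`, since `|α| ≤ L M` (`mem_blk`, `List.sum_le_card_nsmul`). -/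
theorem wt_ge {L M : ℕ} {α : List ℕ} (h : α ∈ blk L M) : 1 / 2 ^ (L * M) ≤ wt α := by
  obtain ⟨hlen, hbd, _, _⟩ := mem_blk.mp h
  have hsum : α.sum ≤ L * M := by
    have := List.sum_le_card_nsmul α M fun a ha => (hbd a ha).2
    rw [hlen, smul_eq_mul] at this
    exact this
  unfold wt
  refine div_le_div₀ (by positivity) (one_le_pow₀ (by norm_num)) (by positivity) ?_
  exact pow_le_pow_right₀ (by norm_num) hsum

/-- Let `q = exp (-(7/100) L) < 1` and `c = 1 + (3/2)^L / (1 - q)`. From the identity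
`|N| ≤ (2^|α| |y| + |d| cc α)/3^L = |y| / wt α + |d| (cc α / 2^|α|) / wt α` and `cc α ≤ 2^|α| (3/2)^L` (`AA.cc_le`),
and `c |d| ≤ c |d| / wt α - c |d| (1 - q) / wt α`. -/
theorem exists_pot {L : ℕ} (hL : 1 ≤ L) (M : ℕ) : ∃ c : ℝ, 1 ≤ c ∧ ∀ (d y N : ℤ), ∀ α ∈ blk L M,
    2 ^ α.sum * y = 3 ^ α.length * N + d * (AA.cc α : ℤ) →
      |(N : ℝ)| + c * |(d : ℝ)| ≤ (|(y : ℝ)| + c * |(d : ℝ)|) / wt α := by
  set q : ℝ := Real.exp (-(7 / 100 * (L : ℝ))) with hq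
  have hq1 : q < 1 := by
    rw [hq, Real.exp_lt_one_iff]
    have : (0 : ℝ) < L := by exact_mod_cast (by omega : 0 < L)
    linarith
  set D : ℝ := (3 / 2 : ℝ) ^ L with hD
  have hD0 : 0 < D := by positivity
  have hc0 : 0 ≤ D / (1 - q) := div_nonneg hD0.le (by linarith)
  refine ⟨1 + D / (1 - q), by linarith, ?_⟩
  set c : ℝ := 1 + D / (1 - q) with hc
  intro d y N α hα hid
  obtain ⟨hlen, hbd, _, _⟩ := mem_blk.mp hα
  have hw0 := wt_pos α
  have hwq : wt α ≤ q := wt_le hα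
  have hcc : (AA.cc α : ℝ) ≤ 2 ^ α.sum * D := by
    have h1 := AA.cc_le (e := α) fun a ha => (hbd a ha).1
    rw [hlen] at h1
    have h2 : (2 : ℝ) ^ α.sum * ((3 / 2 : ℝ) ^ L - 1) ≤ 2 ^ α.sum * D := by
      refine mul_le_mul_of_nonneg_left ?_ (by positivity)
      rw [hD]
      linarith
    exact h1.trans h2
  have hid' : (3 : ℝ) ^ α.length * N = 2 ^ α.sum * y - d * AA.cc α := by
    have : ((2 : ℝ) ^ α.sum * y) = 3 ^ α.length * N + d * (AA.cc α : ℝ) := by exact_mod_cast hid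
    linarith
  have h3 : (3 : ℝ) ^ α.length * |(N : ℝ)| ≤ 2 ^ α.sum * |(y : ℝ)| + |(d : ℝ)| * AA.cc α := by
    have h4 : |(3 : ℝ) ^ α.length * N| = 3 ^ α.length * |(N : ℝ)| := by
      rw [abs_mul, abs_of_pos (by positivity)]
    rw [← h4, hid']
    refine (abs_sub _ _).trans (le_of_eq ?_)
    rw [abs_mul, abs_mul, abs_of_pos (by positivity : (0 : ℝ) < 2 ^ α.sum),
      abs_of_nonneg (by positivity : (0 : ℝ) ≤ (AA.cc α : ℝ))]
  have hwt : wt α = 3 ^ α.length / 2 ^ α.sum := rfl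
  have h5 : wt α * |(N : ℝ)| ≤ |(y : ℝ)| + |(d : ℝ)| * D := by
    rw [hwt, div_mul_eq_mul_div, div_le_iff₀ (by positivity)]
    calc (3 : ℝ) ^ α.length * |(N : ℝ)| ≤ 2 ^ α.sum * |(y : ℝ)| + |(d : ℝ)| * AA.cc α := h3
      _ ≤ 2 ^ α.sum * |(y : ℝ)| + |(d : ℝ)| * (2 ^ α.sum * D) := by
          have := mul_le_mul_of_nonneg_left hcc (abs_nonneg (d : ℝ))
          linarith
      _ = (|(y : ℝ)| + |(d : ℝ)| * D) * 2 ^ α.sum := by ring
  rw [le_div_iff₀ hw0]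
  have h6 : D + c * wt α ≤ c := by
    have h7 : D = (c - 1) * (1 - q) := by
      rw [hc]
      have : (1 - q) ≠ 0 := by linarith
      field_simp
      ring
    have h8 : 0 ≤ c - 1 := by rw [hc]; linarith
    have h9 : c * wt α ≤ c * q := mul_le_mul_of_nonneg_left hwq (by linarith)
    rw [h7]
    nlinarith
  have h10 : |(d : ℝ)| * (D + c * wt α) ≤ |(d : ℝ)| * c :=
    mul_le_mul_of_nonneg_left h6 (abs_nonneg _)
  nlinarith

end Pool.Agent.Lib.MP_d0d59f_nt.GE
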