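import Pool.Agent.Lib.MP_d0d59f_nt.AA.B1Path

/-! Row C3 (about 110 lines): predecessor sets of the nodes of one level are disjoint. -/

namespace Pool.Agent.Lib.MP_d0d59f_nt.GE

open Finset

/-- The integers whose `T_d`-orbit passes through `a`. -/
def pre (d a : ℤ) : Set ℤ := {m | ∃ k, (T d)^[k] m = a}

/-- `a` is a periodic point of `T_d`. -/
def pdc (d a : ℤ) : Prop := ∃ p, 1 ≤ p ∧ (T d)^[p] a = a

theorem self_mem_pre (d a : ℤ) : a ∈ pre d a := ⟨0, rfl⟩

/-- `Function.iterate_add_apply`. -/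
theorem pre_trans {d a b : ℤ} (h : b ∈ pre d a) : pre d b ⊆ pre d a := by
  obtain ⟨k, hk⟩ := h
  rintro m ⟨j, hj⟩
  exact ⟨k + j, by rw [Function.iterate_add_apply, hj, hk]⟩

/-- `AA.isPath_iterate`. -/
theorem path_mem_pre {d : ℤ} (hd : Odd d) {e : List ℕ} {N y : ℤ} (h : AA.isPath d e N y) :
    N ∈ pre d y :=
  ⟨e.sum, AA.isPath_iterate hd h⟩

/-- If `N` is periodic (`T^p N = N`) and `T^k N = a` then `T^p a = a`. -/
theorem pdc_of_pre {d a N : ℤ} (h : N ∈ pre d a) (hN : pdc d N) : pdc d a := by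
  obtain ⟨k, hk⟩ := h
  obtain ⟨p, hp, hpN⟩ := hN
  refine ⟨p, hp, ?_⟩
  rw [← hk, ← Function.iterate_add_apply, Nat.add_comm, Function.iterate_add_apply, hpN]

/-- `card_filter` over `range (m + n)`; or induction on `n` with `ones_succ`,
`Function.iterate_add_apply`. -/
theorem ones_add (d x : ℤ) (m n : ℕ) : ones d x (m + n) = ones d x m + ones d ((T d)^[m] x) n := by
  induction n with
  | zero => simp [ones_zero]
  | succ n ih =>
    rw [← Nat.add_assoc, ones_succ, ih, ones_succ, ← Function.iterate_add_apply, Nat.add_comm n m]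
    omega

theorem c3_ones_one (d x : ℤ) : ones d x 1 = if x % 2 = 1 then 1 else 0 := by
  have h := ones_succ d x 0
  rw [ones_zero, Nat.zero_add, Nat.zero_add] at h
  exact h

/-- `T^j (2^j M) = M` passes only through `2^(j-i) M`, which is even for `i < j`. -/
theorem ones_pow (d : ℤ) (j : ℕ) (M : ℤ) : ones d (2 ^ j * M) j = 0 ∧ (T d)^[j] (2 ^ j * M) = M := by
  induction j with
  | zero => simp [ones_zero]
  | succ j ih =>
    have h3 : (2 : ℤ) ^ (j + 1) * M = 2 * (2 ^ j * M) := by rw [pow_succ]; ring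
    have h0 : (2 : ℤ) ^ (j + 1) * M % 2 = 0 := by rw [h3]; exact Int.mul_emod_right 2 _
    have h2 : T d (2 ^ (j + 1) * M) = 2 ^ j * M := by
      have h1 := T_even (d := d) h0
      rw [h3] at h1 ⊢
      linarith
    constructor
    · rw [Nat.add_comm j 1, ones_add, Function.iterate_one, Nat.add_comm 1 j, h2, ih.1,
        c3_ones_one, if_neg (by omega)]
    · rw [Function.iterate_succ_apply, h2, ih.2]

/-- Induction on `e`: for odd `M'`, `2^a M = 3 M' + d`: `T M' = 2^(a-1) M`, so `ones d M' a = 1`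
(`ones_add`, `ones_pow`); `AA.isPath_iterate`, `AA.isPath_odd_right`. -/
theorem ones_path {d : ℤ} (hd : Odd d) {e : List ℕ} {N y : ℤ} (h : AA.isPath d e N y) :
    ones d N e.sum = e.length := by
  induction e generalizing y with
  | nil => simp [ones_zero]
  | cons a e ih =>
    obtain ⟨M', h1, h2, h3, _⟩ := h
    have hodd := AA.isPath_odd_right h1
    obtain ⟨b, rfl⟩ : ∃ b, a = 1 + b := ⟨a - 1, by omega⟩
    have hT : T d M' = 2 ^ b * y := by
      have h4 := T_odd hd (Int.odd_iff.mp hodd)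
      rw [← h3, pow_add, pow_one] at h4
      linarith
    rw [List.sum_cons, Nat.add_comm (1 + b) e.sum, ones_add, ih h1, AA.isPath_iterate hd h1,
      ones_add, Function.iterate_one, hT, (ones_pow d b y).1, c3_ones_one,
      if_pos (Int.odd_iff.mp hodd), List.length_cons]

theorem c3_aux {d : ℤ} (hd : Odd d) {e e' : List ℕ} {N N' y : ℤ} (h : AA.isPath d e N y)
    (h' : AA.isPath d e' N' y) (hl : e.length = e'.length) (hne : e ≠ e') (hy : ¬ pdc d y)
    {m : ℤ} {k j : ℕ} (hk : (T d)^[k] m = N) (hj : (T d)^[k + j] m = N') : False := by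
  have hNN : (T d)^[j] N = N' := by
    rw [← hk, ← Function.iterate_add_apply, Nat.add_comm j k, hj]
  rcases Nat.eq_zero_or_pos j with h0 | hpos
  · subst h0
    have : N = N' := by simpa using hNN
    subst this
    exact hne (AA.isPath_unique h h' hl).1
  · have i1 : (T d)^[e'.sum + j] N = y := by
      rw [Function.iterate_add_apply, hNN, AA.isPath_iterate hd h']
    have i2 : (T d)^[e.sum] N = y := AA.isPath_iterate hd h
    have hper : ∀ u v : ℕ, u < v → (T d)^[u] N = y → (T d)^[v] N = y → False := by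
      intro u v huv hu hv
      apply hy
      refine ⟨v - u, by omega, ?_⟩
      rw [← hu, ← Function.iterate_add_apply, Nat.sub_add_cancel huv.le, hv, hu]
    have hs : e'.sum + j = e.sum := by
      rcases lt_trichotomy (e'.sum + j) e.sum with hlt | heq | hgt
      · exact (hper _ _ hlt i1 i2).elim
      · exact heq
      · exact (hper _ _ hgt i2 i1).elim
    have o1 := ones_path hd h
    have o2 := ones_path hd h'
    rw [← hs, Nat.add_comm, ones_add, hNN, o2, hl] at o1
    have o3 : ones d N j = 0 := by omega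
    obtain ⟨b, rfl⟩ : ∃ b, j = 1 + b := ⟨j - 1, by omega⟩
    rw [ones_add, c3_ones_one, if_pos (Int.odd_iff.mp (AA.isPath_odd_left h))] at o3
    omega

/-- Let `T^k m = N`, `T^k' m = N'`, say `k ≤ k'`, so `N' = T^j N`, `j = k' - k`. If `j = 0` then `N = N'` and
`e = e'` by `AA.isPath_unique`. If `j > 0`: `T^(j+|e'|) N = y = T^|e| N`, and `y` is not periodic, so
`j + |e'| = |e|` (otherwise `y` is mapped to itself by a positive number of steps), so by `ones_add` and
`ones_path`: `e.length = ones d N |e| = ones d N j + e'.length`, so `ones d N j = 0`, but `N` is odd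
(`AA.isPath_odd_left`) and `j ≥ 1`. By symmetry the case `k' ≤ k` is the same (`wlog` or a lemma). -/
theorem pre_disjoint {d : ℤ} (hd : Odd d) {e e' : List ℕ} {N N' y : ℤ} (h : AA.isPath d e N y)
    (h' : AA.isPath d e' N' y) (hl : e.length = e'.length) (hne : e ≠ e') (hy : ¬ pdc d y) :
    Disjoint (pre d N) (pre d N') := by
  rw [Set.disjoint_left]
  rintro m ⟨k, hk⟩ ⟨k', hk'⟩
  rcases le_total k k' with hle | hle
  · obtain ⟨j, rfl⟩ := Nat.exists_eq_add_of_le hle
    exact c3_aux hd h h' hl hne hy hk hk'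
  · obtain ⟨j, rfl⟩ := Nat.exists_eq_add_of_le hle
    exact c3_aux hd h' h hl.symm hne.symm hy hk' hk

end Pool.Agent.Lib.MP_d0d59f_nt.GE
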