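import Pool.Agent.Lib.MP_d0d59f_nt.GE.C3Disj

/-! Row C4 (about 110 lines): a non-periodic odd predecessor prime to `3`. -/

namespace Pool.Agent.Lib.MP_d0d59f_nt.GE

open Finset

/-- `T^j` is injective on periodic points: with a common period `P ≥ j` (multiple of both periods),
`x = T^(P-j) (T^j x)`. -/
theorem pdc_inj {d x y : ℤ} {j : ℕ} (hx : pdc d x) (hy : pdc d y)
    (h : (T d)^[j] x = (T d)^[j] y) : x = y := by
  obtain ⟨p, hp, hpx⟩ := hx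
  obtain ⟨q, hq, hqy⟩ := hy
  have h1 : Function.IsPeriodicPt (T d) p x := hpx
  have h2 : Function.IsPeriodicPt (T d) q y := hqy
  have h3 : (T d)^[p * (q * (j + 1))] x = x := h1.mul_const (q * (j + 1))
  have h4 : (T d)^[q * (p * (j + 1))] y = y := h2.mul_const (p * (j + 1))
  have h5 : q * (p * (j + 1)) = p * (q * (j + 1)) := by ring
  have h6 : j ≤ p * (q * (j + 1)) := by
    have : 1 ≤ p * q := Nat.mul_pos hp hq
    nlinarith
  rw [h5] at h4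
  obtain ⟨c, hc⟩ := Nat.exists_eq_add_of_le' h6
  rw [hc, Function.iterate_add_apply] at h3 h4
  rw [← h3, ← h4, h]

/-- `T^k N = a` and `T^(k-j) N = 2^j a` if `3 N + d = 2^k a`, `N` odd, `1 ≤ j < k`: `AA.b1_step`. -/
theorem kid_iter {d : ℤ} (hd : Odd d) {k j : ℕ} {N a : ℤ} (hN : Odd N) (hj : j < k)
    (h : 3 * N + d = 2 ^ k * a) : (T d)^[k - j] N = 2 ^ j * a := by
  refine AA.b1_step hd (by omega) hN ?_
  rw [h, ← mul_assoc, ← pow_add]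
  congr 2
  omega

theorem c4_shift {d N : ℤ} (i : ℕ) (hN : pdc d N) : pdc d ((T d)^[i] N) := by
  obtain ⟨q, hq, h⟩ := hN
  exact ⟨q, hq, by rw [← Function.iterate_add_apply, Nat.add_comm, Function.iterate_add_apply, h]⟩

/-- If `3 N + d = 2^j a`, `3 N' + d = 2^k a` with `1 ≤ j < k` then not both `N, N'` are periodic: both
`T^j N = a` and `T^j (T^(k-j) N') = a`, so `N = T^(k-j) N' = 2^j a` by `pdc_inj`, but `N` is odd
(`T^i N'` is periodic as well). -/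
theorem kids_not_both {d : ℤ} (hd : Odd d) {j k : ℕ} (hj : 1 ≤ j) (hjk : j < k) {N N' a : ℤ}
    (hN : Odd N) (hN' : Odd N') (h : 3 * N + d = 2 ^ j * a) (h' : 3 * N' + d = 2 ^ k * a) :
    ¬ (pdc d N ∧ pdc d N') := by
  rintro ⟨hp, hp'⟩
  have h1 : (T d)^[j] N = a := by
    have := kid_iter hd hN (j := 0) (k := j) (by omega) h
    simpa using this
  have h2 : (T d)^[k - j] N' = 2 ^ j * a := kid_iter hd hN' hjk h'
  have h3 : (T d)^[j] ((T d)^[k - j] N') = a := by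
    rw [← Function.iterate_add_apply]
    have h4 : j + (k - j) = k := by omega
    rw [h4]
    have := kid_iter hd hN' (j := 0) (k := k) (by omega) h'
    simpa using this
  have h5 : N = (T d)^[k - j] N' := pdc_inj hp (c4_shift _ hp') (h1.trans h3.symm)
  rw [h2] at h5
  obtain ⟨c, rfl⟩ : ∃ c, j = c + 1 := ⟨j - 1, by omega⟩
  rw [h5, pow_succ] at hN
  have h6 : Even (2 ^ c * 2 * a) := ⟨2 ^ c * a, by ring⟩
  exact (Int.not_odd_iff_even.2 h6) hN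

theorem c4_odd {d N a : ℤ} (hd : Odd d) {k : ℕ} (hk : 1 ≤ k) (h : 3 * N + d = 2 ^ k * a) : Odd N := by
  obtain ⟨c, rfl⟩ : ∃ c, k = c + 1 := ⟨k - 1, by omega⟩
  have h1 : 3 * N + d = 2 * (2 ^ c * a) := by
    rw [h]
    ring
  obtain ⟨e, he⟩ := hd
  generalize 2 ^ c * a = u at h1
  rw [Int.odd_iff]
  omega

theorem c4_bound {d N a : ℤ} {k : ℕ} (hk : k ≤ 6) (h : 3 * N + d = 2 ^ k * a) :
    |(N : ℝ)| ≤ 22 * (|(a : ℝ)| + |(d : ℝ)|) := by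
  have h1 : 3 * (N : ℝ) + d = 2 ^ k * a := by exact_mod_cast h
  have h2 : (3 : ℝ) * |(N : ℝ)| ≤ 2 ^ k * |(a : ℝ)| + |(d : ℝ)| := by
    have h3 : |3 * (N : ℝ)| = |2 ^ k * (a : ℝ) - d| := by
      congr 1
      linarith
    rw [abs_mul, abs_of_pos (by norm_num : (0 : ℝ) < 3)] at h3
    rw [h3]
    refine (abs_sub _ _).trans ?_
    rw [abs_mul, abs_of_pos (by positivity : (0 : ℝ) < 2 ^ k)]
  have h4 : (2 : ℝ) ^ k ≤ 2 ^ 6 := pow_le_pow_right₀ (by norm_num) hk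
  have h5 : (2 : ℝ) ^ k * |(a : ℝ)| ≤ 2 ^ 6 * |(a : ℝ)| := mul_le_mul_of_nonneg_right h4 (abs_nonneg _)
  have h6 := abs_nonneg (a : ℝ)
  have h7 := abs_nonneg (d : ℝ)
  norm_num at h5
  linarith

theorem c4_pre {d N a : ℤ} (hd : Odd d) {k : ℕ} (hk : 1 ≤ k) (h : 3 * N + d = 2 ^ k * a) : N ∈ pre d a :=
  ⟨k, AA.b1_step hd hk (c4_odd hd hk h) h.symm⟩

theorem c4_pick {d a : ℤ} (hd : Odd d) {j k : ℕ} (hj : 1 ≤ j) (hjk : j < k) (hk : k ≤ 6) {N N' : ℤ}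
    (h3 : ¬ (3 : ℤ) ∣ N) (h3' : ¬ (3 : ℤ) ∣ N') (h : 3 * N + d = 2 ^ j * a) (h' : 3 * N' + d = 2 ^ k * a) :
    ∃ N : ℤ, Odd N ∧ ¬ (3 : ℤ) ∣ N ∧ ¬ pdc d N ∧ N ∈ pre d a ∧
      |(N : ℝ)| ≤ 22 * (|(a : ℝ)| + |(d : ℝ)|) := by
  have hN := c4_odd hd hj h
  have hN' := c4_odd hd (by omega) h'
  by_cases hp : pdc d N
  · exact ⟨N', hN', h3', fun hp' => kids_not_both hd hj hjk hN hN' h h' ⟨hp, hp'⟩, c4_pre hd (by omega) h',
      c4_bound hk h'⟩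
  · exact ⟨N, hN, h3, hp, c4_pre hd hj h, c4_bound (by omega) h⟩

/-- Choose `k₀ ∈ {1, 2}` with `3 ∣ 2^k₀ a - d` and let `N_i = (2^(k₀ + 2 i) a - d)/3` for `i = 0, 1, 2`; then
`N_{i+1} = 4 N_i + d ≡ N_i + d` modulo `3`, so exactly one of the three is divisible by `3` and two are not; by
`kids_not_both` one of these two is not periodic. `N_i` is odd since `3 N_i = 2^k a - d` is odd.
`|N| ≤ (2^6 |a| + |d|)/3 ≤ 22 (|a| + |d|)`. `N ∈ pre d a` by `AA.b1_step`. -/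
theorem exists_kid {d a : ℤ} (hd : Odd d) (h3 : ¬ (3 : ℤ) ∣ d) (ha : ¬ (3 : ℤ) ∣ a) :
    ∃ N : ℤ, Odd N ∧ ¬ (3 : ℤ) ∣ N ∧ ¬ pdc d N ∧ N ∈ pre d a ∧
      |(N : ℝ)| ≤ 22 * (|(a : ℝ)| + |(d : ℝ)|) := by
  obtain ⟨k, hk1, hk2, N₀, h0⟩ : ∃ k : ℕ, 1 ≤ k ∧ k ≤ 2 ∧ ∃ N₀ : ℤ, 3 * N₀ + d = 2 ^ k * a := by
    by_cases h : (2 * a - d) % 3 = 0
    · exact ⟨1, le_rfl, by norm_num, (2 * a - d) / 3, by omega⟩
    · have ha' : a % 3 = 1 ∨ a % 3 = 2 := by omega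
      have hd' : d % 3 = 1 ∨ d % 3 = 2 := by omega
      exact ⟨2, by norm_num, le_rfl, (4 * a - d) / 3, by
        rcases ha' with ha' | ha' <;> rcases hd' with hd' | hd' <;> omega⟩
  have h1 : 3 * (4 * N₀ + d) + d = 2 ^ (k + 2) * a := by
    rw [pow_add, mul_right_comm, ← h0]
    ring
  have h2 : 3 * (4 * (4 * N₀ + d) + d) + d = 2 ^ (k + 4) * a := by
    rw [pow_add, mul_right_comm, ← h0]
    ring
  by_cases hN0 : (3 : ℤ) ∣ N₀
  · exact c4_pick hd (j := k + 2) (k := k + 4) (by omega) (by omega) (by omega) (by omega) (by omega) h1 h2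
  · by_cases hN1 : (3 : ℤ) ∣ 4 * N₀ + d
    · exact c4_pick hd (j := k) (k := k + 4) hk1 (by omega) (by omega) hN0 (by omega) h0 h2
    · exact c4_pick hd (j := k) (k := k + 2) hk1 (by omega) (by omega) hN0 hN1 h0 h1

end Pool.Agent.Lib.MP_d0d59f_nt.GE
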