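import Pool.Agent.Lib.MP_d0d59f_nt.GE.N6Exists

/-! Row N7 (about 70 lines): a bounded positive function with `h ≤ ∑ w^s h`. -/

namespace Pool.Agent.Lib.MP_d0d59f_nt.GE

open Finset

open Classical in
/-- `h = ∑_{j<J} Z_j` with `J` from `exists_J`. Periodic modulo `3^(J*L+1)` by `ZZ_congr` (for `j < J`,
`3^(j*L+1)` divides `3^(J*L+1)`; `Int.ModEq.of_dvd`), `h ≥ Z_0 = 1` on units (`ZZ_pos`),
`h ≤ H := ∑_{j<J} (∑ wt α ^ s)^j` (`ZZ_le`), and
`∑_α [valid] wt α ^ s * h (act α x) = ∑_{j<J} Z_{j+1}(x) = h x - 1 + Z_J(x) ≥ h x`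
(`Finset.mul_sum`, `Finset.sum_comm`, `Finset.sum_range_succ`, `Finset.sum_range_succ'`). -/
theorem exists_weight {s : ℝ} (hs : s < 1) : ∃ (L M K : ℕ) (H : ℝ) (h : ℤ → ℝ), 2 ≤ L ∧ 8 ≤ M ∧
    1 ≤ K ∧ (∀ x y : ℤ, x ≡ y [ZMOD 3 ^ K] → h x = h y) ∧
    (∀ x : ℤ, ¬ (3 : ℤ) ∣ x → 1 ≤ h x) ∧ (∀ x : ℤ, h x ≤ H) ∧
    ∀ x : ℤ, ¬ (3 : ℤ) ∣ x →
      h x ≤ ∑ α ∈ blk L M, if valid α x then wt α ^ s * h (act α x) else 0 := by
  obtain ⟨L, M, hL, hM, J, hJ, hZ⟩ := exists_J hs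
  refine ⟨L, M, J * L + 1, ∑ j ∈ range J, (∑ α ∈ blk L M, wt α ^ s) ^ j,
    fun x => ∑ j ∈ range J, ZZ s L M j x, hL, hM, by omega, ?_, ?_, ?_, ?_⟩
  · intro x y hxy
    refine Finset.sum_congr rfl fun j hj => ?_
    refine ZZ_congr s (hxy.of_dvd ?_)
    refine pow_dvd_pow 3 ?_
    have := Nat.mul_le_mul_right L (Finset.mem_range.mp hj).le
    omega
  · intro x hx
    have h1 : (∑ j ∈ range 1, ZZ s L M j x) ≤ ∑ j ∈ range J, ZZ s L M j x :=
      Finset.sum_le_sum_of_subset_of_nonneg (Finset.range_mono hJ)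
        (fun j _ _ => (ZZ_pos s hL hM j hx).le)
    have h2 : (∑ j ∈ range 1, ZZ s L M j x) = 1 := by
      rw [Finset.sum_range_one]
      rfl
    rw [h2] at h1
    exact h1
  · intro x
    exact Finset.sum_le_sum fun j _ => ZZ_le s L M j x
  · intro x hx
    have h1 : (∑ α ∈ blk L M, if valid α x then wt α ^ s * ∑ j ∈ range J, ZZ s L M j (act α x)
        else 0) = ∑ j ∈ range J, ZZ s L M (j + 1) x := by
      have h2 : ∀ j ∈ range J, ZZ s L M (j + 1) x =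
          ∑ α ∈ blk L M, if valid α x then wt α ^ s * ZZ s L M j (act α x) else 0 :=
        fun j _ => rfl
      rw [Finset.sum_congr rfl h2, Finset.sum_comm]
      refine Finset.sum_congr rfl fun α _ => ?_
      by_cases hv : valid α x
      · simp only [if_pos hv]
        rw [Finset.mul_sum]
      · simp only [if_neg hv, Finset.sum_const_zero]
    rw [h1]
    have h3 := Finset.sum_range_succ (fun j => ZZ s L M j x) J
    rw [Finset.sum_range_succ'] at h3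
    have h4 : ZZ s L M 0 x = 1 := rfl
    have h5 := hZ x hx
    rw [h4] at h3
    linarith

end Pool.Agent.Lib.MP_d0d59f_nt.GE
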