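import Pool.Agent.Lib.MP_d0d59f_nt.GE.C1Path
import Pool.Agent.Lib.MP_d0d59f_nt.GE.C2Pot
import Pool.Agent.Lib.MP_d0d59f_nt.GE.C3Disj
import Pool.Agent.Lib.MP_d0d59f_nt.GE.N7Weight

/-! Row C5 (about 150 lines): the counting induction. -/

namespace Pool.Agent.Lib.MP_d0d59f_nt.GE

open Finset

/-- Number of `m` with orbit through `y` and `|m| + c|d| ≤ R`. -/
noncomputable def cn (d : ℤ) (c R : ℝ) (y : ℤ) : ℕ :=
  Set.ncard {m : ℤ | m ∈ pre d y ∧ |(m : ℝ)| + c * |(d : ℝ)| ≤ R}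

/-- The set is contained in `[-R, R]` (`c ≥ 0`). -/
theorem cn_finite (d : ℤ) {c : ℝ} (hc : 0 ≤ c) (R : ℝ) (y : ℤ) :
    {m : ℤ | m ∈ pre d y ∧ |(m : ℝ)| + c * |(d : ℝ)| ≤ R}.Finite := by
  refine (Set.finite_Icc (-⌈R⌉) ⌈R⌉).subset ?_
  rintro m ⟨_, hm⟩
  have h1 : 0 ≤ c * |(d : ℝ)| := mul_nonneg hc (abs_nonneg _)
  have h2 : |(m : ℝ)| ≤ R := by linarith
  have h3 : |(m : ℝ)| ≤ (⌈R⌉ : ℝ) := h2.trans (Int.le_ceil R)
  have h4 := abs_le.mp h3
  constructor
  · have := h4.1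
    exact_mod_cast this
  · have := h4.2
    exact_mod_cast this

theorem cn_mono (d : ℤ) {c : ℝ} (hc : 0 ≤ c) {R R' : ℝ} (h : R ≤ R') (y : ℤ) :
    cn d c R y ≤ cn d c R' y := by
  refine Set.ncard_le_ncard ?_ (cn_finite d hc R' y)
  rintro m ⟨h1, h2⟩
  exact ⟨h1, h2.trans h⟩

theorem one_le_cn (d : ℤ) {c : ℝ} (hc : 0 ≤ c) {R : ℝ} {y : ℤ}
    (h : |(y : ℝ)| + c * |(d : ℝ)| ≤ R) : 1 ≤ cn d c R y := by
  rw [cn, Nat.one_le_iff_ne_zero]
  exact Set.ncard_ne_zero_of_mem (a := y) ⟨self_mem_pre d y, h⟩ (cn_finite d hc R y)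

/-- The sets of the different `α ∈ W` are disjoint (`pre_disjoint`; all words have length `L`) subsets of
the set of `y` (`path_mem_pre`, `pre_trans`); the cardinality of a finite disjoint union
(`Set.ncard_iUnion` / `Finset.card_biUnion` after `Set.Finite.toFinset`). -/
theorem cn_sum {d : ℤ} (hd : Odd d) {c : ℝ} (hc : 0 ≤ c) (R : ℝ) {y : ℤ} (hy : ¬ pdc d y)
    {L : ℕ} (W : Finset (List ℕ)) (hlen : ∀ α ∈ W, α.length = L)
    (hW : ∀ α ∈ W, AA.isPath d α (actd d α y) y) :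
    ∑ α ∈ W, cn d c R (actd d α y) ≤ cn d c R y := by
  classical
  have hcard : ∀ z : ℤ, cn d c R z = (cn_finite d hc R z).toFinset.card := fun z =>
    Set.ncard_eq_toFinset_card _ (cn_finite d hc R z)
  rw [hcard y]
  simp_rw [hcard]
  rw [← Finset.card_biUnion]
  · refine Finset.card_le_card ?_
    intro m hm
    rw [Finset.mem_biUnion] at hm
    obtain ⟨α, hα, hm⟩ := hm
    rw [Set.Finite.mem_toFinset] at hm ⊢
    exact ⟨pre_trans (path_mem_pre hd (hW α hα)) hm.1, hm.2⟩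
  · intro α hα β hβ hne
    have h1 := pre_disjoint hd (hW α hα) (hW β hβ) ((hlen α hα).trans (hlen β hβ).symm) hne hy
    rw [Function.onFun, Finset.disjoint_left]
    intro m hm hm'
    rw [Set.Finite.mem_toFinset] at hm hm'
    exact (Set.disjoint_left.mp h1) hm.1 hm'.1

/-- **Counting.** Let `L, M, K, H₀, h` be as in `exists_weight`, `c` as in `exists_pot`,
`T₀ = 2^(L M)`, `q = exp (-(7/100) L) < 1`, `κ = T₀^(-s) / max H₀ 1`. Fix `d` and take `H`, `W` from `transfer`.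
Claim: for all `k`, all odd non-periodic `y` prime to `3` and all `1 ≤ t ≤ T₀ / q^k`:
`κ t^s H(y) ≤ cn d c (t (|y| + c|d|)) y`. If `t ≤ T₀` the left side is `≤ 1` and `one_le_cn` applies (in
particular `k = 0`). If `t > T₀`, then for `α ∈ W y` the node `y' = actd d α y` is odd, prime to `3`, not
periodic (`AA.isPath_odd_left`, `pdc_of_pre`, `path_mem_pre`), `1 ≤ t wt α` (`wt_ge`),
`t wt α ≤ T₀ / q^(k-1)` (`wt_le`), and `t wt α (|y'| + c|d|) ≤ t (|y| + c|d|)` (`exists_pot`,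
`AA.isPath_identity`), so by `cn_sum`, `cn_mono` and induction
`cn (y) ≥ ∑ cn(y') ≥ κ t^s ∑ wt α ^ s H(y') ≥ κ t^s H(y)` (`Real.mul_rpow`). Finally `H y ≥ 1`. -/
theorem count_main {s : ℝ} (hs0 : 0 < s) (hs : s < 1) : ∃ c κ : ℝ, 1 ≤ c ∧ 0 < κ ∧
    ∀ d y : ℤ, Odd d → ¬ (3 : ℤ) ∣ d → Odd y → ¬ (3 : ℤ) ∣ y → ¬ pdc d y → ∀ t : ℝ, 1 ≤ t →
      κ * t ^ s ≤ cn d c (t * (|(y : ℝ)| + c * |(d : ℝ)|)) y := by
  obtain ⟨L, M, K, H₀, h, hL, hM, hK, hper, h1, h2, hsub⟩ := exists_weight hs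
  obtain ⟨c, hc1, hpot⟩ := exists_pot (by omega : 1 ≤ L) M
  have hc0 : 0 ≤ c := by linarith
  set T₀ : ℝ := 2 ^ (L * M) with hT₀
  have hT₀1 : 1 ≤ T₀ := one_le_pow₀ (by norm_num)
  have hT₀pos : 0 < T₀ := by linarith
  set q : ℝ := Real.exp (-(7 / 100 * (L : ℝ))) with hq
  have hq0 : 0 < q := Real.exp_pos _
  have hq1 : q < 1 := by
    rw [hq, Real.exp_lt_one_iff]
    have : (0 : ℝ) < L := by exact_mod_cast (by omega : 0 < L)
    linarith
  set m : ℝ := max H₀ 1 with hm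
  have hm0 : 0 < m := lt_of_lt_of_le one_pos (le_max_right _ _)
  have hTs : 0 < T₀ ^ s := Real.rpow_pos_of_pos hT₀pos s
  refine ⟨c, 1 / (T₀ ^ s * m), hc1, by positivity, ?_⟩
  set κ : ℝ := 1 / (T₀ ^ s * m) with hκ
  have hκ0 : 0 < κ := by positivity
  intro d y₀ hd h3 hy₀ hy₀3 hy₀p t₀ ht₀
  obtain ⟨H, W, hH1, hH2, hWsub, hWpath, hHsub⟩ := transfer hper h1 h2 hsub hd h3
  -- the base case
  have base : ∀ (y : ℤ) (t : ℝ), 1 ≤ t → t ≤ T₀ → ¬ (3 : ℤ) ∣ y →
      κ * t ^ s * H y ≤ cn d c (t * (|(y : ℝ)| + c * |(d : ℝ)|)) y := by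
    intro y t ht1 ht hy3
    have hone : (1 : ℝ) ≤ cn d c (t * (|(y : ℝ)| + c * |(d : ℝ)|)) y := by
      have h5 : |(y : ℝ)| + c * |(d : ℝ)| ≤ t * (|(y : ℝ)| + c * |(d : ℝ)|) := by
        have h6 : 0 ≤ |(y : ℝ)| + c * |(d : ℝ)| := by positivity
        nlinarith
      exact_mod_cast one_le_cn d hc0 h5
    refine le_trans ?_ hone
    have h5 : t ^ s ≤ T₀ ^ s := Real.rpow_le_rpow (by linarith) ht hs0.le
    have h6 : H y ≤ m := (hH2 y).trans (le_max_left _ _)
    have h7 : 0 ≤ H y := by linarith [hH1 y hy3]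
    have h8 : 0 ≤ t ^ s := Real.rpow_nonneg (by linarith) s
    calc κ * t ^ s * H y ≤ κ * T₀ ^ s * m := by
          have := mul_le_mul h5 h6 h7 hTs.le
          nlinarith
      _ = 1 := by rw [hκ]; field_simp
  -- the induction
  have key : ∀ (k : ℕ) (y : ℤ) (t : ℝ), 1 ≤ t → t ≤ T₀ / q ^ k → Odd y → ¬ (3 : ℤ) ∣ y →
      ¬ pdc d y → κ * t ^ s * H y ≤ cn d c (t * (|(y : ℝ)| + c * |(d : ℝ)|)) y := by
    intro k
    induction k with
    | zero =>
      intro y t ht1 ht _ hy3 _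
      exact base y t ht1 (by simpa using ht) hy3
    | succ k ih =>
      intro y t ht1 ht hy hy3 hyp
      rcases le_or_gt t T₀ with hle | hgt
      · exact base y t ht1 hle hy3
      · have hts : 0 < t ^ s := Real.rpow_pos_of_pos (by linarith) s
        have hsum := cn_sum hd hc0 (t * (|(y : ℝ)| + c * |(d : ℝ)|)) hyp (L := L) (W y)
          (fun α hα => (mem_blk.mp (hWsub y hα)).1) (fun α hα => (hWpath y hy3 hy α hα).1)
        have hstep : ∀ α ∈ W y, κ * t ^ s * (wt α ^ s * H (actd d α y)) ≤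
            (cn d c (t * (|(y : ℝ)| + c * |(d : ℝ)|)) (actd d α y) : ℝ) := by
          intro α hα
          obtain ⟨hp, hu⟩ := hWpath y hy3 hy α hα
          have hblk := hWsub y hα
          have hw0 := wt_pos α
          have hodd : Odd (actd d α y) := AA.isPath_odd_left hp
          have hnp : ¬ pdc d (actd d α y) := fun h9 => hyp (pdc_of_pre (path_mem_pre hd hp) h9)
          have hw1 : 1 ≤ t * wt α := by
            have h5 := wt_ge hblk
            have h6 : (1 : ℝ) = T₀ * (1 / 2 ^ (L * M)) := by rw [hT₀]; field_simp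
            rw [h6]
            exact mul_le_mul hgt.le h5 (by positivity) (by linarith)
          have hw2 : t * wt α ≤ T₀ / q ^ k := by
            have h5 := wt_le hblk
            calc t * wt α ≤ T₀ / q ^ (k + 1) * q :=
                  mul_le_mul ht h5 hw0.le (by positivity)
              _ = T₀ / q ^ k := by rw [pow_succ]; field_simp
          have h5 := ih (actd d α y) (t * wt α) hw1 hw2 hodd hu hnp
          have h6 : (t * wt α) ^ s = t ^ s * wt α ^ s :=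
            Real.mul_rpow (by linarith) hw0.le
          have h7 := hpot d y (actd d α y) α hblk (AA.isPath_identity hp)
          have h8 : t * wt α * (|((actd d α y : ℤ) : ℝ)| + c * |(d : ℝ)|) ≤
              t * (|(y : ℝ)| + c * |(d : ℝ)|) := by
            have h9 : wt α * (|((actd d α y : ℤ) : ℝ)| + c * |(d : ℝ)|) ≤
                |(y : ℝ)| + c * |(d : ℝ)| := by
              rw [le_div_iff₀ hw0] at h7
              linarith
            rw [mul_assoc]
            exact mul_le_mul_of_nonneg_left h9 (by linarith)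
          have h10 : (cn d c (t * wt α * (|((actd d α y : ℤ) : ℝ)| + c * |(d : ℝ)|))
              (actd d α y) : ℝ) ≤ cn d c (t * (|(y : ℝ)| + c * |(d : ℝ)|)) (actd d α y) := by
            exact_mod_cast cn_mono d hc0 h8 (actd d α y)
          rw [h6] at h5
          calc κ * t ^ s * (wt α ^ s * H (actd d α y))
              = κ * (t ^ s * wt α ^ s) * H (actd d α y) := by ring
            _ ≤ _ := h5.trans h10
        calc κ * t ^ s * H y ≤ κ * t ^ s * ∑ α ∈ W y, wt α ^ s * H (actd d α y) :=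
              mul_le_mul_of_nonneg_left (hHsub y hy3) (by positivity)
          _ = ∑ α ∈ W y, κ * t ^ s * (wt α ^ s * H (actd d α y)) := by rw [Finset.mul_sum]
          _ ≤ ∑ α ∈ W y, (cn d c (t * (|(y : ℝ)| + c * |(d : ℝ)|)) (actd d α y) : ℝ) :=
              Finset.sum_le_sum hstep
          _ ≤ _ := by exact_mod_cast hsum
  -- every `t` is covered
  obtain ⟨k, hk⟩ : ∃ k : ℕ, q ^ k < T₀ / t₀ := exists_pow_lt_of_lt_one (by positivity) hq1
  have hk2 : t₀ ≤ T₀ / q ^ k := by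
    rw [le_div_iff₀ (by positivity)]
    rw [lt_div_iff₀ (by linarith)] at hk
    linarith
  have h5 := key k y₀ t₀ ht₀ hk2 hy₀ hy₀3 hy₀p
  have h6 : κ * t₀ ^ s * 1 ≤ κ * t₀ ^ s * H y₀ :=
    mul_le_mul_of_nonneg_left (hH1 y₀ hy₀3) (mul_nonneg hκ0.le (Real.rpow_nonneg (by linarith) s))
  linarith

end Pool.Agent.Lib.MP_d0d59f_nt.GE
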