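import Pool.Agent.Lib.MP_d0d59f_nt.GE.C4Kid
import Pool.Agent.Lib.MP_d0d59f_nt.GE.C5Count

/-! Row C6 (about 90 lines): growth exponent 1. -/

namespace Pool.Agent.Lib.MP_d0d59f_nt.GE

open Finset

/-- the case `0 < s < 1` -/
theorem c6_pos {s : ℝ} (hs0 : 0 < s) (hs : s < 1) : ∃ c : ℝ, 0 < c ∧ ∀ d a : ℤ, Odd d →
    ¬ (3 : ℤ) ∣ d → ¬ (3 : ℤ) ∣ a → ∀ X : ℝ, |(a : ℝ)| + |(d : ℝ)| ≤ X →
      c * (X / (|(a : ℝ)| + |(d : ℝ)|)) ^ s ≤
        (Set.ncard {m : ℤ | |(m : ℝ)| ≤ X ∧ ∃ k : ℕ, (T d)^[k] m = a} : ℝ) := by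
  obtain ⟨c, κ, hc1, hκ, hmain⟩ := count_main hs0 hs
  have hD0 : 0 < (22 + c) ^ s := Real.rpow_pos_of_pos (by linarith) s
  refine ⟨min (κ / (22 + c) ^ s) (1 / (22 + c) ^ s), lt_min (by positivity) (by positivity), ?_⟩
  intro d a hd h3 ha X hX
  have hd1 : 1 ≤ |(d : ℝ)| := by
    have h0 : d ≠ 0 := by
      rintro rfl
      exact h3 (dvd_zero _)
    have := Int.one_le_abs h0
    exact_mod_cast this
  set A : ℝ := |(a : ℝ)| + |(d : ℝ)| with hA
  have hA1 : 1 ≤ A := by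
    have := abs_nonneg (a : ℝ)
    linarith
  have hA0 : 0 < A := by linarith
  have hXA : 1 ≤ X / A := by rw [le_div_iff₀ hA0]; linarith
  have hfin : {m : ℤ | |(m : ℝ)| ≤ X ∧ ∃ k : ℕ, (T d)^[k] m = a}.Finite := by
    refine (Set.finite_Icc (-⌈X⌉) ⌈X⌉).subset ?_
    rintro m ⟨hm, _⟩
    have h4 := abs_le.mp (hm.trans (Int.le_ceil X))
    constructor
    · have := h4.1
      exact_mod_cast this
    · have := h4.2
      exact_mod_cast this
  have hpow : (0 : ℝ) ≤ (X / A) ^ s := Real.rpow_nonneg (by linarith) s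
  rcases le_or_gt ((22 + c) * A) X with hbig | hsmall
  · obtain ⟨N, hN1, hN2, hN3, hN4, hN5⟩ := exists_kid hd h3 ha
    set R : ℝ := |(N : ℝ)| + c * |(d : ℝ)| with hR
    have hR1 : 0 < R := by
      have := abs_nonneg (N : ℝ)
      nlinarith
    have hRA : R ≤ (22 + c) * A := by
      have h5 : c * |(d : ℝ)| ≤ c * A := by
        refine mul_le_mul_of_nonneg_left ?_ (by linarith)
        have := abs_nonneg (a : ℝ)
        linarith
      calc R ≤ 22 * A + c * A := add_le_add hN5 h5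
        _ = _ := by ring
    have ht : 1 ≤ X / R := by
      rw [le_div_iff₀ hR1]
      linarith
    have h6 := hmain d N hd h3 hN1 hN2 hN3 (X / R) ht
    rw [← hR, div_mul_cancel₀ X hR1.ne'] at h6
    have h7 : cn d c X N ≤ Set.ncard {m : ℤ | |(m : ℝ)| ≤ X ∧ ∃ k : ℕ, (T d)^[k] m = a} := by
      refine Set.ncard_le_ncard ?_ hfin
      rintro m ⟨hm1, hm2⟩
      have h8 : 0 ≤ c * |(d : ℝ)| := by positivity
      exact ⟨by linarith, pre_trans hN4 hm1⟩
    have h7' : (cn d c X N : ℝ) ≤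
        (Set.ncard {m : ℤ | |(m : ℝ)| ≤ X ∧ ∃ k : ℕ, (T d)^[k] m = a} : ℝ) := by
      exact_mod_cast h7
    refine le_trans ?_ (h6.trans h7')
    have h8 : (X / A) ^ s ≤ ((22 + c) * (X / R)) ^ s := by
      refine Real.rpow_le_rpow (by linarith) ?_ hs0.le
      rw [div_le_iff₀ hA0]
      have h9 : X = X / R * R := (div_mul_cancel₀ X hR1.ne').symm
      calc X = X / R * R := h9
        _ ≤ X / R * ((22 + c) * A) := mul_le_mul_of_nonneg_left hRA (by linarith)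
        _ = _ := by ring
    rw [Real.mul_rpow (by linarith) (by linarith)] at h8
    calc min (κ / (22 + c) ^ s) (1 / (22 + c) ^ s) * (X / A) ^ s
        ≤ κ / (22 + c) ^ s * (X / A) ^ s :=
          mul_le_mul_of_nonneg_right (min_le_left _ _) hpow
      _ ≤ κ / (22 + c) ^ s * ((22 + c) ^ s * (X / R) ^ s) :=
          mul_le_mul_of_nonneg_left h8 (by positivity)
      _ = κ * (X / R) ^ s := by field_simp
  · have hone : (1 : ℝ) ≤
        (Set.ncard {m : ℤ | |(m : ℝ)| ≤ X ∧ ∃ k : ℕ, (T d)^[k] m = a} : ℝ) := by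
      have h5 : 1 ≤ Set.ncard {m : ℤ | |(m : ℝ)| ≤ X ∧ ∃ k : ℕ, (T d)^[k] m = a} := by
        rw [Nat.one_le_iff_ne_zero]
        refine Set.ncard_ne_zero_of_mem (a := a) ⟨?_, 0, rfl⟩ hfin
        have := abs_nonneg (d : ℝ)
        linarith
      exact_mod_cast h5
    refine le_trans ?_ hone
    have h8 : (X / A) ^ s ≤ (22 + c) ^ s := by
      refine Real.rpow_le_rpow (by linarith) ?_ hs0.le
      rw [div_le_iff₀ hA0]
      exact hsmall.le
    calc min (κ / (22 + c) ^ s) (1 / (22 + c) ^ s) * (X / A) ^ s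
        ≤ 1 / (22 + c) ^ s * (X / A) ^ s :=
          mul_le_mul_of_nonneg_right (min_le_right _ _) hpow
      _ ≤ 1 / (22 + c) ^ s * (22 + c) ^ s := mul_le_mul_of_nonneg_left h8 (by positivity)
      _ = 1 := by field_simp

/-- **Growth exponent 1, uniformly.** First `0 < s < 1`. Let `c, κ` be from `count_main`, and
`N` from `exists_kid`. Put `A = |a| + |d| ≥ 1` (`d ≠ 0`), `R = |N| + c|d| ≤ (22 + c) A`, and let `X ≥ A`.
If `X ≥ (22 + c) A`, take `t = X / R ≥ 1`: the `m ∈ pre d N` with `|m| + c|d| ≤ X` belong to the set, and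
their number is at least `κ (X/R)^s ≥ κ (22+c)^(-s) (X/A)^s`. If `X < (22 + c) A` then the set contains `a`
(`k = 0`, `|a| ≤ A ≤ X`) and `(X/A)^s ≤ (22+c)^s`. So the constant `min (κ (22+c)^(-s)) ((22+c)^(-s))` works.
For `s ≤ 0` use the case `s = 1/2` and `(X/A)^s ≤ (X/A)^(1/2)` (`Real.rpow_le_rpow_of_exponent_le`, `X/A ≥ 1`). -/
theorem growth (s : ℝ) (hs : s < 1) : ∃ c : ℝ, 0 < c ∧ ∀ d a : ℤ, Odd d → ¬ (3 : ℤ) ∣ d →
    ¬ (3 : ℤ) ∣ a → ∀ X : ℝ, |(a : ℝ)| + |(d : ℝ)| ≤ X →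
      c * (X / (|(a : ℝ)| + |(d : ℝ)|)) ^ s ≤
        (Set.ncard {m : ℤ | |(m : ℝ)| ≤ X ∧ ∃ k : ℕ, (T d)^[k] m = a} : ℝ) := by
  rcases lt_or_ge 0 s with hs0 | hs0
  · exact c6_pos hs0 hs
  · obtain ⟨c, hc, h⟩ := c6_pos (s := 1 / 2) (by norm_num) (by norm_num)
    refine ⟨c, hc, fun d a hd h3 ha X hX => le_trans ?_ (h d a hd h3 ha X hX)⟩
    have hd1 : 1 ≤ |(d : ℝ)| := by
      have h0 : d ≠ 0 := by
        rintro rfl
        exact h3 (dvd_zero _)
      have := Int.one_le_abs h0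
      exact_mod_cast this
    have hA0 : 0 < |(a : ℝ)| + |(d : ℝ)| := by
      have := abs_nonneg (a : ℝ)
      linarith
    have hXA : 1 ≤ X / (|(a : ℝ)| + |(d : ℝ)|) := by rw [le_div_iff₀ hA0]; linarith
    exact mul_le_mul_of_nonneg_left
      (Real.rpow_le_rpow_of_exponent_le hXA (by linarith)) hc.le

end Pool.Agent.Lib.MP_d0d59f_nt.GE
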