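import Pool.Agent.Lib.MP_d0d59f_nt.GE.C6Final

/-! The inverse tree cut at a finite set. -/

namespace Pool.Agent.Lib.MP_d0d59f_nt.GE

open Finset

/-- Two kids `y, y'` of `a` (with different letters) have disjoint predecessor sets unless one of them
is periodic; first half. -/
theorem d1_half {d : ℤ} (hd : Odd d) {k k' : ℕ} (hk : 1 ≤ k) (hk' : 1 ≤ k') (hne : k ≠ k') {a y y' : ℤ}
    (ha : a ≠ 0) (hy : Odd y) (hy' : Odd y') (h : 3 * y + d = 2 ^ k * a)
    (h' : 3 * y' + d = 2 ^ k' * a) {j : ℕ} (hj : (T d)^[j] y = y') : pdc d y' := by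
  have hTk' : (T d)^[k'] y' = a := by
    have := kid_iter hd hy' (j := 0) (k := k') (by omega) h'
    simpa using this
  have hTk : (T d)^[k] y = a := by
    have := kid_iter hd hy (j := 0) (k := k) (by omega) h
    simpa using this
  rcases Nat.eq_zero_or_pos j with rfl | hj0
  · exfalso
    have h1 : y = y' := hj
    rw [← h1, h] at h'
    have h2 := mul_right_cancel₀ ha h'
    exact hne (Int.pow_right_injective (by norm_num) h2)
  · rcases lt_or_ge j k with hjk | hjk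
    · exfalso
      have h1 : (T d)^[k - (k - j)] y = 2 ^ (k - j) * a := kid_iter hd hy (by omega) h
      have h2 : k - (k - j) = j := by omega
      rw [h2, hj] at h1
      obtain ⟨e, he⟩ : ∃ e, k - j = e + 1 := ⟨k - j - 1, by omega⟩
      rw [he, pow_succ] at h1
      rw [h1] at hy'
      have h6 : Even (2 ^ e * 2 * a) := ⟨2 ^ e * a, by ring⟩
      exact (Int.not_odd_iff_even.2 h6) hy'
    · refine ⟨(j - k) + k', by omega, ?_⟩
      rw [Function.iterate_add_apply, hTk', ← hTk, ← Function.iterate_add_apply]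
      have h2 : j - k + k = j := by omega
      rw [h2, hj]

theorem d1_disj {d : ℤ} (hd : Odd d) {k k' : ℕ} (hk : 1 ≤ k) (hk' : 1 ≤ k') (hne : k ≠ k') {a y y' f : ℤ}
    (ha : a ≠ 0) (hy : Odd y) (hy' : Odd y') (h : 3 * y + d = 2 ^ k * a)
    (h' : 3 * y' + d = 2 ^ k' * a) (hf : f ∈ pre d y) (hf' : f ∈ pre d y') :
    pdc d y ∨ pdc d y' := by
  obtain ⟨i, hi⟩ := hf
  obtain ⟨i', hi'⟩ := hf'
  rcases le_total i i' with hle | hle
  · right
    obtain ⟨j, rfl⟩ := Nat.exists_eq_add_of_le' hle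
    rw [Function.iterate_add_apply, hi] at hi'
    exact d1_half hd hk hk' hne ha hy hy' h h' hi'
  · left
    obtain ⟨j, rfl⟩ := Nat.exists_eq_add_of_le' hle
    rw [Function.iterate_add_apply, hi'] at hi
    exact d1_half hd hk' hk hne.symm ha hy' hy h' h hi

/-- Among the `2 (n + 2)` kids with letters `k₀ + 2 i` one is prime to `3`, and has no element of `F` above
it, where `n = |F|`. -/
theorem exists_free_kid {d a : ℤ} (hd : Odd d) (h3 : ¬ (3 : ℤ) ∣ d) (ha : ¬ (3 : ℤ) ∣ a)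
    (F : Finset ℤ) :
    ∃ (k : ℕ) (y : ℤ), 1 ≤ k ∧ k ≤ 4 * F.card + 8 ∧ 3 * y + d = 2 ^ k * a ∧ ¬ (3 : ℤ) ∣ y ∧
      ∀ f ∈ F, f ∉ pre d y := by
  classical
  have ha0 : a ≠ 0 := by
    rintro rfl
    exact ha (dvd_zero _)
  obtain ⟨k0, hk1, hk2, N0, h0⟩ : ∃ k : ℕ, 1 ≤ k ∧ k ≤ 2 ∧ ∃ N₀ : ℤ, 3 * N₀ + d = 2 ^ k * a := by
    by_cases h : (2 * a - d) % 3 = 0
    · exact ⟨1, le_rfl, by norm_num, (2 * a - d) / 3, by omega⟩
    · have ha' : a % 3 = 1 ∨ a % 3 = 2 := by omega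
      have hd' : d % 3 = 1 ∨ d % 3 = 2 := by omega
      exact ⟨2, by norm_num, le_rfl, (4 * a - d) / 3, by
        rcases ha' with ha' | ha' <;> rcases hd' with hd' | hd' <;> omega⟩
  have hkid : ∀ i : ℕ, ∃ N : ℤ, 3 * N + d = 2 ^ (k0 + 2 * i) * a := by
    intro i
    induction i with
    | zero => exact ⟨N0, by simpa using h0⟩
    | succ i ih =>
      obtain ⟨N, hN⟩ := ih
      refine ⟨4 * N + d, ?_⟩
      have : k0 + 2 * (i + 1) = k0 + 2 * i + 2 := by ring
      rw [this, pow_add, mul_right_comm, ← hN]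
      ring
  have hpair : ∀ t : ℕ, ∃ (k : ℕ) (y : ℤ), k0 + 4 * t ≤ k ∧ k ≤ k0 + 4 * t + 2 ∧
      3 * y + d = 2 ^ k * a ∧ ¬ (3 : ℤ) ∣ y := by
    intro t
    obtain ⟨N, hN⟩ := hkid (2 * t)
    have e1 : k0 + 2 * (2 * t) = k0 + 4 * t := by ring
    rw [e1] at hN
    by_cases hd3 : (3 : ℤ) ∣ N
    · refine ⟨k0 + 4 * t + 2, 4 * N + d, by omega, le_rfl, ?_, by omega⟩
      rw [pow_add, mul_right_comm, ← hN]
      ring
    · exact ⟨k0 + 4 * t, N, le_rfl, by omega, hN, hd3⟩
  choose k y hk3 hk4 hy hy3 using hpair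
  have hk1' : ∀ t, 1 ≤ k t := fun t => by have := hk3 t; omega
  have hyodd : ∀ t, Odd (y t) := fun t => c4_odd hd (hk1' t) (hy t)
  have hkne : ∀ t t', t < t' → k t < k t' := by
    intro t t' h
    have h1 := hk4 t
    have h2 := hk3 t'
    omega
  have hkne' : ∀ t t', t ≠ t' → k t ≠ k t' := by
    intro t t' h
    rcases lt_or_gt_of_ne h with h1 | h1
    · exact (hkne t t' h1).ne
    · exact (hkne t' t h1).ne'
  -- the non periodic ones
  set S : Finset ℕ := (range (F.card + 2)).filter fun t => ¬ pdc d (y t) with hS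
  have hScard : F.card + 1 ≤ S.card := by
    have h1 : ((range (F.card + 2)).filter fun t => pdc d (y t)).card ≤ 1 := by
      rw [Finset.card_le_one]
      intro t ht t' ht'
      rw [mem_filter] at ht ht'
      by_contra hne
      rcases lt_or_gt_of_ne hne with h1 | h1
      · exact kids_not_both hd (hk1' t) (hkne t t' h1) (hyodd t) (hyodd t') (hy t) (hy t') ⟨ht.2, ht'.2⟩
      · exact kids_not_both hd (hk1' t') (hkne t' t h1) (hyodd t') (hyodd t) (hy t') (hy t) ⟨ht'.2, ht.2⟩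
    have h2 := Finset.card_filter_add_card_filter_not (s := range (F.card + 2)) (fun t => pdc d (y t))
    rw [card_range] at h2
    rw [hS]
    omega
  by_contra hcon
  push Not at hcon
  have hex : ∀ t ∈ S, ∃ f, f ∈ F ∧ f ∈ pre d (y t) := by
    intro t ht
    rw [hS, mem_filter, mem_range] at ht
    obtain ⟨f, hf, hf2⟩ := hcon (k t) (y t) (hk1' t) (by have := hk4 t; omega) (hy t) (hy3 t)
    exact ⟨f, hf, hf2⟩
  choose! g hg1 hg2 using hex
  have hinj : Set.InjOn g (S : Set ℕ) := by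
    intro t ht t' ht' heq
    by_contra hne
    have h1 := hg2 t ht
    have h2 := hg2 t' ht'
    rw [← heq] at h2
    have h3 := d1_disj hd (hk1' t) (hk1' t') (hkne' t t' hne) ha0 (hyodd t) (hyodd t') (hy t) (hy t') h1 h2
    have h4 := (mem_filter.1 (Finset.mem_coe.1 ht)).2
    have h5 := (mem_filter.1 (Finset.mem_coe.1 ht')).2
    rcases h3 with h3 | h3
    · exact h4 h3
    · exact h5 h3
  have hcard := Finset.card_le_card_of_injOn g (fun t ht => hg1 t (Finset.mem_coe.1 ht)) hinj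
  omega

/-- **Growth exponent 1 for the inverse tree cut at a finite set.** For `0 < s < 1` there is `c > 0` such
that for all odd `d` prime to `3`, all `a` prime to `3`, all finite sets `F` which contain no `2^j a`, and all
`X ≥ |a| + |d|`: at least `c (X / (16^|F| (|a| + |d|)))^s` integers `m`, `|m| ≤ X`, have an orbit that reaches
`a` before meeting `F`. -/
theorem growth_cut {s : ℝ} (hs0 : 0 < s) (hs : s < 1) : ∃ c : ℝ, 0 < c ∧ ∀ d a : ℤ, Odd d →
    ¬ (3 : ℤ) ∣ d → ¬ (3 : ℤ) ∣ a → ∀ F : Finset ℤ, (∀ j : ℕ, 2 ^ j * a ∉ F) →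
    ∀ X : ℝ, |(a : ℝ)| + |(d : ℝ)| ≤ X →
      c * (X / (16 ^ F.card * (|(a : ℝ)| + |(d : ℝ)|))) ^ s ≤
        (Set.ncard {m : ℤ | |(m : ℝ)| ≤ X ∧
          ∃ k : ℕ, (T d)^[k] m = a ∧ ∀ i ≤ k, (T d)^[i] m ∉ F} : ℝ) := by
  obtain ⟨c, hc, hmain⟩ := growth s hs
  have hC0 : (0 : ℝ) < 257 ^ s := Real.rpow_pos_of_pos (by norm_num) s
  refine ⟨min (c / 257 ^ s) (1 / 257 ^ s), lt_min (by positivity) (by positivity), ?_⟩
  intro d a hd h3 ha F hF X hX
  have hd1 : 1 ≤ |(d : ℝ)| := by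
    have h0 : d ≠ 0 := by
      rintro rfl
      exact h3 (dvd_zero _)
    have := Int.one_le_abs h0
    exact_mod_cast this
  set A : ℝ := |(a : ℝ)| + |(d : ℝ)| with hA
  have hA1 : 1 ≤ A := by
    have := abs_nonneg (a : ℝ)
    linarith
  have hX0 : 0 < X := by linarith
  set B : ℝ := 16 ^ F.card * A with hB
  have hB0 : 0 < B := by positivity
  have hfin : {m : ℤ | |(m : ℝ)| ≤ X ∧
      ∃ k : ℕ, (T d)^[k] m = a ∧ ∀ i ≤ k, (T d)^[i] m ∉ F}.Finite := by
    refine (Set.finite_Icc (-⌈X⌉) ⌈X⌉).subset ?_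
    rintro m ⟨hm, _⟩
    have h4 := abs_le.mp (hm.trans (Int.le_ceil X))
    constructor
    · have := h4.1
      exact_mod_cast this
    · have := h4.2
      exact_mod_cast this
  have hpow : (0 : ℝ) ≤ (X / B) ^ s := Real.rpow_nonneg (by positivity) s
  rcases le_or_gt (257 * B) X with hbig | hsmall
  · obtain ⟨k, y, hk1, hk2, hy, hy3, hyF⟩ := exists_free_kid hd h3 ha F
    have hyodd := c4_odd hd hk1 hy
    -- size of `y`
    have hysize : |(y : ℝ)| + |(d : ℝ)| ≤ 257 * B := by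
      have h1 : 3 * (y : ℝ) + d = 2 ^ k * a := by exact_mod_cast hy
      have h2 : (3 : ℝ) * |(y : ℝ)| ≤ 2 ^ k * |(a : ℝ)| + |(d : ℝ)| := by
        have h3 : |3 * (y : ℝ)| = |2 ^ k * (a : ℝ) - d| := by
          congr 1
          linarith
        rw [abs_mul, abs_of_pos (by norm_num : (0 : ℝ) < 3)] at h3
        rw [h3]
        refine (abs_sub _ _).trans ?_
        rw [abs_mul, abs_of_pos (by positivity : (0 : ℝ) < 2 ^ k)]
      have h4 : (2 : ℝ) ^ k ≤ 256 * 16 ^ F.card := by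
        calc (2 : ℝ) ^ k ≤ 2 ^ (4 * F.card + 8) := pow_le_pow_right₀ (by norm_num) hk2
          _ = 256 * 16 ^ F.card := by rw [pow_add, pow_mul]; norm_num; ring
      have h16 : (1 : ℝ) ≤ 16 ^ F.card := one_le_pow₀ (by norm_num)
      have h5 : (2 : ℝ) ^ k * |(a : ℝ)| ≤ 256 * 16 ^ F.card * |(a : ℝ)| :=
        mul_le_mul_of_nonneg_right h4 (abs_nonneg _)
      have h6 := abs_nonneg (a : ℝ)
      have h7 : |(d : ℝ)| ≤ 16 ^ F.card * |(d : ℝ)| := by nlinarith
      have h8 : B = 16 ^ F.card * |(a : ℝ)| + 16 ^ F.card * |(d : ℝ)| := by rw [hB, hA]; ring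
      have h9 : 0 ≤ 16 ^ F.card * |(a : ℝ)| := by positivity
      rw [h8]
      linarith
    have hR1 : 0 < |(y : ℝ)| + |(d : ℝ)| := by
      have := abs_nonneg (y : ℝ)
      linarith
    have h6 := hmain d y hd h3 hy3 X (hysize.trans hbig)
    have h7 : Set.ncard {m : ℤ | |(m : ℝ)| ≤ X ∧ ∃ k : ℕ, (T d)^[k] m = y} ≤
        Set.ncard {m : ℤ | |(m : ℝ)| ≤ X ∧
          ∃ k : ℕ, (T d)^[k] m = a ∧ ∀ i ≤ k, (T d)^[i] m ∉ F} := by
      refine Set.ncard_le_ncard ?_ hfin
      rintro m ⟨hm1, l, hl⟩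
      refine ⟨hm1, k + l, ?_, ?_⟩
      · rw [Function.iterate_add_apply, hl]
        have := kid_iter hd hyodd (j := 0) (k := k) (by omega) hy
        simpa using this
      · intro i hi hiF
        rcases le_or_gt i l with hil | hil
        · refine hyF _ hiF ⟨l - i, ?_⟩
          rw [← Function.iterate_add_apply]
          have h8 : l - i + i = l := by omega
          rw [h8, hl]
        · have h8 : i = (k - (k - (i - l))) + l := by omega
          rw [h8, Function.iterate_add_apply, hl, kid_iter hd hyodd (by omega) hy] at hiF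
          exact hF _ hiF
    have h7' : (Set.ncard {m : ℤ | |(m : ℝ)| ≤ X ∧ ∃ k : ℕ, (T d)^[k] m = y} : ℝ) ≤
        (Set.ncard {m : ℤ | |(m : ℝ)| ≤ X ∧
          ∃ k : ℕ, (T d)^[k] m = a ∧ ∀ i ≤ k, (T d)^[i] m ∉ F} : ℝ) := by
      exact_mod_cast h7
    refine le_trans ?_ (h6.trans h7')
    set R : ℝ := |(y : ℝ)| + |(d : ℝ)| with hR
    have h8 : (X / B) ^ s ≤ (257 * (X / R)) ^ s := by
      refine Real.rpow_le_rpow (by positivity) ?_ hs0.le
      rw [div_le_iff₀ hB0]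
      have h9 : X = X / R * R := (div_mul_cancel₀ X hR1.ne').symm
      calc X = X / R * R := h9
        _ ≤ X / R * (257 * B) := mul_le_mul_of_nonneg_left hysize (by positivity)
        _ = _ := by ring
    rw [Real.mul_rpow (by norm_num) (by positivity)] at h8
    calc min (c / 257 ^ s) (1 / 257 ^ s) * (X / B) ^ s
        ≤ c / 257 ^ s * (X / B) ^ s :=
          mul_le_mul_of_nonneg_right (min_le_left _ _) hpow
      _ ≤ c / 257 ^ s * (257 ^ s * (X / R) ^ s) :=
          mul_le_mul_of_nonneg_left h8 (by positivity)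
      _ = c * (X / R) ^ s := by field_simp
  · have hone : (1 : ℝ) ≤
        (Set.ncard {m : ℤ | |(m : ℝ)| ≤ X ∧
          ∃ k : ℕ, (T d)^[k] m = a ∧ ∀ i ≤ k, (T d)^[i] m ∉ F} : ℝ) := by
      have h5 : 1 ≤ Set.ncard {m : ℤ | |(m : ℝ)| ≤ X ∧
          ∃ k : ℕ, (T d)^[k] m = a ∧ ∀ i ≤ k, (T d)^[i] m ∉ F} := by
        rw [Nat.one_le_iff_ne_zero]
        refine Set.ncard_ne_zero_of_mem (a := a) ⟨?_, 0, rfl, ?_⟩ hfin
        · have := abs_nonneg (d : ℝ)
          linarith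
        · intro i hi
          have h6 : i = 0 := by omega
          subst h6
          have := hF 0
          simpa using this
      exact_mod_cast h5
    refine le_trans ?_ hone
    have h8 : (X / B) ^ s ≤ 257 ^ s := by
      refine Real.rpow_le_rpow (by positivity) ?_ hs0.le
      rw [div_le_iff₀ hB0]
      exact hsmall.le
    calc min (c / 257 ^ s) (1 / 257 ^ s) * (X / B) ^ s
        ≤ 1 / 257 ^ s * (X / B) ^ s :=
          mul_le_mul_of_nonneg_right (min_le_right _ _) hpow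
      _ ≤ 1 / 257 ^ s * 257 ^ s := mul_le_mul_of_nonneg_left h8 (by positivity)
      _ = 1 := by field_simp

end Pool.Agent.Lib.MP_d0d59f_nt.GE
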