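import Pool.Agent.Lib.MP_d0d59f_nt.GE.Defs

/-! Row ge_E1a: basic facts about `mass`. -/

namespace Pool.Agent.Lib.MP_d0d59f_nt.GE

open Finset

theorem mass_nonneg {ι A : Type*} {Ω : Finset ι} {p : ι → ℝ} (hp : ∀ i ∈ Ω, 0 ≤ p i) (f : ι → A)
    (a : A) : 0 ≤ mass Ω p f a := by
  unfold mass
  refine Finset.sum_nonneg fun i hi => ?_
  split_ifs
  · exact hp i hi
  · exact le_rfl

theorem mass_le_one {ι A : Type*} {Ω : Finset ι} {p : ι → ℝ} (hp : IsProb Ω p) (f : ι → A)
    (a : A) : mass Ω p f a ≤ 1 := by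
  unfold mass
  rw [← hp.2]
  refine Finset.sum_le_sum fun i hi => ?_
  split_ifs
  · exact le_rfl
  · exact hp.1 i hi

theorem le_mass {ι A : Type*} {Ω : Finset ι} {p : ι → ℝ} (hp : ∀ i ∈ Ω, 0 ≤ p i) (f : ι → A)
    {i : ι} (hi : i ∈ Ω) : p i ≤ mass Ω p f (f i) := by
  classical
  unfold mass
  have h := Finset.single_le_sum (f := fun j => if f j = f i then p j else 0) (s := Ω)
    (fun j hj => by
      show 0 ≤ if f j = f i then p j else 0
      split_ifs
      · exact hp j hj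
      · exact le_rfl) hi
  simpa using h

theorem mass_pos {ι A : Type*} {Ω : Finset ι} {p : ι → ℝ} (hp : ∀ i ∈ Ω, 0 ≤ p i) (f : ι → A)
    {i : ι} (hi : i ∈ Ω) (h : p i ≠ 0) : 0 < mass Ω p f (f i) :=
  lt_of_lt_of_le (lt_of_le_of_ne (hp i hi) (Ne.symm h)) (le_mass hp f hi)

theorem mass_eq_zero {ι A : Type*} {Ω : Finset ι} {p : ι → ℝ} {f : ι → A} {a : A}
    (h : ∀ i ∈ Ω, p i ≠ 0 → f i ≠ a) : mass Ω p f a = 0 := by
  unfold mass
  refine Finset.sum_eq_zero fun i hi => ?_
  split_ifs with hf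
  · by_contra hne
    exact h i hi hne hf
  · rfl

theorem exists_of_mass_ne_zero {ι A : Type*} {Ω : Finset ι} {p : ι → ℝ} {f : ι → A} {a : A}
    (h : mass Ω p f a ≠ 0) : ∃ i ∈ Ω, p i ≠ 0 ∧ f i = a := by
  by_contra hcon
  apply h
  refine mass_eq_zero fun i hi hp hf => hcon ⟨i, hi, hp, hf⟩

/-- If the events `f i = a` and `g i = b` agree on the support, the masses are equal. -/
theorem mass_congr {ι A B : Type*} {Ω : Finset ι} {p : ι → ℝ} {f : ι → A} {g : ι → B} {a : A}
    {b : B} (h : ∀ i ∈ Ω, p i ≠ 0 → (f i = a ↔ g i = b)) : mass Ω p f a = mass Ω p g b := by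
  unfold mass
  refine Finset.sum_congr rfl fun i hi => ?_
  by_cases hp : p i = 0
  · simp [hp]
  · have := h i hi hp
    by_cases hf : f i = a
    · rw [if_pos hf, if_pos (this.1 hf)]
    · rw [if_neg hf, if_neg (fun hg => hf (this.2 hg))]

/-- Sum over the values of `f`. -/
theorem sum_fiber {ι A : Type*} [Fintype A] (Ω : Finset ι) (p : ι → ℝ) (f : ι → A) (φ : A → ℝ) :
    ∑ i ∈ Ω, p i * φ (f i) = ∑ a, mass Ω p f a * φ a := by
  classical
  unfold mass
  simp_rw [Finset.sum_mul]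
  rw [Finset.sum_comm]
  refine Finset.sum_congr rfl fun i _ => ?_
  rw [Finset.sum_eq_single (f i)]
  · rw [if_pos rfl]
  · intro b _ hb
    rw [if_neg (Ne.symm hb), zero_mul]
  · intro h
    exact absurd (Finset.mem_univ _) h

theorem sum_mass {ι A : Type*} [Fintype A] {Ω : Finset ι} {p : ι → ℝ} (hp : IsProb Ω p)
    (f : ι → A) : ∑ a, mass Ω p f a = 1 := by
  have h := sum_fiber Ω p f (fun _ => (1 : ℝ))
  simp only [mul_one] at h
  rw [← h, hp.2]

theorem sum_mass_snd {ι A B : Type*} [Fintype B] (Ω : Finset ι) (p : ι → ℝ) (f : ι → A)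
    (g : ι → B) (a : A) : ∑ b, mass Ω p (fun i => (f i, g i)) (a, b) = mass Ω p f a := by
  classical
  unfold mass
  rw [Finset.sum_comm]
  refine Finset.sum_congr rfl fun i _ => ?_
  by_cases hf : f i = a
  · rw [if_pos hf, Finset.sum_eq_single (g i)]
    · rw [if_pos (by show (f i, g i) = (a, g i); rw [hf])]
    · intro b _ hb
      rw [if_neg]
      intro hcon
      exact hb (Prod.mk.inj hcon).2.symm
    · intro h
      exact absurd (Finset.mem_univ _) h
  · rw [if_neg hf]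
    refine Finset.sum_eq_zero fun b _ => ?_
    rw [if_neg]
    intro hcon
    exact hf (Prod.mk.inj hcon).1

theorem sum_mass_fst {ι A B : Type*} [Fintype A] (Ω : Finset ι) (p : ι → ℝ) (f : ι → A)
    (g : ι → B) (b : B) : ∑ a, mass Ω p (fun i => (f i, g i)) (a, b) = mass Ω p g b := by
  classical
  unfold mass
  rw [Finset.sum_comm]
  refine Finset.sum_congr rfl fun i _ => ?_
  by_cases hg : g i = b
  · rw [if_pos hg, Finset.sum_eq_single (f i)]
    · rw [if_pos (by show (f i, g i) = (f i, b); rw [hg])]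
    · intro a _ ha
      rw [if_neg]
      intro hcon
      exact ha (Prod.mk.inj hcon).1.symm
    · intro h
      exact absurd (Finset.mem_univ _) h
  · rw [if_neg hg]
    refine Finset.sum_eq_zero fun a _ => ?_
    rw [if_neg]
    intro hcon
    exact hg (Prod.mk.inj hcon).2

/-- Mass of a function `φ ∘ f` of `f`. -/
theorem mass_comp {ι A B : Type*} [Fintype A] [DecidableEq B] (Ω : Finset ι) (p : ι → ℝ)
    (f : ι → A) (φ : A → B) (b : B) :
    mass Ω p (fun i => φ (f i)) b = ∑ a, if φ a = b then mass Ω p f a else 0 := by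
  classical
  have h := sum_fiber Ω p f (fun a => if φ a = b then (1 : ℝ) else 0)
  have h1 : mass Ω p (fun i => φ (f i)) b = ∑ i ∈ Ω, p i * (if φ (f i) = b then (1 : ℝ) else 0) := by
    unfold mass
    refine Finset.sum_congr rfl fun i _ => ?_
    by_cases hh : φ (f i) = b
    · rw [if_pos hh, if_pos hh, mul_one]
    · rw [if_neg hh, if_neg hh, mul_zero]
  rw [h1, h]
  refine Finset.sum_congr rfl fun a _ => ?_
  by_cases hh : φ a = b
  · rw [if_pos hh, if_pos hh, mul_one]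
  · rw [if_neg hh, if_neg hh, mul_zero]

/-- Transport by a bijection of the index sets which preserves the weights. -/
theorem mass_reindex {ι ι' A : Type*} {Ω : Finset ι} {Ω' : Finset ι'} {p : ι → ℝ} {p' : ι' → ℝ}
    {f : ι → A} {f' : ι' → A} (e : ι → ι') (hinj : ∀ i ∈ Ω, ∀ j ∈ Ω, e i = e j → i = j)
    (hmem : ∀ i ∈ Ω, e i ∈ Ω') (hsurj : ∀ j ∈ Ω', ∃ i ∈ Ω, e i = j)
    (hp : ∀ i ∈ Ω, p' (e i) = p i) (hf : ∀ i ∈ Ω, f' (e i) = f i) (a : A) :
    mass Ω' p' f' a = mass Ω p f a := by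
  classical
  unfold mass
  symm
  refine Finset.sum_bij (fun i _ => e i) (fun i hi => hmem i hi)
    (fun i hi j hj h => hinj i hi j hj h) (fun j hj => ?_) (fun i hi => ?_)
  · obtain ⟨i, hi, he⟩ := hsurj j hj
    exact ⟨i, hi, he⟩
  · rw [hp i hi, hf i hi]

end Pool.Agent.Lib.MP_d0d59f_nt.GE
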