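import Pool.Agent.Lib.MP_d0d59f_nt.GE.E1a

/-! Row ge_E1b: basic facts about `ent`. -/

namespace Pool.Agent.Lib.MP_d0d59f_nt.GE

open Finset

theorem ent_nonneg {ι A : Type*} {Ω : Finset ι} {p : ι → ℝ} (hp : IsProb Ω p) (f : ι → A) :
    0 ≤ ent Ω p f := by
  unfold ent
  refine Finset.sum_nonneg fun i hi => ?_
  by_cases h : p i = 0
  · simp [h]
  · have h1 := mass_pos hp.1 f hi h
    have h2 := mass_le_one hp f (f i)
    exact mul_nonneg (hp.1 i hi) (neg_nonneg.mpr (Real.log_nonpos h1.le h2))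

/-- If `f` determines `g` on the support then `ent g ≤ ent f`: termwise
`mass f (f i) ≤ mass g (g i)`. -/
theorem ent_mono {ι A B : Type*} {Ω : Finset ι} {p : ι → ℝ} (hp : IsProb Ω p) {f : ι → A}
    {g : ι → B} (h : ∀ i ∈ Ω, ∀ j ∈ Ω, p i ≠ 0 → p j ≠ 0 → f i = f j → g i = g j) :
    ent Ω p g ≤ ent Ω p f := by
  classical
  unfold ent
  refine Finset.sum_le_sum fun i hi => ?_
  by_cases hpi : p i = 0
  · simp [hpi]
  · have h1 := mass_pos hp.1 f hi hpi
    have h2 : mass Ω p f (f i) ≤ mass Ω p g (g i) := by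
      unfold mass
      refine Finset.sum_le_sum fun j hj => ?_
      by_cases hpj : p j = 0
      · simp [hpj]
      · by_cases hf : f j = f i
        · rw [if_pos hf, if_pos (h j hj i hi hpj hpi hf)]
        · rw [if_neg hf]
          split_ifs
          · exact hp.1 j hj
          · exact le_rfl
    exact mul_le_mul_of_nonneg_left (neg_le_neg (Real.log_le_log h1 h2)) (hp.1 i hi)

theorem ent_congr {ι A B : Type*} {Ω : Finset ι} {p : ι → ℝ} {f : ι → A}
    {g : ι → B} (h : ∀ i ∈ Ω, ∀ j ∈ Ω, p i ≠ 0 → p j ≠ 0 → (f i = f j ↔ g i = g j)) :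
    ent Ω p f = ent Ω p g := by
  unfold ent
  refine Finset.sum_congr rfl fun i hi => ?_
  by_cases hpi : p i = 0
  · simp [hpi]
  · rw [mass_congr fun j hj hpj => h j hj i hi hpj hpi]

theorem ent_eq_sum {ι A : Type*} [Fintype A] (Ω : Finset ι) (p : ι → ℝ) (f : ι → A) :
    ent Ω p f = ∑ a, Real.negMulLog (mass Ω p f a) := by
  unfold ent
  rw [sum_fiber Ω p f fun a => -Real.log (mass Ω p f a)]
  refine Finset.sum_congr rfl fun a _ => ?_
  rw [Real.negMulLog]
  ring

/-- Identity variable: `ent id = ∑ negMulLog (p i)`. -/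
theorem ent_id {ι : Type*} (Ω : Finset ι) (p : ι → ℝ) :
    ent Ω p (fun i => i) = ∑ i ∈ Ω, Real.negMulLog (p i) := by
  classical
  unfold ent
  refine Finset.sum_congr rfl fun i hi => ?_
  have h : mass Ω p (fun i => i) i = p i := by
    unfold mass
    rw [Finset.sum_ite_eq' Ω i p, if_pos hi]
  rw [h, Real.negMulLog]
  ring

/-- A variable with values in `s` has entropy at most `log |s|`: for every `t > 0`,
`-log t ≤ log |s| + (1/(|s| t) - 1)`, so `ent f ≤ log |s| + ∑_{a ∈ image} 1/|s| - 1`. -/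
theorem ent_le_log_card {ι A : Type*} {Ω : Finset ι} {p : ι → ℝ} (hp : IsProb Ω p) (f : ι → A)
    (s : Finset A) (hs : ∀ i ∈ Ω, p i ≠ 0 → f i ∈ s) : ent Ω p f ≤ Real.log (s.card : ℝ) := by
  classical
  have hne : ∃ i ∈ Ω, p i ≠ 0 := by
    by_contra hcon
    push Not at hcon
    have := hp.2
    rw [Finset.sum_eq_zero hcon] at this
    exact zero_ne_one this
  obtain ⟨i₀, hi₀, hpi₀⟩ := hne
  have hcard : 0 < s.card := Finset.card_pos.mpr ⟨f i₀, hs i₀ hi₀ hpi₀⟩
  have hN : (0 : ℝ) < (s.card : ℝ) := by exact_mod_cast hcard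
  have hsum : ∑ i ∈ Ω, p i / mass Ω p f (f i) ≤ (s.card : ℝ) := by
    have h1 : ∀ i ∈ Ω, p i / mass Ω p f (f i)
        = ∑ a ∈ s, (if f i = a then p i else 0) / mass Ω p f a := by
      intro i hi
      by_cases hpi : p i = 0
      · simp [hpi]
      · rw [Finset.sum_eq_single_of_mem (f i) (hs i hi hpi)]
        · rw [if_pos rfl]
        · intro b _ hb
          rw [if_neg (Ne.symm hb), zero_div]
    rw [Finset.sum_congr rfl h1, Finset.sum_comm]
    have h2 : ∀ a ∈ s, ∑ i ∈ Ω, (if f i = a then p i else 0) / mass Ω p f a ≤ 1 := by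
      intro a _
      rw [← Finset.sum_div]
      have h3 : (∑ i ∈ Ω, if f i = a then p i else 0) = mass Ω p f a := by
        unfold mass
        refine Finset.sum_congr rfl fun i _ => ?_
        congr
      rw [h3]
      exact div_self_le_one _
    calc ∑ a ∈ s, ∑ i ∈ Ω, (if f i = a then p i else 0) / mass Ω p f a
        ≤ ∑ a ∈ s, (1 : ℝ) := Finset.sum_le_sum h2
      _ = (s.card : ℝ) := by simp
  have hterm : ∀ i ∈ Ω, p i * (-Real.log (mass Ω p f (f i)))
      ≤ p i * (Real.log (s.card : ℝ) - 1) + (p i / mass Ω p f (f i)) / (s.card : ℝ) := by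
    intro i hi
    by_cases hpi : p i = 0
    · simp [hpi]
    · have hm := mass_pos hp.1 f hi hpi
      have h1 : Real.log (1 / ((s.card : ℝ) * mass Ω p f (f i)))
          ≤ 1 / ((s.card : ℝ) * mass Ω p f (f i)) - 1 :=
        Real.log_le_sub_one_of_pos (by positivity)
      rw [one_div, Real.log_inv, Real.log_mul hN.ne' hm.ne'] at h1
      have h2 : -Real.log (mass Ω p f (f i))
          ≤ Real.log (s.card : ℝ) - 1 + ((s.card : ℝ) * mass Ω p f (f i))⁻¹ := by linarith
      have h3 := mul_le_mul_of_nonneg_left h2 (hp.1 i hi)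
      have h4 : p i * (Real.log (s.card : ℝ) - 1 + ((s.card : ℝ) * mass Ω p f (f i))⁻¹)
          = p i * (Real.log (s.card : ℝ) - 1) + (p i / mass Ω p f (f i)) / (s.card : ℝ) := by
        field_simp
      linarith
  calc ent Ω p f ≤ ∑ i ∈ Ω, (p i * (Real.log (s.card : ℝ) - 1)
        + (p i / mass Ω p f (f i)) / (s.card : ℝ)) := Finset.sum_le_sum hterm
    _ = (∑ i ∈ Ω, p i) * (Real.log (s.card : ℝ) - 1)
        + (∑ i ∈ Ω, p i / mass Ω p f (f i)) / (s.card : ℝ) := by
        rw [Finset.sum_add_distrib, ← Finset.sum_mul, Finset.sum_div]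
    _ ≤ 1 * (Real.log (s.card : ℝ) - 1) + (s.card : ℝ) / (s.card : ℝ) := by
        rw [hp.2]
        gcongr
    _ = Real.log (s.card : ℝ) := by
        rw [div_self hN.ne']
        ring

theorem ent_reindex {ι ι' A : Type*} {Ω : Finset ι} {Ω' : Finset ι'} {p : ι → ℝ} {p' : ι' → ℝ}
    {f : ι → A} {f' : ι' → A} (e : ι → ι') (hinj : ∀ i ∈ Ω, ∀ j ∈ Ω, e i = e j → i = j)
    (hmem : ∀ i ∈ Ω, e i ∈ Ω') (hsurj : ∀ j ∈ Ω', ∃ i ∈ Ω, e i = j)
    (hp : ∀ i ∈ Ω, p' (e i) = p i) (hf : ∀ i ∈ Ω, f' (e i) = f i) :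
    ent Ω' p' f' = ent Ω p f := by
  unfold ent
  symm
  refine Finset.sum_nbij e hmem (fun i hi j hj hij => hinj i hi j hj hij) ?_ ?_
  · intro j hj
    obtain ⟨i, hi, hij⟩ := hsurj j hj
    exact ⟨i, hi, hij⟩
  · intro i hi
    rw [hp i hi, hf i hi, mass_reindex e hinj hmem hsurj hp hf]

end Pool.Agent.Lib.MP_d0d59f_nt.GE
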