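import Pool.Agent.Lib.MP_d0d59f_nt.GE.E1b

/-! Row ge_E2a: nonnegativity of the conditional mutual information. -/

namespace Pool.Agent.Lib.MP_d0d59f_nt.GE

open Finset

/-- For a fixed value, the sum of `p i / mass (f i)` over the fibre is at most one. -/
theorem e2a_fibre {ι A : Type*} {Ω : Finset ι} {p : ι → ℝ} (hp : ∀ i ∈ Ω, 0 ≤ p i) (f : ι → A)
    (a : A) (P : ι → Prop) [DecidablePred P] (hP : ∀ i ∈ Ω, P i → f i = a) :
    ∑ i ∈ Ω, (if P i then p i / mass Ω p f (f i) else 0) ≤ 1 := by
  classical
  have h1 : ∀ i ∈ Ω, (if P i then p i / mass Ω p f (f i) else 0)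
      ≤ (if f i = a then p i else 0) / mass Ω p f a := by
    intro i hi
    by_cases hPi : P i
    · rw [if_pos hPi, if_pos (hP i hi hPi), hP i hi hPi]
    · rw [if_neg hPi]
      refine div_nonneg ?_ (mass_nonneg hp f a)
      split_ifs
      · exact hp i hi
      · exact le_rfl
  calc ∑ i ∈ Ω, (if P i then p i / mass Ω p f (f i) else 0)
      ≤ ∑ i ∈ Ω, (if f i = a then p i else 0) / mass Ω p f a := Finset.sum_le_sum h1
    _ = (∑ i ∈ Ω, (if f i = a then p i else 0)) / mass Ω p f a := by rw [Finset.sum_div]
    _ ≤ 1 := by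
        have : ∑ i ∈ Ω, (if f i = a then p i else 0) = mass Ω p f a := by
          unfold mass
          refine Finset.sum_congr rfl fun i _ => ?_
          congr
        rw [this]
        exact div_self_le_one _

/-- `I(a ; b | c) ≥ 0`. -/
theorem cmi_nonneg {ι A B C : Type*} {Ω : Finset ι} {p : ι → ℝ} (hp : IsProb Ω p) (a : ι → A)
    (b : ι → B) (c : ι → C) : 0 ≤ cmi Ω p a b c := by
  classical
  set mac : ι → ℝ := fun i => mass Ω p (fun i => (a i, c i)) (a i, c i) with hmac
  set mbc : ι → ℝ := fun i => mass Ω p (fun i => (b i, c i)) (b i, c i) with hmbc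
  set mabc : ι → ℝ := fun i => mass Ω p (fun i => (a i, b i, c i)) (a i, b i, c i) with hmabc
  set mc : ι → ℝ := fun i => mass Ω p c (c i) with hmc
  have hcmi : cmi Ω p a b c = ∑ i ∈ Ω, p i * (Real.log (mabc i) + Real.log (mc i)
      - Real.log (mac i) - Real.log (mbc i)) := by
    unfold cmi ent
    rw [← Finset.sum_add_distrib, ← Finset.sum_sub_distrib, ← Finset.sum_sub_distrib]
    refine Finset.sum_congr rfl fun i _ => ?_
    simp only [hmac, hmbc, hmabc, hmc]
    ring
  -- termwise lower bound
  have hterm : ∀ i ∈ Ω, p i - p i * (mac i * mbc i / (mabc i * mc i))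
      ≤ p i * (Real.log (mabc i) + Real.log (mc i) - Real.log (mac i) - Real.log (mbc i)) := by
    intro i hi
    by_cases h0 : p i = 0
    · simp [h0]
    · have h1 : 0 < mac i := mass_pos hp.1 (fun i => (a i, c i)) hi h0
      have h2 : 0 < mbc i := mass_pos hp.1 (fun i => (b i, c i)) hi h0
      have h3 : 0 < mabc i := mass_pos hp.1 (fun i => (a i, b i, c i)) hi h0
      have h4 : 0 < mc i := mass_pos hp.1 c hi h0
      have h5 : Real.log (mac i * mbc i / (mabc i * mc i))
          = Real.log (mac i) + Real.log (mbc i) - (Real.log (mabc i) + Real.log (mc i)) := by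
        rw [Real.log_div (by positivity) (by positivity), Real.log_mul h1.ne' h2.ne',
          Real.log_mul h3.ne' h4.ne']
      have h6 : Real.log (mac i * mbc i / (mabc i * mc i)) ≤ mac i * mbc i / (mabc i * mc i) - 1 :=
        Real.log_le_sub_one_of_pos (by positivity)
      have h7 : 0 ≤ p i := hp.1 i hi
      have h8 : 1 - mac i * mbc i / (mabc i * mc i)
          ≤ Real.log (mabc i) + Real.log (mc i) - Real.log (mac i) - Real.log (mbc i) := by
        linarith
      have h9 := mul_le_mul_of_nonneg_left h8 h7
      linarith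
  -- the sum of the products is at most one
  have hsum : ∑ i ∈ Ω, p i * (mac i * mbc i / (mabc i * mc i)) ≤ 1 := by
    have hexp : ∀ i ∈ Ω, p i * (mac i * mbc i / (mabc i * mc i))
        = ∑ j ∈ Ω, ∑ k ∈ Ω, (if (a j = a i ∧ c j = c i) ∧ (b k = b i ∧ c k = c i) then
            (p j * p k / mass Ω p c (c j)) * (p i / mabc i) else 0) := by
      intro i _
      have e1 : mac i = ∑ j ∈ Ω, (if (a j = a i ∧ c j = c i) then p j else 0) := by
        simp only [hmac]
        unfold mass
        refine Finset.sum_congr rfl fun j _ => ?_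
        by_cases h : a j = a i ∧ c j = c i
        · rw [if_pos h, if_pos (by rw [Prod.mk.injEq]; exact h)]
        · rw [if_neg h, if_neg (by rw [Prod.mk.injEq]; exact h)]
      have e2 : mbc i = ∑ k ∈ Ω, (if (b k = b i ∧ c k = c i) then p k else 0) := by
        simp only [hmbc]
        unfold mass
        refine Finset.sum_congr rfl fun j _ => ?_
        by_cases h : b j = b i ∧ c j = c i
        · rw [if_pos h, if_pos (by rw [Prod.mk.injEq]; exact h)]
        · rw [if_neg h, if_neg (by rw [Prod.mk.injEq]; exact h)]
      have e3 : p i * (mac i * mbc i / (mabc i * mc i))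
          = mac i * mbc i * (p i / (mabc i * mc i)) := by ring
      rw [e3, e1, e2, Finset.sum_mul_sum, Finset.sum_mul]
      refine Finset.sum_congr rfl fun j _ => ?_
      rw [Finset.sum_mul]
      refine Finset.sum_congr rfl fun k _ => ?_
      by_cases h1 : a j = a i ∧ c j = c i
      · by_cases h2 : b k = b i ∧ c k = c i
        · rw [if_pos h1, if_pos h2, if_pos ⟨h1, h2⟩, h1.2]
          simp only [hmc]
          by_cases h3 : mass Ω p c (c i) = 0
          · simp [h3]
          · by_cases h4 : mabc i = 0
            · simp [h4]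
            · field_simp
        · rw [if_neg (show ¬ ((a j = a i ∧ c j = c i) ∧ (b k = b i ∧ c k = c i)) from
            fun h => h2 h.2), if_neg h2]
          ring
      · rw [if_neg (show ¬ ((a j = a i ∧ c j = c i) ∧ (b k = b i ∧ c k = c i)) from
            fun h => h1 h.1), if_neg h1]
        ring
    rw [Finset.sum_congr rfl hexp, Finset.sum_comm]
    have hswap : ∀ j ∈ Ω, (∑ i ∈ Ω, ∑ k ∈ Ω,
        (if (a j = a i ∧ c j = c i) ∧ (b k = b i ∧ c k = c i) then
            (p j * p k / mass Ω p c (c j)) * (p i / mabc i) else 0))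
        ≤ ∑ k ∈ Ω, (if c k = c j then p j * p k / mass Ω p c (c j) else 0) := by
      intro j hj
      rw [Finset.sum_comm]
      refine Finset.sum_le_sum fun k hk => ?_
      have hnn : 0 ≤ p j * p k / mass Ω p c (c j) :=
        div_nonneg (mul_nonneg (hp.1 j hj) (hp.1 k hk)) (mass_nonneg hp.1 c _)
      by_cases hc : c k = c j
      · rw [if_pos hc]
        have h1 := e2a_fibre hp.1 (fun i => (a i, b i, c i)) (a j, b k, c j)
          (fun i => (a j = a i ∧ c j = c i) ∧ (b k = b i ∧ c k = c i))
          (fun i _ h => by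
            show (a i, b i, c i) = (a j, b k, c j)
            rw [h.1.1, h.2.1, h.1.2])
        calc ∑ i ∈ Ω, (if (a j = a i ∧ c j = c i) ∧ (b k = b i ∧ c k = c i) then
            (p j * p k / mass Ω p c (c j)) * (p i / mabc i) else 0)
            = (p j * p k / mass Ω p c (c j)) * ∑ i ∈ Ω,
              (if (a j = a i ∧ c j = c i) ∧ (b k = b i ∧ c k = c i) then
                p i / mass Ω p (fun i => (a i, b i, c i)) ((fun i => (a i, b i, c i)) i) else 0) := by
              rw [Finset.mul_sum]
              refine Finset.sum_congr rfl fun i _ => ?_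
              split_ifs
              · rfl
              · rw [mul_zero]
          _ ≤ (p j * p k / mass Ω p c (c j)) * 1 := mul_le_mul_of_nonneg_left h1 hnn
          _ = _ := mul_one _
      · rw [if_neg hc]
        refine le_of_eq (Finset.sum_eq_zero fun i _ => ?_)
        rw [if_neg]
        intro h
        exact hc (h.2.2.trans h.1.2.symm)
    refine (Finset.sum_le_sum hswap).trans ?_
    have hfin : ∀ j ∈ Ω, (∑ k ∈ Ω, (if c k = c j then p j * p k / mass Ω p c (c j) else 0)) ≤ p j := by
      intro j hj
      have : ∑ k ∈ Ω, (if c k = c j then p j * p k / mass Ω p c (c j) else 0)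
          = p j * (mass Ω p c (c j) / mass Ω p c (c j)) := by
        have h2 : ∑ k ∈ Ω, (if c k = c j then p k else 0) = mass Ω p c (c j) := by
          unfold mass
          refine Finset.sum_congr rfl fun i _ => ?_
          congr
        have h3 : ∑ k ∈ Ω, (if c k = c j then p j * p k / mass Ω p c (c j) else 0)
            = p j * ((∑ k ∈ Ω, (if c k = c j then p k else 0)) / mass Ω p c (c j)) := by
          rw [Finset.sum_div, Finset.mul_sum]
          refine Finset.sum_congr rfl fun k _ => ?_
          split_ifs
          · ring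
          · simp
        rw [h3, h2]
      rw [this]
      calc p j * (mass Ω p c (c j) / mass Ω p c (c j)) ≤ p j * 1 :=
            mul_le_mul_of_nonneg_left (div_self_le_one _) (hp.1 j hj)
        _ = p j := mul_one _
    refine (Finset.sum_le_sum hfin).trans ?_
    rw [hp.2]
  rw [hcmi]
  have hle := Finset.sum_le_sum hterm
  rw [Finset.sum_sub_distrib, hp.2] at hle
  linarith

end Pool.Agent.Lib.MP_d0d59f_nt.GE
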