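import Pool.Agent.Lib.MP_d0d59f_nt.GE.E2a

/-! Row ge_E2b: submodularity of entropy, data processing. -/

namespace Pool.Agent.Lib.MP_d0d59f_nt.GE

open Finset

/-- If `h` is determined by `f` and by `g` (on the support) then
`H(f,g) + H(h) ≤ H(f) + H(g)`: `cmi_nonneg` for `f, g, h` and `ent_congr`. -/
theorem ent_submod {ι A B C : Type*} {Ω : Finset ι} {p : ι → ℝ} (hp : IsProb Ω p) {f : ι → A}
    {g : ι → B} {h : ι → C}
    (hf : ∀ i ∈ Ω, ∀ j ∈ Ω, p i ≠ 0 → p j ≠ 0 → f i = f j → h i = h j)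
    (hg : ∀ i ∈ Ω, ∀ j ∈ Ω, p i ≠ 0 → p j ≠ 0 → g i = g j → h i = h j) :
    ent Ω p (fun i => (f i, g i)) + ent Ω p h ≤ ent Ω p f + ent Ω p g := by
  have h0 := cmi_nonneg hp f g h
  unfold cmi at h0
  have e1 : ent Ω p (fun i => (f i, h i)) = ent Ω p f := by
    apply ent_congr
    intro i hi j hj pi pj
    constructor
    · intro h'
      exact (Prod.mk.inj h').1
    · intro h'
      rw [h', hf i hi j hj pi pj h']
  have e2 : ent Ω p (fun i => (g i, h i)) = ent Ω p g := by
    apply ent_congr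
    intro i hi j hj pi pj
    constructor
    · intro h'
      exact (Prod.mk.inj h').1
    · intro h'
      rw [h', hg i hi j hj pi pj h']
  have e3 : ent Ω p (fun i => (f i, g i, h i)) = ent Ω p (fun i => (f i, g i)) := by
    apply ent_congr
    intro i hi j hj pi pj
    constructor
    · intro h'
      have h1 := Prod.mk.inj h'
      have h2 := Prod.mk.inj h1.2
      rw [h1.1, h2.1]
    · intro h'
      have h1 := Prod.mk.inj h'
      rw [h1.1, h1.2, hf i hi j hj pi pj h1.1]
  rw [e1, e2, e3] at h0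
  linarith

/-- `H(f,g) ≤ H(f) + H(g)`: `ent_submod` with the constant variable (entropy `0`). -/
theorem ent_pair_le {ι A B : Type*} {Ω : Finset ι} {p : ι → ℝ} (hp : IsProb Ω p) (f : ι → A)
    (g : ι → B) : ent Ω p (fun i => (f i, g i)) ≤ ent Ω p f + ent Ω p g := by
  have h0 := ent_submod hp (f := f) (g := g) (h := fun _ => ()) (fun _ _ _ _ _ _ _ => rfl)
    (fun _ _ _ _ _ _ _ => rfl)
  have h1 := ent_nonneg hp (fun _ : ι => ())
  linarith

/-- Data processing: if `g` is determined by `(w, c)` then `I(a ; g | c) ≤ I(a ; w | c)`: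
equivalent to `H(g,c) + H(a,w,c) ≤ H(w,c) + H(a,g,c)`, which is `ent_submod` for `(w,c)`, `(a,g,c)` over
`(g,c)` (the pair of both has the same fibres as `(a,w,c)`). -/
theorem cmi_mono {ι A W G C : Type*} {Ω : Finset ι} {p : ι → ℝ} (hp : IsProb Ω p) (a : ι → A)
    (w : ι → W) (g : ι → G) (c : ι → C)
    (h : ∀ i ∈ Ω, ∀ j ∈ Ω, p i ≠ 0 → p j ≠ 0 → w i = w j → c i = c j → g i = g j) :
    cmi Ω p a g c ≤ cmi Ω p a w c := by
  have h0 := ent_submod hp (f := fun i => (w i, c i)) (g := fun i => (a i, g i, c i))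
    (h := fun i => (g i, c i))
    (by
      intro i hi j hj pi pj hij
      have h1 := Prod.mk.inj hij
      show (g i, c i) = (g j, c j)
      rw [h i hi j hj pi pj h1.1 h1.2, h1.2])
    (by
      intro i hi j hj pi pj hij
      exact (Prod.mk.inj hij).2)
  have e1 : ent Ω p (fun i => ((fun i => (w i, c i)) i, (fun i => (a i, g i, c i)) i))
      = ent Ω p (fun i => (a i, w i, c i)) := by
    apply ent_congr
    intro i hi j hj pi pj
    constructor
    · intro h'
      have h1 := Prod.mk.inj h'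
      have h2 := Prod.mk.inj h1.1
      have h3 := Prod.mk.inj h1.2
      rw [h3.1, h2.1, h2.2]
    · intro h'
      have h1 := Prod.mk.inj h'
      have h2 := Prod.mk.inj h1.2
      show ((w i, c i), (a i, g i, c i)) = ((w j, c j), (a j, g j, c j))
      rw [h i hi j hj pi pj h2.1 h2.2, h1.1, h2.1, h2.2]
  rw [e1] at h0
  unfold cmi
  linarith

/-- Data processing for `mi`: if `b'` is determined by `b` then `I(a ; b') ≤ I(a ; b)`. -/
theorem mi_mono {ι A B B' : Type*} {Ω : Finset ι} {p : ι → ℝ} (hp : IsProb Ω p) (a : ι → A)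
    (b : ι → B) (b' : ι → B')
    (h : ∀ i ∈ Ω, ∀ j ∈ Ω, p i ≠ 0 → p j ≠ 0 → b i = b j → b' i = b' j) :
    mi Ω p a b' ≤ mi Ω p a b := by
  have h0 := ent_submod hp (f := b) (g := fun i => (a i, b' i)) (h := b') h
    (by
      intro i hi j hj pi pj hij
      exact (Prod.mk.inj hij).2)
  have e1 : ent Ω p (fun i => (b i, (fun i => (a i, b' i)) i))
      = ent Ω p (fun i => (a i, b i)) := by
    apply ent_congr
    intro i hi j hj pi pj
    constructor
    · intro h'
      have h1 := Prod.mk.inj h'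
      have h2 := Prod.mk.inj h1.2
      rw [h1.1, h2.1]
    · intro h'
      have h1 := Prod.mk.inj h'
      show (b i, (a i, b' i)) = (b j, (a j, b' j))
      rw [h1.1, h1.2, h i hi j hj pi pj h1.2]
  rw [e1] at h0
  unfold mi
  linarith

end Pool.Agent.Lib.MP_d0d59f_nt.GE
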