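import Pool.Agent.Lib.MP_d0d59f_nt.GE.E2b

/-! Row ge_E3a: two-step experiments: `i ∈ I` with probability `p i`, then `j ∈ J` with
probability `q i j`. -/

namespace Pool.Agent.Lib.MP_d0d59f_nt.GE

open Finset

/-- Weights of the two-step experiment. -/
noncomputable def pq {ι κ : Type*} (p : ι → ℝ) (q : ι → κ → ℝ) (z : ι × κ) : ℝ :=
  p z.1 * q z.1 z.2

private theorem e3a_sum {ι κ : Type*} {I : Finset ι} {J : Finset κ} {p : ι → ℝ} {q : ι → κ → ℝ}
    (φ : ι × κ → ℝ) :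
    ∑ z ∈ I ×ˢ J, pq p q z * φ z = ∑ i ∈ I, p i * ∑ j ∈ J, q i j * φ (i, j) := by
  rw [sum_product]
  refine sum_congr rfl fun i _ => ?_
  rw [mul_sum]
  exact sum_congr rfl fun j _ => by simp only [pq]; ring

private theorem e3a_one {ι κ : Type*} {I : Finset ι} {J : Finset κ} {p : ι → ℝ} {q : ι → κ → ℝ}
    (hq : ∀ i ∈ I, p i ≠ 0 → ∑ j ∈ J, q i j = 1) (φ : ι → ℝ) :
    ∑ i ∈ I, p i * ∑ j ∈ J, q i j * φ i = ∑ i ∈ I, p i * φ i := by
  refine sum_congr rfl fun i hi => ?_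
  by_cases h : p i = 0
  · rw [h, zero_mul, zero_mul]
  · rw [← sum_mul, hq i hi h, one_mul]

private theorem e3a_mass_id {ι : Type*} {Ω : Finset ι} {p : ι → ℝ} {i : ι} (hi : i ∈ Ω) :
    mass Ω p (fun i => i) i = p i := by
  unfold mass
  rw [sum_eq_single_of_mem i hi fun b _ hb => if_neg hb, if_pos rfl]

theorem isProb_pq {ι κ : Type*} {I : Finset ι} {J : Finset κ} {p : ι → ℝ} {q : ι → κ → ℝ}
    (hp : IsProb I p) (hq0 : ∀ i j, 0 ≤ q i j) (hq : ∀ i ∈ I, p i ≠ 0 → ∑ j ∈ J, q i j = 1) :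
    IsProb (I ×ˢ J) (pq p q) := by
  refine ⟨fun z hz => ?_, ?_⟩
  · exact mul_nonneg (hp.1 _ (mem_product.1 hz).1) (hq0 _ _)
  · have h1 := e3a_sum (I := I) (J := J) (p := p) (q := q) (fun _ => 1)
    simp only [mul_one] at h1
    rw [h1, ← hp.2]
    refine sum_congr rfl fun i hi => ?_
    by_cases h : p i = 0
    · rw [h, zero_mul]
    · rw [hq i hi h, mul_one]

theorem mass_pq_fst {ι κ A : Type*} {I : Finset ι} {J : Finset κ} {p : ι → ℝ} {q : ι → κ → ℝ}
    (hq : ∀ i ∈ I, p i ≠ 0 → ∑ j ∈ J, q i j = 1) (f : ι → A) (a : A) :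
    mass (I ×ˢ J) (pq p q) (fun z => f z.1) a = mass I p f a := by
  classical
  have h0 : ∀ z : ι × κ, z ∈ I ×ˢ J → (if (fun z : ι × κ => f z.1) z = a then pq p q z else 0) =
      pq p q z * (if f z.1 = a then 1 else 0) := by
    intro z _
    by_cases h : f z.1 = a
    · rw [if_pos h, if_pos h, mul_one]
    · rw [if_neg h, if_neg h, mul_zero]
  unfold mass
  have h1 : ∑ z ∈ I ×ˢ J, pq p q z * (if f z.1 = a then 1 else 0) =
      ∑ i ∈ I, p i * (if f i = a then 1 else 0) := by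
    rw [e3a_sum (fun z : ι × κ => if f z.1 = a then (1 : ℝ) else 0)]
    exact e3a_one hq (fun i => if f i = a then (1 : ℝ) else 0)
  refine Eq.trans (sum_congr rfl fun z hz => ?_) (h1.trans (sum_congr rfl fun i _ => ?_))
  · rw [← h0 z hz]
  · by_cases h : f i = a
    · rw [if_pos h, if_pos h, mul_one]
    · rw [if_neg h, if_neg h, mul_zero]

theorem ent_pq_fst {ι κ A : Type*} {I : Finset ι} {J : Finset κ} {p : ι → ℝ} {q : ι → κ → ℝ}
    (hq : ∀ i ∈ I, p i ≠ 0 → ∑ j ∈ J, q i j = 1) (f : ι → A) :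
    ent (I ×ˢ J) (pq p q) (fun z => f z.1) = ent I p f := by
  unfold ent
  rw [e3a_sum (fun z => -Real.log (mass (I ×ˢ J) (pq p q) (fun z => f z.1) (f z.1)))]
  simp only [mass_pq_fst hq]
  exact e3a_one hq (fun i => -Real.log (mass I p f (f i)))

/-- Chain rule for the pair `(i, F(i,j))`: the mass of the value at `(i,j)` is
`p i * mass J (q i) (F (i,·)) (F (i,j))`. -/
theorem ent_pq_index {ι κ A : Type*} {I : Finset ι} {J : Finset κ} {p : ι → ℝ} {q : ι → κ → ℝ}
    (hp : IsProb I p) (hq0 : ∀ i j, 0 ≤ q i j) (hq : ∀ i ∈ I, p i ≠ 0 → ∑ j ∈ J, q i j = 1)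
    (F : ι × κ → A) :
    ent (I ×ˢ J) (pq p q) (fun z => (z.1, F z)) =
      ent I p (fun i => i) + ∑ i ∈ I, p i * ent J (q i) (fun j => F (i, j)) := by
  have hm : ∀ i ∈ I, ∀ j, mass (I ×ˢ J) (pq p q) (fun z => (z.1, F z)) (i, F (i, j)) =
      p i * mass J (q i) (fun j => F (i, j)) (F (i, j)) := by
    intro i hi j
    unfold mass
    rw [sum_product, sum_eq_single_of_mem i hi, mul_sum]
    · refine sum_congr rfl fun j' _ => ?_
      by_cases h : F (i, j') = F (i, j)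
      · rw [if_pos h]
        exact if_pos (by show (i, F (i, j')) = (i, F (i, j)); rw [h])
      · rw [if_neg h, if_neg (fun h0 => h (Prod.mk.inj h0).2), mul_zero]
    · intro i' _ hi'
      exact sum_eq_zero fun j' _ => if_neg fun h0 => hi' (Prod.mk.inj h0).1
  have h1 : ∀ i ∈ I, p i * ∑ j ∈ J, q i j *
      (-Real.log (mass (I ×ˢ J) (pq p q) (fun z => (z.1, F z)) (i, F (i, j)))) =
      p i * (-Real.log (mass I p (fun i => i) i)) +
        p i * ent J (q i) (fun j => F (i, j)) := by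
    intro i hi
    by_cases h : p i = 0
    · rw [h, zero_mul, zero_mul, zero_mul, add_zero]
    · rw [← mul_add]
      congr 1
      unfold ent
      rw [e3a_mass_id hi, ← one_mul (-Real.log (p i)), ← hq i hi h, sum_mul, ← sum_add_distrib]
      refine sum_congr rfl fun j hj => ?_
      by_cases h2 : q i j = 0
      · rw [h2, zero_mul, zero_mul, zero_mul, add_zero]
      · have h3 : 0 < mass J (q i) (fun j => F (i, j)) (F (i, j)) :=
          mass_pos (Ω := J) (p := q i) (fun j _ => hq0 i j) (fun j => F (i, j)) hj h2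
        rw [hm i hi j, Real.log_mul h h3.ne']
        ring
  unfold ent
  rw [e3a_sum (fun z => -Real.log (mass (I ×ˢ J) (pq p q) (fun z => (z.1, F z)) (z.1, F z))),
    sum_congr rfl h1, sum_add_distrib]
  rfl

/-- Conditioning reduces entropy: `∑ p_i H(F(i,·)) ≤ H(F)`. From `ent_pq_index` and `ent_pair_le`:
`H(i) + ∑ p_i H(F(i,·)) = H(i, F) ≤ H(i) + H(F)`. -/
theorem ent_pq_ge {ι κ A : Type*} {I : Finset ι} {J : Finset κ} {p : ι → ℝ} {q : ι → κ → ℝ}
    (hp : IsProb I p) (hq0 : ∀ i j, 0 ≤ q i j) (hq : ∀ i ∈ I, p i ≠ 0 → ∑ j ∈ J, q i j = 1)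
    (F : ι × κ → A) :
    ∑ i ∈ I, p i * ent J (q i) (fun j => F (i, j)) ≤ ent (I ×ˢ J) (pq p q) F := by
  have h1 := ent_pq_index hp hq0 hq F
  have h2 := ent_pair_le (isProb_pq hp hq0 hq) (fun z => z.1) F
  have h3 := ent_pq_fst hq (fun i => i)
  linarith

/-- Chain rule when the law `q i` depends only on `g i`: the mass of `(j, g i)` is
`mass I p g (g i) * q i j`. -/
theorem ent_pq_chain {ι κ A : Type*} {I : Finset ι} {J : Finset κ} {p : ι → ℝ} {q : ι → κ → ℝ}
    (hp : IsProb I p) (hq0 : ∀ i j, 0 ≤ q i j) (hq : ∀ i ∈ I, p i ≠ 0 → ∑ j ∈ J, q i j = 1)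
    (g : ι → A)
    (hg : ∀ i ∈ I, ∀ i' ∈ I, p i ≠ 0 → p i' ≠ 0 → g i = g i' → ∀ j ∈ J, q i j = q i' j) :
    ent (I ×ˢ J) (pq p q) (fun z => (z.2, g z.1)) =
      ent I p g + ∑ i ∈ I, p i * ent J (q i) (fun j => j) := by
  have hm : ∀ i ∈ I, ∀ j ∈ J, p i ≠ 0 →
      mass (I ×ˢ J) (pq p q) (fun z => (z.2, g z.1)) (j, g i) = mass I p g (g i) * q i j := by
    intro i hi j hj h
    unfold mass
    rw [sum_product, sum_mul]
    refine sum_congr rfl fun i' hi' => ?_
    rw [sum_eq_single_of_mem j hj]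
    · by_cases h1 : g i' = g i
      · rw [if_pos h1]
        refine (if_pos (by show (j, g i') = (j, g i); rw [h1])).trans ?_
        by_cases h2 : p i' = 0
        · simp only [pq, h2, zero_mul]
        · simp only [pq]
          rw [hg i hi i' hi' h h2 h1.symm j hj]
      · rw [if_neg h1, if_neg (fun h0 => h1 (Prod.mk.inj h0).2), zero_mul]
    · intro j' _ hj'
      exact if_neg fun h0 => hj' (Prod.mk.inj h0).1
  have h1 : ∀ i ∈ I, p i * ∑ j ∈ J, q i j *
      (-Real.log (mass (I ×ˢ J) (pq p q) (fun z => (z.2, g z.1)) (j, g i))) =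
      p i * (-Real.log (mass I p g (g i))) + p i * ent J (q i) (fun j => j) := by
    intro i hi
    by_cases h : p i = 0
    · rw [h, zero_mul, zero_mul, zero_mul, add_zero]
    · rw [← mul_add]
      congr 1
      unfold ent
      rw [← one_mul (-Real.log (mass I p g (g i))), ← hq i hi h, sum_mul, ← sum_add_distrib]
      refine sum_congr rfl fun j hj => ?_
      by_cases h2 : q i j = 0
      · rw [h2, zero_mul, zero_mul, zero_mul, add_zero]
      · have h3 : 0 < mass I p g (g i) := mass_pos hp.1 g hi h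
        rw [hm i hi j hj h, Real.log_mul h3.ne' h2, e3a_mass_id hj]
        ring
  have h2 : ent (I ×ˢ J) (pq p q) (fun z => (z.2, g z.1)) =
      ∑ i ∈ I, p i * ∑ j ∈ J, q i j *
      (-Real.log (mass (I ×ˢ J) (pq p q) (fun z => (z.2, g z.1)) (j, g i))) := by
    unfold ent
    exact e3a_sum (fun z => -Real.log (mass (I ×ˢ J) (pq p q) (fun z => (z.2, g z.1)) (z.2, g z.1)))
  rw [h2, sum_congr rfl h1, sum_add_distrib]
  rfl

end Pool.Agent.Lib.MP_d0d59f_nt.GE
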