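import Pool.Agent.Lib.MP_d0d59f_nt.GE.E3a

/-! Row ge_E3b: information inequalities in two-step experiments. -/

namespace Pool.Agent.Lib.MP_d0d59f_nt.GE

open Finset

/-- If the law of `j` given `i` depends only on `(V i, C i)` and `G` is determined by
`(C i, V i, j)`, then `I(Z ; G | C) ≤ I(Z ; V | C)`.
`cmi_mono`: `I(Z ; G | C) ≤ I(Z ; (j, V) | C)`; by `ent_pq_chain` (for `g = (V, C)` and
`g = (Z, V, C)`), `ent_congr` and `ent_pq_fst`, `I(Z ; (j,V) | C) = I(Z ; V | C)` (the terms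
`∑ p_i H(q_i)` cancel). -/
theorem cmi_pq_le {ι κ A B D E : Type*} {I : Finset ι} {J : Finset κ} {p : ι → ℝ}
    {q : ι → κ → ℝ} (hp : IsProb I p) (hq0 : ∀ i j, 0 ≤ q i j)
    (hq : ∀ i ∈ I, p i ≠ 0 → ∑ j ∈ J, q i j = 1) (Z : ι → A) (V : ι → D) (C : ι → B)
    (hVC : ∀ i ∈ I, ∀ i' ∈ I, p i ≠ 0 → p i' ≠ 0 → V i = V i' → C i = C i' →
      ∀ j ∈ J, q i j = q i' j)
    (G : ι × κ → E)
    (hG : ∀ z ∈ I ×ˢ J, ∀ z' ∈ I ×ˢ J, pq p q z ≠ 0 → pq p q z' ≠ 0 → C z.1 = C z'.1 →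
      V z.1 = V z'.1 → z.2 = z'.2 → G z = G z') :
    cmi (I ×ˢ J) (pq p q) (fun z => Z z.1) G (fun z => C z.1) ≤ cmi I p Z V C := by
  have hP := isProb_pq hp hq0 hq
  refine (cmi_mono hP (fun z => Z z.1) (fun z => (z.2, V z.1)) G (fun z => C z.1) ?_).trans
    (le_of_eq ?_)
  · intro z hz z' hz' h0 h0' hw hc
    rw [Prod.mk.injEq] at hw
    exact hG z hz z' hz' h0 h0' hc hw.2 hw.1
  · unfold cmi
    have h1 : ent (I ×ˢ J) (pq p q) (fun z => (Z z.1, C z.1)) = ent I p (fun i => (Z i, C i)) :=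
      ent_pq_fst hq (fun i => (Z i, C i))
    have h2 : ent (I ×ˢ J) (pq p q) (fun z => C z.1) = ent I p C := ent_pq_fst hq C
    have h3 : ent (I ×ˢ J) (pq p q) (fun z => ((z.2, V z.1), C z.1)) =
        ent I p (fun i => (V i, C i)) + ∑ i ∈ I, p i * ent J (q i) (fun j => j) := by
      rw [← ent_pq_chain hp hq0 hq (fun i => (V i, C i)) (by
        intro i hi i' hi' h0 h0' h j hj
        rw [Prod.mk.injEq] at h
        exact hVC i hi i' hi' h0 h0' h.1 h.2 j hj)]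
      apply ent_congr
      intro z _ z' _ _ _
      simp only [Prod.mk.injEq]
      tauto
    have h4 : ent (I ×ˢ J) (pq p q) (fun z => (Z z.1, (z.2, V z.1), C z.1)) =
        ent I p (fun i => (Z i, V i, C i)) + ∑ i ∈ I, p i * ent J (q i) (fun j => j) := by
      rw [← ent_pq_chain hp hq0 hq (fun i => (Z i, V i, C i)) (by
        intro i hi i' hi' h0 h0' h j hj
        rw [Prod.mk.injEq, Prod.mk.injEq] at h
        exact hVC i hi i' hi' h0 h0' h.2.1 h.2.2 j hj)]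
      apply ent_congr
      intro z _ z' _ _ _
      simp only [Prod.mk.injEq]
      tauto
    rw [h1, h2, h3, h4]
    ring

/-- Two conditionally independent copies `j, j'` given `i`:
`I(F(i,j) ; F(i,j')) ≤ H(F) - ∑ p_i H(F(i,·))`.
`mi_mono`: `≤ I(F(i,j) ; (i, j'))`. With the first experiment `(i,j)` and the second step `j'`,
`ent_pq_chain` for `g = (i, F(i,j))` and for `g = i` gives `H(j', i, F) = H(i, F) + S`, `H(j', i) = H(i) + S`, so
`I = H(F) + H(i) - H(i, F)`, and `ent_pq_index`. -/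
theorem mi_pq_le {ι κ A : Type*} {I : Finset ι} {J : Finset κ} {p : ι → ℝ}
    {q : ι → κ → ℝ} (hp : IsProb I p) (hq0 : ∀ i j, 0 ≤ q i j)
    (hq : ∀ i ∈ I, p i ≠ 0 → ∑ j ∈ J, q i j = 1) (F : ι × κ → A) :
    mi ((I ×ˢ J) ×ˢ J) (pq (pq p q) (fun z => q z.1)) (fun z => F z.1) (fun z => F (z.1.1, z.2)) ≤
      ent (I ×ˢ J) (pq p q) F - ∑ i ∈ I, p i * ent J (q i) (fun j => F (i, j)) := by
  have hP := isProb_pq hp hq0 hq
  have hq' : ∀ z ∈ I ×ˢ J, pq p q z ≠ 0 → ∑ j ∈ J, q z.1 j = 1 := by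
    intro z hz h0
    refine hq z.1 (Finset.mem_product.1 hz).1 fun h => h0 ?_
    unfold pq
    rw [h, zero_mul]
  have hP' : IsProb ((I ×ˢ J) ×ˢ J) (pq (pq p q) (fun z => q z.1)) :=
    isProb_pq hP (fun z j => hq0 z.1 j) hq'
  refine (mi_mono hP' (fun z => F z.1) (fun z => (z.1.1, z.2)) (fun z => F (z.1.1, z.2)) ?_).trans
    (le_of_eq ?_)
  · intro z _ z' _ _ _ h
    exact congrArg F h
  · unfold mi
    have h1 : ent ((I ×ˢ J) ×ˢ J) (pq (pq p q) (fun z => q z.1)) (fun z => F z.1) =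
        ent (I ×ˢ J) (pq p q) F := ent_pq_fst hq' F
    have h2 : ent ((I ×ˢ J) ×ˢ J) (pq (pq p q) (fun z => q z.1)) (fun z => (z.1.1, z.2)) =
        ent (I ×ˢ J) (pq p q) (fun z => z.1) +
          ∑ z ∈ I ×ˢ J, pq p q z * ent J (q z.1) (fun j => j) := by
      rw [← ent_pq_chain (q := fun z => q z.1) hP (fun z j => hq0 z.1 j) hq' (fun z => z.1) (by
        intro z _ z' _ _ _ h j _
        exact congrArg (fun i => q i j) h)]
      apply ent_congr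
      intro z _ z' _ _ _
      simp only [Prod.mk.injEq]
      tauto
    have h3 : ent ((I ×ˢ J) ×ˢ J) (pq (pq p q) (fun z => q z.1)) (fun z => (F z.1, (z.1.1, z.2))) =
        ent (I ×ˢ J) (pq p q) (fun z => (z.1, F z)) +
          ∑ z ∈ I ×ˢ J, pq p q z * ent J (q z.1) (fun j => j) := by
      rw [← ent_pq_chain (q := fun z => q z.1) hP (fun z j => hq0 z.1 j) hq'
        (fun z => (z.1, F z)) (by
        intro z _ z' _ _ _ h j _
        rw [Prod.mk.injEq] at h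
        exact congrArg (fun i => q i j) h.1)]
      apply ent_congr
      intro z _ z' _ _ _
      simp only [Prod.mk.injEq]
      tauto
    have h4 : ent (I ×ˢ J) (pq p q) (fun z => z.1) = ent I p (fun i => i) :=
      ent_pq_fst hq (fun i => i)
    rw [h1, h2, h3, h4, ent_pq_index hp hq0 hq F]
    ring

theorem e3b_inj {ι κ : Type*} (I : Finset ι) (J : Finset κ) :
    ∀ z ∈ (I ×ˢ J) ×ˢ J, ∀ z' ∈ (I ×ˢ J) ×ˢ J,
      (((z.1.1, z.2), z.1.2) : (ι × κ) × κ) = ((z'.1.1, z'.2), z'.1.2) → z = z' := by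
  rintro ⟨⟨i, j⟩, j'⟩ _ ⟨⟨i₁, j₁⟩, j₁'⟩ _ h
  simp only [Prod.mk.injEq] at h ⊢
  tauto

theorem e3b_mem {ι κ : Type*} (I : Finset ι) (J : Finset κ) :
    ∀ z ∈ (I ×ˢ J) ×ˢ J, (((z.1.1, z.2), z.1.2) : (ι × κ) × κ) ∈ (I ×ˢ J) ×ˢ J := by
  rintro ⟨⟨i, j⟩, j'⟩ h
  simp only [Finset.mem_product] at h ⊢
  tauto

theorem e3b_surj {ι κ : Type*} (I : Finset ι) (J : Finset κ) :
    ∀ w ∈ (I ×ˢ J) ×ˢ J, ∃ z ∈ (I ×ˢ J) ×ˢ J, (((z.1.1, z.2), z.1.2) : (ι × κ) × κ) = w := by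
  rintro ⟨⟨i, j⟩, j'⟩ h
  exact ⟨((i, j'), j), e3b_mem I J _ h, rfl⟩

theorem e3b_wt {ι κ : Type*} {I : Finset ι} {J : Finset κ} (p : ι → ℝ) (q : ι → κ → ℝ) :
    ∀ z ∈ (I ×ˢ J) ×ˢ J, pq (pq p q) (fun z => q z.1) ((z.1.1, z.2), z.1.2) =
      pq (pq p q) (fun z => q z.1) z := by
  intro z _
  unfold pq
  ring

theorem e3b_key {ι κ T : Type*} {I : Finset ι} {J : Finset κ} {p : ι → ℝ} {q : ι → κ → ℝ}
    (f : (ι × κ) × κ → T) :
    ent ((I ×ˢ J) ×ˢ J) (pq (pq p q) (fun z => q z.1)) f =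
      ent ((I ×ˢ J) ×ˢ J) (pq (pq p q) (fun z => q z.1)) (fun z => f ((z.1.1, z.2), z.1.2)) :=
  ent_reindex (fun z => ((z.1.1, z.2), z.1.2)) (e3b_inj I J) (e3b_mem I J)
    (e3b_surj I J) (e3b_wt p q) (fun _ _ => rfl)

/-- Exchange of the two copies. -/
theorem cmi_pq_swap {ι κ A B D : Type*} {I : Finset ι} {J : Finset κ} {p : ι → ℝ}
    {q : ι → κ → ℝ} (a : (ι × κ) × κ → A) (b : (ι × κ) × κ → B) (c : (ι × κ) × κ → D) :
    cmi ((I ×ˢ J) ×ˢ J) (pq (pq p q) (fun z => q z.1)) a b c =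
      cmi ((I ×ˢ J) ×ˢ J) (pq (pq p q) (fun z => q z.1)) (fun z => a ((z.1.1, z.2), z.1.2))
        (fun z => b ((z.1.1, z.2), z.1.2)) (fun z => c ((z.1.1, z.2), z.1.2)) := by
  unfold cmi
  rw [e3b_key (fun z => (a z, c z)), e3b_key (fun z => (b z, c z)),
    e3b_key (fun z => (a z, b z, c z)), e3b_key c]

/-- Both copies have the law of `F`. -/
theorem mass_pq_swap {ι κ A : Type*} {I : Finset ι} {J : Finset κ} {p : ι → ℝ}
    {q : ι → κ → ℝ} (F : ι × κ → A) (a : A) :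
    mass ((I ×ˢ J) ×ˢ J) (pq (pq p q) (fun z => q z.1)) (fun z => F z.1) a =
      mass ((I ×ˢ J) ×ˢ J) (pq (pq p q) (fun z => q z.1)) (fun z => F (z.1.1, z.2)) a := by
  exact mass_reindex (fun z : (ι × κ) × κ => ((z.1.1, z.2), z.1.2)) (e3b_inj I J) (e3b_mem I J)
    (e3b_surj I J) (e3b_wt p q) (fun _ _ => rfl) a

end Pool.Agent.Lib.MP_d0d59f_nt.GE
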