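import Pool.Agent.Lib.MP_d0d59f_nt.GE.E1b

/-! Row ge_E4a: the `L¹` distance is at most `2 √KL`. -/

namespace Pool.Agent.Lib.MP_d0d59f_nt.GE

open Finset

/-- `‖p - q‖₁ ≤ 2 √KL(p‖q)`. For `p a > 0`: `log (p/q) = -2 log √(q/p) ≥ 2 (1 - √(q/p))`, so
`KL ≥ 2 ∑ p - 2 ∑ √(pq) ≥ ∑ (√p - √q)²` (`∑ q ≤ 1 = ∑ p`); Cauchy-Schwarz:
`∑ |p - q| = ∑ |√p - √q| (√p + √q) ≤ √KL √(∑ 2p + 2q) ≤ 2 √KL`. -/
theorem l1_le_kl {A : Type*} [Fintype A] (p q : A → ℝ) (hp : ∀ a, 0 ≤ p a) (hq : ∀ a, 0 ≤ q a)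
    (hp1 : ∑ a, p a = 1) (hq1 : ∑ a, q a ≤ 1) (hac : ∀ a, q a = 0 → p a = 0) :
    ∑ a, |p a - q a| ≤ 2 * √(∑ a, p a * Real.log (p a / q a)) := by
  have hterm : ∀ a, 2 * p a - 2 * (√(p a) * √(q a)) ≤ p a * Real.log (p a / q a) := by
    intro a
    rcases (hp a).eq_or_lt with h0 | h0
    · rw [← h0]; simp
    · have hqa : 0 < q a := lt_of_le_of_ne (hq a) fun h => h0.ne' (hac a h.symm)
      have h1 : Real.log (p a / q a) = -(2 * Real.log (√(q a) / √(p a))) := by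
        rw [Real.log_div h0.ne' hqa.ne', Real.log_div (by positivity) (by positivity),
          Real.log_sqrt hqa.le, Real.log_sqrt h0.le]
        ring
      have h2 : Real.log (√(q a) / √(p a)) ≤ √(q a) / √(p a) - 1 :=
        Real.log_le_sub_one_of_pos (by positivity)
      have h3 : p a * (√(q a) / √(p a)) = √(p a) * √(q a) := by
        have h4 : p a = √(p a) * √(p a) := (Real.mul_self_sqrt h0.le).symm
        have h5 : √(p a) ≠ 0 := by positivity
        calc p a * (√(q a) / √(p a)) = √(p a) * √(p a) * (√(q a) / √(p a)) := by rw [← h4]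
          _ = √(p a) * √(q a) := by field_simp
      rw [h1]
      have h6 := mul_le_mul_of_nonneg_left h2 h0.le
      rw [mul_sub, h3] at h6
      linarith
  have hK : ∑ a, (√(p a) - √(q a)) ^ 2 ≤ ∑ a, p a * Real.log (p a / q a) := by
    have h1 : ∑ a, (√(p a) - √(q a)) ^ 2 = ∑ a, p a + ∑ a, q a - ∑ a, 2 * (√(p a) * √(q a)) := by
      rw [← Finset.sum_add_distrib, ← Finset.sum_sub_distrib]
      refine Finset.sum_congr rfl fun a _ => ?_
      have h2 := Real.sq_sqrt (hp a)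
      have h3 := Real.sq_sqrt (hq a)
      rw [sub_sq, h2, h3]
      ring
    have h2 : ∑ a, (2 * p a - 2 * (√(p a) * √(q a))) ≤ ∑ a, p a * Real.log (p a / q a) :=
      Finset.sum_le_sum fun a _ => hterm a
    rw [Finset.sum_sub_distrib, ← Finset.mul_sum, hp1] at h2
    rw [h1, hp1]
    linarith
  have hCS : (∑ a, |p a - q a|) ^ 2 ≤ (∑ a, (√(p a) - √(q a)) ^ 2) * ∑ a, (√(p a) + √(q a)) ^ 2 := by
    have h1 : ∀ a, |p a - q a| = |√(p a) - √(q a)| * (√(p a) + √(q a)) := by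
      intro a
      have h2 : p a - q a = (√(p a) - √(q a)) * (√(p a) + √(q a)) := by
        have h3 := Real.mul_self_sqrt (hp a)
        have h4 := Real.mul_self_sqrt (hq a)
        linear_combination -h3 + h4
      rw [h2, abs_mul, abs_of_nonneg (by positivity : 0 ≤ √(p a) + √(q a))]
    have h5 := Finset.sum_mul_sq_le_sq_mul_sq Finset.univ (fun a => |√(p a) - √(q a)|)
      (fun a => √(p a) + √(q a))
    simp only [sq_abs] at h5
    rw [Finset.sum_congr rfl fun a _ => h1 a]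
    exact h5
  have h4 : ∑ a, (√(p a) + √(q a)) ^ 2 ≤ 4 := by
    have h1 : ∑ a, (√(p a) + √(q a)) ^ 2 ≤ ∑ a, (2 * p a + 2 * q a) := by
      refine Finset.sum_le_sum fun a _ => ?_
      have h2 := Real.sq_sqrt (hp a)
      have h3 := Real.sq_sqrt (hq a)
      nlinarith [sq_nonneg (√(p a) - √(q a))]
    rw [Finset.sum_add_distrib, ← Finset.mul_sum, ← Finset.mul_sum, hp1] at h1
    linarith
  have hK0 : 0 ≤ ∑ a, p a * Real.log (p a / q a) :=
    (Finset.sum_nonneg fun a _ => sq_nonneg _).trans hK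
  have h5 : (∑ a, |p a - q a|) ^ 2 ≤ (2 * √(∑ a, p a * Real.log (p a / q a))) ^ 2 := by
    rw [mul_pow, Real.sq_sqrt hK0]
    calc (∑ a, |p a - q a|) ^ 2 ≤ (∑ a, (√(p a) - √(q a)) ^ 2) * ∑ a, (√(p a) + √(q a)) ^ 2 := hCS
      _ ≤ (∑ a, p a * Real.log (p a / q a)) * 4 :=
          mul_le_mul hK h4 (Finset.sum_nonneg fun a _ => sq_nonneg _) hK0
      _ = 2 ^ 2 * ∑ a, p a * Real.log (p a / q a) := by ring
  exact le_of_sq_le_sq h5 (by positivity) |> fun h => h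

end Pool.Agent.Lib.MP_d0d59f_nt.GE
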