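import Pool.Agent.Lib.MP_d0d59f_nt.GE.E4a

/-! Row ge_E4b: `L¹` bounds from (conditional) mutual information. -/

namespace Pool.Agent.Lib.MP_d0d59f_nt.GE

open Finset

/-- `l1_le_kl` for the joint law of `(a, b, c)` and `m(ac) m(bc) / m(c)` (total mass `1`). -/
theorem l1_cmi {ι A B C : Type*} [Fintype A] [Fintype B] [Fintype C] {Ω : Finset ι} {p : ι → ℝ}
    (hp : IsProb Ω p) (a : ι → A) (b : ι → B) (c : ι → C) :
    ∑ x : A, ∑ y : B, ∑ z : C, |mass Ω p (fun i => (a i, b i, c i)) (x, y, z) -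
        mass Ω p (fun i => (a i, c i)) (x, z) * mass Ω p (fun i => (b i, c i)) (y, z) /
          mass Ω p c z| ≤ 2 * √(cmi Ω p a b c) := by
  classical
  set P : A × B × C → ℝ := fun t => mass Ω p (fun i => (a i, b i, c i)) t with hP
  set Q : A × B × C → ℝ := fun t => mass Ω p (fun i => (a i, c i)) (t.1, t.2.2) *
    mass Ω p (fun i => (b i, c i)) (t.2.1, t.2.2) / mass Ω p c t.2.2 with hQ
  have hPnn : ∀ t, 0 ≤ P t := fun t => mass_nonneg hp.1 _ _
  have hQnn : ∀ t, 0 ≤ Q t := fun t =>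
    div_nonneg (mul_nonneg (mass_nonneg hp.1 _ _) (mass_nonneg hp.1 _ _)) (mass_nonneg hp.1 _ _)
  have hP1 : ∑ t, P t = 1 := sum_mass hp _
  have hQ1 : ∑ t, Q t ≤ 1 := by
    have h1 : ∑ t, Q t = ∑ z : C, ((∑ x : A, mass Ω p (fun i => (a i, c i)) (x, z)) *
        (∑ y : B, mass Ω p (fun i => (b i, c i)) (y, z))) / mass Ω p c z := by
      rw [Fintype.sum_prod_type]
      simp_rw [Fintype.sum_prod_type]
      calc ∑ x : A, ∑ y : B, ∑ z : C, Q (x, y, z)
          = ∑ x : A, ∑ z : C, ∑ y : B, Q (x, y, z) :=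
            Finset.sum_congr rfl fun x _ => Finset.sum_comm
        _ = ∑ z : C, ∑ x : A, ∑ y : B, Q (x, y, z) := Finset.sum_comm
        _ = _ := by
            refine Finset.sum_congr rfl fun z _ => ?_
            rw [Finset.sum_mul_sum, Finset.sum_div]
            refine Finset.sum_congr rfl fun x _ => ?_
            rw [Finset.sum_div]
    rw [h1, ← sum_mass hp c]
    refine Finset.sum_le_sum fun z _ => ?_
    rw [sum_mass_fst Ω p a c z, sum_mass_fst Ω p b c z, mul_div_assoc]
    calc mass Ω p c z * (mass Ω p c z / mass Ω p c z) ≤ mass Ω p c z * 1 :=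
          mul_le_mul_of_nonneg_left (div_self_le_one _) (mass_nonneg hp.1 _ _)
      _ = mass Ω p c z := mul_one _
  have hac : ∀ t, Q t = 0 → P t = 0 := by
    intro t hQt
    by_contra hPt
    obtain ⟨i, hi, hpi, hf⟩ := exists_of_mass_ne_zero hPt
    subst hf
    have h1 := mass_pos hp.1 (fun i => (a i, c i)) hi hpi
    have h2 := mass_pos hp.1 (fun i => (b i, c i)) hi hpi
    have h3 := mass_pos hp.1 c hi hpi
    have h4 : 0 < Q (a i, b i, c i) := by
      simp only [hQ]
      exact div_pos (mul_pos h1 h2) h3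
    exact h4.ne' hQt
  have hkl : ∑ t, P t * Real.log (P t / Q t) = cmi Ω p a b c := by
    have h1 := sum_fiber Ω p (fun i => (a i, b i, c i)) (fun t => Real.log (P t / Q t))
    have h2 : ∑ t, P t * Real.log (P t / Q t)
        = ∑ i ∈ Ω, p i * Real.log (P (a i, b i, c i) / Q (a i, b i, c i)) := h1.symm
    rw [h2]
    unfold cmi ent
    rw [← Finset.sum_add_distrib, ← Finset.sum_sub_distrib, ← Finset.sum_sub_distrib]
    refine Finset.sum_congr rfl fun i hi => ?_
    by_cases h0 : p i = 0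
    · simp [h0]
    · have g1 := mass_pos hp.1 (fun i => (a i, c i)) hi h0
      have g2 := mass_pos hp.1 (fun i => (b i, c i)) hi h0
      have g3 := mass_pos hp.1 (fun i => (a i, b i, c i)) hi h0
      have g4 := mass_pos hp.1 c hi h0
      simp only [hP, hQ]
      rw [Real.log_div g3.ne' (div_pos (mul_pos g1 g2) g4).ne',
        Real.log_div (mul_pos g1 g2).ne' g4.ne', Real.log_mul g1.ne' g2.ne']
      ring
  have h := l1_le_kl P Q hPnn hQnn hP1 hQ1 hac
  rw [hkl, Fintype.sum_prod_type] at h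
  simp_rw [Fintype.sum_prod_type] at h
  exact h

theorem l1_mi {ι A B : Type*} [Fintype A] [Fintype B] {Ω : Finset ι} {p : ι → ℝ}
    (hp : IsProb Ω p) (a : ι → A) (b : ι → B) :
    ∑ x : A, ∑ y : B, |mass Ω p (fun i => (a i, b i)) (x, y) - mass Ω p a x * mass Ω p b y|
      ≤ 2 * √(mi Ω p a b) := by
  classical
  set P : A × B → ℝ := fun t => mass Ω p (fun i => (a i, b i)) t with hP
  set Q : A × B → ℝ := fun t => mass Ω p a t.1 * mass Ω p b t.2 with hQ
  have hPnn : ∀ t, 0 ≤ P t := fun t => mass_nonneg hp.1 _ _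
  have hQnn : ∀ t, 0 ≤ Q t := fun t => mul_nonneg (mass_nonneg hp.1 _ _) (mass_nonneg hp.1 _ _)
  have hP1 : ∑ t, P t = 1 := sum_mass hp _
  have hQ1 : ∑ t, Q t ≤ 1 := by
    rw [Fintype.sum_prod_type]
    have h1 : ∑ x : A, ∑ y : B, Q (x, y) = (∑ x : A, mass Ω p a x) * (∑ y : B, mass Ω p b y) := by
      rw [Finset.sum_mul_sum]
    rw [h1, sum_mass hp a, sum_mass hp b, mul_one]
  have hac : ∀ t, Q t = 0 → P t = 0 := by
    intro t hQt
    by_contra hPt
    obtain ⟨i, hi, hpi, hf⟩ := exists_of_mass_ne_zero hPt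
    subst hf
    have h1 := mass_pos hp.1 a hi hpi
    have h2 := mass_pos hp.1 b hi hpi
    have h4 : 0 < Q (a i, b i) := by
      simp only [hQ]
      exact mul_pos h1 h2
    exact h4.ne' hQt
  have hkl : ∑ t, P t * Real.log (P t / Q t) = mi Ω p a b := by
    have h1 := sum_fiber Ω p (fun i => (a i, b i)) (fun t => Real.log (P t / Q t))
    have h2 : ∑ t, P t * Real.log (P t / Q t)
        = ∑ i ∈ Ω, p i * Real.log (P (a i, b i) / Q (a i, b i)) := h1.symm
    rw [h2]
    unfold mi ent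
    rw [← Finset.sum_add_distrib, ← Finset.sum_sub_distrib]
    refine Finset.sum_congr rfl fun i hi => ?_
    by_cases h0 : p i = 0
    · simp [h0]
    · have g1 := mass_pos hp.1 a hi h0
      have g2 := mass_pos hp.1 b hi h0
      have g3 := mass_pos hp.1 (fun i => (a i, b i)) hi h0
      simp only [hP, hQ]
      rw [Real.log_div g3.ne' (mul_pos g1 g2).ne', Real.log_mul g1.ne' g2.ne']
      ring
  have h := l1_le_kl P Q hPnn hQnn hP1 hQ1 hac
  rw [hkl, Fintype.sum_prod_type] at h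
  exact h

end Pool.Agent.Lib.MP_d0d59f_nt.GE
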