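import Pool.Agent.Lib.MP_d0d59f_nt.GE.E4a

/-! Row ge_E4c: distance from the law which is uniform given `X mod 3`. -/

namespace Pool.Agent.Lib.MP_d0d59f_nt.GE

open Finset

theorem e4c_dvd (k : ℕ) : (3 ^ 1 : ℕ) ∣ 3 ^ (k + 1) := pow_dvd_pow 3 (by omega)

theorem e4c_cast (k : ℕ) (m : ℤ) :
    ((((m : ZMod (3 ^ (k + 1))).val : ℕ)) : ZMod (3 ^ 1)) = (m : ZMod (3 ^ 1)) := by
  rw [ZMod.natCast_val, ZMod.cast_intCast (e4c_dvd k)]

theorem e4c_sum (k : ℕ) (φ : ZMod (3 ^ 1) → ℝ) :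
    ∑ x : ZMod (3 ^ (k + 1)), φ ((x.val : ℕ) : ZMod (3 ^ 1)) = 3 ^ k * ∑ c, φ c := by
  classical
  set f : ZMod (3 ^ (k + 1)) →+* ZMod (3 ^ 1) := ZMod.castHom (e4c_dvd k) (ZMod (3 ^ 1)) with hf
  have hfx : ∀ x : ZMod (3 ^ (k + 1)), ((x.val : ℕ) : ZMod (3 ^ 1)) = f x := by
    intro x
    rw [ZMod.natCast_val]
    rfl
  simp_rw [hfx]
  have hsurj : ∀ c, ∃ x, f x = c := by
    intro c
    refine ⟨((c.val : ℕ) : ZMod (3 ^ (k + 1))), ?_⟩
    rw [map_natCast, ZMod.natCast_zmod_val]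
  have hK : ∀ c, (univ.filter fun x => f x = c).card = (univ.filter fun x => f x = 0).card := by
    intro c
    exact AddMonoidHom.card_fiber_eq_of_mem_range f (hsurj c) (hsurj 0)
  have htot : ∑ c : ZMod (3 ^ 1), (univ.filter fun x => f x = c).card = 3 ^ (k + 1) := by
    rw [← Finset.card_eq_sum_card_fiberwise (f := fun x => f x) (t := univ) (s := univ) (fun x _ => mem_coe.2 (mem_univ _))]
    rw [Finset.card_univ, ZMod.card]
  simp_rw [hK] at htot
  rw [Finset.sum_const, Finset.card_univ, ZMod.card, smul_eq_mul] at htot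
  replace htot := htot.trans (pow_succ 3 k)
  have hK0 : (univ.filter fun x : ZMod (3 ^ (k + 1)) => f x = 0).card = 3 ^ k := by
    have h5 : ∀ a b : ℕ, 3 ^ 1 * a = b * 3 → a = b := by intro a b h; omega
    exact h5 _ _ htot
  rw [← Finset.sum_fiberwise (s := univ) (g := fun x => f x), Finset.mul_sum]
  refine Finset.sum_congr rfl fun c _ => ?_
  rw [Finset.sum_congr rfl (g := fun _ => φ c) (fun x hx => by rw [(Finset.mem_filter.1 hx).2]), Finset.sum_const, hK c, hK0,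
    nsmul_eq_mul]
  push_cast
  rfl

/-- Distance of the law of `X mod 3^(k+1)` from uniform given `X mod 3`: `l1_le_kl` with
`q x = mass (X mod 3) (x mod 3) / 3^k`; the relative entropy is
`k log 3 - (H(X mod 3^(k+1)) - H(X mod 3))`. -/
theorem l1_unif {ι : Type*} {Ω : Finset ι} {p : ι → ℝ} (hp : IsProb Ω p) (X : ι → ℤ) (k : ℕ) :
    ∑ x : ZMod (3 ^ (k + 1)), |mass Ω p (fun i => ((X i : ℤ) : ZMod (3 ^ (k + 1)))) x -
        mass Ω p (fun i => ((X i : ℤ) : ZMod (3 ^ 1))) ((x.val : ℕ) : ZMod (3 ^ 1)) / 3 ^ k| ≤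
      2 * √((k : ℝ) * Real.log 3 - (ent Ω p (fun i => ((X i : ℤ) : ZMod (3 ^ (k + 1)))) -
        ent Ω p (fun i => ((X i : ℤ) : ZMod (3 ^ 1))))) := by
  classical
  set P : ZMod (3 ^ (k + 1)) → ℝ := fun x => mass Ω p (fun i => ((X i : ℤ) : ZMod (3 ^ (k + 1)))) x with hP
  set m1 : ZMod (3 ^ 1) → ℝ := fun c => mass Ω p (fun i => ((X i : ℤ) : ZMod (3 ^ 1))) c with hm1
  have h3 : (0 : ℝ) < 3 ^ k := by positivity
  have hP0 : ∀ x, 0 ≤ P x := fun x => mass_nonneg hp.1 _ _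
  have hm0 : ∀ c, 0 ≤ m1 c := fun x => mass_nonneg hp.1 _ _
  have hle : ∀ x, P x ≤ m1 ((x.val : ℕ) : ZMod (3 ^ 1)) := by
    intro x
    simp only [hP, hm1, mass]
    refine Finset.sum_le_sum fun i hi => ?_
    by_cases h : ((X i : ℤ) : ZMod (3 ^ (k + 1))) = x
    · have h2 : ((X i : ℤ) : ZMod (3 ^ 1)) = ((x.val : ℕ) : ZMod (3 ^ 1)) := by
        rw [← h, e4c_cast]
      rw [if_pos h, if_pos h2]
    · rw [if_neg h]
      split_ifs
      · exact hp.1 i hi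
      · exact le_rfl
  have hmain := l1_le_kl P (fun x => m1 ((x.val : ℕ) : ZMod (3 ^ 1)) / 3 ^ k) hP0
    (fun x => div_nonneg (hm0 _) h3.le) (sum_mass hp _) (by
      rw [e4c_sum k (fun c => m1 c / 3 ^ k), ← Finset.sum_div, sum_mass hp]
      rw [mul_one_div, div_self h3.ne'])
    (fun x hx => by
      have h1 : m1 ((x.val : ℕ) : ZMod (3 ^ 1)) = 0 := by
        rcases div_eq_zero_iff.1 hx with h | h
        · exact h
        · exact absurd h h3.ne'
      exact le_antisymm (h1 ▸ hle x) (hP0 x))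
  refine hmain.trans (le_of_eq ?_)
  congr 2
  have hterm : ∀ x, P x * Real.log (P x / (m1 ((x.val : ℕ) : ZMod (3 ^ 1)) / 3 ^ k)) =
      P x * Real.log (P x) + P x * (-Real.log (m1 ((x.val : ℕ) : ZMod (3 ^ 1)))) + P x * (k * Real.log 3) := by
    intro x
    rcases eq_or_ne (P x) 0 with h | h
    · rw [h]; simp
    · have hPx : 0 < P x := lt_of_le_of_ne (hP0 x) (Ne.symm h)
      have hmx : 0 < m1 ((x.val : ℕ) : ZMod (3 ^ 1)) := lt_of_lt_of_le hPx (hle x)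
      rw [Real.log_div h (by positivity), Real.log_div hmx.ne' h3.ne', Real.log_pow]
      ring
  simp_rw [hterm]
  rw [Finset.sum_add_distrib, Finset.sum_add_distrib, ← Finset.sum_mul, sum_mass hp]
  have e1 : ∑ x, P x * Real.log (P x) = -ent Ω p (fun i => ((X i : ℤ) : ZMod (3 ^ (k + 1)))) := by
    rw [← sum_fiber Ω p (fun i => ((X i : ℤ) : ZMod (3 ^ (k + 1)))) (fun x => Real.log (P x))]
    unfold ent
    rw [← Finset.sum_neg_distrib]
    refine Finset.sum_congr rfl fun i _ => ?_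
    simp only [hP]
    ring
  have e2 : ∑ x, P x * (-Real.log (m1 ((x.val : ℕ) : ZMod (3 ^ 1)))) = ent Ω p (fun i => ((X i : ℤ) : ZMod (3 ^ 1))) := by
    rw [← sum_fiber Ω p (fun i => ((X i : ℤ) : ZMod (3 ^ (k + 1)))) (fun x => -Real.log (m1 ((x.val : ℕ) : ZMod (3 ^ 1))))]
    unfold ent
    refine Finset.sum_congr rfl fun i _ => ?_
    simp only [hm1, e4c_cast]
  rw [e1, e2]
  ring

end Pool.Agent.Lib.MP_d0d59f_nt.GE
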