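import Pool.Agent.Lib.MP_d0d59f_nt.GE.Defs

/-! Row ge_E1a: basic facts about `mass`. -/

namespace Pool.Agent.Lib.MP_d0d59f_nt.GE

open Finset

theorem mass_nonneg {ι A : Type*} {Ω : Finset ι} {p : ι → ℝ} (hp : ∀ i ∈ Ω, 0 ≤ p i) (f : ι → A)
    (a : A) : 0 ≤ mass Ω p f a := by
  unfold mass
  refine Finset.sum_nonneg fun i hi => ?_
  split_ifs
  · exact hp i hi
  · exact le_rfl

theorem mass_le_one {ι A : Type*} {Ω : Finset ι} {p : ι → ℝ} (hp : IsProb Ω p) (f : ι → A)
    (a : A) : mass Ω p f a ≤ 1 := by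
  unfold mass
  rw [← hp.2]
  refine Finset.sum_le_sum fun i hi => ?_
  split_ifs
  · exact le_rfl
  · exact hp.1 i hi

theorem le_mass {ι A : Type*} {Ω : Finset ι} {p : ι → ℝ} (hp : ∀ i ∈ Ω, 0 ≤ p i) (f : ι → A)
    {i : ι} (hi : i ∈ Ω) : p i ≤ mass Ω p f (f i) := by
  classical
  unfold mass
  have h := Finset.single_le_sum (f := fun j => if f j = f i then p j else 0) (s := Ω)
    (fun j hj => by
      show 0 ≤ if f j = f i then p j else 0
      split_ifs
      · exact hp j hj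
      · exact le_rfl) hi
  simpa using h

theorem mass_pos {ι A : Type*} {Ω : Finset ι} {p : ι → ℝ} (hp : ∀ i ∈ Ω, 0 ≤ p i) (f : ι → A)
    {i : ι} (hi : i ∈ Ω) (h : p i ≠ 0) : 0 < mass Ω p f (f i) :=
  lt_of_lt_of_le (lt_of_le_of_ne (hp i hi) (Ne.symm h)) (le_mass hp f hi)

theorem mass_eq_zero {ι A : Type*} {Ω : Finset ι} {p : ι → ℝ} {f : ι → A} {a : A}
    (h : ∀ i ∈ Ω, p i ≠ 0 → f i ≠ a) : mass Ω p f a = 0 := by
  unfold mass
  refine Finset.sum_eq_zero fun i hi => ?_
  split_ifs with hf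
  · by_contra hne
    exact h i hi hne hf
  · rfl

theorem exists_of_mass_ne_zero {ι A : Type*} {Ω : Finset ι} {p : ι → ℝ} {f : ι → A} {a : A}
    (h : mass Ω p f a ≠ 0) : ∃ i ∈ Ω, p i ≠ 0 ∧ f i = a := by
  by_contra hcon
  apply h
  refine mass_eq_zero fun i hi hp hf => hcon ⟨i, hi, hp, hf⟩

/-- If the events `f i = a` and `g i = b` agree on the support, the masses are equal. -/
theorem mass_congr {ι A B : Type*} {Ω : Finset ι} {p : ι → ℝ} {f : ι → A} {g : ι → B} {a : A}
    {b : B} (h : ∀ i ∈ Ω, p i ≠ 0 → (f i = a ↔ g i = b)) : mass Ω p f a = mass Ω p g b := by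
  unfold mass
  refine Finset.sum_congr rfl fun i hi => ?_
  by_cases hp : p i = 0
  · simp [hp]
  · have := h i hi hp
    by_cases hf : f i = a
    · rw [if_pos hf, if_pos (this.1 hf)]
    · rw [if_neg hf, if_neg (fun hg => hf (this.2 hg))]

/-- Sum over the values of `f`. -/
theorem sum_fiber {ι A : Type*} [Fintype A] (Ω : Finset ι) (p : ι → ℝ) (f : ι → A) (φ : A → ℝ) :
    ∑ i ∈ Ω, p i * φ (f i) = ∑ a, mass Ω p f a * φ a := by
  classical
  unfold mass
  simp_rw [Finset.sum_mul]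
  rw [Finset.sum_comm]
  refine Finset.sum_congr rfl fun i _ => ?_
  rw [Finset.sum_eq_single (f i)]
  · rw [if_pos rfl]
  · intro b _ hb
    rw [if_neg (Ne.symm hb), zero_mul]
  · intro h
    exact absurd (Finset.mem_univ _) h

theorem sum_mass {ι A : Type*} [Fintype A] {Ω : Finset ι} {p : ι → ℝ} (hp : IsProb Ω p)
    (f : ι → A) : ∑ a, mass Ω p f a = 1 := by
  have h := sum_fiber Ω p f (fun _ => (1 : ℝ))
  simp only [mul_one] at h
  rw [← h, hp.2]

theorem sum_mass_snd {ι A B : Type*} [Fintype B] (Ω : Finset ι) (p : ι → ℝ) (f : ι → A)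
    (g : ι → B) (a : A) : ∑ b, mass Ω p (fun i => (f i, g i)) (a, b) = mass Ω p f a := by
  classical
  unfold mass
  rw [Finset.sum_comm]
  refine Finset.sum_congr rfl fun i _ => ?_
  by_cases hf : f i = a
  · rw [if_pos hf, Finset.sum_eq_single (g i)]
    · rw [if_pos (by show (f i, g i) = (a, g i); rw [hf])]
    · intro b _ hb
      rw [if_neg]
      intro hcon
      exact hb (Prod.mk.inj hcon).2.symm
    · intro h
      exact absurd (Finset.mem_univ _) h
  · rw [if_neg hf]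
    refine Finset.sum_eq_zero fun b _ => ?_
    rw [if_neg]
    intro hcon
    exact hf (Prod.mk.inj hcon).1

theorem sum_mass_fst {ι A B : Type*} [Fintype A] (Ω : Finset ι) (p : ι → ℝ) (f : ι → A)
    (g : ι → B) (b : B) : ∑ a, mass Ω p (fun i => (f i, g i)) (a, b) = mass Ω p g b := by
  classical
  unfold mass
  rw [Finset.sum_comm]
  refine Finset.sum_congr rfl fun i _ => ?_
  by_cases hg : g i = b
  · rw [if_pos hg, Finset.sum_eq_single (f i)]
    · rw [if_pos (by show (f i, g i) = (f i, b); rw [hg])]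
    · intro a _ ha
      rw [if_neg]
      intro hcon
      exact ha (Prod.mk.inj hcon).1.symm
    · intro h
      exact absurd (Finset.mem_univ _) h
  · rw [if_neg hg]
    refine Finset.sum_eq_zero fun a _ => ?_
    rw [if_neg]
    intro hcon
    exact hg (Prod.mk.inj hcon).2

/-- Mass of a function `φ ∘ f` of `f`. -/
theorem mass_comp {ι A B : Type*} [Fintype A] [DecidableEq B] (Ω : Finset ι) (p : ι → ℝ)
    (f : ι → A) (φ : A → B) (b : B) :
    mass Ω p (fun i => φ (f i)) b = ∑ a, if φ a = b then mass Ω p f a else 0 := by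
  classical
  have h := sum_fiber Ω p f (fun a => if φ a = b then (1 : ℝ) else 0)
  have h1 : mass Ω p (fun i => φ (f i)) b = ∑ i ∈ Ω, p i * (if φ (f i) = b then (1 : ℝ) else 0) := by
    unfold mass
    refine Finset.sum_congr rfl fun i _ => ?_
    by_cases hh : φ (f i) = b
    · rw [if_pos hh, if_pos hh, mul_one]
    · rw [if_neg hh, if_neg hh, mul_zero]
  rw [h1, h]
  refine Finset.sum_congr rfl fun a _ => ?_
  by_cases hh : φ a = b
  · rw [if_pos hh, if_pos hh, mul_one]
  · rw [if_neg hh, if_neg hh, mul_zero]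

/-- Transport by a bijection of the index sets which preserves the weights. -/
theorem mass_reindex {ι ι' A : Type*} {Ω : Finset ι} {Ω' : Finset ι'} {p : ι → ℝ} {p' : ι' → ℝ}
    {f : ι → A} {f' : ι' → A} (e : ι → ι') (hinj : ∀ i ∈ Ω, ∀ j ∈ Ω, e i = e j → i = j)
    (hmem : ∀ i ∈ Ω, e i ∈ Ω') (hsurj : ∀ j ∈ Ω', ∃ i ∈ Ω, e i = j)
    (hp : ∀ i ∈ Ω, p' (e i) = p i) (hf : ∀ i ∈ Ω, f' (e i) = f i) (a : A) :
    mass Ω' p' f' a = mass Ω p f a := by
  classical
  unfold mass
  symm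
  refine Finset.sum_bij (fun i _ => e i) (fun i hi => hmem i hi)
    (fun i hi j hj h => hinj i hi j hj h) (fun j hj => ?_) (fun i hi => ?_)
  · obtain ⟨i, hi, he⟩ := hsurj j hj
    exact ⟨i, hi, he⟩
  · rw [hp i hi, hf i hi]

end Pool.Agent.Lib.MP_d0d59f_nt.GE

/-! Row ge_E1b: basic facts about `ent`. -/

namespace Pool.Agent.Lib.MP_d0d59f_nt.GE

open Finset

theorem ent_nonneg {ι A : Type*} {Ω : Finset ι} {p : ι → ℝ} (hp : IsProb Ω p) (f : ι → A) :
    0 ≤ ent Ω p f := by
  unfold ent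
  refine Finset.sum_nonneg fun i hi => ?_
  by_cases h : p i = 0
  · simp [h]
  · have h1 := mass_pos hp.1 f hi h
    have h2 := mass_le_one hp f (f i)
    exact mul_nonneg (hp.1 i hi) (neg_nonneg.mpr (Real.log_nonpos h1.le h2))

/-- If `f` determines `g` on the support then `ent g ≤ ent f`: termwise
`mass f (f i) ≤ mass g (g i)`. -/
theorem ent_mono {ι A B : Type*} {Ω : Finset ι} {p : ι → ℝ} (hp : IsProb Ω p) {f : ι → A}
    {g : ι → B} (h : ∀ i ∈ Ω, ∀ j ∈ Ω, p i ≠ 0 → p j ≠ 0 → f i = f j → g i = g j) :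
    ent Ω p g ≤ ent Ω p f := by
  classical
  unfold ent
  refine Finset.sum_le_sum fun i hi => ?_
  by_cases hpi : p i = 0
  · simp [hpi]
  · have h1 := mass_pos hp.1 f hi hpi
    have h2 : mass Ω p f (f i) ≤ mass Ω p g (g i) := by
      unfold mass
      refine Finset.sum_le_sum fun j hj => ?_
      by_cases hpj : p j = 0
      · simp [hpj]
      · by_cases hf : f j = f i
        · rw [if_pos hf, if_pos (h j hj i hi hpj hpi hf)]
        · rw [if_neg hf]
          split_ifs
          · exact hp.1 j hj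
          · exact le_rfl
    exact mul_le_mul_of_nonneg_left (neg_le_neg (Real.log_le_log h1 h2)) (hp.1 i hi)

theorem ent_congr {ι A B : Type*} {Ω : Finset ι} {p : ι → ℝ} {f : ι → A}
    {g : ι → B} (h : ∀ i ∈ Ω, ∀ j ∈ Ω, p i ≠ 0 → p j ≠ 0 → (f i = f j ↔ g i = g j)) :
    ent Ω p f = ent Ω p g := by
  unfold ent
  refine Finset.sum_congr rfl fun i hi => ?_
  by_cases hpi : p i = 0
  · simp [hpi]
  · rw [mass_congr fun j hj hpj => h j hj i hi hpj hpi]

theorem ent_eq_sum {ι A : Type*} [Fintype A] (Ω : Finset ι) (p : ι → ℝ) (f : ι → A) :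
    ent Ω p f = ∑ a, Real.negMulLog (mass Ω p f a) := by
  unfold ent
  rw [sum_fiber Ω p f fun a => -Real.log (mass Ω p f a)]
  refine Finset.sum_congr rfl fun a _ => ?_
  rw [Real.negMulLog]
  ring

/-- Identity variable: `ent id = ∑ negMulLog (p i)`. -/
theorem ent_id {ι : Type*} (Ω : Finset ι) (p : ι → ℝ) :
    ent Ω p (fun i => i) = ∑ i ∈ Ω, Real.negMulLog (p i) := by
  classical
  unfold ent
  refine Finset.sum_congr rfl fun i hi => ?_
  have h : mass Ω p (fun i => i) i = p i := by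
    unfold mass
    rw [Finset.sum_ite_eq' Ω i p, if_pos hi]
  rw [h, Real.negMulLog]
  ring

/-- A variable with values in `s` has entropy at most `log |s|`: for every `t > 0`,
`-log t ≤ log |s| + (1/(|s| t) - 1)`, so `ent f ≤ log |s| + ∑_{a ∈ image} 1/|s| - 1`. -/
theorem ent_le_log_card {ι A : Type*} {Ω : Finset ι} {p : ι → ℝ} (hp : IsProb Ω p) (f : ι → A)
    (s : Finset A) (hs : ∀ i ∈ Ω, p i ≠ 0 → f i ∈ s) : ent Ω p f ≤ Real.log (s.card : ℝ) := by
  classical
  have hne : ∃ i ∈ Ω, p i ≠ 0 := by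
    by_contra hcon
    push Not at hcon
    have := hp.2
    rw [Finset.sum_eq_zero hcon] at this
    exact zero_ne_one this
  obtain ⟨i₀, hi₀, hpi₀⟩ := hne
  have hcard : 0 < s.card := Finset.card_pos.mpr ⟨f i₀, hs i₀ hi₀ hpi₀⟩
  have hN : (0 : ℝ) < (s.card : ℝ) := by exact_mod_cast hcard
  have hsum : ∑ i ∈ Ω, p i / mass Ω p f (f i) ≤ (s.card : ℝ) := by
    have h1 : ∀ i ∈ Ω, p i / mass Ω p f (f i)
        = ∑ a ∈ s, (if f i = a then p i else 0) / mass Ω p f a := by
      intro i hi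
      by_cases hpi : p i = 0
      · simp [hpi]
      · rw [Finset.sum_eq_single_of_mem (f i) (hs i hi hpi)]
        · rw [if_pos rfl]
        · intro b _ hb
          rw [if_neg (Ne.symm hb), zero_div]
    rw [Finset.sum_congr rfl h1, Finset.sum_comm]
    have h2 : ∀ a ∈ s, ∑ i ∈ Ω, (if f i = a then p i else 0) / mass Ω p f a ≤ 1 := by
      intro a _
      rw [← Finset.sum_div]
      have h3 : (∑ i ∈ Ω, if f i = a then p i else 0) = mass Ω p f a := by
        unfold mass
        refine Finset.sum_congr rfl fun i _ => ?_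
        congr
      rw [h3]
      exact div_self_le_one _
    calc ∑ a ∈ s, ∑ i ∈ Ω, (if f i = a then p i else 0) / mass Ω p f a
        ≤ ∑ a ∈ s, (1 : ℝ) := Finset.sum_le_sum h2
      _ = (s.card : ℝ) := by simp
  have hterm : ∀ i ∈ Ω, p i * (-Real.log (mass Ω p f (f i)))
      ≤ p i * (Real.log (s.card : ℝ) - 1) + (p i / mass Ω p f (f i)) / (s.card : ℝ) := by
    intro i hi
    by_cases hpi : p i = 0
    · simp [hpi]
    · have hm := mass_pos hp.1 f hi hpi
      have h1 : Real.log (1 / ((s.card : ℝ) * mass Ω p f (f i)))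
          ≤ 1 / ((s.card : ℝ) * mass Ω p f (f i)) - 1 :=
        Real.log_le_sub_one_of_pos (by positivity)
      rw [one_div, Real.log_inv, Real.log_mul hN.ne' hm.ne'] at h1
      have h2 : -Real.log (mass Ω p f (f i))
          ≤ Real.log (s.card : ℝ) - 1 + ((s.card : ℝ) * mass Ω p f (f i))⁻¹ := by linarith
      have h3 := mul_le_mul_of_nonneg_left h2 (hp.1 i hi)
      have h4 : p i * (Real.log (s.card : ℝ) - 1 + ((s.card : ℝ) * mass Ω p f (f i))⁻¹)
          = p i * (Real.log (s.card : ℝ) - 1) + (p i / mass Ω p f (f i)) / (s.card : ℝ) := by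
        field_simp
      linarith
  calc ent Ω p f ≤ ∑ i ∈ Ω, (p i * (Real.log (s.card : ℝ) - 1)
        + (p i / mass Ω p f (f i)) / (s.card : ℝ)) := Finset.sum_le_sum hterm
    _ = (∑ i ∈ Ω, p i) * (Real.log (s.card : ℝ) - 1)
        + (∑ i ∈ Ω, p i / mass Ω p f (f i)) / (s.card : ℝ) := by
        rw [Finset.sum_add_distrib, ← Finset.sum_mul, Finset.sum_div]
    _ ≤ 1 * (Real.log (s.card : ℝ) - 1) + (s.card : ℝ) / (s.card : ℝ) := by
        rw [hp.2]
        gcongr
    _ = Real.log (s.card : ℝ) := by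
        rw [div_self hN.ne']
        ring

theorem ent_reindex {ι ι' A : Type*} {Ω : Finset ι} {Ω' : Finset ι'} {p : ι → ℝ} {p' : ι' → ℝ}
    {f : ι → A} {f' : ι' → A} (e : ι → ι') (hinj : ∀ i ∈ Ω, ∀ j ∈ Ω, e i = e j → i = j)
    (hmem : ∀ i ∈ Ω, e i ∈ Ω') (hsurj : ∀ j ∈ Ω', ∃ i ∈ Ω, e i = j)
    (hp : ∀ i ∈ Ω, p' (e i) = p i) (hf : ∀ i ∈ Ω, f' (e i) = f i) :
    ent Ω' p' f' = ent Ω p f := by
  unfold ent
  symm
  refine Finset.sum_nbij e hmem (fun i hi j hj hij => hinj i hi j hj hij) ?_ ?_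
  · intro j hj
    obtain ⟨i, hi, hij⟩ := hsurj j hj
    exact ⟨i, hi, hij⟩
  · intro i hi
    rw [hp i hi, hf i hi, mass_reindex e hinj hmem hsurj hp hf]

end Pool.Agent.Lib.MP_d0d59f_nt.GE

/-! Row ge_E2a: nonnegativity of the conditional mutual information. -/

namespace Pool.Agent.Lib.MP_d0d59f_nt.GE

open Finset

/-- For a fixed value, the sum of `p i / mass (f i)` over the fibre is at most one. -/
theorem e2a_fibre {ι A : Type*} {Ω : Finset ι} {p : ι → ℝ} (hp : ∀ i ∈ Ω, 0 ≤ p i) (f : ι → A)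
    (a : A) (P : ι → Prop) [DecidablePred P] (hP : ∀ i ∈ Ω, P i → f i = a) :
    ∑ i ∈ Ω, (if P i then p i / mass Ω p f (f i) else 0) ≤ 1 := by
  classical
  have h1 : ∀ i ∈ Ω, (if P i then p i / mass Ω p f (f i) else 0)
      ≤ (if f i = a then p i else 0) / mass Ω p f a := by
    intro i hi
    by_cases hPi : P i
    · rw [if_pos hPi, if_pos (hP i hi hPi), hP i hi hPi]
    · rw [if_neg hPi]
      refine div_nonneg ?_ (mass_nonneg hp f a)
      split_ifs
      · exact hp i hi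
      · exact le_rfl
  calc ∑ i ∈ Ω, (if P i then p i / mass Ω p f (f i) else 0)
      ≤ ∑ i ∈ Ω, (if f i = a then p i else 0) / mass Ω p f a := Finset.sum_le_sum h1
    _ = (∑ i ∈ Ω, (if f i = a then p i else 0)) / mass Ω p f a := by rw [Finset.sum_div]
    _ ≤ 1 := by
        have : ∑ i ∈ Ω, (if f i = a then p i else 0) = mass Ω p f a := by
          unfold mass
          refine Finset.sum_congr rfl fun i _ => ?_
          congr
        rw [this]
        exact div_self_le_one _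

/-- `I(a ; b | c) ≥ 0`. -/
theorem cmi_nonneg {ι A B C : Type*} {Ω : Finset ι} {p : ι → ℝ} (hp : IsProb Ω p) (a : ι → A)
    (b : ι → B) (c : ι → C) : 0 ≤ cmi Ω p a b c := by
  classical
  set mac : ι → ℝ := fun i => mass Ω p (fun i => (a i, c i)) (a i, c i) with hmac
  set mbc : ι → ℝ := fun i => mass Ω p (fun i => (b i, c i)) (b i, c i) with hmbc
  set mabc : ι → ℝ := fun i => mass Ω p (fun i => (a i, b i, c i)) (a i, b i, c i) with hmabc
  set mc : ι → ℝ := fun i => mass Ω p c (c i) with hmc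
  have hcmi : cmi Ω p a b c = ∑ i ∈ Ω, p i * (Real.log (mabc i) + Real.log (mc i)
      - Real.log (mac i) - Real.log (mbc i)) := by
    unfold cmi ent
    rw [← Finset.sum_add_distrib, ← Finset.sum_sub_distrib, ← Finset.sum_sub_distrib]
    refine Finset.sum_congr rfl fun i _ => ?_
    simp only [hmac, hmbc, hmabc, hmc]
    ring
  -- termwise lower bound
  have hterm : ∀ i ∈ Ω, p i - p i * (mac i * mbc i / (mabc i * mc i))
      ≤ p i * (Real.log (mabc i) + Real.log (mc i) - Real.log (mac i) - Real.log (mbc i)) := by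
    intro i hi
    by_cases h0 : p i = 0
    · simp [h0]
    · have h1 : 0 < mac i := mass_pos hp.1 (fun i => (a i, c i)) hi h0
      have h2 : 0 < mbc i := mass_pos hp.1 (fun i => (b i, c i)) hi h0
      have h3 : 0 < mabc i := mass_pos hp.1 (fun i => (a i, b i, c i)) hi h0
      have h4 : 0 < mc i := mass_pos hp.1 c hi h0
      have h5 : Real.log (mac i * mbc i / (mabc i * mc i))
          = Real.log (mac i) + Real.log (mbc i) - (Real.log (mabc i) + Real.log (mc i)) := by
        rw [Real.log_div (by positivity) (by positivity), Real.log_mul h1.ne' h2.ne',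
          Real.log_mul h3.ne' h4.ne']
      have h6 : Real.log (mac i * mbc i / (mabc i * mc i)) ≤ mac i * mbc i / (mabc i * mc i) - 1 :=
        Real.log_le_sub_one_of_pos (by positivity)
      have h7 : 0 ≤ p i := hp.1 i hi
      have h8 : 1 - mac i * mbc i / (mabc i * mc i)
          ≤ Real.log (mabc i) + Real.log (mc i) - Real.log (mac i) - Real.log (mbc i) := by
        linarith
      have h9 := mul_le_mul_of_nonneg_left h8 h7
      linarith
  -- the sum of the products is at most one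
  have hsum : ∑ i ∈ Ω, p i * (mac i * mbc i / (mabc i * mc i)) ≤ 1 := by
    have hexp : ∀ i ∈ Ω, p i * (mac i * mbc i / (mabc i * mc i))
        = ∑ j ∈ Ω, ∑ k ∈ Ω, (if (a j = a i ∧ c j = c i) ∧ (b k = b i ∧ c k = c i) then
            (p j * p k / mass Ω p c (c j)) * (p i / mabc i) else 0) := by
      intro i _
      have e1 : mac i = ∑ j ∈ Ω, (if (a j = a i ∧ c j = c i) then p j else 0) := by
        simp only [hmac]
        unfold mass
        refine Finset.sum_congr rfl fun j _ => ?_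
        by_cases h : a j = a i ∧ c j = c i
        · rw [if_pos h, if_pos (by rw [Prod.mk.injEq]; exact h)]
        · rw [if_neg h, if_neg (by rw [Prod.mk.injEq]; exact h)]
      have e2 : mbc i = ∑ k ∈ Ω, (if (b k = b i ∧ c k = c i) then p k else 0) := by
        simp only [hmbc]
        unfold mass
        refine Finset.sum_congr rfl fun j _ => ?_
        by_cases h : b j = b i ∧ c j = c i
        · rw [if_pos h, if_pos (by rw [Prod.mk.injEq]; exact h)]
        · rw [if_neg h, if_neg (by rw [Prod.mk.injEq]; exact h)]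
      have e3 : p i * (mac i * mbc i / (mabc i * mc i))
          = mac i * mbc i * (p i / (mabc i * mc i)) := by ring
      rw [e3, e1, e2, Finset.sum_mul_sum, Finset.sum_mul]
      refine Finset.sum_congr rfl fun j _ => ?_
      rw [Finset.sum_mul]
      refine Finset.sum_congr rfl fun k _ => ?_
      by_cases h1 : a j = a i ∧ c j = c i
      · by_cases h2 : b k = b i ∧ c k = c i
        · rw [if_pos h1, if_pos h2, if_pos ⟨h1, h2⟩, h1.2]
          simp only [hmc]
          by_cases h3 : mass Ω p c (c i) = 0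
          · simp [h3]
          · by_cases h4 : mabc i = 0
            · simp [h4]
            · field_simp
        · rw [if_neg (show ¬ ((a j = a i ∧ c j = c i) ∧ (b k = b i ∧ c k = c i)) from
            fun h => h2 h.2), if_neg h2]
          ring
      · rw [if_neg (show ¬ ((a j = a i ∧ c j = c i) ∧ (b k = b i ∧ c k = c i)) from
            fun h => h1 h.1), if_neg h1]
        ring
    rw [Finset.sum_congr rfl hexp, Finset.sum_comm]
    have hswap : ∀ j ∈ Ω, (∑ i ∈ Ω, ∑ k ∈ Ω,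
        (if (a j = a i ∧ c j = c i) ∧ (b k = b i ∧ c k = c i) then
            (p j * p k / mass Ω p c (c j)) * (p i / mabc i) else 0))
        ≤ ∑ k ∈ Ω, (if c k = c j then p j * p k / mass Ω p c (c j) else 0) := by
      intro j hj
      rw [Finset.sum_comm]
      refine Finset.sum_le_sum fun k hk => ?_
      have hnn : 0 ≤ p j * p k / mass Ω p c (c j) :=
        div_nonneg (mul_nonneg (hp.1 j hj) (hp.1 k hk)) (mass_nonneg hp.1 c _)
      by_cases hc : c k = c j
      · rw [if_pos hc]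
        have h1 := e2a_fibre hp.1 (fun i => (a i, b i, c i)) (a j, b k, c j)
          (fun i => (a j = a i ∧ c j = c i) ∧ (b k = b i ∧ c k = c i))
          (fun i _ h => by
            show (a i, b i, c i) = (a j, b k, c j)
            rw [h.1.1, h.2.1, h.1.2])
        calc ∑ i ∈ Ω, (if (a j = a i ∧ c j = c i) ∧ (b k = b i ∧ c k = c i) then
            (p j * p k / mass Ω p c (c j)) * (p i / mabc i) else 0)
            = (p j * p k / mass Ω p c (c j)) * ∑ i ∈ Ω,
              (if (a j = a i ∧ c j = c i) ∧ (b k = b i ∧ c k = c i) then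
                p i / mass Ω p (fun i => (a i, b i, c i)) ((fun i => (a i, b i, c i)) i) else 0) := by
              rw [Finset.mul_sum]
              refine Finset.sum_congr rfl fun i _ => ?_
              split_ifs
              · rfl
              · rw [mul_zero]
          _ ≤ (p j * p k / mass Ω p c (c j)) * 1 := mul_le_mul_of_nonneg_left h1 hnn
          _ = _ := mul_one _
      · rw [if_neg hc]
        refine le_of_eq (Finset.sum_eq_zero fun i _ => ?_)
        rw [if_neg]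
        intro h
        exact hc (h.2.2.trans h.1.2.symm)
    refine (Finset.sum_le_sum hswap).trans ?_
    have hfin : ∀ j ∈ Ω, (∑ k ∈ Ω, (if c k = c j then p j * p k / mass Ω p c (c j) else 0)) ≤ p j := by
      intro j hj
      have : ∑ k ∈ Ω, (if c k = c j then p j * p k / mass Ω p c (c j) else 0)
          = p j * (mass Ω p c (c j) / mass Ω p c (c j)) := by
        have h2 : ∑ k ∈ Ω, (if c k = c j then p k else 0) = mass Ω p c (c j) := by
          unfold mass
          refine Finset.sum_congr rfl fun i _ => ?_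
          congr
        have h3 : ∑ k ∈ Ω, (if c k = c j then p j * p k / mass Ω p c (c j) else 0)
            = p j * ((∑ k ∈ Ω, (if c k = c j then p k else 0)) / mass Ω p c (c j)) := by
          rw [Finset.sum_div, Finset.mul_sum]
          refine Finset.sum_congr rfl fun k _ => ?_
          split_ifs
          · ring
          · simp
        rw [h3, h2]
      rw [this]
      calc p j * (mass Ω p c (c j) / mass Ω p c (c j)) ≤ p j * 1 :=
            mul_le_mul_of_nonneg_left (div_self_le_one _) (hp.1 j hj)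
        _ = p j := mul_one _
    refine (Finset.sum_le_sum hfin).trans ?_
    rw [hp.2]
  rw [hcmi]
  have hle := Finset.sum_le_sum hterm
  rw [Finset.sum_sub_distrib, hp.2] at hle
  linarith

end Pool.Agent.Lib.MP_d0d59f_nt.GE

/-! Row ge_E2b: submodularity of entropy, data processing. -/

namespace Pool.Agent.Lib.MP_d0d59f_nt.GE

open Finset

/-- If `h` is determined by `f` and by `g` (on the support) then
`H(f,g) + H(h) ≤ H(f) + H(g)`: `cmi_nonneg` for `f, g, h` and `ent_congr`. -/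
theorem ent_submod {ι A B C : Type*} {Ω : Finset ι} {p : ι → ℝ} (hp : IsProb Ω p) {f : ι → A}
    {g : ι → B} {h : ι → C}
    (hf : ∀ i ∈ Ω, ∀ j ∈ Ω, p i ≠ 0 → p j ≠ 0 → f i = f j → h i = h j)
    (hg : ∀ i ∈ Ω, ∀ j ∈ Ω, p i ≠ 0 → p j ≠ 0 → g i = g j → h i = h j) :
    ent Ω p (fun i => (f i, g i)) + ent Ω p h ≤ ent Ω p f + ent Ω p g := by
  have h0 := cmi_nonneg hp f g h
  unfold cmi at h0
  have e1 : ent Ω p (fun i => (f i, h i)) = ent Ω p f := by
    apply ent_congr
    intro i hi j hj pi pj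
    constructor
    · intro h'
      exact (Prod.mk.inj h').1
    · intro h'
      rw [h', hf i hi j hj pi pj h']
  have e2 : ent Ω p (fun i => (g i, h i)) = ent Ω p g := by
    apply ent_congr
    intro i hi j hj pi pj
    constructor
    · intro h'
      exact (Prod.mk.inj h').1
    · intro h'
      rw [h', hg i hi j hj pi pj h']
  have e3 : ent Ω p (fun i => (f i, g i, h i)) = ent Ω p (fun i => (f i, g i)) := by
    apply ent_congr
    intro i hi j hj pi pj
    constructor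
    · intro h'
      have h1 := Prod.mk.inj h'
      have h2 := Prod.mk.inj h1.2
      rw [h1.1, h2.1]
    · intro h'
      have h1 := Prod.mk.inj h'
      rw [h1.1, h1.2, hf i hi j hj pi pj h1.1]
  rw [e1, e2, e3] at h0
  linarith

/-- `H(f,g) ≤ H(f) + H(g)`: `ent_submod` with the constant variable (entropy `0`). -/
theorem ent_pair_le {ι A B : Type*} {Ω : Finset ι} {p : ι → ℝ} (hp : IsProb Ω p) (f : ι → A)
    (g : ι → B) : ent Ω p (fun i => (f i, g i)) ≤ ent Ω p f + ent Ω p g := by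
  have h0 := ent_submod hp (f := f) (g := g) (h := fun _ => ()) (fun _ _ _ _ _ _ _ => rfl)
    (fun _ _ _ _ _ _ _ => rfl)
  have h1 := ent_nonneg hp (fun _ : ι => ())
  linarith

/-- Data processing: if `g` is determined by `(w, c)` then `I(a ; g | c) ≤ I(a ; w | c)`:
equivalent to `H(g,c) + H(a,w,c) ≤ H(w,c) + H(a,g,c)`, which is `ent_submod` for `(w,c)`, `(a,g,c)` over
`(g,c)` (the pair of both has the same fibres as `(a,w,c)`). -/
theorem cmi_mono {ι A W G C : Type*} {Ω : Finset ι} {p : ι → ℝ} (hp : IsProb Ω p) (a : ι → A)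
    (w : ι → W) (g : ι → G) (c : ι → C)
    (h : ∀ i ∈ Ω, ∀ j ∈ Ω, p i ≠ 0 → p j ≠ 0 → w i = w j → c i = c j → g i = g j) :
    cmi Ω p a g c ≤ cmi Ω p a w c := by
  have h0 := ent_submod hp (f := fun i => (w i, c i)) (g := fun i => (a i, g i, c i))
    (h := fun i => (g i, c i))
    (by
      intro i hi j hj pi pj hij
      have h1 := Prod.mk.inj hij
      show (g i, c i) = (g j, c j)
      rw [h i hi j hj pi pj h1.1 h1.2, h1.2])
    (by
      intro i hi j hj pi pj hij
      exact (Prod.mk.inj hij).2)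
  have e1 : ent Ω p (fun i => ((fun i => (w i, c i)) i, (fun i => (a i, g i, c i)) i))
      = ent Ω p (fun i => (a i, w i, c i)) := by
    apply ent_congr
    intro i hi j hj pi pj
    constructor
    · intro h'
      have h1 := Prod.mk.inj h'
      have h2 := Prod.mk.inj h1.1
      have h3 := Prod.mk.inj h1.2
      rw [h3.1, h2.1, h2.2]
    · intro h'
      have h1 := Prod.mk.inj h'
      have h2 := Prod.mk.inj h1.2
      show ((w i, c i), (a i, g i, c i)) = ((w j, c j), (a j, g j, c j))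
      rw [h i hi j hj pi pj h2.1 h2.2, h1.1, h2.1, h2.2]
  rw [e1] at h0
  unfold cmi
  linarith

/-- Data processing for `mi`: if `b'` is determined by `b` then `I(a ; b') ≤ I(a ; b)`. -/
theorem mi_mono {ι A B B' : Type*} {Ω : Finset ι} {p : ι → ℝ} (hp : IsProb Ω p) (a : ι → A)
    (b : ι → B) (b' : ι → B')
    (h : ∀ i ∈ Ω, ∀ j ∈ Ω, p i ≠ 0 → p j ≠ 0 → b i = b j → b' i = b' j) :
    mi Ω p a b' ≤ mi Ω p a b := by
  have h0 := ent_submod hp (f := b) (g := fun i => (a i, b' i)) (h := b') h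
    (by
      intro i hi j hj pi pj hij
      exact (Prod.mk.inj hij).2)
  have e1 : ent Ω p (fun i => (b i, (fun i => (a i, b' i)) i))
      = ent Ω p (fun i => (a i, b i)) := by
    apply ent_congr
    intro i hi j hj pi pj
    constructor
    · intro h'
      have h1 := Prod.mk.inj h'
      have h2 := Prod.mk.inj h1.2
      rw [h1.1, h2.1]
    · intro h'
      have h1 := Prod.mk.inj h'
      show (b i, (a i, b' i)) = (b j, (a j, b' j))
      rw [h1.1, h1.2, h i hi j hj pi pj h1.2]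
  rw [e1] at h0
  unfold mi
  linarith

end Pool.Agent.Lib.MP_d0d59f_nt.GE

/-! Row ge_E3a: two-step experiments: `i ∈ I` with probability `p i`, then `j ∈ J` with
probability `q i j`. -/

namespace Pool.Agent.Lib.MP_d0d59f_nt.GE

open Finset

/-- Weights of the two-step experiment. -/
noncomputable def pq {ι κ : Type*} (p : ι → ℝ) (q : ι → κ → ℝ) (z : ι × κ) : ℝ :=
  p z.1 * q z.1 z.2

private theorem e3a_sum {ι κ : Type*} {I : Finset ι} {J : Finset κ} {p : ι → ℝ} {q : ι → κ → ℝ}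
    (φ : ι × κ → ℝ) :
    ∑ z ∈ I ×ˢ J, pq p q z * φ z = ∑ i ∈ I, p i * ∑ j ∈ J, q i j * φ (i, j) := by
  rw [sum_product]
  refine sum_congr rfl fun i _ => ?_
  rw [mul_sum]
  exact sum_congr rfl fun j _ => by simp only [pq]; ring

private theorem e3a_one {ι κ : Type*} {I : Finset ι} {J : Finset κ} {p : ι → ℝ} {q : ι → κ → ℝ}
    (hq : ∀ i ∈ I, p i ≠ 0 → ∑ j ∈ J, q i j = 1) (φ : ι → ℝ) :
    ∑ i ∈ I, p i * ∑ j ∈ J, q i j * φ i = ∑ i ∈ I, p i * φ i := by
  refine sum_congr rfl fun i hi => ?_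
  by_cases h : p i = 0
  · rw [h, zero_mul, zero_mul]
  · rw [← sum_mul, hq i hi h, one_mul]

private theorem e3a_mass_id {ι : Type*} {Ω : Finset ι} {p : ι → ℝ} {i : ι} (hi : i ∈ Ω) :
    mass Ω p (fun i => i) i = p i := by
  unfold mass
  rw [sum_eq_single_of_mem i hi fun b _ hb => if_neg hb, if_pos rfl]

theorem isProb_pq {ι κ : Type*} {I : Finset ι} {J : Finset κ} {p : ι → ℝ} {q : ι → κ → ℝ}
    (hp : IsProb I p) (hq0 : ∀ i j, 0 ≤ q i j) (hq : ∀ i ∈ I, p i ≠ 0 → ∑ j ∈ J, q i j = 1) :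
    IsProb (I ×ˢ J) (pq p q) := by
  refine ⟨fun z hz => ?_, ?_⟩
  · exact mul_nonneg (hp.1 _ (mem_product.1 hz).1) (hq0 _ _)
  · have h1 := e3a_sum (I := I) (J := J) (p := p) (q := q) (fun _ => 1)
    simp only [mul_one] at h1
    rw [h1, ← hp.2]
    refine sum_congr rfl fun i hi => ?_
    by_cases h : p i = 0
    · rw [h, zero_mul]
    · rw [hq i hi h, mul_one]

theorem mass_pq_fst {ι κ A : Type*} {I : Finset ι} {J : Finset κ} {p : ι → ℝ} {q : ι → κ → ℝ}
    (hq : ∀ i ∈ I, p i ≠ 0 → ∑ j ∈ J, q i j = 1) (f : ι → A) (a : A) :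
    mass (I ×ˢ J) (pq p q) (fun z => f z.1) a = mass I p f a := by
  classical
  have h0 : ∀ z : ι × κ, z ∈ I ×ˢ J → (if (fun z : ι × κ => f z.1) z = a then pq p q z else 0) =
      pq p q z * (if f z.1 = a then 1 else 0) := by
    intro z _
    by_cases h : f z.1 = a
    · rw [if_pos h, if_pos h, mul_one]
    · rw [if_neg h, if_neg h, mul_zero]
  unfold mass
  have h1 : ∑ z ∈ I ×ˢ J, pq p q z * (if f z.1 = a then 1 else 0) =
      ∑ i ∈ I, p i * (if f i = a then 1 else 0) := by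
    rw [e3a_sum (fun z : ι × κ => if f z.1 = a then (1 : ℝ) else 0)]
    exact e3a_one hq (fun i => if f i = a then (1 : ℝ) else 0)
  refine Eq.trans (sum_congr rfl fun z hz => ?_) (h1.trans (sum_congr rfl fun i _ => ?_))
  · rw [← h0 z hz]
  · by_cases h : f i = a
    · rw [if_pos h, if_pos h, mul_one]
    · rw [if_neg h, if_neg h, mul_zero]

theorem ent_pq_fst {ι κ A : Type*} {I : Finset ι} {J : Finset κ} {p : ι → ℝ} {q : ι → κ → ℝ}
    (hq : ∀ i ∈ I, p i ≠ 0 → ∑ j ∈ J, q i j = 1) (f : ι → A) :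
    ent (I ×ˢ J) (pq p q) (fun z => f z.1) = ent I p f := by
  unfold ent
  rw [e3a_sum (fun z => -Real.log (mass (I ×ˢ J) (pq p q) (fun z => f z.1) (f z.1)))]
  simp only [mass_pq_fst hq]
  exact e3a_one hq (fun i => -Real.log (mass I p f (f i)))

/-- Chain rule for the pair `(i, F(i,j))`: the mass of the value at `(i,j)` is
`p i * mass J (q i) (F (i,·)) (F (i,j))`. -/
theorem ent_pq_index {ι κ A : Type*} {I : Finset ι} {J : Finset κ} {p : ι → ℝ} {q : ι → κ → ℝ}
    (hp : IsProb I p) (hq0 : ∀ i j, 0 ≤ q i j) (hq : ∀ i ∈ I, p i ≠ 0 → ∑ j ∈ J, q i j = 1)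
    (F : ι × κ → A) :
    ent (I ×ˢ J) (pq p q) (fun z => (z.1, F z)) =
      ent I p (fun i => i) + ∑ i ∈ I, p i * ent J (q i) (fun j => F (i, j)) := by
  have hm : ∀ i ∈ I, ∀ j, mass (I ×ˢ J) (pq p q) (fun z => (z.1, F z)) (i, F (i, j)) =
      p i * mass J (q i) (fun j => F (i, j)) (F (i, j)) := by
    intro i hi j
    unfold mass
    rw [sum_product, sum_eq_single_of_mem i hi, mul_sum]
    · refine sum_congr rfl fun j' _ => ?_
      by_cases h : F (i, j') = F (i, j)
      · rw [if_pos h]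
        exact if_pos (by show (i, F (i, j')) = (i, F (i, j)); rw [h])
      · rw [if_neg h, if_neg (fun h0 => h (Prod.mk.inj h0).2), mul_zero]
    · intro i' _ hi'
      exact sum_eq_zero fun j' _ => if_neg fun h0 => hi' (Prod.mk.inj h0).1
  have h1 : ∀ i ∈ I, p i * ∑ j ∈ J, q i j *
      (-Real.log (mass (I ×ˢ J) (pq p q) (fun z => (z.1, F z)) (i, F (i, j)))) =
      p i * (-Real.log (mass I p (fun i => i) i)) +
        p i * ent J (q i) (fun j => F (i, j)) := by
    intro i hi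
    by_cases h : p i = 0
    · rw [h, zero_mul, zero_mul, zero_mul, add_zero]
    · rw [← mul_add]
      congr 1
      unfold ent
      rw [e3a_mass_id hi, ← one_mul (-Real.log (p i)), ← hq i hi h, sum_mul, ← sum_add_distrib]
      refine sum_congr rfl fun j hj => ?_
      by_cases h2 : q i j = 0
      · rw [h2, zero_mul, zero_mul, zero_mul, add_zero]
      · have h3 : 0 < mass J (q i) (fun j => F (i, j)) (F (i, j)) :=
          mass_pos (Ω := J) (p := q i) (fun j _ => hq0 i j) (fun j => F (i, j)) hj h2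
        rw [hm i hi j, Real.log_mul h h3.ne']
        ring
  unfold ent
  rw [e3a_sum (fun z => -Real.log (mass (I ×ˢ J) (pq p q) (fun z => (z.1, F z)) (z.1, F z))),
    sum_congr rfl h1, sum_add_distrib]
  rfl

/-- Conditioning reduces entropy: `∑ p_i H(F(i,·)) ≤ H(F)`. From `ent_pq_index` and `ent_pair_le`:
`H(i) + ∑ p_i H(F(i,·)) = H(i, F) ≤ H(i) + H(F)`. -/
theorem ent_pq_ge {ι κ A : Type*} {I : Finset ι} {J : Finset κ} {p : ι → ℝ} {q : ι → κ → ℝ}
    (hp : IsProb I p) (hq0 : ∀ i j, 0 ≤ q i j) (hq : ∀ i ∈ I, p i ≠ 0 → ∑ j ∈ J, q i j = 1)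
    (F : ι × κ → A) :
    ∑ i ∈ I, p i * ent J (q i) (fun j => F (i, j)) ≤ ent (I ×ˢ J) (pq p q) F := by
  have h1 := ent_pq_index hp hq0 hq F
  have h2 := ent_pair_le (isProb_pq hp hq0 hq) (fun z => z.1) F
  have h3 := ent_pq_fst hq (fun i => i)
  linarith

/-- Chain rule when the law `q i` depends only on `g i`: the mass of `(j, g i)` is
`mass I p g (g i) * q i j`. -/
theorem ent_pq_chain {ι κ A : Type*} {I : Finset ι} {J : Finset κ} {p : ι → ℝ} {q : ι → κ → ℝ}
    (hp : IsProb I p) (hq0 : ∀ i j, 0 ≤ q i j) (hq : ∀ i ∈ I, p i ≠ 0 → ∑ j ∈ J, q i j = 1)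
    (g : ι → A)
    (hg : ∀ i ∈ I, ∀ i' ∈ I, p i ≠ 0 → p i' ≠ 0 → g i = g i' → ∀ j ∈ J, q i j = q i' j) :
    ent (I ×ˢ J) (pq p q) (fun z => (z.2, g z.1)) =
      ent I p g + ∑ i ∈ I, p i * ent J (q i) (fun j => j) := by
  have hm : ∀ i ∈ I, ∀ j ∈ J, p i ≠ 0 →
      mass (I ×ˢ J) (pq p q) (fun z => (z.2, g z.1)) (j, g i) = mass I p g (g i) * q i j := by
    intro i hi j hj h
    unfold mass
    rw [sum_product, sum_mul]
    refine sum_congr rfl fun i' hi' => ?_
    rw [sum_eq_single_of_mem j hj]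
    · by_cases h1 : g i' = g i
      · rw [if_pos h1]
        refine (if_pos (by show (j, g i') = (j, g i); rw [h1])).trans ?_
        by_cases h2 : p i' = 0
        · simp only [pq, h2, zero_mul]
        · simp only [pq]
          rw [hg i hi i' hi' h h2 h1.symm j hj]
      · rw [if_neg h1, if_neg (fun h0 => h1 (Prod.mk.inj h0).2), zero_mul]
    · intro j' _ hj'
      exact if_neg fun h0 => hj' (Prod.mk.inj h0).1
  have h1 : ∀ i ∈ I, p i * ∑ j ∈ J, q i j *
      (-Real.log (mass (I ×ˢ J) (pq p q) (fun z => (z.2, g z.1)) (j, g i))) =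
      p i * (-Real.log (mass I p g (g i))) + p i * ent J (q i) (fun j => j) := by
    intro i hi
    by_cases h : p i = 0
    · rw [h, zero_mul, zero_mul, zero_mul, add_zero]
    · rw [← mul_add]
      congr 1
      unfold ent
      rw [← one_mul (-Real.log (mass I p g (g i))), ← hq i hi h, sum_mul, ← sum_add_distrib]
      refine sum_congr rfl fun j hj => ?_
      by_cases h2 : q i j = 0
      · rw [h2, zero_mul, zero_mul, zero_mul, add_zero]
      · have h3 : 0 < mass I p g (g i) := mass_pos hp.1 g hi h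
        rw [hm i hi j hj h, Real.log_mul h3.ne' h2, e3a_mass_id hj]
        ring
  have h2 : ent (I ×ˢ J) (pq p q) (fun z => (z.2, g z.1)) =
      ∑ i ∈ I, p i * ∑ j ∈ J, q i j *
      (-Real.log (mass (I ×ˢ J) (pq p q) (fun z => (z.2, g z.1)) (j, g i))) := by
    unfold ent
    exact e3a_sum (fun z => -Real.log (mass (I ×ˢ J) (pq p q) (fun z => (z.2, g z.1)) (z.2, g z.1)))
  rw [h2, sum_congr rfl h1, sum_add_distrib]
  rfl

end Pool.Agent.Lib.MP_d0d59f_nt.GE

/-! Row ge_E3b: information inequalities in two-step experiments. -/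

namespace Pool.Agent.Lib.MP_d0d59f_nt.GE

open Finset

/-- If the law of `j` given `i` depends only on `(V i, C i)` and `G` is determined by
`(C i, V i, j)`, then `I(Z ; G | C) ≤ I(Z ; V | C)`.
`cmi_mono`: `I(Z ; G | C) ≤ I(Z ; (j, V) | C)`; by `ent_pq_chain` (for `g = (V, C)` and
`g = (Z, V, C)`), `ent_congr` and `ent_pq_fst`, `I(Z ; (j,V) | C) = I(Z ; V | C)` (the terms
`∑ p_i H(q_i)` cancel). -/
theorem cmi_pq_le {ι κ A B D E : Type*} {I : Finset ι} {J : Finset κ} {p : ι → ℝ}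
    {q : ι → κ → ℝ} (hp : IsProb I p) (hq0 : ∀ i j, 0 ≤ q i j)
    (hq : ∀ i ∈ I, p i ≠ 0 → ∑ j ∈ J, q i j = 1) (Z : ι → A) (V : ι → D) (C : ι → B)
    (hVC : ∀ i ∈ I, ∀ i' ∈ I, p i ≠ 0 → p i' ≠ 0 → V i = V i' → C i = C i' →
      ∀ j ∈ J, q i j = q i' j)
    (G : ι × κ → E)
    (hG : ∀ z ∈ I ×ˢ J, ∀ z' ∈ I ×ˢ J, pq p q z ≠ 0 → pq p q z' ≠ 0 → C z.1 = C z'.1 →
      V z.1 = V z'.1 → z.2 = z'.2 → G z = G z') :
    cmi (I ×ˢ J) (pq p q) (fun z => Z z.1) G (fun z => C z.1) ≤ cmi I p Z V C := by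
  have hP := isProb_pq hp hq0 hq
  refine (cmi_mono hP (fun z => Z z.1) (fun z => (z.2, V z.1)) G (fun z => C z.1) ?_).trans
    (le_of_eq ?_)
  · intro z hz z' hz' h0 h0' hw hc
    rw [Prod.mk.injEq] at hw
    exact hG z hz z' hz' h0 h0' hc hw.2 hw.1
  · unfold cmi
    have h1 : ent (I ×ˢ J) (pq p q) (fun z => (Z z.1, C z.1)) = ent I p (fun i => (Z i, C i)) :=
      ent_pq_fst hq (fun i => (Z i, C i))
    have h2 : ent (I ×ˢ J) (pq p q) (fun z => C z.1) = ent I p C := ent_pq_fst hq C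
    have h3 : ent (I ×ˢ J) (pq p q) (fun z => ((z.2, V z.1), C z.1)) =
        ent I p (fun i => (V i, C i)) + ∑ i ∈ I, p i * ent J (q i) (fun j => j) := by
      rw [← ent_pq_chain hp hq0 hq (fun i => (V i, C i)) (by
        intro i hi i' hi' h0 h0' h j hj
        rw [Prod.mk.injEq] at h
        exact hVC i hi i' hi' h0 h0' h.1 h.2 j hj)]
      apply ent_congr
      intro z _ z' _ _ _
      simp only [Prod.mk.injEq]
      tauto
    have h4 : ent (I ×ˢ J) (pq p q) (fun z => (Z z.1, (z.2, V z.1), C z.1)) =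
        ent I p (fun i => (Z i, V i, C i)) + ∑ i ∈ I, p i * ent J (q i) (fun j => j) := by
      rw [← ent_pq_chain hp hq0 hq (fun i => (Z i, V i, C i)) (by
        intro i hi i' hi' h0 h0' h j hj
        rw [Prod.mk.injEq, Prod.mk.injEq] at h
        exact hVC i hi i' hi' h0 h0' h.2.1 h.2.2 j hj)]
      apply ent_congr
      intro z _ z' _ _ _
      simp only [Prod.mk.injEq]
      tauto
    rw [h1, h2, h3, h4]
    ring

/-- Two conditionally independent copies `j, j'` given `i`: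
`I(F(i,j) ; F(i,j')) ≤ H(F) - ∑ p_i H(F(i,·))`.
`mi_mono`: `≤ I(F(i,j) ; (i, j'))`. With the first experiment `(i,j)` and the second step `j'`,
`ent_pq_chain` for `g = (i, F(i,j))` and for `g = i` gives `H(j', i, F) = H(i, F) + S`, `H(j', i) = H(i) + S`, so
`I = H(F) + H(i) - H(i, F)`, and `ent_pq_index`. -/
theorem mi_pq_le {ι κ A : Type*} {I : Finset ι} {J : Finset κ} {p : ι → ℝ}
    {q : ι → κ → ℝ} (hp : IsProb I p) (hq0 : ∀ i j, 0 ≤ q i j)
    (hq : ∀ i ∈ I, p i ≠ 0 → ∑ j ∈ J, q i j = 1) (F : ι × κ → A) :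
    mi ((I ×ˢ J) ×ˢ J) (pq (pq p q) (fun z => q z.1)) (fun z => F z.1) (fun z => F (z.1.1, z.2)) ≤
      ent (I ×ˢ J) (pq p q) F - ∑ i ∈ I, p i * ent J (q i) (fun j => F (i, j)) := by
  have hP := isProb_pq hp hq0 hq
  have hq' : ∀ z ∈ I ×ˢ J, pq p q z ≠ 0 → ∑ j ∈ J, q z.1 j = 1 := by
    intro z hz h0
    refine hq z.1 (Finset.mem_product.1 hz).1 fun h => h0 ?_
    unfold pq
    rw [h, zero_mul]
  have hP' : IsProb ((I ×ˢ J) ×ˢ J) (pq (pq p q) (fun z => q z.1)) :=
    isProb_pq hP (fun z j => hq0 z.1 j) hq'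
  refine (mi_mono hP' (fun z => F z.1) (fun z => (z.1.1, z.2)) (fun z => F (z.1.1, z.2)) ?_).trans
    (le_of_eq ?_)
  · intro z _ z' _ _ _ h
    exact congrArg F h
  · unfold mi
    have h1 : ent ((I ×ˢ J) ×ˢ J) (pq (pq p q) (fun z => q z.1)) (fun z => F z.1) =
        ent (I ×ˢ J) (pq p q) F := ent_pq_fst hq' F
    have h2 : ent ((I ×ˢ J) ×ˢ J) (pq (pq p q) (fun z => q z.1)) (fun z => (z.1.1, z.2)) =
        ent (I ×ˢ J) (pq p q) (fun z => z.1) +
          ∑ z ∈ I ×ˢ J, pq p q z * ent J (q z.1) (fun j => j) := by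
      rw [← ent_pq_chain (q := fun z => q z.1) hP (fun z j => hq0 z.1 j) hq' (fun z => z.1) (by
        intro z _ z' _ _ _ h j _
        exact congrArg (fun i => q i j) h)]
      apply ent_congr
      intro z _ z' _ _ _
      simp only [Prod.mk.injEq]
      tauto
    have h3 : ent ((I ×ˢ J) ×ˢ J) (pq (pq p q) (fun z => q z.1)) (fun z => (F z.1, (z.1.1, z.2))) =
        ent (I ×ˢ J) (pq p q) (fun z => (z.1, F z)) +
          ∑ z ∈ I ×ˢ J, pq p q z * ent J (q z.1) (fun j => j) := by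
      rw [← ent_pq_chain (q := fun z => q z.1) hP (fun z j => hq0 z.1 j) hq'
        (fun z => (z.1, F z)) (by
        intro z _ z' _ _ _ h j _
        rw [Prod.mk.injEq] at h
        exact congrArg (fun i => q i j) h.1)]
      apply ent_congr
      intro z _ z' _ _ _
      simp only [Prod.mk.injEq]
      tauto
    have h4 : ent (I ×ˢ J) (pq p q) (fun z => z.1) = ent I p (fun i => i) :=
      ent_pq_fst hq (fun i => i)
    rw [h1, h2, h3, h4, ent_pq_index hp hq0 hq F]
    ring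

theorem e3b_inj {ι κ : Type*} (I : Finset ι) (J : Finset κ) :
    ∀ z ∈ (I ×ˢ J) ×ˢ J, ∀ z' ∈ (I ×ˢ J) ×ˢ J,
      (((z.1.1, z.2), z.1.2) : (ι × κ) × κ) = ((z'.1.1, z'.2), z'.1.2) → z = z' := by
  rintro ⟨⟨i, j⟩, j'⟩ _ ⟨⟨i₁, j₁⟩, j₁'⟩ _ h
  simp only [Prod.mk.injEq] at h ⊢
  tauto

theorem e3b_mem {ι κ : Type*} (I : Finset ι) (J : Finset κ) :
    ∀ z ∈ (I ×ˢ J) ×ˢ J, (((z.1.1, z.2), z.1.2) : (ι × κ) × κ) ∈ (I ×ˢ J) ×ˢ J := by
  rintro ⟨⟨i, j⟩, j'⟩ h
  simp only [Finset.mem_product] at h ⊢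
  tauto

theorem e3b_surj {ι κ : Type*} (I : Finset ι) (J : Finset κ) :
    ∀ w ∈ (I ×ˢ J) ×ˢ J, ∃ z ∈ (I ×ˢ J) ×ˢ J, (((z.1.1, z.2), z.1.2) : (ι × κ) × κ) = w := by
  rintro ⟨⟨i, j⟩, j'⟩ h
  exact ⟨((i, j'), j), e3b_mem I J _ h, rfl⟩

theorem e3b_wt {ι κ : Type*} {I : Finset ι} {J : Finset κ} (p : ι → ℝ) (q : ι → κ → ℝ) :
    ∀ z ∈ (I ×ˢ J) ×ˢ J, pq (pq p q) (fun z => q z.1) ((z.1.1, z.2), z.1.2) =
      pq (pq p q) (fun z => q z.1) z := by
  intro z _
  unfold pq
  ring

theorem e3b_key {ι κ T : Type*} {I : Finset ι} {J : Finset κ} {p : ι → ℝ} {q : ι → κ → ℝ}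
    (f : (ι × κ) × κ → T) :
    ent ((I ×ˢ J) ×ˢ J) (pq (pq p q) (fun z => q z.1)) f =
      ent ((I ×ˢ J) ×ˢ J) (pq (pq p q) (fun z => q z.1)) (fun z => f ((z.1.1, z.2), z.1.2)) :=
  ent_reindex (fun z => ((z.1.1, z.2), z.1.2)) (e3b_inj I J) (e3b_mem I J)
    (e3b_surj I J) (e3b_wt p q) (fun _ _ => rfl)

/-- Exchange of the two copies. -/
theorem cmi_pq_swap {ι κ A B D : Type*} {I : Finset ι} {J : Finset κ} {p : ι → ℝ}
    {q : ι → κ → ℝ} (a : (ι × κ) × κ → A) (b : (ι × κ) × κ → B) (c : (ι × κ) × κ → D) :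
    cmi ((I ×ˢ J) ×ˢ J) (pq (pq p q) (fun z => q z.1)) a b c =
      cmi ((I ×ˢ J) ×ˢ J) (pq (pq p q) (fun z => q z.1)) (fun z => a ((z.1.1, z.2), z.1.2))
        (fun z => b ((z.1.1, z.2), z.1.2)) (fun z => c ((z.1.1, z.2), z.1.2)) := by
  unfold cmi
  rw [e3b_key (fun z => (a z, c z)), e3b_key (fun z => (b z, c z)),
    e3b_key (fun z => (a z, b z, c z)), e3b_key c]

/-- Both copies have the law of `F`. -/
theorem mass_pq_swap {ι κ A : Type*} {I : Finset ι} {J : Finset κ} {p : ι → ℝ}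
    {q : ι → κ → ℝ} (F : ι × κ → A) (a : A) :
    mass ((I ×ˢ J) ×ˢ J) (pq (pq p q) (fun z => q z.1)) (fun z => F z.1) a =
      mass ((I ×ˢ J) ×ˢ J) (pq (pq p q) (fun z => q z.1)) (fun z => F (z.1.1, z.2)) a := by
  exact mass_reindex (fun z : (ι × κ) × κ => ((z.1.1, z.2), z.1.2)) (e3b_inj I J) (e3b_mem I J)
    (e3b_surj I J) (e3b_wt p q) (fun _ _ => rfl) a

end Pool.Agent.Lib.MP_d0d59f_nt.GE
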