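import Pool.Agent.Lib.MP_d0d59f_nt.GE.EntA

/-! Row ge_E4a: the `L¹` distance is at most `2 √KL`. -/

namespace Pool.Agent.Lib.MP_d0d59f_nt.GE

open Finset

/-- `‖p - q‖₁ ≤ 2 √KL(p‖q)`. For `p a > 0`: `log (p/q) = -2 log √(q/p) ≥ 2 (1 - √(q/p))`, so
`KL ≥ 2 ∑ p - 2 ∑ √(pq) ≥ ∑ (√p - √q)²` (`∑ q ≤ 1 = ∑ p`); Cauchy-Schwarz:
`∑ |p - q| = ∑ |√p - √q| (√p + √q) ≤ √KL √(∑ 2p + 2q) ≤ 2 √KL`. -/
theorem l1_le_kl {A : Type*} [Fintype A] (p q : A → ℝ) (hp : ∀ a, 0 ≤ p a) (hq : ∀ a, 0 ≤ q a)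
    (hp1 : ∑ a, p a = 1) (hq1 : ∑ a, q a ≤ 1) (hac : ∀ a, q a = 0 → p a = 0) :
    ∑ a, |p a - q a| ≤ 2 * √(∑ a, p a * Real.log (p a / q a)) := by
  have hterm : ∀ a, 2 * p a - 2 * (√(p a) * √(q a)) ≤ p a * Real.log (p a / q a) := by
    intro a
    rcases (hp a).eq_or_lt with h0 | h0
    · rw [← h0]; simp
    · have hqa : 0 < q a := lt_of_le_of_ne (hq a) fun h => h0.ne' (hac a h.symm)
      have h1 : Real.log (p a / q a) = -(2 * Real.log (√(q a) / √(p a))) := by
        rw [Real.log_div h0.ne' hqa.ne', Real.log_div (by positivity) (by positivity),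
          Real.log_sqrt hqa.le, Real.log_sqrt h0.le]
        ring
      have h2 : Real.log (√(q a) / √(p a)) ≤ √(q a) / √(p a) - 1 :=
        Real.log_le_sub_one_of_pos (by positivity)
      have h3 : p a * (√(q a) / √(p a)) = √(p a) * √(q a) := by
        have h4 : p a = √(p a) * √(p a) := (Real.mul_self_sqrt h0.le).symm
        have h5 : √(p a) ≠ 0 := by positivity
        calc p a * (√(q a) / √(p a)) = √(p a) * √(p a) * (√(q a) / √(p a)) := by rw [← h4]
          _ = √(p a) * √(q a) := by field_simp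
      rw [h1]
      have h6 := mul_le_mul_of_nonneg_left h2 h0.le
      rw [mul_sub, h3] at h6
      linarith
  have hK : ∑ a, (√(p a) - √(q a)) ^ 2 ≤ ∑ a, p a * Real.log (p a / q a) := by
    have h1 : ∑ a, (√(p a) - √(q a)) ^ 2 = ∑ a, p a + ∑ a, q a - ∑ a, 2 * (√(p a) * √(q a)) := by
      rw [← Finset.sum_add_distrib, ← Finset.sum_sub_distrib]
      refine Finset.sum_congr rfl fun a _ => ?_
      have h2 := Real.sq_sqrt (hp a)
      have h3 := Real.sq_sqrt (hq a)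
      rw [sub_sq, h2, h3]
      ring
    have h2 : ∑ a, (2 * p a - 2 * (√(p a) * √(q a))) ≤ ∑ a, p a * Real.log (p a / q a) :=
      Finset.sum_le_sum fun a _ => hterm a
    rw [Finset.sum_sub_distrib, ← Finset.mul_sum, hp1] at h2
    rw [h1, hp1]
    linarith
  have hCS : (∑ a, |p a - q a|) ^ 2 ≤ (∑ a, (√(p a) - √(q a)) ^ 2) * ∑ a, (√(p a) + √(q a)) ^ 2 := by
    have h1 : ∀ a, |p a - q a| = |√(p a) - √(q a)| * (√(p a) + √(q a)) := by
      intro a
      have h2 : p a - q a = (√(p a) - √(q a)) * (√(p a) + √(q a)) := by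
        have h3 := Real.mul_self_sqrt (hp a)
        have h4 := Real.mul_self_sqrt (hq a)
        linear_combination -h3 + h4
      rw [h2, abs_mul, abs_of_nonneg (by positivity : 0 ≤ √(p a) + √(q a))]
    have h5 := Finset.sum_mul_sq_le_sq_mul_sq Finset.univ (fun a => |√(p a) - √(q a)|)
      (fun a => √(p a) + √(q a))
    simp only [sq_abs] at h5
    rw [Finset.sum_congr rfl fun a _ => h1 a]
    exact h5
  have h4 : ∑ a, (√(p a) + √(q a)) ^ 2 ≤ 4 := by
    have h1 : ∑ a, (√(p a) + √(q a)) ^ 2 ≤ ∑ a, (2 * p a + 2 * q a) := by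
      refine Finset.sum_le_sum fun a _ => ?_
      have h2 := Real.sq_sqrt (hp a)
      have h3 := Real.sq_sqrt (hq a)
      nlinarith [sq_nonneg (√(p a) - √(q a))]
    rw [Finset.sum_add_distrib, ← Finset.mul_sum, ← Finset.mul_sum, hp1] at h1
    linarith
  have hK0 : 0 ≤ ∑ a, p a * Real.log (p a / q a) :=
    (Finset.sum_nonneg fun a _ => sq_nonneg _).trans hK
  have h5 : (∑ a, |p a - q a|) ^ 2 ≤ (2 * √(∑ a, p a * Real.log (p a / q a))) ^ 2 := by
    rw [mul_pow, Real.sq_sqrt hK0]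
    calc (∑ a, |p a - q a|) ^ 2 ≤ (∑ a, (√(p a) - √(q a)) ^ 2) * ∑ a, (√(p a) + √(q a)) ^ 2 := hCS
      _ ≤ (∑ a, p a * Real.log (p a / q a)) * 4 :=
          mul_le_mul hK h4 (Finset.sum_nonneg fun a _ => sq_nonneg _) hK0
      _ = 2 ^ 2 * ∑ a, p a * Real.log (p a / q a) := by ring
  exact le_of_sq_le_sq h5 (by positivity) |> fun h => h

end Pool.Agent.Lib.MP_d0d59f_nt.GE

/-! Row ge_E4b: `L¹` bounds from (conditional) mutual information. -/

namespace Pool.Agent.Lib.MP_d0d59f_nt.GE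

open Finset

/-- `l1_le_kl` for the joint law of `(a, b, c)` and `m(ac) m(bc) / m(c)` (total mass `1`). -/
theorem l1_cmi {ι A B C : Type*} [Fintype A] [Fintype B] [Fintype C] {Ω : Finset ι} {p : ι → ℝ}
    (hp : IsProb Ω p) (a : ι → A) (b : ι → B) (c : ι → C) :
    ∑ x : A, ∑ y : B, ∑ z : C, |mass Ω p (fun i => (a i, b i, c i)) (x, y, z) -
        mass Ω p (fun i => (a i, c i)) (x, z) * mass Ω p (fun i => (b i, c i)) (y, z) /
          mass Ω p c z| ≤ 2 * √(cmi Ω p a b c) := by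
  classical
  set P : A × B × C → ℝ := fun t => mass Ω p (fun i => (a i, b i, c i)) t with hP
  set Q : A × B × C → ℝ := fun t => mass Ω p (fun i => (a i, c i)) (t.1, t.2.2) *
    mass Ω p (fun i => (b i, c i)) (t.2.1, t.2.2) / mass Ω p c t.2.2 with hQ
  have hPnn : ∀ t, 0 ≤ P t := fun t => mass_nonneg hp.1 _ _
  have hQnn : ∀ t, 0 ≤ Q t := fun t =>
    div_nonneg (mul_nonneg (mass_nonneg hp.1 _ _) (mass_nonneg hp.1 _ _)) (mass_nonneg hp.1 _ _)
  have hP1 : ∑ t, P t = 1 := sum_mass hp _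
  have hQ1 : ∑ t, Q t ≤ 1 := by
    have h1 : ∑ t, Q t = ∑ z : C, ((∑ x : A, mass Ω p (fun i => (a i, c i)) (x, z)) *
        (∑ y : B, mass Ω p (fun i => (b i, c i)) (y, z))) / mass Ω p c z := by
      rw [Fintype.sum_prod_type]
      simp_rw [Fintype.sum_prod_type]
      calc ∑ x : A, ∑ y : B, ∑ z : C, Q (x, y, z)
          = ∑ x : A, ∑ z : C, ∑ y : B, Q (x, y, z) :=
            Finset.sum_congr rfl fun x _ => Finset.sum_comm
        _ = ∑ z : C, ∑ x : A, ∑ y : B, Q (x, y, z) := Finset.sum_comm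
        _ = _ := by
            refine Finset.sum_congr rfl fun z _ => ?_
            rw [Finset.sum_mul_sum, Finset.sum_div]
            refine Finset.sum_congr rfl fun x _ => ?_
            rw [Finset.sum_div]
    rw [h1, ← sum_mass hp c]
    refine Finset.sum_le_sum fun z _ => ?_
    rw [sum_mass_fst Ω p a c z, sum_mass_fst Ω p b c z, mul_div_assoc]
    calc mass Ω p c z * (mass Ω p c z / mass Ω p c z) ≤ mass Ω p c z * 1 :=
          mul_le_mul_of_nonneg_left (div_self_le_one _) (mass_nonneg hp.1 _ _)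
      _ = mass Ω p c z := mul_one _
  have hac : ∀ t, Q t = 0 → P t = 0 := by
    intro t hQt
    by_contra hPt
    obtain ⟨i, hi, hpi, hf⟩ := exists_of_mass_ne_zero hPt
    subst hf
    have h1 := mass_pos hp.1 (fun i => (a i, c i)) hi hpi
    have h2 := mass_pos hp.1 (fun i => (b i, c i)) hi hpi
    have h3 := mass_pos hp.1 c hi hpi
    have h4 : 0 < Q (a i, b i, c i) := by
      simp only [hQ]
      exact div_pos (mul_pos h1 h2) h3
    exact h4.ne' hQt
  have hkl : ∑ t, P t * Real.log (P t / Q t) = cmi Ω p a b c := by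
    have h1 := sum_fiber Ω p (fun i => (a i, b i, c i)) (fun t => Real.log (P t / Q t))
    have h2 : ∑ t, P t * Real.log (P t / Q t)
        = ∑ i ∈ Ω, p i * Real.log (P (a i, b i, c i) / Q (a i, b i, c i)) := h1.symm
    rw [h2]
    unfold cmi ent
    rw [← Finset.sum_add_distrib, ← Finset.sum_sub_distrib, ← Finset.sum_sub_distrib]
    refine Finset.sum_congr rfl fun i hi => ?_
    by_cases h0 : p i = 0
    · simp [h0]
    · have g1 := mass_pos hp.1 (fun i => (a i, c i)) hi h0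
      have g2 := mass_pos hp.1 (fun i => (b i, c i)) hi h0
      have g3 := mass_pos hp.1 (fun i => (a i, b i, c i)) hi h0
      have g4 := mass_pos hp.1 c hi h0
      simp only [hP, hQ]
      rw [Real.log_div g3.ne' (div_pos (mul_pos g1 g2) g4).ne',
        Real.log_div (mul_pos g1 g2).ne' g4.ne', Real.log_mul g1.ne' g2.ne']
      ring
  have h := l1_le_kl P Q hPnn hQnn hP1 hQ1 hac
  rw [hkl, Fintype.sum_prod_type] at h
  simp_rw [Fintype.sum_prod_type] at h
  exact h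

theorem l1_mi {ι A B : Type*} [Fintype A] [Fintype B] {Ω : Finset ι} {p : ι → ℝ}
    (hp : IsProb Ω p) (a : ι → A) (b : ι → B) :
    ∑ x : A, ∑ y : B, |mass Ω p (fun i => (a i, b i)) (x, y) - mass Ω p a x * mass Ω p b y|
      ≤ 2 * √(mi Ω p a b) := by
  classical
  set P : A × B → ℝ := fun t => mass Ω p (fun i => (a i, b i)) t with hP
  set Q : A × B → ℝ := fun t => mass Ω p a t.1 * mass Ω p b t.2 with hQ
  have hPnn : ∀ t, 0 ≤ P t := fun t => mass_nonneg hp.1 _ _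
  have hQnn : ∀ t, 0 ≤ Q t := fun t => mul_nonneg (mass_nonneg hp.1 _ _) (mass_nonneg hp.1 _ _)
  have hP1 : ∑ t, P t = 1 := sum_mass hp _
  have hQ1 : ∑ t, Q t ≤ 1 := by
    rw [Fintype.sum_prod_type]
    have h1 : ∑ x : A, ∑ y : B, Q (x, y) = (∑ x : A, mass Ω p a x) * (∑ y : B, mass Ω p b y) := by
      rw [Finset.sum_mul_sum]
    rw [h1, sum_mass hp a, sum_mass hp b, mul_one]
  have hac : ∀ t, Q t = 0 → P t = 0 := by
    intro t hQt
    by_contra hPt
    obtain ⟨i, hi, hpi, hf⟩ := exists_of_mass_ne_zero hPt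
    subst hf
    have h1 := mass_pos hp.1 a hi hpi
    have h2 := mass_pos hp.1 b hi hpi
    have h4 : 0 < Q (a i, b i) := by
      simp only [hQ]
      exact mul_pos h1 h2
    exact h4.ne' hQt
  have hkl : ∑ t, P t * Real.log (P t / Q t) = mi Ω p a b := by
    have h1 := sum_fiber Ω p (fun i => (a i, b i)) (fun t => Real.log (P t / Q t))
    have h2 : ∑ t, P t * Real.log (P t / Q t)
        = ∑ i ∈ Ω, p i * Real.log (P (a i, b i) / Q (a i, b i)) := h1.symm
    rw [h2]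
    unfold mi ent
    rw [← Finset.sum_add_distrib, ← Finset.sum_sub_distrib]
    refine Finset.sum_congr rfl fun i hi => ?_
    by_cases h0 : p i = 0
    · simp [h0]
    · have g1 := mass_pos hp.1 a hi h0
      have g2 := mass_pos hp.1 b hi h0
      have g3 := mass_pos hp.1 (fun i => (a i, b i)) hi h0
      simp only [hP, hQ]
      rw [Real.log_div g3.ne' (mul_pos g1 g2).ne', Real.log_mul g1.ne' g2.ne']
      ring
  have h := l1_le_kl P Q hPnn hQnn hP1 hQ1 hac
  rw [hkl, Fintype.sum_prod_type] at h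
  exact h

end Pool.Agent.Lib.MP_d0d59f_nt.GE

/-! Row ge_E4c: distance from the law which is uniform given `X mod 3`. -/

namespace Pool.Agent.Lib.MP_d0d59f_nt.GE

open Finset

theorem e4c_dvd (k : ℕ) : (3 ^ 1 : ℕ) ∣ 3 ^ (k + 1) := pow_dvd_pow 3 (by omega)

theorem e4c_cast (k : ℕ) (m : ℤ) :
    ((((m : ZMod (3 ^ (k + 1))).val : ℕ)) : ZMod (3 ^ 1)) = (m : ZMod (3 ^ 1)) := by
  rw [ZMod.natCast_val, ZMod.cast_intCast (e4c_dvd k)]

theorem e4c_sum (k : ℕ) (φ : ZMod (3 ^ 1) → ℝ) :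
    ∑ x : ZMod (3 ^ (k + 1)), φ ((x.val : ℕ) : ZMod (3 ^ 1)) = 3 ^ k * ∑ c, φ c := by
  classical
  set f : ZMod (3 ^ (k + 1)) →+* ZMod (3 ^ 1) := ZMod.castHom (e4c_dvd k) (ZMod (3 ^ 1)) with hf
  have hfx : ∀ x : ZMod (3 ^ (k + 1)), ((x.val : ℕ) : ZMod (3 ^ 1)) = f x := by
    intro x
    rw [ZMod.natCast_val]
    rfl
  simp_rw [hfx]
  have hsurj : ∀ c, ∃ x, f x = c := by
    intro c
    refine ⟨((c.val : ℕ) : ZMod (3 ^ (k + 1))), ?_⟩
    rw [map_natCast, ZMod.natCast_zmod_val]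
  have hK : ∀ c, (univ.filter fun x => f x = c).card = (univ.filter fun x => f x = 0).card := by
    intro c
    exact AddMonoidHom.card_fiber_eq_of_mem_range f (hsurj c) (hsurj 0)
  have htot : ∑ c : ZMod (3 ^ 1), (univ.filter fun x => f x = c).card = 3 ^ (k + 1) := by
    rw [← Finset.card_eq_sum_card_fiberwise (f := fun x => f x) (t := univ) (s := univ) (fun x _ => mem_coe.2 (mem_univ _))]
    rw [Finset.card_univ, ZMod.card]
  simp_rw [hK] at htot
  rw [Finset.sum_const, Finset.card_univ, ZMod.card, smul_eq_mul] at htot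
  replace htot := htot.trans (pow_succ 3 k)
  have hK0 : (univ.filter fun x : ZMod (3 ^ (k + 1)) => f x = 0).card = 3 ^ k := by
    have h5 : ∀ a b : ℕ, 3 ^ 1 * a = b * 3 → a = b := by intro a b h; omega
    exact h5 _ _ htot
  rw [← Finset.sum_fiberwise (s := univ) (g := fun x => f x), Finset.mul_sum]
  refine Finset.sum_congr rfl fun c _ => ?_
  rw [Finset.sum_congr rfl (g := fun _ => φ c) (fun x hx => by rw [(Finset.mem_filter.1 hx).2]), Finset.sum_const, hK c, hK0,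
    nsmul_eq_mul]
  push_cast
  rfl

/-- Distance of the law of `X mod 3^(k+1)` from uniform given `X mod 3`: `l1_le_kl` with
`q x = mass (X mod 3) (x mod 3) / 3^k`; the relative entropy is
`k log 3 - (H(X mod 3^(k+1)) - H(X mod 3))`. -/
theorem l1_unif {ι : Type*} {Ω : Finset ι} {p : ι → ℝ} (hp : IsProb Ω p) (X : ι → ℤ) (k : ℕ) :
    ∑ x : ZMod (3 ^ (k + 1)), |mass Ω p (fun i => ((X i : ℤ) : ZMod (3 ^ (k + 1)))) x -
        mass Ω p (fun i => ((X i : ℤ) : ZMod (3 ^ 1))) ((x.val : ℕ) : ZMod (3 ^ 1)) / 3 ^ k| ≤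
      2 * √((k : ℝ) * Real.log 3 - (ent Ω p (fun i => ((X i : ℤ) : ZMod (3 ^ (k + 1)))) -
        ent Ω p (fun i => ((X i : ℤ) : ZMod (3 ^ 1))))) := by
  classical
  set P : ZMod (3 ^ (k + 1)) → ℝ := fun x => mass Ω p (fun i => ((X i : ℤ) : ZMod (3 ^ (k + 1)))) x with hP
  set m1 : ZMod (3 ^ 1) → ℝ := fun c => mass Ω p (fun i => ((X i : ℤ) : ZMod (3 ^ 1))) c with hm1
  have h3 : (0 : ℝ) < 3 ^ k := by positivity
  have hP0 : ∀ x, 0 ≤ P x := fun x => mass_nonneg hp.1 _ _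
  have hm0 : ∀ c, 0 ≤ m1 c := fun x => mass_nonneg hp.1 _ _
  have hle : ∀ x, P x ≤ m1 ((x.val : ℕ) : ZMod (3 ^ 1)) := by
    intro x
    simp only [hP, hm1, mass]
    refine Finset.sum_le_sum fun i hi => ?_
    by_cases h : ((X i : ℤ) : ZMod (3 ^ (k + 1))) = x
    · have h2 : ((X i : ℤ) : ZMod (3 ^ 1)) = ((x.val : ℕ) : ZMod (3 ^ 1)) := by
        rw [← h, e4c_cast]
      rw [if_pos h, if_pos h2]
    · rw [if_neg h]
      split_ifs
      · exact hp.1 i hi
      · exact le_rfl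
  have hmain := l1_le_kl P (fun x => m1 ((x.val : ℕ) : ZMod (3 ^ 1)) / 3 ^ k) hP0
    (fun x => div_nonneg (hm0 _) h3.le) (sum_mass hp _) (by
      rw [e4c_sum k (fun c => m1 c / 3 ^ k), ← Finset.sum_div, sum_mass hp]
      rw [mul_one_div, div_self h3.ne'])
    (fun x hx => by
      have h1 : m1 ((x.val : ℕ) : ZMod (3 ^ 1)) = 0 := by
        rcases div_eq_zero_iff.1 hx with h | h
        · exact h
        · exact absurd h h3.ne'
      exact le_antisymm (h1 ▸ hle x) (hP0 x))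
  refine hmain.trans (le_of_eq ?_)
  congr 2
  have hterm : ∀ x, P x * Real.log (P x / (m1 ((x.val : ℕ) : ZMod (3 ^ 1)) / 3 ^ k)) =
      P x * Real.log (P x) + P x * (-Real.log (m1 ((x.val : ℕ) : ZMod (3 ^ 1)))) + P x * (k * Real.log 3) := by
    intro x
    rcases eq_or_ne (P x) 0 with h | h
    · rw [h]; simp
    · have hPx : 0 < P x := lt_of_le_of_ne (hP0 x) (Ne.symm h)
      have hmx : 0 < m1 ((x.val : ℕ) : ZMod (3 ^ 1)) := lt_of_lt_of_le hPx (hle x)
      rw [Real.log_div h (by positivity), Real.log_div hmx.ne' h3.ne', Real.log_pow]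
      ring
  simp_rw [hterm]
  rw [Finset.sum_add_distrib, Finset.sum_add_distrib, ← Finset.sum_mul, sum_mass hp]
  have e1 : ∑ x, P x * Real.log (P x) = -ent Ω p (fun i => ((X i : ℤ) : ZMod (3 ^ (k + 1)))) := by
    rw [← sum_fiber Ω p (fun i => ((X i : ℤ) : ZMod (3 ^ (k + 1)))) (fun x => Real.log (P x))]
    unfold ent
    rw [← Finset.sum_neg_distrib]
    refine Finset.sum_congr rfl fun i _ => ?_
    simp only [hP]
    ring
  have e2 : ∑ x, P x * (-Real.log (m1 ((x.val : ℕ) : ZMod (3 ^ 1)))) = ent Ω p (fun i => ((X i : ℤ) : ZMod (3 ^ 1))) := by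
    rw [← sum_fiber Ω p (fun i => ((X i : ℤ) : ZMod (3 ^ (k + 1)))) (fun x => -Real.log (m1 ((x.val : ℕ) : ZMod (3 ^ 1))))]
    unfold ent
    refine Finset.sum_congr rfl fun i _ => ?_
    simp only [hm1, e4c_cast]
  rw [e1, e2]
  ring

end Pool.Agent.Lib.MP_d0d59f_nt.GE
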