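import Pool.Agent.Lib.MP_d0d59f_nt.GE.Words
import Pool.Agent.Lib.MP_d0d59f_nt.GE.EntA

/-! Row ge_H1a: paths of blocks. -/

namespace Pool.Agent.Lib.MP_d0d59f_nt.GE

open Finset

theorem mem_wn {B : Finset (List ℕ)} {n : ℕ} {u : List (List ℕ)} :
    u ∈ wn B n ↔ u.length = n ∧ ∀ α ∈ u, α ∈ B := by
  induction n generalizing u with
  | zero =>
    simp only [wn, mem_singleton]
    constructor
    · rintro rfl
      simp
    · rintro ⟨h, -⟩
      exact List.length_eq_zero_iff.1 h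
  | succ n ih =>
    simp only [wn, mem_image, mem_product, Prod.exists]
    constructor
    · rintro ⟨a, β, ⟨h1, h2⟩, rfl⟩
      obtain ⟨h3, h4⟩ := ih.1 h2
      refine ⟨by simp [h3], ?_⟩
      intro b hb
      rcases List.mem_cons.1 hb with rfl | hb
      · exact h1
      · exact h4 b hb
    · rintro ⟨h1, h2⟩
      cases u with
      | nil => simp at h1
      | cons a β =>
        exact ⟨a, β, ⟨h2 a (by simp), ih.2 ⟨by simpa using h1, fun b hb => h2 b (by simp [hb])⟩⟩, rfl⟩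

theorem sum_wn_succ {M : Type*} [AddCommMonoid M] (B : Finset (List ℕ)) (n : ℕ)
    (F : List (List ℕ) → M) :
    ∑ w ∈ wn B (n + 1), F w = ∑ α ∈ B, ∑ v ∈ wn B n, F (α :: v) := by
  have h : wn B (n + 1) = (B ×ˢ wn B n).image fun q => q.1 :: q.2 := rfl
  rw [h, sum_image, sum_product]
  rintro ⟨a, u⟩ - ⟨b, v⟩ - h
  simpa using h

/-- Sum over the paths of `m + n` blocks. -/
theorem sum_wn_add {M : Type*} [AddCommMonoid M] (B : Finset (List ℕ)) (m n : ℕ)
    (F : List (List ℕ) → M) :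
    ∑ w ∈ wn B (m + n), F w = ∑ u ∈ wn B m, ∑ v ∈ wn B n, F (u ++ v) := by
  induction m generalizing F with
  | zero =>
    have h : wn B 0 = {[]} := rfl
    rw [h, Nat.zero_add, sum_singleton]
    rfl
  | succ m ih =>
    have h : m + 1 + n = (m + n) + 1 := by omega
    rw [h, sum_wn_succ, sum_wn_succ]
    refine sum_congr rfl fun α _ => ?_
    rw [ih (fun w => F (α :: w))]
    rfl

theorem run_append (u v : List (List ℕ)) (x : ℤ) : run (u ++ v) x = run v (run u x) := by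
  induction u generalizing x with
  | nil => rfl
  | cons α u ih => exact ih _

theorem prb_append (κ : ℤ → List ℕ → ℝ) (u v : List (List ℕ)) (x : ℤ) :
    prb κ (u ++ v) x = prb κ u x * prb κ v (run u x) := by
  induction u generalizing x with
  | nil => simp [prb, run]
  | cons α u ih =>
    rw [List.cons_append]
    simp only [prb, run]
    rw [ih, mul_assoc]

theorem prb_nonneg (K : Ker) (u : List (List ℕ)) (x : ℤ) : 0 ≤ prb K.κ u x := by
  induction u generalizing x with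
  | nil => simp [prb]
  | cons α u ih => exact mul_nonneg (K.nonneg _ _) (ih _)

theorem run_eq (u : List (List ℕ)) (x : ℤ) : run u x = act u.flatten x := by
  induction u generalizing x with
  | nil => rfl
  | cons α u ih =>
    rw [List.flatten_cons, act_append]
    exact ih _

theorem h1a_valid (K : Ker) (u : List (List ℕ)) (hu : ∀ α ∈ u, α ∈ K.B) {x : ℤ}
    (hx : ¬ (3 : ℤ) ∣ x) (h : prb K.κ u x ≠ 0) : valid u.flatten x := by
  induction u generalizing x with
  | nil => exact hx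
  | cons α u ih =>
    simp only [prb] at h
    have h1 : K.κ x α ≠ 0 := left_ne_zero_of_mul h
    have h2 : prb K.κ u (act α x) ≠ 0 := right_ne_zero_of_mul h
    have h3 : valid α x := K.supp x α (hu α (by simp)) h1
    rw [List.flatten_cons, valid_append]
    exact ⟨h3, ih (fun β hβ => hu β (by simp [hβ])) (valid_unit h3).2 h2⟩

/-- Support: a path of positive probability started at a unit is a valid word. -/
theorem valid_flatten {K : Ker} {n : ℕ} {u : List (List ℕ)} (hu : u ∈ wn K.B n) {x : ℤ}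
    (hx : ¬ (3 : ℤ) ∣ x) (h : prb K.κ u x ≠ 0) : valid u.flatten x :=
  h1a_valid K u (mem_wn.1 hu).2 hx h

theorem run_unit {K : Ker} {n : ℕ} {u : List (List ℕ)} (hu : u ∈ wn K.B n) {x : ℤ}
    (hx : ¬ (3 : ℤ) ∣ x) (h : prb K.κ u x ≠ 0) : ¬ (3 : ℤ) ∣ run u x := by
  rw [run_eq]
  exact (valid_unit (valid_flatten hu hx h)).2

theorem h1a_len (K : Ker) (u : List (List ℕ)) (hu : ∀ α ∈ u, α ∈ K.B) :
    u.flatten.length = u.length * K.L := by
  induction u with
  | nil => simp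
  | cons α u ih =>
    rw [List.flatten_cons, List.length_append, ih (fun β hβ => hu β (by simp [hβ])),
      K.len α (hu α (by simp)), List.length_cons]
    ring

theorem flatten_length {K : Ker} {n : ℕ} {u : List (List ℕ)} (hu : u ∈ wn K.B n) :
    u.flatten.length = n * K.L := by
  obtain ⟨h1, h2⟩ := mem_wn.1 hu
  rw [h1a_len K u h2, h1]

theorem h1a_even (K : Ker) (u : List (List ℕ)) (hu : ∀ α ∈ u, α ∈ K.B) :
    Even u.flatten.sum := by
  induction u with
  | nil => simp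
  | cons α u ih =>
    rw [List.flatten_cons, List.sum_append]
    exact (K.even α (hu α (by simp))).add (ih (fun β hβ => hu β (by simp [hβ])))

theorem flatten_even {K : Ker} {n : ℕ} {u : List (List ℕ)} (hu : u ∈ wn K.B n) :
    Even u.flatten.sum := h1a_even K u (mem_wn.1 hu).2

theorem h1a_sum_le (M : ℕ) (w : List ℕ) (h : ∀ a ∈ w, a ≤ M) : w.sum ≤ w.length * M := by
  induction w with
  | nil => simp
  | cons a w ih =>
    rw [List.sum_cons, List.length_cons]
    have h1 := h a (by simp)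
    have h2 := ih (fun b hb => h b (by simp [hb]))
    have h3 : (w.length + 1) * M = w.length * M + M := by ring
    omega

theorem flatten_sum_le {K : Ker} {n : ℕ} {u : List (List ℕ)} (hu : u ∈ wn K.B n) :
    u.flatten.sum ≤ n * K.L * K.M := by
  rw [← flatten_length hu]
  refine h1a_sum_le K.M _ ?_
  intro a ha
  obtain ⟨α, hα, haα⟩ := List.mem_flatten.1 ha
  exact (K.bd α ((mem_wn.1 hu).2 α hα) a haα).2

theorem h1a_inj (K : Ker) (u v : List (List ℕ)) (hu : ∀ α ∈ u, α ∈ K.B) (hv : ∀ α ∈ v, α ∈ K.B)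
    (hl : u.length = v.length) (h : u.flatten = v.flatten) : u = v := by
  induction u generalizing v with
  | nil => exact (List.length_eq_zero_iff.1 hl.symm).symm
  | cons α u ih =>
    cases v with
    | nil => simp at hl
    | cons β v =>
      rw [List.flatten_cons, List.flatten_cons] at h
      have h1 : α.length = β.length := by
        rw [K.len α (hu α (by simp)), K.len β (hv β (by simp))]
      obtain ⟨h2, h3⟩ := List.append_inj h h1
      rw [h2, ih v (fun γ hγ => hu γ (by simp [hγ])) (fun γ hγ => hv γ (by simp [hγ]))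
        (by simpa using hl) h3]

/-- All blocks have the same length `L ≥ 1`, so `flatten` is injective. -/
theorem flatten_inj {K : Ker} {n : ℕ} {u v : List (List ℕ)} (hu : u ∈ wn K.B n)
    (hv : v ∈ wn K.B n) (h : u.flatten = v.flatten) : u = v := by
  obtain ⟨h1, h2⟩ := mem_wn.1 hu
  obtain ⟨h3, h4⟩ := mem_wn.1 hv
  exact h1a_inj K u v h2 h4 (h1.trans h3.symm) h

end Pool.Agent.Lib.MP_d0d59f_nt.GE

/-! Row ge_H1b: the path measure; periodicity; boundedness. -/

namespace Pool.Agent.Lib.MP_d0d59f_nt.GE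

open Finset

theorem sum_prb (K : Ker) (n : ℕ) {x : ℤ} (hx : ¬ (3 : ℤ) ∣ x) :
    ∑ u ∈ wn K.B n, prb K.κ u x = 1 := by
  induction n generalizing x with
  | zero => simp [wn, prb]
  | succ n ih =>
    rw [sum_wn_succ, ← K.sum_one x hx]
    refine sum_congr rfl fun α hα => ?_
    by_cases h0 : K.κ x α = 0
    · simp [prb, h0]
    · have hv := K.supp x α hα h0
      simp only [prb]
      rw [← mul_sum, ih (valid_unit hv).2, mul_one]

theorem isProb_wn (K : Ker) (n : ℕ) {x : ℤ} (hx : ¬ (3 : ℤ) ∣ x) :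
    IsProb (wn K.B n) (fun u => prb K.κ u x) :=
  ⟨fun u _ => prb_nonneg K u x, sum_prb K n hx⟩

/-- The law of the path of `n` blocks depends on `x` modulo `3^(nL+1)` only. Induction on `n`:
`κ x α` depends on `x mod 3^(L+1)`; if `κ x α ≠ 0` then `α` is valid at `x` and at `y`, and
`act α x ≡ act α y mod 3^((n-1)L+1)` by `act_congr`. (For `K.κ x α = K.κ y α = 0` both products vanish.) -/
theorem prb_congr {K : Ker} {n : ℕ} {x y : ℤ} (h : x ≡ y [ZMOD 3 ^ (n * K.L + 1)])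
    {u : List (List ℕ)} (hu : u ∈ wn K.B n) : prb K.κ u x = prb K.κ u y := by
  induction n generalizing x y u with
  | zero =>
    have h0 : u = [] := by simpa [wn] using hu
    rw [h0]
    rfl
  | succ n ih =>
    obtain ⟨⟨α, v⟩, hq, rfl⟩ := mem_image.1 hu
    obtain ⟨hα, hv⟩ := mem_product.1 hq
    simp only [prb]
    have h1 : K.κ x α = K.κ y α := by
      refine K.per x y (h.of_dvd ?_) α hα
      exact pow_dvd_pow 3 (by nlinarith [K.hL])
    rw [← h1]
    by_cases h0 : K.κ x α = 0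
    · rw [h0, zero_mul, zero_mul]
    · have hvx := K.supp x α hα h0
      have hvy := K.supp y α hα (by rwa [← h1])
      rw [ih ((act_congr hvx hvy (n * K.L + 1)).1 ?_) hv]
      rw [K.len α hα]
      have h2 : n * K.L + 1 + K.L = (n + 1) * K.L + 1 := by ring
      rw [h2]
      exact h

/-- For a path `u` of `n` blocks of positive probability at the units `x` and `y`:
`x ≡ y mod 3^(k + nL)` iff `run u x ≡ run u y mod 3^k`. -/
theorem run_congr {K : Ker} {n : ℕ} {x y : ℤ} {u : List (List ℕ)} (hu : u ∈ wn K.B n)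
    (hx : ¬ (3 : ℤ) ∣ x) (hy : ¬ (3 : ℤ) ∣ y) (hpx : prb K.κ u x ≠ 0) (hpy : prb K.κ u y ≠ 0)
    (k : ℕ) : x ≡ y [ZMOD 3 ^ (k + n * K.L)] ↔ run u x ≡ run u y [ZMOD 3 ^ k] := by
  rw [run_eq, run_eq, ← flatten_length hu]
  exact act_congr (valid_flatten hu hx hpx) (valid_flatten hu hy hpy) k

/-- At a multiple `x` of `3` no word is valid, so `κ x α = 0` for `α ∈ K.B`. -/
theorem kappa_zero (K : Ker) {x : ℤ} (hx : (3 : ℤ) ∣ x) {α : List ℕ} (hα : α ∈ K.B) :
    K.κ x α = 0 := by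
  by_contra h
  exact (valid_unit (K.supp x α hα h)).1 hx

theorem h1b_cases (K : Ker) (n : ℕ) (x : ℤ) :
    IsProb (wn K.B n) (fun u => prb K.κ u x) ∨ ∀ u ∈ wn K.B n, prb K.κ u x = 0 := by
  by_cases hx : (3 : ℤ) ∣ x
  · cases n with
    | zero =>
      left
      exact ⟨fun u _ => prb_nonneg K u x, by simp [wn, prb]⟩
    | succ n =>
      right
      intro u hu
      obtain ⟨⟨α, v⟩, hq, rfl⟩ := mem_image.1 hu
      obtain ⟨hα, -⟩ := mem_product.1 hq
      simp only [prb]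
      rw [kappa_zero K hx hα, zero_mul]
  · exact Or.inl (isProb_wn K n hx)

theorem h1b_ent_zero {ι A : Type*} {Ω : Finset ι} {p : ι → ℝ} (f : ι → A) (h : ∀ i ∈ Ω, p i = 0) :
    ent Ω p f = 0 :=
  sum_eq_zero fun i hi => by rw [h i hi, zero_mul]

theorem sum_prb_le (K : Ker) (n : ℕ) (x : ℤ) : ∑ u ∈ wn K.B n, prb K.κ u x ≤ 1 := by
  rcases h1b_cases K n x with h | h
  · exact h.2.le
  · rw [sum_eq_zero h]
    exact zero_le_one

theorem h1b_sum_kappa_le (K : Ker) (x : ℤ) : ∑ α ∈ K.B, K.κ x α ≤ 1 := by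
  by_cases hx : (3 : ℤ) ∣ x
  · rw [sum_eq_zero fun α hα => kappa_zero K hx hα]
    exact zero_le_one
  · exact (K.sum_one x hx).le

theorem h1b_avg_bound {ι : Type*} (Ω : Finset ι) (p : ι → ℝ) (g : ι → ℝ) {C : ℝ} (hp : ∀ i, 0 ≤ p i)
    (h1 : ∑ i ∈ Ω, p i ≤ 1) (hC : 0 ≤ C) (hg : ∀ i, |g i| ≤ C) : |∑ i ∈ Ω, p i * g i| ≤ C := by
  calc |∑ i ∈ Ω, p i * g i| ≤ ∑ i ∈ Ω, |p i * g i| := abs_sum_le_sum_abs _ _
    _ ≤ ∑ i ∈ Ω, p i * C := sum_le_sum fun i _ => by
        rw [abs_mul, abs_of_nonneg (hp i)]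
        exact mul_le_mul_of_nonneg_left (hg i) (hp i)
    _ = (∑ i ∈ Ω, p i) * C := by rw [sum_mul]
    _ ≤ 1 * C := mul_le_mul_of_nonneg_right h1 hC
    _ = C := one_mul C

theorem PN_bdd (K : Ker) (n : ℕ) {f : ℤ → ℝ} (hf : Bdd f) : Bdd (PN K n f) := by
  obtain ⟨C, hC⟩ := hf
  exact ⟨C, fun x => h1b_avg_bound _ _ _ (fun u => prb_nonneg K u x) (sum_prb_le K n x)
    ((abs_nonneg _).trans (hC 0)) fun u => hC _⟩

theorem PP_bdd (K : Ker) {f : ℤ → ℝ} (hf : Bdd f) : Bdd (PP K f) := by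
  obtain ⟨C, hC⟩ := hf
  exact ⟨C, fun x => h1b_avg_bound _ _ _ (fun α => K.nonneg x α) (h1b_sum_kappa_le K x)
    ((abs_nonneg _).trans (hC 0)) fun α => hC _⟩

theorem PN_succ (K : Ker) (n : ℕ) (f : ℤ → ℝ) : PN K (n + 1) f = PP K (PN K n f) := by
  funext x
  rw [PN, PP, sum_wn_succ]
  refine sum_congr rfl fun α _ => ?_
  rw [PN, mul_sum]
  refine sum_congr rfl fun v _ => ?_
  simp only [prb, run]
  rw [mul_assoc]

theorem PN_zero (K : Ker) (f : ℤ → ℝ) : PN K 0 f = f := by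
  funext x
  simp [PN, wn, prb, run]

/-- `0 ≤ hh ≤ k log 3` for all `x`: at units `ent_nonneg`, `ent_le_log_card`; at multiples of `3` all
`prb = 0` if `n ≥ 1` (`kappa_zero`), and for `n = 0` the entropy is `0`. -/
theorem hh_nonneg (K : Ker) (n : ℕ) (x : ℤ) (k : ℕ) : 0 ≤ hh K n x k := by
  rcases h1b_cases K n x with h | h
  · exact ent_nonneg h _
  · exact (h1b_ent_zero _ h).ge

theorem hh_le (K : Ker) (n : ℕ) (x : ℤ) (k : ℕ) : hh K n x k ≤ k * Real.log 3 := by
  rcases h1b_cases K n x with h | h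
  · have : NeZero (3 ^ k) := ⟨by positivity⟩
    have h1 := ent_le_log_card h (fun u => ((run u x : ℤ) : ZMod (3 ^ k))) univ fun _ _ _ => mem_univ _
    rw [card_univ, ZMod.card, Nat.cast_pow, Real.log_pow] at h1
    exact_mod_cast h1
  · have h1 : hh K n x k = 0 := h1b_ent_zero _ h
    rw [h1]
    exact mul_nonneg (Nat.cast_nonneg _) (Real.log_nonneg (by norm_num))

theorem hh_bdd (K : Ker) (n k : ℕ) : Bdd (fun x => hh K n x k) :=
  ⟨k * Real.log 3, fun x => by
    rw [abs_of_nonneg (hh_nonneg K n x k)]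
    exact hh_le K n x k⟩

end Pool.Agent.Lib.MP_d0d59f_nt.GE

/-! Row ge_M1: invariant means. -/

namespace Pool.Agent.Lib.MP_d0d59f_nt.GE

open Finset

theorem Bdd.add {f g : ℤ → ℝ} (hf : Bdd f) (hg : Bdd g) : Bdd (fun x => f x + g x) := by
  obtain ⟨C, hC⟩ := hf
  obtain ⟨D, hD⟩ := hg
  exact ⟨C + D, fun x => (abs_add_le _ _).trans (add_le_add (hC x) (hD x))⟩

theorem Bdd.sub {f g : ℤ → ℝ} (hf : Bdd f) (hg : Bdd g) : Bdd (fun x => f x - g x) := by
  obtain ⟨C, hC⟩ := hf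
  obtain ⟨D, hD⟩ := hg
  exact ⟨C + D, fun x => (abs_sub _ _).trans (add_le_add (hC x) (hD x))⟩

theorem Bdd.mul {f g : ℤ → ℝ} (hf : Bdd f) (hg : Bdd g) : Bdd (fun x => f x * g x) := by
  obtain ⟨C, hC⟩ := hf
  obtain ⟨D, hD⟩ := hg
  refine ⟨C * D, fun x => ?_⟩
  have hC0 : 0 ≤ C := (abs_nonneg _).trans (hC x)
  show |f x * g x| ≤ C * D
  rw [abs_mul]
  exact mul_le_mul (hC x) (hD x) (abs_nonneg _) hC0

theorem Bdd.const (c : ℝ) : Bdd (fun _ => c) := ⟨|c|, fun _ => le_rfl⟩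

theorem Bdd.smul (c : ℝ) {f : ℤ → ℝ} (hf : Bdd f) : Bdd (fun x => c * f x) :=
  (Bdd.const c).mul hf

theorem Bdd.abs {f : ℤ → ℝ} (hf : Bdd f) : Bdd (fun x => |f x|) := by
  obtain ⟨C, hC⟩ := hf
  exact ⟨C, fun x => by rw [abs_abs]; exact hC x⟩

theorem Bdd.sum {ι : Type*} {s : Finset ι} {f : ι → ℤ → ℝ} (hf : ∀ i ∈ s, Bdd (f i)) :
    Bdd (fun x => ∑ i ∈ s, f i x) := by
  classical
  induction s using Finset.induction_on with
  | empty =>
    simp only [Finset.sum_empty]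
    exact Bdd.const 0
  | insert a s ha ih =>
    have h1 := ih fun i hi => hf i (Finset.mem_insert_of_mem hi)
    have h2 := (hf a (Finset.mem_insert_self a s)).add h1
    simp only [Finset.sum_insert ha]
    exact h2

open Classical in
/-- Indicator function. -/
noncomputable def ind (S : ℤ → Prop) (x : ℤ) : ℝ := if S x then 1 else 0

theorem ind_bdd (S : ℤ → Prop) : Bdd (ind S) := by
  refine ⟨1, fun x => ?_⟩
  unfold ind
  split_ifs <;> simp

theorem dg_bdd (K : Ker) (n j : ℕ) : Bdd (fun x => dg K n x j) :=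
  (hh_bdd K n (j + 1)).sub (hh_bdd K n j)

namespace Mean

variable {K : Ker} (m : Mean K)

theorem const (c : ℝ) : m.Θ (fun _ => c) = c := by
  have h := m.smul c (fun _ => 1) (Bdd.const 1)
  simp only [mul_one] at h
  rw [h, m.one, mul_one]

theorem sub {f g : ℤ → ℝ} (hf : Bdd f) (hg : Bdd g) :
    m.Θ (fun x => f x - g x) = m.Θ f - m.Θ g := by
  have h1 := m.add f (fun x => (-1) * g x) hf (Bdd.smul (-1) hg)
  have h2 := m.smul (-1) g hg
  have h3 : (fun x => f x + (-1) * g x) = fun x => f x - g x := by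
    funext x
    ring
  rw [h3, h2] at h1
  rw [h1]
  ring

theorem sum {ι : Type*} (s : Finset ι) (f : ι → ℤ → ℝ) (hf : ∀ i ∈ s, Bdd (f i)) :
    m.Θ (fun x => ∑ i ∈ s, f i x) = ∑ i ∈ s, m.Θ (f i) := by
  classical
  induction s using Finset.induction_on with
  | empty =>
    simp only [Finset.sum_empty]
    exact m.const 0
  | insert a s ha ih =>
    have h1 := ih fun i hi => hf i (Finset.mem_insert_of_mem hi)
    have h2 : Bdd (fun x => ∑ i ∈ s, f i x) :=
      Bdd.sum fun i hi => hf i (Finset.mem_insert_of_mem hi)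
    simp only [Finset.sum_insert ha]
    rw [m.add (f a) (fun x => ∑ i ∈ s, f i x) (hf a (Finset.mem_insert_self a s)) h2, h1]

theorem nonneg {f : ℤ → ℝ} (hf : Bdd f) (h : ∀ x : ℤ, ¬ (3 : ℤ) ∣ x → 0 ≤ f x) : 0 ≤ m.Θ f := by
  have h1 := m.mono (fun _ => 0) f (Bdd.const 0) hf h
  rwa [m.const 0] at h1

theorem congr {f g : ℤ → ℝ} (hf : Bdd f) (hg : Bdd g) (h : ∀ x : ℤ, ¬ (3 : ℤ) ∣ x → f x = g x) :
    m.Θ f = m.Θ g :=
  le_antisymm (m.mono f g hf hg fun x hx => (h x hx).le) (m.mono g f hg hf fun x hx => (h x hx).ge)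

theorem le_const {f : ℤ → ℝ} (hf : Bdd f) (c : ℝ) (h : ∀ x : ℤ, ¬ (3 : ℤ) ∣ x → f x ≤ c) :
    m.Θ f ≤ c := by
  have h1 := m.mono f (fun _ => c) hf (Bdd.const c) h
  rwa [m.const c] at h1

theorem inv_PN {f : ℤ → ℝ} (hf : Bdd f) (n : ℕ) : m.Θ (PN K n f) = m.Θ f := by
  induction n with
  | zero => rw [PN_zero]
  | succ n ih => rw [PN_succ, m.inv _ (PN_bdd K n hf), ih]

/-- Markov's inequality. -/
theorem markov {f : ℤ → ℝ} (hf : Bdd f) (h : ∀ x : ℤ, ¬ (3 : ℤ) ∣ x → 0 ≤ f x) {t : ℝ}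
    (ht : 0 < t) : m.Θ (ind fun x => t ≤ f x) ≤ m.Θ f / t := by
  have h1 : m.Θ (ind fun x => t ≤ f x) ≤ m.Θ (fun x => t⁻¹ * f x) := by
    apply m.mono _ _ (ind_bdd _) (Bdd.smul _ hf)
    intro x hx
    unfold ind
    split_ifs with hc
    · rw [← inv_mul_cancel₀ ht.ne']
      exact mul_le_mul_of_nonneg_left hc (inv_pos.mpr ht).le
    · exact mul_nonneg (inv_pos.mpr ht).le (h x hx)
  rw [m.smul _ f hf] at h1
  rw [div_eq_inv_mul]
  exact h1

/-- If `A x → B x ∨ C x` for units then `Θ(A) ≤ Θ(B) + Θ(C)`. -/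
theorem ind_union {A B C : ℤ → Prop} (h : ∀ x : ℤ, ¬ (3 : ℤ) ∣ x → A x → B x ∨ C x) :
    m.Θ (ind A) ≤ m.Θ (ind B) + m.Θ (ind C) := by
  rw [← m.add (ind B) (ind C) (ind_bdd B) (ind_bdd C)]
  apply m.mono _ _ (ind_bdd A) ((ind_bdd B).add (ind_bdd C))
  intro x hx
  have h0 : ∀ S : ℤ → Prop, 0 ≤ ind S x := by
    intro S
    unfold ind
    split_ifs <;> norm_num
  have h1 : ∀ S : ℤ → Prop, S x → ind S x = 1 := fun S hS => if_pos hS
  by_cases hA : A x
  · rw [h1 A hA]
    rcases h x hx hA with hB | hC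
    · rw [h1 B hB]
      linarith [h0 C]
    · rw [h1 C hC]
      linarith [h0 B]
  · have hA0 : ind A x = 0 := if_neg hA
    rw [hA0]
    exact add_nonneg (h0 B) (h0 C)

end Mean

end Pool.Agent.Lib.MP_d0d59f_nt.GE

/-! Row N3 (about 90 lines): the transition operator. -/

namespace Pool.Agent.Lib.MP_d0d59f_nt.GE

open Finset

/-- the end point of a valid word is prime to `3` -/
theorem n3_act_unit {α : List ℕ} {x : ℤ} (hv : valid α x) : ¬ (3 : ℤ) ∣ act α x := by
  induction α generalizing x with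
  | nil => exact hv
  | cons a α ih => exact ih hv.2.2.2

/-- `Finset.sum_add_distrib`. -/
theorem PP_add (K : Ker) (f g : ℤ → ℝ) :
    PP K (fun x => f x + g x) = fun x => PP K f x + PP K g x := by
  funext x
  rw [PP, PP, PP, ← sum_add_distrib]
  exact sum_congr rfl fun α _ => mul_add _ _ _

theorem PP_smul (K : Ker) (c : ℝ) (f : ℤ → ℝ) :
    PP K (fun x => c * f x) = fun x => c * PP K f x := by
  funext x
  rw [PP, PP, mul_sum]
  exact sum_congr rfl fun α _ => mul_left_comm _ _ _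

/-- Induction on `t`, `Function.iterate_succ_apply'`, `PP_add`. -/
theorem iter_add (K : Ker) (t : ℕ) (f g : ℤ → ℝ) :
    (PP K)^[t] (fun x => f x + g x) = fun x => (PP K)^[t] f x + (PP K)^[t] g x := by
  induction t with
  | zero => rfl
  | succ t ih => rw [Function.iterate_succ_apply', ih, PP_add, Function.iterate_succ_apply', Function.iterate_succ_apply']

theorem iter_smul (K : Ker) (t : ℕ) (c : ℝ) (f : ℤ → ℝ) :
    (PP K)^[t] (fun x => c * f x) = fun x => c * (PP K)^[t] f x := by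
  induction t with
  | zero => rfl
  | succ t ih => rw [Function.iterate_succ_apply', ih, PP_smul, Function.iterate_succ_apply']

/-- `κ x α ≠ 0` implies `valid α x` (`K.supp`), hence `act α x` is a unit (`act_unit`). -/
theorem PP_mono (K : Ker) {f g : ℤ → ℝ} (h : ∀ x : ℤ, ¬ (3 : ℤ) ∣ x → f x ≤ g x) (x : ℤ) :
    PP K f x ≤ PP K g x := by
  refine sum_le_sum fun α hα => ?_
  by_cases h0 : K.κ x α = 0
  · rw [h0, zero_mul, zero_mul]
  · exact mul_le_mul_of_nonneg_left (h _ (n3_act_unit (K.supp x α hα h0))) (K.nonneg x α)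

theorem iter_mono (K : Ker) (t : ℕ) {f g : ℤ → ℝ} (h : ∀ x : ℤ, ¬ (3 : ℤ) ∣ x → f x ≤ g x)
    {x : ℤ} (hx : ¬ (3 : ℤ) ∣ x) : (PP K)^[t] f x ≤ (PP K)^[t] g x := by
  induction t generalizing x with
  | zero => exact h x hx
  | succ t ih =>
    rw [Function.iterate_succ_apply', Function.iterate_succ_apply']
    exact PP_mono K (fun y hy => ih hy) x

/-- On units `PP K 1 = 1` (`K.sum_one`); induction on `t`, using that `κ x α ≠ 0` implies that `act α x` is
a unit. -/
theorem iter_const (K : Ker) (t : ℕ) (c : ℝ) {x : ℤ} (hx : ¬ (3 : ℤ) ∣ x) :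
    (PP K)^[t] (fun _ => c) x = c := by
  induction t generalizing x with
  | zero => rfl
  | succ t ih =>
    rw [Function.iterate_succ_apply', PP]
    have h1 : ∀ α ∈ K.B, K.κ x α * (PP K)^[t] (fun _ => c) (act α x) = K.κ x α * c := by
      intro α hα
      by_cases h0 : K.κ x α = 0
      · rw [h0, zero_mul, zero_mul]
      · rw [ih (n3_act_unit (K.supp x α hα h0))]
    rw [sum_congr rfl h1, ← sum_mul, K.sum_one x hx, one_mul]

/-- From `iter_mono` and `iter_const` applied to `-C ≤ f ≤ C`. -/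
theorem iter_abs (K : Ker) (t : ℕ) {f : ℤ → ℝ} {C : ℝ} (h : ∀ x : ℤ, ¬ (3 : ℤ) ∣ x → |f x| ≤ C)
    {x : ℤ} (hx : ¬ (3 : ℤ) ∣ x) : |(PP K)^[t] f x| ≤ C := by
  rw [abs_le]
  constructor
  · have h1 := iter_mono K t (f := fun _ => -C) (g := f) (fun y hy => (abs_le.1 (h y hy)).1) hx
    rwa [iter_const K t (-C) hx] at h1
  · have h1 := iter_mono K t (f := f) (g := fun _ => C) (fun y hy => (abs_le.1 (h y hy)).2) hx
    rwa [iter_const K t C hx] at h1

/-- `Finset.mul_sum`, `Finset.sum_comm`. -/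
theorem PP_sum (K : Ker) (n : ℕ) (f : ℕ → ℤ → ℝ) (x : ℤ) :
    PP K (fun y => ∑ t ∈ range n, f t y) x = ∑ t ∈ range n, PP K (f t) x := by
  simp only [PP, mul_sum]
  exact sum_comm

end Pool.Agent.Lib.MP_d0d59f_nt.GE

/-! Row N4 (about 40 lines): limits along the hyperfilter. -/

namespace Pool.Agent.Lib.MP_d0d59f_nt.GE

open Filter Topology

/-- Limit along the hyperfilter of `ℕ`. -/
noncomputable def ulim (a : ℕ → ℝ) : ℝ := limUnder (hyperfilter ℕ : Filter ℕ) a

/-- `[-C, C]` is compact: `isCompact_Icc.ultrafilter_le_nhds` applied to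
`Ultrafilter.map a (hyperfilter ℕ)` gives a limit, then `tendsto_nhds_limUnder`. -/
theorem ulim_tendsto {a : ℕ → ℝ} {C : ℝ} (h : ∀ n, |a n| ≤ C) :
    Tendsto a (hyperfilter ℕ : Filter ℕ) (𝓝 (ulim a)) := by
  have h1 : (Ultrafilter.map a (hyperfilter ℕ) : Filter ℝ) ≤ 𝓟 (Set.Icc (-C) C) := by
    rw [le_principal_iff, Ultrafilter.mem_coe, Ultrafilter.mem_map]
    exact Filter.Eventually.of_forall fun n => abs_le.1 (h n)
  obtain ⟨l, _, hl⟩ := isCompact_Icc.ultrafilter_le_nhds (Ultrafilter.map a (hyperfilter ℕ)) h1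
  exact tendsto_nhds_limUnder ⟨l, hl⟩

/-- `hyperfilter_le_cofinite`, `Nat.cofinite_eq_atTop`; `Tendsto.limUnder_eq`. -/
theorem ulim_of_tendsto {a : ℕ → ℝ} {l : ℝ} (h : Tendsto a atTop (𝓝 l)) : ulim a = l := by
  have h1 : Tendsto a (hyperfilter ℕ : Filter ℕ) (𝓝 l) := by
    refine h.mono_left ?_
    rw [← Nat.cofinite_eq_atTop]
    exact hyperfilter_le_cofinite
  exact h1.limUnder_eq

theorem ulim_add {a b : ℕ → ℝ} {C D : ℝ} (ha : ∀ n, |a n| ≤ C) (hb : ∀ n, |b n| ≤ D) :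
    ulim (fun n => a n + b n) = ulim a + ulim b :=
  ((ulim_tendsto ha).add (ulim_tendsto hb)).limUnder_eq

theorem ulim_smul (c : ℝ) {a : ℕ → ℝ} {C : ℝ} (ha : ∀ n, |a n| ≤ C) :
    ulim (fun n => c * a n) = c * ulim a :=
  ((ulim_tendsto ha).const_mul c).limUnder_eq

theorem ulim_mono {a b : ℕ → ℝ} {C D : ℝ} (ha : ∀ n, |a n| ≤ C) (hb : ∀ n, |b n| ≤ D)
    (h : ∀ n, a n ≤ b n) : ulim a ≤ ulim b :=
  le_of_tendsto_of_tendsto' (ulim_tendsto ha) (ulim_tendsto hb) h

end Pool.Agent.Lib.MP_d0d59f_nt.GE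

/-! Row N5 (about 110 lines): the mean attached to a sequence of starting points. -/

namespace Pool.Agent.Lib.MP_d0d59f_nt.GE

open Finset Filter Topology

/-- Cesàro mean of the distribution of the chain started at `x J`. -/
noncomputable def cav (K : Ker) (x : ℕ → ℤ) (f : ℤ → ℝ) (J : ℕ) : ℝ :=
  (∑ t ∈ range (J + 1), (PP K)^[t] f (x J)) / (J + 1)

/-- `iter_abs`. -/
theorem cav_abs (K : Ker) {x : ℕ → ℤ} (hx : ∀ J, ¬ (3 : ℤ) ∣ x J) {f : ℤ → ℝ} {C : ℝ}
    (h : ∀ y, |f y| ≤ C) (J : ℕ) : |cav K x f J| ≤ C := by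
  have hJ : (0 : ℝ) < J + 1 := by positivity
  rw [cav, abs_div, abs_of_pos hJ, div_le_iff₀ hJ]
  calc |∑ t ∈ range (J + 1), (PP K)^[t] f (x J)| ≤ ∑ t ∈ range (J + 1), |(PP K)^[t] f (x J)| :=
        abs_sum_le_sum_abs _ _
    _ ≤ ∑ _t ∈ range (J + 1), C := sum_le_sum fun t _ => iter_abs K t (fun y _ => h y) (hx J)
    _ = C * (J + 1) := by
      rw [sum_const, card_range, nsmul_eq_mul]
      push_cast
      ring

/-- `∑_{t ≤ J} P^t (P f) - ∑_{t ≤ J} P^t f = P^{J+1} f - f` at `x J`, absolute value at most `2 C`.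
(`Function.iterate_succ_apply`, `Finset.sum_range_succ`, `Finset.sum_range_succ'`.) -/
theorem cav_inv (K : Ker) {x : ℕ → ℤ} (hx : ∀ J, ¬ (3 : ℤ) ∣ x J) {f : ℤ → ℝ} {C : ℝ}
    (h : ∀ y, |f y| ≤ C) (J : ℕ) : |cav K x (PP K f) J - cav K x f J| ≤ 2 * C / (J + 1) := by
  have hJ : (0 : ℝ) < J + 1 := by positivity
  have h1 : cav K x (PP K f) J - cav K x f J
      = ((PP K)^[J + 1] f (x J) - (PP K)^[0] f (x J)) / (J + 1) := by
    rw [cav, cav, ← sub_div, ← sum_sub_distrib]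
    congr 1
    rw [← sum_range_sub (fun t => (PP K)^[t] f (x J)) (J + 1)]
    refine sum_congr rfl fun t _ => ?_
    rw [Function.iterate_succ_apply]
  rw [h1, abs_div, abs_of_pos hJ]
  refine div_le_div_of_nonneg_right ?_ hJ.le
  have h2 := iter_abs K (J + 1) (fun y _ => h y) (hx J)
  have h3 := iter_abs K 0 (fun y _ => h y) (hx J)
  calc |(PP K)^[J + 1] f (x J) - (PP K)^[0] f (x J)|
      ≤ |(PP K)^[J + 1] f (x J)| + |(PP K)^[0] f (x J)| := abs_sub _ _
    _ ≤ 2 * C := by linarith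

theorem n5_add (K : Ker) (x : ℕ → ℤ) (f g : ℤ → ℝ) :
    cav K x (fun y => f y + g y) = fun J => cav K x f J + cav K x g J := by
  funext J
  simp only [cav, iter_add]
  rw [sum_add_distrib, add_div]

theorem n5_smul (K : Ker) (x : ℕ → ℤ) (c : ℝ) (f : ℤ → ℝ) :
    cav K x (fun y => c * f y) = fun J => c * cav K x f J := by
  funext J
  simp only [cav, iter_smul]
  rw [← mul_sum, mul_div_assoc]

/-- `Θ f = ulim (cav K x f)`. add, smul: `iter_add`, `iter_smul`, `ulim_add`, `ulim_smul`; mono: `iter_mono`;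
one: `iter_const`; inv: `cav_inv`, `PP_bdd`: the difference tends to `0`. -/
noncomputable def cmean (K : Ker) (x : ℕ → ℤ) (hx : ∀ J, ¬ (3 : ℤ) ∣ x J) : Mean K where
  Θ f := ulim (cav K x f)
  add := by
    intro f g hf hg
    obtain ⟨C, hC⟩ := hf
    obtain ⟨D, hD⟩ := hg
    rw [n5_add]
    exact ulim_add (cav_abs K hx hC) (cav_abs K hx hD)
  smul := by
    intro c f hf
    obtain ⟨C, hC⟩ := hf
    rw [n5_smul]
    exact ulim_smul c (cav_abs K hx hC)
  mono := by
    intro f g hf hg h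
    obtain ⟨C, hC⟩ := hf
    obtain ⟨D, hD⟩ := hg
    refine ulim_mono (cav_abs K hx hC) (cav_abs K hx hD) fun J => ?_
    have hJ : (0 : ℝ) ≤ J + 1 := by positivity
    exact div_le_div_of_nonneg_right (sum_le_sum fun t _ => iter_mono K t h (hx J)) hJ
  one := by
    refine ulim_of_tendsto ?_
    have h1 : cav K x (fun _ => (1 : ℝ)) = fun _ => (1 : ℝ) := by
      funext J
      have hJ : (J : ℝ) + 1 ≠ 0 := by positivity
      rw [cav, sum_congr rfl fun t _ => iter_const K t 1 (hx J), sum_const, card_range, nsmul_eq_mul]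
      push_cast
      rw [mul_one, div_self hJ]
    rw [h1]
    exact tendsto_const_nhds
  inv := by
    intro f hf
    obtain ⟨D, hD⟩ := PP_bdd K hf
    obtain ⟨C, hC⟩ := hf
    have h1 : ulim (fun J => cav K x (PP K f) J + (-1) * cav K x f J) = 0 := by
      refine ulim_of_tendsto ?_
      rw [tendsto_zero_iff_abs_tendsto_zero]
      have h2 : Tendsto (fun J : ℕ => 2 * C / ((J : ℝ) + 1)) atTop (𝓝 0) :=
        tendsto_const_div_atTop_nhds_zero_nat (2 * C) |>.comp (tendsto_add_atTop_nat 1) |>.congr fun J => by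
          simp only [Function.comp]
          push_cast
          rfl
      refine squeeze_zero (fun J => abs_nonneg _) (fun J => ?_) h2
      have h3 := cav_inv K hx hC J
      have h4 : cav K x (PP K f) J + (-1) * cav K x f J = cav K x (PP K f) J - cav K x f J := by ring
      simp only [Function.comp, h4]
      exact h3
    have h5 : ∀ J, |(-1) * cav K x f J| ≤ C := fun J => by
      rw [abs_mul, abs_neg, abs_one, one_mul]
      exact cav_abs K hx hC J
    rw [ulim_add (cav_abs K hx hD) h5, ulim_smul (-1) (cav_abs K hx hC)] at h1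
    change ulim (cav K x (PP K f)) = ulim (cav K x f)
    have h6 : ulim (cav K x (PP K f)) + -1 * ulim (cav K x f) = 0 := h1
    linarith

/-- `ulim_mono` against the zero sequence. -/
theorem cmean_nonpos (K : Ker) (x : ℕ → ℤ) (hx : ∀ J, ¬ (3 : ℤ) ∣ x J) {f : ℤ → ℝ} (hf : Bdd f)
    (h : ∀ J, ∑ t ∈ range (J + 1), (PP K)^[t] f (x J) ≤ 0) : (cmean K x hx).Θ f ≤ 0 := by
  obtain ⟨C, hC⟩ := hf
  change ulim (cav K x f) ≤ 0
  have h1 : ulim (fun _ => (0 : ℝ)) = 0 := ulim_of_tendsto tendsto_const_nhds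
  rw [← h1]
  refine ulim_mono (cav_abs K hx hC) (D := 0) (fun _ => by simp) fun J => ?_
  exact div_nonpos_of_nonpos_of_nonneg (h J) (by positivity)

end Pool.Agent.Lib.MP_d0d59f_nt.GE
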