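import Pool.Agent.Lib.MP_d0d59f_nt.GE.Loop
import Pool.Agent.Lib.MP_d0d59f_nt.GE.Paths

/-! Row ge_S1: mean entropies and their limits. -/

namespace Pool.Agent.Lib.MP_d0d59f_nt.GE

open Finset Filter Topology

variable {K : Ker}

/-- Mean entropy of `X_N mod 3^k`. -/
noncomputable def eN (m : Mean K) (N k : ℕ) : ℝ := m.Θ (fun b => hh K N b k)

/-- Limit of the mean entropies. -/
noncomputable def eL (m : Mean K) (k : ℕ) : ℝ := ⨆ N, eN m N k

/-- Limit of the mean digit entropies. -/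
noncomputable def dl (m : Mean K) (j : ℕ) : ℝ := eL m (j + 1) - eL m j

/-- (H2): `Θ(hh (1 + N)) ≥ Θ(PN 1 (hh N)) = Θ(hh N)` (`hh_ge`, `Mean.inv_PN`). -/
theorem eN_mono (m : Mean K) (k : ℕ) : Monotone (fun N => eN m N k) := by
  refine monotone_nat_of_le_succ fun N => ?_
  have h1 : m.Θ (PN K 1 (fun x => hh K N x k)) = eN m N k :=
    m.inv_PN (hh_bdd K N k) 1
  have h2 : m.Θ (PN K 1 (fun x => hh K N x k)) ≤ m.Θ (fun b => hh K (1 + N) b k) :=
    m.mono _ _ (PN_bdd K 1 (hh_bdd K N k)) (hh_bdd K (1 + N) k)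
      fun x hx => hh_ge K 1 N hx k
  rw [h1, add_comm 1 N] at h2
  exact h2

theorem eN_le (m : Mean K) (N k : ℕ) : eN m N k ≤ k * Real.log 3 :=
  m.le_const (hh_bdd K N k) _ fun x _ => hh_le K N x k

theorem s1_bddAbove (m : Mean K) (k : ℕ) : BddAbove (Set.range fun N => eN m N k) := by
  refine ⟨k * Real.log 3, ?_⟩
  rintro _ ⟨N, rfl⟩
  exact eN_le m N k

theorem eN_le_eL (m : Mean K) (N k : ℕ) : eN m N k ≤ eL m k :=
  le_ciSup (s1_bddAbove m k) N

theorem tendsto_eN (m : Mean K) (k : ℕ) : Tendsto (fun N => eN m N k) atTop (𝓝 (eL m k)) :=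
  tendsto_atTop_ciSup (eN_mono m k) (s1_bddAbove m k)

theorem tendsto_dg (m : Mean K) (j : ℕ) :
    Tendsto (fun N => m.Θ (fun b => dg K N b j)) atTop (𝓝 (dl m j)) := by
  have h : (fun N => m.Θ (fun b => dg K N b j)) = fun N => eN m N (j + 1) - eN m N j := by
    funext N
    exact m.sub (hh_bdd K N (j + 1)) (hh_bdd K N j)
  rw [h]
  exact (tendsto_eN m (j + 1)).sub (tendsto_eN m j)

theorem dl_nonneg (m : Mean K) (j : ℕ) : 0 ≤ dl m j :=
  ge_of_tendsto' (tendsto_dg m j) fun N => m.nonneg (dg_bdd K N j) fun x _ => dg_nonneg K N x j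

theorem dl_le (m : Mean K) (j : ℕ) : dl m j ≤ Real.log 3 :=
  le_of_tendsto' (tendsto_dg m j) fun N =>
    m.le_const (dg_bdd K N j) _ fun x _ => dg_le K N x j

/-- From `dg_shift`. -/
theorem dl_shift (m : Mean K) {j : ℕ} (hj : 1 ≤ j) (n : ℕ) : dl m (j + n * K.L) ≤ dl m j :=
  le_of_tendsto_of_tendsto' (tendsto_dg m (j + n * K.L))
    ((tendsto_dg m j).comp (tendsto_add_atTop_nat n)) fun N =>
      m.mono _ _ (dg_bdd K N (j + n * K.L)) (dg_bdd K (N + n) j)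
        fun _ hx => dg_shift K N n hx hj

theorem et1_bdd (N n j : ℕ) : Bdd (fun b => et1 K N n b j) :=
  Bdd.sub (Bdd.sub (hh_bdd K (N + n) (j + 2)) (hh_bdd K (N + n) j))
    (Bdd.sub (hh_bdd K N (j + 2 + n * K.L)) (hh_bdd K N (j + n * K.L)))

theorem et3_bdd (N n j : ℕ) : Bdd (fun b => et3 K N n b j) :=
  Bdd.sub (hh_bdd K (N + n) (j + 2)) (PN_bdd K N (hh_bdd K n (j + 2)))

/-- `Θ(η₁) → (δ_j + δ_{j+1}) - (δ_{j+nL} + δ_{j+1+nL})` as `N → ∞`. -/
theorem tendsto_et1 (m : Mean K) (n : ℕ) (j : ℕ) :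
    Tendsto (fun N => m.Θ (fun b => et1 K N n b j)) atTop
      (𝓝 ((dl m j + dl m (j + 1)) - (dl m (j + n * K.L) + dl m (j + 1 + n * K.L)))) := by
  have h : (fun N => m.Θ (fun b => et1 K N n b j)) = fun N =>
      (eN m (N + n) (j + 2) - eN m (N + n) j) -
        (eN m N (j + 2 + n * K.L) - eN m N (j + n * K.L)) := by
    funext N
    have h1 : m.Θ (fun b => hh K (N + n) b (j + 2) - hh K (N + n) b j) =
        eN m (N + n) (j + 2) - eN m (N + n) j :=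
      m.sub (hh_bdd K (N + n) (j + 2)) (hh_bdd K (N + n) j)
    have h2 : m.Θ (fun b => hh K N b (j + 2 + n * K.L) - hh K N b (j + n * K.L)) =
        eN m N (j + 2 + n * K.L) - eN m N (j + n * K.L) :=
      m.sub (hh_bdd K N (j + 2 + n * K.L)) (hh_bdd K N (j + n * K.L))
    rw [← h1, ← h2]
    exact m.sub (Bdd.sub (hh_bdd K (N + n) (j + 2)) (hh_bdd K (N + n) j))
      (Bdd.sub (hh_bdd K N (j + 2 + n * K.L)) (hh_bdd K N (j + n * K.L)))
  have hlim : (dl m j + dl m (j + 1)) - (dl m (j + n * K.L) + dl m (j + 1 + n * K.L)) =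
      (eL m (j + 2) - eL m j) - (eL m (j + 2 + n * K.L) - eL m (j + n * K.L)) := by
    have h3 : j + n * K.L + 1 = j + 1 + n * K.L := by ring
    have h4 : j + 1 + n * K.L + 1 = j + 2 + n * K.L := by ring
    unfold dl
    rw [h3, h4]
    ring
  rw [h, hlim]
  have hs := tendsto_add_atTop_nat n
  exact (((tendsto_eN m (j + 2)).comp hs).sub ((tendsto_eN m j).comp hs)).sub
    ((tendsto_eN m (j + 2 + n * K.L)).sub (tendsto_eN m (j + n * K.L)))

/-- `Θ(η₃) → e(j+2) - e_n(j+2)` as `N → ∞` (`Mean.inv_PN`). -/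
theorem tendsto_et3 (m : Mean K) (n : ℕ) (j : ℕ) :
    Tendsto (fun N => m.Θ (fun b => et3 K N n b j)) atTop
      (𝓝 (eL m (j + 2) - eN m n (j + 2))) := by
  have h : (fun N => m.Θ (fun b => et3 K N n b j)) = fun N =>
      eN m (N + n) (j + 2) - eN m n (j + 2) := by
    funext N
    have h1 : m.Θ (PN K N (fun x => hh K n x (j + 2))) = eN m n (j + 2) :=
      m.inv_PN (hh_bdd K n (j + 2)) N
    rw [← h1]
    exact m.sub (hh_bdd K (N + n) (j + 2)) (PN_bdd K N (hh_bdd K n (j + 2)))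
  rw [h]
  exact ((tendsto_eN m (j + 2)).comp (tendsto_add_atTop_nat n)).sub tendsto_const_nhds

end Pool.Agent.Lib.MP_d0d59f_nt.GE

/-! Row ge_S2: the dichotomy holds for most starting points. -/

namespace Pool.Agent.Lib.MP_d0d59f_nt.GE

open Finset Filter Topology

variable {K : Ker}

/-- A bounded sequence with `δ_{j+L} ≤ δ_j` (`j ≥ 1`): `δ_j - δ_{j+nL} ≤ ε` for all large `j` and all `n`.
(For each residue `r` the sequence `δ_{r+nL}` is nonincreasing and bounded below, hence Cauchy.) -/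
theorem seq_cauchy {δ : ℕ → ℝ} {L : ℕ} (hL : 1 ≤ L) (h0 : ∀ j, 0 ≤ δ j)
    (hs : ∀ j, 1 ≤ j → ∀ n, δ (j + n * L) ≤ δ j) {ε : ℝ} (hε : 0 < ε) :
    ∃ j1, 1 ≤ j1 ∧ ∀ j, j1 ≤ j → ∀ n, δ j - δ (j + n * L) ≤ ε := by
  have hbd : ∀ r : ℕ, BddBelow (Set.range fun n : ℕ => δ (1 + r + n * L)) := fun r =>
    ⟨0, by rintro _ ⟨n, rfl⟩; exact h0 _⟩
  have hex : ∀ r : ℕ, ∃ n : ℕ, δ (1 + r + n * L) < (⨅ n : ℕ, δ (1 + r + n * L)) + ε := fun r =>
    exists_lt_of_ciInf_lt (by linarith)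
  choose N hN using hex
  refine ⟨1 + (∑ r ∈ range L, N r + 1) * L, by omega, fun j hj n => ?_⟩
  obtain ⟨r, m, hr, hjr, hm⟩ : ∃ r m : ℕ, r < L ∧ j = 1 + r + m * L ∧ N r ≤ m := by
    refine ⟨(j - 1) % L, (j - 1) / L, Nat.mod_lt _ hL, ?_, ?_⟩
    · have := Nat.mod_add_div (j - 1) L
      rw [Nat.mul_comm] at this
      omega
    · have h1 : N ((j - 1) % L) ≤ ∑ r ∈ range L, N r :=
        Finset.single_le_sum (f := N) (fun _ _ => Nat.zero_le _)
          (Finset.mem_range.mpr (Nat.mod_lt _ hL))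
      refine h1.trans ((Nat.le_div_iff_mul_le hL).mpr ?_)
      have h2 : (∑ r ∈ range L, N r) * L ≤ (∑ r ∈ range L, N r + 1) * L :=
        Nat.mul_le_mul_right L (Nat.le_succ _)
      omega
  have h1 : δ j ≤ δ (1 + r + N r * L) := by
    have h2 := hs (1 + r + N r * L) (by omega) (m - N r)
    have h3 : 1 + r + N r * L + (m - N r) * L = j := by
      rw [hjr, add_assoc, ← Nat.add_mul, Nat.add_sub_cancel' hm]
    rwa [h3] at h2
  have h4 : (⨅ n : ℕ, δ (1 + r + n * L)) ≤ δ (j + n * L) := by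
    have h5 := ciInf_le (hbd r) (m + n)
    have h6 : 1 + r + (m + n) * L = j + n * L := by
      rw [hjr]
      ring
    simp only [h6] at h5
    exact h5
  have h7 := hN r
  linarith

/-- (K'). Let `η` be the constant of `K_dich ζ`. `seq_cauchy` for `dl m` with `ε = η ζ / 8` gives `j1`. For `j ≥ j1`
choose `n` with `eL (j+2) - eN n (j+2) ≤ η ζ / 4` (`tendsto_eN`). By `tendsto_et1`, `tendsto_et3`, for large `N'`:
`Θ(η₁) ≤ η ζ/2`, `Θ(η₃) ≤ η ζ/2`. If `GoodD` fails at `(N'+n, b, j)` then `η ≤ et1` or `η ≤ et3` (`K_dich`), so by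
`Mean.ind_union`, `Mean.markov` the indicator has mean `≤ ζ`. `N1 = N'_0 + n`. -/
theorem K_prime (m : Mean K) {ζ : ℝ} (hζ : 0 < ζ) : ∃ j1, 1 ≤ j1 ∧ ∀ j, j1 ≤ j →
    ∃ N1, ∀ N, N1 ≤ N → m.Θ (ind fun b => ¬ GoodD K ζ N b j) ≤ ζ := by
  obtain ⟨η, hη, hdich⟩ := K_dich ζ hζ
  have hηζ : 0 < η * ζ := mul_pos hη hζ
  obtain ⟨j1, hj1, hc⟩ := seq_cauchy (δ := dl m) K.hL (dl_nonneg m)
    (fun j hj n => dl_shift m hj n) (show 0 < η * ζ / 8 by positivity)
  refine ⟨j1, hj1, fun j hj => ?_⟩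
  have hj' : 1 ≤ j := hj1.trans hj
  obtain ⟨n, hn⟩ : ∃ n, eL m (j + 2) - eN m n (j + 2) < η * ζ / 2 := by
    have h1 := (tendsto_order.mp (tendsto_eN m (j + 2))).1 (eL m (j + 2) - η * ζ / 2)
      (by linarith)
    obtain ⟨n, hn⟩ := h1.exists
    exact ⟨n, by linarith⟩
  have h2 := hc j hj n
  have h3 := hc (j + 1) (by omega) n
  have e1 := (tendsto_order.mp (tendsto_et1 m n j)).2 (η * ζ / 2) (by linarith)
  have e3 := (tendsto_order.mp (tendsto_et3 m n j)).2 (η * ζ / 2) (by linarith)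
  obtain ⟨N0, hN0⟩ := Filter.eventually_atTop.mp (e1.and e3)
  refine ⟨N0 + n, fun N hN => ?_⟩
  obtain ⟨N', rfl⟩ : ∃ N', N = N' + n := ⟨N - n, by omega⟩
  obtain ⟨h4, h5⟩ := hN0 N' (by omega)
  have hun := m.ind_union (A := fun b => ¬ GoodD K ζ (N' + n) b j)
    (B := fun b => η ≤ et1 K N' n b j) (C := fun b => η ≤ et3 K N' n b j)
    (fun b hb hnot => by
      by_contra hcon
      push Not at hcon
      exact hnot (hdich K N' n b hb j hj' hcon.1.le hcon.2.le))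
  have hm1 := m.markov (et1_bdd N' n j) (fun b hb => et1_nonneg K N' n hb hj') hη
  have hm3 := m.markov (et3_bdd N' n j) (fun b hb => et3_nonneg K N' n hb j) hη
  have h6 : m.Θ (fun b => et1 K N' n b j) / η ≤ ζ / 2 := by
    rw [div_le_iff₀ hη]
    linarith
  have h7 : m.Θ (fun b => et3 K N' n b j) / η ≤ ζ / 2 := by
    rw [div_le_iff₀ hη]
    linarith
  linarith

end Pool.Agent.Lib.MP_d0d59f_nt.GE

/-! Row ge_S3: the limit `D` of the mean digit entropies. -/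

namespace Pool.Agent.Lib.MP_d0d59f_nt.GE

open Finset Filter Topology

variable {K : Ker}

/-- Real sequences: if `0 ≤ δ_j`, `δ_{j+nL} ≤ δ_j` for `j ≥ 1`, and for every `ζ > 0` eventually
`δ_{j+1} ≥ δ_j - ζ`, then `δ` converges to some `D`, and `D ≤ δ_j` for `j ≥ 1`. For each residue `r` modulo `L` the
sequence `δ_{r+nL}` decreases to a limit `D_r`; `D_{r+1} ≥ D_r` (indices modulo `L`), so all `D_r` are equal. -/
theorem seq_limit {δ : ℕ → ℝ} {L : ℕ} (hL : 1 ≤ L) (h0 : ∀ j, 0 ≤ δ j)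
    (hs : ∀ j, 1 ≤ j → ∀ n, δ (j + n * L) ≤ δ j)
    (hm : ∀ ζ : ℝ, 0 < ζ → ∃ j1, ∀ j, j1 ≤ j → δ j - ζ ≤ δ (j + 1)) :
    ∃ D : ℝ, (∀ j, 1 ≤ j → D ≤ δ j) ∧ Tendsto δ atTop (𝓝 D) := by
  have hbd : BddBelow (Set.range fun j : ℕ => δ (j + 1)) :=
    ⟨0, by rintro _ ⟨n, rfl⟩; exact h0 _⟩
  have hD : ∀ j, 1 ≤ j → (⨅ j : ℕ, δ (j + 1)) ≤ δ j := by
    intro j hj
    have h1 := ciInf_le hbd (j - 1)
    simp only [Nat.sub_add_cancel hj] at h1
    exact h1
  refine ⟨⨅ j : ℕ, δ (j + 1), hD, ?_⟩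
  rw [Metric.tendsto_atTop]
  intro ε hε
  obtain ⟨j0, hj0⟩ : ∃ j : ℕ, δ (j + 1) < (⨅ j : ℕ, δ (j + 1)) + ε / 2 :=
    exists_lt_of_ciInf_lt (by linarith)
  have hLr : (0 : ℝ) < L := by exact_mod_cast hL
  obtain ⟨j1, hj1⟩ := hm (ε / (2 * L)) (by positivity)
  have hstep : ∀ k j : ℕ, j1 ≤ j → δ j - k * (ε / (2 * L)) ≤ δ (j + k) := by
    intro k
    induction k with
    | zero => intro j _; simp
    | succ k ih =>
      intro j hj
      have h1 := ih j hj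
      have h2 := hj1 (j + k) (by omega)
      rw [← add_assoc]
      push_cast
      linarith
  refine ⟨j0 + 1 + j1, fun j hj => ?_⟩
  -- the next index in the progression
  obtain ⟨n, k, hk, hjk⟩ : ∃ n k : ℕ, k < L ∧ j + k = j0 + 1 + n * L := by
    refine ⟨(j - (j0 + 1) + (L - 1)) / L, (j0 + 1 + (j - (j0 + 1) + (L - 1)) / L * L) - j, ?_, ?_⟩
    · have h1 := Nat.div_mul_le_self (j - (j0 + 1) + (L - 1)) L
      omega
    · have h1 := Nat.lt_div_mul_add (a := j - (j0 + 1) + (L - 1)) (b := L) (by omega)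
      omega
  have h3 := hstep k j (by omega)
  have h4 := hs (j0 + 1) (by omega) n
  rw [← hjk] at h4
  have h5 : (k : ℝ) * (ε / (2 * L)) ≤ ε / 2 := by
    have h6 : (k : ℝ) ≤ L := by exact_mod_cast hk.le
    calc (k : ℝ) * (ε / (2 * L)) ≤ L * (ε / (2 * L)) := by gcongr
      _ = ε / 2 := by field_simp
  have h7 := hD j (by omega)
  rw [Real.dist_eq, abs_lt]
  constructor
  · linarith
  · linarith

/-- `GoodD` fails or the digit entropy does not drop. -/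
theorem s3_drop (ζ : ℝ) (hζ : 0 ≤ ζ) (N : ℕ) (b : ℤ) (j : ℕ) :
    dg K N b j - dg K N b (j + 1) ≤ ζ + 2 * ind (fun b => ¬ GoodD K ζ N b j) b := by
  have h1 := dg_nonneg K N b (j + 1)
  have h2 := dg_le K N b j
  have h3 : Real.log 3 ≤ 2 := by
    have h4 : Real.log 3 ≤ Real.log 4 := Real.log_le_log (by norm_num) (by norm_num)
    have h5 : Real.log 4 = 2 * Real.log 2 := by
      rw [show (4 : ℝ) = 2 ^ 2 by norm_num, Real.log_pow]
      norm_num
    have h6 := Real.log_two_lt_d9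
    linarith
  unfold ind
  by_cases hG : GoodD K ζ N b j
  · rw [if_neg (not_not.mpr hG)]
    rcases hG with h | ⟨-, h⟩
    · linarith
    · linarith
  · rw [if_pos hG]
    linarith

/-- `δ_{j+1} ≥ δ_j - 3 ζ` for large `j`: where `GoodD K ζ N b j` holds,
`dg (j+1) ≥ dg j - ζ` (case 1: `dg (j+1) ≥ 0 ≥ dg j - ζ`; case 2: `dg (j+1) ≥ log 3 - ζ ≥ dg j - ζ`); elsewhere
`dg (j+1) ≥ dg j - log 3`, `log 3 ≤ 2`. So `Θ(dg N (j+1)) ≥ Θ(dg N j) - ζ - 2 ζ` for large `N` (`K_prime`), and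
`N → ∞` (`tendsto_dg`). -/
theorem dl_almost_mono (m : Mean K) {ζ : ℝ} (hζ : 0 < ζ) :
    ∃ j1, ∀ j, j1 ≤ j → dl m j - 3 * ζ ≤ dl m (j + 1) := by
  obtain ⟨j1, -, hK⟩ := K_prime m hζ
  refine ⟨j1, fun j hj => ?_⟩
  obtain ⟨N1, hN1⟩ := hK j hj
  have hpt : ∀ N, N1 ≤ N → m.Θ (fun b => dg K N b j) - 3 * ζ ≤ m.Θ (fun b => dg K N b (j + 1)) := by
    intro N hN
    have h1 : m.Θ (fun b => dg K N b j - dg K N b (j + 1)) ≤
        m.Θ (fun b => ζ + 2 * ind (fun b => ¬ GoodD K ζ N b j) b) :=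
      m.mono _ _ ((dg_bdd K N j).sub (dg_bdd K N (j + 1)))
        ((Bdd.const ζ).add ((ind_bdd _).smul 2)) (fun b _ => s3_drop ζ hζ.le N b j)
    rw [m.sub (dg_bdd K N j) (dg_bdd K N (j + 1)),
      m.add _ _ (Bdd.const ζ) ((ind_bdd _).smul 2), m.const, m.smul 2 _ (ind_bdd _)] at h1
    have h2 := hN1 N hN
    have h3 : m.Θ (fun x => ind (fun b => ¬ GoodD K ζ N b j) x) ≤ ζ := h2
    linarith
  have hlim1 : Tendsto (fun N => m.Θ (fun b => dg K N b j) - 3 * ζ) atTop (𝓝 (dl m j - 3 * ζ)) :=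
    (tendsto_dg m j).sub_const _
  exact le_of_tendsto_of_tendsto hlim1 (tendsto_dg m (j + 1))
    (Filter.eventually_atTop.mpr ⟨N1, hpt⟩)

theorem exists_D (m : Mean K) : ∃ D : ℝ, (∀ j, 1 ≤ j → D ≤ dl m j) ∧
    Tendsto (dl m) atTop (𝓝 D) := by
  refine seq_limit K.hL (dl_nonneg m) (fun j hj n => dl_shift m hj n) fun ζ hζ => ?_
  obtain ⟨j1, h⟩ := dl_almost_mono m (show 0 < ζ / 3 by positivity)
  refine ⟨j1, fun j hj => ?_⟩
  have := h j hj
  linarith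

/-- Consecutive digit entropies are close for most `b`: with `x = dg N (j+1) - dg N j`,
`|x| = x + 2 max (-x) 0`, `max (-x) 0 ≤ ζ' + 2 · 1_{¬GoodD ζ'}`, `Θ(x) → δ_{j+1} - δ_j`, which is small for large `j`
(`exists_D`). -/
theorem osc_small (m : Mean K) {ζ : ℝ} (hζ : 0 < ζ) : ∃ j1, 1 ≤ j1 ∧ ∀ j, j1 ≤ j →
    ∃ N1, ∀ N, N1 ≤ N → m.Θ (fun b => |dg K N b (j + 1) - dg K N b j|) ≤ ζ := by
  have hζ' : 0 < ζ / 12 := by positivity
  obtain ⟨j1, hj1, hK⟩ := K_prime m hζ'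
  obtain ⟨D, hD, hlim⟩ := exists_D m
  obtain ⟨j2, hj2⟩ := Filter.eventually_atTop.mp
    ((tendsto_order.mp hlim).2 (D + ζ / 4) (by linarith))
  refine ⟨max j1 j2, hj1.trans (le_max_left _ _), fun j hj => ?_⟩
  have hj1' : j1 ≤ j := (le_max_left _ _).trans hj
  have hj2' : j2 ≤ j := (le_max_right _ _).trans hj
  obtain ⟨N1, hN1⟩ := hK j hj1'
  have hdl : dl m (j + 1) - dl m j < ζ / 4 := by
    have h1 := hj2 (j + 1) (by omega)
    have h2 := hD j (hj1.trans hj1')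
    linarith
  have hlim2 : Tendsto (fun N => m.Θ (fun b => dg K N b (j + 1)) - m.Θ (fun b => dg K N b j)) atTop
      (𝓝 (dl m (j + 1) - dl m j)) := (tendsto_dg m (j + 1)).sub (tendsto_dg m j)
  obtain ⟨N2, hN2⟩ := Filter.eventually_atTop.mp ((tendsto_order.mp hlim2).2 (ζ / 4) hdl)
  refine ⟨max N1 N2, fun N hN => ?_⟩
  have h3 := hN1 N ((le_max_left _ _).trans hN)
  have h4 := hN2 N ((le_max_right _ _).trans hN)
  have hB1 := (dg_bdd K N (j + 1)).sub (dg_bdd K N j)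
  have hB2 : Bdd (fun b => 2 * (ζ / 12 + 2 * ind (fun b => ¬ GoodD K (ζ / 12) N b j) b)) :=
    ((Bdd.const (ζ / 12)).add ((ind_bdd _).smul 2)).smul 2
  have h5 : m.Θ (fun b => |dg K N b (j + 1) - dg K N b j|) ≤
      m.Θ (fun b => (dg K N b (j + 1) - dg K N b j) +
        2 * (ζ / 12 + 2 * ind (fun b => ¬ GoodD K (ζ / 12) N b j) b)) := by
    refine m.mono _ _ hB1.abs (hB1.add hB2) fun b _ => ?_
    have h6 := s3_drop (K := K) (ζ / 12) hζ'.le N b j
    have h7 : 0 ≤ ind (fun b => ¬ GoodD K (ζ / 12) N b j) b := by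
      unfold ind
      split_ifs
      · exact zero_le_one
      · exact le_rfl
    rcases abs_cases (dg K N b (j + 1) - dg K N b j) with ⟨h, _⟩ | ⟨h, _⟩
    · rw [h]
      linarith
    · rw [h]
      linarith
  rw [m.add _ _ hB1 hB2, m.sub (dg_bdd K N (j + 1)) (dg_bdd K N j),
    m.smul 2 _ ((Bdd.const (ζ / 12)).add ((ind_bdd _).smul 2)),
    m.add _ _ (Bdd.const (ζ / 12)) ((ind_bdd _).smul 2), m.const, m.smul 2 _ (ind_bdd _)] at h5
  have h8 : m.Θ (fun x => ind (fun b => ¬ GoodD K (ζ / 12) N b j) x) ≤ ζ / 12 := h3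
  linarith

end Pool.Agent.Lib.MP_d0d59f_nt.GE

/-! Row ge_S5a: few points with a small digit entropy. -/

namespace Pool.Agent.Lib.MP_d0d59f_nt.GE

open Finset Filter Topology

variable {K : Ker}

theorem s5a_tele (a : ℕ → ℝ) {i W : ℕ} (hi : i ≤ W) :
    |a i - a 0| ≤ ∑ t ∈ range W, |a (t + 1) - a t| := by
  rw [← Finset.sum_range_sub a i]
  refine (Finset.abs_sum_le_sum_abs _ _).trans ?_
  exact Finset.sum_le_sum_of_subset_of_nonneg (Finset.range_mono hi) fun _ _ _ => abs_nonneg _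

/-- For a window length `W` and `ζ > 0`: for all large `n` there is `N0` such that for `N ≥ N0`, writing
`B b = dg N b (1 + nL)` and `c1` the constant of `window`,
`Θ(1_{B ≤ c1/2}) ≤ (2/c1) (ε_W + 2 ζ)`, `ε_W = (1/W) ∑_{i<W} (δ_{1+i} - D)`.
Proof: for every unit `b` (`window` at `N + n`):
`c1 ≤ (1/W) ∑_i dg (N+n) b (1+i) = B + (1/W) ∑_i (dg N b (1+i+nL) - B) + (1/W) ∑_i (dg (N+n) b (1+i) - dg N b (1+i+nL))`.
The last mean is `≥ 0` (`dg_shift`) and its `Θ` tends (`N → ∞`) to `(1/W) ∑_i (δ_{1+i} - δ_{1+i+nL}) ≤ ε_W`; the middle one is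
at most `(1/W) ∑_i ∑_{t<i} |dg N (1+t+1+nL) - dg N (1+t+nL)|`, of mean `≤ ζ` for `n` large, `N` large
(`osc_small` with `ζ / W`). Markov for the sum `≥ c1/2`. -/
theorem small_window (m : Mean K) {D : ℝ} (hD : ∀ j, 1 ≤ j → D ≤ dl m j) {c1 : ℝ}
    (hc1 : 0 < c1) {W : ℕ} (hW : 1 ≤ W)
    (hwin : ∃ N0, ∀ N, N0 ≤ N → ∀ b : ℤ, ¬ (3 : ℤ) ∣ b → c1 * W ≤ ∑ i ∈ range W, dg K N b (1 + i))
    {ζ : ℝ} (hζ : 0 < ζ) :
    ∃ n0, ∀ n, n0 ≤ n → ∃ N0, ∀ N, N0 ≤ N →
      m.Θ (ind fun b => dg K N b (1 + n * K.L) ≤ c1 / 2) ≤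
        2 / c1 * ((∑ i ∈ range W, (dl m (1 + i) - D)) / W + 2 * ζ) := by
  have hW0 : (0 : ℝ) < W := by exact_mod_cast hW
  obtain ⟨Nw, hNw⟩ := hwin
  obtain ⟨j1, -, hosc⟩ := osc_small m (div_pos hζ hW0)
  refine ⟨j1, fun n hn => ?_⟩
  set J : ℕ := 1 + n * K.L with hJ
  have hJn : j1 ≤ J := by
    have := Nat.le_mul_of_pos_right n K.hL
    omega
  have ev1 : ∀ᶠ N in atTop, ∀ t ∈ range W,
      m.Θ (fun b => |dg K N b (J + t + 1) - dg K N b (J + t)|) ≤ ζ / W := by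
    rw [Filter.eventually_all_finset]
    intro t _
    obtain ⟨N1, hN1⟩ := hosc (J + t) (by omega)
    exact eventually_atTop.2 ⟨N1, hN1⟩
  have hb2 : ∀ N, ∀ i ∈ range W, Bdd (fun x => dg K (N + n) x (1 + i) - dg K N x (J + i)) :=
    fun N i _ => (dg_bdd K _ _).sub (dg_bdd K _ _)
  have hlim : Tendsto (fun N => m.Θ (fun x => ∑ i ∈ range W, (dg K (N + n) x (1 + i) - dg K N x (J + i))))
      atTop (𝓝 (∑ i ∈ range W, (dl m (1 + i) - dl m (J + i)))) := by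
    have e1 : (fun N => m.Θ (fun x => ∑ i ∈ range W, (dg K (N + n) x (1 + i) - dg K N x (J + i)))) =
        fun N => ∑ i ∈ range W, (m.Θ (fun x => dg K (N + n) x (1 + i)) - m.Θ (fun x => dg K N x (J + i))) := by
      funext N
      rw [m.sum (range W) (fun i x => dg K (N + n) x (1 + i) - dg K N x (J + i)) (hb2 N)]
      exact Finset.sum_congr rfl fun i _ => m.sub (dg_bdd K _ _) (dg_bdd K _ _)
    rw [e1]
    refine tendsto_finsetSum _ fun i _ => ?_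
    exact ((tendsto_dg m (1 + i)).comp (tendsto_add_atTop_nat n)).sub (tendsto_dg m (J + i))
  have hlt : ∑ i ∈ range W, (dl m (1 + i) - dl m (J + i)) < (∑ i ∈ range W, (dl m (1 + i) - D)) + W * ζ := by
    have h1 : ∑ i ∈ range W, (dl m (1 + i) - dl m (J + i)) ≤ ∑ i ∈ range W, (dl m (1 + i) - D) :=
      Finset.sum_le_sum fun i _ => sub_le_sub_left (hD (J + i) (by omega)) _
    have h2 : 0 < (W : ℝ) * ζ := mul_pos hW0 hζ
    linarith
  have ev2 := hlim.eventually_lt_const hlt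
  have ev3 : ∀ᶠ N in atTop, Nw ≤ N := eventually_ge_atTop Nw
  obtain ⟨N0, hN0⟩ := eventually_atTop.1 (ev1.and (ev2.and ev3))
  refine ⟨N0, fun N hN => ?_⟩
  obtain ⟨g1, g2, g3⟩ := hN0 N hN
  set f1 : ℤ → ℝ := fun x => ∑ t ∈ range W, |dg K N x (J + t + 1) - dg K N x (J + t)| with hf1
  set f2 : ℤ → ℝ := fun x => ∑ i ∈ range W, (dg K (N + n) x (1 + i) - dg K N x (J + i)) with hf2
  have hbf : ∀ t ∈ range W, Bdd (fun x => |dg K N x (J + t + 1) - dg K N x (J + t)|) :=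
    fun t _ => ((dg_bdd K _ _).sub (dg_bdd K _ _)).abs
  have hB1 : Bdd f1 := Bdd.sum hbf
  have hB2 : Bdd f2 := Bdd.sum (hb2 N)
  have hB : Bdd (fun x => (W : ℝ) * f1 x + f2 x) := (hB1.smul (W : ℝ)).add hB2
  have hf1n : ∀ x, 0 ≤ f1 x := fun x => Finset.sum_nonneg fun _ _ => abs_nonneg _
  have hf2n : ∀ x : ℤ, ¬ (3 : ℤ) ∣ x → 0 ≤ f2 x := by
    intro x hx
    refine Finset.sum_nonneg fun i _ => ?_
    have h1 := dg_shift K N n hx (j := 1 + i) (by omega)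
    have h2 : 1 + i + n * K.L = J + i := by omega
    rw [h2] at h1
    linarith
  have hΘ1 : m.Θ f1 ≤ ζ := by
    rw [hf1, m.sum (range W) (fun t x => |dg K N x (J + t + 1) - dg K N x (J + t)|) hbf]
    refine (Finset.sum_le_sum g1).trans (le_of_eq ?_)
    rw [Finset.sum_const, Finset.card_range, nsmul_eq_mul]
    field_simp
  have hΘ : m.Θ (fun x => (W : ℝ) * f1 x + f2 x) = W * m.Θ f1 + m.Θ f2 := by
    rw [m.add _ _ (hB1.smul (W : ℝ)) hB2, m.smul (W : ℝ) f1 hB1]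
  have hkey : ∀ x : ℤ, ¬ (3 : ℤ) ∣ x → dg K N x J ≤ c1 / 2 → c1 * W / 2 ≤ (W : ℝ) * f1 x + f2 x := by
    intro x hx hle
    have h1 := hNw (N + n) (by omega) x hx
    have h2 : ∑ i ∈ range W, dg K (N + n) x (1 + i) = f2 x + ∑ i ∈ range W, dg K N x (J + i) := by
      rw [hf2, ← Finset.sum_add_distrib]
      exact Finset.sum_congr rfl fun i _ => by ring
    have h3 : ∑ i ∈ range W, dg K N x (J + i) ≤ ∑ _i ∈ range W, (c1 / 2 + f1 x) := by
      refine Finset.sum_le_sum fun i hi => ?_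
      have h4 := s5a_tele (fun t => dg K N x (J + t)) (Finset.mem_range.1 hi).le
      have h5 : dg K N x (J + i) - dg K N x J ≤ f1 x := (le_abs_self _).trans h4
      linarith
    rw [Finset.sum_const, Finset.card_range, nsmul_eq_mul] at h3
    rw [h2] at h1
    nlinarith
  have hpos : 0 < c1 * W / 2 := by positivity
  have hmk := m.markov hB (fun x hx => add_nonneg (mul_nonneg hW0.le (hf1n x)) (hf2n x hx)) hpos
  have hle : m.Θ (ind fun b => dg K N b J ≤ c1 / 2) ≤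
      m.Θ (ind fun x => c1 * W / 2 ≤ (W : ℝ) * f1 x + f2 x) := by
    refine m.mono _ _ (ind_bdd _) (ind_bdd _) fun x hx => ?_
    unfold ind
    by_cases h : dg K N x J ≤ c1 / 2
    · rw [if_pos h, if_pos (hkey x hx h)]
    · rw [if_neg h]
      split_ifs
      · exact zero_le_one
      · exact le_rfl
  refine (hle.trans hmk).trans ?_
  rw [hΘ, div_le_iff₀ hpos]
  have e2 : 2 / c1 * ((∑ i ∈ range W, (dl m (1 + i) - D)) / W + 2 * ζ) * (c1 * W / 2) =
      (∑ i ∈ range W, (dl m (1 + i) - D)) + 2 * ζ * W := by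
    field_simp
  rw [e2]
  have g2' : m.Θ f2 < (∑ i ∈ range W, (dl m (1 + i) - D)) + W * ζ := g2
  nlinarith

end Pool.Agent.Lib.MP_d0d59f_nt.GE

/-! Row ge_S5b: `D = log 3`. -/

namespace Pool.Agent.Lib.MP_d0d59f_nt.GE

open Finset Filter Topology

variable {K : Ker}

theorem s5b_log : Real.log 3 ≤ 2 := by
  have h4 : Real.log 3 ≤ Real.log 4 := Real.log_le_log (by norm_num) (by norm_num)
  have h5 : Real.log 4 = 2 * Real.log 2 := by
    rw [show (4 : ℝ) = 2 ^ 2 by norm_num, Real.log_pow]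
    norm_num
  have h6 := Real.log_two_lt_d9
  linarith

/-- pointwise lower bound of the digit entropy -/
theorem s5b_pt {c ζ : ℝ} (hζ : 0 ≤ ζ) (hc : ζ < c) (N : ℕ) (b : ℤ) (j : ℕ) :
    Real.log 3 - ζ - 2 * ind (fun b => dg K N b j ≤ c) b -
      2 * ind (fun b => ¬ GoodD K ζ N b j) b ≤ dg K N b j := by
  have h1 := dg_nonneg K N b j
  have h3 := s5b_log
  unfold ind
  by_cases hA : dg K N b j ≤ c
  · rw [if_pos hA]
    split_ifs
    · linarith
    · linarith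
  · rw [if_neg hA]
    by_cases hG : GoodD K ζ N b j
    · rw [if_neg (not_not.mpr hG)]
      rcases hG with h | ⟨h, -⟩
      · exact absurd (h.trans hc.le) hA
      · linarith
    · rw [if_pos hG]
      linarith

/-- `D ≥ log 3`. Take `c1, W0` from `window`, `W ≥ W0`, `ζ ∈ (0, c1/2)`, `j' = 1 + nL` with `n` large. For large `N`, outside a
set of mean `≤ ζ + (2/c1)(ε_W + 2ζ)`, `dg N b j' > c1/2 > ζ` and `GoodD` (`K_prime`), so `dg N b j' ≥ log 3 - ζ`. Hence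
`Θ(dg N j') ≥ (log 3 - ζ)(1 - ζ - (2/c1)(ε_W + 2 ζ))` (if `ζ ≤ log 3`); `N → ∞`, `n → ∞`: the same bound for `D`. Then `ζ → 0` and
`W → ∞` with `ε_W → 0` (Cesàro, `δ_j → D`). -/
theorem D_ge (m : Mean K) {D : ℝ} (hD : ∀ j, 1 ≤ j → D ≤ dl m j)
    (hlim : Tendsto (dl m) atTop (𝓝 D)) : Real.log 3 ≤ D := by
  obtain ⟨c1, hc1, W0, hwin⟩ := window K
  refine le_of_forall_pos_le_add fun ε hε => ?_
  obtain ⟨ζ, hζ, hζc, hζε⟩ : ∃ ζ : ℝ, 0 < ζ ∧ ζ < c1 / 2 ∧ 3 * ζ + 12 * ζ / c1 ≤ ε := by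
    refine ⟨min (c1 / 4) (ε / (3 + 12 / c1)), lt_min (by positivity) (by positivity),
      lt_of_le_of_lt (min_le_left _ _) (by linarith), ?_⟩
    have h1 : min (c1 / 4) (ε / (3 + 12 / c1)) ≤ ε / (3 + 12 / c1) := min_le_right _ _
    have h2 : (0 : ℝ) < 3 + 12 / c1 := by positivity
    rw [le_div_iff₀ h2] at h1
    calc 3 * min (c1 / 4) (ε / (3 + 12 / c1)) + 12 * min (c1 / 4) (ε / (3 + 12 / c1)) / c1
        = min (c1 / 4) (ε / (3 + 12 / c1)) * (3 + 12 / c1) := by ring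
      _ ≤ ε := h1
  -- the window length
  have hces : Tendsto (fun W : ℕ => (∑ i ∈ range W, (dl m (1 + i) - D)) / W) atTop (𝓝 0) := by
    have h1 : Tendsto (fun i => dl m (1 + i) - D) atTop (𝓝 0) := by
      have h2 : Tendsto (fun i => dl m (1 + i)) atTop (𝓝 D) :=
        hlim.comp (tendsto_add_atTop_nat 1 |>.congr fun n => by rw [add_comm])
      simpa using h2.sub_const D
    have h3 := h1.cesaro
    refine h3.congr fun W => ?_
    rw [div_eq_inv_mul]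
  obtain ⟨W1, hW1⟩ := Filter.eventually_atTop.mp ((tendsto_order.mp hces).2 ζ hζ)
  obtain ⟨W, hW, hW0, hWζ⟩ : ∃ W : ℕ, 1 ≤ W ∧ W0 ≤ W ∧
      (∑ i ∈ range W, (dl m (1 + i) - D)) / W < ζ :=
    ⟨max 1 (max W0 W1), le_max_left _ _, (le_max_left _ _).trans (le_max_right _ _),
      hW1 _ ((le_max_right _ _).trans (le_max_right _ _))⟩
  obtain ⟨n0, hn0⟩ := small_window m hD hc1 hW (hwin W hW0) hζ
  obtain ⟨j1, -, hK⟩ := K_prime m hζ
  -- the bound for the digit entropies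
  have hL := K.hL
  have hmain : ∀ n, n0 + j1 ≤ n → Real.log 3 - ε ≤ dl m (1 + n * K.L) := by
    intro n hn
    have hj : j1 ≤ 1 + n * K.L := by
      have := Nat.le_mul_of_pos_right n hL
      omega
    obtain ⟨N1, hN1⟩ := hn0 n (by omega)
    obtain ⟨N2, hN2⟩ := hK (1 + n * K.L) hj
    refine ge_of_tendsto (tendsto_dg m (1 + n * K.L))
      (Filter.eventually_atTop.mpr ⟨max N1 N2, fun N hN => ?_⟩)
    have h1 := hN1 N ((le_max_left _ _).trans hN)
    have h2 := hN2 N ((le_max_right _ _).trans hN)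
    have hBA : Bdd (fun b => 2 * ind (fun b => dg K N b (1 + n * K.L) ≤ c1 / 2) b) :=
      (ind_bdd _).smul 2
    have hBG : Bdd (fun b => 2 * ind (fun b => ¬ GoodD K ζ N b (1 + n * K.L)) b) :=
      (ind_bdd _).smul 2
    have h3 : m.Θ (fun b => (Real.log 3 - ζ) -
        2 * ind (fun b => dg K N b (1 + n * K.L) ≤ c1 / 2) b -
        2 * ind (fun b => ¬ GoodD K ζ N b (1 + n * K.L)) b) ≤
        m.Θ (fun b => dg K N b (1 + n * K.L)) :=
      m.mono _ _ (((Bdd.const _).sub hBA).sub hBG) (dg_bdd K N _)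
        (fun b _ => s5b_pt hζ.le hζc N b _)
    rw [m.sub ((Bdd.const _).sub hBA) hBG, m.sub (Bdd.const _) hBA, m.const,
      m.smul 2 _ (ind_bdd _), m.smul 2 _ (ind_bdd _)] at h3
    have h4 : m.Θ (fun x => ind (fun b => dg K N b (1 + n * K.L) ≤ c1 / 2) x) ≤
        2 / c1 * ((∑ i ∈ range W, (dl m (1 + i) - D)) / W + 2 * ζ) := h1
    have h5 : m.Θ (fun x => ind (fun b => ¬ GoodD K ζ N b (1 + n * K.L)) x) ≤ ζ := h2
    have h6 : 2 / c1 * ((∑ i ∈ range W, (dl m (1 + i) - D)) / W + 2 * ζ) ≤ 6 * ζ / c1 := by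
      calc 2 / c1 * ((∑ i ∈ range W, (dl m (1 + i) - D)) / W + 2 * ζ)
          ≤ 2 / c1 * (ζ + 2 * ζ) := by gcongr
        _ = 6 * ζ / c1 := by ring
    have h7 : 12 * ζ / c1 = 2 * (6 * ζ / c1) := by ring
    linarith
  have hsub : Tendsto (fun n => dl m (1 + n * K.L)) atTop (𝓝 D) := by
    refine hlim.comp (Filter.tendsto_atTop_mono (fun n => ?_) tendsto_id)
    have := Nat.le_mul_of_pos_right n hL
    simp only [id]
    omega
  have hfin := ge_of_tendsto hsub (Filter.eventually_atTop.mpr ⟨n0 + j1, hmain⟩)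
  linarith

theorem dl_eq (m : Mean K) {j : ℕ} (hj : 1 ≤ j) : dl m j = Real.log 3 := by
  obtain ⟨D, hD, hlim⟩ := exists_D m
  exact le_antisymm (dl_le m j) ((D_ge m hD hlim).trans (hD j hj))

end Pool.Agent.Lib.MP_d0d59f_nt.GE

/-! Row ge_S9: Theorem E. -/

namespace Pool.Agent.Lib.MP_d0d59f_nt.GE

open Finset Filter Topology

variable {K : Ker}

/-- `Θ(k log 3 - (hh N (k+1) - hh N 1)) → 0`: `dl_eq` for `j = 1..k` and `tendsto_eN`. -/
theorem defect_tendsto (m : Mean K) (k : ℕ) :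
    Tendsto (fun N => m.Θ (fun b => (k : ℝ) * Real.log 3 - (hh K N b (k + 1) - hh K N b 1)))
      atTop (𝓝 0) := by
  have h1 : ∀ N, m.Θ (fun b => (k : ℝ) * Real.log 3 - (hh K N b (k + 1) - hh K N b 1)) =
      (k : ℝ) * Real.log 3 - (eN m N (k + 1) - eN m N 1) := by
    intro N
    rw [m.sub (Bdd.const _) (Bdd.sub (hh_bdd K N (k + 1)) (hh_bdd K N 1)), m.const,
      m.sub (hh_bdd K N (k + 1)) (hh_bdd K N 1)]
    rfl
  simp_rw [h1]
  have h2 : ∀ k : ℕ, eL m (k + 1) - eL m 1 = (k : ℝ) * Real.log 3 := by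
    intro k
    induction k with
    | zero => simp
    | succ k ih =>
      have h3 := dl_eq m (j := k + 1) (by omega)
      unfold dl at h3
      push_cast
      linarith
  have h3 : Tendsto (fun N => (k : ℝ) * Real.log 3 - (eN m N (k + 1) - eN m N 1)) atTop
      (𝓝 ((k : ℝ) * Real.log 3 - (eL m (k + 1) - eL m 1))) :=
    tendsto_const_nhds.sub ((tendsto_eN m (k + 1)).sub (tendsto_eN m 1))
  rw [h2 k, sub_self] at h3
  exact h3

theorem bdd_of_periodic {k : ℕ} {f : ℤ → ℝ}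
    (hf : ∀ x y : ℤ, x ≡ y [ZMOD 3 ^ k] → f x = f y) : Bdd f := by
  refine ⟨∑ i ∈ Finset.range (3 ^ k), |f (i : ℤ)|, fun x => ?_⟩
  have hpos : (0 : ℤ) < 3 ^ k := by positivity
  have h1 : x ≡ x % 3 ^ k [ZMOD 3 ^ k] := (Int.mod_modEq x _).symm
  have h2 : 0 ≤ x % 3 ^ k := Int.emod_nonneg x hpos.ne'
  have h3 : x % 3 ^ k < 3 ^ k := Int.emod_lt_of_pos x hpos
  obtain ⟨i, hi⟩ := Int.eq_ofNat_of_zero_le h2
  rw [hf x _ h1, hi]
  have h4 : i < 3 ^ k := by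
    rw [hi] at h3
    exact_mod_cast h3
  exact Finset.single_le_sum (f := fun i : ℕ => |f (i : ℤ)|) (fun j _ => abs_nonneg _)
    (Finset.mem_range.mpr h4)

/-- `√t ≤ δ + t/δ`. -/
theorem s9_sqrt {t δ : ℝ} (ht : 0 ≤ t) (hδ : 0 < δ) : √t ≤ δ + t / δ := by
  rw [Real.sqrt_le_iff]
  constructor
  · positivity
  · have h1 : 0 ≤ t / δ := by positivity
    have h2 : δ * (t / δ) = t := by field_simp
    nlinarith [sq_nonneg (t / δ), sq_nonneg δ]

theorem s9_defect_nonneg (K : Ker) (N k : ℕ) (b : ℤ) :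
    0 ≤ (k : ℝ) * Real.log 3 - (hh K N b (k + 1) - hh K N b 1) := by
  induction k with
  | zero => simp
  | succ k ih =>
    have h3 := dg_le K N b (k + 1)
    unfold dg at h3
    push_cast
    linarith

/-- THEOREM E. Apply `Θ` to `PN_near` (`Θ (PN N f) = Θ f`), with `√t ≤ δ + t/δ` (`t ≥ 0`, `δ > 0`):
`|Θ f - ∑_c Θ(1_c) avg_c f| ≤ 2 C (δ + Θ(defect)/δ)`; `N → ∞` (`defect_tendsto`), `δ → 0`. -/
theorem theoremE (m : Mean K) (k : ℕ) (f : ℤ → ℝ)
    (hf : ∀ x y : ℤ, x ≡ y [ZMOD 3 ^ (k + 1)] → f x = f y) :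
    m.Θ f = m.Θ (fun x => if x % 3 = 1 then 1 else 0) * avg k 1 f +
      m.Θ (fun x => if x % 3 = 2 then 1 else 0) * avg k 2 f := by
  obtain ⟨C, hC⟩ := bdd_of_periodic hf
  have hC0 : 0 ≤ C := (abs_nonneg _).trans (hC 0)
  have hfb : Bdd f := ⟨C, hC⟩
  have hb : ∀ c : ℤ, Bdd (fun x : ℤ => if x % 3 = c then (1 : ℝ) else 0) := by
    intro c
    refine ⟨1, fun x => ?_⟩
    dsimp only
    split_ifs <;> simp
  set I1 : ℤ → ℝ := fun x => if x % 3 = 1 then 1 else 0 with hI1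
  set I2 : ℤ → ℝ := fun x => if x % 3 = 2 then 1 else 0 with hI2
  have hb1 : Bdd I1 := hb 1
  have hb2 : Bdd I2 := hb 2
  set Q : ℝ := m.Θ I1 * avg k 1 f + m.Θ I2 * avg k 2 f with hQ
  set df : ℕ → ℤ → ℝ := fun N b => (k : ℝ) * Real.log 3 - (hh K N b (k + 1) - hh K N b 1)
    with hdf
  have hdfb : ∀ N, Bdd (df N) := fun N =>
    Bdd.sub (Bdd.const _) (Bdd.sub (hh_bdd K N (k + 1)) (hh_bdd K N 1))
  -- the bound for every `N` and `δ`
  have key : ∀ N : ℕ, ∀ δ : ℝ, 0 < δ → |m.Θ f - Q| ≤ 2 * C * (δ + m.Θ (df N) / δ) := by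
    intro N δ hδ
    set A : ℤ → ℝ := fun b => PN K N I1 b * avg k 1 f + PN K N I2 b * avg k 2 f with hA
    have hp1 : Bdd (PN K N I1) := PN_bdd K N hb1
    have hp2 : Bdd (PN K N I2) := PN_bdd K N hb2
    have hA1 : Bdd (fun b => PN K N I1 b * avg k 1 f) := Bdd.mul hp1 (Bdd.const _)
    have hA2 : Bdd (fun b => PN K N I2 b * avg k 2 f) := Bdd.mul hp2 (Bdd.const _)
    have hAb : Bdd A := Bdd.add hA1 hA2
    have hΘA : m.Θ A = Q := by
      rw [hA, m.add _ _ hA1 hA2, hQ]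
      have e1 : (fun b => PN K N I1 b * avg k 1 f) = fun b => avg k 1 f * PN K N I1 b := by
        funext b
        ring
      have e2 : (fun b => PN K N I2 b * avg k 2 f) = fun b => avg k 2 f * PN K N I2 b := by
        funext b
        ring
      rw [e1, e2, m.smul _ _ hp1, m.smul _ _ hp2, m.inv_PN hb1, m.inv_PN hb2]
      ring
    have hΘf : m.Θ (PN K N f) = m.Θ f := m.inv_PN hfb N
    have hPf : Bdd (PN K N f) := PN_bdd K N hfb
    have hdiff : m.Θ f - Q = m.Θ (fun b => PN K N f b - A b) := by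
      rw [m.sub hPf hAb, hΘf, hΘA]
    have hR : Bdd (fun b => 2 * C * (δ + δ⁻¹ * df N b)) :=
      Bdd.smul _ (Bdd.add (Bdd.const δ) (Bdd.smul _ (hdfb N)))
    have hΘR : m.Θ (fun b => 2 * C * (δ + δ⁻¹ * df N b)) = 2 * C * (δ + m.Θ (df N) / δ) := by
      rw [m.smul _ _ (Bdd.add (Bdd.const δ) (Bdd.smul _ (hdfb N))),
        m.add _ _ (Bdd.const δ) (Bdd.smul _ (hdfb N)), m.const, m.smul _ _ (hdfb N)]
      ring
    have hpt : ∀ b : ℤ, ¬ (3 : ℤ) ∣ b → |PN K N f b - A b| ≤ 2 * C * (δ + δ⁻¹ * df N b) := by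
      intro b hb3
      have h5 := PN_near (K := K) (N := N) hb3 k hf hC
      have h6 := s9_sqrt (s9_defect_nonneg K N k b) hδ
      refine h5.trans ?_
      refine mul_le_mul_of_nonneg_left ?_ (by positivity)
      refine h6.trans (le_of_eq ?_)
      rw [hdf]
      ring
    have hS : Bdd (fun b => PN K N f b - A b) := Bdd.sub hPf hAb
    rw [hdiff, abs_le, ← hΘR]
    constructor
    · have h7 := m.mono (fun b => (-1) * (2 * C * (δ + δ⁻¹ * df N b)))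
        (fun b => PN K N f b - A b) (Bdd.smul _ hR) hS (fun b hb3 => by
          have := (abs_le.mp (hpt b hb3)).1
          linarith)
      rw [m.smul _ _ hR] at h7
      linarith
    · exact m.mono _ _ hS hR fun b hb3 => (abs_le.mp (hpt b hb3)).2
  -- `N → ∞`
  have key2 : ∀ δ : ℝ, 0 < δ → |m.Θ f - Q| ≤ 2 * C * δ := by
    intro δ hδ
    have h8 : Tendsto (fun N => 2 * C * (δ + m.Θ (df N) / δ)) atTop
        (𝓝 (2 * C * (δ + 0 / δ))) :=
      ((defect_tendsto m k).div_const δ |>.const_add δ).const_mul (2 * C)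
    rw [zero_div, add_zero] at h8
    exact ge_of_tendsto' h8 fun N => key N δ hδ
  have key3 : |m.Θ f - Q| ≤ 0 := by
    refine le_of_forall_pos_le_add fun ε hε => ?_
    rw [zero_add]
    refine (key2 (ε / (2 * C + 1)) (by positivity)).trans ?_
    rw [mul_div_assoc', div_le_iff₀ (by positivity)]
    nlinarith
  have := abs_nonpos_iff.mp key3
  linarith

end Pool.Agent.Lib.MP_d0d59f_nt.GE
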