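import Pool.Agent.Lib.MP_d0d59f_nt.GE.Defs

/-! Row ge_G1: finite facts: cycles in `ℤ/9`, the function `x ↦ ∑ x - ∑ x² / ∑ x`. -/

namespace Pool.Agent.Lib.MP_d0d59f_nt.GE

open Finset

theorem g1_inj : ∀ u : ZMod 9, u.val % 3 = 1 → ∀ z z' : ZMod 9, u * z = u * z' → z = z' := by
  decide

theorem g1_bij (u v : ZMod 9) (hu : u.val % 3 = 1) : Function.Bijective (fun z : ZMod 9 => u * z + v) :=
  Finite.injective_iff_bijective.1 fun _ _ h => g1_inj u hu _ _ (add_right_cancel h)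

theorem g1_three : ∀ u : ZMod 9, u.val % 3 = 1 → ∀ v : ZMod 9, v.val % 3 ≠ 0 → ∀ z : ZMod 9,
    u * (u * (u * z + v) + v) + v ≠ z := by
  decide

theorem g1_nine : ∀ u : ZMod 9, u.val % 3 = 1 → ∀ v : ZMod 9, ∀ z : ZMod 9,
    u * (u * (u * (u * (u * (u * (u * (u * (u * z + v) + v) + v) + v) + v) + v) + v) + v) + v = z := by
  decide

/-- the orbit of a point has nine elements -/
theorem g1_orbit (u v : ZMod 9) (hu : u.val % 3 = 1) (hv : v.val % 3 ≠ 0) (z : ZMod 9) :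
    Function.Bijective (fun i : Fin 9 => (fun z : ZMod 9 => u * z + v)^[i.val] z) := by
  have h9 : Function.IsPeriodicPt (fun z : ZMod 9 => u * z + v) 9 z := g1_nine u hu v z
  have h3 : ¬ Function.IsPeriodicPt (fun z : ZMod 9 => u * z + v) 3 z := g1_three u hu v hv z
  have hinj := (g1_bij u v hu).injective
  have key : ∀ i j : ℕ, i < j → j < 9 →
      (fun z : ZMod 9 => u * z + v)^[i] z ≠ (fun z : ZMod 9 => u * z + v)^[j] z := by
    intro i j hij hj h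
    have h1 : (fun z : ZMod 9 => u * z + v)^[j] z
        = (fun z : ZMod 9 => u * z + v)^[i] ((fun z : ZMod 9 => u * z + v)^[j - i] z) := by
      rw [← Function.iterate_add_apply]
      congr 2
      omega
    rw [h1] at h
    have h2 : Function.IsPeriodicPt (fun z : ZMod 9 => u * z + v) (j - i) z := (hinj.iterate i h).symm
    have h4 := h2.gcd h9
    apply h3
    have h5 : Nat.gcd (j - i) 9 ∣ 3 := by
      have h6 : 0 < j - i := by omega
      have h7 : j - i < 9 := by omega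
      interval_cases (j - i) <;> decide
    exact h4.trans_dvd h5
  have hinj2 : Function.Injective (fun i : Fin 9 => (fun z : ZMod 9 => u * z + v)^[i.val] z) := by
    intro i j hij
    by_contra hne
    rcases lt_or_gt_of_ne (fun h => hne (Fin.ext h) : i.val ≠ j.val) with h | h
    · exact key _ _ h j.isLt hij
    · exact key _ _ h i.isLt hij.symm
  exact (Fintype.bijective_iff_injective_and_card _).2 ⟨hinj2, by simp [ZMod.card]⟩

theorem g1_step (u v : ZMod 9) (hu : u.val % 3 = 1) (P : ZMod 9 → ℝ) (i : ℕ) :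
    ∑ z, |P z - P ((fun z : ZMod 9 => u * z + v)^[i] z)| ≤ i * ∑ z, |P (u * z + v) - P z| := by
  induction i with
  | zero => simp
  | succ i ih =>
    have h1 : ∑ z, |P ((fun z : ZMod 9 => u * z + v)^[i] z) - P ((fun z : ZMod 9 => u * z + v)^[i + 1] z)|
        = ∑ z, |P (u * z + v) - P z| := by
      rw [← ((g1_bij u v hu).iterate i).sum_comp (fun z => |P (u * z + v) - P z|)]
      refine sum_congr rfl fun z _ => ?_
      rw [Function.iterate_succ_apply', abs_sub_comm]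
    calc ∑ z, |P z - P ((fun z : ZMod 9 => u * z + v)^[i + 1] z)|
        ≤ ∑ z, (|P z - P ((fun z : ZMod 9 => u * z + v)^[i] z)|
            + |P ((fun z : ZMod 9 => u * z + v)^[i] z) - P ((fun z : ZMod 9 => u * z + v)^[i + 1] z)|) :=
          sum_le_sum fun z _ => abs_sub_le _ _ _
      _ ≤ i * ∑ z, |P (u * z + v) - P z| + ∑ z, |P (u * z + v) - P z| := by
          rw [sum_add_distrib, h1]
          exact add_le_add ih le_rfl
      _ = ((i + 1 : ℕ) : ℝ) * ∑ z, |P (u * z + v) - P z| := by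
          push_cast
          ring

/-- An affine map `h z = u z + v` of `ℤ/9` with `u ≡ 1 mod 3`, `v ≢ 0 mod 3` is a 9-cycle, and for every
`P : ZMod 9 → ℝ` of sum `S`: `∑_z |P z - S/9| ≤ 4 ∑_z |P (h z) - P z|`. For each `z` the orbit
`h^i z`, `i < 9`, runs over `ZMod 9` (decide over `u, v`), `|P (h^i z) - P z| ≤ ∑_{t<i} |P (h^{t+1} z) - P (h^t z)|`
and summing over `z` (`h` bijective) `∑_z |P (h^i z) - P z| ≤ i D`; average over `i < 9`. -/
theorem cycle_bound (u v : ZMod 9) (hu : u.val % 3 = 1) (hv : v.val % 3 ≠ 0) (P : ZMod 9 → ℝ) :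
    ∑ z, |P z - (∑ w, P w) / 9| ≤ 4 * ∑ z, |P (u * z + v) - P z| := by
  have h1 : ∀ z, |P z - (∑ w, P w) / 9| ≤ (∑ i : Fin 9, |P z - P ((fun z : ZMod 9 => u * z + v)^[i.val] z)|) / 9 := by
    intro z
    have h2 : ∑ i : Fin 9, P ((fun z : ZMod 9 => u * z + v)^[i.val] z) = ∑ w, P w :=
      (g1_orbit u v hu hv z).sum_comp P
    have h3 : P z - (∑ w, P w) / 9 = (∑ i : Fin 9, (P z - P ((fun z : ZMod 9 => u * z + v)^[i.val] z))) / 9 := by
      rw [sum_sub_distrib, h2, sum_const, card_univ, Fintype.card_fin, nsmul_eq_mul]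
      push_cast
      ring
    rw [h3, abs_div, abs_of_pos (by norm_num : (0 : ℝ) < 9)]
    exact div_le_div_of_nonneg_right (abs_sum_le_sum_abs _ _) (by norm_num)
  have h4 : ∑ z, ∑ i : Fin 9, |P z - P ((fun z : ZMod 9 => u * z + v)^[i.val] z)|
      ≤ 36 * ∑ z, |P (u * z + v) - P z| := by
    rw [sum_comm]
    calc ∑ i : Fin 9, ∑ z, |P z - P ((fun z : ZMod 9 => u * z + v)^[i.val] z)|
        ≤ ∑ i : Fin 9, ((i.val : ℕ) : ℝ) * ∑ z, |P (u * z + v) - P z| :=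
          sum_le_sum fun i _ => g1_step u v hu P i.val
      _ = 36 * ∑ z, |P (u * z + v) - P z| := by
          rw [← sum_mul]
          congr 1
          simp [Fin.sum_univ_succ]
          norm_num
  calc ∑ z, |P z - (∑ w, P w) / 9|
      ≤ ∑ z, (∑ i : Fin 9, |P z - P ((fun z : ZMod 9 => u * z + v)^[i.val] z)|) / 9 := sum_le_sum fun z _ => h1 z
    _ = (∑ z, ∑ i : Fin 9, |P z - P ((fun z : ZMod 9 => u * z + v)^[i.val] z)|) / 9 := by rw [sum_div]
    _ ≤ (36 * ∑ z, |P (u * z + v) - P z|) / 9 := div_le_div_of_nonneg_right h4 (by norm_num)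
    _ = 4 * ∑ z, |P (u * z + v) - P z| := by ring

/-- `u z + v` with `u ≡ 1 mod 3` is a bijection of `ZMod 9` (so sums can be reindexed). -/
theorem sum_affine (u v : ZMod 9) (hu : u.val % 3 = 1) (F : ZMod 9 → ℝ) :
    ∑ z, F (u * z + v) = ∑ z, F z :=
  (g1_bij u v hu).sum_comp F

theorem g1_inv : ∀ u : ZMod 9, u.val % 3 = 1 → ∃ w : ZMod 9, u * w = 1 ∧ w.val % 3 = 1 := by
  decide

theorem g1_mul1 : ∀ u : ZMod 9, u.val % 3 = 1 → ∀ w : ZMod 9, w.val % 3 = 1 → (w * u).val % 3 = 1 := by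
  decide

theorem g1_mul0 : ∀ w : ZMod 9, w.val % 3 = 1 → ∀ v₁ v₂ : ZMod 9, v₁.val % 3 ≠ v₂.val % 3 →
    (w * (v₁ - v₂)).val % 3 ≠ 0 := by
  decide

/-- Two affine maps `g₁, g₂` with `u₁ ≡ u₂ ≡ 1`, `v₁ ≢ v₂ mod 3`: if `Q₁ (g₁ z) = P z` and
`Q₂ (g₂ z) = P z` are the two images of `P`, then `∑ |P z - S/9| ≤ 4 ∑ |Q₁ z - Q₂ z|`; we state it for arbitrary
`R` as triangle inequality: `∑_z |P z - S/9| ≤ 4 (∑_z |P z - R (u₁ z + v₁)| + ∑_z |P z - R (u₂ z + v₂)|)`.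
Proof: `g₂⁻¹ g₁ z = h z` with `h` affine, `u ≡ 1`, `v ≢ 0 mod 3`:
`|P (h z) - P z| ≤ |P (h z) - R (g₂ (h z))| + |R (g₁ z) - P z|`; `cycle_bound`, `sum_affine`. -/
theorem two_maps (u₁ v₁ u₂ v₂ : ZMod 9) (h1 : u₁.val % 3 = 1) (h2 : u₂.val % 3 = 1)
    (hv : v₁.val % 3 ≠ v₂.val % 3) (P R : ZMod 9 → ℝ) :
    ∑ z, |P z - (∑ w, P w) / 9| ≤
      4 * (∑ z, |P z - R (u₁ * z + v₁)| + ∑ z, |P z - R (u₂ * z + v₂)|) := by
  obtain ⟨w, hw, hw3⟩ := g1_inv u₂ h2
  have hc := cycle_bound (w * u₁) (w * (v₁ - v₂)) (g1_mul1 u₁ h1 w hw3) (g1_mul0 w hw3 v₁ v₂ hv) P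
  refine hc.trans (mul_le_mul_of_nonneg_left ?_ (by norm_num))
  have ht : ∀ z, |P (w * u₁ * z + w * (v₁ - v₂)) - P z|
      ≤ |P z - R (u₁ * z + v₁)| +
        |P (w * u₁ * z + w * (v₁ - v₂)) - R (u₂ * (w * u₁ * z + w * (v₁ - v₂)) + v₂)| := by
    intro z
    have h3 : u₂ * (w * u₁ * z + w * (v₁ - v₂)) + v₂ = u₁ * z + v₁ := by
      calc u₂ * (w * u₁ * z + w * (v₁ - v₂)) + v₂ = (u₂ * w) * (u₁ * z + (v₁ - v₂)) + v₂ := by ring
        _ = u₁ * z + v₁ := by rw [hw]; ring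
    rw [h3, abs_sub_comm (P z) (R (u₁ * z + v₁))]
    have h4 := abs_sub_le (P (w * u₁ * z + w * (v₁ - v₂))) (R (u₁ * z + v₁)) (P z)
    linarith
  calc ∑ z, |P (w * u₁ * z + w * (v₁ - v₂)) - P z|
      ≤ ∑ z, (|P z - R (u₁ * z + v₁)| +
        |P (w * u₁ * z + w * (v₁ - v₂)) - R (u₂ * (w * u₁ * z + w * (v₁ - v₂)) + v₂)|) :=
          sum_le_sum fun z _ => ht z
    _ = ∑ z, |P z - R (u₁ * z + v₁)| + ∑ z, |P z - R (u₂ * z + v₂)| := by
          rw [sum_add_distrib, sum_affine (w * u₁) (w * (v₁ - v₂)) (g1_mul1 u₁ h1 w hw3)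
            (fun z => |P z - R (u₂ * z + v₂)|)]

/-- `φ x = ∑ x - (∑ x²)/(∑ x)` on nonnegative vectors in `ℝ^3` (`= ∑_{v≠w} x_v x_w / ∑ x`, `0` at `x = 0`). -/
noncomputable def phi (x : ZMod 3 → ℝ) : ℝ := ∑ v, x v - (∑ v, x v ^ 2) / ∑ v, x v

theorem g1_phi_bound (y : ZMod 3 → ℝ) (hy : ∀ v, 0 ≤ y v) : 0 ≤ phi y ∧ phi y ≤ ∑ v, y v := by
  have hS : 0 ≤ ∑ v, y v := sum_nonneg fun v _ => hy v
  have h1 : ∑ v, y v ^ 2 ≤ (∑ v, y v) ^ 2 := by
    rw [sq, sum_mul]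
    refine sum_le_sum fun v _ => ?_
    rw [sq]
    exact mul_le_mul_of_nonneg_left (single_le_sum (fun w _ => hy w) (mem_univ v)) (hy v)
  have h0 : 0 ≤ ∑ v, y v ^ 2 := sum_nonneg fun v _ => sq_nonneg _
  rcases hS.eq_or_lt with h | h
  · rw [phi, ← h]
    simp
  · constructor
    · rw [phi, sub_nonneg, div_le_iff₀ h, ← sq]
      exact h1
    · rw [phi, sub_le_self_iff]
      exact div_nonneg h0 hS

theorem g1_phi_zero (x y : ZMod 3 → ℝ) (hx : ∀ v, 0 ≤ x v) (hy : ∀ v, 0 ≤ y v) (hS : ∑ v, x v = 0) :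
    |phi x - phi y| ≤ 2 * ∑ v, |x v - y v| := by
  have hx0 : ∀ v, x v = 0 := fun v => (sum_eq_zero_iff_of_nonneg fun w _ => hx w).1 hS v (mem_univ v)
  have h1 : phi x = 0 := by simp [phi, hx0]
  have h2 := g1_phi_bound y hy
  have h3 : ∑ v, |x v - y v| = ∑ v, y v := by
    refine sum_congr rfl fun v _ => ?_
    rw [hx0 v, zero_sub, abs_neg, abs_of_nonneg (hy v)]
  rw [h1, h3, zero_sub, abs_neg, abs_of_nonneg h2.1]
  have h4 : 0 ≤ ∑ v, y v := sum_nonneg fun v _ => hy v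
  linarith [h2.2]

/-- `φ` is `2`-Lipschitz in `L¹`: with `S = ∑ x`, `S' = ∑ y` (both `> 0`), `ρ = ∑ x y / (S S')`:
`φ x - φ y = ∑_v (x_v - y_v) (1 + ρ - x_v/S - y_v/S')`, and the coefficient lies in `[0, 2]`, because
`ρ ≥ s t` for `s = x_v/S`, `t = y_v/S'` in `[0,1]`, so it is `≥ (1-s)(1-t) ≥ 0`. If `S = 0` then `x = 0`, `φ x = 0` and
`0 ≤ φ y ≤ S'`. -/
theorem phi_lip (x y : ZMod 3 → ℝ) (hx : ∀ v, 0 ≤ x v) (hy : ∀ v, 0 ≤ y v) :
    |phi x - phi y| ≤ 2 * ∑ v, |x v - y v| := by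
  have hS : 0 ≤ ∑ v, x v := sum_nonneg fun v _ => hx v
  have hS' : 0 ≤ ∑ v, y v := sum_nonneg fun v _ => hy v
  rcases hS.eq_or_lt with h | h
  · exact g1_phi_zero x y hx hy h.symm
  rcases hS'.eq_or_lt with h' | h'
  · have h1 := g1_phi_zero y x hy hx h'.symm
    rw [abs_sub_comm (phi x)]
    refine h1.trans (le_of_eq ?_)
    congr 1
    exact sum_congr rfl fun v _ => abs_sub_comm _ _
  set S := ∑ v, x v with hSd
  set S' := ∑ v, y v with hSd'
  set r := ∑ v, (x v / S) * (y v / S') with hr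
  have hr0 : ∀ v, 0 ≤ (x v / S) * (y v / S') := fun v => mul_nonneg (div_nonneg (hx v) hS) (div_nonneg (hy v) hS')
  have hx1 : ∀ v, x v / S ≤ 1 := fun v => (div_le_one h).2 (single_le_sum (fun w _ => hx w) (mem_univ v))
  have hy1 : ∀ v, y v / S' ≤ 1 := fun v => (div_le_one h').2 (single_le_sum (fun w _ => hy w) (mem_univ v))
  have hr1 : r ≤ 1 := by
    calc r ≤ ∑ v, (x v / S) * 1 := sum_le_sum fun v _ =>
          mul_le_mul_of_nonneg_left (hy1 v) (div_nonneg (hx v) hS)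
      _ = 1 := by rw [← sum_mul, ← sum_div, mul_one, div_self h.ne']
  have hid : phi x - phi y = ∑ v, (x v - y v) * (1 + r - x v / S - y v / S') := by
    have e1 : ∑ v, x v * (x v / S) = (∑ v, x v ^ 2) / S := by
      rw [sum_div]
      exact sum_congr rfl fun v _ => by ring
    have e2 : ∑ v, y v * (y v / S') = (∑ v, y v ^ 2) / S' := by
      rw [sum_div]
      exact sum_congr rfl fun v _ => by ring
    have e3 : ∑ v, x v * (y v / S') = S * r := by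
      rw [hr, mul_sum]
      refine sum_congr rfl fun v _ => ?_
      field_simp
    have e4 : ∑ v, y v * (x v / S) = S' * r := by
      rw [hr, mul_sum]
      refine sum_congr rfl fun v _ => ?_
      field_simp
    have e5 : ∑ v, (x v - y v) * (1 + r - x v / S - y v / S')
        = (1 + r) * ∑ v, x v - (1 + r) * ∑ v, y v - ∑ v, x v * (x v / S) - ∑ v, x v * (y v / S')
          + ∑ v, y v * (x v / S) + ∑ v, y v * (y v / S') := by
      rw [mul_sum, mul_sum, ← sum_sub_distrib, ← sum_sub_distrib, ← sum_sub_distrib, ← sum_add_distrib, ← sum_add_distrib]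
      exact sum_congr rfl fun v _ => by ring
    rw [e5, e1, e2, e3, e4, ← hSd, ← hSd', phi, phi, ← hSd, ← hSd']
    ring
  rw [hid, mul_sum]
  refine (abs_sum_le_sum_abs _ _).trans (sum_le_sum fun v _ => ?_)
  rw [abs_mul, mul_comm]
  refine mul_le_mul_of_nonneg_right ?_ (abs_nonneg _)
  have hrv : (x v / S) * (y v / S') ≤ r := single_le_sum (fun w _ => hr0 w) (mem_univ v)
  have ha := div_nonneg (hx v) hS
  have hb := div_nonneg (hy v) hS'
  rw [abs_le]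
  constructor
  · nlinarith [hx1 v, hy1 v]
  · linarith

/-- Convexity: for probability vectors `p, q` on `ℤ/3` (`q` of sum `1`, `p` of sum `1`)
`∑_v (∑_d p d q (d + v))² ≤ ∑_v q v²` (Jensen: `(∑ p_d t_d)² ≤ ∑ p_d t_d²`). -/
theorem conv_sq (p q : ZMod 3 → ℝ) (hp : ∀ d, 0 ≤ p d) (hp1 : ∑ d, p d = 1) (hq : ∀ d, 0 ≤ q d) :
    ∑ v, (∑ d, p d * q (d + v)) ^ 2 ≤ ∑ v, q v ^ 2 := by
  have h1 : ∀ v, (∑ d, p d * q (d + v)) ^ 2 ≤ ∑ d, p d * q (d + v) ^ 2 := by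
    intro v
    have h2 := (even_two.convexOn_pow (𝕜 := ℝ)).map_sum_le (t := univ) (w := p) (p := fun d => q (d + v))
      (fun d _ => hp d) hp1 (fun d _ => Set.mem_univ _)
    simpa only [smul_eq_mul] using h2
  calc ∑ v, (∑ d, p d * q (d + v)) ^ 2 ≤ ∑ v, ∑ d, p d * q (d + v) ^ 2 := sum_le_sum fun v _ => h1 v
    _ = ∑ d, ∑ v, p d * q (d + v) ^ 2 := sum_comm
    _ = ∑ d, p d * ∑ v, q v ^ 2 := by
        refine sum_congr rfl fun d _ => ?_
        rw [← mul_sum]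
        congr 1
        exact Equiv.sum_comp (Equiv.addLeft d) (fun v => q v ^ 2)
    _ = ∑ v, q v ^ 2 := by rw [← sum_mul, hp1, one_mul]

end Pool.Agent.Lib.MP_d0d59f_nt.GE
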