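import Pool.Agent.Lib.MP_d0d59f_nt.GE.E4b
import Pool.Agent.Lib.MP_d0d59f_nt.GE.G1

/-! Row ge_G2a: Lemma G, step 1. -/

namespace Pool.Agent.Lib.MP_d0d59f_nt.GE

open Finset

/-- First digit of an element of `ℤ/9`. -/
def d1 (z : ZMod 9) : ZMod 3 := (z.val : ZMod 3)

/-- Mean collision defect of the first digit: `1 - ∑_{c,d} P(c, d)² / P(c)`. -/
noncomputable def sb {ι A : Type*} [Fintype A] (Ω : Finset ι) (p : ι → ℝ) (C : ι → A)
    (Z : ι → ZMod 9) : ℝ :=
  1 - ∑ c : A, ∑ d : ZMod 3, mass Ω p (fun i => (C i, d1 (Z i))) (c, d) ^ 2 / mass Ω p C c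

/-- Mean `L¹` distance of the law of `Z` given `C` from the uniform law. -/
noncomputable def ub {ι A : Type*} [Fintype A] (Ω : Finset ι) (p : ι → ℝ) (C : ι → A)
    (Z : ι → ZMod 9) : ℝ :=
  ∑ c : A, ∑ z : ZMod 9, |mass Ω p (fun i => (C i, Z i)) (c, z) - mass Ω p C c / 9|

theorem g2a_perm1 {α β γ δ ε : Type*} [Fintype α] [Fintype β] [Fintype γ] [Fintype δ] [Fintype ε]
    (F : α → β → γ → δ → ε → ℝ) :
    ∑ a, ∑ b, ∑ c, ∑ d, ∑ e, F a b c d e = ∑ e, ∑ b, ∑ c, ∑ d, ∑ a, F a b c d e := by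
  have l : ∑ a, ∑ b, ∑ c, ∑ d, ∑ e, F a b c d e =
      ∑ x : α × β × γ × δ × ε, F x.1 x.2.1 x.2.2.1 x.2.2.2.1 x.2.2.2.2 := by
    simp only [Fintype.sum_prod_type]
  have r : ∑ e, ∑ b, ∑ c, ∑ d, ∑ a, F a b c d e =
      ∑ x : ε × β × γ × δ × α, F x.2.2.2.2 x.2.1 x.2.2.1 x.2.2.2.1 x.1 := by
    simp only [Fintype.sum_prod_type]
  rw [l, r]
  exact Fintype.sum_equiv
    { toFun := fun x => (x.2.2.2.2, x.2.1, x.2.2.1, x.2.2.2.1, x.1)
      invFun := fun x => (x.2.2.2.2, x.2.1, x.2.2.1, x.2.2.2.1, x.1)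
      left_inv := fun _ => rfl
      right_inv := fun _ => rfl } _ _ (fun _ => rfl)

theorem g2a_perm2 {α β γ δ ε : Type*} [Fintype α] [Fintype β] [Fintype γ] [Fintype δ] [Fintype ε]
    (F : α → β → γ → δ → ε → ℝ) :
    ∑ a, ∑ b, ∑ c, ∑ d, ∑ e, F a b c d e = ∑ e, ∑ a, ∑ c, ∑ d, ∑ b, F a b c d e := by
  have l : ∑ a, ∑ b, ∑ c, ∑ d, ∑ e, F a b c d e =
      ∑ x : α × β × γ × δ × ε, F x.1 x.2.1 x.2.2.1 x.2.2.2.1 x.2.2.2.2 := by
    simp only [Fintype.sum_prod_type]
  have r : ∑ e, ∑ a, ∑ c, ∑ d, ∑ b, F a b c d e =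
      ∑ x : ε × α × γ × δ × β, F x.2.1 x.2.2.2.2 x.2.2.1 x.2.2.2.1 x.1 := by
    simp only [Fintype.sum_prod_type]
  rw [l, r]
  exact Fintype.sum_equiv
    { toFun := fun x => (x.2.2.2.2, x.1, x.2.2.1, x.2.2.2.1, x.2.1)
      invFun := fun x => (x.2.1, x.2.2.2.2, x.2.2.1, x.2.2.2.1, x.1)
      left_inv := fun _ => rfl
      right_inv := fun _ => rfl } _ _ (fun _ => rfl)

theorem g2a_inj : ∀ u z w : ZMod 9, u.val % 3 = 1 → u * z = u * w → z = w := by
  decide

/-- Step 1. From (1) and (2): with `m c z = P(C = c, Z = z) / P(C = c)` and `g = (u, v)`,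
`∑_{c,c',u,v,z} P(c, c', u, v) |m c z - m' c' (u z + v)| ≤ 4 √η`.
`l1_cmi` for (1): `∑ |P(z, (c',u,v), c) - P(z,c) P(c',u,v,c)/P(c)| ≤ 2 √η`; for (2), the variable `Z'` and
`(C,U,V)`; and the event `{Z = z, C = c, C' = c', U = u, V = v}` is the event
`{Z' = u z + v, C = c, C' = c', U = u, V = v}` (`mass_congr`, `V = Z' - U Z`). Reindex the sum over `z'` by
`z' = u z + v` (`sum_affine`; only `u` with `u.val % 3 = 1` have positive mass). -/
theorem g_step1 {ι A : Type*} [Fintype A] {Ω : Finset ι} {p : ι → ℝ} (hp : IsProb Ω p)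
    (C C' : ι → A) (Z Z' U : ι → ZMod 9) (hU : ∀ i ∈ Ω, p i ≠ 0 → (U i).val % 3 = 1) (η : ℝ)
    (h1 : cmi Ω p Z (fun i => (C' i, U i, Z' i - U i * Z i)) C ≤ η)
    (h2 : cmi Ω p Z' (fun i => (C i, U i, Z' i - U i * Z i)) C' ≤ η) :
    ∑ c : A, ∑ c' : A, ∑ u : ZMod 9, ∑ v : ZMod 9, ∑ z : ZMod 9,
      mass Ω p (fun i => (C i, C' i, U i, Z' i - U i * Z i)) (c, c', u, v) *
        |mass Ω p (fun i => (C i, Z i)) (c, z) / mass Ω p C c -
          mass Ω p (fun i => (C' i, Z' i)) (c', u * z + v) / mass Ω p C' c'| ≤ 4 * √η := by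
  set J : A → A → ZMod 9 → ZMod 9 → ZMod 9 → ℝ := fun c c' u v z =>
    mass Ω p (fun i => (Z i, (C' i, U i, Z' i - U i * Z i), C i)) (z, (c', u, v), c) with hJ
  set J' : A → A → ZMod 9 → ZMod 9 → ZMod 9 → ℝ := fun c c' u v z =>
    mass Ω p (fun i => (Z' i, (C i, U i, Z' i - U i * Z i), C' i)) (z, (c, u, v), c') with hJ'
  set T : A → A → ZMod 9 → ZMod 9 → ℝ := fun c c' u v =>
    mass Ω p (fun i => (C i, C' i, U i, Z' i - U i * Z i)) (c, c', u, v) with hT
  set m : A → ZMod 9 → ℝ := fun c z => mass Ω p (fun i => (C i, Z i)) (c, z) / mass Ω p C c with hm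
  set m' : A → ZMod 9 → ℝ := fun c z => mass Ω p (fun i => (C' i, Z' i)) (c, z) / mass Ω p C' c with hm'
  have hT0 : ∀ c c' u v, 0 ≤ T c c' u v := fun c c' u v => mass_nonneg hp.1 _ _
  have b1 : ∑ c, ∑ c', ∑ u, ∑ v, ∑ z, |J c c' u v z - m c z * T c c' u v| ≤ 2 * √η := by
    have h := l1_cmi hp Z (fun i => (C' i, U i, Z' i - U i * Z i)) C
    have h' : 2 * √(cmi Ω p Z (fun i => (C' i, U i, Z' i - U i * Z i)) C) ≤ 2 * √η :=
      mul_le_mul_of_nonneg_left (Real.sqrt_le_sqrt h1) (by norm_num)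
    refine le_trans (le_of_eq ?_) (h.trans h')
    rw [g2a_perm1]
    refine Finset.sum_congr rfl fun z _ => ?_
    simp only [Fintype.sum_prod_type]
    refine Finset.sum_congr rfl fun c' _ => Finset.sum_congr rfl fun u _ => Finset.sum_congr rfl fun v _ =>
      Finset.sum_congr rfl fun c _ => ?_
    have e1 : mass Ω p (fun i => (Z i, C i)) (z, c) = mass Ω p (fun i => (C i, Z i)) (c, z) :=
      mass_congr fun i _ _ => by simp only [Prod.mk.injEq]; tauto
    have e2 : mass Ω p (fun i => ((C' i, U i, Z' i - U i * Z i), C i)) ((c', u, v), c) = T c c' u v :=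
      mass_congr fun i _ _ => by simp only [Prod.mk.injEq]; tauto
    rw [e1, e2]
    congr 1
    simp only [hJ, hm]
    ring
  have b2 : ∑ c, ∑ c', ∑ u, ∑ v, ∑ z, |J' c c' u v z - m' c' z * T c c' u v| ≤ 2 * √η := by
    have h := l1_cmi hp Z' (fun i => (C i, U i, Z' i - U i * Z i)) C'
    have h' : 2 * √(cmi Ω p Z' (fun i => (C i, U i, Z' i - U i * Z i)) C') ≤ 2 * √η :=
      mul_le_mul_of_nonneg_left (Real.sqrt_le_sqrt h2) (by norm_num)
    refine le_trans (le_of_eq ?_) (h.trans h')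
    rw [g2a_perm2]
    refine Finset.sum_congr rfl fun z _ => ?_
    simp only [Fintype.sum_prod_type]
    refine Finset.sum_congr rfl fun c _ => Finset.sum_congr rfl fun u _ => Finset.sum_congr rfl fun v _ =>
      Finset.sum_congr rfl fun c' _ => ?_
    have e1 : mass Ω p (fun i => (Z' i, C' i)) (z, c') = mass Ω p (fun i => (C' i, Z' i)) (c', z) :=
      mass_congr fun i _ _ => by simp only [Prod.mk.injEq]; tauto
    have e2 : mass Ω p (fun i => ((C i, U i, Z' i - U i * Z i), C' i)) ((c, u, v), c') = T c c' u v :=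
      mass_congr fun i _ _ => by simp only [Prod.mk.injEq]; tauto
    rw [e1, e2]
    congr 1
    simp only [hJ', hm']
    ring
  have key : ∀ c c' u v, ∑ z, T c c' u v * |m c z - m' c' (u * z + v)| ≤
      ∑ z, |J c c' u v z - m c z * T c c' u v| + ∑ z, |J' c c' u v z - m' c' z * T c c' u v| := by
    intro c c' u v
    by_cases hu : u.val % 3 = 1
    · rw [← sum_affine u v hu (fun z => |J' c c' u v z - m' c' z * T c c' u v|), ← Finset.sum_add_distrib]
      refine Finset.sum_le_sum fun z _ => ?_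
      have hJJ : J' c c' u v (u * z + v) = J c c' u v z := by
        refine mass_congr fun i _ _ => ?_
        simp only [Prod.mk.injEq]
        constructor
        · rintro ⟨a1, ⟨a2, a3, a4⟩, a5⟩
          refine ⟨?_, ⟨a5, a3, a4⟩, a2⟩
          rw [a3, a1] at a4
          have : u * z = u * Z i := by linear_combination a4
          exact (g2a_inj u z (Z i) hu this).symm
        · rintro ⟨a1, ⟨a2, a3, a4⟩, a5⟩
          refine ⟨?_, ⟨a5, a3, a4⟩, a2⟩
          rw [a3, a1] at a4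
          linear_combination a4
      rw [hJJ]
      have e3 : T c c' u v * |m c z - m' c' (u * z + v)| =
          |(J c c' u v z - m' c' (u * z + v) * T c c' u v) - (J c c' u v z - m c z * T c c' u v)| := by
        rw [← abs_of_nonneg (hT0 c c' u v), ← abs_mul, abs_of_nonneg (hT0 c c' u v)]
        congr 1
        ring
      rw [e3]
      refine (abs_sub _ _).trans ?_
      rw [add_comm]
    · have hT1 : T c c' u v = 0 := by
        refine mass_eq_zero fun i hi hpi h => ?_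
        simp only [Prod.mk.injEq] at h
        exact hu (h.2.2.1 ▸ hU i hi hpi)
      rw [hT1]
      simp only [zero_mul, Finset.sum_const_zero, mul_zero, sub_zero]
      exact add_nonneg (Finset.sum_nonneg fun _ _ => abs_nonneg _) (Finset.sum_nonneg fun _ _ => abs_nonneg _)
  calc ∑ c, ∑ c', ∑ u, ∑ v, ∑ z, T c c' u v * |m c z - m' c' (u * z + v)|
      ≤ ∑ c, ∑ c', ∑ u, ∑ v, (∑ z, |J c c' u v z - m c z * T c c' u v| +
          ∑ z, |J' c c' u v z - m' c' z * T c c' u v|) :=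
        Finset.sum_le_sum fun c _ => Finset.sum_le_sum fun c' _ => Finset.sum_le_sum fun u _ =>
          Finset.sum_le_sum fun v _ => key c c' u v
    _ = (∑ c, ∑ c', ∑ u, ∑ v, ∑ z, |J c c' u v z - m c z * T c c' u v|) +
          ∑ c, ∑ c', ∑ u, ∑ v, ∑ z, |J' c c' u v z - m' c' z * T c c' u v| := by
        simp only [Finset.sum_add_distrib]
    _ ≤ 4 * √η := by linarith

end Pool.Agent.Lib.MP_d0d59f_nt.GE
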