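import Pool.Agent.Lib.MP_d0d59f_nt.GE.G2a

/-! Row ge_G2b: Lemma G, step 2. -/

namespace Pool.Agent.Lib.MP_d0d59f_nt.GE

open Finset

theorem g2b_sq {I : Type*} [Fintype I] (k : I → ZMod 3) (G : I → ℝ) :
    ∑ v : ZMod 3, (∑ g, if k g = v then G g else 0) ^ 2 =
      ∑ g, ∑ g', if k g = k g' then G g * G g' else 0 := by
  have h1 : ∀ v : ZMod 3, (∑ g, if k g = v then G g else 0) ^ 2 =
      ∑ g, ∑ g', if k g = v ∧ k g' = v then G g * G g' else 0 := by
    intro v
    rw [sq, Finset.sum_mul_sum]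
    refine Finset.sum_congr rfl fun g _ => Finset.sum_congr rfl fun g' _ => ?_
    by_cases h : k g = v <;> by_cases h' : k g' = v <;> simp [h, h']
  rw [Finset.sum_congr rfl fun v _ => h1 v, Finset.sum_comm]
  refine Finset.sum_congr rfl fun g _ => ?_
  rw [Finset.sum_comm]
  refine Finset.sum_congr rfl fun g' _ => ?_
  rw [Finset.sum_eq_single (k g)]
  · by_cases h : k g = k g'
    · rw [if_pos ⟨rfl, h.symm⟩, if_pos h]
    · rw [if_neg (fun h' => h h'.2.symm), if_neg h]
  · intro v _ hv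
    rw [if_neg (fun h' => hv h'.1.symm)]
  · intro h
    exact absurd (Finset.mem_univ _) h

theorem g2b_sum {I : Type*} [Fintype I] (k : I → ZMod 3) (G : I → ℝ) :
    ∑ v : ZMod 3, (∑ g, if k g = v then G g else 0) = ∑ g, G g := by
  rw [Finset.sum_comm]
  refine Finset.sum_congr rfl fun g _ => ?_
  simp

theorem g2b_core {I : Type*} [Fintype I] (k : I → ZMod 3) (G D : I → ℝ) (hG : ∀ g, 0 ≤ G g)
    (hD : ∀ g, 0 ≤ D g) (uc : ℝ)
    (h : ∀ g g', G g ≠ 0 → G g' ≠ 0 → k g ≠ k g' → uc ≤ 4 * (D g + D g')) :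
    phi (fun v => ∑ g, if k g = v then G g else 0) * uc ≤ 8 * ∑ g, G g * D g := by
  have hR : 0 ≤ ∑ g, G g * D g := Finset.sum_nonneg fun g _ => mul_nonneg (hG g) (hD g)
  have hS0 : 0 ≤ ∑ g, G g := Finset.sum_nonneg fun g _ => hG g
  rcases hS0.eq_or_lt with hS | hS
  · have hz : ∀ g, G g = 0 := by
      intro g
      have := (Finset.sum_eq_zero_iff_of_nonneg (fun g _ => hG g)).1 hS.symm g (Finset.mem_univ g)
      exact this
    have : phi (fun v => ∑ g, if k g = v then G g else 0) = 0 := by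
      unfold phi
      simp [hz]
    rw [this, zero_mul]
    positivity
  · have hphi : phi (fun v => ∑ g, if k g = v then G g else 0) =
        (∑ g, ∑ g', if k g = k g' then 0 else G g * G g') / ∑ g, G g := by
      unfold phi
      rw [g2b_sum, g2b_sq, eq_div_iff hS.ne', sub_mul, div_mul_cancel₀ _ hS.ne',
        Finset.sum_mul_sum, ← Finset.sum_sub_distrib]
      refine Finset.sum_congr rfl fun g _ => ?_
      rw [← Finset.sum_sub_distrib]
      refine Finset.sum_congr rfl fun g' _ => ?_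
      by_cases h' : k g = k g' <;> simp [h']
    rw [hphi, div_mul_eq_mul_div, div_le_iff₀ hS, Finset.sum_mul]
    have hterm : ∀ g g', (if k g = k g' then 0 else G g * G g') * uc ≤
        4 * (G g * D g * G g' + G g * (G g' * D g')) := by
      intro g g'
      by_cases h' : k g = k g'
      · rw [if_pos h', zero_mul]
        have := hG g; have := hG g'; have := hD g; have := hD g'
        positivity
      · rw [if_neg h']
        by_cases hg : G g = 0
        · simp [hg]
        by_cases hg' : G g' = 0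
        · simp [hg']
        have h2 := mul_le_mul_of_nonneg_left (h g g' hg hg' h') (mul_nonneg (hG g) (hG g'))
        calc G g * G g' * uc ≤ G g * G g' * (4 * (D g + D g')) := h2
          _ = 4 * (G g * D g * G g' + G g * (G g' * D g')) := by ring
    calc ∑ g, (∑ g', if k g = k g' then 0 else G g * G g') * uc
        ≤ ∑ g, ∑ g', 4 * (G g * D g * G g' + G g * (G g' * D g')) := by
          refine Finset.sum_le_sum fun g _ => ?_
          rw [Finset.sum_mul]
          exact Finset.sum_le_sum fun g' _ => hterm g g'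
      _ = 4 * ((∑ g, G g * D g) * (∑ g, G g) + (∑ g, G g) * ∑ g, G g * D g) := by
          rw [Finset.sum_mul_sum, Finset.sum_mul_sum, ← Finset.sum_add_distrib, Finset.mul_sum]
          refine Finset.sum_congr rfl fun g _ => ?_
          rw [← Finset.sum_add_distrib, Finset.mul_sum]
      _ = 8 * (∑ g, G g * D g) * ∑ g, G g := by ring

theorem g2b_mass {ι A : Type*} (Ω : Finset ι) (p : ι → ℝ) (C C' : ι → A) (U V : ι → ZMod 9)
    (c c' : A) (v : ZMod 3) :
    mass Ω p (fun i => (C i, C' i, d1 (V i))) (c, c', v) =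
      ∑ g : ZMod 9 × ZMod 9, if d1 g.2 = v then
        mass Ω p (fun i => (C i, C' i, U i, V i)) (c, c', g.1, g.2) else 0 := by
  unfold mass
  beta_reduce
  have h1 : ∀ (g : ZMod 9 × ZMod 9) (F : ι → ℝ), (if d1 g.2 = v then ∑ i ∈ Ω, F i else 0) =
      ∑ i ∈ Ω, if d1 g.2 = v then F i else 0 := by
    intro g F
    split_ifs <;> simp
  rw [Finset.sum_congr rfl fun g _ => h1 g _, Finset.sum_comm]
  refine Finset.sum_congr rfl fun i _ => ?_
  rw [Finset.sum_eq_single (U i, V i)]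
  · by_cases hC : C i = c <;> by_cases hC' : C' i = c' <;> by_cases hv : d1 (V i) = v <;>
      simp [hC, hC', hv]
  · rintro ⟨a, b⟩ _ hne
    have : ¬ ((C i, C' i, U i, V i) = (c, c', a, b)) := by
      intro h
      simp only [Prod.mk.injEq] at h
      apply hne
      rw [h.2.2.1, h.2.2.2]
    split_ifs <;> rfl
  · intro h
    exact absurd (Finset.mem_univ _) h

/-- Step 2. `∑_{c,c'} φ_{c,c'} u(c) ≤ 32 √η`, where `φ_{c,c'} = phi (v ↦ P(c, c', V ≡ v mod 3))` and
`u(c) = ∑_z |P(z|c) - 1/9|`. Fix `c, c'` and put `G(u,v) = P(c,c',u,v)`, `D(u,v) = ∑_z |m c z - m' c' (u z + v)|`,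
`S = P(c,c') = ∑ G`. `phi = ∑_{g₁,g₂ : v₁ ≢ v₂ mod 3} G(g₁) G(g₂) / S`, by `two_maps` (`P = m c`, `R = m' c'`) `u(c) ≤ 4 (D g₁ + D g₂)` for
such pairs with `G g₁, G g₂ ≠ 0`, so `phi u(c) ≤ 4 ∑ G(g₁)G(g₂)(D g₁ + D g₂)/S ≤ 8 ∑_g G g D g`; sum over `c, c'` and `g_step1`. -/
theorem g_step2 {ι A : Type*} [Fintype A] {Ω : Finset ι} {p : ι → ℝ} (hp : IsProb Ω p)
    (C C' : ι → A) (Z Z' U : ι → ZMod 9) (hU : ∀ i ∈ Ω, p i ≠ 0 → (U i).val % 3 = 1) (η : ℝ)
    (h1 : cmi Ω p Z (fun i => (C' i, U i, Z' i - U i * Z i)) C ≤ η)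
    (h2 : cmi Ω p Z' (fun i => (C i, U i, Z' i - U i * Z i)) C' ≤ η) :
    ∑ c : A, ∑ c' : A,
      phi (fun v => mass Ω p (fun i => (C i, C' i, d1 (Z' i - U i * Z i))) (c, c', v)) *
        ∑ z : ZMod 9, |mass Ω p (fun i => (C i, Z i)) (c, z) / mass Ω p C c - 1 / 9| ≤
      32 * √η := by
  have hstep := g_step1 hp C C' Z Z' U hU η h1 h2
  have hpt : ∀ c c' : A,
      phi (fun v => mass Ω p (fun i => (C i, C' i, d1 (Z' i - U i * Z i))) (c, c', v)) *
        ∑ z : ZMod 9, |mass Ω p (fun i => (C i, Z i)) (c, z) / mass Ω p C c - 1 / 9| ≤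
      8 * ∑ u : ZMod 9, ∑ v : ZMod 9, ∑ z : ZMod 9,
        mass Ω p (fun i => (C i, C' i, U i, Z' i - U i * Z i)) (c, c', u, v) *
        |mass Ω p (fun i => (C i, Z i)) (c, z) / mass Ω p C c -
          mass Ω p (fun i => (C' i, Z' i)) (c', u * z + v) / mass Ω p C' c'| := by
    intro c c'
    have hcore := g2b_core (fun g : ZMod 9 × ZMod 9 => d1 g.2)
      (fun g => mass Ω p (fun i => (C i, C' i, U i, Z' i - U i * Z i)) (c, c', g.1, g.2))
      (fun g => ∑ z : ZMod 9, |mass Ω p (fun i => (C i, Z i)) (c, z) / mass Ω p C c -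
          mass Ω p (fun i => (C' i, Z' i)) (c', g.1 * z + g.2) / mass Ω p C' c'|)
      (fun g => mass_nonneg hp.1 _ _)
      (fun g => Finset.sum_nonneg fun z _ => abs_nonneg _)
      (∑ z : ZMod 9, |mass Ω p (fun i => (C i, Z i)) (c, z) / mass Ω p C c - 1 / 9|)
      (by
        rintro ⟨u₁, v₁⟩ ⟨u₂, v₂⟩ hg hg' hne
        obtain ⟨i, hi, hpi, hie⟩ := exists_of_mass_ne_zero hg
        obtain ⟨j, hj, hpj, hje⟩ := exists_of_mass_ne_zero hg'
        simp only [Prod.mk.injEq] at hie hje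
        have hu1 : u₁.val % 3 = 1 := by rw [← hie.2.2.1]; exact hU i hi hpi
        have hu2 : u₂.val % 3 = 1 := by rw [← hje.2.2.1]; exact hU j hj hpj
        have hv : v₁.val % 3 ≠ v₂.val % 3 := by
          intro h
          apply hne
          show ((v₁.val : ℕ) : ZMod 3) = ((v₂.val : ℕ) : ZMod 3)
          rw [ZMod.natCast_eq_natCast_iff]
          exact h
        have hCpos : 0 < mass Ω p C c := by
          have := mass_pos hp.1 C hi hpi
          rwa [hie.1] at this
        have hsum : ∑ w : ZMod 9, mass Ω p (fun i => (C i, Z i)) (c, w) / mass Ω p C c = 1 := by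
          rw [← Finset.sum_div, sum_mass_snd, div_self hCpos.ne']
        have h3 := two_maps u₁ v₁ u₂ v₂ hu1 hu2 hv
          (fun z => mass Ω p (fun i => (C i, Z i)) (c, z) / mass Ω p C c)
          (fun z => mass Ω p (fun i => (C' i, Z' i)) (c', z) / mass Ω p C' c')
        rw [hsum] at h3
        exact h3)
    have hfun : (fun v : ZMod 3 =>
        mass Ω p (fun i => (C i, C' i, d1 (Z' i - U i * Z i))) (c, c', v)) =
        fun v => ∑ g : ZMod 9 × ZMod 9, if d1 g.2 = v then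
          mass Ω p (fun i => (C i, C' i, U i, Z' i - U i * Z i)) (c, c', g.1, g.2) else 0 := by
      funext v
      exact g2b_mass Ω p C C' U (fun i => Z' i - U i * Z i) c c' v
    rw [hfun]
    refine hcore.trans (le_of_eq ?_)
    rw [Fintype.sum_prod_type]
    simp only [Finset.mul_sum]
  calc _ ≤ ∑ c : A, ∑ c' : A, 8 * ∑ u : ZMod 9, ∑ v : ZMod 9, ∑ z : ZMod 9,
        mass Ω p (fun i => (C i, C' i, U i, Z' i - U i * Z i)) (c, c', u, v) *
        |mass Ω p (fun i => (C i, Z i)) (c, z) / mass Ω p C c -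
          mass Ω p (fun i => (C' i, Z' i)) (c', u * z + v) / mass Ω p C' c'| :=
        Finset.sum_le_sum fun c _ => Finset.sum_le_sum fun c' _ => hpt c c'
    _ = 8 * ∑ c : A, ∑ c' : A, ∑ u : ZMod 9, ∑ v : ZMod 9, ∑ z : ZMod 9,
        mass Ω p (fun i => (C i, C' i, U i, Z' i - U i * Z i)) (c, c', u, v) *
        |mass Ω p (fun i => (C i, Z i)) (c, z) / mass Ω p C c -
          mass Ω p (fun i => (C' i, Z' i)) (c', u * z + v) / mass Ω p C' c'| := by
        rw [Finset.mul_sum]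
        refine Finset.sum_congr rfl fun c _ => ?_
        rw [Finset.mul_sum]
    _ ≤ 8 * (4 * √η) := by linarith
    _ = 32 * √η := by ring

end Pool.Agent.Lib.MP_d0d59f_nt.GE
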