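import Pool.Agent.Lib.MP_d0d59f_nt.GE.G2a

/-! Row ge_G2c: Lemma G, step 3. -/

namespace Pool.Agent.Lib.MP_d0d59f_nt.GE

open Finset

theorem g2c_d1 : ∀ u z z' : ZMod 9, u.val % 3 = 1 → d1 (z' - u * z) = d1 z' - d1 z := by
  intro u z z'
  have h : ∀ a b : ZMod 9, d1 (a - b) = d1 a - d1 b := by
    unfold d1
    decide
  have h2 : ∀ u z : ZMod 9, u.val % 3 = 1 → d1 (u * z) = d1 z := by
    unfold d1
    decide
  intro hu
  rw [h, h2 u z hu]

open Classical in
theorem g2c_massV {ι A : Type*} {Ω : Finset ι} {p : ι → ℝ}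
    (C C' : ι → A) (Z Z' U : ι → ZMod 9) (hU : ∀ i ∈ Ω, p i ≠ 0 → (U i).val % 3 = 1)
    (c c' : A) (v : ZMod 3) :
    mass Ω p (fun i => (C i, C' i, d1 (Z' i - U i * Z i))) (c, c', v) =
      ∑ z : ZMod 9, ∑ z' : ZMod 9, if d1 z' = d1 z + v then
        mass Ω p (fun i => ((C i, Z i), (C' i, Z' i))) ((c, z), (c', z')) else 0 := by
  have e : ∀ z z' : ZMod 9, (if d1 z' = d1 z + v then
        mass Ω p (fun i => ((C i, Z i), (C' i, Z' i))) ((c, z), (c', z')) else 0) =
      ∑ i ∈ Ω, if d1 z' = d1 z + v ∧ C i = c ∧ C' i = c' ∧ Z i = z ∧ Z' i = z' then p i else 0 := by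
    intro z z'
    unfold mass
    split_ifs with h
    · refine Finset.sum_congr rfl fun i _ => ?_
      simp only [Prod.mk.injEq]
      by_cases h1 : C i = c <;> by_cases h2 : C' i = c' <;> by_cases h3 : Z i = z <;>
        by_cases h4 : Z' i = z' <;> simp [h, h1, h2, h3, h4]
    · symm
      refine Finset.sum_eq_zero fun i _ => ?_
      rw [if_neg (fun hh => h hh.1)]
  simp only [e]
  rw [Finset.sum_congr rfl fun z _ => Finset.sum_comm, Finset.sum_comm]
  unfold mass
  refine Finset.sum_congr rfl fun i hi => ?_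
  rw [Finset.sum_eq_single (Z i), Finset.sum_eq_single (Z' i)]
  · by_cases hp : p i = 0
    · simp [hp]
    · have hd := g2c_d1 (U i) (Z i) (Z' i) (hU i hi hp)
      simp only [Prod.mk.injEq, hd, and_true]
      have e2 : (d1 (Z' i) - d1 (Z i) = v) ↔ (d1 (Z' i) = d1 (Z i) + v) := by
        constructor
        · intro h; rw [← h]; ring
        · intro h; rw [h]; ring
      by_cases h1 : C i = c <;> by_cases h2 : C' i = c' <;>
        by_cases h3 : d1 (Z' i) = d1 (Z i) + v <;> simp [e2, h1, h2, h3]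
  · intro z' _ hz
    rw [if_neg]
    rintro ⟨_, _, _, _, h5⟩
    exact hz h5.symm
  · intro h; exact absurd (Finset.mem_univ _) h
  · intro z _ hz
    refine Finset.sum_eq_zero fun z' _ => ?_
    rw [if_neg]
    rintro ⟨_, _, _, h4, _⟩
    exact hz h4.symm
  · intro h; exact absurd (Finset.mem_univ _) h

open Classical in
theorem g2c_massD {ι A : Type*} {Ω : Finset ι} {p : ι → ℝ}
    (C : ι → A) (Z : ι → ZMod 9) (c : A) (d : ZMod 3) :
    mass Ω p (fun i => (C i, d1 (Z i))) (c, d) =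
      ∑ z : ZMod 9, if d1 z = d then mass Ω p (fun i => (C i, Z i)) (c, z) else 0 := by
  have e : ∀ z : ZMod 9, (if d1 z = d then mass Ω p (fun i => (C i, Z i)) (c, z) else 0) =
      ∑ i ∈ Ω, if d1 z = d ∧ C i = c ∧ Z i = z then p i else 0 := by
    intro z
    unfold mass
    split_ifs with h
    · refine Finset.sum_congr rfl fun i _ => ?_
      simp only [Prod.mk.injEq]
      by_cases h1 : C i = c <;> by_cases h3 : Z i = z <;> simp [h, h1, h3]
    · symm
      refine Finset.sum_eq_zero fun i _ => ?_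
      rw [if_neg (fun hh => h hh.1)]
  simp only [e]
  rw [Finset.sum_comm]
  unfold mass
  refine Finset.sum_congr rfl fun i hi => ?_
  rw [Finset.sum_eq_single (Z i)]
  · simp only [Prod.mk.injEq, and_true]
    by_cases h1 : C i = c <;> by_cases h3 : d1 (Z i) = d <;> simp [h1, h3]
  · intro z _ hz
    rw [if_neg]
    rintro ⟨_, _, h3⟩
    exact hz h3.symm
  · intro h; exact absurd (Finset.mem_univ _) h

open Classical in
theorem g2c_prod {ι A : Type*} {Ω : Finset ι} {p : ι → ℝ}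
    (C C' : ι → A) (Z Z' : ι → ZMod 9) (c c' : A) (v : ZMod 3) :
    ∑ d : ZMod 3, mass Ω p (fun i => (C i, d1 (Z i))) (c, d) *
          mass Ω p (fun i => (C' i, d1 (Z' i))) (c', d + v) =
      ∑ z : ZMod 9, ∑ z' : ZMod 9, if d1 z' = d1 z + v then
        mass Ω p (fun i => (C i, Z i)) (c, z) * mass Ω p (fun i => (C' i, Z' i)) (c', z')
          else 0 := by
  simp only [g2c_massD, Finset.sum_mul_sum]
  rw [Finset.sum_comm]
  refine Finset.sum_congr rfl fun z _ => ?_
  rw [Finset.sum_comm]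
  refine Finset.sum_congr rfl fun z' _ => ?_
  rw [Finset.sum_eq_single (d1 z)]
  · rw [if_pos rfl]
    split_ifs <;> simp
  · intro d _ hd
    rw [if_neg (fun h => hd h.symm), zero_mul]
  · intro h; exact absurd (Finset.mem_univ _) h

/-- Step 3. `V ≡ Z' - Z mod 3` on the support (`U ≡ 1 mod 3`), so by (3) (`l1_mi`)
`∑_{c,c',v} |P(c,c', V ≡ v) - ∑_d P(c,d) P'(c', d + v)| ≤ 2 √η` (`d` = first digit of `Z`; push the `L¹` bound
for `((c,z),(c',z'))` forward). -/
theorem g_step3 {ι A : Type*} [Fintype A] {Ω : Finset ι} {p : ι → ℝ} (hp : IsProb Ω p)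
    (C C' : ι → A) (Z Z' U : ι → ZMod 9) (hU : ∀ i ∈ Ω, p i ≠ 0 → (U i).val % 3 = 1) (η : ℝ)
    (h3 : mi Ω p (fun i => (C i, Z i)) (fun i => (C' i, Z' i)) ≤ η) :
    ∑ c : A, ∑ c' : A, ∑ v : ZMod 3,
      |mass Ω p (fun i => (C i, C' i, d1 (Z' i - U i * Z i))) (c, c', v) -
        ∑ d : ZMod 3, mass Ω p (fun i => (C i, d1 (Z i))) (c, d) *
          mass Ω p (fun i => (C' i, d1 (Z' i))) (c', d + v)| ≤ 2 * √η := by
  classical
  have key := l1_mi hp (fun i => (C i, Z i)) (fun i => (C' i, Z' i))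
  have hs : 2 * √(mi Ω p (fun i => (C i, Z i)) (fun i => (C' i, Z' i))) ≤ 2 * √η :=
    mul_le_mul_of_nonneg_left (Real.sqrt_le_sqrt h3) (by norm_num)
  refine le_trans ?_ (le_trans key hs)
  rw [Fintype.sum_prod_type]
  refine Finset.sum_le_sum fun c _ => ?_
  have e : ∑ z : ZMod 9, ∑ y : A × ZMod 9,
      |mass Ω p (fun i => ((C i, Z i), (C' i, Z' i))) ((c, z), y) -
        mass Ω p (fun i => (C i, Z i)) (c, z) * mass Ω p (fun i => (C' i, Z' i)) y| =
      ∑ c' : A, ∑ z : ZMod 9, ∑ z' : ZMod 9,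
      |mass Ω p (fun i => ((C i, Z i), (C' i, Z' i))) ((c, z), (c', z')) -
        mass Ω p (fun i => (C i, Z i)) (c, z) * mass Ω p (fun i => (C' i, Z' i)) (c', z')| := by
    simp only [Fintype.sum_prod_type]
    rw [Finset.sum_comm]
  rw [e]
  refine Finset.sum_le_sum fun c' _ => ?_
  have step : ∀ v : ZMod 3,
      |mass Ω p (fun i => (C i, C' i, d1 (Z' i - U i * Z i))) (c, c', v) -
        ∑ d : ZMod 3, mass Ω p (fun i => (C i, d1 (Z i))) (c, d) *
          mass Ω p (fun i => (C' i, d1 (Z' i))) (c', d + v)| ≤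
      ∑ z : ZMod 9, ∑ z' : ZMod 9, if d1 z' = d1 z + v then
        |mass Ω p (fun i => ((C i, Z i), (C' i, Z' i))) ((c, z), (c', z')) -
        mass Ω p (fun i => (C i, Z i)) (c, z) * mass Ω p (fun i => (C' i, Z' i)) (c', z')|
          else 0 := by
    intro v
    rw [g2c_massV C C' Z Z' U hU, g2c_prod, ← Finset.sum_sub_distrib]
    refine le_trans (Finset.abs_sum_le_sum_abs _ _) (Finset.sum_le_sum fun z _ => ?_)
    rw [← Finset.sum_sub_distrib]
    refine le_trans (Finset.abs_sum_le_sum_abs _ _) (Finset.sum_le_sum fun z' _ => ?_)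
    split_ifs
    · exact le_rfl
    · simp
  refine le_trans (Finset.sum_le_sum fun v _ => step v) ?_
  rw [Finset.sum_comm]
  refine Finset.sum_le_sum fun z _ => ?_
  rw [Finset.sum_comm]
  refine Finset.sum_le_sum fun z' _ => ?_
  rw [Finset.sum_eq_single (d1 z' - d1 z)]
  · rw [if_pos (by ring)]
  · intro v _ hv
    rw [if_neg]
    intro h
    exact hv (by rw [h]; ring)
  · intro h; exact absurd (Finset.mem_univ _) h

end Pool.Agent.Lib.MP_d0d59f_nt.GE
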