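import Pool.Agent.Lib.MP_d0d59f_nt.GE.G2b
import Pool.Agent.Lib.MP_d0d59f_nt.GE.G2c

/-! Row ge_G2d: Lemma G. -/

namespace Pool.Agent.Lib.MP_d0d59f_nt.GE

open Finset

theorem g2d_phi_zero : phi (fun _ => (0 : ℝ)) = 0 := by
  simp [phi]

/-- Abstract form: `t` is the law of `(c', d)`, `s` that of `(c, d)`. -/
theorem g2d_phi_conv (s t : ZMod 3 → ℝ) (hs : ∀ d, 0 ≤ s d) (ht : ∀ d, 0 ≤ t d) :
    (∑ d, s d) * ((∑ d, t d) - ∑ d, t d ^ 2 / ∑ e, t e) ≤
      phi (fun v => ∑ d, s d * t (d + v)) := by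
  obtain ⟨S, hS⟩ : ∃ S : ℝ, S = ∑ d, s d := ⟨_, rfl⟩
  obtain ⟨T, hT⟩ : ∃ T : ℝ, T = ∑ d, t d := ⟨_, rfl⟩
  rw [← hS, ← hT]
  have hS0 : 0 ≤ S := hS ▸ Finset.sum_nonneg fun d _ => hs d
  have hT0 : 0 ≤ T := hT ▸ Finset.sum_nonneg fun d _ => ht d
  rcases hS0.eq_or_lt with h | hSp
  · have h0 : ∀ d, s d = 0 := by
      intro d
      have := (Finset.sum_eq_zero_iff_of_nonneg (fun d _ => hs d)).1 (hS ▸ h.symm) d
        (Finset.mem_univ d)
      exact this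
    have : (fun v : ZMod 3 => ∑ d, s d * t (d + v)) = fun _ => (0 : ℝ) := by
      funext v
      exact Finset.sum_eq_zero fun d _ => by rw [h0 d, zero_mul]
    rw [this, g2d_phi_zero, ← h, zero_mul]
  rcases hT0.eq_or_lt with h | hTp
  · have h0 : ∀ d, t d = 0 := by
      intro d
      have := (Finset.sum_eq_zero_iff_of_nonneg (fun d _ => ht d)).1 (hT ▸ h.symm) d
        (Finset.mem_univ d)
      exact this
    have : (fun v : ZMod 3 => ∑ d, s d * t (d + v)) = fun _ => (0 : ℝ) := by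
      funext v
      exact Finset.sum_eq_zero fun d _ => by rw [h0 (d + v), mul_zero]
    rw [this, g2d_phi_zero, ← h]
    simp
  have hsum : ∑ v : ZMod 3, ∑ d, s d * t (d + v) = S * T := by
    rw [Finset.sum_comm, hS, hT, Finset.sum_mul]
    refine Finset.sum_congr rfl fun d _ => ?_
    rw [← Finset.mul_sum]
    congr 1
    exact Fintype.sum_equiv (Equiv.addLeft d) _ _ (fun _ => rfl)
  have hconv := conv_sq (fun d => s d / S) (fun d => t d / T)
    (fun d => div_nonneg (hs d) hS0) (by rw [← Finset.sum_div, ← hS, div_self hSp.ne'])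
    (fun d => div_nonneg (ht d) hT0)
  have hsq : ∑ v : ZMod 3, (∑ d, s d * t (d + v)) ^ 2 ≤ S ^ 2 * ∑ v, t v ^ 2 := by
    have e1 : ∀ v : ZMod 3, (∑ d, s d * t (d + v)) ^ 2 =
        (S * T) ^ 2 * (∑ d, s d / S * (t (d + v) / T)) ^ 2 := by
      intro v
      rw [← mul_pow, Finset.mul_sum]
      congr 1
      refine Finset.sum_congr rfl fun d _ => ?_
      field_simp
    rw [Finset.sum_congr rfl fun v _ => e1 v, ← Finset.mul_sum]
    calc (S * T) ^ 2 * ∑ v : ZMod 3, (∑ d, s d / S * (t (d + v) / T)) ^ 2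
        ≤ (S * T) ^ 2 * ∑ v : ZMod 3, (t v / T) ^ 2 :=
          mul_le_mul_of_nonneg_left hconv (by positivity)
      _ = S ^ 2 * ∑ v, t v ^ 2 := by
          rw [Finset.mul_sum, Finset.mul_sum]
          refine Finset.sum_congr rfl fun d _ => ?_
          field_simp
  unfold phi
  rw [hsum]
  have h1 : (∑ v : ZMod 3, (∑ d, s d * t (d + v)) ^ 2) / (S * T) ≤
      (S ^ 2 * ∑ v, t v ^ 2) / (S * T) :=
    div_le_div_of_nonneg_right hsq (by positivity)
  have h2 : (S ^ 2 * ∑ v, t v ^ 2) / (S * T) = S * ∑ d, t d ^ 2 / T := by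
    rw [← Finset.sum_div]
    field_simp
  rw [h2] at h1
  linarith

/-- LEMMA G: `sb * ub ≤ 40 √η`. For fixed `c, c'` let `x v = P(c,c',V ≡ v)`,
`y v = ∑_d P(c,d) P(c',d+v)` (sum `P(c) P(c')`; by (4) `C', Z'` have the masses of `C, Z`). By `conv_sq`
(`p = P(c,·)/P(c)`, `q = P(c',·)/P(c')`): `phi y ≥ P(c) P(c') (1 - ∑_v P(c',v)²/P(c')²) = P(c) P(c') s(c')`.
By `phi_lip` `P(c)P(c') s(c') ≤ phi x + 2 ∑_v |x v - y v|`. Multiply by `u(c) ≤ 2` and sum:
`sb * ub = ∑_{c,c'} P(c) P(c') s(c') u(c) ≤ 32 √η + 2 * 2 * 2 √η = 40 √η` (`∑_{c'} P(c') s(c') = sb`,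
`∑_c P(c) u(c) = ub`). -/
theorem lemmaG {ι A : Type*} [Fintype A] {Ω : Finset ι} {p : ι → ℝ} (hp : IsProb Ω p)
    (C C' : ι → A) (Z Z' U : ι → ZMod 9) (hU : ∀ i ∈ Ω, p i ≠ 0 → (U i).val % 3 = 1) (η : ℝ)
    (h1 : cmi Ω p Z (fun i => (C' i, U i, Z' i - U i * Z i)) C ≤ η)
    (h2 : cmi Ω p Z' (fun i => (C i, U i, Z' i - U i * Z i)) C' ≤ η)
    (h3 : mi Ω p (fun i => (C i, Z i)) (fun i => (C' i, Z' i)) ≤ η)
    (h4 : ∀ a, mass Ω p (fun i => (C i, Z i)) a = mass Ω p (fun i => (C' i, Z' i)) a) :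
    sb Ω p C Z * ub Ω p C Z ≤ 40 * √η := by
  have hs2 := g_step2 hp C C' Z Z' U hU η h1 h2
  have hs3 := g_step3 hp C C' Z Z' U hU η h3
  obtain ⟨x, hx⟩ : ∃ x : A → A → ZMod 3 → ℝ, x = fun c c' v =>
    mass Ω p (fun i => (C i, C' i, d1 (Z' i - U i * Z i))) (c, c', v) := ⟨_, rfl⟩
  obtain ⟨D, hD⟩ : ∃ D : A → ZMod 3 → ℝ, D = fun c d =>
    mass Ω p (fun i => (C i, d1 (Z i))) (c, d) := ⟨_, rfl⟩
  obtain ⟨D', hD'⟩ : ∃ D' : A → ZMod 3 → ℝ, D' = fun c d =>
    mass Ω p (fun i => (C' i, d1 (Z' i))) (c, d) := ⟨_, rfl⟩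
  obtain ⟨M, hM⟩ : ∃ M : A → ZMod 9 → ℝ, M = fun c z =>
    mass Ω p (fun i => (C i, Z i)) (c, z) := ⟨_, rfl⟩
  obtain ⟨m, hm⟩ : ∃ m : A → ℝ, m = fun c => mass Ω p C c := ⟨_, rfl⟩
  have hx0 : ∀ c c' v, 0 ≤ x c c' v := by
    intro c c' v
    rw [hx]
    exact mass_nonneg hp.1 _ _
  have hD0 : ∀ c d, 0 ≤ D c d := by
    intro c d
    rw [hD]
    exact mass_nonneg hp.1 _ _
  have hM0 : ∀ c z, 0 ≤ M c z := by
    intro c z
    rw [hM]
    exact mass_nonneg hp.1 _ _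
  have hm0 : ∀ c, 0 ≤ m c := by
    intro c
    rw [hm]
    exact mass_nonneg hp.1 _ _
  have hDD : ∀ c d, D' c d = D c d := by
    intro c d
    classical
    rw [hD, hD']
    have e1 := mass_comp Ω p (fun i => (C i, Z i)) (fun a : A × ZMod 9 => (a.1, d1 a.2)) (c, d)
    have e2 := mass_comp Ω p (fun i => (C' i, Z' i)) (fun a : A × ZMod 9 => (a.1, d1 a.2)) (c, d)
    simp only at e1 e2 ⊢
    rw [e1, e2]
    refine Finset.sum_congr rfl fun a _ => ?_
    rw [h4 a]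
  have hmD : ∀ c, ∑ d, D c d = m c := by
    intro c
    rw [hD, hm]
    exact sum_mass_snd Ω p C (fun i => d1 (Z i)) c
  have hmM : ∀ c, ∑ z, M c z = m c := by
    intro c
    rw [hM, hm]
    exact sum_mass_snd Ω p C Z c
  have hm1 : ∑ c, m c = 1 := by
    rw [hm]
    exact sum_mass hp C
  obtain ⟨w, hw⟩ : ∃ w : A → ℝ, w = fun c => ∑ z : ZMod 9, |M c z / m c - 1 / 9| := ⟨_, rfl⟩
  obtain ⟨s, hs⟩ : ∃ s : A → ℝ, s = fun c => m c - ∑ d : ZMod 3, D c d ^ 2 / m c := ⟨_, rfl⟩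
  have hw0 : ∀ c, 0 ≤ w c := by
    intro c
    rw [hw]
    exact Finset.sum_nonneg fun z _ => abs_nonneg _
  have hw2 : ∀ c, w c ≤ 2 := by
    intro c
    have e1 : w c ≤ ∑ z : ZMod 9, (M c z / m c + 1 / 9) := by
      rw [hw]
      refine Finset.sum_le_sum fun z _ => ?_
      rw [abs_le]
      have : 0 ≤ M c z / m c := div_nonneg (hM0 c z) (hm0 c)
      constructor <;> linarith
    have e2 : ∑ z : ZMod 9, (M c z / m c + 1 / 9) = (∑ z, M c z) / m c + 1 := by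
      rw [Finset.sum_add_distrib, ← Finset.sum_div, Finset.sum_const, Finset.card_univ,
        ZMod.card]
      norm_num
    rw [e2, hmM] at e1
    have e3 : m c / m c ≤ 1 := div_self_le_one _
    linarith
  have hsb : sb Ω p C Z = ∑ c, s c := by
    rw [hs, Finset.sum_sub_distrib, hm1, hD, hm]
    rfl
  have hub : ub Ω p C Z = ∑ c, m c * w c := by
    have : ub Ω p C Z = ∑ c, ∑ z : ZMod 9, |M c z - m c / 9| := by
      rw [hM, hm]
      rfl
    rw [this, hw]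
    refine Finset.sum_congr rfl fun c _ => ?_
    rw [Finset.mul_sum]
    refine Finset.sum_congr rfl fun z _ => ?_
    rcases (hm0 c).eq_or_lt with h | h
    · have hz : M c z = 0 := by
        have hh := hmM c
        rw [← h] at hh
        exact (Finset.sum_eq_zero_iff_of_nonneg (fun z _ => hM0 c z)).1 hh z
          (Finset.mem_univ z)
      rw [hz, ← h]
      simp
    · rw [← abs_of_pos h, ← abs_mul, abs_of_pos h]
      congr 1
      field_simp
  -- the pointwise inequality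
  have key : ∀ c c', m c * s c' ≤ phi (x c c') + 2 * ∑ v : ZMod 3,
      |x c c' v - ∑ d, D c d * D c' (d + v)| := by
    intro c c'
    have e1 := g2d_phi_conv (D c) (D c') (hD0 c) (hD0 c')
    rw [hmD c, hmD c'] at e1
    have e2 : m c * s c' = m c * (m c' - ∑ d : ZMod 3, D c' d ^ 2 / m c') := by rw [hs]
    rw [← e2] at e1
    have e3 := phi_lip (x c c') (fun v => ∑ d, D c d * D c' (d + v)) (hx0 c c')
      (fun v => Finset.sum_nonneg fun d _ => mul_nonneg (hD0 c d) (hD0 c' _))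
    have e4 := (abs_le.1 e3).1
    linarith
  rw [hsb, hub, Finset.sum_mul_sum]
  have hs2' : ∑ c, ∑ c', phi (x c c') * w c ≤ 32 * √η := by
    rw [hx, hw, hM, hm]
    exact hs2
  have hs3' : ∑ c, ∑ c', ∑ v : ZMod 3, |x c c' v - ∑ d, D c d * D c' (d + v)| ≤ 2 * √η := by
    have e : ∀ c c' (v : ZMod 3), (∑ d, D c d * D c' (d + v)) = ∑ d, D c d * D' c' (d + v) := by
      intro c c' v
      exact Finset.sum_congr rfl fun d _ => by rw [hDD]
    simp only [e]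
    rw [hx, hD, hD']
    exact hs3
  calc ∑ c', ∑ c, s c' * (m c * w c)
      ≤ ∑ c', ∑ c, (phi (x c c') * w c + 4 * ∑ v : ZMod 3,
          |x c c' v - ∑ d, D c d * D c' (d + v)|) := by
        refine Finset.sum_le_sum fun c' _ => Finset.sum_le_sum fun c _ => ?_
        have e1 := mul_le_mul_of_nonneg_right (key c c') (hw0 c)
        have e2 : 0 ≤ ∑ v : ZMod 3, |x c c' v - ∑ d, D c d * D c' (d + v)| :=
          Finset.sum_nonneg fun v _ => abs_nonneg _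
        have e3 := mul_le_mul_of_nonneg_left (hw2 c) e2
        nlinarith
    _ = ∑ c, ∑ c', phi (x c c') * w c + 4 * ∑ c, ∑ c', ∑ v : ZMod 3,
          |x c c' v - ∑ d, D c d * D c' (d + v)| := by
        rw [Finset.sum_comm]
        simp only [Finset.sum_add_distrib, ← Finset.mul_sum]
    _ ≤ 40 * √η := by linarith

end Pool.Agent.Lib.MP_d0d59f_nt.GE
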