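import Pool.Agent.Lib.MP_d0d59f_nt.GE.A1b

/-! Row ge_H1a: paths of blocks. -/

namespace Pool.Agent.Lib.MP_d0d59f_nt.GE

open Finset

theorem mem_wn {B : Finset (List ℕ)} {n : ℕ} {u : List (List ℕ)} :
    u ∈ wn B n ↔ u.length = n ∧ ∀ α ∈ u, α ∈ B := by
  induction n generalizing u with
  | zero =>
    simp only [wn, mem_singleton]
    constructor
    · rintro rfl
      simp
    · rintro ⟨h, -⟩
      exact List.length_eq_zero_iff.1 h
  | succ n ih =>
    simp only [wn, mem_image, mem_product, Prod.exists]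
    constructor
    · rintro ⟨a, β, ⟨h1, h2⟩, rfl⟩
      obtain ⟨h3, h4⟩ := ih.1 h2
      refine ⟨by simp [h3], ?_⟩
      intro b hb
      rcases List.mem_cons.1 hb with rfl | hb
      · exact h1
      · exact h4 b hb
    · rintro ⟨h1, h2⟩
      cases u with
      | nil => simp at h1
      | cons a β =>
        exact ⟨a, β, ⟨h2 a (by simp), ih.2 ⟨by simpa using h1, fun b hb => h2 b (by simp [hb])⟩⟩, rfl⟩

theorem sum_wn_succ {M : Type*} [AddCommMonoid M] (B : Finset (List ℕ)) (n : ℕ)
    (F : List (List ℕ) → M) :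
    ∑ w ∈ wn B (n + 1), F w = ∑ α ∈ B, ∑ v ∈ wn B n, F (α :: v) := by
  have h : wn B (n + 1) = (B ×ˢ wn B n).image fun q => q.1 :: q.2 := rfl
  rw [h, sum_image, sum_product]
  rintro ⟨a, u⟩ - ⟨b, v⟩ - h
  simpa using h

/-- Sum over the paths of `m + n` blocks. -/
theorem sum_wn_add {M : Type*} [AddCommMonoid M] (B : Finset (List ℕ)) (m n : ℕ)
    (F : List (List ℕ) → M) :
    ∑ w ∈ wn B (m + n), F w = ∑ u ∈ wn B m, ∑ v ∈ wn B n, F (u ++ v) := by
  induction m generalizing F with
  | zero =>
    have h : wn B 0 = {[]} := rfl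
    rw [h, Nat.zero_add, sum_singleton]
    rfl
  | succ m ih =>
    have h : m + 1 + n = (m + n) + 1 := by omega
    rw [h, sum_wn_succ, sum_wn_succ]
    refine sum_congr rfl fun α _ => ?_
    rw [ih (fun w => F (α :: w))]
    rfl

theorem run_append (u v : List (List ℕ)) (x : ℤ) : run (u ++ v) x = run v (run u x) := by
  induction u generalizing x with
  | nil => rfl
  | cons α u ih => exact ih _

theorem prb_append (κ : ℤ → List ℕ → ℝ) (u v : List (List ℕ)) (x : ℤ) :
    prb κ (u ++ v) x = prb κ u x * prb κ v (run u x) := by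
  induction u generalizing x with
  | nil => simp [prb, run]
  | cons α u ih =>
    rw [List.cons_append]
    simp only [prb, run]
    rw [ih, mul_assoc]

theorem prb_nonneg (K : Ker) (u : List (List ℕ)) (x : ℤ) : 0 ≤ prb K.κ u x := by
  induction u generalizing x with
  | nil => simp [prb]
  | cons α u ih => exact mul_nonneg (K.nonneg _ _) (ih _)

theorem run_eq (u : List (List ℕ)) (x : ℤ) : run u x = act u.flatten x := by
  induction u generalizing x with
  | nil => rfl
  | cons α u ih =>
    rw [List.flatten_cons, act_append]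
    exact ih _

theorem h1a_valid (K : Ker) (u : List (List ℕ)) (hu : ∀ α ∈ u, α ∈ K.B) {x : ℤ}
    (hx : ¬ (3 : ℤ) ∣ x) (h : prb K.κ u x ≠ 0) : valid u.flatten x := by
  induction u generalizing x with
  | nil => exact hx
  | cons α u ih =>
    simp only [prb] at h
    have h1 : K.κ x α ≠ 0 := left_ne_zero_of_mul h
    have h2 : prb K.κ u (act α x) ≠ 0 := right_ne_zero_of_mul h
    have h3 : valid α x := K.supp x α (hu α (by simp)) h1
    rw [List.flatten_cons, valid_append]
    exact ⟨h3, ih (fun β hβ => hu β (by simp [hβ])) (valid_unit h3).2 h2⟩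

/-- Support: a path of positive probability started at a unit is a valid word. -/
theorem valid_flatten {K : Ker} {n : ℕ} {u : List (List ℕ)} (hu : u ∈ wn K.B n) {x : ℤ}
    (hx : ¬ (3 : ℤ) ∣ x) (h : prb K.κ u x ≠ 0) : valid u.flatten x :=
  h1a_valid K u (mem_wn.1 hu).2 hx h

theorem run_unit {K : Ker} {n : ℕ} {u : List (List ℕ)} (hu : u ∈ wn K.B n) {x : ℤ}
    (hx : ¬ (3 : ℤ) ∣ x) (h : prb K.κ u x ≠ 0) : ¬ (3 : ℤ) ∣ run u x := by
  rw [run_eq]
  exact (valid_unit (valid_flatten hu hx h)).2

theorem h1a_len (K : Ker) (u : List (List ℕ)) (hu : ∀ α ∈ u, α ∈ K.B) :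
    u.flatten.length = u.length * K.L := by
  induction u with
  | nil => simp
  | cons α u ih =>
    rw [List.flatten_cons, List.length_append, ih (fun β hβ => hu β (by simp [hβ])),
      K.len α (hu α (by simp)), List.length_cons]
    ring

theorem flatten_length {K : Ker} {n : ℕ} {u : List (List ℕ)} (hu : u ∈ wn K.B n) :
    u.flatten.length = n * K.L := by
  obtain ⟨h1, h2⟩ := mem_wn.1 hu
  rw [h1a_len K u h2, h1]

theorem h1a_even (K : Ker) (u : List (List ℕ)) (hu : ∀ α ∈ u, α ∈ K.B) :
    Even u.flatten.sum := by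
  induction u with
  | nil => simp
  | cons α u ih =>
    rw [List.flatten_cons, List.sum_append]
    exact (K.even α (hu α (by simp))).add (ih (fun β hβ => hu β (by simp [hβ])))

theorem flatten_even {K : Ker} {n : ℕ} {u : List (List ℕ)} (hu : u ∈ wn K.B n) :
    Even u.flatten.sum := h1a_even K u (mem_wn.1 hu).2

theorem h1a_sum_le (M : ℕ) (w : List ℕ) (h : ∀ a ∈ w, a ≤ M) : w.sum ≤ w.length * M := by
  induction w with
  | nil => simp
  | cons a w ih =>
    rw [List.sum_cons, List.length_cons]
    have h1 := h a (by simp)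
    have h2 := ih (fun b hb => h b (by simp [hb]))
    have h3 : (w.length + 1) * M = w.length * M + M := by ring
    omega

theorem flatten_sum_le {K : Ker} {n : ℕ} {u : List (List ℕ)} (hu : u ∈ wn K.B n) :
    u.flatten.sum ≤ n * K.L * K.M := by
  rw [← flatten_length hu]
  refine h1a_sum_le K.M _ ?_
  intro a ha
  obtain ⟨α, hα, haα⟩ := List.mem_flatten.1 ha
  exact (K.bd α ((mem_wn.1 hu).2 α hα) a haα).2

theorem h1a_inj (K : Ker) (u v : List (List ℕ)) (hu : ∀ α ∈ u, α ∈ K.B) (hv : ∀ α ∈ v, α ∈ K.B)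
    (hl : u.length = v.length) (h : u.flatten = v.flatten) : u = v := by
  induction u generalizing v with
  | nil => exact (List.length_eq_zero_iff.1 hl.symm).symm
  | cons α u ih =>
    cases v with
    | nil => simp at hl
    | cons β v =>
      rw [List.flatten_cons, List.flatten_cons] at h
      have h1 : α.length = β.length := by
        rw [K.len α (hu α (by simp)), K.len β (hv β (by simp))]
      obtain ⟨h2, h3⟩ := List.append_inj h h1
      rw [h2, ih v (fun γ hγ => hu γ (by simp [hγ])) (fun γ hγ => hv γ (by simp [hγ]))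
        (by simpa using hl) h3]

/-- All blocks have the same length `L ≥ 1`, so `flatten` is injective. -/
theorem flatten_inj {K : Ker} {n : ℕ} {u v : List (List ℕ)} (hu : u ∈ wn K.B n)
    (hv : v ∈ wn K.B n) (h : u.flatten = v.flatten) : u = v := by
  obtain ⟨h1, h2⟩ := mem_wn.1 hu
  obtain ⟨h3, h4⟩ := mem_wn.1 hv
  exact h1a_inj K u v h2 h4 (h1.trans h3.symm) h

end Pool.Agent.Lib.MP_d0d59f_nt.GE
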