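import Pool.Agent.Lib.MP_d0d59f_nt.GE.H1a
import Pool.Agent.Lib.MP_d0d59f_nt.GE.E1b

/-! Row ge_H1b: the path measure; periodicity; boundedness. -/

namespace Pool.Agent.Lib.MP_d0d59f_nt.GE

open Finset

theorem sum_prb (K : Ker) (n : ℕ) {x : ℤ} (hx : ¬ (3 : ℤ) ∣ x) :
    ∑ u ∈ wn K.B n, prb K.κ u x = 1 := by
  induction n generalizing x with
  | zero => simp [wn, prb]
  | succ n ih =>
    rw [sum_wn_succ, ← K.sum_one x hx]
    refine sum_congr rfl fun α hα => ?_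
    by_cases h0 : K.κ x α = 0
    · simp [prb, h0]
    · have hv := K.supp x α hα h0
      simp only [prb]
      rw [← mul_sum, ih (valid_unit hv).2, mul_one]

theorem isProb_wn (K : Ker) (n : ℕ) {x : ℤ} (hx : ¬ (3 : ℤ) ∣ x) :
    IsProb (wn K.B n) (fun u => prb K.κ u x) :=
  ⟨fun u _ => prb_nonneg K u x, sum_prb K n hx⟩

/-- The law of the path of `n` blocks depends on `x` modulo `3^(nL+1)` only. Induction on `n`:
`κ x α` depends on `x mod 3^(L+1)`; if `κ x α ≠ 0` then `α` is valid at `x` and at `y`, and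
`act α x ≡ act α y mod 3^((n-1)L+1)` by `act_congr`. (For `K.κ x α = K.κ y α = 0` both products vanish.) -/
theorem prb_congr {K : Ker} {n : ℕ} {x y : ℤ} (h : x ≡ y [ZMOD 3 ^ (n * K.L + 1)])
    {u : List (List ℕ)} (hu : u ∈ wn K.B n) : prb K.κ u x = prb K.κ u y := by
  induction n generalizing x y u with
  | zero =>
    have h0 : u = [] := by simpa [wn] using hu
    rw [h0]
    rfl
  | succ n ih =>
    obtain ⟨⟨α, v⟩, hq, rfl⟩ := mem_image.1 hu
    obtain ⟨hα, hv⟩ := mem_product.1 hq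
    simp only [prb]
    have h1 : K.κ x α = K.κ y α := by
      refine K.per x y (h.of_dvd ?_) α hα
      exact pow_dvd_pow 3 (by nlinarith [K.hL])
    rw [← h1]
    by_cases h0 : K.κ x α = 0
    · rw [h0, zero_mul, zero_mul]
    · have hvx := K.supp x α hα h0
      have hvy := K.supp y α hα (by rwa [← h1])
      rw [ih ((act_congr hvx hvy (n * K.L + 1)).1 ?_) hv]
      rw [K.len α hα]
      have h2 : n * K.L + 1 + K.L = (n + 1) * K.L + 1 := by ring
      rw [h2]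
      exact h

/-- For a path `u` of `n` blocks of positive probability at the units `x` and `y`:
`x ≡ y mod 3^(k + nL)` iff `run u x ≡ run u y mod 3^k`. -/
theorem run_congr {K : Ker} {n : ℕ} {x y : ℤ} {u : List (List ℕ)} (hu : u ∈ wn K.B n)
    (hx : ¬ (3 : ℤ) ∣ x) (hy : ¬ (3 : ℤ) ∣ y) (hpx : prb K.κ u x ≠ 0) (hpy : prb K.κ u y ≠ 0)
    (k : ℕ) : x ≡ y [ZMOD 3 ^ (k + n * K.L)] ↔ run u x ≡ run u y [ZMOD 3 ^ k] := by
  rw [run_eq, run_eq, ← flatten_length hu]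
  exact act_congr (valid_flatten hu hx hpx) (valid_flatten hu hy hpy) k

/-- At a multiple `x` of `3` no word is valid, so `κ x α = 0` for `α ∈ K.B`. -/
theorem kappa_zero (K : Ker) {x : ℤ} (hx : (3 : ℤ) ∣ x) {α : List ℕ} (hα : α ∈ K.B) :
    K.κ x α = 0 := by
  by_contra h
  exact (valid_unit (K.supp x α hα h)).1 hx

theorem h1b_cases (K : Ker) (n : ℕ) (x : ℤ) :
    IsProb (wn K.B n) (fun u => prb K.κ u x) ∨ ∀ u ∈ wn K.B n, prb K.κ u x = 0 := by
  by_cases hx : (3 : ℤ) ∣ x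
  · cases n with
    | zero =>
      left
      exact ⟨fun u _ => prb_nonneg K u x, by simp [wn, prb]⟩
    | succ n =>
      right
      intro u hu
      obtain ⟨⟨α, v⟩, hq, rfl⟩ := mem_image.1 hu
      obtain ⟨hα, -⟩ := mem_product.1 hq
      simp only [prb]
      rw [kappa_zero K hx hα, zero_mul]
  · exact Or.inl (isProb_wn K n hx)

theorem h1b_ent_zero {ι A : Type*} {Ω : Finset ι} {p : ι → ℝ} (f : ι → A) (h : ∀ i ∈ Ω, p i = 0) :
    ent Ω p f = 0 :=
  sum_eq_zero fun i hi => by rw [h i hi, zero_mul]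

theorem sum_prb_le (K : Ker) (n : ℕ) (x : ℤ) : ∑ u ∈ wn K.B n, prb K.κ u x ≤ 1 := by
  rcases h1b_cases K n x with h | h
  · exact h.2.le
  · rw [sum_eq_zero h]
    exact zero_le_one

theorem h1b_sum_kappa_le (K : Ker) (x : ℤ) : ∑ α ∈ K.B, K.κ x α ≤ 1 := by
  by_cases hx : (3 : ℤ) ∣ x
  · rw [sum_eq_zero fun α hα => kappa_zero K hx hα]
    exact zero_le_one
  · exact (K.sum_one x hx).le

theorem h1b_avg_bound {ι : Type*} (Ω : Finset ι) (p : ι → ℝ) (g : ι → ℝ) {C : ℝ} (hp : ∀ i, 0 ≤ p i)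
    (h1 : ∑ i ∈ Ω, p i ≤ 1) (hC : 0 ≤ C) (hg : ∀ i, |g i| ≤ C) : |∑ i ∈ Ω, p i * g i| ≤ C := by
  calc |∑ i ∈ Ω, p i * g i| ≤ ∑ i ∈ Ω, |p i * g i| := abs_sum_le_sum_abs _ _
    _ ≤ ∑ i ∈ Ω, p i * C := sum_le_sum fun i _ => by
        rw [abs_mul, abs_of_nonneg (hp i)]
        exact mul_le_mul_of_nonneg_left (hg i) (hp i)
    _ = (∑ i ∈ Ω, p i) * C := by rw [sum_mul]
    _ ≤ 1 * C := mul_le_mul_of_nonneg_right h1 hC
    _ = C := one_mul C

theorem PN_bdd (K : Ker) (n : ℕ) {f : ℤ → ℝ} (hf : Bdd f) : Bdd (PN K n f) := by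
  obtain ⟨C, hC⟩ := hf
  exact ⟨C, fun x => h1b_avg_bound _ _ _ (fun u => prb_nonneg K u x) (sum_prb_le K n x)
    ((abs_nonneg _).trans (hC 0)) fun u => hC _⟩

theorem PP_bdd (K : Ker) {f : ℤ → ℝ} (hf : Bdd f) : Bdd (PP K f) := by
  obtain ⟨C, hC⟩ := hf
  exact ⟨C, fun x => h1b_avg_bound _ _ _ (fun α => K.nonneg x α) (h1b_sum_kappa_le K x)
    ((abs_nonneg _).trans (hC 0)) fun α => hC _⟩

theorem PN_succ (K : Ker) (n : ℕ) (f : ℤ → ℝ) : PN K (n + 1) f = PP K (PN K n f) := by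
  funext x
  rw [PN, PP, sum_wn_succ]
  refine sum_congr rfl fun α _ => ?_
  rw [PN, mul_sum]
  refine sum_congr rfl fun v _ => ?_
  simp only [prb, run]
  rw [mul_assoc]

theorem PN_zero (K : Ker) (f : ℤ → ℝ) : PN K 0 f = f := by
  funext x
  simp [PN, wn, prb, run]

/-- `0 ≤ hh ≤ k log 3` for all `x`: at units `ent_nonneg`, `ent_le_log_card`; at multiples of `3` all
`prb = 0` if `n ≥ 1` (`kappa_zero`), and for `n = 0` the entropy is `0`. -/
theorem hh_nonneg (K : Ker) (n : ℕ) (x : ℤ) (k : ℕ) : 0 ≤ hh K n x k := by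
  rcases h1b_cases K n x with h | h
  · exact ent_nonneg h _
  · exact (h1b_ent_zero _ h).ge

theorem hh_le (K : Ker) (n : ℕ) (x : ℤ) (k : ℕ) : hh K n x k ≤ k * Real.log 3 := by
  rcases h1b_cases K n x with h | h
  · have : NeZero (3 ^ k) := ⟨by positivity⟩
    have h1 := ent_le_log_card h (fun u => ((run u x : ℤ) : ZMod (3 ^ k))) univ fun _ _ _ => mem_univ _
    rw [card_univ, ZMod.card, Nat.cast_pow, Real.log_pow] at h1
    exact_mod_cast h1
  · have h1 : hh K n x k = 0 := h1b_ent_zero _ h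
    rw [h1]
    exact mul_nonneg (Nat.cast_nonneg _) (Real.log_nonneg (by norm_num))

theorem hh_bdd (K : Ker) (n k : ℕ) : Bdd (fun x => hh K n x k) :=
  ⟨k * Real.log 3, fun x => by
    rw [abs_of_nonneg (hh_nonneg K n x k)]
    exact hh_le K n x k⟩

end Pool.Agent.Lib.MP_d0d59f_nt.GE
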