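import Pool.Agent.Lib.MP_d0d59f_nt.GE.H1b
import Pool.Agent.Lib.MP_d0d59f_nt.GE.E3a

/-! Row ge_H1c: a path of `N + n` blocks as a two-step experiment; digit entropies. -/

namespace Pool.Agent.Lib.MP_d0d59f_nt.GE

open Finset

/-- Law of the first `N` blocks. -/
noncomputable def p1 (K : Ker) (b : ℤ) (u : List (List ℕ)) : ℝ := prb K.κ u b

/-- Law of the following blocks given the first path `u`. -/
noncomputable def q1 (K : Ker) (b : ℤ) (u v : List (List ℕ)) : ℝ := prb K.κ v (run u b)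

/-- End point of the two-step path. -/
def end2 (b : ℤ) (z : List (List ℕ) × List (List ℕ)) : ℤ := run z.2 (run z.1 b)

theorem isProb_p1 (K : Ker) (N : ℕ) {b : ℤ} (hb : ¬ (3 : ℤ) ∣ b) : IsProb (wn K.B N) (p1 K b) :=
  isProb_wn K N hb

theorem q1_nonneg (K : Ker) (b : ℤ) (u v : List (List ℕ)) : 0 ≤ q1 K b u v :=
  prb_nonneg K v _

theorem sum_q1 (K : Ker) (N n : ℕ) {b : ℤ} (hb : ¬ (3 : ℤ) ∣ b) :
    ∀ u ∈ wn K.B N, p1 K b u ≠ 0 → ∑ v ∈ wn K.B n, q1 K b u v = 1 :=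
  fun _ hu h => sum_prb K n (run_unit hu hb h)

/-- `X_{N+n} mod 3^k` computed in the two-step space (`ent_reindex` with `(u, v) ↦ u ++ v`). -/
theorem hh_two (K : Ker) (N n : ℕ) (b : ℤ) (k : ℕ) :
    ent (wn K.B N ×ˢ wn K.B n) (pq (p1 K b) (q1 K b))
      (fun z => ((end2 b z : ℤ) : ZMod (3 ^ k))) = hh K (N + n) b k := by
  unfold hh
  symm
  refine ent_reindex (fun z : List (List ℕ) × List (List ℕ) => z.1 ++ z.2) ?_ ?_ ?_ ?_ ?_
  · rintro ⟨u, v⟩ hz ⟨u', v'⟩ hz' h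
    rw [mem_product] at hz hz'
    have h1 := (mem_wn.1 hz.1).1
    have h2 := (mem_wn.1 hz'.1).1
    obtain ⟨e1, e2⟩ := List.append_inj h (h1.trans h2.symm)
    rw [Prod.mk.injEq]
    exact ⟨e1, e2⟩
  · rintro ⟨u, v⟩ hz
    rw [mem_product] at hz
    have h1 := mem_wn.1 hz.1
    have h2 := mem_wn.1 hz.2
    refine mem_wn.2 ⟨?_, ?_⟩
    · rw [List.length_append, h1.1, h2.1]
    · intro α hα
      rcases List.mem_append.1 hα with h | h
      · exact h1.2 α h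
      · exact h2.2 α h
  · intro w hw
    have h1 := mem_wn.1 hw
    refine ⟨(w.take N, w.drop N), ?_, List.take_append_drop N w⟩
    rw [mem_product]
    refine ⟨mem_wn.2 ⟨?_, ?_⟩, mem_wn.2 ⟨?_, ?_⟩⟩
    · show (w.take N).length = N
      rw [List.length_take, h1.1]
      omega
    · intro α hα
      exact h1.2 α (List.mem_of_mem_take hα)
    · show (w.drop N).length = n
      rw [List.length_drop, h1.1]
      omega
    · intro α hα
      exact h1.2 α (List.mem_of_mem_drop hα)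
  · intro z _
    exact prb_append K.κ z.1 z.2 b
  · intro z _
    show ((run (z.1 ++ z.2) b : ℤ) : ZMod (3 ^ k)) = ((end2 b z : ℤ) : ZMod (3 ^ k))
    rw [run_append]
    rfl

/-- (H2) `H(X_{N+n} mod 3^k) ≥ ∑_u P(u) H(X_n^{run u b} mod 3^k)`: `hh_two` and `ent_pq_ge`. -/
theorem hh_ge (K : Ker) (N n : ℕ) {b : ℤ} (hb : ¬ (3 : ℤ) ∣ b) (k : ℕ) :
    PN K N (fun x => hh K n x k) b ≤ hh K (N + n) b k := by
  rw [← hh_two]
  exact ent_pq_ge (isProb_p1 K N hb) (q1_nonneg K b) (sum_q1 K N n hb)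
    (fun z => ((end2 b z : ℤ) : ZMod (3 ^ k)))

/-- The conditional entropy of the last `n` blocks given the point where they start. -/
noncomputable def Sn (K : Ker) (N n : ℕ) (b : ℤ) : ℝ :=
  ∑ u ∈ wn K.B N, p1 K b u * ent (wn K.B n) (q1 K b u) (fun v => v)

theorem h1c_eq_iff (k : ℕ) (x y : ℤ) :
    (((x : ℤ) : ZMod (3 ^ k)) = ((y : ℤ) : ZMod (3 ^ k))) ↔ x ≡ y [ZMOD 3 ^ k] := by
  rw [ZMod.intCast_eq_intCast_iff]
  push_cast
  exact Iff.rfl

theorem h1c_pq_ne {K : Ker} {b : ℤ} {z : List (List ℕ) × List (List ℕ)}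
    (h : pq (p1 K b) (q1 K b) z ≠ 0) : prb K.κ z.1 b ≠ 0 ∧ prb K.κ z.2 (run z.1 b) ≠ 0 :=
  ⟨left_ne_zero_of_mul h, right_ne_zero_of_mul h⟩

/-- (H1) For `k ≥ 1`: `H(v, X_{N+n} mod 3^k) = H(X_N mod 3^(k + nL)) + Sn`.
By `run_congr`, `(v, X mod 3^k)` and `(v, z mod 3^(k+nL))` (`z = run u b`) have the same fibres on the support
(`ent_congr`); the law of `v` given `z` depends on `z mod 3^(nL+1)` (`prb_congr`), a function of
`z mod 3^(k+nL)`; `ent_pq_chain` with `g u = z mod 3^(k+nL)`. -/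
theorem ent_block (K : Ker) (N n : ℕ) {b : ℤ} (hb : ¬ (3 : ℤ) ∣ b) {k : ℕ} (hk : 1 ≤ k) :
    ent (wn K.B N ×ˢ wn K.B n) (pq (p1 K b) (q1 K b))
      (fun z => (z.2, ((end2 b z : ℤ) : ZMod (3 ^ k)))) = hh K N b (k + n * K.L) + Sn K N n b := by
  have h1 := ent_pq_chain (isProb_p1 K N hb) (q1_nonneg K b) (sum_q1 K N n hb)
    (fun u => ((run u b : ℤ) : ZMod (3 ^ (k + n * K.L)))) (by
      intro u _ u' _ _ _ hg v hv
      have h2 := (h1c_eq_iff _ _ _).1 hg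
      have h3 : run u b ≡ run u' b [ZMOD 3 ^ (n * K.L + 1)] :=
        Int.ModEq.of_dvd (pow_dvd_pow 3 (by omega)) h2
      exact prb_congr h3 hv)
  have h4 : ent (wn K.B N ×ˢ wn K.B n) (pq (p1 K b) (q1 K b))
      (fun z => (z.2, ((end2 b z : ℤ) : ZMod (3 ^ k)))) =
      ent (wn K.B N ×ˢ wn K.B n) (pq (p1 K b) (q1 K b))
        (fun z => (z.2, ((run z.1 b : ℤ) : ZMod (3 ^ (k + n * K.L))))) := by
    refine ent_congr ?_
    rintro ⟨u, v⟩ hz ⟨u', v'⟩ hz' hp hp'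
    rw [mem_product] at hz hz'
    obtain ⟨a1, a2⟩ := h1c_pq_ne hp
    obtain ⟨b1, b2⟩ := h1c_pq_ne hp'
    rw [Prod.mk.injEq, Prod.mk.injEq]
    refine and_congr_right fun (hv : v = v') => ?_
    subst hv
    rw [h1c_eq_iff, h1c_eq_iff]
    exact (run_congr hz.2 (run_unit hz.1 hb a1) (run_unit hz'.1 hb b1) a2 b2 k).symm
  rw [h4, h1]
  rfl

theorem h1c_or (K : Ker) (N : ℕ) (b : ℤ) : IsProb (wn K.B N) (fun u => prb K.κ u b) ∨
    ∀ u ∈ wn K.B N, prb K.κ u b = 0 := by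
  by_cases hb : (3 : ℤ) ∣ b
  · rcases N with _ | N
    · left
      refine ⟨fun u _ => prb_nonneg K u b, ?_⟩
      simp [wn, prb]
    · right
      intro u hu
      obtain ⟨h1, h2⟩ := mem_wn.1 hu
      rcases u with _ | ⟨α, v⟩
      · simp at h1
      · show K.κ b α * prb K.κ v (act α b) = 0
        rw [kappa_zero K hb (h2 α (by simp)), zero_mul]
  · exact Or.inl (isProb_wn K N hb)

theorem h1c_hh_zero {K : Ker} {N : ℕ} {b : ℤ} (h : ∀ u ∈ wn K.B N, prb K.κ u b = 0) (k : ℕ) :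
    hh K N b k = 0 := by
  unfold hh ent
  refine Finset.sum_eq_zero fun u hu => ?_
  exact mul_eq_zero_of_left (h u hu) _

theorem dg_nonneg (K : Ker) (N : ℕ) (b : ℤ) (j : ℕ) : 0 ≤ dg K N b j := by
  unfold dg
  rcases h1c_or K N b with h | h
  · rw [sub_nonneg]
    unfold hh
    refine ent_mono h ?_
    intro u _ v _ _ _ he
    rw [h1c_eq_iff] at he ⊢
    exact Int.ModEq.of_dvd (pow_dvd_pow 3 (by omega)) he
  · rw [h1c_hh_zero h, h1c_hh_zero h, sub_zero]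

/-- `H(X mod 3^(j+1)) ≤ H(X mod 3^j) + log 3`: for a unit `b`, `X mod 3^(j+1)` has the same fibres as the pair
(`X mod 3^j`, digit `j`), `ent_pair_le`, `ent_le_log_card`; for `3 ∣ b`, `N ≥ 1` all is `0`. -/
theorem dg_le (K : Ker) (N : ℕ) (b : ℤ) (j : ℕ) : dg K N b j ≤ Real.log 3 := by
  unfold dg
  rcases h1c_or K N b with h | h
  · have h1 : hh K N b (j + 1) = ent (wn K.B N) (fun u => prb K.κ u b)
        (fun u => (((run u b : ℤ) : ZMod (3 ^ j)), ((zj j (run u b)).val : ZMod 3))) := by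
      unfold hh
      refine ent_congr ?_
      intro u _ v _ _ _
      rw [Prod.mk.injEq]
      exact zj_iff_one j _ _
    have h2 := ent_pair_le h (fun u => ((run u b : ℤ) : ZMod (3 ^ j)))
      (fun u => ((zj j (run u b)).val : ZMod 3))
    have h3 := ent_le_log_card h (fun u => ((zj j (run u b)).val : ZMod 3)) Finset.univ
      (fun _ _ _ => Finset.mem_univ _)
    have h4 : ((Finset.univ : Finset (ZMod 3)).card : ℝ) = 3 := by
      rw [Finset.card_univ, ZMod.card]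
      norm_num
    rw [h4] at h3
    rw [h1]
    have h5 : hh K N b j = ent (wn K.B N) (fun u => prb K.κ u b)
      (fun u => ((run u b : ℤ) : ZMod (3 ^ j))) := rfl
    rw [h5]
    linarith
  · rw [h1c_hh_zero h, h1c_hh_zero h, sub_zero]
    exact Real.log_nonneg (by norm_num)

/-- (H1) for one digit: `dg N b (j + nL) ≤ dg (N+n) b j` (`j ≥ 1`): `ent_submod` for `f = (v, X mod 3^j)`,
`g = X mod 3^(j+1)`, `h = X mod 3^j` (`(f, g)` has the fibres of `(v, X mod 3^(j+1))`) and `ent_block` twice. -/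
theorem dg_shift (K : Ker) (N n : ℕ) {b : ℤ} (hb : ¬ (3 : ℤ) ∣ b) {j : ℕ} (hj : 1 ≤ j) :
    dg K N b (j + n * K.L) ≤ dg K (N + n) b j := by
  have hprob : IsProb (wn K.B N ×ˢ wn K.B n) (pq (p1 K b) (q1 K b)) :=
    isProb_pq (isProb_p1 K N hb) (q1_nonneg K b) (sum_q1 K N n hb)
  have h1 := ent_submod hprob
    (f := fun z => (z.2, ((end2 b z : ℤ) : ZMod (3 ^ j))))
    (g := fun z => ((end2 b z : ℤ) : ZMod (3 ^ (j + 1))))
    (h := fun z => ((end2 b z : ℤ) : ZMod (3 ^ j)))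
    (by
      intro z _ z' _ _ _ he
      exact (Prod.mk.inj he).2)
    (by
      intro z _ z' _ _ _ he
      rw [h1c_eq_iff] at he ⊢
      exact Int.ModEq.of_dvd (pow_dvd_pow 3 (by omega)) he)
  have h2 : ent (wn K.B N ×ˢ wn K.B n) (pq (p1 K b) (q1 K b))
      (fun z => ((z.2, ((end2 b z : ℤ) : ZMod (3 ^ j))), ((end2 b z : ℤ) : ZMod (3 ^ (j + 1))))) =
      ent (wn K.B N ×ˢ wn K.B n) (pq (p1 K b) (q1 K b))
        (fun z => (z.2, ((end2 b z : ℤ) : ZMod (3 ^ (j + 1))))) := by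
    refine ent_congr ?_
    intro z _ z' _ _ _
    constructor
    · intro he
      obtain ⟨he1, he2⟩ := Prod.mk.inj he
      rw [(Prod.mk.inj he1).1, he2]
    · intro he
      obtain ⟨he1, he2⟩ := Prod.mk.inj he
      have he3 : ((end2 b z : ℤ) : ZMod (3 ^ j)) = ((end2 b z' : ℤ) : ZMod (3 ^ j)) := by
        rw [h1c_eq_iff] at he2 ⊢
        exact Int.ModEq.of_dvd (pow_dvd_pow 3 (by omega)) he2
      rw [he1, he2, he3]
  rw [h2, ent_block K N n hb hj, ent_block K N n hb (by omega : 1 ≤ j + 1), hh_two, hh_two] at h1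
  unfold dg
  have h3 : j + 1 + n * K.L = j + n * K.L + 1 := by ring
  rw [h3] at h1
  linarith

end Pool.Agent.Lib.MP_d0d59f_nt.GE
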