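import Pool.Agent.Lib.MP_d0d59f_nt.GE.H1c

/-! Row ge_H3: separation, positive entropy of the end point. -/

namespace Pool.Agent.Lib.MP_d0d59f_nt.GE

open Finset

/-- The entropy of the path of `n` blocks is at least `c0 n` (chain rule: `sum_wn_succ`, `sum_prb`,
`negMulLog (x y) = y negMulLog x + x negMulLog y`, i.e. `H_{n+1}(x) = H(κ x) + ∑_α κ x α H_n(act α x)`). -/
theorem ent_path (K : Ker) (n : ℕ) {x : ℤ} (hx : ¬ (3 : ℤ) ∣ x) :
    K.c0 * n ≤ ∑ u ∈ wn K.B n, Real.negMulLog (prb K.κ u x) := by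
  induction n generalizing x with
  | zero => simp [wn, prb]
  | succ n ih =>
    rw [sum_wn_succ]
    have key : ∀ α ∈ K.B, Real.negMulLog (K.κ x α) + K.κ x α * (K.c0 * n) ≤
        ∑ v ∈ wn K.B n, Real.negMulLog (prb K.κ (α :: v) x) := by
      intro α hα
      have e1 : ∑ v ∈ wn K.B n, Real.negMulLog (prb K.κ (α :: v) x) =
          (∑ v ∈ wn K.B n, prb K.κ v (act α x)) * Real.negMulLog (K.κ x α) +
            K.κ x α * ∑ v ∈ wn K.B n, Real.negMulLog (prb K.κ v (act α x)) := by
        rw [Finset.sum_mul, Finset.mul_sum, ← Finset.sum_add_distrib]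
        refine Finset.sum_congr rfl fun v _ => ?_
        rw [prb, Real.negMulLog_mul]
      rw [e1]
      rcases eq_or_ne (K.κ x α) 0 with h | h
      · rw [h]; simp
      · have hu : ¬ (3 : ℤ) ∣ act α x := (valid_unit (K.supp x α hα h)).2
        rw [sum_prb K n hu, one_mul]
        have := mul_le_mul_of_nonneg_left (ih hu) (K.nonneg x α)
        linarith
    have h2 := Finset.sum_le_sum key
    rw [Finset.sum_add_distrib, ← Finset.sum_mul, K.sum_one x hx, one_mul] at h2
    have h3 := K.ent_ge x hx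
    push_cast
    linarith

/-- `n` blocks, `k ≥ n L M`: the pair (`|u|`, `X_n mod 3^k`) determines the path `u` (`word_sep`,
`flatten_inj`, `valid_flatten`), and `|u| ≤ nLM` takes at most `nLM + 1` values. So (`ent_id`, `ent_mono`,
`ent_pair_le`, `ent_le_log_card`): `c0 n ≤ H(u) ≤ H(|u|) + H(X_n mod 3^k)`. -/
theorem hh_sep0 (K : Ker) (n : ℕ) {x : ℤ} (hx : ¬ (3 : ℤ) ∣ x) {k : ℕ} (hk : n * K.L * K.M ≤ k) :
    K.c0 * n - Real.log (n * K.L * K.M + 1) ≤ hh K n x k := by
  have hp := isProb_wn K n hx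
  have h1 := ent_path K n hx
  rw [← ent_id] at h1
  have h2 : ent (wn K.B n) (fun u => prb K.κ u x) (fun u => u) ≤
      ent (wn K.B n) (fun u => prb K.κ u x) (fun u => (u.flatten.sum, ((run u x : ℤ) : ZMod (3 ^ k)))) := by
    refine ent_mono hp fun u hu v hv hpu hpv huv => ?_
    simp only [Prod.mk.injEq] at huv
    refine flatten_inj hu hv ?_
    refine word_sep (k := k) (valid_flatten hu hx hpu) (valid_flatten hv hx hpv) ?_ huv.1 ?_ ?_
    · rw [flatten_length hu, flatten_length hv]
    · exact (flatten_sum_le hu).trans hk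
    · rw [← run_eq, ← run_eq]
      have := (ZMod.intCast_eq_intCast_iff (run u x) (run v x) (3 ^ k)).1 huv.2
      simpa using this
  have h3 := ent_pair_le hp (fun u : List (List ℕ) => u.flatten.sum) (fun u => ((run u x : ℤ) : ZMod (3 ^ k)))
  have h4 := ent_le_log_card hp (fun u : List (List ℕ) => u.flatten.sum) (range (n * K.L * K.M + 1))
    (fun u hu _ => by
      have := flatten_sum_le hu
      exact Finset.mem_range.2 (by omega))
  rw [Finset.card_range] at h4
  push_cast at h4
  unfold hh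
  linarith

/-- (H3): the same bound for all `N ≥ n` (`hh_ge` with `N = (N - n) + n`, `hh_sep0` at the points
`run u b`, which are units when `prb ≠ 0`, and `sum_prb`). -/
theorem hh_sep (K : Ker) {n N : ℕ} (hN : n ≤ N) {b : ℤ} (hb : ¬ (3 : ℤ) ∣ b) {k : ℕ}
    (hk : n * K.L * K.M ≤ k) : K.c0 * n - Real.log (n * K.L * K.M + 1) ≤ hh K N b k := by
  have h1 := hh_ge K (N - n) n hb k
  rw [Nat.sub_add_cancel hN] at h1
  refine le_trans ?_ h1
  unfold PN
  calc K.c0 * n - Real.log (n * K.L * K.M + 1)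
      = ∑ u ∈ wn K.B (N - n), prb K.κ u b * (K.c0 * n - Real.log (n * K.L * K.M + 1)) := by
        rw [← Finset.sum_mul, sum_prb K (N - n) hb, one_mul]
    _ ≤ ∑ u ∈ wn K.B (N - n), prb K.κ u b * hh K n (run u b) k := by
        refine Finset.sum_le_sum fun u hu => ?_
        rcases eq_or_ne (prb K.κ u b) 0 with h | h
        · rw [h, zero_mul, zero_mul]
        · exact mul_le_mul_of_nonneg_left (hh_sep0 K n (run_unit hu hb h) hk) (prb_nonneg K u b)

end Pool.Agent.Lib.MP_d0d59f_nt.GE
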