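import Pool.Agent.Lib.MP_d0d59f_nt.GE.H1c
import Pool.Agent.Lib.MP_d0d59f_nt.GE.E3b

/-! Row ge_H4: two conditionally independent continuations. -/

namespace Pool.Agent.Lib.MP_d0d59f_nt.GE

open Finset

/-- The space of `(u, v, w)`: `N` blocks `u`, then two independent continuations `v`, `w`. -/
def lpS (K : Ker) (N n : ℕ) : Finset ((List (List ℕ) × List (List ℕ)) × List (List ℕ)) :=
  (wn K.B N ×ˢ wn K.B n) ×ˢ wn K.B n

noncomputable def lpw (K : Ker) (b : ℤ) :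
    (List (List ℕ) × List (List ℕ)) × List (List ℕ) → ℝ :=
  pq (pq (p1 K b) (q1 K b)) (fun z => q1 K b z.1)

/-- First end point. -/
def lpX (b : ℤ) (q : (List (List ℕ) × List (List ℕ)) × List (List ℕ)) : ℤ :=
  run q.1.2 (run q.1.1 b)

/-- Second end point. -/
def lpY (b : ℤ) (q : (List (List ℕ) × List (List ℕ)) × List (List ℕ)) : ℤ :=
  run q.2 (run q.1.1 b)

/-- The multiplier `2^{|w| - |v|}` in `ℤ/9`. -/
def lpU (q : (List (List ℕ) × List (List ℕ)) × List (List ℕ)) : ZMod 9 :=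
  2 ^ q.2.flatten.sum * 5 ^ q.1.2.flatten.sum

theorem h4_sum_q (K : Ker) (N n : ℕ) {b : ℤ} (hb : ¬ (3 : ℤ) ∣ b) :
    ∀ z ∈ wn K.B N ×ˢ wn K.B n, pq (p1 K b) (q1 K b) z ≠ 0 →
      ∑ v ∈ wn K.B n, q1 K b z.1 v = 1 :=
  fun _ hz h => sum_q1 K N n hb _ (mem_product.1 hz).1 (left_ne_zero_of_mul h)

theorem h4_prob2 (K : Ker) (N n : ℕ) {b : ℤ} (hb : ¬ (3 : ℤ) ∣ b) :
    IsProb (wn K.B N ×ˢ wn K.B n) (pq (p1 K b) (q1 K b)) :=
  isProb_pq (isProb_p1 K N hb) (q1_nonneg K b) (sum_q1 K N n hb)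

theorem isProb_lp (K : Ker) (N n : ℕ) {b : ℤ} (hb : ¬ (3 : ℤ) ∣ b) :
    IsProb (lpS K N n) (lpw K b) :=
  isProb_pq (h4_prob2 K N n hb) (fun z v => q1_nonneg K b z.1 v) (h4_sum_q K N n hb)

theorem h4_eq_iff (k : ℕ) (x y : ℤ) :
    (((x : ℤ) : ZMod (3 ^ k)) = ((y : ℤ) : ZMod (3 ^ k))) ↔ x ≡ y [ZMOD 3 ^ k] := by
  rw [ZMod.intCast_eq_intCast_iff]
  push_cast
  exact Iff.rfl

theorem h4_pow4 (s : ℕ) (z : ZMod 9) (hz : z.val % 3 = 1) : (4 ^ s * z).val % 3 = 1 := by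
  have key : ∀ w : ZMod 9, w.val % 3 = 1 → (4 * w).val % 3 = 1 := by decide
  induction s with
  | zero => simpa using hz
  | succ s ih =>
    have := key _ ih
    rwa [show (4 : ZMod 9) ^ (s + 1) * z = 4 * (4 ^ s * z) by ring]

theorem h4_pow7 (s : ℕ) (z : ZMod 9) (hz : z.val % 3 = 1) : (7 ^ s * z).val % 3 = 1 := by
  have key : ∀ w : ZMod 9, w.val % 3 = 1 → (7 * w).val % 3 = 1 := by decide
  induction s with
  | zero => simpa using hz
  | succ s ih =>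
    have := key _ ih
    rwa [show (7 : ZMod 9) ^ (s + 1) * z = 7 * (7 ^ s * z) by ring]

/-- The sums are even, `4 ≡ 25 ≡ 1 mod 3`. -/
theorem lpU_one (K : Ker) (N n : ℕ) : ∀ q ∈ lpS K N n, (lpU q).val % 3 = 1 := by
  intro q hq
  obtain ⟨h1, h2⟩ := mem_product.1 hq
  obtain ⟨_, h4⟩ := mem_product.1 h1
  obtain ⟨s, hs⟩ := (flatten_even h2).two_dvd
  obtain ⟨t, ht⟩ := (flatten_even h4).two_dvd
  unfold lpU
  rw [hs, ht, pow_mul, pow_mul]
  have e1 : (2 : ZMod 9) ^ 2 = 4 := by decide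
  have e2 : (5 : ZMod 9) ^ 2 = 7 := by decide
  rw [e1, e2]
  refine h4_pow4 s _ ?_
  have h5 := h4_pow7 t 1 (by decide)
  rwa [mul_one] at h5

/-- The defect `η₁`. -/
noncomputable def et1 (K : Ker) (N n : ℕ) (b : ℤ) (j : ℕ) : ℝ :=
  (hh K (N + n) b (j + 2) - hh K (N + n) b j) -
    (hh K N b (j + 2 + n * K.L) - hh K N b (j + n * K.L))

/-- The defect `η₃`. -/
noncomputable def et3 (K : Ker) (N n : ℕ) (b : ℤ) (j : ℕ) : ℝ :=
  hh K (N + n) b (j + 2) - PN K N (fun x => hh K n x (j + 2)) b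

/-- `I(Z ; v | C) = η₁` in the two-step space, `C = X mod 3^j`, `Z = zj j X`: by `zj_iff` and `ent_congr`,
`H(Z,C) = hh (N+n) (j+2)`, `H(C) = hh (N+n) j` (`hh_two`), `H(v,C) = hh N (j+nL) + Sn`, `H(Z,v,C) = hh N (j+2+nL) + Sn`
(`ent_block`, `j ≥ 1`). -/
theorem cmi_two (K : Ker) (N n : ℕ) {b : ℤ} (hb : ¬ (3 : ℤ) ∣ b) {j : ℕ} (hj : 1 ≤ j) :
    cmi (wn K.B N ×ˢ wn K.B n) (pq (p1 K b) (q1 K b)) (fun z => zj j (end2 b z)) (fun z => z.2)
      (fun z => ((end2 b z : ℤ) : ZMod (3 ^ j))) = et1 K N n b j := by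
  have h1 : ent (wn K.B N ×ˢ wn K.B n) (pq (p1 K b) (q1 K b))
      (fun z => (zj j (end2 b z), ((end2 b z : ℤ) : ZMod (3 ^ j)))) = hh K (N + n) b (j + 2) := by
    rw [← hh_two]
    refine ent_congr fun z _ z' _ _ _ => ?_
    rw [zj_iff, Prod.mk.injEq]
    exact And.comm
  have h2 : ent (wn K.B N ×ˢ wn K.B n) (pq (p1 K b) (q1 K b))
      (fun z => (zj j (end2 b z), z.2, ((end2 b z : ℤ) : ZMod (3 ^ j)))) =
      hh K N b (j + 2 + n * K.L) + Sn K N n b := by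
    rw [← ent_block K N n hb (by omega : 1 ≤ j + 2)]
    refine ent_congr fun z _ z' _ _ _ => ?_
    rw [Prod.mk.injEq, Prod.mk.injEq, Prod.mk.injEq, zj_iff]
    tauto
  unfold cmi et1
  rw [h1, h2, ent_block K N n hb hj, hh_two]
  ring

theorem h4_ne {K : Ker} {N n : ℕ} {b : ℤ} {q : (List (List ℕ) × List (List ℕ)) × List (List ℕ)}
    (hb : ¬ (3 : ℤ) ∣ b) (hq : q ∈ lpS K N n) (h : lpw K b q ≠ 0) :
    valid q.1.2.flatten (run q.1.1 b) ∧ valid q.2.flatten (run q.1.1 b) := by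
  obtain ⟨h1, h2⟩ := mem_product.1 hq
  obtain ⟨h3, h4⟩ := mem_product.1 h1
  have g1 : pq (p1 K b) (q1 K b) q.1 ≠ 0 := left_ne_zero_of_mul h
  have g2 : prb K.κ q.2 (run q.1.1 b) ≠ 0 := right_ne_zero_of_mul h
  have g3 : prb K.κ q.1.1 b ≠ 0 := left_ne_zero_of_mul g1
  have g4 : prb K.κ q.1.2 (run q.1.1 b) ≠ 0 := right_ne_zero_of_mul g1
  have g5 := run_unit h3 hb g3
  exact ⟨valid_flatten h4 g5 g4, valid_flatten h2 g5 g2⟩

/-- The affine relation: `(C, v, w)` determines `C'` and `zj Y - U zj X`. Both `v.flatten`, `w.flatten` are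
valid words of length `nL` at `run u b`, so by `two_words` `2^{|v|} Y = 2^{|w|} X + Q` with `Q` depending only on
`v, w` (`3^{nL} Q = 2^{|w|} C(v) - 2^{|v|} C(w)`); `zj_transport`. -/
theorem lp_det (K : Ker) (N n : ℕ) {b : ℤ} (hb : ¬ (3 : ℤ) ∣ b) {j : ℕ} :
    ∀ q ∈ lpS K N n, ∀ q' ∈ lpS K N n, lpw K b q ≠ 0 → lpw K b q' ≠ 0 →
      ((lpX b q : ℤ) : ZMod (3 ^ j)) = ((lpX b q' : ℤ) : ZMod (3 ^ j)) → q.1.2 = q'.1.2 →
      q.2 = q'.2 → ((lpY b q : ℤ) : ZMod (3 ^ j)) = ((lpY b q' : ℤ) : ZMod (3 ^ j)) ∧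
        zj j (lpY b q) - lpU q * zj j (lpX b q) = zj j (lpY b q') - lpU q' * zj j (lpX b q') := by
  rintro ⟨⟨u, v⟩, w⟩ hq ⟨⟨u', v'⟩, w'⟩ hq' h h' hX hv hw
  simp only at hv hw
  subst hv hw
  obtain ⟨a1, a2⟩ := h4_ne hb hq h
  obtain ⟨b1, b2⟩ := h4_ne hb hq' h'
  simp only at a1 a2 b1 b2
  obtain ⟨m1, m2⟩ := mem_product.1 hq
  obtain ⟨_, m4⟩ := mem_product.1 m1
  have l1 : v.flatten.length = n * K.L := flatten_length m4
  have l2 : w.flatten.length = n * K.L := flatten_length m2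
  have t1 := two_words a1 a2 (l1.trans l2.symm)
  have t2 := two_words b1 b2 (l1.trans l2.symm)
  rw [← run_eq, ← run_eq] at t1 t2
  have t3 : (2 : ℤ) ^ v.flatten.sum * run w (run u b) - 2 ^ w.flatten.sum * run v (run u b) =
      2 ^ v.flatten.sum * run w (run u' b) - 2 ^ w.flatten.sum * run v (run u' b) := by
    have h3 : (3 : ℤ) ^ v.flatten.length ≠ 0 := by positivity
    exact mul_left_cancel₀ h3 (t1.trans t2.symm)
  have hX' : run v (run u b) ≡ run v (run u' b) [ZMOD 3 ^ j] := (h4_eq_iff _ _ _).1 hX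
  obtain ⟨r1, r2⟩ := zj_transport (j := j) (s := v.flatten.sum) (t := w.flatten.sum)
    (X := run v (run u b)) (Y := run w (run u b)) (X' := run v (run u' b))
    (Y' := run w (run u' b))
    (Q := 2 ^ v.flatten.sum * run w (run u b) - 2 ^ w.flatten.sum * run v (run u b))
    (by ring) (by linarith) hX'
  refine ⟨(h4_eq_iff _ _ _).2 r1, ?_⟩
  show zj j (run w (run u b)) - 2 ^ w.flatten.sum * 5 ^ v.flatten.sum * zj j (run v (run u b)) =
    zj j (run w (run u' b)) - 2 ^ w.flatten.sum * 5 ^ v.flatten.sum * zj j (run v (run u' b))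
  linear_combination r2

/-- The law of the continuation given `(v, X mod 3^j)`. -/
theorem h4_hVC (K : Ker) (N n : ℕ) {b : ℤ} (hb : ¬ (3 : ℤ) ∣ b) {j : ℕ} (hj : 1 ≤ j) :
    ∀ z ∈ wn K.B N ×ˢ wn K.B n, ∀ z' ∈ wn K.B N ×ˢ wn K.B n, pq (p1 K b) (q1 K b) z ≠ 0 →
      pq (p1 K b) (q1 K b) z' ≠ 0 → z.2 = z'.2 →
      ((end2 b z : ℤ) : ZMod (3 ^ j)) = ((end2 b z' : ℤ) : ZMod (3 ^ j)) →
      ∀ v ∈ wn K.B n, q1 K b z.1 v = q1 K b z'.1 v := by
  rintro ⟨u, v⟩ hz ⟨u', v'⟩ hz' h h' hv hC w hw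
  simp only at hv
  subst hv
  obtain ⟨m1, m2⟩ := mem_product.1 hz
  obtain ⟨m3, _⟩ := mem_product.1 hz'
  have g1 : prb K.κ u b ≠ 0 := left_ne_zero_of_mul h
  have g2 : prb K.κ v (run u b) ≠ 0 := right_ne_zero_of_mul h
  have g3 : prb K.κ u' b ≠ 0 := left_ne_zero_of_mul h'
  have g4 : prb K.κ v (run u' b) ≠ 0 := right_ne_zero_of_mul h'
  have hC' : run v (run u b) ≡ run v (run u' b) [ZMOD 3 ^ j] := (h4_eq_iff _ _ _).1 hC
  have h5 := (run_congr m2 (run_unit m1 hb g1) (run_unit m3 hb g3) g2 g4 j).2 hC'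
  have h6 : run u b ≡ run u' b [ZMOD 3 ^ (n * K.L + 1)] :=
    Int.ModEq.of_dvd (pow_dvd_pow 3 (by omega)) h5
  exact prb_congr h6 hw

/-- (H4)(1): `cmi_pq_le` with `I = wn N ×ˢ wn n`, `Z = zj X`, `V = v`, `C = X mod 3^j`,
`G = (C', U, V)` (`lp_det`), and `cmi_two`. The law of `w` given `(v, C)`: `C` and `v` determine
`z = run u b` modulo `3^(j+nL)` (`run_congr`), hence the law (`prb_congr`, `j ≥ 1`). -/
theorem lp_one (K : Ker) (N n : ℕ) {b : ℤ} (hb : ¬ (3 : ℤ) ∣ b) {j : ℕ} (hj : 1 ≤ j) :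
    cmi (lpS K N n) (lpw K b) (fun q => zj j (lpX b q))
      (fun q => (((lpY b q : ℤ) : ZMod (3 ^ j)), lpU q, zj j (lpY b q) - lpU q * zj j (lpX b q)))
      (fun q => ((lpX b q : ℤ) : ZMod (3 ^ j))) ≤ et1 K N n b j := by
  rw [← cmi_two K N n hb hj]
  refine cmi_pq_le (h4_prob2 K N n hb) (fun z v => q1_nonneg K b z.1 v) (h4_sum_q K N n hb)
    (fun z => zj j (end2 b z)) (fun z => z.2) (fun z => ((end2 b z : ℤ) : ZMod (3 ^ j)))
    (h4_hVC K N n hb hj)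
    (fun q => (((lpY b q : ℤ) : ZMod (3 ^ j)), lpU q, zj j (lpY b q) - lpU q * zj j (lpX b q))) ?_
  intro q hq q' hq' h h' hC hv hw
  obtain ⟨r1, r2⟩ := lp_det K N n hb q hq q' hq' h h' hC hv hw
  have r3 : lpU q = lpU q' := by
    unfold lpU
    rw [show q.2 = q'.2 from hw, show q.1.2 = q'.1.2 from hv]
  rw [Prod.mk.injEq, Prod.mk.injEq]
  exact ⟨r1, r3, r2⟩

/-- (H4)(2): exchange the two copies (`cmi_pq_swap`); now `G' = (X mod 3^j, U, zj Y - U zj X)` with the roles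
of `v, w` exchanged is determined by `(Y mod 3^j, v, w)` (`zj_transport` the other way round, or
`zj X - U⁻¹ zj Y` is determined and `zj Y - U zj X = -U (zj X - U⁻¹ zj Y)`, `U` a unit of `ℤ/9`). -/
theorem lp_two (K : Ker) (N n : ℕ) {b : ℤ} (hb : ¬ (3 : ℤ) ∣ b) {j : ℕ} (hj : 1 ≤ j) :
    cmi (lpS K N n) (lpw K b) (fun q => zj j (lpY b q))
      (fun q => (((lpX b q : ℤ) : ZMod (3 ^ j)), lpU q, zj j (lpY b q) - lpU q * zj j (lpX b q)))
      (fun q => ((lpY b q : ℤ) : ZMod (3 ^ j))) ≤ et1 K N n b j := by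
  have hsw := cmi_pq_swap (I := wn K.B N) (J := wn K.B n) (p := p1 K b) (q := q1 K b)
    (fun q => zj j (lpY b q))
    (fun q => (((lpX b q : ℤ) : ZMod (3 ^ j)), lpU q, zj j (lpY b q) - lpU q * zj j (lpX b q)))
    (fun q => ((lpY b q : ℤ) : ZMod (3 ^ j)))
  refine hsw.trans_le ?_
  rw [← cmi_two K N n hb hj]
  refine cmi_pq_le (h4_prob2 K N n hb) (fun z v => q1_nonneg K b z.1 v) (h4_sum_q K N n hb)
    (fun z => zj j (end2 b z)) (fun z => z.2) (fun z => ((end2 b z : ℤ) : ZMod (3 ^ j)))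
    (h4_hVC K N n hb hj) _ ?_
  rintro ⟨⟨u, v⟩, w⟩ hq ⟨⟨u', v'⟩, w'⟩ hq' h h' hC hv hw
  obtain ⟨r1, r2⟩ := lp_det K N n hb _ hq _ hq' h h' hC hv hw
  simp only at hv hw
  subst hv hw
  have hinv : (2 : ZMod 9) ^ v.flatten.sum * 5 ^ w.flatten.sum *
      (2 ^ w.flatten.sum * 5 ^ v.flatten.sum) = 1 := by
    have e1 : ∀ s : ℕ, (2 : ZMod 9) ^ s * 5 ^ s = 1 := fun s => by
      rw [← mul_pow]
      have : (2 * 5 : ZMod 9) = 1 := by decide
      rw [this, one_pow]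
    calc (2 : ZMod 9) ^ v.flatten.sum * 5 ^ w.flatten.sum *
          (2 ^ w.flatten.sum * 5 ^ v.flatten.sum) =
          (2 ^ v.flatten.sum * 5 ^ v.flatten.sum) * (2 ^ w.flatten.sum * 5 ^ w.flatten.sum) := by
            ring
      _ = 1 := by rw [e1, e1, one_mul]
  have r1' : ((run w (run u b) : ℤ) : ZMod (3 ^ j)) = ((run w (run u' b) : ℤ) : ZMod (3 ^ j)) := r1
  have r2' : zj j (run w (run u b)) -
      2 ^ w.flatten.sum * 5 ^ v.flatten.sum * zj j (run v (run u b)) =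
      zj j (run w (run u' b)) -
      2 ^ w.flatten.sum * 5 ^ v.flatten.sum * zj j (run v (run u' b)) := r2
  show ((((run w (run u b) : ℤ) : ZMod (3 ^ j)), (2 : ZMod 9) ^ v.flatten.sum * 5 ^ w.flatten.sum,
      zj j (run v (run u b)) -
        2 ^ v.flatten.sum * 5 ^ w.flatten.sum * zj j (run w (run u b))) :
      ZMod (3 ^ j) × ZMod 9 × ZMod 9) =
    (((run w (run u' b) : ℤ) : ZMod (3 ^ j)), (2 : ZMod 9) ^ v.flatten.sum * 5 ^ w.flatten.sum,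
      zj j (run v (run u' b)) -
        2 ^ v.flatten.sum * 5 ^ w.flatten.sum * zj j (run w (run u' b)))
  rw [Prod.mk.injEq, Prod.mk.injEq]
  refine ⟨r1', rfl, ?_⟩
  linear_combination (-(2 ^ v.flatten.sum * 5 ^ w.flatten.sum : ZMod 9)) * r2' -
    (zj j (run v (run u b)) - zj j (run v (run u' b))) * hinv

/-- (H4)(3): `mi_pq_le` with `F = (X mod 3^j, zj X)` (same fibres as `X mod 3^(j+2)`). -/
theorem lp_three (K : Ker) (N n : ℕ) {b : ℤ} (hb : ¬ (3 : ℤ) ∣ b) (j : ℕ) :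
    mi (lpS K N n) (lpw K b) (fun q => (((lpX b q : ℤ) : ZMod (3 ^ j)), zj j (lpX b q)))
      (fun q => (((lpY b q : ℤ) : ZMod (3 ^ j)), zj j (lpY b q))) ≤ et3 K N n b j := by
  have h1 := mi_pq_le (isProb_p1 K N hb) (q1_nonneg K b) (sum_q1 K N n hb)
    (fun z => (((end2 b z : ℤ) : ZMod (3 ^ j)), zj j (end2 b z)))
  refine h1.trans (le_of_eq ?_)
  have h2 : ent (wn K.B N ×ˢ wn K.B n) (pq (p1 K b) (q1 K b))
      (fun z => (((end2 b z : ℤ) : ZMod (3 ^ j)), zj j (end2 b z))) = hh K (N + n) b (j + 2) := by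
    rw [← hh_two]
    refine ent_congr fun z _ z' _ _ _ => ?_
    rw [zj_iff, Prod.mk.injEq]
  have h3 : ∑ u ∈ wn K.B N, p1 K b u * ent (wn K.B n) (q1 K b u)
      (fun v => (((end2 b (u, v) : ℤ) : ZMod (3 ^ j)), zj j (end2 b (u, v)))) =
      PN K N (fun x => hh K n x (j + 2)) b := by
    unfold PN
    refine Finset.sum_congr rfl fun u _ => ?_
    have h4 : ent (wn K.B n) (q1 K b u)
      (fun v => (((end2 b (u, v) : ℤ) : ZMod (3 ^ j)), zj j (end2 b (u, v)))) =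
      hh K n (run u b) (j + 2) := by
      unfold hh
      refine ent_congr fun z _ z' _ _ _ => ?_
      rw [zj_iff, Prod.mk.injEq]
      exact Iff.rfl
    rw [h4]
    rfl
  rw [h2, h3]
  rfl

/-- (H4)(4): `mass_pq_swap`. -/
theorem lp_four (K : Ker) (N n : ℕ) (b : ℤ) (j : ℕ) (a : ZMod (3 ^ j) × ZMod 9) :
    mass (lpS K N n) (lpw K b) (fun q => (((lpX b q : ℤ) : ZMod (3 ^ j)), zj j (lpX b q))) a =
      mass (lpS K N n) (lpw K b) (fun q => (((lpY b q : ℤ) : ZMod (3 ^ j)), zj j (lpY b q))) a :=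
  mass_pq_swap (fun z => (((end2 b z : ℤ) : ZMod (3 ^ j)), zj j (end2 b z))) a

end Pool.Agent.Lib.MP_d0d59f_nt.GE
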