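import Pool.Agent.Lib.MP_d0d59f_nt.GE.G2a

/-! Row ge_K1: digit entropies versus `sb` and `ub`. -/

namespace Pool.Agent.Lib.MP_d0d59f_nt.GE

open Finset

theorem k1_le {ι A D : Type*} {Ω : Finset ι} {p : ι → ℝ} (hp : IsProb Ω p) (C : ι → A)
    (g : ι → D) (c : A) (d : D) : mass Ω p (fun i => (C i, g i)) (c, d) ≤ mass Ω p C c := by
  unfold mass
  refine sum_le_sum fun i hi => ?_
  by_cases h : C i = c
  · rw [if_pos h]
    split_ifs
    · exact le_rfl
    · exact hp.1 i hi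
  · rw [if_neg h, if_neg (fun h' => h (Prod.ext_iff.1 h').1)]

theorem k1_diff {ι A D : Type*} [Fintype A] [Fintype D] {Ω : Finset ι} {p : ι → ℝ} (C : ι → A)
    (g : ι → D) : ent Ω p (fun i => (C i, g i)) - ent Ω p C =
      ∑ c : A, ∑ d : D, mass Ω p (fun i => (C i, g i)) (c, d) *
        (Real.log (mass Ω p C c) - Real.log (mass Ω p (fun i => (C i, g i)) (c, d))) := by
  rw [ent_eq_sum, ent_eq_sum, Fintype.sum_prod_type, ← sum_sub_distrib]
  refine sum_congr rfl fun c _ => ?_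
  have h1 : Real.negMulLog (mass Ω p C c) =
      ∑ d : D, -(mass Ω p (fun i => (C i, g i)) (c, d) * Real.log (mass Ω p C c)) := by
    rw [sum_neg_distrib, ← sum_mul, sum_mass_snd, Real.negMulLog]
    ring
  rw [h1, ← sum_sub_distrib]
  refine sum_congr rfl fun d _ => ?_
  rw [Real.negMulLog]
  ring

theorem k1_term {q P : ℝ} (hq : 0 ≤ q) (hqP : q ≤ P) :
    q * (Real.log P - Real.log q) ≤ 2 * (√(q * (P - q) / P) * √(P - q)) := by
  rcases hq.eq_or_lt with h0 | h0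
  · rw [← h0]
    simp
  have hP : 0 < P := h0.trans_le hqP
  have h1 : 1 ≤ P / q := (one_le_div h0).2 hqP
  set s := √(P / q) with hs
  have hs1 : 1 ≤ s := by
    rw [hs]
    exact Real.one_le_sqrt.2 h1
  have hss : s ^ 2 = P / q := Real.sq_sqrt (by positivity)
  have hPs : P = s ^ 2 * q := by
    rw [hss]
    field_simp
  have h2 : Real.log P - Real.log q ≤ 2 * (s - 1) := by
    rw [← Real.log_div hP.ne' h0.ne', ← hss, Real.log_pow]
    have h3 := Real.log_le_sub_one_of_pos (show 0 < s by linarith)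
    push_cast
    linarith
  have h4 : √(q * (P - q) / P) * √(P - q) = (P - q) / s := by
    have hs0 : 0 < s := by linarith
    rw [← Real.sqrt_mul (by
      apply div_nonneg (mul_nonneg hq (by linarith)) hP.le)]
    have h5 : q * (P - q) / P * (P - q) = ((P - q) / s) ^ 2 := by
      rw [div_pow, hss]
      field_simp
    rw [h5, Real.sqrt_sq (div_nonneg (by linarith) hs0.le)]
  rw [h4]
  have hs0 : 0 < s := by linarith
  have h6 : (P - q) / s = q * (s - 1) * ((s + 1) / s) := by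
    rw [hPs]
    field_simp
    ring
  have h7 : 1 ≤ (s + 1) / s := by
    rw [one_le_div hs0]
    linarith
  have h8 : 0 ≤ q * (s - 1) := mul_nonneg hq (by linarith)
  calc q * (Real.log P - Real.log q) ≤ q * (2 * (s - 1)) := mul_le_mul_of_nonneg_left h2 hq
    _ = 2 * (q * (s - 1) * 1) := by ring
    _ ≤ 2 * (q * (s - 1) * ((s + 1) / s)) := by
        have := mul_le_mul_of_nonneg_left h7 h8
        linarith
    _ = _ := by rw [h6]

theorem k1_sb {ι A : Type*} [Fintype A] {Ω : Finset ι} {p : ι → ℝ} (hp : IsProb Ω p)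
    (C : ι → A) (Z : ι → ZMod 9) :
    ∑ c : A, ∑ d : ZMod 3, mass Ω p (fun i => (C i, d1 (Z i))) (c, d) *
      (mass Ω p C c - mass Ω p (fun i => (C i, d1 (Z i))) (c, d)) / mass Ω p C c = sb Ω p C Z := by
  have h1 : ∑ c : A, ∑ d : ZMod 3, mass Ω p (fun i => (C i, d1 (Z i))) (c, d) = 1 := by
    have h2 : ∀ c : A, ∑ d : ZMod 3, mass Ω p (fun i => (C i, d1 (Z i))) (c, d) = mass Ω p C c :=
      fun c => sum_mass_snd Ω p C (fun i => d1 (Z i)) c
    simp only [h2]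
    exact sum_mass hp C
  rw [sb, ← h1, ← sum_sub_distrib]
  refine sum_congr rfl fun c _ => ?_
  rw [← sum_sub_distrib]
  refine sum_congr rfl fun d _ => ?_
  by_cases hP : mass Ω p C c = 0
  · have h3 := k1_le hp C (fun i => d1 (Z i)) c d
    have h4 := mass_nonneg hp.1 (fun i => (C i, d1 (Z i))) (c, d)
    have h5 : mass Ω p (fun i => (C i, d1 (Z i))) (c, d) = 0 := by linarith
    rw [h5, hP]
    simp
  · field_simp

/-- `H(d | C) ≤ 3 √sb` for the first digit `d` of `Z`. For a probability vector `t` on `ℤ/3`: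
`-t log t ≤ 2 √t (1 - √t) ≤ 2 √t (1 - t)` (`-log √t ≤ 1/√t - 1`), so by Cauchy-Schwarz
`H(t) ≤ 2 √(∑ t (1-t)) √(∑ (1-t)) = 2 √2 √(1 - ∑ t²)`; and `∑_c P(c) √(s c) ≤ √(∑ P(c) s(c)) = √sb`.
`ent (C, d) - ent C = ∑_c P(c) H(P(·|c))` (`ent_eq_sum`, `sum_mass_snd`). -/
theorem digit_le {ι A : Type*} [Fintype A] {Ω : Finset ι} {p : ι → ℝ} (hp : IsProb Ω p)
    (C : ι → A) (Z : ι → ZMod 9) :
    ent Ω p (fun i => (C i, d1 (Z i))) - ent Ω p C ≤ 3 * √(sb Ω p C Z) := by
  have hle := k1_le hp C (fun i => d1 (Z i))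
  have hnn := mass_nonneg hp.1 (fun i => (C i, d1 (Z i)))
  set q : A → ZMod 3 → ℝ := fun c d => mass Ω p (fun i => (C i, d1 (Z i))) (c, d) with hq
  set P : A → ℝ := fun c => mass Ω p C c with hP
  have hPn : ∀ c, 0 ≤ P c := fun c => mass_nonneg hp.1 C c
  have hqP : ∀ c d, q c d ≤ P c := fun c d => hle c d
  have hqn : ∀ c d, 0 ≤ q c d := fun c d => hnn (c, d)
  have h1 : ent Ω p (fun i => (C i, d1 (Z i))) - ent Ω p C =
      ∑ x : A × ZMod 3, q x.1 x.2 * (Real.log (P x.1) - Real.log (q x.1 x.2)) := by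
    rw [k1_diff, Fintype.sum_prod_type]
  have h2 : ∑ x : A × ZMod 3, q x.1 x.2 * (Real.log (P x.1) - Real.log (q x.1 x.2)) ≤
      ∑ x : A × ZMod 3, 2 * (√(q x.1 x.2 * (P x.1 - q x.1 x.2) / P x.1) *
        √(P x.1 - q x.1 x.2)) :=
    sum_le_sum fun x _ => k1_term (hqn _ _) (hqP _ _)
  have h3 := Real.sum_mul_le_sqrt_mul_sqrt (univ : Finset (A × ZMod 3))
    (fun x => √(q x.1 x.2 * (P x.1 - q x.1 x.2) / P x.1)) (fun x => √(P x.1 - q x.1 x.2))
  have h4 : ∑ x : A × ZMod 3, √(q x.1 x.2 * (P x.1 - q x.1 x.2) / P x.1) ^ 2 = sb Ω p C Z := by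
    rw [← k1_sb hp C Z, Fintype.sum_prod_type]
    refine sum_congr rfl fun c _ => sum_congr rfl fun d _ => ?_
    rw [Real.sq_sqrt]
    exact div_nonneg (mul_nonneg (hqn c d) (sub_nonneg.2 (hqP c d))) (hPn c)
  have h5 : ∑ x : A × ZMod 3, √(P x.1 - q x.1 x.2) ^ 2 = 2 := by
    have h6 : ∀ c, ∑ d : ZMod 3, q c d = P c := fun c =>
      sum_mass_snd Ω p C (fun i => d1 (Z i)) c
    have h7 : ∑ c : A, P c = 1 := sum_mass hp C
    rw [Fintype.sum_prod_type]
    have h8 : ∀ c : A, ∑ d : ZMod 3, √(P c - q c d) ^ 2 = 2 * P c := by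
      intro c
      have h9 : ∀ d : ZMod 3, √(P c - q c d) ^ 2 = P c - q c d := fun d =>
        Real.sq_sqrt (sub_nonneg.2 (hqP c d))
      simp only [h9]
      rw [sum_sub_distrib, h6, sum_const, card_univ, ZMod.card, nsmul_eq_mul]
      push_cast
      ring
    simp only [h8]
    rw [← mul_sum, h7, mul_one]
  rw [h4, h5] at h3
  have h10 : √(2 : ℝ) ≤ 3 / 2 := by
    rw [Real.sqrt_le_left (by norm_num)]
    norm_num
  rw [h1]
  refine h2.trans ?_
  rw [← mul_sum]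
  have h11 : √(sb Ω p C Z) * √2 ≤ √(sb Ω p C Z) * (3 / 2) :=
    mul_le_mul_of_nonneg_left h10 (Real.sqrt_nonneg _)
  linarith

/-- `2 log 3 - H(Z | C) ≤ 9 ub`: for a probability vector `t` on `ℤ/9`,
`log 9 - H(t) = ∑ t log (9 t) ≤ ∑ t (9 t - 1) = 9 ∑ (t - 1/9)² ≤ 9 ∑ |t - 1/9|`. -/
theorem digits_ge {ι A : Type*} [Fintype A] {Ω : Finset ι} {p : ι → ℝ} (hp : IsProb Ω p)
    (C : ι → A) (Z : ι → ZMod 9) :
    2 * Real.log 3 - (ent Ω p (fun i => (C i, Z i)) - ent Ω p C) ≤ 9 * ub Ω p C Z := by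
  have hle := k1_le hp C Z
  have hnn := mass_nonneg hp.1 (fun i => (C i, Z i))
  have h1 : ∑ c : A, ∑ z : ZMod 9, mass Ω p (fun i => (C i, Z i)) (c, z) = 1 := by
    have h2 : ∀ c : A, ∑ z : ZMod 9, mass Ω p (fun i => (C i, Z i)) (c, z) = mass Ω p C c :=
      fun c => sum_mass_snd Ω p C Z c
    simp only [h2]
    exact sum_mass hp C
  have h3 : 2 * Real.log 3 = Real.log 9 := by
    rw [show (9 : ℝ) = 3 ^ 2 by norm_num, Real.log_pow]
    push_cast
    ring
  have h4 : 2 * Real.log 3 = ∑ c : A, ∑ z : ZMod 9,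
      mass Ω p (fun i => (C i, Z i)) (c, z) * Real.log 9 := by
    simp only [← sum_mul]
    rw [h1, one_mul, h3]
  rw [k1_diff, h4, ← sum_sub_distrib, ub, mul_sum]
  refine sum_le_sum fun c _ => ?_
  rw [← sum_sub_distrib, mul_sum]
  refine sum_le_sum fun z _ => ?_
  have hq := hnn (c, z)
  have hqP := hle c z
  set q := mass Ω p (fun i => (C i, Z i)) (c, z)
  set P := mass Ω p C c
  rcases hq.eq_or_lt with h0 | h0
  · rw [← h0]
    simp only [zero_mul, sub_zero]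
    positivity
  have hP : 0 < P := h0.trans_le hqP
  have h5 : q * Real.log 9 - q * (Real.log P - Real.log q) = q * Real.log (9 * q / P) := by
    rw [Real.log_div (by positivity) hP.ne', Real.log_mul (by norm_num) h0.ne']
    ring
  rw [h5]
  have h6 := Real.log_le_sub_one_of_pos (show 0 < 9 * q / P by positivity)
  calc q * Real.log (9 * q / P) ≤ q * (9 * q / P - 1) := mul_le_mul_of_nonneg_left h6 hq
    _ = q / P * (9 * (q - P / 9)) := by field_simp
    _ ≤ q / P * (9 * |q - P / 9|) :=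
        mul_le_mul_of_nonneg_left (by linarith [le_abs_self (q - P / 9)]) (by positivity)
    _ ≤ 1 * (9 * |q - P / 9|) :=
        mul_le_mul_of_nonneg_right ((div_le_one hP).2 hqP) (by positivity)
    _ = _ := one_mul _

theorem sb_nonneg {ι A : Type*} [Fintype A] {Ω : Finset ι} {p : ι → ℝ} (hp : IsProb Ω p)
    (C : ι → A) (Z : ι → ZMod 9) : 0 ≤ sb Ω p C Z := by
  rw [← k1_sb hp C Z]
  refine sum_nonneg fun c _ => sum_nonneg fun d _ => ?_
  exact div_nonneg (mul_nonneg (mass_nonneg hp.1 _ _) (sub_nonneg.2 (k1_le hp C _ c d)))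
    (mass_nonneg hp.1 _ _)

theorem ub_nonneg {ι A : Type*} [Fintype A] {Ω : Finset ι} {p : ι → ℝ} (C : ι → A)
    (Z : ι → ZMod 9) : 0 ≤ ub Ω p C Z := by
  unfold ub
  exact sum_nonneg fun c _ => sum_nonneg fun z _ => abs_nonneg _

end Pool.Agent.Lib.MP_d0d59f_nt.GE
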