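import Pool.Agent.Lib.MP_d0d59f_nt.GE.K1
import Pool.Agent.Lib.MP_d0d59f_nt.GE.G2d
import Pool.Agent.Lib.MP_d0d59f_nt.GE.H4

/-! Row ge_K2: the dichotomy for digit entropies. -/

namespace Pool.Agent.Lib.MP_d0d59f_nt.GE

open Finset

/-- Digit `j` is nearly deterministic, or digits `j`, `j+1` are nearly uniform. -/
def GoodD (K : Ker) (ζ : ℝ) (N : ℕ) (b : ℤ) (j : ℕ) : Prop :=
  dg K N b j ≤ ζ ∨ (Real.log 3 - ζ ≤ dg K N b j ∧ Real.log 3 - ζ ≤ dg K N b (j + 1))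

/-- The entropy of a function of the first end point in the loop space. -/
theorem k2_ent_fst {A : Type*} (K : Ker) (N n : ℕ) {b : ℤ} (hb : ¬ (3 : ℤ) ∣ b) (F : ℤ → A) :
    ent (lpS K N n) (lpw K b) (fun q => F (lpX b q)) =
      ent (wn K.B N ×ˢ wn K.B n) (pq (p1 K b) (q1 K b)) (fun z => F (end2 b z)) := by
  unfold lpS lpw lpX
  refine ent_pq_fst (I := wn K.B N ×ˢ wn K.B n) (J := wn K.B n) (p := pq (p1 K b) (q1 K b))
    (q := fun z => q1 K b z.1) ?_ (fun z => F (end2 b z))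
  intro i hi hpi
  have h1 : p1 K b i.1 ≠ 0 := by
    intro h0
    exact hpi (by simp [pq, h0])
  exact sum_q1 K N n hb i.1 (Finset.mem_product.1 hi).1 h1

theorem k2_ent_C (K : Ker) (N n : ℕ) {b : ℤ} (hb : ¬ (3 : ℤ) ∣ b) (j : ℕ) :
    ent (lpS K N n) (lpw K b) (fun q => ((lpX b q : ℤ) : ZMod (3 ^ j))) = hh K (N + n) b j := by
  rw [k2_ent_fst K N n hb (fun x => ((x : ℤ) : ZMod (3 ^ j)))]
  exact hh_two K N n b j

theorem k2_ent_one (K : Ker) (N n : ℕ) {b : ℤ} (hb : ¬ (3 : ℤ) ∣ b) (j : ℕ) :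
    ent (lpS K N n) (lpw K b)
      (fun q => (((lpX b q : ℤ) : ZMod (3 ^ j)), d1 (zj j (lpX b q)))) =
        hh K (N + n) b (j + 1) := by
  rw [← k2_ent_C K N n hb (j + 1)]
  refine ent_congr ?_
  intro q _ q' _ _ _
  rw [zj_iff_one]
  simp only [Prod.mk.injEq, d1]

theorem k2_ent_two (K : Ker) (N n : ℕ) {b : ℤ} (hb : ¬ (3 : ℤ) ∣ b) (j : ℕ) :
    ent (lpS K N n) (lpw K b)
      (fun q => (((lpX b q : ℤ) : ZMod (3 ^ j)), zj j (lpX b q))) =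
        hh K (N + n) b (j + 2) := by
  rw [← k2_ent_C K N n hb (j + 2)]
  refine ent_congr ?_
  intro q _ q' _ _ _
  rw [zj_iff]
  simp only [Prod.mk.injEq]

/-- (K). In the loop space (`lpS`, `lpw`), `C = X mod 3^j`, `Z = zj j X`: `lemmaG` with `lp_one .. lp_four`,
`lpU_one`, `isProb_lp` gives `sb * ub ≤ 40 √η`. With `δ = min ((ζ/3)²) (ζ/9)` and `η = (δ²/40)²`: `sb ≤ δ` or `ub ≤ δ`. In the first
case `digit_le`: `dg (N+n) b j = H(C, d1 Z) - H(C) ≤ 3 √δ ≤ ζ`; in the second `digits_ge`: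
`(log 3 - dg j) + (log 3 - dg (j+1)) ≤ 9 δ ≤ ζ` and both terms are `≥ 0` (`dg_le`).
Translation: `(C, d1 Z)` has the fibres of `X mod 3^(j+1)` (`zj_iff_one`), `(C, Z)` those of `X mod 3^(j+2)` (`zj_iff`);
functions of `(u, v)` only: `ent_pq_fst` and `hh_two`. -/
theorem K_dich (ζ : ℝ) (hζ : 0 < ζ) : ∃ η : ℝ, 0 < η ∧ ∀ (K : Ker) (N n : ℕ) (b : ℤ),
    ¬ (3 : ℤ) ∣ b → ∀ j : ℕ, 1 ≤ j → et1 K N n b j ≤ η → et3 K N n b j ≤ η →
      GoodD K ζ (N + n) b j := by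
  obtain ⟨δ, hδ⟩ : ∃ δ : ℝ, δ = min ((ζ / 3) ^ 2) (ζ / 9) := ⟨_, rfl⟩
  have hδ0 : 0 < δ := by
    rw [hδ]
    exact lt_min (by positivity) (by positivity)
  have hδ1 : δ ≤ (ζ / 3) ^ 2 := by
    rw [hδ]
    exact min_le_left _ _
  have hδ2 : δ ≤ ζ / 9 := by
    rw [hδ]
    exact min_le_right _ _
  refine ⟨(δ ^ 2 / 40) ^ 2, by positivity, ?_⟩
  intro K N n b hb j hj h1 h3
  have hsq : √((δ ^ 2 / 40) ^ 2) = δ ^ 2 / 40 := Real.sqrt_sq (by positivity)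
  have hmain := lemmaG (isProb_lp K N n hb)
    (fun q => ((lpX b q : ℤ) : ZMod (3 ^ j))) (fun q => ((lpY b q : ℤ) : ZMod (3 ^ j)))
    (fun q => zj j (lpX b q)) (fun q => zj j (lpY b q)) lpU
    (fun q hq _ => lpU_one K N n q hq) ((δ ^ 2 / 40) ^ 2)
    ((lp_one K N n hb hj).trans h1) ((lp_two K N n hb hj).trans h1)
    ((lp_three K N n hb j).trans h3) (lp_four K N n b j)
  rw [hsq] at hmain
  have hC := k2_ent_C K N n hb j
  have hC1 := k2_ent_one K N n hb j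
  have hC2 := k2_ent_two K N n hb j
  have hprob := isProb_lp K N n hb
  have hsb := sb_nonneg hprob (fun q => ((lpX b q : ℤ) : ZMod (3 ^ j)))
    (fun q => zj j (lpX b q))
  have hub := ub_nonneg (Ω := lpS K N n) (p := lpw K b)
    (fun q => ((lpX b q : ℤ) : ZMod (3 ^ j))) (fun q => zj j (lpX b q))
  have hd := digit_le hprob (fun q => ((lpX b q : ℤ) : ZMod (3 ^ j)))
    (fun q => zj j (lpX b q))
  have hdd := digits_ge hprob (fun q => ((lpX b q : ℤ) : ZMod (3 ^ j)))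
    (fun q => zj j (lpX b q))
  rw [hC, hC1] at hd
  rw [hC, hC2] at hdd
  obtain ⟨s, hs⟩ : ∃ s : ℝ, s = sb (lpS K N n) (lpw K b)
    (fun q => ((lpX b q : ℤ) : ZMod (3 ^ j))) (fun q => zj j (lpX b q)) := ⟨_, rfl⟩
  obtain ⟨u, hu⟩ : ∃ u : ℝ, u = ub (lpS K N n) (lpw K b)
    (fun q => ((lpX b q : ℤ) : ZMod (3 ^ j))) (fun q => zj j (lpX b q)) := ⟨_, rfl⟩
  rw [← hs, ← hu] at hmain
  rw [← hs] at hsb hd
  rw [← hu] at hub hdd
  have hcases : s ≤ δ ∨ u ≤ δ := by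
    by_contra hcon
    push Not at hcon
    have : δ * δ < s * u := mul_lt_mul'' hcon.1 hcon.2 hδ0.le hδ0.le
    nlinarith
  rcases hcases with hsd | hud
  · left
    have hroot : √s ≤ ζ / 3 := by
      rw [Real.sqrt_le_left (by positivity)]
      exact hsd.trans hδ1
    unfold dg
    linarith
  · right
    have e1 := dg_le K (N + n) b j
    have e2 := dg_le K (N + n) b (j + 1)
    unfold dg at e1 e2 ⊢
    have e3 : j + 1 + 1 = j + 2 := rfl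
    rw [e3] at e2 ⊢
    constructor <;> linarith

/-- `η₁ ≥ 0` (`cmi_two`, `cmi_nonneg`). -/
theorem et1_nonneg (K : Ker) (N n : ℕ) {b : ℤ} (hb : ¬ (3 : ℤ) ∣ b) {j : ℕ} (hj : 1 ≤ j) :
    0 ≤ et1 K N n b j := by
  rw [← cmi_two K N n hb hj]
  exact cmi_nonneg (isProb_pq (isProb_p1 K N hb) (q1_nonneg K b) (sum_q1 K N n hb)) _ _ _

/-- `η₃ ≥ 0` (`hh_ge`). -/
theorem et3_nonneg (K : Ker) (N n : ℕ) {b : ℤ} (hb : ¬ (3 : ℤ) ∣ b) (j : ℕ) :
    0 ≤ et3 K N n b j := by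
  unfold et3
  linarith [hh_ge K N n hb (j + 2)]

end Pool.Agent.Lib.MP_d0d59f_nt.GE
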