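import Pool.Agent.Lib.MP_d0d59f_nt.GE.Defs
import Pool.Agent.Lib.MP_d0d59f_nt.GE.EntB

/-! Row ge_G1: finite facts: cycles in `ℤ/9`, the function `x ↦ ∑ x - ∑ x² / ∑ x`. -/

namespace Pool.Agent.Lib.MP_d0d59f_nt.GE

open Finset

theorem g1_inj : ∀ u : ZMod 9, u.val % 3 = 1 → ∀ z z' : ZMod 9, u * z = u * z' → z = z' := by
  decide

theorem g1_bij (u v : ZMod 9) (hu : u.val % 3 = 1) : Function.Bijective (fun z : ZMod 9 => u * z + v) :=
  Finite.injective_iff_bijective.1 fun _ _ h => g1_inj u hu _ _ (add_right_cancel h)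

theorem g1_three : ∀ u : ZMod 9, u.val % 3 = 1 → ∀ v : ZMod 9, v.val % 3 ≠ 0 → ∀ z : ZMod 9,
    u * (u * (u * z + v) + v) + v ≠ z := by
  decide

theorem g1_nine : ∀ u : ZMod 9, u.val % 3 = 1 → ∀ v : ZMod 9, ∀ z : ZMod 9,
    u * (u * (u * (u * (u * (u * (u * (u * (u * z + v) + v) + v) + v) + v) + v) + v) + v) + v = z := by
  decide

/-- the orbit of a point has nine elements -/
theorem g1_orbit (u v : ZMod 9) (hu : u.val % 3 = 1) (hv : v.val % 3 ≠ 0) (z : ZMod 9) :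
    Function.Bijective (fun i : Fin 9 => (fun z : ZMod 9 => u * z + v)^[i.val] z) := by
  have h9 : Function.IsPeriodicPt (fun z : ZMod 9 => u * z + v) 9 z := g1_nine u hu v z
  have h3 : ¬ Function.IsPeriodicPt (fun z : ZMod 9 => u * z + v) 3 z := g1_three u hu v hv z
  have hinj := (g1_bij u v hu).injective
  have key : ∀ i j : ℕ, i < j → j < 9 →
      (fun z : ZMod 9 => u * z + v)^[i] z ≠ (fun z : ZMod 9 => u * z + v)^[j] z := by
    intro i j hij hj h
    have h1 : (fun z : ZMod 9 => u * z + v)^[j] z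
        = (fun z : ZMod 9 => u * z + v)^[i] ((fun z : ZMod 9 => u * z + v)^[j - i] z) := by
      rw [← Function.iterate_add_apply]
      congr 2
      omega
    rw [h1] at h
    have h2 : Function.IsPeriodicPt (fun z : ZMod 9 => u * z + v) (j - i) z := (hinj.iterate i h).symm
    have h4 := h2.gcd h9
    apply h3
    have h5 : Nat.gcd (j - i) 9 ∣ 3 := by
      have h6 : 0 < j - i := by omega
      have h7 : j - i < 9 := by omega
      interval_cases (j - i) <;> decide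
    exact h4.trans_dvd h5
  have hinj2 : Function.Injective (fun i : Fin 9 => (fun z : ZMod 9 => u * z + v)^[i.val] z) := by
    intro i j hij
    by_contra hne
    rcases lt_or_gt_of_ne (fun h => hne (Fin.ext h) : i.val ≠ j.val) with h | h
    · exact key _ _ h j.isLt hij
    · exact key _ _ h i.isLt hij.symm
  exact (Fintype.bijective_iff_injective_and_card _).2 ⟨hinj2, by simp [ZMod.card]⟩

theorem g1_step (u v : ZMod 9) (hu : u.val % 3 = 1) (P : ZMod 9 → ℝ) (i : ℕ) :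
    ∑ z, |P z - P ((fun z : ZMod 9 => u * z + v)^[i] z)| ≤ i * ∑ z, |P (u * z + v) - P z| := by
  induction i with
  | zero => simp
  | succ i ih =>
    have h1 : ∑ z, |P ((fun z : ZMod 9 => u * z + v)^[i] z) - P ((fun z : ZMod 9 => u * z + v)^[i + 1] z)|
        = ∑ z, |P (u * z + v) - P z| := by
      rw [← ((g1_bij u v hu).iterate i).sum_comp (fun z => |P (u * z + v) - P z|)]
      refine sum_congr rfl fun z _ => ?_
      rw [Function.iterate_succ_apply', abs_sub_comm]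
    calc ∑ z, |P z - P ((fun z : ZMod 9 => u * z + v)^[i + 1] z)|
        ≤ ∑ z, (|P z - P ((fun z : ZMod 9 => u * z + v)^[i] z)|
            + |P ((fun z : ZMod 9 => u * z + v)^[i] z) - P ((fun z : ZMod 9 => u * z + v)^[i + 1] z)|) :=
          sum_le_sum fun z _ => abs_sub_le _ _ _
      _ ≤ i * ∑ z, |P (u * z + v) - P z| + ∑ z, |P (u * z + v) - P z| := by
          rw [sum_add_distrib, h1]
          exact add_le_add ih le_rfl
      _ = ((i + 1 : ℕ) : ℝ) * ∑ z, |P (u * z + v) - P z| := by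
          push_cast
          ring

/-- An affine map `h z = u z + v` of `ℤ/9` with `u ≡ 1 mod 3`, `v ≢ 0 mod 3` is a 9-cycle, and for every
`P : ZMod 9 → ℝ` of sum `S`: `∑_z |P z - S/9| ≤ 4 ∑_z |P (h z) - P z|`. For each `z` the orbit
`h^i z`, `i < 9`, runs over `ZMod 9` (decide over `u, v`), `|P (h^i z) - P z| ≤ ∑_{t<i} |P (h^{t+1} z) - P (h^t z)|`
and summing over `z` (`h` bijective) `∑_z |P (h^i z) - P z| ≤ i D`; average over `i < 9`. -/
theorem cycle_bound (u v : ZMod 9) (hu : u.val % 3 = 1) (hv : v.val % 3 ≠ 0) (P : ZMod 9 → ℝ) :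
    ∑ z, |P z - (∑ w, P w) / 9| ≤ 4 * ∑ z, |P (u * z + v) - P z| := by
  have h1 : ∀ z, |P z - (∑ w, P w) / 9| ≤ (∑ i : Fin 9, |P z - P ((fun z : ZMod 9 => u * z + v)^[i.val] z)|) / 9 := by
    intro z
    have h2 : ∑ i : Fin 9, P ((fun z : ZMod 9 => u * z + v)^[i.val] z) = ∑ w, P w :=
      (g1_orbit u v hu hv z).sum_comp P
    have h3 : P z - (∑ w, P w) / 9 = (∑ i : Fin 9, (P z - P ((fun z : ZMod 9 => u * z + v)^[i.val] z))) / 9 := by
      rw [sum_sub_distrib, h2, sum_const, card_univ, Fintype.card_fin, nsmul_eq_mul]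
      push_cast
      ring
    rw [h3, abs_div, abs_of_pos (by norm_num : (0 : ℝ) < 9)]
    exact div_le_div_of_nonneg_right (abs_sum_le_sum_abs _ _) (by norm_num)
  have h4 : ∑ z, ∑ i : Fin 9, |P z - P ((fun z : ZMod 9 => u * z + v)^[i.val] z)|
      ≤ 36 * ∑ z, |P (u * z + v) - P z| := by
    rw [sum_comm]
    calc ∑ i : Fin 9, ∑ z, |P z - P ((fun z : ZMod 9 => u * z + v)^[i.val] z)|
        ≤ ∑ i : Fin 9, ((i.val : ℕ) : ℝ) * ∑ z, |P (u * z + v) - P z| :=
          sum_le_sum fun i _ => g1_step u v hu P i.val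
      _ = 36 * ∑ z, |P (u * z + v) - P z| := by
          rw [← sum_mul]
          congr 1
          simp [Fin.sum_univ_succ]
          norm_num
  calc ∑ z, |P z - (∑ w, P w) / 9|
      ≤ ∑ z, (∑ i : Fin 9, |P z - P ((fun z : ZMod 9 => u * z + v)^[i.val] z)|) / 9 := sum_le_sum fun z _ => h1 z
    _ = (∑ z, ∑ i : Fin 9, |P z - P ((fun z : ZMod 9 => u * z + v)^[i.val] z)|) / 9 := by rw [sum_div]
    _ ≤ (36 * ∑ z, |P (u * z + v) - P z|) / 9 := div_le_div_of_nonneg_right h4 (by norm_num)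
    _ = 4 * ∑ z, |P (u * z + v) - P z| := by ring

/-- `u z + v` with `u ≡ 1 mod 3` is a bijection of `ZMod 9` (so sums can be reindexed). -/
theorem sum_affine (u v : ZMod 9) (hu : u.val % 3 = 1) (F : ZMod 9 → ℝ) :
    ∑ z, F (u * z + v) = ∑ z, F z :=
  (g1_bij u v hu).sum_comp F

theorem g1_inv : ∀ u : ZMod 9, u.val % 3 = 1 → ∃ w : ZMod 9, u * w = 1 ∧ w.val % 3 = 1 := by
  decide

theorem g1_mul1 : ∀ u : ZMod 9, u.val % 3 = 1 → ∀ w : ZMod 9, w.val % 3 = 1 → (w * u).val % 3 = 1 := by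
  decide

theorem g1_mul0 : ∀ w : ZMod 9, w.val % 3 = 1 → ∀ v₁ v₂ : ZMod 9, v₁.val % 3 ≠ v₂.val % 3 →
    (w * (v₁ - v₂)).val % 3 ≠ 0 := by
  decide

/-- Two affine maps `g₁, g₂` with `u₁ ≡ u₂ ≡ 1`, `v₁ ≢ v₂ mod 3`: if `Q₁ (g₁ z) = P z` and
`Q₂ (g₂ z) = P z` are the two images of `P`, then `∑ |P z - S/9| ≤ 4 ∑ |Q₁ z - Q₂ z|`; we state it for arbitrary
`R` as triangle inequality: `∑_z |P z - S/9| ≤ 4 (∑_z |P z - R (u₁ z + v₁)| + ∑_z |P z - R (u₂ z + v₂)|)`.
Proof: `g₂⁻¹ g₁ z = h z` with `h` affine, `u ≡ 1`, `v ≢ 0 mod 3`: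
`|P (h z) - P z| ≤ |P (h z) - R (g₂ (h z))| + |R (g₁ z) - P z|`; `cycle_bound`, `sum_affine`. -/
theorem two_maps (u₁ v₁ u₂ v₂ : ZMod 9) (h1 : u₁.val % 3 = 1) (h2 : u₂.val % 3 = 1)
    (hv : v₁.val % 3 ≠ v₂.val % 3) (P R : ZMod 9 → ℝ) :
    ∑ z, |P z - (∑ w, P w) / 9| ≤
      4 * (∑ z, |P z - R (u₁ * z + v₁)| + ∑ z, |P z - R (u₂ * z + v₂)|) := by
  obtain ⟨w, hw, hw3⟩ := g1_inv u₂ h2
  have hc := cycle_bound (w * u₁) (w * (v₁ - v₂)) (g1_mul1 u₁ h1 w hw3) (g1_mul0 w hw3 v₁ v₂ hv) P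
  refine hc.trans (mul_le_mul_of_nonneg_left ?_ (by norm_num))
  have ht : ∀ z, |P (w * u₁ * z + w * (v₁ - v₂)) - P z|
      ≤ |P z - R (u₁ * z + v₁)| +
        |P (w * u₁ * z + w * (v₁ - v₂)) - R (u₂ * (w * u₁ * z + w * (v₁ - v₂)) + v₂)| := by
    intro z
    have h3 : u₂ * (w * u₁ * z + w * (v₁ - v₂)) + v₂ = u₁ * z + v₁ := by
      calc u₂ * (w * u₁ * z + w * (v₁ - v₂)) + v₂ = (u₂ * w) * (u₁ * z + (v₁ - v₂)) + v₂ := by ring
        _ = u₁ * z + v₁ := by rw [hw]; ring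
    rw [h3, abs_sub_comm (P z) (R (u₁ * z + v₁))]
    have h4 := abs_sub_le (P (w * u₁ * z + w * (v₁ - v₂))) (R (u₁ * z + v₁)) (P z)
    linarith
  calc ∑ z, |P (w * u₁ * z + w * (v₁ - v₂)) - P z|
      ≤ ∑ z, (|P z - R (u₁ * z + v₁)| +
        |P (w * u₁ * z + w * (v₁ - v₂)) - R (u₂ * (w * u₁ * z + w * (v₁ - v₂)) + v₂)|) :=
          sum_le_sum fun z _ => ht z
    _ = ∑ z, |P z - R (u₁ * z + v₁)| + ∑ z, |P z - R (u₂ * z + v₂)| := by
          rw [sum_add_distrib, sum_affine (w * u₁) (w * (v₁ - v₂)) (g1_mul1 u₁ h1 w hw3)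
            (fun z => |P z - R (u₂ * z + v₂)|)]

/-- `φ x = ∑ x - (∑ x²)/(∑ x)` on nonnegative vectors in `ℝ^3` (`= ∑_{v≠w} x_v x_w / ∑ x`, `0` at `x = 0`). -/
noncomputable def phi (x : ZMod 3 → ℝ) : ℝ := ∑ v, x v - (∑ v, x v ^ 2) / ∑ v, x v

theorem g1_phi_bound (y : ZMod 3 → ℝ) (hy : ∀ v, 0 ≤ y v) : 0 ≤ phi y ∧ phi y ≤ ∑ v, y v := by
  have hS : 0 ≤ ∑ v, y v := sum_nonneg fun v _ => hy v
  have h1 : ∑ v, y v ^ 2 ≤ (∑ v, y v) ^ 2 := by
    rw [sq, sum_mul]
    refine sum_le_sum fun v _ => ?_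
    rw [sq]
    exact mul_le_mul_of_nonneg_left (single_le_sum (fun w _ => hy w) (mem_univ v)) (hy v)
  have h0 : 0 ≤ ∑ v, y v ^ 2 := sum_nonneg fun v _ => sq_nonneg _
  rcases hS.eq_or_lt with h | h
  · rw [phi, ← h]
    simp
  · constructor
    · rw [phi, sub_nonneg, div_le_iff₀ h, ← sq]
      exact h1
    · rw [phi, sub_le_self_iff]
      exact div_nonneg h0 hS

theorem g1_phi_zero (x y : ZMod 3 → ℝ) (hx : ∀ v, 0 ≤ x v) (hy : ∀ v, 0 ≤ y v) (hS : ∑ v, x v = 0) :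
    |phi x - phi y| ≤ 2 * ∑ v, |x v - y v| := by
  have hx0 : ∀ v, x v = 0 := fun v => (sum_eq_zero_iff_of_nonneg fun w _ => hx w).1 hS v (mem_univ v)
  have h1 : phi x = 0 := by simp [phi, hx0]
  have h2 := g1_phi_bound y hy
  have h3 : ∑ v, |x v - y v| = ∑ v, y v := by
    refine sum_congr rfl fun v _ => ?_
    rw [hx0 v, zero_sub, abs_neg, abs_of_nonneg (hy v)]
  rw [h1, h3, zero_sub, abs_neg, abs_of_nonneg h2.1]
  have h4 : 0 ≤ ∑ v, y v := sum_nonneg fun v _ => hy v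
  linarith [h2.2]

/-- `φ` is `2`-Lipschitz in `L¹`: with `S = ∑ x`, `S' = ∑ y` (both `> 0`), `ρ = ∑ x y / (S S')`:
`φ x - φ y = ∑_v (x_v - y_v) (1 + ρ - x_v/S - y_v/S')`, and the coefficient lies in `[0, 2]`, because
`ρ ≥ s t` for `s = x_v/S`, `t = y_v/S'` in `[0,1]`, so it is `≥ (1-s)(1-t) ≥ 0`. If `S = 0` then `x = 0`, `φ x = 0` and
`0 ≤ φ y ≤ S'`. -/
theorem phi_lip (x y : ZMod 3 → ℝ) (hx : ∀ v, 0 ≤ x v) (hy : ∀ v, 0 ≤ y v) :
    |phi x - phi y| ≤ 2 * ∑ v, |x v - y v| := by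
  have hS : 0 ≤ ∑ v, x v := sum_nonneg fun v _ => hx v
  have hS' : 0 ≤ ∑ v, y v := sum_nonneg fun v _ => hy v
  rcases hS.eq_or_lt with h | h
  · exact g1_phi_zero x y hx hy h.symm
  rcases hS'.eq_or_lt with h' | h'
  · have h1 := g1_phi_zero y x hy hx h'.symm
    rw [abs_sub_comm (phi x)]
    refine h1.trans (le_of_eq ?_)
    congr 1
    exact sum_congr rfl fun v _ => abs_sub_comm _ _
  set S := ∑ v, x v with hSd
  set S' := ∑ v, y v with hSd'
  set r := ∑ v, (x v / S) * (y v / S') with hr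
  have hr0 : ∀ v, 0 ≤ (x v / S) * (y v / S') := fun v => mul_nonneg (div_nonneg (hx v) hS) (div_nonneg (hy v) hS')
  have hx1 : ∀ v, x v / S ≤ 1 := fun v => (div_le_one h).2 (single_le_sum (fun w _ => hx w) (mem_univ v))
  have hy1 : ∀ v, y v / S' ≤ 1 := fun v => (div_le_one h').2 (single_le_sum (fun w _ => hy w) (mem_univ v))
  have hr1 : r ≤ 1 := by
    calc r ≤ ∑ v, (x v / S) * 1 := sum_le_sum fun v _ =>
          mul_le_mul_of_nonneg_left (hy1 v) (div_nonneg (hx v) hS)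
      _ = 1 := by rw [← sum_mul, ← sum_div, mul_one, div_self h.ne']
  have hid : phi x - phi y = ∑ v, (x v - y v) * (1 + r - x v / S - y v / S') := by
    have e1 : ∑ v, x v * (x v / S) = (∑ v, x v ^ 2) / S := by
      rw [sum_div]
      exact sum_congr rfl fun v _ => by ring
    have e2 : ∑ v, y v * (y v / S') = (∑ v, y v ^ 2) / S' := by
      rw [sum_div]
      exact sum_congr rfl fun v _ => by ring
    have e3 : ∑ v, x v * (y v / S') = S * r := by
      rw [hr, mul_sum]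
      refine sum_congr rfl fun v _ => ?_
      field_simp
    have e4 : ∑ v, y v * (x v / S) = S' * r := by
      rw [hr, mul_sum]
      refine sum_congr rfl fun v _ => ?_
      field_simp
    have e5 : ∑ v, (x v - y v) * (1 + r - x v / S - y v / S')
        = (1 + r) * ∑ v, x v - (1 + r) * ∑ v, y v - ∑ v, x v * (x v / S) - ∑ v, x v * (y v / S')
          + ∑ v, y v * (x v / S) + ∑ v, y v * (y v / S') := by
      rw [mul_sum, mul_sum, ← sum_sub_distrib, ← sum_sub_distrib, ← sum_sub_distrib, ← sum_add_distrib, ← sum_add_distrib]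
      exact sum_congr rfl fun v _ => by ring
    rw [e5, e1, e2, e3, e4, ← hSd, ← hSd', phi, phi, ← hSd, ← hSd']
    ring
  rw [hid, mul_sum]
  refine (abs_sum_le_sum_abs _ _).trans (sum_le_sum fun v _ => ?_)
  rw [abs_mul, mul_comm]
  refine mul_le_mul_of_nonneg_right ?_ (abs_nonneg _)
  have hrv : (x v / S) * (y v / S') ≤ r := single_le_sum (fun w _ => hr0 w) (mem_univ v)
  have ha := div_nonneg (hx v) hS
  have hb := div_nonneg (hy v) hS'
  rw [abs_le]
  constructor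
  · nlinarith [hx1 v, hy1 v]
  · linarith

/-- Convexity: for probability vectors `p, q` on `ℤ/3` (`q` of sum `1`, `p` of sum `1`)
`∑_v (∑_d p d q (d + v))² ≤ ∑_v q v²` (Jensen: `(∑ p_d t_d)² ≤ ∑ p_d t_d²`). -/
theorem conv_sq (p q : ZMod 3 → ℝ) (hp : ∀ d, 0 ≤ p d) (hp1 : ∑ d, p d = 1) (hq : ∀ d, 0 ≤ q d) :
    ∑ v, (∑ d, p d * q (d + v)) ^ 2 ≤ ∑ v, q v ^ 2 := by
  have h1 : ∀ v, (∑ d, p d * q (d + v)) ^ 2 ≤ ∑ d, p d * q (d + v) ^ 2 := by
    intro v
    have h2 := (even_two.convexOn_pow (𝕜 := ℝ)).map_sum_le (t := univ) (w := p) (p := fun d => q (d + v))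
      (fun d _ => hp d) hp1 (fun d _ => Set.mem_univ _)
    simpa only [smul_eq_mul] using h2
  calc ∑ v, (∑ d, p d * q (d + v)) ^ 2 ≤ ∑ v, ∑ d, p d * q (d + v) ^ 2 := sum_le_sum fun v _ => h1 v
    _ = ∑ d, ∑ v, p d * q (d + v) ^ 2 := sum_comm
    _ = ∑ d, p d * ∑ v, q v ^ 2 := by
        refine sum_congr rfl fun d _ => ?_
        rw [← mul_sum]
        congr 1
        exact Equiv.sum_comp (Equiv.addLeft d) (fun v => q v ^ 2)
    _ = ∑ v, q v ^ 2 := by rw [← sum_mul, hp1, one_mul]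

end Pool.Agent.Lib.MP_d0d59f_nt.GE

/-! Row ge_G2a: Lemma G, step 1. -/

namespace Pool.Agent.Lib.MP_d0d59f_nt.GE

open Finset

/-- First digit of an element of `ℤ/9`. -/
def d1 (z : ZMod 9) : ZMod 3 := (z.val : ZMod 3)

/-- Mean collision defect of the first digit: `1 - ∑_{c,d} P(c, d)² / P(c)`. -/
noncomputable def sb {ι A : Type*} [Fintype A] (Ω : Finset ι) (p : ι → ℝ) (C : ι → A)
    (Z : ι → ZMod 9) : ℝ :=
  1 - ∑ c : A, ∑ d : ZMod 3, mass Ω p (fun i => (C i, d1 (Z i))) (c, d) ^ 2 / mass Ω p C c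

/-- Mean `L¹` distance of the law of `Z` given `C` from the uniform law. -/
noncomputable def ub {ι A : Type*} [Fintype A] (Ω : Finset ι) (p : ι → ℝ) (C : ι → A)
    (Z : ι → ZMod 9) : ℝ :=
  ∑ c : A, ∑ z : ZMod 9, |mass Ω p (fun i => (C i, Z i)) (c, z) - mass Ω p C c / 9|

theorem g2a_perm1 {α β γ δ ε : Type*} [Fintype α] [Fintype β] [Fintype γ] [Fintype δ] [Fintype ε]
    (F : α → β → γ → δ → ε → ℝ) :
    ∑ a, ∑ b, ∑ c, ∑ d, ∑ e, F a b c d e = ∑ e, ∑ b, ∑ c, ∑ d, ∑ a, F a b c d e := by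
  have l : ∑ a, ∑ b, ∑ c, ∑ d, ∑ e, F a b c d e =
      ∑ x : α × β × γ × δ × ε, F x.1 x.2.1 x.2.2.1 x.2.2.2.1 x.2.2.2.2 := by
    simp only [Fintype.sum_prod_type]
  have r : ∑ e, ∑ b, ∑ c, ∑ d, ∑ a, F a b c d e =
      ∑ x : ε × β × γ × δ × α, F x.2.2.2.2 x.2.1 x.2.2.1 x.2.2.2.1 x.1 := by
    simp only [Fintype.sum_prod_type]
  rw [l, r]
  exact Fintype.sum_equiv
    { toFun := fun x => (x.2.2.2.2, x.2.1, x.2.2.1, x.2.2.2.1, x.1)
      invFun := fun x => (x.2.2.2.2, x.2.1, x.2.2.1, x.2.2.2.1, x.1)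
      left_inv := fun _ => rfl
      right_inv := fun _ => rfl } _ _ (fun _ => rfl)

theorem g2a_perm2 {α β γ δ ε : Type*} [Fintype α] [Fintype β] [Fintype γ] [Fintype δ] [Fintype ε]
    (F : α → β → γ → δ → ε → ℝ) :
    ∑ a, ∑ b, ∑ c, ∑ d, ∑ e, F a b c d e = ∑ e, ∑ a, ∑ c, ∑ d, ∑ b, F a b c d e := by
  have l : ∑ a, ∑ b, ∑ c, ∑ d, ∑ e, F a b c d e =
      ∑ x : α × β × γ × δ × ε, F x.1 x.2.1 x.2.2.1 x.2.2.2.1 x.2.2.2.2 := by
    simp only [Fintype.sum_prod_type]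
  have r : ∑ e, ∑ a, ∑ c, ∑ d, ∑ b, F a b c d e =
      ∑ x : ε × α × γ × δ × β, F x.2.1 x.2.2.2.2 x.2.2.1 x.2.2.2.1 x.1 := by
    simp only [Fintype.sum_prod_type]
  rw [l, r]
  exact Fintype.sum_equiv
    { toFun := fun x => (x.2.2.2.2, x.1, x.2.2.1, x.2.2.2.1, x.2.1)
      invFun := fun x => (x.2.1, x.2.2.2.2, x.2.2.1, x.2.2.2.1, x.1)
      left_inv := fun _ => rfl
      right_inv := fun _ => rfl } _ _ (fun _ => rfl)

theorem g2a_inj : ∀ u z w : ZMod 9, u.val % 3 = 1 → u * z = u * w → z = w := by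
  decide

/-- Step 1. From (1) and (2): with `m c z = P(C = c, Z = z) / P(C = c)` and `g = (u, v)`,
`∑_{c,c',u,v,z} P(c, c', u, v) |m c z - m' c' (u z + v)| ≤ 4 √η`.
`l1_cmi` for (1): `∑ |P(z, (c',u,v), c) - P(z,c) P(c',u,v,c)/P(c)| ≤ 2 √η`; for (2), the variable `Z'` and
`(C,U,V)`; and the event `{Z = z, C = c, C' = c', U = u, V = v}` is the event
`{Z' = u z + v, C = c, C' = c', U = u, V = v}` (`mass_congr`, `V = Z' - U Z`). Reindex the sum over `z'` by
`z' = u z + v` (`sum_affine`; only `u` with `u.val % 3 = 1` have positive mass). -/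
theorem g_step1 {ι A : Type*} [Fintype A] {Ω : Finset ι} {p : ι → ℝ} (hp : IsProb Ω p)
    (C C' : ι → A) (Z Z' U : ι → ZMod 9) (hU : ∀ i ∈ Ω, p i ≠ 0 → (U i).val % 3 = 1) (η : ℝ)
    (h1 : cmi Ω p Z (fun i => (C' i, U i, Z' i - U i * Z i)) C ≤ η)
    (h2 : cmi Ω p Z' (fun i => (C i, U i, Z' i - U i * Z i)) C' ≤ η) :
    ∑ c : A, ∑ c' : A, ∑ u : ZMod 9, ∑ v : ZMod 9, ∑ z : ZMod 9,
      mass Ω p (fun i => (C i, C' i, U i, Z' i - U i * Z i)) (c, c', u, v) *
        |mass Ω p (fun i => (C i, Z i)) (c, z) / mass Ω p C c -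
          mass Ω p (fun i => (C' i, Z' i)) (c', u * z + v) / mass Ω p C' c'| ≤ 4 * √η := by
  set J : A → A → ZMod 9 → ZMod 9 → ZMod 9 → ℝ := fun c c' u v z =>
    mass Ω p (fun i => (Z i, (C' i, U i, Z' i - U i * Z i), C i)) (z, (c', u, v), c) with hJ
  set J' : A → A → ZMod 9 → ZMod 9 → ZMod 9 → ℝ := fun c c' u v z =>
    mass Ω p (fun i => (Z' i, (C i, U i, Z' i - U i * Z i), C' i)) (z, (c, u, v), c') with hJ'
  set T : A → A → ZMod 9 → ZMod 9 → ℝ := fun c c' u v =>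
    mass Ω p (fun i => (C i, C' i, U i, Z' i - U i * Z i)) (c, c', u, v) with hT
  set m : A → ZMod 9 → ℝ := fun c z => mass Ω p (fun i => (C i, Z i)) (c, z) / mass Ω p C c with hm
  set m' : A → ZMod 9 → ℝ := fun c z => mass Ω p (fun i => (C' i, Z' i)) (c, z) / mass Ω p C' c with hm'
  have hT0 : ∀ c c' u v, 0 ≤ T c c' u v := fun c c' u v => mass_nonneg hp.1 _ _
  have b1 : ∑ c, ∑ c', ∑ u, ∑ v, ∑ z, |J c c' u v z - m c z * T c c' u v| ≤ 2 * √η := by
    have h := l1_cmi hp Z (fun i => (C' i, U i, Z' i - U i * Z i)) C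
    have h' : 2 * √(cmi Ω p Z (fun i => (C' i, U i, Z' i - U i * Z i)) C) ≤ 2 * √η :=
      mul_le_mul_of_nonneg_left (Real.sqrt_le_sqrt h1) (by norm_num)
    refine le_trans (le_of_eq ?_) (h.trans h')
    rw [g2a_perm1]
    refine Finset.sum_congr rfl fun z _ => ?_
    simp only [Fintype.sum_prod_type]
    refine Finset.sum_congr rfl fun c' _ => Finset.sum_congr rfl fun u _ => Finset.sum_congr rfl fun v _ =>
      Finset.sum_congr rfl fun c _ => ?_
    have e1 : mass Ω p (fun i => (Z i, C i)) (z, c) = mass Ω p (fun i => (C i, Z i)) (c, z) :=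
      mass_congr fun i _ _ => by simp only [Prod.mk.injEq]; tauto
    have e2 : mass Ω p (fun i => ((C' i, U i, Z' i - U i * Z i), C i)) ((c', u, v), c) = T c c' u v :=
      mass_congr fun i _ _ => by simp only [Prod.mk.injEq]; tauto
    rw [e1, e2]
    congr 1
    simp only [hJ, hm]
    ring
  have b2 : ∑ c, ∑ c', ∑ u, ∑ v, ∑ z, |J' c c' u v z - m' c' z * T c c' u v| ≤ 2 * √η := by
    have h := l1_cmi hp Z' (fun i => (C i, U i, Z' i - U i * Z i)) C'
    have h' : 2 * √(cmi Ω p Z' (fun i => (C i, U i, Z' i - U i * Z i)) C') ≤ 2 * √η :=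
      mul_le_mul_of_nonneg_left (Real.sqrt_le_sqrt h2) (by norm_num)
    refine le_trans (le_of_eq ?_) (h.trans h')
    rw [g2a_perm2]
    refine Finset.sum_congr rfl fun z _ => ?_
    simp only [Fintype.sum_prod_type]
    refine Finset.sum_congr rfl fun c _ => Finset.sum_congr rfl fun u _ => Finset.sum_congr rfl fun v _ =>
      Finset.sum_congr rfl fun c' _ => ?_
    have e1 : mass Ω p (fun i => (Z' i, C' i)) (z, c') = mass Ω p (fun i => (C' i, Z' i)) (c', z) :=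
      mass_congr fun i _ _ => by simp only [Prod.mk.injEq]; tauto
    have e2 : mass Ω p (fun i => ((C i, U i, Z' i - U i * Z i), C' i)) ((c, u, v), c') = T c c' u v :=
      mass_congr fun i _ _ => by simp only [Prod.mk.injEq]; tauto
    rw [e1, e2]
    congr 1
    simp only [hJ', hm']
    ring
  have key : ∀ c c' u v, ∑ z, T c c' u v * |m c z - m' c' (u * z + v)| ≤
      ∑ z, |J c c' u v z - m c z * T c c' u v| + ∑ z, |J' c c' u v z - m' c' z * T c c' u v| := by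
    intro c c' u v
    by_cases hu : u.val % 3 = 1
    · rw [← sum_affine u v hu (fun z => |J' c c' u v z - m' c' z * T c c' u v|), ← Finset.sum_add_distrib]
      refine Finset.sum_le_sum fun z _ => ?_
      have hJJ : J' c c' u v (u * z + v) = J c c' u v z := by
        refine mass_congr fun i _ _ => ?_
        simp only [Prod.mk.injEq]
        constructor
        · rintro ⟨a1, ⟨a2, a3, a4⟩, a5⟩
          refine ⟨?_, ⟨a5, a3, a4⟩, a2⟩
          rw [a3, a1] at a4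
          have : u * z = u * Z i := by linear_combination a4
          exact (g2a_inj u z (Z i) hu this).symm
        · rintro ⟨a1, ⟨a2, a3, a4⟩, a5⟩
          refine ⟨?_, ⟨a5, a3, a4⟩, a2⟩
          rw [a3, a1] at a4
          linear_combination a4
      rw [hJJ]
      have e3 : T c c' u v * |m c z - m' c' (u * z + v)| =
          |(J c c' u v z - m' c' (u * z + v) * T c c' u v) - (J c c' u v z - m c z * T c c' u v)| := by
        rw [← abs_of_nonneg (hT0 c c' u v), ← abs_mul, abs_of_nonneg (hT0 c c' u v)]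
        congr 1
        ring
      rw [e3]
      refine (abs_sub _ _).trans ?_
      rw [add_comm]
    · have hT1 : T c c' u v = 0 := by
        refine mass_eq_zero fun i hi hpi h => ?_
        simp only [Prod.mk.injEq] at h
        exact hu (h.2.2.1 ▸ hU i hi hpi)
      rw [hT1]
      simp only [zero_mul, Finset.sum_const_zero, mul_zero, sub_zero]
      exact add_nonneg (Finset.sum_nonneg fun _ _ => abs_nonneg _) (Finset.sum_nonneg fun _ _ => abs_nonneg _)
  calc ∑ c, ∑ c', ∑ u, ∑ v, ∑ z, T c c' u v * |m c z - m' c' (u * z + v)|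
      ≤ ∑ c, ∑ c', ∑ u, ∑ v, (∑ z, |J c c' u v z - m c z * T c c' u v| +
          ∑ z, |J' c c' u v z - m' c' z * T c c' u v|) :=
        Finset.sum_le_sum fun c _ => Finset.sum_le_sum fun c' _ => Finset.sum_le_sum fun u _ =>
          Finset.sum_le_sum fun v _ => key c c' u v
    _ = (∑ c, ∑ c', ∑ u, ∑ v, ∑ z, |J c c' u v z - m c z * T c c' u v|) +
          ∑ c, ∑ c', ∑ u, ∑ v, ∑ z, |J' c c' u v z - m' c' z * T c c' u v| := by
        simp only [Finset.sum_add_distrib]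
    _ ≤ 4 * √η := by linarith

end Pool.Agent.Lib.MP_d0d59f_nt.GE

/-! Row ge_G2b: Lemma G, step 2. -/

namespace Pool.Agent.Lib.MP_d0d59f_nt.GE

open Finset

theorem g2b_sq {I : Type*} [Fintype I] (k : I → ZMod 3) (G : I → ℝ) :
    ∑ v : ZMod 3, (∑ g, if k g = v then G g else 0) ^ 2 =
      ∑ g, ∑ g', if k g = k g' then G g * G g' else 0 := by
  have h1 : ∀ v : ZMod 3, (∑ g, if k g = v then G g else 0) ^ 2 =
      ∑ g, ∑ g', if k g = v ∧ k g' = v then G g * G g' else 0 := by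
    intro v
    rw [sq, Finset.sum_mul_sum]
    refine Finset.sum_congr rfl fun g _ => Finset.sum_congr rfl fun g' _ => ?_
    by_cases h : k g = v <;> by_cases h' : k g' = v <;> simp [h, h']
  rw [Finset.sum_congr rfl fun v _ => h1 v, Finset.sum_comm]
  refine Finset.sum_congr rfl fun g _ => ?_
  rw [Finset.sum_comm]
  refine Finset.sum_congr rfl fun g' _ => ?_
  rw [Finset.sum_eq_single (k g)]
  · by_cases h : k g = k g'
    · rw [if_pos ⟨rfl, h.symm⟩, if_pos h]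
    · rw [if_neg (fun h' => h h'.2.symm), if_neg h]
  · intro v _ hv
    rw [if_neg (fun h' => hv h'.1.symm)]
  · intro h
    exact absurd (Finset.mem_univ _) h

theorem g2b_sum {I : Type*} [Fintype I] (k : I → ZMod 3) (G : I → ℝ) :
    ∑ v : ZMod 3, (∑ g, if k g = v then G g else 0) = ∑ g, G g := by
  rw [Finset.sum_comm]
  refine Finset.sum_congr rfl fun g _ => ?_
  simp

theorem g2b_core {I : Type*} [Fintype I] (k : I → ZMod 3) (G D : I → ℝ) (hG : ∀ g, 0 ≤ G g)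
    (hD : ∀ g, 0 ≤ D g) (uc : ℝ)
    (h : ∀ g g', G g ≠ 0 → G g' ≠ 0 → k g ≠ k g' → uc ≤ 4 * (D g + D g')) :
    phi (fun v => ∑ g, if k g = v then G g else 0) * uc ≤ 8 * ∑ g, G g * D g := by
  have hR : 0 ≤ ∑ g, G g * D g := Finset.sum_nonneg fun g _ => mul_nonneg (hG g) (hD g)
  have hS0 : 0 ≤ ∑ g, G g := Finset.sum_nonneg fun g _ => hG g
  rcases hS0.eq_or_lt with hS | hS
  · have hz : ∀ g, G g = 0 := by
      intro g
      have := (Finset.sum_eq_zero_iff_of_nonneg (fun g _ => hG g)).1 hS.symm g (Finset.mem_univ g)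
      exact this
    have : phi (fun v => ∑ g, if k g = v then G g else 0) = 0 := by
      unfold phi
      simp [hz]
    rw [this, zero_mul]
    positivity
  · have hphi : phi (fun v => ∑ g, if k g = v then G g else 0) =
        (∑ g, ∑ g', if k g = k g' then 0 else G g * G g') / ∑ g, G g := by
      unfold phi
      rw [g2b_sum, g2b_sq, eq_div_iff hS.ne', sub_mul, div_mul_cancel₀ _ hS.ne',
        Finset.sum_mul_sum, ← Finset.sum_sub_distrib]
      refine Finset.sum_congr rfl fun g _ => ?_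
      rw [← Finset.sum_sub_distrib]
      refine Finset.sum_congr rfl fun g' _ => ?_
      by_cases h' : k g = k g' <;> simp [h']
    rw [hphi, div_mul_eq_mul_div, div_le_iff₀ hS, Finset.sum_mul]
    have hterm : ∀ g g', (if k g = k g' then 0 else G g * G g') * uc ≤
        4 * (G g * D g * G g' + G g * (G g' * D g')) := by
      intro g g'
      by_cases h' : k g = k g'
      · rw [if_pos h', zero_mul]
        have := hG g; have := hG g'; have := hD g; have := hD g'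
        positivity
      · rw [if_neg h']
        by_cases hg : G g = 0
        · simp [hg]
        by_cases hg' : G g' = 0
        · simp [hg']
        have h2 := mul_le_mul_of_nonneg_left (h g g' hg hg' h') (mul_nonneg (hG g) (hG g'))
        calc G g * G g' * uc ≤ G g * G g' * (4 * (D g + D g')) := h2
          _ = 4 * (G g * D g * G g' + G g * (G g' * D g')) := by ring
    calc ∑ g, (∑ g', if k g = k g' then 0 else G g * G g') * uc
        ≤ ∑ g, ∑ g', 4 * (G g * D g * G g' + G g * (G g' * D g')) := by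
          refine Finset.sum_le_sum fun g _ => ?_
          rw [Finset.sum_mul]
          exact Finset.sum_le_sum fun g' _ => hterm g g'
      _ = 4 * ((∑ g, G g * D g) * (∑ g, G g) + (∑ g, G g) * ∑ g, G g * D g) := by
          rw [Finset.sum_mul_sum, Finset.sum_mul_sum, ← Finset.sum_add_distrib, Finset.mul_sum]
          refine Finset.sum_congr rfl fun g _ => ?_
          rw [← Finset.sum_add_distrib, Finset.mul_sum]
      _ = 8 * (∑ g, G g * D g) * ∑ g, G g := by ring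

theorem g2b_mass {ι A : Type*} (Ω : Finset ι) (p : ι → ℝ) (C C' : ι → A) (U V : ι → ZMod 9)
    (c c' : A) (v : ZMod 3) :
    mass Ω p (fun i => (C i, C' i, d1 (V i))) (c, c', v) =
      ∑ g : ZMod 9 × ZMod 9, if d1 g.2 = v then
        mass Ω p (fun i => (C i, C' i, U i, V i)) (c, c', g.1, g.2) else 0 := by
  unfold mass
  beta_reduce
  have h1 : ∀ (g : ZMod 9 × ZMod 9) (F : ι → ℝ), (if d1 g.2 = v then ∑ i ∈ Ω, F i else 0) =
      ∑ i ∈ Ω, if d1 g.2 = v then F i else 0 := by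
    intro g F
    split_ifs <;> simp
  rw [Finset.sum_congr rfl fun g _ => h1 g _, Finset.sum_comm]
  refine Finset.sum_congr rfl fun i _ => ?_
  rw [Finset.sum_eq_single (U i, V i)]
  · by_cases hC : C i = c <;> by_cases hC' : C' i = c' <;> by_cases hv : d1 (V i) = v <;>
      simp [hC, hC', hv]
  · rintro ⟨a, b⟩ _ hne
    have : ¬ ((C i, C' i, U i, V i) = (c, c', a, b)) := by
      intro h
      simp only [Prod.mk.injEq] at h
      apply hne
      rw [h.2.2.1, h.2.2.2]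
    split_ifs <;> rfl
  · intro h
    exact absurd (Finset.mem_univ _) h

/-- Step 2. `∑_{c,c'} φ_{c,c'} u(c) ≤ 32 √η`, where `φ_{c,c'} = phi (v ↦ P(c, c', V ≡ v mod 3))` and
`u(c) = ∑_z |P(z|c) - 1/9|`. Fix `c, c'` and put `G(u,v) = P(c,c',u,v)`, `D(u,v) = ∑_z |m c z - m' c' (u z + v)|`,
`S = P(c,c') = ∑ G`. `phi = ∑_{g₁,g₂ : v₁ ≢ v₂ mod 3} G(g₁) G(g₂) / S`, by `two_maps` (`P = m c`, `R = m' c'`) `u(c) ≤ 4 (D g₁ + D g₂)` for
such pairs with `G g₁, G g₂ ≠ 0`, so `phi u(c) ≤ 4 ∑ G(g₁)G(g₂)(D g₁ + D g₂)/S ≤ 8 ∑_g G g D g`; sum over `c, c'` and `g_step1`. -/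
theorem g_step2 {ι A : Type*} [Fintype A] {Ω : Finset ι} {p : ι → ℝ} (hp : IsProb Ω p)
    (C C' : ι → A) (Z Z' U : ι → ZMod 9) (hU : ∀ i ∈ Ω, p i ≠ 0 → (U i).val % 3 = 1) (η : ℝ)
    (h1 : cmi Ω p Z (fun i => (C' i, U i, Z' i - U i * Z i)) C ≤ η)
    (h2 : cmi Ω p Z' (fun i => (C i, U i, Z' i - U i * Z i)) C' ≤ η) :
    ∑ c : A, ∑ c' : A,
      phi (fun v => mass Ω p (fun i => (C i, C' i, d1 (Z' i - U i * Z i))) (c, c', v)) *
        ∑ z : ZMod 9, |mass Ω p (fun i => (C i, Z i)) (c, z) / mass Ω p C c - 1 / 9| ≤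
      32 * √η := by
  have hstep := g_step1 hp C C' Z Z' U hU η h1 h2
  have hpt : ∀ c c' : A,
      phi (fun v => mass Ω p (fun i => (C i, C' i, d1 (Z' i - U i * Z i))) (c, c', v)) *
        ∑ z : ZMod 9, |mass Ω p (fun i => (C i, Z i)) (c, z) / mass Ω p C c - 1 / 9| ≤
      8 * ∑ u : ZMod 9, ∑ v : ZMod 9, ∑ z : ZMod 9,
        mass Ω p (fun i => (C i, C' i, U i, Z' i - U i * Z i)) (c, c', u, v) *
        |mass Ω p (fun i => (C i, Z i)) (c, z) / mass Ω p C c -
          mass Ω p (fun i => (C' i, Z' i)) (c', u * z + v) / mass Ω p C' c'| := by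
    intro c c'
    have hcore := g2b_core (fun g : ZMod 9 × ZMod 9 => d1 g.2)
      (fun g => mass Ω p (fun i => (C i, C' i, U i, Z' i - U i * Z i)) (c, c', g.1, g.2))
      (fun g => ∑ z : ZMod 9, |mass Ω p (fun i => (C i, Z i)) (c, z) / mass Ω p C c -
          mass Ω p (fun i => (C' i, Z' i)) (c', g.1 * z + g.2) / mass Ω p C' c'|)
      (fun g => mass_nonneg hp.1 _ _)
      (fun g => Finset.sum_nonneg fun z _ => abs_nonneg _)
      (∑ z : ZMod 9, |mass Ω p (fun i => (C i, Z i)) (c, z) / mass Ω p C c - 1 / 9|)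
      (by
        rintro ⟨u₁, v₁⟩ ⟨u₂, v₂⟩ hg hg' hne
        obtain ⟨i, hi, hpi, hie⟩ := exists_of_mass_ne_zero hg
        obtain ⟨j, hj, hpj, hje⟩ := exists_of_mass_ne_zero hg'
        simp only [Prod.mk.injEq] at hie hje
        have hu1 : u₁.val % 3 = 1 := by rw [← hie.2.2.1]; exact hU i hi hpi
        have hu2 : u₂.val % 3 = 1 := by rw [← hje.2.2.1]; exact hU j hj hpj
        have hv : v₁.val % 3 ≠ v₂.val % 3 := by
          intro h
          apply hne
          show ((v₁.val : ℕ) : ZMod 3) = ((v₂.val : ℕ) : ZMod 3)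
          rw [ZMod.natCast_eq_natCast_iff]
          exact h
        have hCpos : 0 < mass Ω p C c := by
          have := mass_pos hp.1 C hi hpi
          rwa [hie.1] at this
        have hsum : ∑ w : ZMod 9, mass Ω p (fun i => (C i, Z i)) (c, w) / mass Ω p C c = 1 := by
          rw [← Finset.sum_div, sum_mass_snd, div_self hCpos.ne']
        have h3 := two_maps u₁ v₁ u₂ v₂ hu1 hu2 hv
          (fun z => mass Ω p (fun i => (C i, Z i)) (c, z) / mass Ω p C c)
          (fun z => mass Ω p (fun i => (C' i, Z' i)) (c', z) / mass Ω p C' c')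
        rw [hsum] at h3
        exact h3)
    have hfun : (fun v : ZMod 3 =>
        mass Ω p (fun i => (C i, C' i, d1 (Z' i - U i * Z i))) (c, c', v)) =
        fun v => ∑ g : ZMod 9 × ZMod 9, if d1 g.2 = v then
          mass Ω p (fun i => (C i, C' i, U i, Z' i - U i * Z i)) (c, c', g.1, g.2) else 0 := by
      funext v
      exact g2b_mass Ω p C C' U (fun i => Z' i - U i * Z i) c c' v
    rw [hfun]
    refine hcore.trans (le_of_eq ?_)
    rw [Fintype.sum_prod_type]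
    simp only [Finset.mul_sum]
  calc _ ≤ ∑ c : A, ∑ c' : A, 8 * ∑ u : ZMod 9, ∑ v : ZMod 9, ∑ z : ZMod 9,
        mass Ω p (fun i => (C i, C' i, U i, Z' i - U i * Z i)) (c, c', u, v) *
        |mass Ω p (fun i => (C i, Z i)) (c, z) / mass Ω p C c -
          mass Ω p (fun i => (C' i, Z' i)) (c', u * z + v) / mass Ω p C' c'| :=
        Finset.sum_le_sum fun c _ => Finset.sum_le_sum fun c' _ => hpt c c'
    _ = 8 * ∑ c : A, ∑ c' : A, ∑ u : ZMod 9, ∑ v : ZMod 9, ∑ z : ZMod 9,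
        mass Ω p (fun i => (C i, C' i, U i, Z' i - U i * Z i)) (c, c', u, v) *
        |mass Ω p (fun i => (C i, Z i)) (c, z) / mass Ω p C c -
          mass Ω p (fun i => (C' i, Z' i)) (c', u * z + v) / mass Ω p C' c'| := by
        rw [Finset.mul_sum]
        refine Finset.sum_congr rfl fun c _ => ?_
        rw [Finset.mul_sum]
    _ ≤ 8 * (4 * √η) := by linarith
    _ = 32 * √η := by ring

end Pool.Agent.Lib.MP_d0d59f_nt.GE

/-! Row ge_G2c: Lemma G, step 3. -/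

namespace Pool.Agent.Lib.MP_d0d59f_nt.GE

open Finset

theorem g2c_d1 : ∀ u z z' : ZMod 9, u.val % 3 = 1 → d1 (z' - u * z) = d1 z' - d1 z := by
  intro u z z'
  have h : ∀ a b : ZMod 9, d1 (a - b) = d1 a - d1 b := by
    unfold d1
    decide
  have h2 : ∀ u z : ZMod 9, u.val % 3 = 1 → d1 (u * z) = d1 z := by
    unfold d1
    decide
  intro hu
  rw [h, h2 u z hu]

open Classical in
theorem g2c_massV {ι A : Type*} {Ω : Finset ι} {p : ι → ℝ}
    (C C' : ι → A) (Z Z' U : ι → ZMod 9) (hU : ∀ i ∈ Ω, p i ≠ 0 → (U i).val % 3 = 1)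
    (c c' : A) (v : ZMod 3) :
    mass Ω p (fun i => (C i, C' i, d1 (Z' i - U i * Z i))) (c, c', v) =
      ∑ z : ZMod 9, ∑ z' : ZMod 9, if d1 z' = d1 z + v then
        mass Ω p (fun i => ((C i, Z i), (C' i, Z' i))) ((c, z), (c', z')) else 0 := by
  have e : ∀ z z' : ZMod 9, (if d1 z' = d1 z + v then
        mass Ω p (fun i => ((C i, Z i), (C' i, Z' i))) ((c, z), (c', z')) else 0) =
      ∑ i ∈ Ω, if d1 z' = d1 z + v ∧ C i = c ∧ C' i = c' ∧ Z i = z ∧ Z' i = z' then p i else 0 := by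
    intro z z'
    unfold mass
    split_ifs with h
    · refine Finset.sum_congr rfl fun i _ => ?_
      simp only [Prod.mk.injEq]
      by_cases h1 : C i = c <;> by_cases h2 : C' i = c' <;> by_cases h3 : Z i = z <;>
        by_cases h4 : Z' i = z' <;> simp [h, h1, h2, h3, h4]
    · symm
      refine Finset.sum_eq_zero fun i _ => ?_
      rw [if_neg (fun hh => h hh.1)]
  simp only [e]
  rw [Finset.sum_congr rfl fun z _ => Finset.sum_comm, Finset.sum_comm]
  unfold mass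
  refine Finset.sum_congr rfl fun i hi => ?_
  rw [Finset.sum_eq_single (Z i), Finset.sum_eq_single (Z' i)]
  · by_cases hp : p i = 0
    · simp [hp]
    · have hd := g2c_d1 (U i) (Z i) (Z' i) (hU i hi hp)
      simp only [Prod.mk.injEq, hd, and_true]
      have e2 : (d1 (Z' i) - d1 (Z i) = v) ↔ (d1 (Z' i) = d1 (Z i) + v) := by
        constructor
        · intro h; rw [← h]; ring
        · intro h; rw [h]; ring
      by_cases h1 : C i = c <;> by_cases h2 : C' i = c' <;>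
        by_cases h3 : d1 (Z' i) = d1 (Z i) + v <;> simp [e2, h1, h2, h3]
  · intro z' _ hz
    rw [if_neg]
    rintro ⟨_, _, _, _, h5⟩
    exact hz h5.symm
  · intro h; exact absurd (Finset.mem_univ _) h
  · intro z _ hz
    refine Finset.sum_eq_zero fun z' _ => ?_
    rw [if_neg]
    rintro ⟨_, _, _, h4, _⟩
    exact hz h4.symm
  · intro h; exact absurd (Finset.mem_univ _) h

open Classical in
theorem g2c_massD {ι A : Type*} {Ω : Finset ι} {p : ι → ℝ}
    (C : ι → A) (Z : ι → ZMod 9) (c : A) (d : ZMod 3) :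
    mass Ω p (fun i => (C i, d1 (Z i))) (c, d) =
      ∑ z : ZMod 9, if d1 z = d then mass Ω p (fun i => (C i, Z i)) (c, z) else 0 := by
  have e : ∀ z : ZMod 9, (if d1 z = d then mass Ω p (fun i => (C i, Z i)) (c, z) else 0) =
      ∑ i ∈ Ω, if d1 z = d ∧ C i = c ∧ Z i = z then p i else 0 := by
    intro z
    unfold mass
    split_ifs with h
    · refine Finset.sum_congr rfl fun i _ => ?_
      simp only [Prod.mk.injEq]
      by_cases h1 : C i = c <;> by_cases h3 : Z i = z <;> simp [h, h1, h3]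
    · symm
      refine Finset.sum_eq_zero fun i _ => ?_
      rw [if_neg (fun hh => h hh.1)]
  simp only [e]
  rw [Finset.sum_comm]
  unfold mass
  refine Finset.sum_congr rfl fun i hi => ?_
  rw [Finset.sum_eq_single (Z i)]
  · simp only [Prod.mk.injEq, and_true]
    by_cases h1 : C i = c <;> by_cases h3 : d1 (Z i) = d <;> simp [h1, h3]
  · intro z _ hz
    rw [if_neg]
    rintro ⟨_, _, h3⟩
    exact hz h3.symm
  · intro h; exact absurd (Finset.mem_univ _) h

open Classical in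
theorem g2c_prod {ι A : Type*} {Ω : Finset ι} {p : ι → ℝ}
    (C C' : ι → A) (Z Z' : ι → ZMod 9) (c c' : A) (v : ZMod 3) :
    ∑ d : ZMod 3, mass Ω p (fun i => (C i, d1 (Z i))) (c, d) *
          mass Ω p (fun i => (C' i, d1 (Z' i))) (c', d + v) =
      ∑ z : ZMod 9, ∑ z' : ZMod 9, if d1 z' = d1 z + v then
        mass Ω p (fun i => (C i, Z i)) (c, z) * mass Ω p (fun i => (C' i, Z' i)) (c', z')
          else 0 := by
  simp only [g2c_massD, Finset.sum_mul_sum]
  rw [Finset.sum_comm]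
  refine Finset.sum_congr rfl fun z _ => ?_
  rw [Finset.sum_comm]
  refine Finset.sum_congr rfl fun z' _ => ?_
  rw [Finset.sum_eq_single (d1 z)]
  · rw [if_pos rfl]
    split_ifs <;> simp
  · intro d _ hd
    rw [if_neg (fun h => hd h.symm), zero_mul]
  · intro h; exact absurd (Finset.mem_univ _) h

/-- Step 3. `V ≡ Z' - Z mod 3` on the support (`U ≡ 1 mod 3`), so by (3) (`l1_mi`)
`∑_{c,c',v} |P(c,c', V ≡ v) - ∑_d P(c,d) P'(c', d + v)| ≤ 2 √η` (`d` = first digit of `Z`; push the `L¹` bound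
for `((c,z),(c',z'))` forward). -/
theorem g_step3 {ι A : Type*} [Fintype A] {Ω : Finset ι} {p : ι → ℝ} (hp : IsProb Ω p)
    (C C' : ι → A) (Z Z' U : ι → ZMod 9) (hU : ∀ i ∈ Ω, p i ≠ 0 → (U i).val % 3 = 1) (η : ℝ)
    (h3 : mi Ω p (fun i => (C i, Z i)) (fun i => (C' i, Z' i)) ≤ η) :
    ∑ c : A, ∑ c' : A, ∑ v : ZMod 3,
      |mass Ω p (fun i => (C i, C' i, d1 (Z' i - U i * Z i))) (c, c', v) -
        ∑ d : ZMod 3, mass Ω p (fun i => (C i, d1 (Z i))) (c, d) *
          mass Ω p (fun i => (C' i, d1 (Z' i))) (c', d + v)| ≤ 2 * √η := by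
  classical
  have key := l1_mi hp (fun i => (C i, Z i)) (fun i => (C' i, Z' i))
  have hs : 2 * √(mi Ω p (fun i => (C i, Z i)) (fun i => (C' i, Z' i))) ≤ 2 * √η :=
    mul_le_mul_of_nonneg_left (Real.sqrt_le_sqrt h3) (by norm_num)
  refine le_trans ?_ (le_trans key hs)
  rw [Fintype.sum_prod_type]
  refine Finset.sum_le_sum fun c _ => ?_
  have e : ∑ z : ZMod 9, ∑ y : A × ZMod 9,
      |mass Ω p (fun i => ((C i, Z i), (C' i, Z' i))) ((c, z), y) -
        mass Ω p (fun i => (C i, Z i)) (c, z) * mass Ω p (fun i => (C' i, Z' i)) y| =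
      ∑ c' : A, ∑ z : ZMod 9, ∑ z' : ZMod 9,
      |mass Ω p (fun i => ((C i, Z i), (C' i, Z' i))) ((c, z), (c', z')) -
        mass Ω p (fun i => (C i, Z i)) (c, z) * mass Ω p (fun i => (C' i, Z' i)) (c', z')| := by
    simp only [Fintype.sum_prod_type]
    rw [Finset.sum_comm]
  rw [e]
  refine Finset.sum_le_sum fun c' _ => ?_
  have step : ∀ v : ZMod 3,
      |mass Ω p (fun i => (C i, C' i, d1 (Z' i - U i * Z i))) (c, c', v) -
        ∑ d : ZMod 3, mass Ω p (fun i => (C i, d1 (Z i))) (c, d) *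
          mass Ω p (fun i => (C' i, d1 (Z' i))) (c', d + v)| ≤
      ∑ z : ZMod 9, ∑ z' : ZMod 9, if d1 z' = d1 z + v then
        |mass Ω p (fun i => ((C i, Z i), (C' i, Z' i))) ((c, z), (c', z')) -
        mass Ω p (fun i => (C i, Z i)) (c, z) * mass Ω p (fun i => (C' i, Z' i)) (c', z')|
          else 0 := by
    intro v
    rw [g2c_massV C C' Z Z' U hU, g2c_prod, ← Finset.sum_sub_distrib]
    refine le_trans (Finset.abs_sum_le_sum_abs _ _) (Finset.sum_le_sum fun z _ => ?_)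
    rw [← Finset.sum_sub_distrib]
    refine le_trans (Finset.abs_sum_le_sum_abs _ _) (Finset.sum_le_sum fun z' _ => ?_)
    split_ifs
    · exact le_rfl
    · simp
  refine le_trans (Finset.sum_le_sum fun v _ => step v) ?_
  rw [Finset.sum_comm]
  refine Finset.sum_le_sum fun z _ => ?_
  rw [Finset.sum_comm]
  refine Finset.sum_le_sum fun z' _ => ?_
  rw [Finset.sum_eq_single (d1 z' - d1 z)]
  · rw [if_pos (by ring)]
  · intro v _ hv
    rw [if_neg]
    intro h
    exact hv (by rw [h]; ring)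
  · intro h; exact absurd (Finset.mem_univ _) h

end Pool.Agent.Lib.MP_d0d59f_nt.GE

/-! Row ge_G2d: Lemma G. -/

namespace Pool.Agent.Lib.MP_d0d59f_nt.GE

open Finset

theorem g2d_phi_zero : phi (fun _ => (0 : ℝ)) = 0 := by
  simp [phi]

/-- Abstract form: `t` is the law of `(c', d)`, `s` that of `(c, d)`. -/
theorem g2d_phi_conv (s t : ZMod 3 → ℝ) (hs : ∀ d, 0 ≤ s d) (ht : ∀ d, 0 ≤ t d) :
    (∑ d, s d) * ((∑ d, t d) - ∑ d, t d ^ 2 / ∑ e, t e) ≤
      phi (fun v => ∑ d, s d * t (d + v)) := by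
  obtain ⟨S, hS⟩ : ∃ S : ℝ, S = ∑ d, s d := ⟨_, rfl⟩
  obtain ⟨T, hT⟩ : ∃ T : ℝ, T = ∑ d, t d := ⟨_, rfl⟩
  rw [← hS, ← hT]
  have hS0 : 0 ≤ S := hS ▸ Finset.sum_nonneg fun d _ => hs d
  have hT0 : 0 ≤ T := hT ▸ Finset.sum_nonneg fun d _ => ht d
  rcases hS0.eq_or_lt with h | hSp
  · have h0 : ∀ d, s d = 0 := by
      intro d
      have := (Finset.sum_eq_zero_iff_of_nonneg (fun d _ => hs d)).1 (hS ▸ h.symm) d
        (Finset.mem_univ d)
      exact this
    have : (fun v : ZMod 3 => ∑ d, s d * t (d + v)) = fun _ => (0 : ℝ) := by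
      funext v
      exact Finset.sum_eq_zero fun d _ => by rw [h0 d, zero_mul]
    rw [this, g2d_phi_zero, ← h, zero_mul]
  rcases hT0.eq_or_lt with h | hTp
  · have h0 : ∀ d, t d = 0 := by
      intro d
      have := (Finset.sum_eq_zero_iff_of_nonneg (fun d _ => ht d)).1 (hT ▸ h.symm) d
        (Finset.mem_univ d)
      exact this
    have : (fun v : ZMod 3 => ∑ d, s d * t (d + v)) = fun _ => (0 : ℝ) := by
      funext v
      exact Finset.sum_eq_zero fun d _ => by rw [h0 (d + v), mul_zero]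
    rw [this, g2d_phi_zero, ← h]
    simp
  have hsum : ∑ v : ZMod 3, ∑ d, s d * t (d + v) = S * T := by
    rw [Finset.sum_comm, hS, hT, Finset.sum_mul]
    refine Finset.sum_congr rfl fun d _ => ?_
    rw [← Finset.mul_sum]
    congr 1
    exact Fintype.sum_equiv (Equiv.addLeft d) _ _ (fun _ => rfl)
  have hconv := conv_sq (fun d => s d / S) (fun d => t d / T)
    (fun d => div_nonneg (hs d) hS0) (by rw [← Finset.sum_div, ← hS, div_self hSp.ne'])
    (fun d => div_nonneg (ht d) hT0)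
  have hsq : ∑ v : ZMod 3, (∑ d, s d * t (d + v)) ^ 2 ≤ S ^ 2 * ∑ v, t v ^ 2 := by
    have e1 : ∀ v : ZMod 3, (∑ d, s d * t (d + v)) ^ 2 =
        (S * T) ^ 2 * (∑ d, s d / S * (t (d + v) / T)) ^ 2 := by
      intro v
      rw [← mul_pow, Finset.mul_sum]
      congr 1
      refine Finset.sum_congr rfl fun d _ => ?_
      field_simp
    rw [Finset.sum_congr rfl fun v _ => e1 v, ← Finset.mul_sum]
    calc (S * T) ^ 2 * ∑ v : ZMod 3, (∑ d, s d / S * (t (d + v) / T)) ^ 2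
        ≤ (S * T) ^ 2 * ∑ v : ZMod 3, (t v / T) ^ 2 :=
          mul_le_mul_of_nonneg_left hconv (by positivity)
      _ = S ^ 2 * ∑ v, t v ^ 2 := by
          rw [Finset.mul_sum, Finset.mul_sum]
          refine Finset.sum_congr rfl fun d _ => ?_
          field_simp
  unfold phi
  rw [hsum]
  have h1 : (∑ v : ZMod 3, (∑ d, s d * t (d + v)) ^ 2) / (S * T) ≤
      (S ^ 2 * ∑ v, t v ^ 2) / (S * T) :=
    div_le_div_of_nonneg_right hsq (by positivity)
  have h2 : (S ^ 2 * ∑ v, t v ^ 2) / (S * T) = S * ∑ d, t d ^ 2 / T := by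
    rw [← Finset.sum_div]
    field_simp
  rw [h2] at h1
  linarith

/-- LEMMA G: `sb * ub ≤ 40 √η`. For fixed `c, c'` let `x v = P(c,c',V ≡ v)`,
`y v = ∑_d P(c,d) P(c',d+v)` (sum `P(c) P(c')`; by (4) `C', Z'` have the masses of `C, Z`). By `conv_sq`
(`p = P(c,·)/P(c)`, `q = P(c',·)/P(c')`): `phi y ≥ P(c) P(c') (1 - ∑_v P(c',v)²/P(c')²) = P(c) P(c') s(c')`.
By `phi_lip` `P(c)P(c') s(c') ≤ phi x + 2 ∑_v |x v - y v|`. Multiply by `u(c) ≤ 2` and sum:
`sb * ub = ∑_{c,c'} P(c) P(c') s(c') u(c) ≤ 32 √η + 2 * 2 * 2 √η = 40 √η` (`∑_{c'} P(c') s(c') = sb`,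
`∑_c P(c) u(c) = ub`). -/
theorem lemmaG {ι A : Type*} [Fintype A] {Ω : Finset ι} {p : ι → ℝ} (hp : IsProb Ω p)
    (C C' : ι → A) (Z Z' U : ι → ZMod 9) (hU : ∀ i ∈ Ω, p i ≠ 0 → (U i).val % 3 = 1) (η : ℝ)
    (h1 : cmi Ω p Z (fun i => (C' i, U i, Z' i - U i * Z i)) C ≤ η)
    (h2 : cmi Ω p Z' (fun i => (C i, U i, Z' i - U i * Z i)) C' ≤ η)
    (h3 : mi Ω p (fun i => (C i, Z i)) (fun i => (C' i, Z' i)) ≤ η)
    (h4 : ∀ a, mass Ω p (fun i => (C i, Z i)) a = mass Ω p (fun i => (C' i, Z' i)) a) :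
    sb Ω p C Z * ub Ω p C Z ≤ 40 * √η := by
  have hs2 := g_step2 hp C C' Z Z' U hU η h1 h2
  have hs3 := g_step3 hp C C' Z Z' U hU η h3
  obtain ⟨x, hx⟩ : ∃ x : A → A → ZMod 3 → ℝ, x = fun c c' v =>
    mass Ω p (fun i => (C i, C' i, d1 (Z' i - U i * Z i))) (c, c', v) := ⟨_, rfl⟩
  obtain ⟨D, hD⟩ : ∃ D : A → ZMod 3 → ℝ, D = fun c d =>
    mass Ω p (fun i => (C i, d1 (Z i))) (c, d) := ⟨_, rfl⟩
  obtain ⟨D', hD'⟩ : ∃ D' : A → ZMod 3 → ℝ, D' = fun c d =>
    mass Ω p (fun i => (C' i, d1 (Z' i))) (c, d) := ⟨_, rfl⟩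
  obtain ⟨M, hM⟩ : ∃ M : A → ZMod 9 → ℝ, M = fun c z =>
    mass Ω p (fun i => (C i, Z i)) (c, z) := ⟨_, rfl⟩
  obtain ⟨m, hm⟩ : ∃ m : A → ℝ, m = fun c => mass Ω p C c := ⟨_, rfl⟩
  have hx0 : ∀ c c' v, 0 ≤ x c c' v := by
    intro c c' v
    rw [hx]
    exact mass_nonneg hp.1 _ _
  have hD0 : ∀ c d, 0 ≤ D c d := by
    intro c d
    rw [hD]
    exact mass_nonneg hp.1 _ _
  have hM0 : ∀ c z, 0 ≤ M c z := by
    intro c z
    rw [hM]
    exact mass_nonneg hp.1 _ _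
  have hm0 : ∀ c, 0 ≤ m c := by
    intro c
    rw [hm]
    exact mass_nonneg hp.1 _ _
  have hDD : ∀ c d, D' c d = D c d := by
    intro c d
    classical
    rw [hD, hD']
    have e1 := mass_comp Ω p (fun i => (C i, Z i)) (fun a : A × ZMod 9 => (a.1, d1 a.2)) (c, d)
    have e2 := mass_comp Ω p (fun i => (C' i, Z' i)) (fun a : A × ZMod 9 => (a.1, d1 a.2)) (c, d)
    simp only at e1 e2 ⊢
    rw [e1, e2]
    refine Finset.sum_congr rfl fun a _ => ?_
    rw [h4 a]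
  have hmD : ∀ c, ∑ d, D c d = m c := by
    intro c
    rw [hD, hm]
    exact sum_mass_snd Ω p C (fun i => d1 (Z i)) c
  have hmM : ∀ c, ∑ z, M c z = m c := by
    intro c
    rw [hM, hm]
    exact sum_mass_snd Ω p C Z c
  have hm1 : ∑ c, m c = 1 := by
    rw [hm]
    exact sum_mass hp C
  obtain ⟨w, hw⟩ : ∃ w : A → ℝ, w = fun c => ∑ z : ZMod 9, |M c z / m c - 1 / 9| := ⟨_, rfl⟩
  obtain ⟨s, hs⟩ : ∃ s : A → ℝ, s = fun c => m c - ∑ d : ZMod 3, D c d ^ 2 / m c := ⟨_, rfl⟩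
  have hw0 : ∀ c, 0 ≤ w c := by
    intro c
    rw [hw]
    exact Finset.sum_nonneg fun z _ => abs_nonneg _
  have hw2 : ∀ c, w c ≤ 2 := by
    intro c
    have e1 : w c ≤ ∑ z : ZMod 9, (M c z / m c + 1 / 9) := by
      rw [hw]
      refine Finset.sum_le_sum fun z _ => ?_
      rw [abs_le]
      have : 0 ≤ M c z / m c := div_nonneg (hM0 c z) (hm0 c)
      constructor <;> linarith
    have e2 : ∑ z : ZMod 9, (M c z / m c + 1 / 9) = (∑ z, M c z) / m c + 1 := by
      rw [Finset.sum_add_distrib, ← Finset.sum_div, Finset.sum_const, Finset.card_univ,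
        ZMod.card]
      norm_num
    rw [e2, hmM] at e1
    have e3 : m c / m c ≤ 1 := div_self_le_one _
    linarith
  have hsb : sb Ω p C Z = ∑ c, s c := by
    rw [hs, Finset.sum_sub_distrib, hm1, hD, hm]
    rfl
  have hub : ub Ω p C Z = ∑ c, m c * w c := by
    have : ub Ω p C Z = ∑ c, ∑ z : ZMod 9, |M c z - m c / 9| := by
      rw [hM, hm]
      rfl
    rw [this, hw]
    refine Finset.sum_congr rfl fun c _ => ?_
    rw [Finset.mul_sum]
    refine Finset.sum_congr rfl fun z _ => ?_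
    rcases (hm0 c).eq_or_lt with h | h
    · have hz : M c z = 0 := by
        have hh := hmM c
        rw [← h] at hh
        exact (Finset.sum_eq_zero_iff_of_nonneg (fun z _ => hM0 c z)).1 hh z
          (Finset.mem_univ z)
      rw [hz, ← h]
      simp
    · rw [← abs_of_pos h, ← abs_mul, abs_of_pos h]
      congr 1
      field_simp
  -- the pointwise inequality
  have key : ∀ c c', m c * s c' ≤ phi (x c c') + 2 * ∑ v : ZMod 3,
      |x c c' v - ∑ d, D c d * D c' (d + v)| := by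
    intro c c'
    have e1 := g2d_phi_conv (D c) (D c') (hD0 c) (hD0 c')
    rw [hmD c, hmD c'] at e1
    have e2 : m c * s c' = m c * (m c' - ∑ d : ZMod 3, D c' d ^ 2 / m c') := by rw [hs]
    rw [← e2] at e1
    have e3 := phi_lip (x c c') (fun v => ∑ d, D c d * D c' (d + v)) (hx0 c c')
      (fun v => Finset.sum_nonneg fun d _ => mul_nonneg (hD0 c d) (hD0 c' _))
    have e4 := (abs_le.1 e3).1
    linarith
  rw [hsb, hub, Finset.sum_mul_sum]
  have hs2' : ∑ c, ∑ c', phi (x c c') * w c ≤ 32 * √η := by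
    rw [hx, hw, hM, hm]
    exact hs2
  have hs3' : ∑ c, ∑ c', ∑ v : ZMod 3, |x c c' v - ∑ d, D c d * D c' (d + v)| ≤ 2 * √η := by
    have e : ∀ c c' (v : ZMod 3), (∑ d, D c d * D c' (d + v)) = ∑ d, D c d * D' c' (d + v) := by
      intro c c' v
      exact Finset.sum_congr rfl fun d _ => by rw [hDD]
    simp only [e]
    rw [hx, hD, hD']
    exact hs3
  calc ∑ c', ∑ c, s c' * (m c * w c)
      ≤ ∑ c', ∑ c, (phi (x c c') * w c + 4 * ∑ v : ZMod 3,
          |x c c' v - ∑ d, D c d * D c' (d + v)|) := by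
        refine Finset.sum_le_sum fun c' _ => Finset.sum_le_sum fun c _ => ?_
        have e1 := mul_le_mul_of_nonneg_right (key c c') (hw0 c)
        have e2 : 0 ≤ ∑ v : ZMod 3, |x c c' v - ∑ d, D c d * D c' (d + v)| :=
          Finset.sum_nonneg fun v _ => abs_nonneg _
        have e3 := mul_le_mul_of_nonneg_left (hw2 c) e2
        nlinarith
    _ = ∑ c, ∑ c', phi (x c c') * w c + 4 * ∑ c, ∑ c', ∑ v : ZMod 3,
          |x c c' v - ∑ d, D c d * D c' (d + v)| := by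
        rw [Finset.sum_comm]
        simp only [Finset.sum_add_distrib, ← Finset.mul_sum]
    _ ≤ 40 * √η := by linarith

end Pool.Agent.Lib.MP_d0d59f_nt.GE

/-! Row ge_K1: digit entropies versus `sb` and `ub`. -/

namespace Pool.Agent.Lib.MP_d0d59f_nt.GE

open Finset

theorem k1_le {ι A D : Type*} {Ω : Finset ι} {p : ι → ℝ} (hp : IsProb Ω p) (C : ι → A)
    (g : ι → D) (c : A) (d : D) : mass Ω p (fun i => (C i, g i)) (c, d) ≤ mass Ω p C c := by
  unfold mass
  refine sum_le_sum fun i hi => ?_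
  by_cases h : C i = c
  · rw [if_pos h]
    split_ifs
    · exact le_rfl
    · exact hp.1 i hi
  · rw [if_neg h, if_neg (fun h' => h (Prod.ext_iff.1 h').1)]

theorem k1_diff {ι A D : Type*} [Fintype A] [Fintype D] {Ω : Finset ι} {p : ι → ℝ} (C : ι → A)
    (g : ι → D) : ent Ω p (fun i => (C i, g i)) - ent Ω p C =
      ∑ c : A, ∑ d : D, mass Ω p (fun i => (C i, g i)) (c, d) *
        (Real.log (mass Ω p C c) - Real.log (mass Ω p (fun i => (C i, g i)) (c, d))) := by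
  rw [ent_eq_sum, ent_eq_sum, Fintype.sum_prod_type, ← sum_sub_distrib]
  refine sum_congr rfl fun c _ => ?_
  have h1 : Real.negMulLog (mass Ω p C c) =
      ∑ d : D, -(mass Ω p (fun i => (C i, g i)) (c, d) * Real.log (mass Ω p C c)) := by
    rw [sum_neg_distrib, ← sum_mul, sum_mass_snd, Real.negMulLog]
    ring
  rw [h1, ← sum_sub_distrib]
  refine sum_congr rfl fun d _ => ?_
  rw [Real.negMulLog]
  ring

theorem k1_term {q P : ℝ} (hq : 0 ≤ q) (hqP : q ≤ P) :
    q * (Real.log P - Real.log q) ≤ 2 * (√(q * (P - q) / P) * √(P - q)) := by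
  rcases hq.eq_or_lt with h0 | h0
  · rw [← h0]
    simp
  have hP : 0 < P := h0.trans_le hqP
  have h1 : 1 ≤ P / q := (one_le_div h0).2 hqP
  set s := √(P / q) with hs
  have hs1 : 1 ≤ s := by
    rw [hs]
    exact Real.one_le_sqrt.2 h1
  have hss : s ^ 2 = P / q := Real.sq_sqrt (by positivity)
  have hPs : P = s ^ 2 * q := by
    rw [hss]
    field_simp
  have h2 : Real.log P - Real.log q ≤ 2 * (s - 1) := by
    rw [← Real.log_div hP.ne' h0.ne', ← hss, Real.log_pow]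
    have h3 := Real.log_le_sub_one_of_pos (show 0 < s by linarith)
    push_cast
    linarith
  have h4 : √(q * (P - q) / P) * √(P - q) = (P - q) / s := by
    have hs0 : 0 < s := by linarith
    rw [← Real.sqrt_mul (by
      apply div_nonneg (mul_nonneg hq (by linarith)) hP.le)]
    have h5 : q * (P - q) / P * (P - q) = ((P - q) / s) ^ 2 := by
      rw [div_pow, hss]
      field_simp
    rw [h5, Real.sqrt_sq (div_nonneg (by linarith) hs0.le)]
  rw [h4]
  have hs0 : 0 < s := by linarith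
  have h6 : (P - q) / s = q * (s - 1) * ((s + 1) / s) := by
    rw [hPs]
    field_simp
    ring
  have h7 : 1 ≤ (s + 1) / s := by
    rw [one_le_div hs0]
    linarith
  have h8 : 0 ≤ q * (s - 1) := mul_nonneg hq (by linarith)
  calc q * (Real.log P - Real.log q) ≤ q * (2 * (s - 1)) := mul_le_mul_of_nonneg_left h2 hq
    _ = 2 * (q * (s - 1) * 1) := by ring
    _ ≤ 2 * (q * (s - 1) * ((s + 1) / s)) := by
        have := mul_le_mul_of_nonneg_left h7 h8
        linarith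
    _ = _ := by rw [h6]

theorem k1_sb {ι A : Type*} [Fintype A] {Ω : Finset ι} {p : ι → ℝ} (hp : IsProb Ω p)
    (C : ι → A) (Z : ι → ZMod 9) :
    ∑ c : A, ∑ d : ZMod 3, mass Ω p (fun i => (C i, d1 (Z i))) (c, d) *
      (mass Ω p C c - mass Ω p (fun i => (C i, d1 (Z i))) (c, d)) / mass Ω p C c = sb Ω p C Z := by
  have h1 : ∑ c : A, ∑ d : ZMod 3, mass Ω p (fun i => (C i, d1 (Z i))) (c, d) = 1 := by
    have h2 : ∀ c : A, ∑ d : ZMod 3, mass Ω p (fun i => (C i, d1 (Z i))) (c, d) = mass Ω p C c :=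
      fun c => sum_mass_snd Ω p C (fun i => d1 (Z i)) c
    simp only [h2]
    exact sum_mass hp C
  rw [sb, ← h1, ← sum_sub_distrib]
  refine sum_congr rfl fun c _ => ?_
  rw [← sum_sub_distrib]
  refine sum_congr rfl fun d _ => ?_
  by_cases hP : mass Ω p C c = 0
  · have h3 := k1_le hp C (fun i => d1 (Z i)) c d
    have h4 := mass_nonneg hp.1 (fun i => (C i, d1 (Z i))) (c, d)
    have h5 : mass Ω p (fun i => (C i, d1 (Z i))) (c, d) = 0 := by linarith
    rw [h5, hP]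
    simp
  · field_simp

/-- `H(d | C) ≤ 3 √sb` for the first digit `d` of `Z`. For a probability vector `t` on `ℤ/3`:
`-t log t ≤ 2 √t (1 - √t) ≤ 2 √t (1 - t)` (`-log √t ≤ 1/√t - 1`), so by Cauchy-Schwarz
`H(t) ≤ 2 √(∑ t (1-t)) √(∑ (1-t)) = 2 √2 √(1 - ∑ t²)`; and `∑_c P(c) √(s c) ≤ √(∑ P(c) s(c)) = √sb`.
`ent (C, d) - ent C = ∑_c P(c) H(P(·|c))` (`ent_eq_sum`, `sum_mass_snd`). -/
theorem digit_le {ι A : Type*} [Fintype A] {Ω : Finset ι} {p : ι → ℝ} (hp : IsProb Ω p)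
    (C : ι → A) (Z : ι → ZMod 9) :
    ent Ω p (fun i => (C i, d1 (Z i))) - ent Ω p C ≤ 3 * √(sb Ω p C Z) := by
  have hle := k1_le hp C (fun i => d1 (Z i))
  have hnn := mass_nonneg hp.1 (fun i => (C i, d1 (Z i)))
  set q : A → ZMod 3 → ℝ := fun c d => mass Ω p (fun i => (C i, d1 (Z i))) (c, d) with hq
  set P : A → ℝ := fun c => mass Ω p C c with hP
  have hPn : ∀ c, 0 ≤ P c := fun c => mass_nonneg hp.1 C c
  have hqP : ∀ c d, q c d ≤ P c := fun c d => hle c d
  have hqn : ∀ c d, 0 ≤ q c d := fun c d => hnn (c, d)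
  have h1 : ent Ω p (fun i => (C i, d1 (Z i))) - ent Ω p C =
      ∑ x : A × ZMod 3, q x.1 x.2 * (Real.log (P x.1) - Real.log (q x.1 x.2)) := by
    rw [k1_diff, Fintype.sum_prod_type]
  have h2 : ∑ x : A × ZMod 3, q x.1 x.2 * (Real.log (P x.1) - Real.log (q x.1 x.2)) ≤
      ∑ x : A × ZMod 3, 2 * (√(q x.1 x.2 * (P x.1 - q x.1 x.2) / P x.1) *
        √(P x.1 - q x.1 x.2)) :=
    sum_le_sum fun x _ => k1_term (hqn _ _) (hqP _ _)
  have h3 := Real.sum_mul_le_sqrt_mul_sqrt (univ : Finset (A × ZMod 3))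
    (fun x => √(q x.1 x.2 * (P x.1 - q x.1 x.2) / P x.1)) (fun x => √(P x.1 - q x.1 x.2))
  have h4 : ∑ x : A × ZMod 3, √(q x.1 x.2 * (P x.1 - q x.1 x.2) / P x.1) ^ 2 = sb Ω p C Z := by
    rw [← k1_sb hp C Z, Fintype.sum_prod_type]
    refine sum_congr rfl fun c _ => sum_congr rfl fun d _ => ?_
    rw [Real.sq_sqrt]
    exact div_nonneg (mul_nonneg (hqn c d) (sub_nonneg.2 (hqP c d))) (hPn c)
  have h5 : ∑ x : A × ZMod 3, √(P x.1 - q x.1 x.2) ^ 2 = 2 := by
    have h6 : ∀ c, ∑ d : ZMod 3, q c d = P c := fun c =>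
      sum_mass_snd Ω p C (fun i => d1 (Z i)) c
    have h7 : ∑ c : A, P c = 1 := sum_mass hp C
    rw [Fintype.sum_prod_type]
    have h8 : ∀ c : A, ∑ d : ZMod 3, √(P c - q c d) ^ 2 = 2 * P c := by
      intro c
      have h9 : ∀ d : ZMod 3, √(P c - q c d) ^ 2 = P c - q c d := fun d =>
        Real.sq_sqrt (sub_nonneg.2 (hqP c d))
      simp only [h9]
      rw [sum_sub_distrib, h6, sum_const, card_univ, ZMod.card, nsmul_eq_mul]
      push_cast
      ring
    simp only [h8]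
    rw [← mul_sum, h7, mul_one]
  rw [h4, h5] at h3
  have h10 : √(2 : ℝ) ≤ 3 / 2 := by
    rw [Real.sqrt_le_left (by norm_num)]
    norm_num
  rw [h1]
  refine h2.trans ?_
  rw [← mul_sum]
  have h11 : √(sb Ω p C Z) * √2 ≤ √(sb Ω p C Z) * (3 / 2) :=
    mul_le_mul_of_nonneg_left h10 (Real.sqrt_nonneg _)
  linarith

/-- `2 log 3 - H(Z | C) ≤ 9 ub`: for a probability vector `t` on `ℤ/9`,
`log 9 - H(t) = ∑ t log (9 t) ≤ ∑ t (9 t - 1) = 9 ∑ (t - 1/9)² ≤ 9 ∑ |t - 1/9|`. -/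
theorem digits_ge {ι A : Type*} [Fintype A] {Ω : Finset ι} {p : ι → ℝ} (hp : IsProb Ω p)
    (C : ι → A) (Z : ι → ZMod 9) :
    2 * Real.log 3 - (ent Ω p (fun i => (C i, Z i)) - ent Ω p C) ≤ 9 * ub Ω p C Z := by
  have hle := k1_le hp C Z
  have hnn := mass_nonneg hp.1 (fun i => (C i, Z i))
  have h1 : ∑ c : A, ∑ z : ZMod 9, mass Ω p (fun i => (C i, Z i)) (c, z) = 1 := by
    have h2 : ∀ c : A, ∑ z : ZMod 9, mass Ω p (fun i => (C i, Z i)) (c, z) = mass Ω p C c :=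
      fun c => sum_mass_snd Ω p C Z c
    simp only [h2]
    exact sum_mass hp C
  have h3 : 2 * Real.log 3 = Real.log 9 := by
    rw [show (9 : ℝ) = 3 ^ 2 by norm_num, Real.log_pow]
    push_cast
    ring
  have h4 : 2 * Real.log 3 = ∑ c : A, ∑ z : ZMod 9,
      mass Ω p (fun i => (C i, Z i)) (c, z) * Real.log 9 := by
    simp only [← sum_mul]
    rw [h1, one_mul, h3]
  rw [k1_diff, h4, ← sum_sub_distrib, ub, mul_sum]
  refine sum_le_sum fun c _ => ?_
  rw [← sum_sub_distrib, mul_sum]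
  refine sum_le_sum fun z _ => ?_
  have hq := hnn (c, z)
  have hqP := hle c z
  set q := mass Ω p (fun i => (C i, Z i)) (c, z)
  set P := mass Ω p C c
  rcases hq.eq_or_lt with h0 | h0
  · rw [← h0]
    simp only [zero_mul, sub_zero]
    positivity
  have hP : 0 < P := h0.trans_le hqP
  have h5 : q * Real.log 9 - q * (Real.log P - Real.log q) = q * Real.log (9 * q / P) := by
    rw [Real.log_div (by positivity) hP.ne', Real.log_mul (by norm_num) h0.ne']
    ring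
  rw [h5]
  have h6 := Real.log_le_sub_one_of_pos (show 0 < 9 * q / P by positivity)
  calc q * Real.log (9 * q / P) ≤ q * (9 * q / P - 1) := mul_le_mul_of_nonneg_left h6 hq
    _ = q / P * (9 * (q - P / 9)) := by field_simp
    _ ≤ q / P * (9 * |q - P / 9|) :=
        mul_le_mul_of_nonneg_left (by linarith [le_abs_self (q - P / 9)]) (by positivity)
    _ ≤ 1 * (9 * |q - P / 9|) :=
        mul_le_mul_of_nonneg_right ((div_le_one hP).2 hqP) (by positivity)
    _ = _ := one_mul _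

theorem sb_nonneg {ι A : Type*} [Fintype A] {Ω : Finset ι} {p : ι → ℝ} (hp : IsProb Ω p)
    (C : ι → A) (Z : ι → ZMod 9) : 0 ≤ sb Ω p C Z := by
  rw [← k1_sb hp C Z]
  refine sum_nonneg fun c _ => sum_nonneg fun d _ => ?_
  exact div_nonneg (mul_nonneg (mass_nonneg hp.1 _ _) (sub_nonneg.2 (k1_le hp C _ c d)))
    (mass_nonneg hp.1 _ _)

theorem ub_nonneg {ι A : Type*} [Fintype A] {Ω : Finset ι} {p : ι → ℝ} (C : ι → A)
    (Z : ι → ZMod 9) : 0 ≤ ub Ω p C Z := by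
  unfold ub
  exact sum_nonneg fun c _ => sum_nonneg fun z _ => abs_nonneg _

end Pool.Agent.Lib.MP_d0d59f_nt.GE
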