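import Pool.Agent.Lib.MP_d0d59f_nt.GE.Paths
import Pool.Agent.Lib.MP_d0d59f_nt.GE.EntA
import Pool.Agent.Lib.MP_d0d59f_nt.GE.LemG
import Pool.Agent.Lib.MP_d0d59f_nt.GE.EntB

/-! Row ge_H1c: a path of `N + n` blocks as a two-step experiment; digit entropies. -/

namespace Pool.Agent.Lib.MP_d0d59f_nt.GE

open Finset

/-- Law of the first `N` blocks. -/
noncomputable def p1 (K : Ker) (b : ℤ) (u : List (List ℕ)) : ℝ := prb K.κ u b

/-- Law of the following blocks given the first path `u`. -/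
noncomputable def q1 (K : Ker) (b : ℤ) (u v : List (List ℕ)) : ℝ := prb K.κ v (run u b)

/-- End point of the two-step path. -/
def end2 (b : ℤ) (z : List (List ℕ) × List (List ℕ)) : ℤ := run z.2 (run z.1 b)

theorem isProb_p1 (K : Ker) (N : ℕ) {b : ℤ} (hb : ¬ (3 : ℤ) ∣ b) : IsProb (wn K.B N) (p1 K b) :=
  isProb_wn K N hb

theorem q1_nonneg (K : Ker) (b : ℤ) (u v : List (List ℕ)) : 0 ≤ q1 K b u v :=
  prb_nonneg K v _

theorem sum_q1 (K : Ker) (N n : ℕ) {b : ℤ} (hb : ¬ (3 : ℤ) ∣ b) :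
    ∀ u ∈ wn K.B N, p1 K b u ≠ 0 → ∑ v ∈ wn K.B n, q1 K b u v = 1 :=
  fun _ hu h => sum_prb K n (run_unit hu hb h)

/-- `X_{N+n} mod 3^k` computed in the two-step space (`ent_reindex` with `(u, v) ↦ u ++ v`). -/
theorem hh_two (K : Ker) (N n : ℕ) (b : ℤ) (k : ℕ) :
    ent (wn K.B N ×ˢ wn K.B n) (pq (p1 K b) (q1 K b))
      (fun z => ((end2 b z : ℤ) : ZMod (3 ^ k))) = hh K (N + n) b k := by
  unfold hh
  symm
  refine ent_reindex (fun z : List (List ℕ) × List (List ℕ) => z.1 ++ z.2) ?_ ?_ ?_ ?_ ?_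
  · rintro ⟨u, v⟩ hz ⟨u', v'⟩ hz' h
    rw [mem_product] at hz hz'
    have h1 := (mem_wn.1 hz.1).1
    have h2 := (mem_wn.1 hz'.1).1
    obtain ⟨e1, e2⟩ := List.append_inj h (h1.trans h2.symm)
    rw [Prod.mk.injEq]
    exact ⟨e1, e2⟩
  · rintro ⟨u, v⟩ hz
    rw [mem_product] at hz
    have h1 := mem_wn.1 hz.1
    have h2 := mem_wn.1 hz.2
    refine mem_wn.2 ⟨?_, ?_⟩
    · rw [List.length_append, h1.1, h2.1]
    · intro α hα
      rcases List.mem_append.1 hα with h | h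
      · exact h1.2 α h
      · exact h2.2 α h
  · intro w hw
    have h1 := mem_wn.1 hw
    refine ⟨(w.take N, w.drop N), ?_, List.take_append_drop N w⟩
    rw [mem_product]
    refine ⟨mem_wn.2 ⟨?_, ?_⟩, mem_wn.2 ⟨?_, ?_⟩⟩
    · show (w.take N).length = N
      rw [List.length_take, h1.1]
      omega
    · intro α hα
      exact h1.2 α (List.mem_of_mem_take hα)
    · show (w.drop N).length = n
      rw [List.length_drop, h1.1]
      omega
    · intro α hα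
      exact h1.2 α (List.mem_of_mem_drop hα)
  · intro z _
    exact prb_append K.κ z.1 z.2 b
  · intro z _
    show ((run (z.1 ++ z.2) b : ℤ) : ZMod (3 ^ k)) = ((end2 b z : ℤ) : ZMod (3 ^ k))
    rw [run_append]
    rfl

/-- (H2) `H(X_{N+n} mod 3^k) ≥ ∑_u P(u) H(X_n^{run u b} mod 3^k)`: `hh_two` and `ent_pq_ge`. -/
theorem hh_ge (K : Ker) (N n : ℕ) {b : ℤ} (hb : ¬ (3 : ℤ) ∣ b) (k : ℕ) :
    PN K N (fun x => hh K n x k) b ≤ hh K (N + n) b k := by
  rw [← hh_two]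
  exact ent_pq_ge (isProb_p1 K N hb) (q1_nonneg K b) (sum_q1 K N n hb)
    (fun z => ((end2 b z : ℤ) : ZMod (3 ^ k)))

/-- The conditional entropy of the last `n` blocks given the point where they start. -/
noncomputable def Sn (K : Ker) (N n : ℕ) (b : ℤ) : ℝ :=
  ∑ u ∈ wn K.B N, p1 K b u * ent (wn K.B n) (q1 K b u) (fun v => v)

theorem h1c_eq_iff (k : ℕ) (x y : ℤ) :
    (((x : ℤ) : ZMod (3 ^ k)) = ((y : ℤ) : ZMod (3 ^ k))) ↔ x ≡ y [ZMOD 3 ^ k] := by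
  rw [ZMod.intCast_eq_intCast_iff]
  push_cast
  exact Iff.rfl

theorem h1c_pq_ne {K : Ker} {b : ℤ} {z : List (List ℕ) × List (List ℕ)}
    (h : pq (p1 K b) (q1 K b) z ≠ 0) : prb K.κ z.1 b ≠ 0 ∧ prb K.κ z.2 (run z.1 b) ≠ 0 :=
  ⟨left_ne_zero_of_mul h, right_ne_zero_of_mul h⟩

/-- (H1) For `k ≥ 1`: `H(v, X_{N+n} mod 3^k) = H(X_N mod 3^(k + nL)) + Sn`.
By `run_congr`, `(v, X mod 3^k)` and `(v, z mod 3^(k+nL))` (`z = run u b`) have the same fibres on the support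
(`ent_congr`); the law of `v` given `z` depends on `z mod 3^(nL+1)` (`prb_congr`), a function of
`z mod 3^(k+nL)`; `ent_pq_chain` with `g u = z mod 3^(k+nL)`. -/
theorem ent_block (K : Ker) (N n : ℕ) {b : ℤ} (hb : ¬ (3 : ℤ) ∣ b) {k : ℕ} (hk : 1 ≤ k) :
    ent (wn K.B N ×ˢ wn K.B n) (pq (p1 K b) (q1 K b))
      (fun z => (z.2, ((end2 b z : ℤ) : ZMod (3 ^ k)))) = hh K N b (k + n * K.L) + Sn K N n b := by
  have h1 := ent_pq_chain (isProb_p1 K N hb) (q1_nonneg K b) (sum_q1 K N n hb)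
    (fun u => ((run u b : ℤ) : ZMod (3 ^ (k + n * K.L)))) (by
      intro u _ u' _ _ _ hg v hv
      have h2 := (h1c_eq_iff _ _ _).1 hg
      have h3 : run u b ≡ run u' b [ZMOD 3 ^ (n * K.L + 1)] :=
        Int.ModEq.of_dvd (pow_dvd_pow 3 (by omega)) h2
      exact prb_congr h3 hv)
  have h4 : ent (wn K.B N ×ˢ wn K.B n) (pq (p1 K b) (q1 K b))
      (fun z => (z.2, ((end2 b z : ℤ) : ZMod (3 ^ k)))) =
      ent (wn K.B N ×ˢ wn K.B n) (pq (p1 K b) (q1 K b))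
        (fun z => (z.2, ((run z.1 b : ℤ) : ZMod (3 ^ (k + n * K.L))))) := by
    refine ent_congr ?_
    rintro ⟨u, v⟩ hz ⟨u', v'⟩ hz' hp hp'
    rw [mem_product] at hz hz'
    obtain ⟨a1, a2⟩ := h1c_pq_ne hp
    obtain ⟨b1, b2⟩ := h1c_pq_ne hp'
    rw [Prod.mk.injEq, Prod.mk.injEq]
    refine and_congr_right fun (hv : v = v') => ?_
    subst hv
    rw [h1c_eq_iff, h1c_eq_iff]
    exact (run_congr hz.2 (run_unit hz.1 hb a1) (run_unit hz'.1 hb b1) a2 b2 k).symm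
  rw [h4, h1]
  rfl

theorem h1c_or (K : Ker) (N : ℕ) (b : ℤ) : IsProb (wn K.B N) (fun u => prb K.κ u b) ∨
    ∀ u ∈ wn K.B N, prb K.κ u b = 0 := by
  by_cases hb : (3 : ℤ) ∣ b
  · rcases N with _ | N
    · left
      refine ⟨fun u _ => prb_nonneg K u b, ?_⟩
      simp [wn, prb]
    · right
      intro u hu
      obtain ⟨h1, h2⟩ := mem_wn.1 hu
      rcases u with _ | ⟨α, v⟩
      · simp at h1
      · show K.κ b α * prb K.κ v (act α b) = 0
        rw [kappa_zero K hb (h2 α (by simp)), zero_mul]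
  · exact Or.inl (isProb_wn K N hb)

theorem h1c_hh_zero {K : Ker} {N : ℕ} {b : ℤ} (h : ∀ u ∈ wn K.B N, prb K.κ u b = 0) (k : ℕ) :
    hh K N b k = 0 := by
  unfold hh ent
  refine Finset.sum_eq_zero fun u hu => ?_
  exact mul_eq_zero_of_left (h u hu) _

theorem dg_nonneg (K : Ker) (N : ℕ) (b : ℤ) (j : ℕ) : 0 ≤ dg K N b j := by
  unfold dg
  rcases h1c_or K N b with h | h
  · rw [sub_nonneg]
    unfold hh
    refine ent_mono h ?_
    intro u _ v _ _ _ he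
    rw [h1c_eq_iff] at he ⊢
    exact Int.ModEq.of_dvd (pow_dvd_pow 3 (by omega)) he
  · rw [h1c_hh_zero h, h1c_hh_zero h, sub_zero]

/-- `H(X mod 3^(j+1)) ≤ H(X mod 3^j) + log 3`: for a unit `b`, `X mod 3^(j+1)` has the same fibres as the pair
(`X mod 3^j`, digit `j`), `ent_pair_le`, `ent_le_log_card`; for `3 ∣ b`, `N ≥ 1` all is `0`. -/
theorem dg_le (K : Ker) (N : ℕ) (b : ℤ) (j : ℕ) : dg K N b j ≤ Real.log 3 := by
  unfold dg
  rcases h1c_or K N b with h | h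
  · have h1 : hh K N b (j + 1) = ent (wn K.B N) (fun u => prb K.κ u b)
        (fun u => (((run u b : ℤ) : ZMod (3 ^ j)), ((zj j (run u b)).val : ZMod 3))) := by
      unfold hh
      refine ent_congr ?_
      intro u _ v _ _ _
      rw [Prod.mk.injEq]
      exact zj_iff_one j _ _
    have h2 := ent_pair_le h (fun u => ((run u b : ℤ) : ZMod (3 ^ j)))
      (fun u => ((zj j (run u b)).val : ZMod 3))
    have h3 := ent_le_log_card h (fun u => ((zj j (run u b)).val : ZMod 3)) Finset.univ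
      (fun _ _ _ => Finset.mem_univ _)
    have h4 : ((Finset.univ : Finset (ZMod 3)).card : ℝ) = 3 := by
      rw [Finset.card_univ, ZMod.card]
      norm_num
    rw [h4] at h3
    rw [h1]
    have h5 : hh K N b j = ent (wn K.B N) (fun u => prb K.κ u b)
      (fun u => ((run u b : ℤ) : ZMod (3 ^ j))) := rfl
    rw [h5]
    linarith
  · rw [h1c_hh_zero h, h1c_hh_zero h, sub_zero]
    exact Real.log_nonneg (by norm_num)

/-- (H1) for one digit: `dg N b (j + nL) ≤ dg (N+n) b j` (`j ≥ 1`): `ent_submod` for `f = (v, X mod 3^j)`,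
`g = X mod 3^(j+1)`, `h = X mod 3^j` (`(f, g)` has the fibres of `(v, X mod 3^(j+1))`) and `ent_block` twice. -/
theorem dg_shift (K : Ker) (N n : ℕ) {b : ℤ} (hb : ¬ (3 : ℤ) ∣ b) {j : ℕ} (hj : 1 ≤ j) :
    dg K N b (j + n * K.L) ≤ dg K (N + n) b j := by
  have hprob : IsProb (wn K.B N ×ˢ wn K.B n) (pq (p1 K b) (q1 K b)) :=
    isProb_pq (isProb_p1 K N hb) (q1_nonneg K b) (sum_q1 K N n hb)
  have h1 := ent_submod hprob
    (f := fun z => (z.2, ((end2 b z : ℤ) : ZMod (3 ^ j))))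
    (g := fun z => ((end2 b z : ℤ) : ZMod (3 ^ (j + 1))))
    (h := fun z => ((end2 b z : ℤ) : ZMod (3 ^ j)))
    (by
      intro z _ z' _ _ _ he
      exact (Prod.mk.inj he).2)
    (by
      intro z _ z' _ _ _ he
      rw [h1c_eq_iff] at he ⊢
      exact Int.ModEq.of_dvd (pow_dvd_pow 3 (by omega)) he)
  have h2 : ent (wn K.B N ×ˢ wn K.B n) (pq (p1 K b) (q1 K b))
      (fun z => ((z.2, ((end2 b z : ℤ) : ZMod (3 ^ j))), ((end2 b z : ℤ) : ZMod (3 ^ (j + 1))))) =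
      ent (wn K.B N ×ˢ wn K.B n) (pq (p1 K b) (q1 K b))
        (fun z => (z.2, ((end2 b z : ℤ) : ZMod (3 ^ (j + 1))))) := by
    refine ent_congr ?_
    intro z _ z' _ _ _
    constructor
    · intro he
      obtain ⟨he1, he2⟩ := Prod.mk.inj he
      rw [(Prod.mk.inj he1).1, he2]
    · intro he
      obtain ⟨he1, he2⟩ := Prod.mk.inj he
      have he3 : ((end2 b z : ℤ) : ZMod (3 ^ j)) = ((end2 b z' : ℤ) : ZMod (3 ^ j)) := by
        rw [h1c_eq_iff] at he2 ⊢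
        exact Int.ModEq.of_dvd (pow_dvd_pow 3 (by omega)) he2
      rw [he1, he2, he3]
  rw [h2, ent_block K N n hb hj, ent_block K N n hb (by omega : 1 ≤ j + 1), hh_two, hh_two] at h1
  unfold dg
  have h3 : j + 1 + n * K.L = j + n * K.L + 1 := by ring
  rw [h3] at h1
  linarith

end Pool.Agent.Lib.MP_d0d59f_nt.GE

/-! Row ge_H3: separation, positive entropy of the end point. -/

namespace Pool.Agent.Lib.MP_d0d59f_nt.GE

open Finset

/-- The entropy of the path of `n` blocks is at least `c0 n` (chain rule: `sum_wn_succ`, `sum_prb`,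
`negMulLog (x y) = y negMulLog x + x negMulLog y`, i.e. `H_{n+1}(x) = H(κ x) + ∑_α κ x α H_n(act α x)`). -/
theorem ent_path (K : Ker) (n : ℕ) {x : ℤ} (hx : ¬ (3 : ℤ) ∣ x) :
    K.c0 * n ≤ ∑ u ∈ wn K.B n, Real.negMulLog (prb K.κ u x) := by
  induction n generalizing x with
  | zero => simp [wn, prb]
  | succ n ih =>
    rw [sum_wn_succ]
    have key : ∀ α ∈ K.B, Real.negMulLog (K.κ x α) + K.κ x α * (K.c0 * n) ≤
        ∑ v ∈ wn K.B n, Real.negMulLog (prb K.κ (α :: v) x) := by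
      intro α hα
      have e1 : ∑ v ∈ wn K.B n, Real.negMulLog (prb K.κ (α :: v) x) =
          (∑ v ∈ wn K.B n, prb K.κ v (act α x)) * Real.negMulLog (K.κ x α) +
            K.κ x α * ∑ v ∈ wn K.B n, Real.negMulLog (prb K.κ v (act α x)) := by
        rw [Finset.sum_mul, Finset.mul_sum, ← Finset.sum_add_distrib]
        refine Finset.sum_congr rfl fun v _ => ?_
        rw [prb, Real.negMulLog_mul]
      rw [e1]
      rcases eq_or_ne (K.κ x α) 0 with h | h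
      · rw [h]; simp
      · have hu : ¬ (3 : ℤ) ∣ act α x := (valid_unit (K.supp x α hα h)).2
        rw [sum_prb K n hu, one_mul]
        have := mul_le_mul_of_nonneg_left (ih hu) (K.nonneg x α)
        linarith
    have h2 := Finset.sum_le_sum key
    rw [Finset.sum_add_distrib, ← Finset.sum_mul, K.sum_one x hx, one_mul] at h2
    have h3 := K.ent_ge x hx
    push_cast
    linarith

/-- `n` blocks, `k ≥ n L M`: the pair (`|u|`, `X_n mod 3^k`) determines the path `u` (`word_sep`,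
`flatten_inj`, `valid_flatten`), and `|u| ≤ nLM` takes at most `nLM + 1` values. So (`ent_id`, `ent_mono`,
`ent_pair_le`, `ent_le_log_card`): `c0 n ≤ H(u) ≤ H(|u|) + H(X_n mod 3^k)`. -/
theorem hh_sep0 (K : Ker) (n : ℕ) {x : ℤ} (hx : ¬ (3 : ℤ) ∣ x) {k : ℕ} (hk : n * K.L * K.M ≤ k) :
    K.c0 * n - Real.log (n * K.L * K.M + 1) ≤ hh K n x k := by
  have hp := isProb_wn K n hx
  have h1 := ent_path K n hx
  rw [← ent_id] at h1
  have h2 : ent (wn K.B n) (fun u => prb K.κ u x) (fun u => u) ≤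
      ent (wn K.B n) (fun u => prb K.κ u x) (fun u => (u.flatten.sum, ((run u x : ℤ) : ZMod (3 ^ k)))) := by
    refine ent_mono hp fun u hu v hv hpu hpv huv => ?_
    simp only [Prod.mk.injEq] at huv
    refine flatten_inj hu hv ?_
    refine word_sep (k := k) (valid_flatten hu hx hpu) (valid_flatten hv hx hpv) ?_ huv.1 ?_ ?_
    · rw [flatten_length hu, flatten_length hv]
    · exact (flatten_sum_le hu).trans hk
    · rw [← run_eq, ← run_eq]
      have := (ZMod.intCast_eq_intCast_iff (run u x) (run v x) (3 ^ k)).1 huv.2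
      simpa using this
  have h3 := ent_pair_le hp (fun u : List (List ℕ) => u.flatten.sum) (fun u => ((run u x : ℤ) : ZMod (3 ^ k)))
  have h4 := ent_le_log_card hp (fun u : List (List ℕ) => u.flatten.sum) (range (n * K.L * K.M + 1))
    (fun u hu _ => by
      have := flatten_sum_le hu
      exact Finset.mem_range.2 (by omega))
  rw [Finset.card_range] at h4
  push_cast at h4
  unfold hh
  linarith

/-- (H3): the same bound for all `N ≥ n` (`hh_ge` with `N = (N - n) + n`, `hh_sep0` at the points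
`run u b`, which are units when `prb ≠ 0`, and `sum_prb`). -/
theorem hh_sep (K : Ker) {n N : ℕ} (hN : n ≤ N) {b : ℤ} (hb : ¬ (3 : ℤ) ∣ b) {k : ℕ}
    (hk : n * K.L * K.M ≤ k) : K.c0 * n - Real.log (n * K.L * K.M + 1) ≤ hh K N b k := by
  have h1 := hh_ge K (N - n) n hb k
  rw [Nat.sub_add_cancel hN] at h1
  refine le_trans ?_ h1
  unfold PN
  calc K.c0 * n - Real.log (n * K.L * K.M + 1)
      = ∑ u ∈ wn K.B (N - n), prb K.κ u b * (K.c0 * n - Real.log (n * K.L * K.M + 1)) := by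
        rw [← Finset.sum_mul, sum_prb K (N - n) hb, one_mul]
    _ ≤ ∑ u ∈ wn K.B (N - n), prb K.κ u b * hh K n (run u b) k := by
        refine Finset.sum_le_sum fun u hu => ?_
        rcases eq_or_ne (prb K.κ u b) 0 with h | h
        · rw [h, zero_mul, zero_mul]
        · exact mul_le_mul_of_nonneg_left (hh_sep0 K n (run_unit hu hb h) hk) (prb_nonneg K u b)

end Pool.Agent.Lib.MP_d0d59f_nt.GE

/-! Row ge_H4: two conditionally independent continuations. -/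

namespace Pool.Agent.Lib.MP_d0d59f_nt.GE

open Finset

/-- The space of `(u, v, w)`: `N` blocks `u`, then two independent continuations `v`, `w`. -/
def lpS (K : Ker) (N n : ℕ) : Finset ((List (List ℕ) × List (List ℕ)) × List (List ℕ)) :=
  (wn K.B N ×ˢ wn K.B n) ×ˢ wn K.B n

noncomputable def lpw (K : Ker) (b : ℤ) :
    (List (List ℕ) × List (List ℕ)) × List (List ℕ) → ℝ :=
  pq (pq (p1 K b) (q1 K b)) (fun z => q1 K b z.1)

/-- First end point. -/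
def lpX (b : ℤ) (q : (List (List ℕ) × List (List ℕ)) × List (List ℕ)) : ℤ :=
  run q.1.2 (run q.1.1 b)

/-- Second end point. -/
def lpY (b : ℤ) (q : (List (List ℕ) × List (List ℕ)) × List (List ℕ)) : ℤ :=
  run q.2 (run q.1.1 b)

/-- The multiplier `2^{|w| - |v|}` in `ℤ/9`. -/
def lpU (q : (List (List ℕ) × List (List ℕ)) × List (List ℕ)) : ZMod 9 :=
  2 ^ q.2.flatten.sum * 5 ^ q.1.2.flatten.sum

theorem h4_sum_q (K : Ker) (N n : ℕ) {b : ℤ} (hb : ¬ (3 : ℤ) ∣ b) :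
    ∀ z ∈ wn K.B N ×ˢ wn K.B n, pq (p1 K b) (q1 K b) z ≠ 0 →
      ∑ v ∈ wn K.B n, q1 K b z.1 v = 1 :=
  fun _ hz h => sum_q1 K N n hb _ (mem_product.1 hz).1 (left_ne_zero_of_mul h)

theorem h4_prob2 (K : Ker) (N n : ℕ) {b : ℤ} (hb : ¬ (3 : ℤ) ∣ b) :
    IsProb (wn K.B N ×ˢ wn K.B n) (pq (p1 K b) (q1 K b)) :=
  isProb_pq (isProb_p1 K N hb) (q1_nonneg K b) (sum_q1 K N n hb)

theorem isProb_lp (K : Ker) (N n : ℕ) {b : ℤ} (hb : ¬ (3 : ℤ) ∣ b) :
    IsProb (lpS K N n) (lpw K b) :=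
  isProb_pq (h4_prob2 K N n hb) (fun z v => q1_nonneg K b z.1 v) (h4_sum_q K N n hb)

theorem h4_eq_iff (k : ℕ) (x y : ℤ) :
    (((x : ℤ) : ZMod (3 ^ k)) = ((y : ℤ) : ZMod (3 ^ k))) ↔ x ≡ y [ZMOD 3 ^ k] := by
  rw [ZMod.intCast_eq_intCast_iff]
  push_cast
  exact Iff.rfl

theorem h4_pow4 (s : ℕ) (z : ZMod 9) (hz : z.val % 3 = 1) : (4 ^ s * z).val % 3 = 1 := by
  have key : ∀ w : ZMod 9, w.val % 3 = 1 → (4 * w).val % 3 = 1 := by decide
  induction s with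
  | zero => simpa using hz
  | succ s ih =>
    have := key _ ih
    rwa [show (4 : ZMod 9) ^ (s + 1) * z = 4 * (4 ^ s * z) by ring]

theorem h4_pow7 (s : ℕ) (z : ZMod 9) (hz : z.val % 3 = 1) : (7 ^ s * z).val % 3 = 1 := by
  have key : ∀ w : ZMod 9, w.val % 3 = 1 → (7 * w).val % 3 = 1 := by decide
  induction s with
  | zero => simpa using hz
  | succ s ih =>
    have := key _ ih
    rwa [show (7 : ZMod 9) ^ (s + 1) * z = 7 * (7 ^ s * z) by ring]

/-- The sums are even, `4 ≡ 25 ≡ 1 mod 3`. -/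
theorem lpU_one (K : Ker) (N n : ℕ) : ∀ q ∈ lpS K N n, (lpU q).val % 3 = 1 := by
  intro q hq
  obtain ⟨h1, h2⟩ := mem_product.1 hq
  obtain ⟨_, h4⟩ := mem_product.1 h1
  obtain ⟨s, hs⟩ := (flatten_even h2).two_dvd
  obtain ⟨t, ht⟩ := (flatten_even h4).two_dvd
  unfold lpU
  rw [hs, ht, pow_mul, pow_mul]
  have e1 : (2 : ZMod 9) ^ 2 = 4 := by decide
  have e2 : (5 : ZMod 9) ^ 2 = 7 := by decide
  rw [e1, e2]
  refine h4_pow4 s _ ?_
  have h5 := h4_pow7 t 1 (by decide)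
  rwa [mul_one] at h5

/-- The defect `η₁`. -/
noncomputable def et1 (K : Ker) (N n : ℕ) (b : ℤ) (j : ℕ) : ℝ :=
  (hh K (N + n) b (j + 2) - hh K (N + n) b j) -
    (hh K N b (j + 2 + n * K.L) - hh K N b (j + n * K.L))

/-- The defect `η₃`. -/
noncomputable def et3 (K : Ker) (N n : ℕ) (b : ℤ) (j : ℕ) : ℝ :=
  hh K (N + n) b (j + 2) - PN K N (fun x => hh K n x (j + 2)) b

/-- `I(Z ; v | C) = η₁` in the two-step space, `C = X mod 3^j`, `Z = zj j X`: by `zj_iff` and `ent_congr`,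
`H(Z,C) = hh (N+n) (j+2)`, `H(C) = hh (N+n) j` (`hh_two`), `H(v,C) = hh N (j+nL) + Sn`, `H(Z,v,C) = hh N (j+2+nL) + Sn`
(`ent_block`, `j ≥ 1`). -/
theorem cmi_two (K : Ker) (N n : ℕ) {b : ℤ} (hb : ¬ (3 : ℤ) ∣ b) {j : ℕ} (hj : 1 ≤ j) :
    cmi (wn K.B N ×ˢ wn K.B n) (pq (p1 K b) (q1 K b)) (fun z => zj j (end2 b z)) (fun z => z.2)
      (fun z => ((end2 b z : ℤ) : ZMod (3 ^ j))) = et1 K N n b j := by
  have h1 : ent (wn K.B N ×ˢ wn K.B n) (pq (p1 K b) (q1 K b))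
      (fun z => (zj j (end2 b z), ((end2 b z : ℤ) : ZMod (3 ^ j)))) = hh K (N + n) b (j + 2) := by
    rw [← hh_two]
    refine ent_congr fun z _ z' _ _ _ => ?_
    rw [zj_iff, Prod.mk.injEq]
    exact And.comm
  have h2 : ent (wn K.B N ×ˢ wn K.B n) (pq (p1 K b) (q1 K b))
      (fun z => (zj j (end2 b z), z.2, ((end2 b z : ℤ) : ZMod (3 ^ j)))) =
      hh K N b (j + 2 + n * K.L) + Sn K N n b := by
    rw [← ent_block K N n hb (by omega : 1 ≤ j + 2)]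
    refine ent_congr fun z _ z' _ _ _ => ?_
    rw [Prod.mk.injEq, Prod.mk.injEq, Prod.mk.injEq, zj_iff]
    tauto
  unfold cmi et1
  rw [h1, h2, ent_block K N n hb hj, hh_two]
  ring

theorem h4_ne {K : Ker} {N n : ℕ} {b : ℤ} {q : (List (List ℕ) × List (List ℕ)) × List (List ℕ)}
    (hb : ¬ (3 : ℤ) ∣ b) (hq : q ∈ lpS K N n) (h : lpw K b q ≠ 0) :
    valid q.1.2.flatten (run q.1.1 b) ∧ valid q.2.flatten (run q.1.1 b) := by
  obtain ⟨h1, h2⟩ := mem_product.1 hq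
  obtain ⟨h3, h4⟩ := mem_product.1 h1
  have g1 : pq (p1 K b) (q1 K b) q.1 ≠ 0 := left_ne_zero_of_mul h
  have g2 : prb K.κ q.2 (run q.1.1 b) ≠ 0 := right_ne_zero_of_mul h
  have g3 : prb K.κ q.1.1 b ≠ 0 := left_ne_zero_of_mul g1
  have g4 : prb K.κ q.1.2 (run q.1.1 b) ≠ 0 := right_ne_zero_of_mul g1
  have g5 := run_unit h3 hb g3
  exact ⟨valid_flatten h4 g5 g4, valid_flatten h2 g5 g2⟩

/-- The affine relation: `(C, v, w)` determines `C'` and `zj Y - U zj X`. Both `v.flatten`, `w.flatten` are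
valid words of length `nL` at `run u b`, so by `two_words` `2^{|v|} Y = 2^{|w|} X + Q` with `Q` depending only on
`v, w` (`3^{nL} Q = 2^{|w|} C(v) - 2^{|v|} C(w)`); `zj_transport`. -/
theorem lp_det (K : Ker) (N n : ℕ) {b : ℤ} (hb : ¬ (3 : ℤ) ∣ b) {j : ℕ} :
    ∀ q ∈ lpS K N n, ∀ q' ∈ lpS K N n, lpw K b q ≠ 0 → lpw K b q' ≠ 0 →
      ((lpX b q : ℤ) : ZMod (3 ^ j)) = ((lpX b q' : ℤ) : ZMod (3 ^ j)) → q.1.2 = q'.1.2 →
      q.2 = q'.2 → ((lpY b q : ℤ) : ZMod (3 ^ j)) = ((lpY b q' : ℤ) : ZMod (3 ^ j)) ∧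
        zj j (lpY b q) - lpU q * zj j (lpX b q) = zj j (lpY b q') - lpU q' * zj j (lpX b q') := by
  rintro ⟨⟨u, v⟩, w⟩ hq ⟨⟨u', v'⟩, w'⟩ hq' h h' hX hv hw
  simp only at hv hw
  subst hv hw
  obtain ⟨a1, a2⟩ := h4_ne hb hq h
  obtain ⟨b1, b2⟩ := h4_ne hb hq' h'
  simp only at a1 a2 b1 b2
  obtain ⟨m1, m2⟩ := mem_product.1 hq
  obtain ⟨_, m4⟩ := mem_product.1 m1
  have l1 : v.flatten.length = n * K.L := flatten_length m4
  have l2 : w.flatten.length = n * K.L := flatten_length m2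
  have t1 := two_words a1 a2 (l1.trans l2.symm)
  have t2 := two_words b1 b2 (l1.trans l2.symm)
  rw [← run_eq, ← run_eq] at t1 t2
  have t3 : (2 : ℤ) ^ v.flatten.sum * run w (run u b) - 2 ^ w.flatten.sum * run v (run u b) =
      2 ^ v.flatten.sum * run w (run u' b) - 2 ^ w.flatten.sum * run v (run u' b) := by
    have h3 : (3 : ℤ) ^ v.flatten.length ≠ 0 := by positivity
    exact mul_left_cancel₀ h3 (t1.trans t2.symm)
  have hX' : run v (run u b) ≡ run v (run u' b) [ZMOD 3 ^ j] := (h4_eq_iff _ _ _).1 hX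
  obtain ⟨r1, r2⟩ := zj_transport (j := j) (s := v.flatten.sum) (t := w.flatten.sum)
    (X := run v (run u b)) (Y := run w (run u b)) (X' := run v (run u' b))
    (Y' := run w (run u' b))
    (Q := 2 ^ v.flatten.sum * run w (run u b) - 2 ^ w.flatten.sum * run v (run u b))
    (by ring) (by linarith) hX'
  refine ⟨(h4_eq_iff _ _ _).2 r1, ?_⟩
  show zj j (run w (run u b)) - 2 ^ w.flatten.sum * 5 ^ v.flatten.sum * zj j (run v (run u b)) =
    zj j (run w (run u' b)) - 2 ^ w.flatten.sum * 5 ^ v.flatten.sum * zj j (run v (run u' b))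
  linear_combination r2

/-- The law of the continuation given `(v, X mod 3^j)`. -/
theorem h4_hVC (K : Ker) (N n : ℕ) {b : ℤ} (hb : ¬ (3 : ℤ) ∣ b) {j : ℕ} (hj : 1 ≤ j) :
    ∀ z ∈ wn K.B N ×ˢ wn K.B n, ∀ z' ∈ wn K.B N ×ˢ wn K.B n, pq (p1 K b) (q1 K b) z ≠ 0 →
      pq (p1 K b) (q1 K b) z' ≠ 0 → z.2 = z'.2 →
      ((end2 b z : ℤ) : ZMod (3 ^ j)) = ((end2 b z' : ℤ) : ZMod (3 ^ j)) →
      ∀ v ∈ wn K.B n, q1 K b z.1 v = q1 K b z'.1 v := by
  rintro ⟨u, v⟩ hz ⟨u', v'⟩ hz' h h' hv hC w hw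
  simp only at hv
  subst hv
  obtain ⟨m1, m2⟩ := mem_product.1 hz
  obtain ⟨m3, _⟩ := mem_product.1 hz'
  have g1 : prb K.κ u b ≠ 0 := left_ne_zero_of_mul h
  have g2 : prb K.κ v (run u b) ≠ 0 := right_ne_zero_of_mul h
  have g3 : prb K.κ u' b ≠ 0 := left_ne_zero_of_mul h'
  have g4 : prb K.κ v (run u' b) ≠ 0 := right_ne_zero_of_mul h'
  have hC' : run v (run u b) ≡ run v (run u' b) [ZMOD 3 ^ j] := (h4_eq_iff _ _ _).1 hC
  have h5 := (run_congr m2 (run_unit m1 hb g1) (run_unit m3 hb g3) g2 g4 j).2 hC'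
  have h6 : run u b ≡ run u' b [ZMOD 3 ^ (n * K.L + 1)] :=
    Int.ModEq.of_dvd (pow_dvd_pow 3 (by omega)) h5
  exact prb_congr h6 hw

/-- (H4)(1): `cmi_pq_le` with `I = wn N ×ˢ wn n`, `Z = zj X`, `V = v`, `C = X mod 3^j`,
`G = (C', U, V)` (`lp_det`), and `cmi_two`. The law of `w` given `(v, C)`: `C` and `v` determine
`z = run u b` modulo `3^(j+nL)` (`run_congr`), hence the law (`prb_congr`, `j ≥ 1`). -/
theorem lp_one (K : Ker) (N n : ℕ) {b : ℤ} (hb : ¬ (3 : ℤ) ∣ b) {j : ℕ} (hj : 1 ≤ j) :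
    cmi (lpS K N n) (lpw K b) (fun q => zj j (lpX b q))
      (fun q => (((lpY b q : ℤ) : ZMod (3 ^ j)), lpU q, zj j (lpY b q) - lpU q * zj j (lpX b q)))
      (fun q => ((lpX b q : ℤ) : ZMod (3 ^ j))) ≤ et1 K N n b j := by
  rw [← cmi_two K N n hb hj]
  refine cmi_pq_le (h4_prob2 K N n hb) (fun z v => q1_nonneg K b z.1 v) (h4_sum_q K N n hb)
    (fun z => zj j (end2 b z)) (fun z => z.2) (fun z => ((end2 b z : ℤ) : ZMod (3 ^ j)))
    (h4_hVC K N n hb hj)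
    (fun q => (((lpY b q : ℤ) : ZMod (3 ^ j)), lpU q, zj j (lpY b q) - lpU q * zj j (lpX b q))) ?_
  intro q hq q' hq' h h' hC hv hw
  obtain ⟨r1, r2⟩ := lp_det K N n hb q hq q' hq' h h' hC hv hw
  have r3 : lpU q = lpU q' := by
    unfold lpU
    rw [show q.2 = q'.2 from hw, show q.1.2 = q'.1.2 from hv]
  rw [Prod.mk.injEq, Prod.mk.injEq]
  exact ⟨r1, r3, r2⟩

/-- (H4)(2): exchange the two copies (`cmi_pq_swap`); now `G' = (X mod 3^j, U, zj Y - U zj X)` with the roles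
of `v, w` exchanged is determined by `(Y mod 3^j, v, w)` (`zj_transport` the other way round, or
`zj X - U⁻¹ zj Y` is determined and `zj Y - U zj X = -U (zj X - U⁻¹ zj Y)`, `U` a unit of `ℤ/9`). -/
theorem lp_two (K : Ker) (N n : ℕ) {b : ℤ} (hb : ¬ (3 : ℤ) ∣ b) {j : ℕ} (hj : 1 ≤ j) :
    cmi (lpS K N n) (lpw K b) (fun q => zj j (lpY b q))
      (fun q => (((lpX b q : ℤ) : ZMod (3 ^ j)), lpU q, zj j (lpY b q) - lpU q * zj j (lpX b q)))
      (fun q => ((lpY b q : ℤ) : ZMod (3 ^ j))) ≤ et1 K N n b j := by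
  have hsw := cmi_pq_swap (I := wn K.B N) (J := wn K.B n) (p := p1 K b) (q := q1 K b)
    (fun q => zj j (lpY b q))
    (fun q => (((lpX b q : ℤ) : ZMod (3 ^ j)), lpU q, zj j (lpY b q) - lpU q * zj j (lpX b q)))
    (fun q => ((lpY b q : ℤ) : ZMod (3 ^ j)))
  refine hsw.trans_le ?_
  rw [← cmi_two K N n hb hj]
  refine cmi_pq_le (h4_prob2 K N n hb) (fun z v => q1_nonneg K b z.1 v) (h4_sum_q K N n hb)
    (fun z => zj j (end2 b z)) (fun z => z.2) (fun z => ((end2 b z : ℤ) : ZMod (3 ^ j)))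
    (h4_hVC K N n hb hj) _ ?_
  rintro ⟨⟨u, v⟩, w⟩ hq ⟨⟨u', v'⟩, w'⟩ hq' h h' hC hv hw
  obtain ⟨r1, r2⟩ := lp_det K N n hb _ hq _ hq' h h' hC hv hw
  simp only at hv hw
  subst hv hw
  have hinv : (2 : ZMod 9) ^ v.flatten.sum * 5 ^ w.flatten.sum *
      (2 ^ w.flatten.sum * 5 ^ v.flatten.sum) = 1 := by
    have e1 : ∀ s : ℕ, (2 : ZMod 9) ^ s * 5 ^ s = 1 := fun s => by
      rw [← mul_pow]
      have : (2 * 5 : ZMod 9) = 1 := by decide
      rw [this, one_pow]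
    calc (2 : ZMod 9) ^ v.flatten.sum * 5 ^ w.flatten.sum *
          (2 ^ w.flatten.sum * 5 ^ v.flatten.sum) =
          (2 ^ v.flatten.sum * 5 ^ v.flatten.sum) * (2 ^ w.flatten.sum * 5 ^ w.flatten.sum) := by
            ring
      _ = 1 := by rw [e1, e1, one_mul]
  have r1' : ((run w (run u b) : ℤ) : ZMod (3 ^ j)) = ((run w (run u' b) : ℤ) : ZMod (3 ^ j)) := r1
  have r2' : zj j (run w (run u b)) -
      2 ^ w.flatten.sum * 5 ^ v.flatten.sum * zj j (run v (run u b)) =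
      zj j (run w (run u' b)) -
      2 ^ w.flatten.sum * 5 ^ v.flatten.sum * zj j (run v (run u' b)) := r2
  show ((((run w (run u b) : ℤ) : ZMod (3 ^ j)), (2 : ZMod 9) ^ v.flatten.sum * 5 ^ w.flatten.sum,
      zj j (run v (run u b)) -
        2 ^ v.flatten.sum * 5 ^ w.flatten.sum * zj j (run w (run u b))) :
      ZMod (3 ^ j) × ZMod 9 × ZMod 9) =
    (((run w (run u' b) : ℤ) : ZMod (3 ^ j)), (2 : ZMod 9) ^ v.flatten.sum * 5 ^ w.flatten.sum,
      zj j (run v (run u' b)) -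
        2 ^ v.flatten.sum * 5 ^ w.flatten.sum * zj j (run w (run u' b)))
  rw [Prod.mk.injEq, Prod.mk.injEq]
  refine ⟨r1', rfl, ?_⟩
  linear_combination (-(2 ^ v.flatten.sum * 5 ^ w.flatten.sum : ZMod 9)) * r2' -
    (zj j (run v (run u b)) - zj j (run v (run u' b))) * hinv

/-- (H4)(3): `mi_pq_le` with `F = (X mod 3^j, zj X)` (same fibres as `X mod 3^(j+2)`). -/
theorem lp_three (K : Ker) (N n : ℕ) {b : ℤ} (hb : ¬ (3 : ℤ) ∣ b) (j : ℕ) :
    mi (lpS K N n) (lpw K b) (fun q => (((lpX b q : ℤ) : ZMod (3 ^ j)), zj j (lpX b q)))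
      (fun q => (((lpY b q : ℤ) : ZMod (3 ^ j)), zj j (lpY b q))) ≤ et3 K N n b j := by
  have h1 := mi_pq_le (isProb_p1 K N hb) (q1_nonneg K b) (sum_q1 K N n hb)
    (fun z => (((end2 b z : ℤ) : ZMod (3 ^ j)), zj j (end2 b z)))
  refine h1.trans (le_of_eq ?_)
  have h2 : ent (wn K.B N ×ˢ wn K.B n) (pq (p1 K b) (q1 K b))
      (fun z => (((end2 b z : ℤ) : ZMod (3 ^ j)), zj j (end2 b z))) = hh K (N + n) b (j + 2) := by
    rw [← hh_two]
    refine ent_congr fun z _ z' _ _ _ => ?_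
    rw [zj_iff, Prod.mk.injEq]
  have h3 : ∑ u ∈ wn K.B N, p1 K b u * ent (wn K.B n) (q1 K b u)
      (fun v => (((end2 b (u, v) : ℤ) : ZMod (3 ^ j)), zj j (end2 b (u, v)))) =
      PN K N (fun x => hh K n x (j + 2)) b := by
    unfold PN
    refine Finset.sum_congr rfl fun u _ => ?_
    have h4 : ent (wn K.B n) (q1 K b u)
      (fun v => (((end2 b (u, v) : ℤ) : ZMod (3 ^ j)), zj j (end2 b (u, v)))) =
      hh K n (run u b) (j + 2) := by
      unfold hh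
      refine ent_congr fun z _ z' _ _ _ => ?_
      rw [zj_iff, Prod.mk.injEq]
      exact Iff.rfl
    rw [h4]
    rfl
  rw [h2, h3]
  rfl

/-- (H4)(4): `mass_pq_swap`. -/
theorem lp_four (K : Ker) (N n : ℕ) (b : ℤ) (j : ℕ) (a : ZMod (3 ^ j) × ZMod 9) :
    mass (lpS K N n) (lpw K b) (fun q => (((lpX b q : ℤ) : ZMod (3 ^ j)), zj j (lpX b q))) a =
      mass (lpS K N n) (lpw K b) (fun q => (((lpY b q : ℤ) : ZMod (3 ^ j)), zj j (lpY b q))) a :=
  mass_pq_swap (fun z => (((end2 b z : ℤ) : ZMod (3 ^ j)), zj j (end2 b z))) a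

end Pool.Agent.Lib.MP_d0d59f_nt.GE

/-! Row ge_K2: the dichotomy for digit entropies. -/

namespace Pool.Agent.Lib.MP_d0d59f_nt.GE

open Finset

/-- Digit `j` is nearly deterministic, or digits `j`, `j+1` are nearly uniform. -/
def GoodD (K : Ker) (ζ : ℝ) (N : ℕ) (b : ℤ) (j : ℕ) : Prop :=
  dg K N b j ≤ ζ ∨ (Real.log 3 - ζ ≤ dg K N b j ∧ Real.log 3 - ζ ≤ dg K N b (j + 1))

/-- The entropy of a function of the first end point in the loop space. -/
theorem k2_ent_fst {A : Type*} (K : Ker) (N n : ℕ) {b : ℤ} (hb : ¬ (3 : ℤ) ∣ b) (F : ℤ → A) :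
    ent (lpS K N n) (lpw K b) (fun q => F (lpX b q)) =
      ent (wn K.B N ×ˢ wn K.B n) (pq (p1 K b) (q1 K b)) (fun z => F (end2 b z)) := by
  unfold lpS lpw lpX
  refine ent_pq_fst (I := wn K.B N ×ˢ wn K.B n) (J := wn K.B n) (p := pq (p1 K b) (q1 K b))
    (q := fun z => q1 K b z.1) ?_ (fun z => F (end2 b z))
  intro i hi hpi
  have h1 : p1 K b i.1 ≠ 0 := by
    intro h0
    exact hpi (by simp [pq, h0])
  exact sum_q1 K N n hb i.1 (Finset.mem_product.1 hi).1 h1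

theorem k2_ent_C (K : Ker) (N n : ℕ) {b : ℤ} (hb : ¬ (3 : ℤ) ∣ b) (j : ℕ) :
    ent (lpS K N n) (lpw K b) (fun q => ((lpX b q : ℤ) : ZMod (3 ^ j))) = hh K (N + n) b j := by
  rw [k2_ent_fst K N n hb (fun x => ((x : ℤ) : ZMod (3 ^ j)))]
  exact hh_two K N n b j

theorem k2_ent_one (K : Ker) (N n : ℕ) {b : ℤ} (hb : ¬ (3 : ℤ) ∣ b) (j : ℕ) :
    ent (lpS K N n) (lpw K b)
      (fun q => (((lpX b q : ℤ) : ZMod (3 ^ j)), d1 (zj j (lpX b q)))) =
        hh K (N + n) b (j + 1) := by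
  rw [← k2_ent_C K N n hb (j + 1)]
  refine ent_congr ?_
  intro q _ q' _ _ _
  rw [zj_iff_one]
  simp only [Prod.mk.injEq, d1]

theorem k2_ent_two (K : Ker) (N n : ℕ) {b : ℤ} (hb : ¬ (3 : ℤ) ∣ b) (j : ℕ) :
    ent (lpS K N n) (lpw K b)
      (fun q => (((lpX b q : ℤ) : ZMod (3 ^ j)), zj j (lpX b q))) =
        hh K (N + n) b (j + 2) := by
  rw [← k2_ent_C K N n hb (j + 2)]
  refine ent_congr ?_
  intro q _ q' _ _ _
  rw [zj_iff]
  simp only [Prod.mk.injEq]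

/-- (K). In the loop space (`lpS`, `lpw`), `C = X mod 3^j`, `Z = zj j X`: `lemmaG` with `lp_one .. lp_four`,
`lpU_one`, `isProb_lp` gives `sb * ub ≤ 40 √η`. With `δ = min ((ζ/3)²) (ζ/9)` and `η = (δ²/40)²`: `sb ≤ δ` or `ub ≤ δ`. In the first
case `digit_le`: `dg (N+n) b j = H(C, d1 Z) - H(C) ≤ 3 √δ ≤ ζ`; in the second `digits_ge`:
`(log 3 - dg j) + (log 3 - dg (j+1)) ≤ 9 δ ≤ ζ` and both terms are `≥ 0` (`dg_le`).
Translation: `(C, d1 Z)` has the fibres of `X mod 3^(j+1)` (`zj_iff_one`), `(C, Z)` those of `X mod 3^(j+2)` (`zj_iff`);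
functions of `(u, v)` only: `ent_pq_fst` and `hh_two`. -/
theorem K_dich (ζ : ℝ) (hζ : 0 < ζ) : ∃ η : ℝ, 0 < η ∧ ∀ (K : Ker) (N n : ℕ) (b : ℤ),
    ¬ (3 : ℤ) ∣ b → ∀ j : ℕ, 1 ≤ j → et1 K N n b j ≤ η → et3 K N n b j ≤ η →
      GoodD K ζ (N + n) b j := by
  obtain ⟨δ, hδ⟩ : ∃ δ : ℝ, δ = min ((ζ / 3) ^ 2) (ζ / 9) := ⟨_, rfl⟩
  have hδ0 : 0 < δ := by
    rw [hδ]
    exact lt_min (by positivity) (by positivity)
  have hδ1 : δ ≤ (ζ / 3) ^ 2 := by
    rw [hδ]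
    exact min_le_left _ _
  have hδ2 : δ ≤ ζ / 9 := by
    rw [hδ]
    exact min_le_right _ _
  refine ⟨(δ ^ 2 / 40) ^ 2, by positivity, ?_⟩
  intro K N n b hb j hj h1 h3
  have hsq : √((δ ^ 2 / 40) ^ 2) = δ ^ 2 / 40 := Real.sqrt_sq (by positivity)
  have hmain := lemmaG (isProb_lp K N n hb)
    (fun q => ((lpX b q : ℤ) : ZMod (3 ^ j))) (fun q => ((lpY b q : ℤ) : ZMod (3 ^ j)))
    (fun q => zj j (lpX b q)) (fun q => zj j (lpY b q)) lpU
    (fun q hq _ => lpU_one K N n q hq) ((δ ^ 2 / 40) ^ 2)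
    ((lp_one K N n hb hj).trans h1) ((lp_two K N n hb hj).trans h1)
    ((lp_three K N n hb j).trans h3) (lp_four K N n b j)
  rw [hsq] at hmain
  have hC := k2_ent_C K N n hb j
  have hC1 := k2_ent_one K N n hb j
  have hC2 := k2_ent_two K N n hb j
  have hprob := isProb_lp K N n hb
  have hsb := sb_nonneg hprob (fun q => ((lpX b q : ℤ) : ZMod (3 ^ j)))
    (fun q => zj j (lpX b q))
  have hub := ub_nonneg (Ω := lpS K N n) (p := lpw K b)
    (fun q => ((lpX b q : ℤ) : ZMod (3 ^ j))) (fun q => zj j (lpX b q))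
  have hd := digit_le hprob (fun q => ((lpX b q : ℤ) : ZMod (3 ^ j)))
    (fun q => zj j (lpX b q))
  have hdd := digits_ge hprob (fun q => ((lpX b q : ℤ) : ZMod (3 ^ j)))
    (fun q => zj j (lpX b q))
  rw [hC, hC1] at hd
  rw [hC, hC2] at hdd
  obtain ⟨s, hs⟩ : ∃ s : ℝ, s = sb (lpS K N n) (lpw K b)
    (fun q => ((lpX b q : ℤ) : ZMod (3 ^ j))) (fun q => zj j (lpX b q)) := ⟨_, rfl⟩
  obtain ⟨u, hu⟩ : ∃ u : ℝ, u = ub (lpS K N n) (lpw K b)
    (fun q => ((lpX b q : ℤ) : ZMod (3 ^ j))) (fun q => zj j (lpX b q)) := ⟨_, rfl⟩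
  rw [← hs, ← hu] at hmain
  rw [← hs] at hsb hd
  rw [← hu] at hub hdd
  have hcases : s ≤ δ ∨ u ≤ δ := by
    by_contra hcon
    push Not at hcon
    have : δ * δ < s * u := mul_lt_mul'' hcon.1 hcon.2 hδ0.le hδ0.le
    nlinarith
  rcases hcases with hsd | hud
  · left
    have hroot : √s ≤ ζ / 3 := by
      rw [Real.sqrt_le_left (by positivity)]
      exact hsd.trans hδ1
    unfold dg
    linarith
  · right
    have e1 := dg_le K (N + n) b j
    have e2 := dg_le K (N + n) b (j + 1)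
    unfold dg at e1 e2 ⊢
    have e3 : j + 1 + 1 = j + 2 := rfl
    rw [e3] at e2 ⊢
    constructor <;> linarith

/-- `η₁ ≥ 0` (`cmi_two`, `cmi_nonneg`). -/
theorem et1_nonneg (K : Ker) (N n : ℕ) {b : ℤ} (hb : ¬ (3 : ℤ) ∣ b) {j : ℕ} (hj : 1 ≤ j) :
    0 ≤ et1 K N n b j := by
  rw [← cmi_two K N n hb hj]
  exact cmi_nonneg (isProb_pq (isProb_p1 K N hb) (q1_nonneg K b) (sum_q1 K N n hb)) _ _ _

/-- `η₃ ≥ 0` (`hh_ge`). -/
theorem et3_nonneg (K : Ker) (N n : ℕ) {b : ℤ} (hb : ¬ (3 : ℤ) ∣ b) (j : ℕ) :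
    0 ≤ et3 K N n b j := by
  unfold et3
  linarith [hh_ge K N n hb (j + 2)]

end Pool.Agent.Lib.MP_d0d59f_nt.GE

/-! Row ge_S4: the window `1 .. W` has positive mean digit entropy, for every starting point. -/

namespace Pool.Agent.Lib.MP_d0d59f_nt.GE

open Finset Filter Topology

theorem s4_M (K : Ker) : 1 ≤ K.M := by
  have h1 := K.sum_one 1 (by norm_num)
  have h2 : K.B.Nonempty := by
    by_contra h
    rw [not_nonempty_iff_eq_empty] at h
    rw [h, sum_empty] at h1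
    exact zero_ne_one h1
  obtain ⟨α, hα⟩ := h2
  have h3 := K.len α hα
  have h4 := K.hL
  obtain ⟨a, ha⟩ : ∃ a, a ∈ α := List.exists_mem_of_length_pos (by omega)
  have h5 := K.bd α hα a ha
  omega

theorem s4_log {c C : ℝ} (hc : 0 < c) :
    ∃ W0 : ℕ, ∀ W : ℕ, W0 ≤ W → C + Real.log (W + 2) ≤ c * W := by
  have h1 : ∀ᶠ x : ℝ in atTop, Real.log x ≤ c / 2 * x := by
    have h2 := Real.isLittleO_log_id_atTop.def (show 0 < c / 2 by positivity)
    filter_upwards [h2, eventually_ge_atTop (0 : ℝ)] with x hx hx0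
    rw [id, Real.norm_eq_abs, Real.norm_eq_abs, abs_of_nonneg hx0] at hx
    exact (le_abs_self _).trans hx
  have h3 : Tendsto (fun W : ℕ => (W : ℝ) + 2) atTop atTop :=
    tendsto_atTop_add_const_right _ _ tendsto_natCast_atTop_atTop
  have h4 : ∀ᶠ W : ℕ in atTop, (C + c) / (c / 2) ≤ (W : ℝ) :=
    tendsto_natCast_atTop_atTop.eventually_ge_atTop _
  obtain ⟨W0, hW0⟩ := eventually_atTop.1 ((h3.eventually h1).and h4)
  refine ⟨W0, fun W hW => ?_⟩
  obtain ⟨h5, h6⟩ := hW0 W hW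
  rw [div_le_iff₀ (by positivity)] at h6
  linarith

/-- `∑_{i<W} dg N b (1+i) = hh N b (W+1) - hh N b 1 ≥ hh N b (W+1) - log 3`. With `n = (W+1)/(LM)` (floor;
`L M ≥ 1`: `M ≥ 1` because blocks are nonempty lists with entries in `[1,M]`, `sum_one` at `x = 1`) and `N ≥ n`, `hh_sep` gives
`hh N b (W+1) ≥ c0 n - log (nLM + 1) ≥ c0 ((W+1)/(LM) - 1) - log (W + 2)`; for large `W` this minus `log 3` is
`≥ c1 W` with `c1 = c0/(2LM)`. -/
theorem window (K : Ker) : ∃ c1 : ℝ, 0 < c1 ∧ ∃ W0 : ℕ, ∀ W, W0 ≤ W → ∃ N0, ∀ N, N0 ≤ N →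
    ∀ b : ℤ, ¬ (3 : ℤ) ∣ b → c1 * W ≤ ∑ i ∈ range W, dg K N b (1 + i) := by
  have hM := s4_M K
  have hL := K.hL
  have hLM : 0 < K.L * K.M := by positivity
  have hLMr : (0 : ℝ) < (K.L * K.M : ℕ) := by exact_mod_cast hLM
  have hc0 := K.c0_pos
  set c : ℝ := K.c0 / (2 * (K.L * K.M : ℕ)) with hc
  have hcp : 0 < c := by positivity
  obtain ⟨W0, hW0⟩ := s4_log (C := K.c0 + Real.log 3) hcp
  refine ⟨c, hcp, W0, fun W hW => ⟨(W + 1) / (K.L * K.M), fun N hN b hb => ?_⟩⟩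
  have h1 : ∑ i ∈ range W, dg K N b (1 + i) = hh K N b (1 + W) - hh K N b (1 + 0) := by
    rw [← sum_range_sub (fun i => hh K N b (1 + i)) W]
    rfl
  rw [h1]
  have h2 := hh_le K N b (1 + 0)
  have h3 : (W + 1) / (K.L * K.M) * K.L * K.M ≤ 1 + W := by
    rw [mul_assoc, add_comm 1 W]
    exact Nat.div_mul_le_self _ _
  have h4 := hh_sep K hN hb h3
  have h5 : ((W : ℝ) + 1) < (K.L * K.M : ℕ) * (((W + 1) / (K.L * K.M) : ℕ) + 1) := by
    have := Nat.lt_mul_div_succ (W + 1) hLM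
    exact_mod_cast this
  have h6 : Real.log (((W + 1) / (K.L * K.M) : ℕ) * K.L * K.M + 1) ≤ Real.log (W + 2) := by
    apply Real.log_le_log (by positivity)
    have : ((((W + 1) / (K.L * K.M) * K.L * K.M : ℕ)) : ℝ) ≤ ((1 + W : ℕ) : ℝ) := by
      exact_mod_cast h3
    push_cast at this
    linarith
  have h7 := hW0 W hW
  have h8 : 2 * c * W - K.c0 ≤ K.c0 * ((W + 1) / (K.L * K.M) : ℕ) := by
    have h9 : K.c0 = 2 * c * (K.L * K.M : ℕ) := by
      rw [hc]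
      field_simp
    have h10 : 2 * c * ((W : ℝ) + 1) ≤
        2 * c * ((K.L * K.M : ℕ) * (((W + 1) / (K.L * K.M) : ℕ) + 1)) :=
      mul_le_mul_of_nonneg_left h5.le (by positivity)
    have h11 : 2 * c * ((K.L * K.M : ℕ) * (((W + 1) / (K.L * K.M) : ℕ) + 1) : ℝ) =
        K.c0 * ((W + 1) / (K.L * K.M) : ℕ) + K.c0 := by
      rw [h9]
      ring
    rw [h11] at h10
    linarith
  push_cast at h2 h4 h6 h8 ⊢
  linarith

end Pool.Agent.Lib.MP_d0d59f_nt.GE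

/-! Row ge_S8: the end point is nearly uniform given its class modulo `3`. -/

namespace Pool.Agent.Lib.MP_d0d59f_nt.GE

open Finset Filter Topology

variable {K : Ker}

theorem s8_split (m : ℕ) (g : ℕ → ℝ) :
    ∑ n ∈ range (3 * m), g n = ∑ i ∈ range m, (g (3 * i) + g (3 * i + 1) + g (3 * i + 2)) := by
  induction m with
  | zero => simp
  | succ m ih =>
    rw [show 3 * (m + 1) = 3 * m + 1 + 1 + 1 by ring, sum_range_succ, sum_range_succ,
      sum_range_succ, ih, sum_range_succ]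
    ring

theorem s8_zmod (M : ℕ) [NeZero M] (G : ℕ → ℝ) :
    ∑ x : ZMod M, G x.val = ∑ n ∈ range M, G n := by
  refine Finset.sum_bij (fun x _ => x.val) ?_ ?_ ?_ ?_
  · intro x _
    exact mem_range.2 (ZMod.val_lt x)
  · intro x _ y _ h
    exact ZMod.val_injective M h
  · intro n hn
    exact ⟨(n : ZMod M), mem_univ _, ZMod.val_natCast_of_lt (mem_range.1 hn)⟩
  · intro x _
    rfl

theorem s8_cast (i j : ℕ) : ((3 * i + j : ℕ) : ZMod (3 ^ 1)) = (j : ZMod (3 ^ 1)) := by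
  have h3 : ((3 : ℕ) : ZMod (3 ^ 1)) = 0 := by
    have := ZMod.natCast_self (3 ^ 1)
    simpa using this
  push_cast
  have h3' : (3 : ZMod (3 ^ 1)) = 0 := by exact_mod_cast h3
  rw [h3']
  ring

theorem s8_mass_zero {N : ℕ} {b : ℤ} (hb : ¬ (3 : ℤ) ∣ b) :
    mass (wn K.B N) (fun u => prb K.κ u b) (fun u => ((run u b : ℤ) : ZMod (3 ^ 1))) 0 = 0 := by
  apply mass_eq_zero
  intro u hu hp h
  apply run_unit hu hb hp
  have h1 := (ZMod.intCast_zmod_eq_zero_iff_dvd (run u b) (3 ^ 1)).1 h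
  simpa using h1

theorem s8_mass {N : ℕ} {b : ℤ} (c : ℕ) (hc : c < 3) :
    mass (wn K.B N) (fun u => prb K.κ u b) (fun u => ((run u b : ℤ) : ZMod (3 ^ 1)))
      (c : ZMod (3 ^ 1)) = PN K N (fun x => if x % 3 = (c : ℤ) then 1 else 0) b := by
  classical
  unfold mass PN
  refine Finset.sum_congr rfl fun u _ => ?_
  have hiff : (((run u b : ℤ) : ZMod (3 ^ 1)) = (c : ZMod (3 ^ 1))) ↔ run u b % 3 = (c : ℤ) := by
    have h1 : (c : ZMod (3 ^ 1)) = ((c : ℤ) : ZMod (3 ^ 1)) := by push_cast; rfl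
    rw [h1, ZMod.intCast_eq_intCast_iff]
    unfold Int.ModEq
    have h2 : (((3 ^ 1 : ℕ) : ℤ)) = 3 := by norm_num
    rw [h2]
    have h3 : (c : ℤ) % 3 = c := by omega
    rw [h3]
  by_cases h : run u b % 3 = (c : ℤ)
  · rw [if_pos (hiff.2 h)]
    show prb K.κ u b = prb K.κ u b * (if run u b % 3 = (c : ℤ) then (1 : ℝ) else 0)
    rw [if_pos h, mul_one]
  · rw [if_neg (fun h' => h (hiff.1 h'))]
    show (0 : ℝ) = prb K.κ u b * (if run u b % 3 = (c : ℤ) then (1 : ℝ) else 0)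
    rw [if_neg h, mul_zero]

/-- Pointwise: for a unit `b`, `f` of period `3^(k+1)`, `|f| ≤ C`:
`|PN N f b - ∑_{c=1,2} PN N 1_c b * avg_c f| ≤ 2 C √(k log 3 - (hh N b (k+1) - hh N b 1))`.
`l1_unif` for `X u = run u b`; `PN N f b = ∑_x mass(x) f(x)` (`sum_fiber`), `PN N 1_c b = mass (X mod 3 = c)`, the class
`0` has mass `0`, and `∑_{x ≡ c} f x / 3^k = avg k c f`. -/
theorem PN_near {N : ℕ} {b : ℤ} (hb : ¬ (3 : ℤ) ∣ b) (k : ℕ) {f : ℤ → ℝ}
    (hf : ∀ x y : ℤ, x ≡ y [ZMOD 3 ^ (k + 1)] → f x = f y) {C : ℝ} (hC : ∀ x, |f x| ≤ C) :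
    |PN K N f b - (PN K N (fun x => if x % 3 = 1 then 1 else 0) b * avg k 1 f +
        PN K N (fun x => if x % 3 = 2 then 1 else 0) b * avg k 2 f)| ≤
      2 * C * √((k : ℝ) * Real.log 3 - (hh K N b (k + 1) - hh K N b 1)) := by
  have hprob := isProb_wn K N hb
  have hC0 : 0 ≤ C := (abs_nonneg _).trans (hC 0)
  have hne : NeZero (3 ^ (k + 1)) := ⟨by positivity⟩
  set Ω := wn K.B N with hΩ
  set p : List (List ℕ) → ℝ := fun u => prb K.κ u b with hp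
  set mk : ZMod (3 ^ (k + 1)) → ℝ :=
    mass Ω p (fun u => ((run u b : ℤ) : ZMod (3 ^ (k + 1)))) with hmk
  set m1 : ZMod (3 ^ 1) → ℝ := mass Ω p (fun u => ((run u b : ℤ) : ZMod (3 ^ 1))) with hm1
  have hl1 := l1_unif hprob (fun u => run u b) k
  -- the expectation of `f`
  have hE : PN K N f b = ∑ x : ZMod (3 ^ (k + 1)), mk x * f (x.val : ℕ) := by
    rw [hmk, ← sum_fiber Ω p (fun u => ((run u b : ℤ) : ZMod (3 ^ (k + 1))))
      (fun x => f (x.val : ℕ))]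
    unfold PN
    refine Finset.sum_congr rfl fun u _ => ?_
    have h1 : f (run u b) = f ((((run u b : ℤ) : ZMod (3 ^ (k + 1))).val : ℕ) : ℤ) := by
      apply hf
      have h2 : (((run u b : ℤ) : ZMod (3 ^ (k + 1)))) =
          (((((run u b : ℤ) : ZMod (3 ^ (k + 1))).val : ℕ) : ℤ) : ZMod (3 ^ (k + 1))) := by
        rw [Int.cast_natCast, ZMod.natCast_zmod_val]
      have h3 := (ZMod.intCast_eq_intCast_iff _ _ _).1 h2
      have h4 : (((3 ^ (k + 1) : ℕ) : ℤ)) = 3 ^ (k + 1) := by push_cast; rfl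
      rw [h4] at h3
      exact h3
    rw [h1]
  -- the uniform part
  have hU : PN K N (fun x => if x % 3 = 1 then 1 else 0) b * avg k 1 f +
      PN K N (fun x => if x % 3 = 2 then 1 else 0) b * avg k 2 f =
      ∑ x : ZMod (3 ^ (k + 1)), m1 ((x.val : ℕ) : ZMod (3 ^ 1)) / 3 ^ k * f (x.val : ℕ) := by
    rw [s8_zmod (3 ^ (k + 1)) (fun n => m1 ((n : ℕ) : ZMod (3 ^ 1)) / 3 ^ k * f (n : ℕ)),
      show 3 ^ (k + 1) = 3 * 3 ^ k by ring, s8_split]
    have h0 : m1 ((0 : ℕ) : ZMod (3 ^ 1)) = 0 := by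
      rw [Nat.cast_zero]
      exact s8_mass_zero hb
    have h1 : m1 ((1 : ℕ) : ZMod (3 ^ 1)) = PN K N (fun x => if x % 3 = 1 then 1 else 0) b := by
      have := s8_mass (K := K) (N := N) (b := b) 1 (by norm_num)
      simpa using this
    have h2 : m1 ((2 : ℕ) : ZMod (3 ^ 1)) = PN K N (fun x => if x % 3 = 2 then 1 else 0) b := by
      have := s8_mass (K := K) (N := N) (b := b) 2 (by norm_num)
      simpa using this
    rw [← h1, ← h2]
    unfold avg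
    rw [mul_div_assoc', mul_div_assoc', Finset.mul_sum, Finset.mul_sum, ← add_div,
      ← Finset.sum_add_distrib, Finset.sum_div]
    refine Finset.sum_congr rfl fun i _ => ?_
    have e0 : ((3 * i : ℕ) : ZMod (3 ^ 1)) = ((0 : ℕ) : ZMod (3 ^ 1)) := s8_cast i 0
    have e1 : ((3 * i + 1 : ℕ) : ZMod (3 ^ 1)) = ((1 : ℕ) : ZMod (3 ^ 1)) := s8_cast i 1
    have e2 : ((3 * i + 2 : ℕ) : ZMod (3 ^ 1)) = ((2 : ℕ) : ZMod (3 ^ 1)) := s8_cast i 2
    rw [e0, e1, e2, h0]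
    have c1 : (((3 * i + 1 : ℕ)) : ℤ) = 1 + 3 * (i : ℤ) := by push_cast; ring
    have c2 : (((3 * i + 2 : ℕ)) : ℤ) = 2 + 3 * (i : ℤ) := by push_cast; ring
    rw [c1, c2]
    ring
  rw [hE, hU, ← Finset.sum_sub_distrib]
  calc |∑ x : ZMod (3 ^ (k + 1)), (mk x * f (x.val : ℕ) -
        m1 ((x.val : ℕ) : ZMod (3 ^ 1)) / 3 ^ k * f (x.val : ℕ))|
      ≤ ∑ x : ZMod (3 ^ (k + 1)), |mk x * f (x.val : ℕ) -
        m1 ((x.val : ℕ) : ZMod (3 ^ 1)) / 3 ^ k * f (x.val : ℕ)| := abs_sum_le_sum_abs _ _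
    _ ≤ ∑ x : ZMod (3 ^ (k + 1)), |mk x - m1 ((x.val : ℕ) : ZMod (3 ^ 1)) / 3 ^ k| * C := by
        refine Finset.sum_le_sum fun x _ => ?_
        rw [← sub_mul, abs_mul]
        exact mul_le_mul_of_nonneg_left (hC _) (abs_nonneg _)
    _ = (∑ x : ZMod (3 ^ (k + 1)), |mk x - m1 ((x.val : ℕ) : ZMod (3 ^ 1)) / 3 ^ k|) * C := by
        rw [Finset.sum_mul]
    _ ≤ (2 * √((k : ℝ) * Real.log 3 - (hh K N b (k + 1) - hh K N b 1))) * C :=
        mul_le_mul_of_nonneg_right hl1 hC0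
    _ = 2 * C * √((k : ℝ) * Real.log 3 - (hh K N b (k + 1) - hh K N b 1)) := by ring

end Pool.Agent.Lib.MP_d0d59f_nt.GE
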