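import Pool.Agent.Lib.MP_d0d59f_nt.GE.H1b

/-! Row ge_M1: invariant means. -/

namespace Pool.Agent.Lib.MP_d0d59f_nt.GE

open Finset

theorem Bdd.add {f g : ℤ → ℝ} (hf : Bdd f) (hg : Bdd g) : Bdd (fun x => f x + g x) := by
  obtain ⟨C, hC⟩ := hf
  obtain ⟨D, hD⟩ := hg
  exact ⟨C + D, fun x => (abs_add_le _ _).trans (add_le_add (hC x) (hD x))⟩

theorem Bdd.sub {f g : ℤ → ℝ} (hf : Bdd f) (hg : Bdd g) : Bdd (fun x => f x - g x) := by
  obtain ⟨C, hC⟩ := hf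
  obtain ⟨D, hD⟩ := hg
  exact ⟨C + D, fun x => (abs_sub _ _).trans (add_le_add (hC x) (hD x))⟩

theorem Bdd.mul {f g : ℤ → ℝ} (hf : Bdd f) (hg : Bdd g) : Bdd (fun x => f x * g x) := by
  obtain ⟨C, hC⟩ := hf
  obtain ⟨D, hD⟩ := hg
  refine ⟨C * D, fun x => ?_⟩
  have hC0 : 0 ≤ C := (abs_nonneg _).trans (hC x)
  show |f x * g x| ≤ C * D
  rw [abs_mul]
  exact mul_le_mul (hC x) (hD x) (abs_nonneg _) hC0

theorem Bdd.const (c : ℝ) : Bdd (fun _ => c) := ⟨|c|, fun _ => le_rfl⟩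

theorem Bdd.smul (c : ℝ) {f : ℤ → ℝ} (hf : Bdd f) : Bdd (fun x => c * f x) :=
  (Bdd.const c).mul hf

theorem Bdd.abs {f : ℤ → ℝ} (hf : Bdd f) : Bdd (fun x => |f x|) := by
  obtain ⟨C, hC⟩ := hf
  exact ⟨C, fun x => by rw [abs_abs]; exact hC x⟩

theorem Bdd.sum {ι : Type*} {s : Finset ι} {f : ι → ℤ → ℝ} (hf : ∀ i ∈ s, Bdd (f i)) :
    Bdd (fun x => ∑ i ∈ s, f i x) := by
  classical
  induction s using Finset.induction_on with
  | empty =>
    simp only [Finset.sum_empty]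
    exact Bdd.const 0
  | insert a s ha ih =>
    have h1 := ih fun i hi => hf i (Finset.mem_insert_of_mem hi)
    have h2 := (hf a (Finset.mem_insert_self a s)).add h1
    simp only [Finset.sum_insert ha]
    exact h2

open Classical in
/-- Indicator function. -/
noncomputable def ind (S : ℤ → Prop) (x : ℤ) : ℝ := if S x then 1 else 0

theorem ind_bdd (S : ℤ → Prop) : Bdd (ind S) := by
  refine ⟨1, fun x => ?_⟩
  unfold ind
  split_ifs <;> simp

theorem dg_bdd (K : Ker) (n j : ℕ) : Bdd (fun x => dg K n x j) :=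
  (hh_bdd K n (j + 1)).sub (hh_bdd K n j)

namespace Mean

variable {K : Ker} (m : Mean K)

theorem const (c : ℝ) : m.Θ (fun _ => c) = c := by
  have h := m.smul c (fun _ => 1) (Bdd.const 1)
  simp only [mul_one] at h
  rw [h, m.one, mul_one]

theorem sub {f g : ℤ → ℝ} (hf : Bdd f) (hg : Bdd g) :
    m.Θ (fun x => f x - g x) = m.Θ f - m.Θ g := by
  have h1 := m.add f (fun x => (-1) * g x) hf (Bdd.smul (-1) hg)
  have h2 := m.smul (-1) g hg
  have h3 : (fun x => f x + (-1) * g x) = fun x => f x - g x := by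
    funext x
    ring
  rw [h3, h2] at h1
  rw [h1]
  ring

theorem sum {ι : Type*} (s : Finset ι) (f : ι → ℤ → ℝ) (hf : ∀ i ∈ s, Bdd (f i)) :
    m.Θ (fun x => ∑ i ∈ s, f i x) = ∑ i ∈ s, m.Θ (f i) := by
  classical
  induction s using Finset.induction_on with
  | empty =>
    simp only [Finset.sum_empty]
    exact m.const 0
  | insert a s ha ih =>
    have h1 := ih fun i hi => hf i (Finset.mem_insert_of_mem hi)
    have h2 : Bdd (fun x => ∑ i ∈ s, f i x) :=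
      Bdd.sum fun i hi => hf i (Finset.mem_insert_of_mem hi)
    simp only [Finset.sum_insert ha]
    rw [m.add (f a) (fun x => ∑ i ∈ s, f i x) (hf a (Finset.mem_insert_self a s)) h2, h1]

theorem nonneg {f : ℤ → ℝ} (hf : Bdd f) (h : ∀ x : ℤ, ¬ (3 : ℤ) ∣ x → 0 ≤ f x) : 0 ≤ m.Θ f := by
  have h1 := m.mono (fun _ => 0) f (Bdd.const 0) hf h
  rwa [m.const 0] at h1

theorem congr {f g : ℤ → ℝ} (hf : Bdd f) (hg : Bdd g) (h : ∀ x : ℤ, ¬ (3 : ℤ) ∣ x → f x = g x) :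
    m.Θ f = m.Θ g :=
  le_antisymm (m.mono f g hf hg fun x hx => (h x hx).le) (m.mono g f hg hf fun x hx => (h x hx).ge)

theorem le_const {f : ℤ → ℝ} (hf : Bdd f) (c : ℝ) (h : ∀ x : ℤ, ¬ (3 : ℤ) ∣ x → f x ≤ c) :
    m.Θ f ≤ c := by
  have h1 := m.mono f (fun _ => c) hf (Bdd.const c) h
  rwa [m.const c] at h1

theorem inv_PN {f : ℤ → ℝ} (hf : Bdd f) (n : ℕ) : m.Θ (PN K n f) = m.Θ f := by
  induction n with
  | zero => rw [PN_zero]
  | succ n ih => rw [PN_succ, m.inv _ (PN_bdd K n hf), ih]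

/-- Markov's inequality. -/
theorem markov {f : ℤ → ℝ} (hf : Bdd f) (h : ∀ x : ℤ, ¬ (3 : ℤ) ∣ x → 0 ≤ f x) {t : ℝ}
    (ht : 0 < t) : m.Θ (ind fun x => t ≤ f x) ≤ m.Θ f / t := by
  have h1 : m.Θ (ind fun x => t ≤ f x) ≤ m.Θ (fun x => t⁻¹ * f x) := by
    apply m.mono _ _ (ind_bdd _) (Bdd.smul _ hf)
    intro x hx
    unfold ind
    split_ifs with hc
    · rw [← inv_mul_cancel₀ ht.ne']
      exact mul_le_mul_of_nonneg_left hc (inv_pos.mpr ht).le
    · exact mul_nonneg (inv_pos.mpr ht).le (h x hx)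
  rw [m.smul _ f hf] at h1
  rw [div_eq_inv_mul]
  exact h1

/-- If `A x → B x ∨ C x` for units then `Θ(A) ≤ Θ(B) + Θ(C)`. -/
theorem ind_union {A B C : ℤ → Prop} (h : ∀ x : ℤ, ¬ (3 : ℤ) ∣ x → A x → B x ∨ C x) :
    m.Θ (ind A) ≤ m.Θ (ind B) + m.Θ (ind C) := by
  rw [← m.add (ind B) (ind C) (ind_bdd B) (ind_bdd C)]
  apply m.mono _ _ (ind_bdd A) ((ind_bdd B).add (ind_bdd C))
  intro x hx
  have h0 : ∀ S : ℤ → Prop, 0 ≤ ind S x := by
    intro S
    unfold ind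
    split_ifs <;> norm_num
  have h1 : ∀ S : ℤ → Prop, S x → ind S x = 1 := fun S hS => if_pos hS
  by_cases hA : A x
  · rw [h1 A hA]
    rcases h x hx hA with hB | hC
    · rw [h1 B hB]
      linarith [h0 C]
    · rw [h1 C hC]
      linarith [h0 B]
  · have hA0 : ind A x = 0 := if_neg hA
    rw [hA0]
    exact add_nonneg (h0 B) (h0 C)

end Mean

end Pool.Agent.Lib.MP_d0d59f_nt.GE
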