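import Pool.Agent.Lib.MP_d0d59f_nt.GE.TypA
import Pool.Agent.Lib.MP_d0d59f_nt.AA.C7bSingle
import Pool.Agent.Lib.MP_d0d59f_nt.AA.C8Tele
import Pool.Agent.Lib.MP_d0d59f_nt.AA.A5Tails
import Pool.Agent.Lib.MP_d0d59f_nt.GE.Words

/-! Row ge_T3: `WW n` is Cauchy in `L¹`. -/

namespace Pool.Agent.Lib.MP_d0d59f_nt.GE

open Finset Filter Topology

theorem t3_pz_zero (n l : ℕ) (Y : ZMod (3 ^ 0)) : AA.pz 1 0 0 n l Y = AA.nb n l := by
  have h := AA.sum_pz 1 0 0 n l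
  rw [← h]
  have hY : ∀ Z : ZMod (3 ^ 0), Z = Y := by
    have : Subsingleton (ZMod (3 ^ 0)) := by
      rw [pow_zero]
      infer_instance
    exact fun Z => Subsingleton.elim _ _
  rw [Finset.sum_eq_single Y (fun Z _ hZ => absurd (hY Z) hZ)
    (fun h => absurd (Finset.mem_univ _) h)]

/-- The law modulo `3^K` of `n + 1` steps is that of `n` steps for `n ≥ K`: for `e = e' ++ [b]`,
`cc (e' ++ [b]) = 2^b cc e' + 3^n` (`AA.cc_append`), so `hz 1 0 K (e' ++ [b]) = hz 1 0 K e'`; hence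
`pz K (n+1) l Y = ∑_{s ≤ l} pz K n s Y * nb 1 (l - s)` (`AA.sum_comps_add` with `n + 1`; or `AA.pz_reduce`), and
`∑_l nb 1 l = 1` (Cauchy product of nonnegative summable sequences, `tsum_mul_tsum_eq_tsum_sum_antidiagonal`). We need `n = K`. -/
theorem tot_succ (K : ℕ) (Y : ZMod (3 ^ K)) : tot K (K + 1) Y = tot K K Y := by
  cases K with
  | zero =>
    unfold tot
    simp only [t3_pz_zero]
    rw [(hasSum_nb 0).tsum_eq, (hasSum_nb (0 + 1)).tsum_eq]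
  | succ K =>
    unfold tot
    have h1 : ∀ l, AA.pz 1 0 (K + 1) (K + 1 + 1) l Y =
        ∑ s ∈ range (l + 1), AA.pz 1 0 (K + 1) (K + 1) s Y * AA.nb 1 (l - s) := by
      intro l
      have h := AA.pz_reduce 1 0 K (K + 1) (K + 1 + 1) l le_rfl (by omega) Y
      rw [h]
      refine Finset.sum_congr rfl fun s _ => ?_
      rw [show K + 1 + 1 - (K + 1) = 1 by omega]
    have hf := summable_pz (K + 1) (K + 1) Y
    have hg := (hasSum_nb 1).summable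
    have h2 := tsum_mul_tsum_eq_tsum_sum_range_of_summable_norm hf.norm hg.norm
    rw [(hasSum_nb 1).tsum_eq, mul_one] at h2
    rw [h2]
    exact tsum_congr h1

theorem t3_sum_pz (K n l : ℕ) :
    ∑ x ∈ range (3 ^ K), AA.pz 1 0 K n l ((x : ℤ) : ZMod (3 ^ K)) = AA.nb n l := by
  rw [← AA.sum_pz 1 0 K n l, ← AA.c2b_sum_range_zmod]
  refine Finset.sum_congr rfl fun x _ => ?_
  rw [Int.cast_natCast]

theorem t3_sum_tot (K n : ℕ) :
    ∑ x ∈ range (3 ^ K), tot K n ((x : ℤ) : ZMod (3 ^ K)) = 1 := by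
  rw [← sum_tot K n, ← AA.c2b_sum_range_zmod]
  refine Finset.sum_congr rfl fun x _ => ?_
  rw [Int.cast_natCast]

theorem t3_period (K : ℕ) (g : ZMod (3 ^ K) → ℝ) :
    ∑ x ∈ range (3 ^ (K + 1)), g ((x : ℤ) : ZMod (3 ^ K)) =
      3 * ∑ x ∈ range (3 ^ K), g ((x : ℤ) : ZMod (3 ^ K)) := by
  have h := AA.sum_range_periodic (K + 1) K (Nat.le_succ K) g
  simp only [Int.cast_natCast]
  rw [h, pow_succ]
  congr 1
  have : (3 : ℝ) ^ K ≠ 0 := by positivity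
  field_simp

theorem t3_tail_nonneg (K n L : ℕ) (Y : ZMod (3 ^ K)) :
    0 ≤ tot K n Y - ∑ l ∈ range (L + 1), AA.pz 1 0 K n l Y := by
  have := (summable_pz K n Y).sum_le_tsum (range (L + 1)) (fun l _ => AA.pz_nonneg 1 0 K n l Y)
  unfold tot
  linarith

theorem t3_main (K n L : ℕ) :
    ∑ x ∈ range (3 ^ (K + 1)), |tot (K + 1) n ((x : ℤ) : ZMod (3 ^ (K + 1))) -
        tot K n ((x : ℤ) : ZMod (3 ^ K)) / 3| ≤
      AA.osc 1 0 (K + 1) K n L + 2 * (1 - ∑ l ∈ range (L + 1), AA.nb n l) := by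
  have hpt : ∀ x : ℕ, |tot (K + 1) n ((x : ℤ) : ZMod (3 ^ (K + 1))) -
        tot K n ((x : ℤ) : ZMod (3 ^ K)) / 3| ≤
      ∑ l ∈ range (L + 1), |AA.pz 1 0 (K + 1) n l ((x : ℤ) : ZMod (3 ^ (K + 1))) -
        (3 : ℝ) ^ K / 3 ^ (K + 1) * AA.pz 1 0 K n l ((x : ℤ) : ZMod (3 ^ K))| +
      ((tot (K + 1) n ((x : ℤ) : ZMod (3 ^ (K + 1))) -
        ∑ l ∈ range (L + 1), AA.pz 1 0 (K + 1) n l ((x : ℤ) : ZMod (3 ^ (K + 1)))) +
      (tot K n ((x : ℤ) : ZMod (3 ^ K)) -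
        ∑ l ∈ range (L + 1), AA.pz 1 0 K n l ((x : ℤ) : ZMod (3 ^ K))) / 3) := by
    intro x
    have h1 := t3_tail_nonneg (K + 1) n L ((x : ℤ) : ZMod (3 ^ (K + 1)))
    have h2 := t3_tail_nonneg K n L ((x : ℤ) : ZMod (3 ^ K))
    have h3 : (3 : ℝ) ^ K / 3 ^ (K + 1) = 1 / 3 := by
      rw [pow_succ]
      have : (3 : ℝ) ^ K ≠ 0 := by positivity
      field_simp
    have h4 := Finset.abs_sum_le_sum_abs
      (fun l => AA.pz 1 0 (K + 1) n l ((x : ℤ) : ZMod (3 ^ (K + 1))) -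
        1 / 3 * AA.pz 1 0 K n l ((x : ℤ) : ZMod (3 ^ K))) (range (L + 1))
    rw [Finset.sum_sub_distrib, ← Finset.mul_sum] at h4
    rw [h3]
    have h5 := abs_le.1 h4
    rw [abs_le]
    constructor
    · have := h5.1
      linarith
    · have := h5.2
      linarith
  refine (Finset.sum_le_sum fun x _ => hpt x).trans (le_of_eq ?_)
  rw [Finset.sum_add_distrib, Finset.sum_add_distrib, Finset.sum_sub_distrib,
    ← Finset.sum_div]
  have e1 : ∑ x ∈ range (3 ^ (K + 1)), ∑ l ∈ range (L + 1),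
      |AA.pz 1 0 (K + 1) n l ((x : ℤ) : ZMod (3 ^ (K + 1))) -
        (3 : ℝ) ^ K / 3 ^ (K + 1) * AA.pz 1 0 K n l ((x : ℤ) : ZMod (3 ^ K))| =
      AA.osc 1 0 (K + 1) K n L := by
    unfold AA.osc
    rw [Finset.sum_comm]
    simp only [Int.cast_natCast]
  have e2 : ∑ x ∈ range (3 ^ (K + 1)), ∑ l ∈ range (L + 1),
      AA.pz 1 0 (K + 1) n l ((x : ℤ) : ZMod (3 ^ (K + 1))) = ∑ l ∈ range (L + 1), AA.nb n l := by
    rw [Finset.sum_comm]
    exact Finset.sum_congr rfl fun l _ => t3_sum_pz (K + 1) n l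
  have e3 : ∑ x ∈ range (3 ^ (K + 1)), (tot K n ((x : ℤ) : ZMod (3 ^ K)) -
        ∑ l ∈ range (L + 1), AA.pz 1 0 K n l ((x : ℤ) : ZMod (3 ^ K))) =
      3 * (1 - ∑ l ∈ range (L + 1), AA.nb n l) := by
    rw [t3_period K fun Y => tot K n Y - ∑ l ∈ range (L + 1), AA.pz 1 0 K n l Y,
      Finset.sum_sub_distrib, t3_sum_tot, Finset.sum_comm]
    congr 2
    exact Finset.sum_congr rfl fun l _ => t3_sum_pz K n l
  rw [e1, e2, e3, t3_sum_tot]
  ring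

/-- `∑_{x < 3^{K+1}} |WW (K+1) x - WW K x| ≤ 3^{K+1} C / (K+1)²`. With `n = K+1`, `tot_succ`:
`WW (K+1) x - WW K x = 3^{K+1} (tot (K+1) n x - tot K n x / 3)`, and
`∑_x |tot (K+1) n x - tot K n x / 3| ≤ osc 1 0 (K+1) K n (20 n) + 2 (1 - ∑_{l ≤ 20 n} nb n l)`
(split the series at `l = 20 n`; `∑_x pz (K+1) n l x = nb n l`, `∑_{x<3^{K+1}} pz K n l x / 3 = nb n l`:
`AA.sum_pz`, `AA.sum_range_periodic`). `AA.single_step` with `A = 3` (`20 n + 1 ≤ 21 n`): `osc ≤ 21 C / n²`; `AA.one_sub_sum_nb_le` with `x = 3/2`: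
`1 - ∑ ≤ (2/3)^{20 n} 3^n ≤ (3 (2/3)^{20})^n ≤ 2^{-n}`, `≤ 4 / n²`. -/
theorem WW_step : ∃ C : ℝ, 0 < C ∧ ∀ K : ℕ,
    ∑ x ∈ range (3 ^ (K + 1)), |WW (K + 1) (x : ℤ) - WW K (x : ℤ)| ≤
      3 ^ (K + 1) * (C / ((K : ℝ) + 1) ^ 2) := by
  obtain ⟨C, hC, hstep⟩ := AA.single_step (d := 1) (by norm_num) 3
  refine ⟨21 * C + 2, by linarith, fun K => ?_⟩
  have hn0 : (0 : ℝ) < (K : ℝ) + 1 := by positivity
  have h1 : ∑ x ∈ range (3 ^ (K + 1)), |WW (K + 1) (x : ℤ) - WW K (x : ℤ)| =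
      3 ^ (K + 1) * ∑ x ∈ range (3 ^ (K + 1)),
        |tot (K + 1) (K + 1) ((x : ℤ) : ZMod (3 ^ (K + 1))) -
        tot K (K + 1) ((x : ℤ) : ZMod (3 ^ K)) / 3| := by
    rw [Finset.mul_sum]
    refine Finset.sum_congr rfl fun x _ => ?_
    have h3 : (0 : ℝ) < 3 ^ (K + 1) := by positivity
    have h3' : WW (K + 1) (x : ℤ) - WW K (x : ℤ) = 3 ^ (K + 1) *
        (tot (K + 1) (K + 1) ((x : ℤ) : ZMod (3 ^ (K + 1))) -
        tot K (K + 1) ((x : ℤ) : ZMod (3 ^ K)) / 3) := by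
      unfold WW
      rw [tot_succ, pow_succ (3 : ℝ)]
      ring
    rw [h3', abs_mul, abs_of_pos h3]
  have h2 := t3_main K (K + 1) (20 * (K + 1))
  have h3 := hstep 0 K (K + 1) (20 * (K + 1)) le_rfl (by simp)
  have h4 := AA.one_sub_sum_nb_le (K + 1) (20 * (K + 1)) (3 / 2) (by norm_num) (by norm_num)
  have h5 : C * (((20 * (K + 1) : ℕ) : ℝ) + 1) / ((K : ℝ) + 1) ^ 3 ≤
      21 * C / ((K : ℝ) + 1) ^ 2 := by
    rw [div_le_div_iff₀ (by positivity) (by positivity)]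
    push_cast
    have h6 : 20 * ((K : ℝ) + 1) + 1 ≤ 21 * ((K : ℝ) + 1) := by
      have : (0 : ℝ) ≤ K := Nat.cast_nonneg K
      linarith
    calc C * (20 * ((K : ℝ) + 1) + 1) * ((K : ℝ) + 1) ^ 2
        ≤ C * (21 * ((K : ℝ) + 1)) * ((K : ℝ) + 1) ^ 2 := by gcongr
      _ = 21 * C * ((K : ℝ) + 1) ^ 3 := by ring
  have h7 : ((3 / 2 : ℝ)⁻¹) ^ (20 * (K + 1) + 1) * ((3 / 2) / (2 - 3 / 2)) ^ (K + 1) ≤
      1 / ((K : ℝ) + 1) ^ 2 := by
    have e1 : ((3 / 2 : ℝ)⁻¹) ^ (20 * (K + 1) + 1) * ((3 / 2) / (2 - 3 / 2)) ^ (K + 1) =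
        (((2 / 3 : ℝ) ^ 20 * 3) ^ (K + 1)) * (2 / 3) := by
      rw [mul_pow, ← pow_mul, pow_succ]
      norm_num
      ring
    rw [e1]
    have h8 : ((2 / 3 : ℝ) ^ 20 * 3) ^ (K + 1) ≤ (1 / 4) ^ (K + 1) :=
      pow_le_pow_left₀ (by positivity) (by norm_num) _
    have h9 : (1 / 4 : ℝ) ^ (K + 1) ≤ 1 / ((K : ℝ) + 1) ^ 2 := by
      have h10 : (K : ℝ) + 1 ≤ 2 ^ (K + 1) := by
        have : K + 1 ≤ 2 ^ (K + 1) := Nat.lt_two_pow_self.le
        exact_mod_cast this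
      have h11 : (1 / 4 : ℝ) ^ (K + 1) = 1 / ((2 : ℝ) ^ (K + 1)) ^ 2 := by
        rw [← pow_mul, mul_comm (K + 1) 2, pow_mul, one_div_pow]
        norm_num
      rw [h11]
      exact one_div_le_one_div_of_le (by positivity) (by gcongr)
    have h12 : 0 ≤ ((2 / 3 : ℝ) ^ 20 * 3) ^ (K + 1) := by positivity
    linarith
  have h13 : ∑ x ∈ range (3 ^ (K + 1)),
        |tot (K + 1) (K + 1) ((x : ℤ) : ZMod (3 ^ (K + 1))) -
        tot K (K + 1) ((x : ℤ) : ZMod (3 ^ K)) / 3| ≤ (21 * C + 2) / ((K : ℝ) + 1) ^ 2 := by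
    have e : (21 * C + 2) / ((K : ℝ) + 1) ^ 2 =
        21 * C / ((K : ℝ) + 1) ^ 2 + 2 * (1 / ((K : ℝ) + 1) ^ 2) := by ring
    rw [e]
    linarith
  rw [h1]
  exact mul_le_mul_of_nonneg_left h13 (by positivity)

theorem t3_periodW (k n : ℕ) (hkn : k ≤ n) :
    ∑ x ∈ range (3 ^ (n + 1)), |WW n (x : ℤ) - WW k (x : ℤ)| =
      3 * ∑ x ∈ range (3 ^ n), |WW n (x : ℤ) - WW k (x : ℤ)| := by
  have h := t3_period n fun Y => |WW n ((Y.val : ℕ) : ℤ) - WW k ((Y.val : ℕ) : ℤ)|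
  have hmod : ∀ x : ℕ, ((((x : ℤ) : ZMod (3 ^ n)).val : ℕ) : ℤ) ≡ (x : ℤ) [ZMOD 3 ^ n] := by
    intro x
    have h2 : ((3 ^ n : ℕ) : ℤ) = 3 ^ n := by push_cast; rfl
    rw [← h2, ← ZMod.intCast_eq_intCast_iff, Int.cast_natCast, ZMod.natCast_zmod_val]
  have hval : ∀ x : ℕ, |WW n ((((x : ℤ) : ZMod (3 ^ n)).val : ℕ) : ℤ) -
      WW k ((((x : ℤ) : ZMod (3 ^ n)).val : ℕ) : ℤ)| = |WW n (x : ℤ) - WW k (x : ℤ)| := by
    intro x
    rw [WW_congr (hmod x), WW_congr ((hmod x).of_dvd (pow_dvd_pow 3 hkn))]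
  simp only [hval] at h
  exact h

/-- Telescoping (`WW K` is periodic modulo `3^K`: sums over `range (3^n)` are `3^{n-K}` times sums over
`range (3^K)`), with `η k = C ∑_{j ≥ k} 1/(j+1)²`, the tail of a convergent series. -/
theorem WW_cauchy : ∃ η : ℕ → ℝ, Tendsto η atTop (𝓝 0) ∧ ∀ k n : ℕ, k ≤ n →
    ∑ x ∈ range (3 ^ n), |WW n (x : ℤ) - WW k (x : ℤ)| ≤ η k * 3 ^ n := by
  obtain ⟨C, hC, hW⟩ := WW_step
  have hsum : Summable fun j : ℕ => C / ((j : ℝ) + 1) ^ 2 := by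
    have h1 : Summable fun j : ℕ => 1 / ((j : ℝ)) ^ 2 :=
      Real.summable_one_div_nat_pow.2 (by norm_num)
    have h2 := (summable_nat_add_iff 1).2 h1
    have h3 := h2.mul_left C
    refine h3.congr fun j => ?_
    push_cast
    ring
  refine ⟨fun k => ∑' j, C / (((j + k : ℕ) : ℝ) + 1) ^ 2,
    tendsto_sum_nat_add fun j : ℕ => C / ((j : ℝ) + 1) ^ 2, ?_⟩
  have key : ∀ k m : ℕ, ∑ x ∈ range (3 ^ (k + m)), |WW (k + m) (x : ℤ) - WW k (x : ℤ)| ≤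
      (∑ j ∈ range m, C / (((j + k : ℕ) : ℝ) + 1) ^ 2) * 3 ^ (k + m) := by
    intro k m
    induction m with
    | zero => simp
    | succ m ih =>
      have h1 : ∑ x ∈ range (3 ^ (k + m + 1)), |WW (k + m + 1) (x : ℤ) - WW k (x : ℤ)| ≤
          ∑ x ∈ range (3 ^ (k + m + 1)), |WW (k + m + 1) (x : ℤ) - WW (k + m) (x : ℤ)| +
          ∑ x ∈ range (3 ^ (k + m + 1)), |WW (k + m) (x : ℤ) - WW k (x : ℤ)| := by
        rw [← Finset.sum_add_distrib]
        exact Finset.sum_le_sum fun x _ => abs_sub_le _ _ _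
      have h2 := hW (k + m)
      rw [t3_periodW k (k + m) (Nat.le_add_right k m)] at h1
      rw [← Nat.add_assoc, Finset.sum_range_succ]
      have e3 : (3 : ℝ) ^ (k + m + 1) = 3 ^ (k + m) * 3 := pow_succ _ _
      rw [e3] at h2 ⊢
      push_cast at h2 ⊢
      have e1 : (m : ℝ) + k = k + m := by ring
      rw [e1]
      calc _ ≤ _ := h1
        _ ≤ 3 ^ (k + m) * 3 * (C / ((k : ℝ) + m + 1) ^ 2) +
            3 * ((∑ j ∈ range m, C / (((j + k : ℕ) : ℝ) + 1) ^ 2) * 3 ^ (k + m)) := by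
          gcongr
        _ = _ := by push_cast; ring
  intro k n hkn
  obtain ⟨m, rfl⟩ := Nat.exists_eq_add_of_le hkn
  refine (key k m).trans ?_
  refine mul_le_mul_of_nonneg_right ?_ (by positivity)
  refine Summable.sum_le_tsum (range m) (fun j _ => by positivity) ?_
  exact (summable_nat_add_iff k).2 hsum

end Pool.Agent.Lib.MP_d0d59f_nt.GE

/-! Row ge_T5a: the densities are not small on a set of positive measure. -/

namespace Pool.Agent.Lib.MP_d0d59f_nt.GE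

open Finset Filter Topology

theorem t5a_le (k : ℕ) (x : ℤ) : WW k x ≤ 3 ^ k := by
  have h3 : (0 : ℤ) < 3 ^ k := by positivity
  have hx0 : 0 ≤ x % (3 ^ k) := Int.emod_nonneg _ h3.ne'
  have hx1 : x % (3 ^ k) < 3 ^ k := Int.emod_lt_of_pos _ h3
  obtain ⟨y, hy⟩ := Int.eq_ofNat_of_zero_le hx0
  have hcong : WW k x = WW k (y : ℤ) := by
    apply WW_congr
    rw [← hy]
    exact (Int.mod_modEq x (3 ^ k)).symm
  have hymem : y ∈ range (3 ^ k) := by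
    rw [mem_range]
    have : (y : ℤ) < 3 ^ k := by rw [← hy]; exact hx1
    exact_mod_cast this
  rw [hcong, ← sum_WW k]
  exact single_le_sum (f := fun x : ℕ => WW k (x : ℤ)) (fun i _ => WW_nonneg k _) hymem

/-- Fix `k0` with `η k ≤ 1/4` for `k ≥ k0` (`WW_cauchy`), `B = max 1 (max_{x < 3^{k0}} WW k0 x)`. For `k ≥ k0`: the sum of
`WW k` over the `x` with `WW k x < 1/4` is `≤ 3^k/4`, so the sum over the others is `≥ (3/4) 3^k` (`sum_WW`), and it is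
`≤ ∑ |WW k - WW k0| + B #{...} ≤ 3^k/4 + B #{...}`. So `#{...} ≥ 3^k/(2B)`. -/
theorem WW_pos : ∃ c2 : ℝ, 0 < c2 ∧ ∃ k0 : ℕ, ∀ k, k0 ≤ k →
    c2 * 3 ^ k ≤ (((range (3 ^ k)).filter fun x : ℕ => (1 / 4 : ℝ) ≤ WW k (x : ℤ)).card : ℝ) := by
  obtain ⟨η, hη, hc⟩ := WW_cauchy
  have hev : ∀ᶠ k in atTop, η k < 1 / 4 := hη.eventually (gt_mem_nhds (by norm_num))
  obtain ⟨k0, hk0⟩ := hev.exists
  refine ⟨1 / (2 * 3 ^ k0), by positivity, k0, fun k hk => ?_⟩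
  have h1 := sum_WW k
  have h2 := hc k0 k hk
  set F := (range (3 ^ k)).filter fun x : ℕ => (1 / 4 : ℝ) ≤ WW k (x : ℤ) with hF
  have hsplit : ∑ x ∈ range (3 ^ k), WW k (x : ℤ) =
      ∑ x ∈ F, WW k (x : ℤ) +
        ∑ x ∈ (range (3 ^ k)).filter (fun x : ℕ => ¬ (1 / 4 : ℝ) ≤ WW k (x : ℤ)), WW k (x : ℤ) :=
    (sum_filter_add_sum_filter_not _ _ _).symm
  have hsmall : ∑ x ∈ (range (3 ^ k)).filter (fun x : ℕ => ¬ (1 / 4 : ℝ) ≤ WW k (x : ℤ)), WW k (x : ℤ)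
      ≤ 3 ^ k * (1 / 4) := by
    calc ∑ x ∈ (range (3 ^ k)).filter (fun x : ℕ => ¬ (1 / 4 : ℝ) ≤ WW k (x : ℤ)), WW k (x : ℤ)
        ≤ ∑ x ∈ (range (3 ^ k)).filter (fun x : ℕ => ¬ (1 / 4 : ℝ) ≤ WW k (x : ℤ)), (1 / 4 : ℝ) := by
          apply sum_le_sum
          intro i hi
          exact (not_le.1 (mem_filter.1 hi).2).le
      _ ≤ ∑ x ∈ range (3 ^ k), (1 / 4 : ℝ) := by
          apply sum_le_sum_of_subset_of_nonneg (filter_subset _ _)
          intro i _ _; norm_num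
      _ = 3 ^ k * (1 / 4) := by
          rw [sum_const, card_range, nsmul_eq_mul]; push_cast; ring
  have hbig : ∑ x ∈ F, WW k (x : ℤ) ≤ η k0 * 3 ^ k + F.card * 3 ^ k0 := by
    calc ∑ x ∈ F, WW k (x : ℤ)
        ≤ ∑ x ∈ F, (|WW k (x : ℤ) - WW k0 (x : ℤ)| + 3 ^ k0) := by
          apply sum_le_sum
          intro i _
          have := le_abs_self (WW k (i : ℤ) - WW k0 (i : ℤ))
          have h' := t5a_le k0 (i : ℤ)
          linarith
      _ = ∑ x ∈ F, |WW k (x : ℤ) - WW k0 (x : ℤ)| + F.card * 3 ^ k0 := by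
          rw [sum_add_distrib, sum_const, nsmul_eq_mul]
      _ ≤ ∑ x ∈ range (3 ^ k), |WW k (x : ℤ) - WW k0 (x : ℤ)| + F.card * 3 ^ k0 := by
          gcongr
          exact filter_subset _ _
      _ ≤ η k0 * 3 ^ k + F.card * 3 ^ k0 := by gcongr
  have hp : (0 : ℝ) < 3 ^ k := by positivity
  have hp0 : (0 : ℝ) < 3 ^ k0 := by positivity
  have hmul : η k0 * 3 ^ k ≤ 1 / 4 * 3 ^ k := by gcongr
  have hfin : (3 : ℝ) ^ k ≤ 2 * (F.card * 3 ^ k0) := by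
    rw [hsplit] at h1
    linarith
  rw [div_mul_eq_mul_div, one_mul, div_le_iff₀ (by positivity)]
  linarith

end Pool.Agent.Lib.MP_d0d59f_nt.GE

/-! Row ge_T6b: the densities are bounded below outside a small set. -/

namespace Pool.Agent.Lib.MP_d0d59f_nt.GE

open Finset Filter Topology

/-- Along a run of length `3^k` of the full cycle `T`, the number of large values of `WW k` is at least
the number of residues with a large value. -/
theorem t6b_count (k : ℕ) (u : ℤ) :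
    ((range (3 ^ k)).filter fun x : ℕ => (1 / 4 : ℝ) ≤ WW k (x : ℤ)).card ≤
      ((range (3 ^ k)).filter fun j : ℕ =>
        (1 / 4 : ℝ) ≤ WW k ((fun z : ℤ => 4 * z + 1)^[j] u)).card := by
  classical
  have h3 : (0 : ℤ) < 3 ^ k := by positivity
  set φ : ℕ → ℕ := fun j => (((fun z : ℤ => 4 * z + 1)^[j] u) % 3 ^ k).toNat with hφ
  have hφc : ∀ j, ((φ j : ℕ) : ℤ) = ((fun z : ℤ => 4 * z + 1)^[j] u) % 3 ^ k := by
    intro j
    exact Int.toNat_of_nonneg (Int.emod_nonneg _ h3.ne')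
  have hφm : ∀ j, ((φ j : ℕ) : ℤ) ≡ (fun z : ℤ => 4 * z + 1)^[j] u [ZMOD 3 ^ k] := by
    intro j
    rw [hφc j]
    exact Int.mod_modEq _ _
  have hmem : ∀ j, φ j ∈ range (3 ^ k) := by
    intro j
    rw [Finset.mem_range]
    have h1 := Int.emod_lt_of_pos ((fun z : ℤ => 4 * z + 1)^[j] u) h3
    rw [← hφc j] at h1
    exact_mod_cast h1
  have hinj : Set.InjOn φ (range (3 ^ k) : Finset ℕ) := by
    intro i hi j hj hij
    refine run_inj k u i (Finset.mem_range.1 (Finset.mem_coe.1 hi)) j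
      (Finset.mem_range.1 (Finset.mem_coe.1 hj)) ?_
    have h1 := hφm i
    rw [hij] at h1
    exact h1.symm.trans (hφm j)
  have himg : (range (3 ^ k)).image φ = range (3 ^ k) := by
    refine Finset.eq_of_subset_of_card_le ?_ ?_
    · intro x hx
      obtain ⟨j, _, rfl⟩ := Finset.mem_image.1 hx
      exact hmem j
    · rw [Finset.card_image_of_injOn hinj]
  refine le_trans (Finset.card_le_card (t := ((range (3 ^ k)).filter fun j : ℕ =>
        (1 / 4 : ℝ) ≤ WW k ((fun z : ℤ => 4 * z + 1)^[j] u)).image φ) ?_) Finset.card_image_le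
  intro x hx
  rw [Finset.mem_filter] at hx
  have hx1 := hx.1
  rw [← himg] at hx1
  obtain ⟨j, hj, rfl⟩ := Finset.mem_image.1 hx1
  refine Finset.mem_image.2 ⟨j, ?_, rfl⟩
  rw [Finset.mem_filter]
  refine ⟨hj, ?_⟩
  rw [← WW_congr (hφm j)]
  exact hx.2

/-- For every `ε > 0` there is `δ > 0` such that for all large `n` at most `ε 3^n` of the `i < 3^n` have
`WW (n+1) (c + 3i) ≤ δ` (`c = 1` or `2`). Choose `k ≥ k0` with `8 η_k / c2 ≤ ε`, `δ = (3/4) 4^{-3^k}/8`, `n ≥ k`. For such an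
`i` (`low_run`) all `WW n (T^j u) ≤ 1/8`, `j < 3^k`, whereas (`run_inj`, `WW_pos`, periodicity) at least `c2 3^k` of the `j` have
`WW k (T^j u) ≥ 1/4`, so `∑_{j<3^k} |WW n - WW k|(T^j u) ≥ c2 3^k / 8`. With `sum_run` and `WW_cauchy`:
`#{i} c2 3^k/8 ≤ 3^k η_k 3^n`. -/
theorem WW_low {c : ℤ} (hc : c = 1 ∨ c = 2) {ε : ℝ} (hε : 0 < ε) : ∃ δ : ℝ, 0 < δ ∧ ∃ n0 : ℕ,
    ∀ n, n0 ≤ n →
      (((range (3 ^ n)).filter fun i : ℕ => WW (n + 1) (c + 3 * (i : ℤ)) ≤ δ).card : ℝ) ≤ ε * 3 ^ n := by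
  obtain ⟨c2, hc2, k0, hk0⟩ := WW_pos
  obtain ⟨η, hη, hcau⟩ := WW_cauchy
  have hev : ∀ᶠ k in atTop, η k < ε * c2 / 8 :=
    hη.eventually (gt_mem_nhds (by positivity))
  obtain ⟨k, hk, hkk⟩ := (hev.and (eventually_ge_atTop k0)).exists
  refine ⟨3 / 4 / 4 ^ (3 ^ k) / 8, by positivity, k, fun n hn => ?_⟩
  -- the letter
  obtain ⟨a, ha, hac⟩ : ∃ a : ℕ, (1 ≤ a ∧ a ≤ 2) ∧ (2 : ℤ) ^ a * c = 4 := by
    rcases hc with rfl | rfl
    · exact ⟨2, by norm_num, by norm_num⟩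
    · exact ⟨1, by norm_num, by norm_num⟩
  have hx3 : ∀ i : ℕ, (2 : ℤ) ^ a * (c + 3 * (i : ℤ)) - 1 = 3 * (1 + 2 ^ a * (i : ℤ)) := by
    intro i
    linear_combination hac
  have hdiv : ∀ i : ℕ, (3 : ℤ) ∣ 2 ^ a * (c + 3 * (i : ℤ)) - 1 := fun i => ⟨_, hx3 i⟩
  have hstp : ∀ i : ℕ, stp a (c + 3 * (i : ℤ)) = 1 + 2 ^ a * (i : ℤ) := by
    intro i
    unfold stp
    rw [hx3 i]
    exact Int.mul_ediv_cancel_left _ (by norm_num)
  set S := (range (3 ^ n)).filter fun i : ℕ =>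
    WW (n + 1) (c + 3 * (i : ℤ)) ≤ 3 / 4 / 4 ^ (3 ^ k) / 8 with hS
  set F : ℕ → ℝ := fun i => ∑ j ∈ range (3 ^ k),
      |WW n ((fun z : ℤ => 4 * z + 1)^[j] (1 + 2 ^ a * (i : ℤ))) -
        WW k ((fun z : ℤ => 4 * z + 1)^[j] (1 + 2 ^ a * (i : ℤ)))| with hF
  have hF0 : ∀ i, 0 ≤ F i := fun i => Finset.sum_nonneg fun j _ => abs_nonneg _
  have hlow : ∀ i ∈ S, c2 * 3 ^ k * (1 / 8) ≤ F i := by
    intro i hi
    have hi2 := (Finset.mem_filter.1 hi).2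
    have hrun := low_run ha (hdiv i) hi2
    rw [hstp i] at hrun
    set G := (range (3 ^ k)).filter fun j : ℕ =>
        (1 / 4 : ℝ) ≤ WW k ((fun z : ℤ => 4 * z + 1)^[j] (1 + 2 ^ a * (i : ℤ))) with hG
    have hcard : c2 * 3 ^ k ≤ (G.card : ℝ) :=
      le_trans (hk0 k hkk) (by exact_mod_cast t6b_count k (1 + 2 ^ a * (i : ℤ)))
    calc c2 * 3 ^ k * (1 / 8) ≤ (G.card : ℝ) * (1 / 8) :=
          mul_le_mul_of_nonneg_right hcard (by norm_num)
      _ = ∑ j ∈ G, (1 / 8 : ℝ) := by rw [Finset.sum_const, nsmul_eq_mul]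
      _ ≤ ∑ j ∈ G, |WW n ((fun z : ℤ => 4 * z + 1)^[j] (1 + 2 ^ a * (i : ℤ))) -
            WW k ((fun z : ℤ => 4 * z + 1)^[j] (1 + 2 ^ a * (i : ℤ)))| := by
          refine Finset.sum_le_sum fun j hj => ?_
          obtain ⟨hj1, hj2⟩ := Finset.mem_filter.1 hj
          have h1 := hrun j (Finset.mem_range.1 hj1)
          rw [abs_sub_comm]
          refine le_trans ?_ (le_abs_self _)
          linarith
      _ ≤ F i := Finset.sum_le_sum_of_subset_of_nonneg (Finset.filter_subset _ _)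
          fun j _ _ => abs_nonneg _
  have htot : (S.card : ℝ) * (c2 * 3 ^ k * (1 / 8)) ≤ 3 ^ k * (η k * 3 ^ n) := by
    calc (S.card : ℝ) * (c2 * 3 ^ k * (1 / 8)) = ∑ i ∈ S, c2 * 3 ^ k * (1 / 8) := by
          rw [Finset.sum_const, nsmul_eq_mul]
      _ ≤ ∑ i ∈ S, F i := Finset.sum_le_sum hlow
      _ ≤ ∑ i ∈ range (3 ^ n), F i := Finset.sum_le_sum_of_subset_of_nonneg
          (Finset.filter_subset _ _) fun i _ _ => hF0 i
      _ = 3 ^ k * ∑ z ∈ range (3 ^ n), |WW n (z : ℤ) - WW k (z : ℤ)| := sum_run n k hn a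
      _ ≤ 3 ^ k * (η k * 3 ^ n) := mul_le_mul_of_nonneg_left (hcau k n hn) (by positivity)
  have h3k : (0 : ℝ) < 3 ^ k := by positivity
  have h3n : (0 : ℝ) < 3 ^ n := by positivity
  have h1 : (S.card : ℝ) * (c2 / 8) ≤ η k * 3 ^ n := by
    have e1 : (S.card : ℝ) * (c2 * 3 ^ k * (1 / 8)) = 3 ^ k * ((S.card : ℝ) * (c2 / 8)) := by ring
    rw [e1] at htot
    exact le_of_mul_le_mul_left htot h3k
  have h2 : η k * 3 ^ n ≤ ε * c2 / 8 * 3 ^ n := mul_le_mul_of_nonneg_right hk.le h3n.le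
  have h4 : (S.card : ℝ) * (c2 / 8) ≤ ε * 3 ^ n * (c2 / 8) := by
    refine h1.trans (h2.trans (le_of_eq ?_))
    ring
  exact le_of_mul_le_mul_right h4 (by positivity)

end Pool.Agent.Lib.MP_d0d59f_nt.GE

/-! Row ge_T8: `NN L M` is bounded below outside a small set. -/

namespace Pool.Agent.Lib.MP_d0d59f_nt.GE

open Finset Filter Topology

theorem t8_sum_periodic (f : ℕ → ℝ) (p : ℕ) (hf : ∀ i, f (i + p) = f i) (m : ℕ) :
    ∑ i ∈ range (m * p), f i = m * ∑ i ∈ range p, f i := by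
  have hper : Function.Periodic f p := hf
  induction m with
  | zero => simp
  | succ m ih =>
    rw [Nat.succ_mul, Finset.sum_range_add, ih]
    have h1 : ∑ x ∈ range p, f (m * p + x) = ∑ x ∈ range p, f x := by
      refine Finset.sum_congr rfl fun x _ => ?_
      have h2 := hper.nat_mul m x
      simp only [Nat.cast_id] at h2
      rw [add_comm]
      exact h2
    rw [h1]
    push_cast
    ring

/-- The class of `c` modulo `3`, `0 ≤ c ≤ 2`, is part of all the residues. -/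
theorem t8_sum_class (c : ℕ) (hc : c ≤ 2) (L : ℕ) (f : ℕ → ℝ) (hf : ∀ i, 0 ≤ f i) :
    ∑ i ∈ range (3 ^ L), f (c + 3 * i) ≤ ∑ x ∈ range (3 ^ (L + 1)), f x := by
  have hinj : Set.InjOn (fun i : ℕ => c + 3 * i) (range (3 ^ L) : Finset ℕ) := by
    intro i _ j _ hij
    simp only at hij
    omega
  rw [← Finset.sum_image (f := f) hinj]
  refine Finset.sum_le_sum_of_subset_of_nonneg ?_ fun i _ _ => hf i
  intro x hx
  obtain ⟨i, hi, rfl⟩ := Finset.mem_image.1 hx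
  rw [Finset.mem_range] at hi ⊢
  rw [pow_succ]
  omega

/-- Markov's inequality. -/
theorem t8_markov (s : Finset ℕ) (f : ℕ → ℝ) (hf : ∀ i, 0 ≤ f i) {κ : ℝ} (hκ : 0 < κ) :
    ((s.filter fun i => κ ≤ f i).card : ℝ) ≤ (∑ i ∈ s, f i) / κ := by
  rw [le_div_iff₀ hκ]
  calc ((s.filter fun i => κ ≤ f i).card : ℝ) * κ = ∑ i ∈ s.filter fun i => κ ≤ f i, κ := by
        rw [Finset.sum_const, nsmul_eq_mul]
    _ ≤ ∑ i ∈ s.filter fun i => κ ≤ f i, f i :=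
        Finset.sum_le_sum fun i hi => (Finset.mem_filter.1 hi).2
    _ ≤ ∑ i ∈ s, f i :=
        Finset.sum_le_sum_of_subset_of_nonneg (Finset.filter_subset _ _) fun i _ _ => hf i

/-- The numbers `(5/4)^t (2/3)^(L-2)` are small. -/
theorem t8_small {η : ℝ} (hη : 0 < η) : ∃ L0 : ℕ, ∀ L, L0 ≤ L → ∀ t, 10 * t ≤ 17 * L → 2 ≤ L →
    (5 / 4 : ℝ) ^ t * (2 / 3) ^ (L - 2) ≤ η := by
  have h1 : Tendsto (fun L : ℕ => (0.78 : ℝ) ^ L) atTop (𝓝 0) :=
    tendsto_pow_atTop_nhds_zero_of_lt_one (by norm_num) (by norm_num)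
  have h2 : (0 : ℝ) < η ^ 10 / (3 / 2) ^ 20 := by positivity
  obtain ⟨L0, hL0⟩ := Filter.eventually_atTop.1 (h1.eventually (gt_mem_nhds h2))
  refine ⟨L0, fun L hL t ht hL2 => ?_⟩
  have h3 := hL0 L hL
  rw [lt_div_iff₀ (by positivity)] at h3
  have h4 : ((5 / 4 : ℝ) ^ t * (2 / 3) ^ (L - 2)) ^ 10 ≤ η ^ 10 := by
    obtain ⟨m, rfl⟩ : ∃ m, L = m + 2 := ⟨L - 2, by omega⟩
    rw [Nat.add_sub_cancel]
    calc ((5 / 4 : ℝ) ^ t * (2 / 3) ^ m) ^ 10
        = (5 / 4 : ℝ) ^ (10 * t) * ((2 / 3) ^ 10) ^ m := by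
          rw [mul_pow, ← pow_mul, ← pow_mul, ← pow_mul, mul_comm t, mul_comm m]
      _ ≤ (5 / 4 : ℝ) ^ (17 * (m + 2)) * ((2 / 3) ^ 10) ^ m := by
          refine mul_le_mul_of_nonneg_right ?_ (by positivity)
          exact pow_le_pow_right₀ (by norm_num) ht
      _ = ((5 / 4 : ℝ) ^ 17 * (2 / 3) ^ 10) ^ (m + 2) * (3 / 2) ^ 20 := by
          rw [pow_mul, mul_pow, pow_add ((2 / 3 : ℝ) ^ 10) m 2]
          have h5 : ((2 / 3 : ℝ) ^ 10) ^ 2 * (3 / 2) ^ 20 = 1 := by norm_num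
          rw [mul_assoc, mul_assoc, h5, mul_one]
      _ ≤ (0.78 : ℝ) ^ (m + 2) * (3 / 2) ^ 20 := by
          refine mul_le_mul_of_nonneg_right ?_ (by positivity)
          exact pow_le_pow_left₀ (by positivity) (by norm_num) _
      _ ≤ η ^ 10 := h3.le
  exact le_of_pow_le_pow_left₀ (by norm_num) hη.le h4

/-- The shift by `p` of the residue `c + 3 i`. -/
theorem t8_modEq (c : ℤ) (n i : ℕ) :
    (c + 3 * ((i + 3 ^ n : ℕ) : ℤ)) ≡ c + 3 * (i : ℤ) [ZMOD 3 ^ (n + 1)] := by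
  rw [Int.modEq_iff_dvd]
  refine ⟨-1, ?_⟩
  push_cast
  ring

theorem t8_modEq' (n i : ℕ) : (((i + 3 ^ n : ℕ) : ℤ)) ≡ (i : ℤ) [ZMOD 3 ^ n] := by
  rw [Int.modEq_iff_dvd]
  refine ⟨-1, ?_⟩
  push_cast
  ring

/-- Outside a small set `NN L M` is bounded below. -/
theorem NN_low {c : ℤ} (hc : c = 1 ∨ c = 2) {ε : ℝ} (hε : 0 < ε) : ∃ δ : ℝ, 0 < δ ∧ ∃ L0 : ℕ,
    ∀ L, L0 ≤ L → ∃ M0 : ℕ, ∀ M, M0 ≤ M →
      (((range (3 ^ L)).filter fun i : ℕ => NN L M (c + 3 * (i : ℤ)) ≤ δ).card : ℝ) ≤ ε * 3 ^ L := by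
  obtain ⟨δ, hδ, n0, hn0⟩ := WW_low hc (show 0 < ε / 3 by positivity)
  obtain ⟨L1, hL1⟩ := t8_small (show 0 < ε * δ / 72 by positivity)
  obtain ⟨c', hc', rfl⟩ : ∃ c' : ℕ, c' ≤ 2 ∧ (c' : ℤ) = c := by
    rcases hc with rfl | rfl
    · exact ⟨1, by norm_num, by norm_num⟩
    · exact ⟨2, by norm_num, by norm_num⟩
  refine ⟨(3 / 256) ^ 2 * δ / 8, by positivity, max (max (n0 + 2) 5) L1, fun L hL => ?_⟩
  have hLn : n0 + 2 ≤ L := le_trans (le_trans (le_max_left _ _) (le_max_left _ _)) hL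
  have hL5 : 5 ≤ L := le_trans (le_trans (le_max_right _ _) (le_max_left _ _)) hL
  have hLL1 : L1 ≤ L := le_trans (le_max_right _ _) hL
  -- the choice of `M`
  have h2M : Tendsto (fun M : ℕ => (1 / 2 : ℝ) ^ M) atTop (𝓝 0) :=
    tendsto_pow_atTop_nhds_zero_of_lt_one (by norm_num) (by norm_num)
  have hpos : 0 < ε * δ / (18 * L) := by
    have : (0 : ℝ) < L := by exact_mod_cast (by omega : 0 < L)
    positivity
  obtain ⟨M1, hM1⟩ := Filter.eventually_atTop.1 (h2M.eventually (gt_mem_nhds hpos))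
  refine ⟨max M1 8, fun M hM => ?_⟩
  have hM8 : 8 ≤ M := le_trans (le_max_right _ _) hM
  have hMM := hM1 M (le_trans (le_max_left _ _) hM)
  obtain ⟨n, rfl⟩ : ∃ n, L = n + 2 := ⟨L - 2, by omega⟩
  -- the number `t`
  obtain ⟨t, ht1, ht2⟩ : ∃ t, 10 * t ≤ 17 * (n + 2) ∧ 17 * (n + 2) ≤ 10 * t + 70 :=
    ⟨(17 * (n + 2) - 61) / 10, by omega, by omega⟩
  have hsm := hL1 (n + 2) hLL1 t ht1 (by omega)
  rw [Nat.add_sub_cancel] at hsm
  -- the three sets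
  set x : ℕ → ℤ := fun i => (c' : ℤ) + 3 * (i : ℤ) with hx
  set A : Finset ℕ := (range (3 ^ (n + 2))).filter fun i => WW (n + 1) (x i) ≤ δ with hA
  set B : Finset ℕ := (range (3 ^ (n + 2))).filter
    fun i => δ / 2 ≤ WW (n + 1) (x i) - WM (n + 1) M (x i) with hB
  set D : Finset ℕ := (range (3 ^ (n + 2))).filter fun i => δ / 8 ≤ LM n M t (x i) with hD
  have hsub : ((range (3 ^ (n + 2))).filter
      fun i : ℕ => NN (n + 2) M ((c' : ℤ) + 3 * (i : ℤ)) ≤ (3 / 256) ^ 2 * δ / 8) ⊆ A ∪ (B ∪ D) := by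
    intro i hi
    rw [Finset.mem_filter] at hi
    by_contra hcon
    rw [Finset.mem_union, Finset.mem_union, hA, hB, hD, Finset.mem_filter, Finset.mem_filter,
      Finset.mem_filter] at hcon
    push Not at hcon
    obtain ⟨h1, h2, h3⟩ := hcon
    have h1' := h1 hi.1
    have h2' := h2 hi.1
    have h3' := h3 hi.1
    have h4 := WM_le_VM n M (x i)
    have h5 := NN_ge_VM (L := n + 2) (by omega) hM8 ht2 (x i)
    rw [Nat.add_sub_cancel] at h5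
    have h6 := hi.2
    change NN (n + 2) M (x i) ≤ _ at h6
    nlinarith
  have hcard := (Finset.card_le_card hsub).trans
    ((Finset.card_union_le A (B ∪ D)).trans (Nat.add_le_add_left (Finset.card_union_le B D) _))
  have hcard' : (((range (3 ^ (n + 2))).filter
      fun i : ℕ => NN (n + 2) M ((c' : ℤ) + 3 * (i : ℤ)) ≤ (3 / 256) ^ 2 * δ / 8).card : ℝ) ≤
        (A.card : ℝ) + ((B.card : ℝ) + (D.card : ℝ)) := by exact_mod_cast hcard
  have h3n : (3 : ℝ) ^ (n + 2) = 9 * 3 ^ n := by rw [pow_add]; norm_num; ring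
  have h3n1 : (3 : ℝ) ^ (n + 1) = 3 * 3 ^ n := by rw [pow_succ]; ring
  have hp3 : (0 : ℝ) < 3 ^ n := by positivity
  -- the first set
  have hAc : (A.card : ℝ) ≤ ε / 3 * 3 ^ (n + 2) := by
    have h1 : (A.card : ℝ) = ∑ i ∈ range (9 * 3 ^ n),
        (if WW (n + 1) (x i) ≤ δ then (1 : ℝ) else 0) := by
      rw [hA, Finset.card_filter]
      push_cast
      congr 2
      rw [pow_add]; norm_num; ring
    have h2 := t8_sum_periodic (fun i => if WW (n + 1) (x i) ≤ δ then (1 : ℝ) else 0) (3 ^ n)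
      (fun i => by
        simp only [hx]
        rw [WW_congr (t8_modEq (c' : ℤ) n i)]) 9
    have h3 := hn0 n (by omega)
    have h4 : (((range (3 ^ n)).filter fun i : ℕ => WW (n + 1) ((c' : ℤ) + 3 * (i : ℤ)) ≤ δ).card : ℝ)
        = ∑ i ∈ range (3 ^ n), (if WW (n + 1) (x i) ≤ δ then (1 : ℝ) else 0) := by
      rw [Finset.card_filter]
      push_cast
      rfl
    rw [h1, h2, ← h4, h3n]
    push_cast
    linarith
  -- the second set
  have hnonneg : ∀ y : ℤ, 0 ≤ WW (n + 1) y - WM (n + 1) M y := fun y =>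
    sub_nonneg.2 (WM_le (n + 1) M y)
  have hBc : (B.card : ℝ) ≤ ε / 3 * 3 ^ (n + 2) := by
    have h1 := t8_markov (range (3 ^ (n + 2)))
      (fun i => WW (n + 1) (x i) - WM (n + 1) M (x i)) (fun i => hnonneg _)
      (show 0 < δ / 2 by positivity)
    have h2 := t8_sum_class c' hc' (n + 2)
      (fun i => WW (n + 1) (i : ℤ) - WM (n + 1) M (i : ℤ)) (fun i => hnonneg _)
    have h3 := t8_sum_periodic (fun i => WW (n + 1) (i : ℤ) - WM (n + 1) M (i : ℤ)) (3 ^ (n + 1))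
      (fun i => by
        rw [WW_congr (t8_modEq' (n + 1) i), WM_congr (t8_modEq' (n + 1) i)]) 9
    have h4 : 9 * 3 ^ (n + 1) = 3 ^ (n + 2 + 1) := by ring
    have h4' : ∑ i ∈ range (3 ^ (n + 1)), (WW (n + 1) (i : ℤ) - WM (n + 1) M (i : ℤ)) =
        3 ^ (n + 1) - ∑ i ∈ range (3 ^ (n + 1)), WM (n + 1) M (i : ℤ) := by
      rw [Finset.sum_sub_distrib, sum_WW]
    rw [h4, h4'] at h3
    have h5 := sum_WM (n + 1) M
    have h6 : ∑ i ∈ range (3 ^ (n + 2)), (WW (n + 1) (x i) - WM (n + 1) M (x i)) ≤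
        9 * (3 ^ (n + 1) * (((n + 1 : ℕ) : ℝ) / 2 ^ M)) := by
      have h7 : ∑ i ∈ range (3 ^ (n + 2)), (WW (n + 1) (x i) - WM (n + 1) M (x i)) =
          ∑ i ∈ range (3 ^ (n + 2)), (fun i : ℕ => WW (n + 1) (i : ℤ) - WM (n + 1) M (i : ℤ))
            (c' + 3 * i) := by
        refine Finset.sum_congr rfl fun i _ => ?_
        simp only [hx]
        push_cast
        rfl
      rw [h7]
      refine h2.trans ?_
      rw [h3]
      push_cast at h5 ⊢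
      nlinarith
    refine h1.trans ?_
    rw [div_le_iff₀ (by positivity)]
    refine h6.trans ?_
    have h8 : (((n + 1 : ℕ) : ℝ)) / 2 ^ M ≤ ε * δ / 18 := by
      have h9 : (0 : ℝ) < ((n + 2 : ℕ) : ℝ) := by positivity
      have h10 : ((n + 1 : ℕ) : ℝ) ≤ ((n + 2 : ℕ) : ℝ) := by exact_mod_cast Nat.le_succ _
      rw [lt_div_iff₀ (by positivity), one_div, inv_pow] at hMM
      rw [div_eq_mul_inv]
      have h11 : (0 : ℝ) < (2 ^ M)⁻¹ := by positivity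
      nlinarith
    rw [h3n, h3n1]
    nlinarith
  -- the third set
  have hDc : (D.card : ℝ) ≤ ε / 3 * 3 ^ (n + 2) := by
    have h1 := t8_markov (range (3 ^ (n + 2)))
      (fun i => LM n M t (x i)) (fun i => LM_nonneg _ _ _ _) (show 0 < δ / 8 by positivity)
    have h2 := t8_sum_class c' hc' (n + 2)
      (fun i => LM n M t (i : ℤ)) (fun i => LM_nonneg _ _ _ _)
    have h3 := t8_sum_periodic (fun i => LM n M t (i : ℤ)) (3 ^ n)
      (fun i => by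
        rw [LM_congr (t8_modEq' n i)]) 27
    have h4 : 27 * 3 ^ n = 3 ^ (n + 2 + 1) := by ring
    rw [h4] at h3
    have h5 := sum_LM n M t
    have h5' := AA.low_tail2 n t
    have h6 : ∑ i ∈ range (3 ^ (n + 2)), LM n M t (x i) ≤ 27 * (3 ^ n * (ε * δ / 72)) := by
      have h7 : ∑ i ∈ range (3 ^ (n + 2)), LM n M t (x i) =
          ∑ i ∈ range (3 ^ (n + 2)), (fun i : ℕ => LM n M t (i : ℤ)) (c' + 3 * i) := by
        refine Finset.sum_congr rfl fun i _ => ?_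
        simp only [hx]
        push_cast
        rfl
      rw [h7]
      refine h2.trans ?_
      rw [h3]
      have h8 : ∑ i ∈ range (3 ^ n), LM n M t (i : ℤ) ≤ 3 ^ n * (ε * δ / 72) :=
        h5.trans (mul_le_mul_of_nonneg_left (h5'.trans hsm) hp3.le)
      push_cast
      linarith
    refine h1.trans ?_
    rw [div_le_iff₀ (by positivity)]
    refine h6.trans ?_
    rw [h3n]
    nlinarith [mul_pos hp3 (mul_pos hε hδ)]
  calc _ ≤ (A.card : ℝ) + ((B.card : ℝ) + (D.card : ℝ)) := hcard'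
    _ ≤ ε / 3 * 3 ^ (n + 2) + (ε / 3 * 3 ^ (n + 2) + ε / 3 * 3 ^ (n + 2)) := by gcongr
    _ = ε * 3 ^ (n + 2) := by ring

end Pool.Agent.Lib.MP_d0d59f_nt.GE

/-! Row ge_T9: typical growth of `NN L M`. -/

namespace Pool.Agent.Lib.MP_d0d59f_nt.GE

open Finset Filter Topology

theorem t9_log : -(5 : ℝ) ≤ Real.log (3 / 256) := by
  have h1 : Real.log (3 / 256 : ℝ) = -Real.log (256 / 3) := by
    rw [← Real.log_inv]
    norm_num
  have h2 : Real.log (256 / 3 : ℝ) ≤ 5 := by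
    have h3 : (256 / 3 : ℝ) ≤ Real.exp 5 := by
      have h4 : (2.7 : ℝ) < Real.exp 1 := lt_trans (by norm_num) Real.exp_one_gt_d9
      have h5 : Real.exp 5 = Real.exp 1 ^ 5 := by rw [← Real.exp_nat_mul]; norm_num
      rw [h5]
      calc (256 / 3 : ℝ) ≤ 2.7 ^ 5 := by norm_num
        _ ≤ Real.exp 1 ^ 5 := pow_le_pow_left₀ (by norm_num) h4.le 5
    exact (Real.log_le_iff_le_exp (by norm_num)).mpr h3
  linarith

/-- The average of `log NN` from the bound of the exceptional set. -/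
theorem t9_avg {c : ℤ} (hc : c = 1 ∨ c = 2) {ε δ : ℝ} {L M : ℕ} (hL : 2 ≤ L) (hM : 8 ≤ M)
    (hδ : 0 < δ) (hδ1 : δ ≤ 1)
    (hcard : (((range (3 ^ L)).filter fun i : ℕ => NN L M (c + 3 * (i : ℤ)) ≤ δ).card : ℝ) ≤
      ε * 3 ^ L) :
    Real.log δ - 5 * L * ε ≤ avg L c (fun x => Real.log (NN L M x)) := by
  have hlogδ : Real.log δ ≤ 0 := Real.log_nonpos hδ.le hδ1
  have hpt : ∀ i ∈ range (3 ^ L), Real.log δ - (if NN L M (c + 3 * (i : ℤ)) ≤ δ then 5 * (L : ℝ) else 0)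
      ≤ Real.log (NN L M (c + 3 * (i : ℤ))) := by
    intro i _
    have hu : ¬ (3 : ℤ) ∣ c + 3 * (i : ℤ) := by
      rcases hc with rfl | rfl <;> omega
    have h1 := NN_ge hL hM hu
    have h2 : (0 : ℝ) < (3 / 256 : ℝ) ^ L := by positivity
    split_ifs with h
    · have h3 : Real.log ((3 / 256 : ℝ) ^ L) ≤ Real.log (NN L M (c + 3 * (i : ℤ))) :=
        Real.log_le_log h2 h1
      rw [Real.log_pow] at h3
      have h4 : (L : ℝ) * -5 ≤ L * Real.log (3 / 256) :=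
        mul_le_mul_of_nonneg_left t9_log (Nat.cast_nonneg _)
      linarith
    · push Not at h
      have h3 := Real.log_le_log hδ h.le
      linarith
  have hsum := Finset.sum_le_sum hpt
  rw [Finset.sum_sub_distrib, Finset.sum_const, Finset.card_range, nsmul_eq_mul,
    ← Finset.sum_filter, Finset.sum_const, nsmul_eq_mul] at hsum
  unfold avg
  have h3 : (0 : ℝ) < 3 ^ L := by positivity
  rw [le_div_iff₀ h3]
  have h5 : (((range (3 ^ L)).filter fun i : ℕ => NN L M (c + 3 * (i : ℤ)) ≤ δ).card : ℝ) *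
      (5 * (L : ℝ)) ≤ ε * 3 ^ L * (5 * (L : ℝ)) :=
    mul_le_mul_of_nonneg_right hcard (by positivity)
  push_cast at hsum
  nlinarith

/-- TYPICAL GROWTH. `NN ≥ (3/256)^L` always (`NN_ge`), so `log NN ≥ log δ - 5 L 1_{NN ≤ δ}` if `δ ≤ 1` (`log (256/3) ≤ 5`), hence
`avg_c log NN ≥ log δ - 5 L (ε/10)`; `L` large: `log δ ≥ -ε L/2`. (Apply `NN_low` with `ε/10` for `c = 1` and `c = 2` and take the
minimum of the two `δ`.) -/
theorem typical (ε : ℝ) (hε : 0 < ε) : ∃ L M : ℕ, 2 ≤ L ∧ 8 ≤ M ∧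
    ∀ c : ℤ, (c = 1 ∨ c = 2) → -(ε * L) ≤ avg L c (fun x => Real.log (NN L M x)) := by
  obtain ⟨δ1, hδ1, L1, h1⟩ := NN_low (c := 1) (Or.inl rfl) (ε := ε / 10) (by positivity)
  obtain ⟨δ2, hδ2, L2, h2⟩ := NN_low (c := 2) (Or.inr rfl) (ε := ε / 10) (by positivity)
  set δ : ℝ := min (min δ1 δ2) 1 with hδdef
  have hδ : 0 < δ := lt_min (lt_min hδ1 hδ2) one_pos
  have hδle1 : δ ≤ δ1 := (min_le_left _ _).trans (min_le_left _ _)
  have hδle2 : δ ≤ δ2 := (min_le_left _ _).trans (min_le_right _ _)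
  have hδ1' : δ ≤ 1 := min_le_right _ _
  obtain ⟨L3, hL3⟩ := exists_nat_ge (2 * (-Real.log δ) / ε)
  set L : ℕ := max (max L1 L2) (max L3 2) with hL
  have hLL1 : L1 ≤ L := (le_max_left _ _).trans (le_max_left _ _)
  have hLL2 : L2 ≤ L := (le_max_right _ _).trans (le_max_left _ _)
  have hLL3 : L3 ≤ L := (le_max_left _ _).trans (le_max_right _ _)
  have hL2 : 2 ≤ L := (le_max_right _ _).trans (le_max_right _ _)
  obtain ⟨M1, hM1⟩ := h1 L hLL1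
  obtain ⟨M2, hM2⟩ := h2 L hLL2
  set M : ℕ := max (max M1 M2) 8 with hM
  have hMM1 : M1 ≤ M := (le_max_left _ _).trans (le_max_left _ _)
  have hMM2 : M2 ≤ M := (le_max_right _ _).trans (le_max_left _ _)
  have hM8 : 8 ≤ M := le_max_right _ _
  refine ⟨L, M, hL2, hM8, ?_⟩
  have hlog : -(ε * L / 2) ≤ Real.log δ := by
    have h3 : 2 * (-Real.log δ) / ε ≤ L := hL3.trans (by exact_mod_cast hLL3)
    rw [div_le_iff₀ hε] at h3
    linarith
  intro c hc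
  have hcard : (((range (3 ^ L)).filter fun i : ℕ => NN L M (c + 3 * (i : ℤ)) ≤ δ).card : ℝ) ≤
      ε / 10 * 3 ^ L := by
    rcases hc with rfl | rfl
    · refine le_trans ?_ (hM1 M hMM1)
      refine Nat.cast_le.mpr (Finset.card_le_card ?_)
      intro i hi
      rw [Finset.mem_filter] at hi ⊢
      exact ⟨hi.1, hi.2.trans hδle1⟩
    · refine le_trans ?_ (hM2 M hMM2)
      refine Nat.cast_le.mpr (Finset.card_le_card ?_)
      intro i hi
      rw [Finset.mem_filter] at hi ⊢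
      exact ⟨hi.1, hi.2.trans hδle2⟩
  have h4 := t9_avg hc hL2 hM8 hδ hδ1' hcard
  linarith

end Pool.Agent.Lib.MP_d0d59f_nt.GE
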