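import Pool.Agent.Lib.MP_d0d59f_nt.GE.Words
import Pool.Agent.Lib.MP_d0d59f_nt.GE.Paths
import Pool.Agent.Lib.MP_d0d59f_nt.GE.Erg
import Pool.Agent.Lib.MP_d0d59f_nt.GE.TypB
import Pool.Agent.Lib.MP_d0d59f_nt.GE.Cnt

/-! Row N2 (about 90 lines): the weighted number `Z_J` of paths of `J` blocks. -/

namespace Pool.Agent.Lib.MP_d0d59f_nt.GE

open Finset

open Classical in
/-- `∑ wt(u)^s` over the paths `u` of `J` blocks valid at `x`. -/
noncomputable def ZZ (s : ℝ) (L M : ℕ) : ℕ → ℤ → ℝ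
  | 0, _ => 1
  | J + 1, x => ∑ α ∈ blk L M, if valid α x then wt α ^ s * ZZ s L M J (act α x) else 0

/-- `r(x) = log N(x) + (1-s) * 0.07 * L`. -/
noncomputable def rr (s : ℝ) (L M : ℕ) (x : ℤ) : ℝ :=
  Real.log (NN L M x) + (1 - s) * (7 / 100 * (L : ℝ))

/-- There is a valid block, since `NN L M x > 0` (`NN_ge`); induction on `J`, `bact_unit`. -/
theorem ZZ_pos (s : ℝ) {L M : ℕ} (hL : 2 ≤ L) (hM : 8 ≤ M) (J : ℕ) {x : ℤ}
    (hx : ¬ (3 : ℤ) ∣ x) : 0 < ZZ s L M J x := by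
  classical
  induction J generalizing x with
  | zero => simp [ZZ]
  | succ J ih =>
    have hN : 0 < NN L M x := lt_of_lt_of_le (by positivity) (NN_ge hL hM hx)
    have hex : ∃ α ∈ blk L M, valid α x := by
      by_contra hcon
      push Not at hcon
      have : NN L M x = 0 := by
        unfold NN
        refine Finset.sum_eq_zero fun α hα => ?_
        rw [if_neg (hcon α hα)]
      linarith
    obtain ⟨β, hβ, hv⟩ := hex
    rw [ZZ]
    refine Finset.sum_pos' (fun α _ => ?_) ⟨β, hβ, ?_⟩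
    · split_ifs with h
      · exact mul_nonneg (Real.rpow_nonneg (wt_pos α).le _) (ih (bact_unit h)).le
      · exact le_rfl
    · rw [if_pos hv]
      exact mul_pos (Real.rpow_pos_of_pos (wt_pos β) _) (ih (bact_unit hv))

/-- `valid_congr`, `bact_congr` (all `α ∈ blk L M` have length `L`, `mem_blk`); induction on `J`
generalizing `x y`. -/
theorem ZZ_congr (s : ℝ) {L M J : ℕ} {x y : ℤ} (h : x ≡ y [ZMOD 3 ^ (J * L + 1)]) :
    ZZ s L M J x = ZZ s L M J y := by
  classical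
  induction J generalizing x y with
  | zero => simp [ZZ]
  | succ J ih =>
    rw [ZZ, ZZ]
    refine Finset.sum_congr rfl fun α hα => ?_
    have hlen := (mem_blk.1 hα).1
    have h1 : x ≡ y [ZMOD 3 ^ (α.length + 1)] := by
      refine h.of_dvd (pow_dvd_pow 3 ?_)
      rw [hlen]
      nlinarith [Nat.zero_le (J * L)]
    by_cases hv : valid α x
    · rw [if_pos hv, if_pos ((valid_congr h1).1 hv)]
      congr 1
      refine ih (bact_congr hv (k := J * L + 1) ?_ (by omega))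
      have e : α.length + (J * L + 1) = (J + 1) * L + 1 := by rw [hlen]; ring
      rw [e]
      exact h
    · rw [if_neg hv, if_neg (fun h2 => hv ((valid_congr h1).2 h2))]

/-- `|Z_J| ≤ (∑_{α ∈ blk L M} wt α ^ s)^J`, induction on `J`. -/
theorem ZZ_le (s : ℝ) (L M J : ℕ) (x : ℤ) :
    ZZ s L M J x ≤ (∑ α ∈ blk L M, wt α ^ s) ^ J := by
  classical
  induction J generalizing x with
  | zero => simp [ZZ]
  | succ J ih =>
    rw [ZZ, pow_succ', Finset.sum_mul]
    refine Finset.sum_le_sum fun α _ => ?_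
    have h0 : (0 : ℝ) ≤ wt α ^ s := Real.rpow_nonneg (wt_pos α).le _
    have h1 : (0 : ℝ) ≤ (∑ α ∈ blk L M, wt α ^ s) ^ J :=
      pow_nonneg (Finset.sum_nonneg fun β _ => Real.rpow_nonneg (wt_pos β).le _) _
    split_ifs with h
    · exact mul_le_mul_of_nonneg_left (ih _) h0
    · exact mul_nonneg h0 h1

/-- Induction on `J` (generalizing `x`). `gibbs_step` with `g = ZZ s L M J` gives
`log Z_{J+1}(x) ≥ rr s L M x + ∑ κ(x,α) log Z_J(act α x)`, the last sum is at least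
`∑ κ(x,α) ∑_{t<J} P^t rr (act α x) = ∑_{t<J} P^{t+1} rr (x)` (for `κ(x,α) ≠ 0` the node `act α x` is a unit),
`PP_sum`, `Function.iterate_succ_apply'`, `Finset.sum_range_succ'`. -/
theorem log_ZZ_ge {s : ℝ} (hs : s ≤ 1) {L M : ℕ} (hL : 2 ≤ L) (hM : 8 ≤ M) (J : ℕ) {x : ℤ}
    (hx : ¬ (3 : ℤ) ∣ x) :
    ∑ t ∈ range J, (PP (natK L M hL hM))^[t] (rr s L M) x ≤ Real.log (ZZ s L M J x) := by
  classical
  induction J generalizing x with
  | zero => simp [ZZ]
  | succ J ih =>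
    have hg := gibbs_step hL hM hs hx (ZZ s L M J) (fun y hy => ZZ_pos s hL hM J hy)
    rw [ZZ]
    refine le_trans ?_ hg
    rw [Finset.sum_range_succ', Function.iterate_zero_apply]
    have e1 : ∑ t ∈ range J, (PP (natK L M hL hM))^[t + 1] (rr s L M) x =
        PP (natK L M hL hM) (fun y => ∑ t ∈ range J, (PP (natK L M hL hM))^[t] (rr s L M) y) x := by
      rw [PP_sum]
      refine Finset.sum_congr rfl fun t _ => ?_
      rw [Function.iterate_succ_apply']
    rw [e1, add_comm]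
    have e2 : rr s L M x = Real.log (NN L M x) + (1 - s) * (7 / 100 * (L : ℝ)) := rfl
    rw [e2]
    refine add_le_add le_rfl ?_
    unfold PP
    have e3 : (natK L M hL hM).B = blk L M := rfl
    have e4 : (natK L M hL hM).κ = kp L M := rfl
    rw [e3, e4]
    refine Finset.sum_le_sum fun α hα => ?_
    rcases eq_or_ne (kp L M x α) 0 with h | h
    · rw [h, zero_mul, zero_mul]
    · refine mul_le_mul_of_nonneg_left ?_ ((natK L M hL hM).nonneg x α)
      exact ih (bact_unit ((natK L M hL hM).supp x α hα h))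

end Pool.Agent.Lib.MP_d0d59f_nt.GE

/-! Row N6 (about 120 lines): `Z_J ≥ 1` on all units for some `J ≥ 1`. -/

namespace Pool.Agent.Lib.MP_d0d59f_nt.GE

open Finset

/-- `0 ≤ NN L M x ≤ ∑_{α ∈ blk L M} wt α`, and `NN L M x ≥ (3/256)^L` on units (`NN_ge`), `NN L M x = 0` and
`log 0 = 0` on multiples of `3` (`bvalid_unit`). -/
theorem rr_bdd (s : ℝ) {L M : ℕ} (hL : 2 ≤ L) (hM : 8 ≤ M) : Bdd (rr s L M) := by
  classical
  set S : ℝ := ∑ α ∈ blk L M, wt α with hS
  have hle : ∀ x, NN L M x ≤ S := by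
    intro x
    unfold NN
    refine Finset.sum_le_sum fun α _ => ?_
    split_ifs
    · exact le_rfl
    · exact (wt_pos α).le
  refine ⟨|Real.log S| + |Real.log ((3 / 256 : ℝ) ^ L)| + |(1 - s) * (7 / 100 * (L : ℝ))|, ?_⟩
  intro x
  unfold rr
  refine (abs_add_le _ _).trans ?_
  refine add_le_add ?_ le_rfl
  by_cases hx : (3 : ℤ) ∣ x
  · have h0 : NN L M x = 0 := by
      unfold NN
      refine Finset.sum_eq_zero fun α _ => ?_
      rw [if_neg]
      intro hv
      exact bvalid_unit hv hx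
    rw [h0, Real.log_zero, abs_zero]
    positivity
  · have h1 := NN_ge hL hM hx
    have h2 : (0 : ℝ) < (3 / 256 : ℝ) ^ L := by positivity
    have h3 : Real.log ((3 / 256 : ℝ) ^ L) ≤ Real.log (NN L M x) := Real.log_le_log h2 h1
    have h4 : Real.log (NN L M x) ≤ Real.log S := Real.log_le_log (lt_of_lt_of_le h2 h1) (hle x)
    rw [abs_le]
    constructor
    · have := neg_abs_le (Real.log ((3 / 256 : ℝ) ^ L))
      have := abs_nonneg (Real.log S)
      linarith
    · have := le_abs_self (Real.log S)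
      have := abs_nonneg (Real.log ((3 / 256 : ℝ) ^ L))
      linarith

/-- `valid_congr` (all blocks have length `L`). -/
theorem rr_congr (s : ℝ) {L M : ℕ} {x y : ℤ} (h : x ≡ y [ZMOD 3 ^ (L + 1)]) :
    rr s L M x = rr s L M y := by
  have hN : NN L M x = NN L M y := by
    unfold NN
    refine Finset.sum_congr rfl fun α hα => ?_
    have hlen := (mem_blk.mp hα).1
    have hv : valid α x ↔ valid α y := valid_congr (by rw [hlen]; exact h)
    by_cases h1 : valid α x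
    · rw [if_pos h1, if_pos (hv.mp h1)]
    · rw [if_neg h1, if_neg (fun h2 => h1 (hv.mpr h2))]
  unfold rr
  rw [hN]

/-- The average of the constant part is the constant (`Finset.sum_add_distrib`, `card_range`). -/
theorem avg_rr (s : ℝ) (L M : ℕ) (c : ℤ) :
    avg L c (rr s L M) =
      avg L c (fun x => Real.log (NN L M x)) + (1 - s) * (7 / 100 * (L : ℝ)) := by
  unfold avg rr
  rw [Finset.sum_add_distrib, Finset.sum_const, Finset.card_range, nsmul_eq_mul, add_div]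
  congr 1
  push_cast
  have h3 : (3 : ℝ) ^ L ≠ 0 := by positivity
  field_simp

/-- The two indicator functions sum to `1` on units; `m.add`, `m.one`, `m.mono` (twice). -/
theorem mean_classes {K : Ker} (m : Mean K) :
    m.Θ (fun x => if x % 3 = 1 then 1 else 0) + m.Θ (fun x => if x % 3 = 2 then 1 else 0) = 1 ∧
      0 ≤ m.Θ (fun x => if x % 3 = 1 then 1 else 0) ∧
      0 ≤ m.Θ (fun x => if x % 3 = 2 then 1 else 0) := by
  have hb : ∀ c : ℤ, Bdd (fun x : ℤ => if x % 3 = c then (1 : ℝ) else 0) := by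
    intro c
    refine ⟨1, fun x => ?_⟩
    dsimp only
    split_ifs <;> simp
  have hb1 : Bdd (fun _ : ℤ => (1 : ℝ)) := ⟨1, fun x => by simp⟩
  have hb0 : Bdd (fun _ : ℤ => (0 : ℝ)) := ⟨1, fun x => by simp⟩
  have hsum : Bdd (fun x : ℤ => (if x % 3 = 1 then (1 : ℝ) else 0) +
      (if x % 3 = 2 then (1 : ℝ) else 0)) := by
    refine ⟨2, fun x => ?_⟩
    dsimp only
    split_ifs <;> norm_num
  have h0 : m.Θ (fun _ => 0) = 0 := by
    have := m.smul 0 (fun _ => 1) hb1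
    simpa using this
  refine ⟨?_, ?_, ?_⟩
  · rw [← m.add _ _ (hb 1) (hb 2)]
    refine Eq.trans ?_ m.one
    refine le_antisymm (m.mono _ _ hsum hb1 ?_) (m.mono _ _ hb1 hsum ?_)
    · intro x hx
      split_ifs with h1 h2
      · omega
      · norm_num
      · norm_num
      · norm_num
    · intro x hx
      split_ifs with h1 h2
      · norm_num
      · norm_num
      · norm_num
      · omega
  · refine h0.symm.trans_le (m.mono _ _ hb0 (hb 1) ?_)
    intro x _
    split_ifs <;> norm_num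
  · refine h0.symm.trans_le (m.mono _ _ hb0 (hb 2) ?_)
    intro x _
    split_ifs <;> norm_num

/-- Take `L, M` from `typical ((1-s)/20)`, `K = natK L M hL hM`. If there is no `J ≥ 1` as wanted, then
for every `J` there is a unit `x J` with `ZZ s L M (J+1) (x J) < 1`, so
`∑_{t ≤ J} P^t rr (x J) ≤ log ZZ ≤ 0` (`log_ZZ_ge`, `ZZ_pos`), so `Θ rr ≤ 0` for the mean `cmean K x`
(`cmean_nonpos`, `rr_bdd`). By `theoremE` (with `k = L`, `rr_congr`), `avg_rr`, `typical` and
`mean_classes`: `Θ rr ≥ -((1-s)/20) L + (1-s) (7/100) L = (1-s) L / 50 > 0`. Contradiction. -/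
theorem exists_J {s : ℝ} (hs : s < 1) : ∃ L M : ℕ, 2 ≤ L ∧ 8 ≤ M ∧ ∃ J : ℕ, 1 ≤ J ∧
    ∀ x : ℤ, ¬ (3 : ℤ) ∣ x → 1 ≤ ZZ s L M J x := by
  obtain ⟨L, M, hL, hM, hty⟩ := typical ((1 - s) / 20) (by linarith)
  refine ⟨L, M, hL, hM, ?_⟩
  by_contra hcon
  push Not at hcon
  have hx : ∀ J : ℕ, ∃ x : ℤ, ¬ (3 : ℤ) ∣ x ∧ ZZ s L M (J + 1) x < 1 := fun J =>
    hcon (J + 1) (by omega)
  choose x hx3 hxZ using hx
  have hnon : (cmean (natK L M hL hM) x hx3).Θ (rr s L M) ≤ 0 := by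
    refine cmean_nonpos _ x hx3 (rr_bdd s hL hM) ?_
    intro J
    refine (log_ZZ_ge hs.le hL hM (J + 1) (hx3 J)).trans ?_
    exact Real.log_nonpos (ZZ_pos s hL hM (J + 1) (hx3 J)).le (hxZ J).le
  have hE := theoremE (cmean (natK L M hL hM) x hx3) L (rr s L M)
    (fun a b hab => rr_congr s hab)
  obtain ⟨hm1, hm2, hm3⟩ := mean_classes (cmean (natK L M hL hM) x hx3)
  rw [avg_rr, avg_rr] at hE
  have h1 := hty 1 (Or.inl rfl)
  have h2 := hty 2 (Or.inr rfl)
  have hLpos : (0 : ℝ) < L := by exact_mod_cast (by omega : 0 < L)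
  set A := (cmean (natK L M hL hM) x hx3).Θ (fun x => if x % 3 = 1 then 1 else 0)
  set B := (cmean (natK L M hL hM) x hx3).Θ (fun x => if x % 3 = 2 then 1 else 0)
  set U := avg L 1 (fun x => Real.log (NN L M x))
  set V := avg L 2 (fun x => Real.log (NN L M x))
  have hpos : 0 < (1 - s) * (L : ℝ) := mul_pos (by linarith) hLpos
  have e1 : (1 - s) * (L : ℝ) / 50 ≤ U + (1 - s) * (7 / 100 * (L : ℝ)) := by linarith
  have e2 : (1 - s) * (L : ℝ) / 50 ≤ V + (1 - s) * (7 / 100 * (L : ℝ)) := by linarith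
  have e3 := mul_le_mul_of_nonneg_left e1 hm2
  have e4 := mul_le_mul_of_nonneg_left e2 hm3
  have e5 : A * ((1 - s) * (L : ℝ) / 50) + B * ((1 - s) * (L : ℝ) / 50) =
      (1 - s) * (L : ℝ) / 50 := by rw [← add_mul, hm1, one_mul]
  linarith

end Pool.Agent.Lib.MP_d0d59f_nt.GE

/-! Row N7 (about 70 lines): a bounded positive function with `h ≤ ∑ w^s h`. -/

namespace Pool.Agent.Lib.MP_d0d59f_nt.GE

open Finset

open Classical in
/-- `h = ∑_{j<J} Z_j` with `J` from `exists_J`. Periodic modulo `3^(J*L+1)` by `ZZ_congr` (for `j < J`,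
`3^(j*L+1)` divides `3^(J*L+1)`; `Int.ModEq.of_dvd`), `h ≥ Z_0 = 1` on units (`ZZ_pos`),
`h ≤ H := ∑_{j<J} (∑ wt α ^ s)^j` (`ZZ_le`), and
`∑_α [valid] wt α ^ s * h (act α x) = ∑_{j<J} Z_{j+1}(x) = h x - 1 + Z_J(x) ≥ h x`
(`Finset.mul_sum`, `Finset.sum_comm`, `Finset.sum_range_succ`, `Finset.sum_range_succ'`). -/
theorem exists_weight {s : ℝ} (hs : s < 1) : ∃ (L M K : ℕ) (H : ℝ) (h : ℤ → ℝ), 2 ≤ L ∧ 8 ≤ M ∧
    1 ≤ K ∧ (∀ x y : ℤ, x ≡ y [ZMOD 3 ^ K] → h x = h y) ∧
    (∀ x : ℤ, ¬ (3 : ℤ) ∣ x → 1 ≤ h x) ∧ (∀ x : ℤ, h x ≤ H) ∧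
    ∀ x : ℤ, ¬ (3 : ℤ) ∣ x →
      h x ≤ ∑ α ∈ blk L M, if valid α x then wt α ^ s * h (act α x) else 0 := by
  obtain ⟨L, M, hL, hM, J, hJ, hZ⟩ := exists_J hs
  refine ⟨L, M, J * L + 1, ∑ j ∈ range J, (∑ α ∈ blk L M, wt α ^ s) ^ j,
    fun x => ∑ j ∈ range J, ZZ s L M j x, hL, hM, by omega, ?_, ?_, ?_, ?_⟩
  · intro x y hxy
    refine Finset.sum_congr rfl fun j hj => ?_
    refine ZZ_congr s (hxy.of_dvd ?_)
    refine pow_dvd_pow 3 ?_
    have := Nat.mul_le_mul_right L (Finset.mem_range.mp hj).le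
    omega
  · intro x hx
    have h1 : (∑ j ∈ range 1, ZZ s L M j x) ≤ ∑ j ∈ range J, ZZ s L M j x :=
      Finset.sum_le_sum_of_subset_of_nonneg (Finset.range_mono hJ)
        (fun j _ _ => (ZZ_pos s hL hM j hx).le)
    have h2 : (∑ j ∈ range 1, ZZ s L M j x) = 1 := by
      rw [Finset.sum_range_one]
      rfl
    rw [h2] at h1
    exact h1
  · intro x
    exact Finset.sum_le_sum fun j _ => ZZ_le s L M j x
  · intro x hx
    have h1 : (∑ α ∈ blk L M, if valid α x then wt α ^ s * ∑ j ∈ range J, ZZ s L M j (act α x)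
        else 0) = ∑ j ∈ range J, ZZ s L M (j + 1) x := by
      have h2 : ∀ j ∈ range J, ZZ s L M (j + 1) x =
          ∑ α ∈ blk L M, if valid α x then wt α ^ s * ZZ s L M j (act α x) else 0 :=
        fun j _ => rfl
      rw [Finset.sum_congr rfl h2, Finset.sum_comm]
      refine Finset.sum_congr rfl fun α _ => ?_
      by_cases hv : valid α x
      · simp only [if_pos hv]
        rw [Finset.mul_sum]
      · simp only [if_neg hv, Finset.sum_const_zero]
    rw [h1]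
    have h3 := Finset.sum_range_succ (fun j => ZZ s L M j x) J
    rw [Finset.sum_range_succ'] at h3
    have h4 : ZZ s L M 0 x = 1 := rfl
    have h5 := hZ x hx
    rw [h4] at h3
    linarith

end Pool.Agent.Lib.MP_d0d59f_nt.GE

/-! Row C5 (about 150 lines): the counting induction. -/

namespace Pool.Agent.Lib.MP_d0d59f_nt.GE

open Finset

/-- Number of `m` with orbit through `y` and `|m| + c|d| ≤ R`. -/
noncomputable def cn (d : ℤ) (c R : ℝ) (y : ℤ) : ℕ :=
  Set.ncard {m : ℤ | m ∈ pre d y ∧ |(m : ℝ)| + c * |(d : ℝ)| ≤ R}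

/-- The set is contained in `[-R, R]` (`c ≥ 0`). -/
theorem cn_finite (d : ℤ) {c : ℝ} (hc : 0 ≤ c) (R : ℝ) (y : ℤ) :
    {m : ℤ | m ∈ pre d y ∧ |(m : ℝ)| + c * |(d : ℝ)| ≤ R}.Finite := by
  refine (Set.finite_Icc (-⌈R⌉) ⌈R⌉).subset ?_
  rintro m ⟨_, hm⟩
  have h1 : 0 ≤ c * |(d : ℝ)| := mul_nonneg hc (abs_nonneg _)
  have h2 : |(m : ℝ)| ≤ R := by linarith
  have h3 : |(m : ℝ)| ≤ (⌈R⌉ : ℝ) := h2.trans (Int.le_ceil R)
  have h4 := abs_le.mp h3
  constructor
  · have := h4.1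
    exact_mod_cast this
  · have := h4.2
    exact_mod_cast this

theorem cn_mono (d : ℤ) {c : ℝ} (hc : 0 ≤ c) {R R' : ℝ} (h : R ≤ R') (y : ℤ) :
    cn d c R y ≤ cn d c R' y := by
  refine Set.ncard_le_ncard ?_ (cn_finite d hc R' y)
  rintro m ⟨h1, h2⟩
  exact ⟨h1, h2.trans h⟩

theorem one_le_cn (d : ℤ) {c : ℝ} (hc : 0 ≤ c) {R : ℝ} {y : ℤ}
    (h : |(y : ℝ)| + c * |(d : ℝ)| ≤ R) : 1 ≤ cn d c R y := by
  rw [cn, Nat.one_le_iff_ne_zero]
  exact Set.ncard_ne_zero_of_mem (a := y) ⟨self_mem_pre d y, h⟩ (cn_finite d hc R y)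

/-- The sets of the different `α ∈ W` are disjoint (`pre_disjoint`; all words have length `L`) subsets of
the set of `y` (`path_mem_pre`, `pre_trans`); the cardinality of a finite disjoint union
(`Set.ncard_iUnion` / `Finset.card_biUnion` after `Set.Finite.toFinset`). -/
theorem cn_sum {d : ℤ} (hd : Odd d) {c : ℝ} (hc : 0 ≤ c) (R : ℝ) {y : ℤ} (hy : ¬ pdc d y)
    {L : ℕ} (W : Finset (List ℕ)) (hlen : ∀ α ∈ W, α.length = L)
    (hW : ∀ α ∈ W, AA.isPath d α (actd d α y) y) :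
    ∑ α ∈ W, cn d c R (actd d α y) ≤ cn d c R y := by
  classical
  have hcard : ∀ z : ℤ, cn d c R z = (cn_finite d hc R z).toFinset.card := fun z =>
    Set.ncard_eq_toFinset_card _ (cn_finite d hc R z)
  rw [hcard y]
  simp_rw [hcard]
  rw [← Finset.card_biUnion]
  · refine Finset.card_le_card ?_
    intro m hm
    rw [Finset.mem_biUnion] at hm
    obtain ⟨α, hα, hm⟩ := hm
    rw [Set.Finite.mem_toFinset] at hm ⊢
    exact ⟨pre_trans (path_mem_pre hd (hW α hα)) hm.1, hm.2⟩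
  · intro α hα β hβ hne
    have h1 := pre_disjoint hd (hW α hα) (hW β hβ) ((hlen α hα).trans (hlen β hβ).symm) hne hy
    rw [Function.onFun, Finset.disjoint_left]
    intro m hm hm'
    rw [Set.Finite.mem_toFinset] at hm hm'
    exact (Set.disjoint_left.mp h1) hm.1 hm'.1

/-- **Counting.** Let `L, M, K, H₀, h` be as in `exists_weight`, `c` as in `exists_pot`,
`T₀ = 2^(L M)`, `q = exp (-(7/100) L) < 1`, `κ = T₀^(-s) / max H₀ 1`. Fix `d` and take `H`, `W` from `transfer`.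
Claim: for all `k`, all odd non-periodic `y` prime to `3` and all `1 ≤ t ≤ T₀ / q^k`:
`κ t^s H(y) ≤ cn d c (t (|y| + c|d|)) y`. If `t ≤ T₀` the left side is `≤ 1` and `one_le_cn` applies (in
particular `k = 0`). If `t > T₀`, then for `α ∈ W y` the node `y' = actd d α y` is odd, prime to `3`, not
periodic (`AA.isPath_odd_left`, `pdc_of_pre`, `path_mem_pre`), `1 ≤ t wt α` (`wt_ge`),
`t wt α ≤ T₀ / q^(k-1)` (`wt_le`), and `t wt α (|y'| + c|d|) ≤ t (|y| + c|d|)` (`exists_pot`,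
`AA.isPath_identity`), so by `cn_sum`, `cn_mono` and induction
`cn (y) ≥ ∑ cn(y') ≥ κ t^s ∑ wt α ^ s H(y') ≥ κ t^s H(y)` (`Real.mul_rpow`). Finally `H y ≥ 1`. -/
theorem count_main {s : ℝ} (hs0 : 0 < s) (hs : s < 1) : ∃ c κ : ℝ, 1 ≤ c ∧ 0 < κ ∧
    ∀ d y : ℤ, Odd d → ¬ (3 : ℤ) ∣ d → Odd y → ¬ (3 : ℤ) ∣ y → ¬ pdc d y → ∀ t : ℝ, 1 ≤ t →
      κ * t ^ s ≤ cn d c (t * (|(y : ℝ)| + c * |(d : ℝ)|)) y := by
  obtain ⟨L, M, K, H₀, h, hL, hM, hK, hper, h1, h2, hsub⟩ := exists_weight hs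
  obtain ⟨c, hc1, hpot⟩ := exists_pot (by omega : 1 ≤ L) M
  have hc0 : 0 ≤ c := by linarith
  set T₀ : ℝ := 2 ^ (L * M) with hT₀
  have hT₀1 : 1 ≤ T₀ := one_le_pow₀ (by norm_num)
  have hT₀pos : 0 < T₀ := by linarith
  set q : ℝ := Real.exp (-(7 / 100 * (L : ℝ))) with hq
  have hq0 : 0 < q := Real.exp_pos _
  have hq1 : q < 1 := by
    rw [hq, Real.exp_lt_one_iff]
    have : (0 : ℝ) < L := by exact_mod_cast (by omega : 0 < L)
    linarith
  set m : ℝ := max H₀ 1 with hm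
  have hm0 : 0 < m := lt_of_lt_of_le one_pos (le_max_right _ _)
  have hTs : 0 < T₀ ^ s := Real.rpow_pos_of_pos hT₀pos s
  refine ⟨c, 1 / (T₀ ^ s * m), hc1, by positivity, ?_⟩
  set κ : ℝ := 1 / (T₀ ^ s * m) with hκ
  have hκ0 : 0 < κ := by positivity
  intro d y₀ hd h3 hy₀ hy₀3 hy₀p t₀ ht₀
  obtain ⟨H, W, hH1, hH2, hWsub, hWpath, hHsub⟩ := transfer hper h1 h2 hsub hd h3
  -- the base case
  have base : ∀ (y : ℤ) (t : ℝ), 1 ≤ t → t ≤ T₀ → ¬ (3 : ℤ) ∣ y →
      κ * t ^ s * H y ≤ cn d c (t * (|(y : ℝ)| + c * |(d : ℝ)|)) y := by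
    intro y t ht1 ht hy3
    have hone : (1 : ℝ) ≤ cn d c (t * (|(y : ℝ)| + c * |(d : ℝ)|)) y := by
      have h5 : |(y : ℝ)| + c * |(d : ℝ)| ≤ t * (|(y : ℝ)| + c * |(d : ℝ)|) := by
        have h6 : 0 ≤ |(y : ℝ)| + c * |(d : ℝ)| := by positivity
        nlinarith
      exact_mod_cast one_le_cn d hc0 h5
    refine le_trans ?_ hone
    have h5 : t ^ s ≤ T₀ ^ s := Real.rpow_le_rpow (by linarith) ht hs0.le
    have h6 : H y ≤ m := (hH2 y).trans (le_max_left _ _)
    have h7 : 0 ≤ H y := by linarith [hH1 y hy3]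
    have h8 : 0 ≤ t ^ s := Real.rpow_nonneg (by linarith) s
    calc κ * t ^ s * H y ≤ κ * T₀ ^ s * m := by
          have := mul_le_mul h5 h6 h7 hTs.le
          nlinarith
      _ = 1 := by rw [hκ]; field_simp
  -- the induction
  have key : ∀ (k : ℕ) (y : ℤ) (t : ℝ), 1 ≤ t → t ≤ T₀ / q ^ k → Odd y → ¬ (3 : ℤ) ∣ y →
      ¬ pdc d y → κ * t ^ s * H y ≤ cn d c (t * (|(y : ℝ)| + c * |(d : ℝ)|)) y := by
    intro k
    induction k with
    | zero =>
      intro y t ht1 ht _ hy3 _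
      exact base y t ht1 (by simpa using ht) hy3
    | succ k ih =>
      intro y t ht1 ht hy hy3 hyp
      rcases le_or_gt t T₀ with hle | hgt
      · exact base y t ht1 hle hy3
      · have hts : 0 < t ^ s := Real.rpow_pos_of_pos (by linarith) s
        have hsum := cn_sum hd hc0 (t * (|(y : ℝ)| + c * |(d : ℝ)|)) hyp (L := L) (W y)
          (fun α hα => (mem_blk.mp (hWsub y hα)).1) (fun α hα => (hWpath y hy3 hy α hα).1)
        have hstep : ∀ α ∈ W y, κ * t ^ s * (wt α ^ s * H (actd d α y)) ≤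
            (cn d c (t * (|(y : ℝ)| + c * |(d : ℝ)|)) (actd d α y) : ℝ) := by
          intro α hα
          obtain ⟨hp, hu⟩ := hWpath y hy3 hy α hα
          have hblk := hWsub y hα
          have hw0 := wt_pos α
          have hodd : Odd (actd d α y) := AA.isPath_odd_left hp
          have hnp : ¬ pdc d (actd d α y) := fun h9 => hyp (pdc_of_pre (path_mem_pre hd hp) h9)
          have hw1 : 1 ≤ t * wt α := by
            have h5 := wt_ge hblk
            have h6 : (1 : ℝ) = T₀ * (1 / 2 ^ (L * M)) := by rw [hT₀]; field_simp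
            rw [h6]
            exact mul_le_mul hgt.le h5 (by positivity) (by linarith)
          have hw2 : t * wt α ≤ T₀ / q ^ k := by
            have h5 := wt_le hblk
            calc t * wt α ≤ T₀ / q ^ (k + 1) * q :=
                  mul_le_mul ht h5 hw0.le (by positivity)
              _ = T₀ / q ^ k := by rw [pow_succ]; field_simp
          have h5 := ih (actd d α y) (t * wt α) hw1 hw2 hodd hu hnp
          have h6 : (t * wt α) ^ s = t ^ s * wt α ^ s :=
            Real.mul_rpow (by linarith) hw0.le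
          have h7 := hpot d y (actd d α y) α hblk (AA.isPath_identity hp)
          have h8 : t * wt α * (|((actd d α y : ℤ) : ℝ)| + c * |(d : ℝ)|) ≤
              t * (|(y : ℝ)| + c * |(d : ℝ)|) := by
            have h9 : wt α * (|((actd d α y : ℤ) : ℝ)| + c * |(d : ℝ)|) ≤
                |(y : ℝ)| + c * |(d : ℝ)| := by
              rw [le_div_iff₀ hw0] at h7
              linarith
            rw [mul_assoc]
            exact mul_le_mul_of_nonneg_left h9 (by linarith)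
          have h10 : (cn d c (t * wt α * (|((actd d α y : ℤ) : ℝ)| + c * |(d : ℝ)|))
              (actd d α y) : ℝ) ≤ cn d c (t * (|(y : ℝ)| + c * |(d : ℝ)|)) (actd d α y) := by
            exact_mod_cast cn_mono d hc0 h8 (actd d α y)
          rw [h6] at h5
          calc κ * t ^ s * (wt α ^ s * H (actd d α y))
              = κ * (t ^ s * wt α ^ s) * H (actd d α y) := by ring
            _ ≤ _ := h5.trans h10
        calc κ * t ^ s * H y ≤ κ * t ^ s * ∑ α ∈ W y, wt α ^ s * H (actd d α y) :=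
              mul_le_mul_of_nonneg_left (hHsub y hy3) (by positivity)
          _ = ∑ α ∈ W y, κ * t ^ s * (wt α ^ s * H (actd d α y)) := by rw [Finset.mul_sum]
          _ ≤ ∑ α ∈ W y, (cn d c (t * (|(y : ℝ)| + c * |(d : ℝ)|)) (actd d α y) : ℝ) :=
              Finset.sum_le_sum hstep
          _ ≤ _ := by exact_mod_cast hsum
  -- every `t` is covered
  obtain ⟨k, hk⟩ : ∃ k : ℕ, q ^ k < T₀ / t₀ := exists_pow_lt_of_lt_one (by positivity) hq1
  have hk2 : t₀ ≤ T₀ / q ^ k := by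
    rw [le_div_iff₀ (by positivity)]
    rw [lt_div_iff₀ (by linarith)] at hk
    linarith
  have h5 := key k y₀ t₀ ht₀ hk2 hy₀ hy₀3 hy₀p
  have h6 : κ * t₀ ^ s * 1 ≤ κ * t₀ ^ s * H y₀ :=
    mul_le_mul_of_nonneg_left (hH1 y₀ hy₀3) (mul_nonneg hκ0.le (Real.rpow_nonneg (by linarith) s))
  linarith

end Pool.Agent.Lib.MP_d0d59f_nt.GE

/-! Row C6 (about 90 lines): growth exponent 1. -/

namespace Pool.Agent.Lib.MP_d0d59f_nt.GE

open Finset

/-- the case `0 < s < 1` -/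
theorem c6_pos {s : ℝ} (hs0 : 0 < s) (hs : s < 1) : ∃ c : ℝ, 0 < c ∧ ∀ d a : ℤ, Odd d →
    ¬ (3 : ℤ) ∣ d → ¬ (3 : ℤ) ∣ a → ∀ X : ℝ, |(a : ℝ)| + |(d : ℝ)| ≤ X →
      c * (X / (|(a : ℝ)| + |(d : ℝ)|)) ^ s ≤
        (Set.ncard {m : ℤ | |(m : ℝ)| ≤ X ∧ ∃ k : ℕ, (T d)^[k] m = a} : ℝ) := by
  obtain ⟨c, κ, hc1, hκ, hmain⟩ := count_main hs0 hs
  have hD0 : 0 < (22 + c) ^ s := Real.rpow_pos_of_pos (by linarith) s
  refine ⟨min (κ / (22 + c) ^ s) (1 / (22 + c) ^ s), lt_min (by positivity) (by positivity), ?_⟩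
  intro d a hd h3 ha X hX
  have hd1 : 1 ≤ |(d : ℝ)| := by
    have h0 : d ≠ 0 := by
      rintro rfl
      exact h3 (dvd_zero _)
    have := Int.one_le_abs h0
    exact_mod_cast this
  set A : ℝ := |(a : ℝ)| + |(d : ℝ)| with hA
  have hA1 : 1 ≤ A := by
    have := abs_nonneg (a : ℝ)
    linarith
  have hA0 : 0 < A := by linarith
  have hXA : 1 ≤ X / A := by rw [le_div_iff₀ hA0]; linarith
  have hfin : {m : ℤ | |(m : ℝ)| ≤ X ∧ ∃ k : ℕ, (T d)^[k] m = a}.Finite := by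
    refine (Set.finite_Icc (-⌈X⌉) ⌈X⌉).subset ?_
    rintro m ⟨hm, _⟩
    have h4 := abs_le.mp (hm.trans (Int.le_ceil X))
    constructor
    · have := h4.1
      exact_mod_cast this
    · have := h4.2
      exact_mod_cast this
  have hpow : (0 : ℝ) ≤ (X / A) ^ s := Real.rpow_nonneg (by linarith) s
  rcases le_or_gt ((22 + c) * A) X with hbig | hsmall
  · obtain ⟨N, hN1, hN2, hN3, hN4, hN5⟩ := exists_kid hd h3 ha
    set R : ℝ := |(N : ℝ)| + c * |(d : ℝ)| with hR
    have hR1 : 0 < R := by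
      have := abs_nonneg (N : ℝ)
      nlinarith
    have hRA : R ≤ (22 + c) * A := by
      have h5 : c * |(d : ℝ)| ≤ c * A := by
        refine mul_le_mul_of_nonneg_left ?_ (by linarith)
        have := abs_nonneg (a : ℝ)
        linarith
      calc R ≤ 22 * A + c * A := add_le_add hN5 h5
        _ = _ := by ring
    have ht : 1 ≤ X / R := by
      rw [le_div_iff₀ hR1]
      linarith
    have h6 := hmain d N hd h3 hN1 hN2 hN3 (X / R) ht
    rw [← hR, div_mul_cancel₀ X hR1.ne'] at h6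
    have h7 : cn d c X N ≤ Set.ncard {m : ℤ | |(m : ℝ)| ≤ X ∧ ∃ k : ℕ, (T d)^[k] m = a} := by
      refine Set.ncard_le_ncard ?_ hfin
      rintro m ⟨hm1, hm2⟩
      have h8 : 0 ≤ c * |(d : ℝ)| := by positivity
      exact ⟨by linarith, pre_trans hN4 hm1⟩
    have h7' : (cn d c X N : ℝ) ≤
        (Set.ncard {m : ℤ | |(m : ℝ)| ≤ X ∧ ∃ k : ℕ, (T d)^[k] m = a} : ℝ) := by
      exact_mod_cast h7
    refine le_trans ?_ (h6.trans h7')
    have h8 : (X / A) ^ s ≤ ((22 + c) * (X / R)) ^ s := by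
      refine Real.rpow_le_rpow (by linarith) ?_ hs0.le
      rw [div_le_iff₀ hA0]
      have h9 : X = X / R * R := (div_mul_cancel₀ X hR1.ne').symm
      calc X = X / R * R := h9
        _ ≤ X / R * ((22 + c) * A) := mul_le_mul_of_nonneg_left hRA (by linarith)
        _ = _ := by ring
    rw [Real.mul_rpow (by linarith) (by linarith)] at h8
    calc min (κ / (22 + c) ^ s) (1 / (22 + c) ^ s) * (X / A) ^ s
        ≤ κ / (22 + c) ^ s * (X / A) ^ s :=
          mul_le_mul_of_nonneg_right (min_le_left _ _) hpow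
      _ ≤ κ / (22 + c) ^ s * ((22 + c) ^ s * (X / R) ^ s) :=
          mul_le_mul_of_nonneg_left h8 (by positivity)
      _ = κ * (X / R) ^ s := by field_simp
  · have hone : (1 : ℝ) ≤
        (Set.ncard {m : ℤ | |(m : ℝ)| ≤ X ∧ ∃ k : ℕ, (T d)^[k] m = a} : ℝ) := by
      have h5 : 1 ≤ Set.ncard {m : ℤ | |(m : ℝ)| ≤ X ∧ ∃ k : ℕ, (T d)^[k] m = a} := by
        rw [Nat.one_le_iff_ne_zero]
        refine Set.ncard_ne_zero_of_mem (a := a) ⟨?_, 0, rfl⟩ hfin
        have := abs_nonneg (d : ℝ)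
        linarith
      exact_mod_cast h5
    refine le_trans ?_ hone
    have h8 : (X / A) ^ s ≤ (22 + c) ^ s := by
      refine Real.rpow_le_rpow (by linarith) ?_ hs0.le
      rw [div_le_iff₀ hA0]
      exact hsmall.le
    calc min (κ / (22 + c) ^ s) (1 / (22 + c) ^ s) * (X / A) ^ s
        ≤ 1 / (22 + c) ^ s * (X / A) ^ s :=
          mul_le_mul_of_nonneg_right (min_le_right _ _) hpow
      _ ≤ 1 / (22 + c) ^ s * (22 + c) ^ s := mul_le_mul_of_nonneg_left h8 (by positivity)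
      _ = 1 := by field_simp

/-- **Growth exponent 1, uniformly.** First `0 < s < 1`. Let `c, κ` be from `count_main`, and
`N` from `exists_kid`. Put `A = |a| + |d| ≥ 1` (`d ≠ 0`), `R = |N| + c|d| ≤ (22 + c) A`, and let `X ≥ A`.
If `X ≥ (22 + c) A`, take `t = X / R ≥ 1`: the `m ∈ pre d N` with `|m| + c|d| ≤ X` belong to the set, and
their number is at least `κ (X/R)^s ≥ κ (22+c)^(-s) (X/A)^s`. If `X < (22 + c) A` then the set contains `a`
(`k = 0`, `|a| ≤ A ≤ X`) and `(X/A)^s ≤ (22+c)^s`. So the constant `min (κ (22+c)^(-s)) ((22+c)^(-s))` works.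
For `s ≤ 0` use the case `s = 1/2` and `(X/A)^s ≤ (X/A)^(1/2)` (`Real.rpow_le_rpow_of_exponent_le`, `X/A ≥ 1`). -/
theorem growth (s : ℝ) (hs : s < 1) : ∃ c : ℝ, 0 < c ∧ ∀ d a : ℤ, Odd d → ¬ (3 : ℤ) ∣ d →
    ¬ (3 : ℤ) ∣ a → ∀ X : ℝ, |(a : ℝ)| + |(d : ℝ)| ≤ X →
      c * (X / (|(a : ℝ)| + |(d : ℝ)|)) ^ s ≤
        (Set.ncard {m : ℤ | |(m : ℝ)| ≤ X ∧ ∃ k : ℕ, (T d)^[k] m = a} : ℝ) := by
  rcases lt_or_ge 0 s with hs0 | hs0
  · exact c6_pos hs0 hs
  · obtain ⟨c, hc, h⟩ := c6_pos (s := 1 / 2) (by norm_num) (by norm_num)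
    refine ⟨c, hc, fun d a hd h3 ha X hX => le_trans ?_ (h d a hd h3 ha X hX)⟩
    have hd1 : 1 ≤ |(d : ℝ)| := by
      have h0 : d ≠ 0 := by
        rintro rfl
        exact h3 (dvd_zero _)
      have := Int.one_le_abs h0
      exact_mod_cast this
    have hA0 : 0 < |(a : ℝ)| + |(d : ℝ)| := by
      have := abs_nonneg (a : ℝ)
      linarith
    have hXA : 1 ≤ X / (|(a : ℝ)| + |(d : ℝ)|) := by rw [le_div_iff₀ hA0]; linarith
    exact mul_le_mul_of_nonneg_left
      (Real.rpow_le_rpow_of_exponent_le hXA (by linarith)) hc.le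

end Pool.Agent.Lib.MP_d0d59f_nt.GE

/-! The inverse tree cut at a finite set. -/

namespace Pool.Agent.Lib.MP_d0d59f_nt.GE

open Finset

/-- Two kids `y, y'` of `a` (with different letters) have disjoint predecessor sets unless one of them
is periodic; first half. -/
theorem d1_half {d : ℤ} (hd : Odd d) {k k' : ℕ} (hk : 1 ≤ k) (hk' : 1 ≤ k') (hne : k ≠ k') {a y y' : ℤ}
    (ha : a ≠ 0) (hy : Odd y) (hy' : Odd y') (h : 3 * y + d = 2 ^ k * a)
    (h' : 3 * y' + d = 2 ^ k' * a) {j : ℕ} (hj : (T d)^[j] y = y') : pdc d y' := by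
  have hTk' : (T d)^[k'] y' = a := by
    have := kid_iter hd hy' (j := 0) (k := k') (by omega) h'
    simpa using this
  have hTk : (T d)^[k] y = a := by
    have := kid_iter hd hy (j := 0) (k := k) (by omega) h
    simpa using this
  rcases Nat.eq_zero_or_pos j with rfl | hj0
  · exfalso
    have h1 : y = y' := hj
    rw [← h1, h] at h'
    have h2 := mul_right_cancel₀ ha h'
    exact hne (Int.pow_right_injective (by norm_num) h2)
  · rcases lt_or_ge j k with hjk | hjk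
    · exfalso
      have h1 : (T d)^[k - (k - j)] y = 2 ^ (k - j) * a := kid_iter hd hy (by omega) h
      have h2 : k - (k - j) = j := by omega
      rw [h2, hj] at h1
      obtain ⟨e, he⟩ : ∃ e, k - j = e + 1 := ⟨k - j - 1, by omega⟩
      rw [he, pow_succ] at h1
      rw [h1] at hy'
      have h6 : Even (2 ^ e * 2 * a) := ⟨2 ^ e * a, by ring⟩
      exact (Int.not_odd_iff_even.2 h6) hy'
    · refine ⟨(j - k) + k', by omega, ?_⟩
      rw [Function.iterate_add_apply, hTk', ← hTk, ← Function.iterate_add_apply]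
      have h2 : j - k + k = j := by omega
      rw [h2, hj]

theorem d1_disj {d : ℤ} (hd : Odd d) {k k' : ℕ} (hk : 1 ≤ k) (hk' : 1 ≤ k') (hne : k ≠ k') {a y y' f : ℤ}
    (ha : a ≠ 0) (hy : Odd y) (hy' : Odd y') (h : 3 * y + d = 2 ^ k * a)
    (h' : 3 * y' + d = 2 ^ k' * a) (hf : f ∈ pre d y) (hf' : f ∈ pre d y') :
    pdc d y ∨ pdc d y' := by
  obtain ⟨i, hi⟩ := hf
  obtain ⟨i', hi'⟩ := hf'
  rcases le_total i i' with hle | hle
  · right
    obtain ⟨j, rfl⟩ := Nat.exists_eq_add_of_le' hle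
    rw [Function.iterate_add_apply, hi] at hi'
    exact d1_half hd hk hk' hne ha hy hy' h h' hi'
  · left
    obtain ⟨j, rfl⟩ := Nat.exists_eq_add_of_le' hle
    rw [Function.iterate_add_apply, hi'] at hi
    exact d1_half hd hk' hk hne.symm ha hy' hy h' h hi

/-- Among the `2 (n + 2)` kids with letters `k₀ + 2 i` one is prime to `3`, and has no element of `F` above
it, where `n = |F|`. -/
theorem exists_free_kid {d a : ℤ} (hd : Odd d) (h3 : ¬ (3 : ℤ) ∣ d) (ha : ¬ (3 : ℤ) ∣ a)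
    (F : Finset ℤ) :
    ∃ (k : ℕ) (y : ℤ), 1 ≤ k ∧ k ≤ 4 * F.card + 8 ∧ 3 * y + d = 2 ^ k * a ∧ ¬ (3 : ℤ) ∣ y ∧
      ∀ f ∈ F, f ∉ pre d y := by
  classical
  have ha0 : a ≠ 0 := by
    rintro rfl
    exact ha (dvd_zero _)
  obtain ⟨k0, hk1, hk2, N0, h0⟩ : ∃ k : ℕ, 1 ≤ k ∧ k ≤ 2 ∧ ∃ N₀ : ℤ, 3 * N₀ + d = 2 ^ k * a := by
    by_cases h : (2 * a - d) % 3 = 0
    · exact ⟨1, le_rfl, by norm_num, (2 * a - d) / 3, by omega⟩
    · have ha' : a % 3 = 1 ∨ a % 3 = 2 := by omega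
      have hd' : d % 3 = 1 ∨ d % 3 = 2 := by omega
      exact ⟨2, by norm_num, le_rfl, (4 * a - d) / 3, by
        rcases ha' with ha' | ha' <;> rcases hd' with hd' | hd' <;> omega⟩
  have hkid : ∀ i : ℕ, ∃ N : ℤ, 3 * N + d = 2 ^ (k0 + 2 * i) * a := by
    intro i
    induction i with
    | zero => exact ⟨N0, by simpa using h0⟩
    | succ i ih =>
      obtain ⟨N, hN⟩ := ih
      refine ⟨4 * N + d, ?_⟩
      have : k0 + 2 * (i + 1) = k0 + 2 * i + 2 := by ring
      rw [this, pow_add, mul_right_comm, ← hN]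
      ring
  have hpair : ∀ t : ℕ, ∃ (k : ℕ) (y : ℤ), k0 + 4 * t ≤ k ∧ k ≤ k0 + 4 * t + 2 ∧
      3 * y + d = 2 ^ k * a ∧ ¬ (3 : ℤ) ∣ y := by
    intro t
    obtain ⟨N, hN⟩ := hkid (2 * t)
    have e1 : k0 + 2 * (2 * t) = k0 + 4 * t := by ring
    rw [e1] at hN
    by_cases hd3 : (3 : ℤ) ∣ N
    · refine ⟨k0 + 4 * t + 2, 4 * N + d, by omega, le_rfl, ?_, by omega⟩
      rw [pow_add, mul_right_comm, ← hN]
      ring
    · exact ⟨k0 + 4 * t, N, le_rfl, by omega, hN, hd3⟩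
  choose k y hk3 hk4 hy hy3 using hpair
  have hk1' : ∀ t, 1 ≤ k t := fun t => by have := hk3 t; omega
  have hyodd : ∀ t, Odd (y t) := fun t => c4_odd hd (hk1' t) (hy t)
  have hkne : ∀ t t', t < t' → k t < k t' := by
    intro t t' h
    have h1 := hk4 t
    have h2 := hk3 t'
    omega
  have hkne' : ∀ t t', t ≠ t' → k t ≠ k t' := by
    intro t t' h
    rcases lt_or_gt_of_ne h with h1 | h1
    · exact (hkne t t' h1).ne
    · exact (hkne t' t h1).ne'
  -- the non periodic ones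
  set S : Finset ℕ := (range (F.card + 2)).filter fun t => ¬ pdc d (y t) with hS
  have hScard : F.card + 1 ≤ S.card := by
    have h1 : ((range (F.card + 2)).filter fun t => pdc d (y t)).card ≤ 1 := by
      rw [Finset.card_le_one]
      intro t ht t' ht'
      rw [mem_filter] at ht ht'
      by_contra hne
      rcases lt_or_gt_of_ne hne with h1 | h1
      · exact kids_not_both hd (hk1' t) (hkne t t' h1) (hyodd t) (hyodd t') (hy t) (hy t') ⟨ht.2, ht'.2⟩
      · exact kids_not_both hd (hk1' t') (hkne t' t h1) (hyodd t') (hyodd t) (hy t') (hy t) ⟨ht'.2, ht.2⟩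
    have h2 := Finset.card_filter_add_card_filter_not (s := range (F.card + 2)) (fun t => pdc d (y t))
    rw [card_range] at h2
    rw [hS]
    omega
  by_contra hcon
  push Not at hcon
  have hex : ∀ t ∈ S, ∃ f, f ∈ F ∧ f ∈ pre d (y t) := by
    intro t ht
    rw [hS, mem_filter, mem_range] at ht
    obtain ⟨f, hf, hf2⟩ := hcon (k t) (y t) (hk1' t) (by have := hk4 t; omega) (hy t) (hy3 t)
    exact ⟨f, hf, hf2⟩
  choose! g hg1 hg2 using hex
  have hinj : Set.InjOn g (S : Set ℕ) := by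
    intro t ht t' ht' heq
    by_contra hne
    have h1 := hg2 t ht
    have h2 := hg2 t' ht'
    rw [← heq] at h2
    have h3 := d1_disj hd (hk1' t) (hk1' t') (hkne' t t' hne) ha0 (hyodd t) (hyodd t') (hy t) (hy t') h1 h2
    have h4 := (mem_filter.1 (Finset.mem_coe.1 ht)).2
    have h5 := (mem_filter.1 (Finset.mem_coe.1 ht')).2
    rcases h3 with h3 | h3
    · exact h4 h3
    · exact h5 h3
  have hcard := Finset.card_le_card_of_injOn g (fun t ht => hg1 t (Finset.mem_coe.1 ht)) hinj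
  omega

/-- **Growth exponent 1 for the inverse tree cut at a finite set.** For `0 < s < 1` there is `c > 0` such
that for all odd `d` prime to `3`, all `a` prime to `3`, all finite sets `F` which contain no `2^j a`, and all
`X ≥ |a| + |d|`: at least `c (X / (16^|F| (|a| + |d|)))^s` integers `m`, `|m| ≤ X`, have an orbit that reaches
`a` before meeting `F`. -/
theorem growth_cut {s : ℝ} (hs0 : 0 < s) (hs : s < 1) : ∃ c : ℝ, 0 < c ∧ ∀ d a : ℤ, Odd d →
    ¬ (3 : ℤ) ∣ d → ¬ (3 : ℤ) ∣ a → ∀ F : Finset ℤ, (∀ j : ℕ, 2 ^ j * a ∉ F) →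
    ∀ X : ℝ, |(a : ℝ)| + |(d : ℝ)| ≤ X →
      c * (X / (16 ^ F.card * (|(a : ℝ)| + |(d : ℝ)|))) ^ s ≤
        (Set.ncard {m : ℤ | |(m : ℝ)| ≤ X ∧
          ∃ k : ℕ, (T d)^[k] m = a ∧ ∀ i ≤ k, (T d)^[i] m ∉ F} : ℝ) := by
  obtain ⟨c, hc, hmain⟩ := growth s hs
  have hC0 : (0 : ℝ) < 257 ^ s := Real.rpow_pos_of_pos (by norm_num) s
  refine ⟨min (c / 257 ^ s) (1 / 257 ^ s), lt_min (by positivity) (by positivity), ?_⟩
  intro d a hd h3 ha F hF X hX
  have hd1 : 1 ≤ |(d : ℝ)| := by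
    have h0 : d ≠ 0 := by
      rintro rfl
      exact h3 (dvd_zero _)
    have := Int.one_le_abs h0
    exact_mod_cast this
  set A : ℝ := |(a : ℝ)| + |(d : ℝ)| with hA
  have hA1 : 1 ≤ A := by
    have := abs_nonneg (a : ℝ)
    linarith
  have hX0 : 0 < X := by linarith
  set B : ℝ := 16 ^ F.card * A with hB
  have hB0 : 0 < B := by positivity
  have hfin : {m : ℤ | |(m : ℝ)| ≤ X ∧
      ∃ k : ℕ, (T d)^[k] m = a ∧ ∀ i ≤ k, (T d)^[i] m ∉ F}.Finite := by
    refine (Set.finite_Icc (-⌈X⌉) ⌈X⌉).subset ?_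
    rintro m ⟨hm, _⟩
    have h4 := abs_le.mp (hm.trans (Int.le_ceil X))
    constructor
    · have := h4.1
      exact_mod_cast this
    · have := h4.2
      exact_mod_cast this
  have hpow : (0 : ℝ) ≤ (X / B) ^ s := Real.rpow_nonneg (by positivity) s
  rcases le_or_gt (257 * B) X with hbig | hsmall
  · obtain ⟨k, y, hk1, hk2, hy, hy3, hyF⟩ := exists_free_kid hd h3 ha F
    have hyodd := c4_odd hd hk1 hy
    -- size of `y`
    have hysize : |(y : ℝ)| + |(d : ℝ)| ≤ 257 * B := by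
      have h1 : 3 * (y : ℝ) + d = 2 ^ k * a := by exact_mod_cast hy
      have h2 : (3 : ℝ) * |(y : ℝ)| ≤ 2 ^ k * |(a : ℝ)| + |(d : ℝ)| := by
        have h3 : |3 * (y : ℝ)| = |2 ^ k * (a : ℝ) - d| := by
          congr 1
          linarith
        rw [abs_mul, abs_of_pos (by norm_num : (0 : ℝ) < 3)] at h3
        rw [h3]
        refine (abs_sub _ _).trans ?_
        rw [abs_mul, abs_of_pos (by positivity : (0 : ℝ) < 2 ^ k)]
      have h4 : (2 : ℝ) ^ k ≤ 256 * 16 ^ F.card := by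
        calc (2 : ℝ) ^ k ≤ 2 ^ (4 * F.card + 8) := pow_le_pow_right₀ (by norm_num) hk2
          _ = 256 * 16 ^ F.card := by rw [pow_add, pow_mul]; norm_num; ring
      have h16 : (1 : ℝ) ≤ 16 ^ F.card := one_le_pow₀ (by norm_num)
      have h5 : (2 : ℝ) ^ k * |(a : ℝ)| ≤ 256 * 16 ^ F.card * |(a : ℝ)| :=
        mul_le_mul_of_nonneg_right h4 (abs_nonneg _)
      have h6 := abs_nonneg (a : ℝ)
      have h7 : |(d : ℝ)| ≤ 16 ^ F.card * |(d : ℝ)| := by nlinarith
      have h8 : B = 16 ^ F.card * |(a : ℝ)| + 16 ^ F.card * |(d : ℝ)| := by rw [hB, hA]; ring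
      have h9 : 0 ≤ 16 ^ F.card * |(a : ℝ)| := by positivity
      rw [h8]
      linarith
    have hR1 : 0 < |(y : ℝ)| + |(d : ℝ)| := by
      have := abs_nonneg (y : ℝ)
      linarith
    have h6 := hmain d y hd h3 hy3 X (hysize.trans hbig)
    have h7 : Set.ncard {m : ℤ | |(m : ℝ)| ≤ X ∧ ∃ k : ℕ, (T d)^[k] m = y} ≤
        Set.ncard {m : ℤ | |(m : ℝ)| ≤ X ∧
          ∃ k : ℕ, (T d)^[k] m = a ∧ ∀ i ≤ k, (T d)^[i] m ∉ F} := by
      refine Set.ncard_le_ncard ?_ hfin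
      rintro m ⟨hm1, l, hl⟩
      refine ⟨hm1, k + l, ?_, ?_⟩
      · rw [Function.iterate_add_apply, hl]
        have := kid_iter hd hyodd (j := 0) (k := k) (by omega) hy
        simpa using this
      · intro i hi hiF
        rcases le_or_gt i l with hil | hil
        · refine hyF _ hiF ⟨l - i, ?_⟩
          rw [← Function.iterate_add_apply]
          have h8 : l - i + i = l := by omega
          rw [h8, hl]
        · have h8 : i = (k - (k - (i - l))) + l := by omega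
          rw [h8, Function.iterate_add_apply, hl, kid_iter hd hyodd (by omega) hy] at hiF
          exact hF _ hiF
    have h7' : (Set.ncard {m : ℤ | |(m : ℝ)| ≤ X ∧ ∃ k : ℕ, (T d)^[k] m = y} : ℝ) ≤
        (Set.ncard {m : ℤ | |(m : ℝ)| ≤ X ∧
          ∃ k : ℕ, (T d)^[k] m = a ∧ ∀ i ≤ k, (T d)^[i] m ∉ F} : ℝ) := by
      exact_mod_cast h7
    refine le_trans ?_ (h6.trans h7')
    set R : ℝ := |(y : ℝ)| + |(d : ℝ)| with hR
    have h8 : (X / B) ^ s ≤ (257 * (X / R)) ^ s := by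
      refine Real.rpow_le_rpow (by positivity) ?_ hs0.le
      rw [div_le_iff₀ hB0]
      have h9 : X = X / R * R := (div_mul_cancel₀ X hR1.ne').symm
      calc X = X / R * R := h9
        _ ≤ X / R * (257 * B) := mul_le_mul_of_nonneg_left hysize (by positivity)
        _ = _ := by ring
    rw [Real.mul_rpow (by norm_num) (by positivity)] at h8
    calc min (c / 257 ^ s) (1 / 257 ^ s) * (X / B) ^ s
        ≤ c / 257 ^ s * (X / B) ^ s :=
          mul_le_mul_of_nonneg_right (min_le_left _ _) hpow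
      _ ≤ c / 257 ^ s * (257 ^ s * (X / R) ^ s) :=
          mul_le_mul_of_nonneg_left h8 (by positivity)
      _ = c * (X / R) ^ s := by field_simp
  · have hone : (1 : ℝ) ≤
        (Set.ncard {m : ℤ | |(m : ℝ)| ≤ X ∧
          ∃ k : ℕ, (T d)^[k] m = a ∧ ∀ i ≤ k, (T d)^[i] m ∉ F} : ℝ) := by
      have h5 : 1 ≤ Set.ncard {m : ℤ | |(m : ℝ)| ≤ X ∧
          ∃ k : ℕ, (T d)^[k] m = a ∧ ∀ i ≤ k, (T d)^[i] m ∉ F} := by
        rw [Nat.one_le_iff_ne_zero]
        refine Set.ncard_ne_zero_of_mem (a := a) ⟨?_, 0, rfl, ?_⟩ hfin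
        · have := abs_nonneg (d : ℝ)
          linarith
        · intro i hi
          have h6 : i = 0 := by omega
          subst h6
          have := hF 0
          simpa using this
      exact_mod_cast h5
    refine le_trans ?_ hone
    have h8 : (X / B) ^ s ≤ 257 ^ s := by
      refine Real.rpow_le_rpow (by positivity) ?_ hs0.le
      rw [div_le_iff₀ hB0]
      exact hsmall.le
    calc min (c / 257 ^ s) (1 / 257 ^ s) * (X / B) ^ s
        ≤ 1 / 257 ^ s * (X / B) ^ s :=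
          mul_le_mul_of_nonneg_right (min_le_right _ _) hpow
      _ ≤ 1 / 257 ^ s * 257 ^ s := mul_le_mul_of_nonneg_left h8 (by positivity)
      _ = 1 := by field_simp

end Pool.Agent.Lib.MP_d0d59f_nt.GE
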