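import Pool.Agent.Lib.MP_d0d59f_nt.GE.H1b

/-! Row N3 (about 90 lines): the transition operator. -/

namespace Pool.Agent.Lib.MP_d0d59f_nt.GE

open Finset

/-- the end point of a valid word is prime to `3` -/
theorem n3_act_unit {α : List ℕ} {x : ℤ} (hv : valid α x) : ¬ (3 : ℤ) ∣ act α x := by
  induction α generalizing x with
  | nil => exact hv
  | cons a α ih => exact ih hv.2.2.2

/-- `Finset.sum_add_distrib`. -/
theorem PP_add (K : Ker) (f g : ℤ → ℝ) :
    PP K (fun x => f x + g x) = fun x => PP K f x + PP K g x := by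
  funext x
  rw [PP, PP, PP, ← sum_add_distrib]
  exact sum_congr rfl fun α _ => mul_add _ _ _

theorem PP_smul (K : Ker) (c : ℝ) (f : ℤ → ℝ) :
    PP K (fun x => c * f x) = fun x => c * PP K f x := by
  funext x
  rw [PP, PP, mul_sum]
  exact sum_congr rfl fun α _ => mul_left_comm _ _ _

/-- Induction on `t`, `Function.iterate_succ_apply'`, `PP_add`. -/
theorem iter_add (K : Ker) (t : ℕ) (f g : ℤ → ℝ) :
    (PP K)^[t] (fun x => f x + g x) = fun x => (PP K)^[t] f x + (PP K)^[t] g x := by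
  induction t with
  | zero => rfl
  | succ t ih => rw [Function.iterate_succ_apply', ih, PP_add, Function.iterate_succ_apply', Function.iterate_succ_apply']

theorem iter_smul (K : Ker) (t : ℕ) (c : ℝ) (f : ℤ → ℝ) :
    (PP K)^[t] (fun x => c * f x) = fun x => c * (PP K)^[t] f x := by
  induction t with
  | zero => rfl
  | succ t ih => rw [Function.iterate_succ_apply', ih, PP_smul, Function.iterate_succ_apply']

/-- `κ x α ≠ 0` implies `valid α x` (`K.supp`), hence `act α x` is a unit (`act_unit`). -/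
theorem PP_mono (K : Ker) {f g : ℤ → ℝ} (h : ∀ x : ℤ, ¬ (3 : ℤ) ∣ x → f x ≤ g x) (x : ℤ) :
    PP K f x ≤ PP K g x := by
  refine sum_le_sum fun α hα => ?_
  by_cases h0 : K.κ x α = 0
  · rw [h0, zero_mul, zero_mul]
  · exact mul_le_mul_of_nonneg_left (h _ (n3_act_unit (K.supp x α hα h0))) (K.nonneg x α)

theorem iter_mono (K : Ker) (t : ℕ) {f g : ℤ → ℝ} (h : ∀ x : ℤ, ¬ (3 : ℤ) ∣ x → f x ≤ g x)
    {x : ℤ} (hx : ¬ (3 : ℤ) ∣ x) : (PP K)^[t] f x ≤ (PP K)^[t] g x := by
  induction t generalizing x with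
  | zero => exact h x hx
  | succ t ih =>
    rw [Function.iterate_succ_apply', Function.iterate_succ_apply']
    exact PP_mono K (fun y hy => ih hy) x

/-- On units `PP K 1 = 1` (`K.sum_one`); induction on `t`, using that `κ x α ≠ 0` implies that `act α x` is
a unit. -/
theorem iter_const (K : Ker) (t : ℕ) (c : ℝ) {x : ℤ} (hx : ¬ (3 : ℤ) ∣ x) :
    (PP K)^[t] (fun _ => c) x = c := by
  induction t generalizing x with
  | zero => rfl
  | succ t ih =>
    rw [Function.iterate_succ_apply', PP]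
    have h1 : ∀ α ∈ K.B, K.κ x α * (PP K)^[t] (fun _ => c) (act α x) = K.κ x α * c := by
      intro α hα
      by_cases h0 : K.κ x α = 0
      · rw [h0, zero_mul, zero_mul]
      · rw [ih (n3_act_unit (K.supp x α hα h0))]
    rw [sum_congr rfl h1, ← sum_mul, K.sum_one x hx, one_mul]

/-- From `iter_mono` and `iter_const` applied to `-C ≤ f ≤ C`. -/
theorem iter_abs (K : Ker) (t : ℕ) {f : ℤ → ℝ} {C : ℝ} (h : ∀ x : ℤ, ¬ (3 : ℤ) ∣ x → |f x| ≤ C)
    {x : ℤ} (hx : ¬ (3 : ℤ) ∣ x) : |(PP K)^[t] f x| ≤ C := by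
  rw [abs_le]
  constructor
  · have h1 := iter_mono K t (f := fun _ => -C) (g := f) (fun y hy => (abs_le.1 (h y hy)).1) hx
    rwa [iter_const K t (-C) hx] at h1
  · have h1 := iter_mono K t (f := f) (g := fun _ => C) (fun y hy => (abs_le.1 (h y hy)).2) hx
    rwa [iter_const K t C hx] at h1

/-- `Finset.mul_sum`, `Finset.sum_comm`. -/
theorem PP_sum (K : Ker) (n : ℕ) (f : ℕ → ℤ → ℝ) (x : ℤ) :
    PP K (fun y => ∑ t ∈ range n, f t y) x = ∑ t ∈ range n, PP K (f t) x := by
  simp only [PP, mul_sum]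
  exact sum_comm

end Pool.Agent.Lib.MP_d0d59f_nt.GE
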