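import Pool.Agent.Lib.MP_d0d59f_nt.GE.N1Const
import Pool.Agent.Lib.MP_d0d59f_nt.GE.N3Pp

/-! Row N2 (about 90 lines): the weighted number `Z_J` of paths of `J` blocks. -/

namespace Pool.Agent.Lib.MP_d0d59f_nt.GE

open Finset

open Classical in
/-- `∑ wt(u)^s` over the paths `u` of `J` blocks valid at `x`. -/
noncomputable def ZZ (s : ℝ) (L M : ℕ) : ℕ → ℤ → ℝ
  | 0, _ => 1
  | J + 1, x => ∑ α ∈ blk L M, if valid α x then wt α ^ s * ZZ s L M J (act α x) else 0

/-- `r(x) = log N(x) + (1-s) * 0.07 * L`. -/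
noncomputable def rr (s : ℝ) (L M : ℕ) (x : ℤ) : ℝ :=
  Real.log (NN L M x) + (1 - s) * (7 / 100 * (L : ℝ))

/-- There is a valid block, since `NN L M x > 0` (`NN_ge`); induction on `J`, `bact_unit`. -/
theorem ZZ_pos (s : ℝ) {L M : ℕ} (hL : 2 ≤ L) (hM : 8 ≤ M) (J : ℕ) {x : ℤ}
    (hx : ¬ (3 : ℤ) ∣ x) : 0 < ZZ s L M J x := by
  classical
  induction J generalizing x with
  | zero => simp [ZZ]
  | succ J ih =>
    have hN : 0 < NN L M x := lt_of_lt_of_le (by positivity) (NN_ge hL hM hx)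
    have hex : ∃ α ∈ blk L M, valid α x := by
      by_contra hcon
      push Not at hcon
      have : NN L M x = 0 := by
        unfold NN
        refine Finset.sum_eq_zero fun α hα => ?_
        rw [if_neg (hcon α hα)]
      linarith
    obtain ⟨β, hβ, hv⟩ := hex
    rw [ZZ]
    refine Finset.sum_pos' (fun α _ => ?_) ⟨β, hβ, ?_⟩
    · split_ifs with h
      · exact mul_nonneg (Real.rpow_nonneg (wt_pos α).le _) (ih (bact_unit h)).le
      · exact le_rfl
    · rw [if_pos hv]
      exact mul_pos (Real.rpow_pos_of_pos (wt_pos β) _) (ih (bact_unit hv))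

/-- `valid_congr`, `bact_congr` (all `α ∈ blk L M` have length `L`, `mem_blk`); induction on `J`
generalizing `x y`. -/
theorem ZZ_congr (s : ℝ) {L M J : ℕ} {x y : ℤ} (h : x ≡ y [ZMOD 3 ^ (J * L + 1)]) :
    ZZ s L M J x = ZZ s L M J y := by
  classical
  induction J generalizing x y with
  | zero => simp [ZZ]
  | succ J ih =>
    rw [ZZ, ZZ]
    refine Finset.sum_congr rfl fun α hα => ?_
    have hlen := (mem_blk.1 hα).1
    have h1 : x ≡ y [ZMOD 3 ^ (α.length + 1)] := by
      refine h.of_dvd (pow_dvd_pow 3 ?_)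
      rw [hlen]
      nlinarith [Nat.zero_le (J * L)]
    by_cases hv : valid α x
    · rw [if_pos hv, if_pos ((valid_congr h1).1 hv)]
      congr 1
      refine ih (bact_congr hv (k := J * L + 1) ?_ (by omega))
      have e : α.length + (J * L + 1) = (J + 1) * L + 1 := by rw [hlen]; ring
      rw [e]
      exact h
    · rw [if_neg hv, if_neg (fun h2 => hv ((valid_congr h1).2 h2))]

/-- `|Z_J| ≤ (∑_{α ∈ blk L M} wt α ^ s)^J`, induction on `J`. -/
theorem ZZ_le (s : ℝ) (L M J : ℕ) (x : ℤ) :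
    ZZ s L M J x ≤ (∑ α ∈ blk L M, wt α ^ s) ^ J := by
  classical
  induction J generalizing x with
  | zero => simp [ZZ]
  | succ J ih =>
    rw [ZZ, pow_succ', Finset.sum_mul]
    refine Finset.sum_le_sum fun α _ => ?_
    have h0 : (0 : ℝ) ≤ wt α ^ s := Real.rpow_nonneg (wt_pos α).le _
    have h1 : (0 : ℝ) ≤ (∑ α ∈ blk L M, wt α ^ s) ^ J :=
      pow_nonneg (Finset.sum_nonneg fun β _ => Real.rpow_nonneg (wt_pos β).le _) _
    split_ifs with h
    · exact mul_le_mul_of_nonneg_left (ih _) h0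
    · exact mul_nonneg h0 h1

/-- Induction on `J` (generalizing `x`). `gibbs_step` with `g = ZZ s L M J` gives
`log Z_{J+1}(x) ≥ rr s L M x + ∑ κ(x,α) log Z_J(act α x)`, the last sum is at least
`∑ κ(x,α) ∑_{t<J} P^t rr (act α x) = ∑_{t<J} P^{t+1} rr (x)` (for `κ(x,α) ≠ 0` the node `act α x` is a unit),
`PP_sum`, `Function.iterate_succ_apply'`, `Finset.sum_range_succ'`. -/
theorem log_ZZ_ge {s : ℝ} (hs : s ≤ 1) {L M : ℕ} (hL : 2 ≤ L) (hM : 8 ≤ M) (J : ℕ) {x : ℤ}
    (hx : ¬ (3 : ℤ) ∣ x) :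
    ∑ t ∈ range J, (PP (natK L M hL hM))^[t] (rr s L M) x ≤ Real.log (ZZ s L M J x) := by
  classical
  induction J generalizing x with
  | zero => simp [ZZ]
  | succ J ih =>
    have hg := gibbs_step hL hM hs hx (ZZ s L M J) (fun y hy => ZZ_pos s hL hM J hy)
    rw [ZZ]
    refine le_trans ?_ hg
    rw [Finset.sum_range_succ', Function.iterate_zero_apply]
    have e1 : ∑ t ∈ range J, (PP (natK L M hL hM))^[t + 1] (rr s L M) x =
        PP (natK L M hL hM) (fun y => ∑ t ∈ range J, (PP (natK L M hL hM))^[t] (rr s L M) y) x := by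
      rw [PP_sum]
      refine Finset.sum_congr rfl fun t _ => ?_
      rw [Function.iterate_succ_apply']
    rw [e1, add_comm]
    have e2 : rr s L M x = Real.log (NN L M x) + (1 - s) * (7 / 100 * (L : ℝ)) := rfl
    rw [e2]
    refine add_le_add le_rfl ?_
    unfold PP
    have e3 : (natK L M hL hM).B = blk L M := rfl
    have e4 : (natK L M hL hM).κ = kp L M := rfl
    rw [e3, e4]
    refine Finset.sum_le_sum fun α hα => ?_
    rcases eq_or_ne (kp L M x α) 0 with h | h
    · rw [h, zero_mul, zero_mul]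
    · refine mul_le_mul_of_nonneg_left ?_ ((natK L M hL hM).nonneg x α)
      exact ih (bact_unit ((natK L M hL hM).supp x α hα h))

end Pool.Agent.Lib.MP_d0d59f_nt.GE
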