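import Mathlib

/-! Row N4 (about 40 lines): limits along the hyperfilter. -/

namespace Pool.Agent.Lib.MP_d0d59f_nt.GE

open Filter Topology

/-- Limit along the hyperfilter of `ℕ`. -/
noncomputable def ulim (a : ℕ → ℝ) : ℝ := limUnder (hyperfilter ℕ : Filter ℕ) a

/-- `[-C, C]` is compact: `isCompact_Icc.ultrafilter_le_nhds` applied to
`Ultrafilter.map a (hyperfilter ℕ)` gives a limit, then `tendsto_nhds_limUnder`. -/
theorem ulim_tendsto {a : ℕ → ℝ} {C : ℝ} (h : ∀ n, |a n| ≤ C) :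
    Tendsto a (hyperfilter ℕ : Filter ℕ) (𝓝 (ulim a)) := by
  have h1 : (Ultrafilter.map a (hyperfilter ℕ) : Filter ℝ) ≤ 𝓟 (Set.Icc (-C) C) := by
    rw [le_principal_iff, Ultrafilter.mem_coe, Ultrafilter.mem_map]
    exact Filter.Eventually.of_forall fun n => abs_le.1 (h n)
  obtain ⟨l, _, hl⟩ := isCompact_Icc.ultrafilter_le_nhds (Ultrafilter.map a (hyperfilter ℕ)) h1
  exact tendsto_nhds_limUnder ⟨l, hl⟩

/-- `hyperfilter_le_cofinite`, `Nat.cofinite_eq_atTop`; `Tendsto.limUnder_eq`. -/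
theorem ulim_of_tendsto {a : ℕ → ℝ} {l : ℝ} (h : Tendsto a atTop (𝓝 l)) : ulim a = l := by
  have h1 : Tendsto a (hyperfilter ℕ : Filter ℕ) (𝓝 l) := by
    refine h.mono_left ?_
    rw [← Nat.cofinite_eq_atTop]
    exact hyperfilter_le_cofinite
  exact h1.limUnder_eq

theorem ulim_add {a b : ℕ → ℝ} {C D : ℝ} (ha : ∀ n, |a n| ≤ C) (hb : ∀ n, |b n| ≤ D) :
    ulim (fun n => a n + b n) = ulim a + ulim b :=
  ((ulim_tendsto ha).add (ulim_tendsto hb)).limUnder_eq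

theorem ulim_smul (c : ℝ) {a : ℕ → ℝ} {C : ℝ} (ha : ∀ n, |a n| ≤ C) :
    ulim (fun n => c * a n) = c * ulim a :=
  ((ulim_tendsto ha).const_mul c).limUnder_eq

theorem ulim_mono {a b : ℕ → ℝ} {C D : ℝ} (ha : ∀ n, |a n| ≤ C) (hb : ∀ n, |b n| ≤ D)
    (h : ∀ n, a n ≤ b n) : ulim a ≤ ulim b :=
  le_of_tendsto_of_tendsto' (ulim_tendsto ha) (ulim_tendsto hb) h

end Pool.Agent.Lib.MP_d0d59f_nt.GE
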