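import Pool.Agent.Lib.MP_d0d59f_nt.GE.N3Pp
import Pool.Agent.Lib.MP_d0d59f_nt.GE.N4Ult

/-! Row N5 (about 110 lines): the mean attached to a sequence of starting points. -/

namespace Pool.Agent.Lib.MP_d0d59f_nt.GE

open Finset Filter Topology

/-- Cesàro mean of the distribution of the chain started at `x J`. -/
noncomputable def cav (K : Ker) (x : ℕ → ℤ) (f : ℤ → ℝ) (J : ℕ) : ℝ :=
  (∑ t ∈ range (J + 1), (PP K)^[t] f (x J)) / (J + 1)

/-- `iter_abs`. -/
theorem cav_abs (K : Ker) {x : ℕ → ℤ} (hx : ∀ J, ¬ (3 : ℤ) ∣ x J) {f : ℤ → ℝ} {C : ℝ}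
    (h : ∀ y, |f y| ≤ C) (J : ℕ) : |cav K x f J| ≤ C := by
  have hJ : (0 : ℝ) < J + 1 := by positivity
  rw [cav, abs_div, abs_of_pos hJ, div_le_iff₀ hJ]
  calc |∑ t ∈ range (J + 1), (PP K)^[t] f (x J)| ≤ ∑ t ∈ range (J + 1), |(PP K)^[t] f (x J)| :=
        abs_sum_le_sum_abs _ _
    _ ≤ ∑ _t ∈ range (J + 1), C := sum_le_sum fun t _ => iter_abs K t (fun y _ => h y) (hx J)
    _ = C * (J + 1) := by
      rw [sum_const, card_range, nsmul_eq_mul]
      push_cast
      ring

/-- `∑_{t ≤ J} P^t (P f) - ∑_{t ≤ J} P^t f = P^{J+1} f - f` at `x J`, absolute value at most `2 C`.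
(`Function.iterate_succ_apply`, `Finset.sum_range_succ`, `Finset.sum_range_succ'`.) -/
theorem cav_inv (K : Ker) {x : ℕ → ℤ} (hx : ∀ J, ¬ (3 : ℤ) ∣ x J) {f : ℤ → ℝ} {C : ℝ}
    (h : ∀ y, |f y| ≤ C) (J : ℕ) : |cav K x (PP K f) J - cav K x f J| ≤ 2 * C / (J + 1) := by
  have hJ : (0 : ℝ) < J + 1 := by positivity
  have h1 : cav K x (PP K f) J - cav K x f J
      = ((PP K)^[J + 1] f (x J) - (PP K)^[0] f (x J)) / (J + 1) := by
    rw [cav, cav, ← sub_div, ← sum_sub_distrib]
    congr 1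
    rw [← sum_range_sub (fun t => (PP K)^[t] f (x J)) (J + 1)]
    refine sum_congr rfl fun t _ => ?_
    rw [Function.iterate_succ_apply]
  rw [h1, abs_div, abs_of_pos hJ]
  refine div_le_div_of_nonneg_right ?_ hJ.le
  have h2 := iter_abs K (J + 1) (fun y _ => h y) (hx J)
  have h3 := iter_abs K 0 (fun y _ => h y) (hx J)
  calc |(PP K)^[J + 1] f (x J) - (PP K)^[0] f (x J)|
      ≤ |(PP K)^[J + 1] f (x J)| + |(PP K)^[0] f (x J)| := abs_sub _ _
    _ ≤ 2 * C := by linarith

theorem n5_add (K : Ker) (x : ℕ → ℤ) (f g : ℤ → ℝ) :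
    cav K x (fun y => f y + g y) = fun J => cav K x f J + cav K x g J := by
  funext J
  simp only [cav, iter_add]
  rw [sum_add_distrib, add_div]

theorem n5_smul (K : Ker) (x : ℕ → ℤ) (c : ℝ) (f : ℤ → ℝ) :
    cav K x (fun y => c * f y) = fun J => c * cav K x f J := by
  funext J
  simp only [cav, iter_smul]
  rw [← mul_sum, mul_div_assoc]

/-- `Θ f = ulim (cav K x f)`. add, smul: `iter_add`, `iter_smul`, `ulim_add`, `ulim_smul`; mono: `iter_mono`;
one: `iter_const`; inv: `cav_inv`, `PP_bdd`: the difference tends to `0`. -/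
noncomputable def cmean (K : Ker) (x : ℕ → ℤ) (hx : ∀ J, ¬ (3 : ℤ) ∣ x J) : Mean K where
  Θ f := ulim (cav K x f)
  add := by
    intro f g hf hg
    obtain ⟨C, hC⟩ := hf
    obtain ⟨D, hD⟩ := hg
    rw [n5_add]
    exact ulim_add (cav_abs K hx hC) (cav_abs K hx hD)
  smul := by
    intro c f hf
    obtain ⟨C, hC⟩ := hf
    rw [n5_smul]
    exact ulim_smul c (cav_abs K hx hC)
  mono := by
    intro f g hf hg h
    obtain ⟨C, hC⟩ := hf
    obtain ⟨D, hD⟩ := hg
    refine ulim_mono (cav_abs K hx hC) (cav_abs K hx hD) fun J => ?_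
    have hJ : (0 : ℝ) ≤ J + 1 := by positivity
    exact div_le_div_of_nonneg_right (sum_le_sum fun t _ => iter_mono K t h (hx J)) hJ
  one := by
    refine ulim_of_tendsto ?_
    have h1 : cav K x (fun _ => (1 : ℝ)) = fun _ => (1 : ℝ) := by
      funext J
      have hJ : (J : ℝ) + 1 ≠ 0 := by positivity
      rw [cav, sum_congr rfl fun t _ => iter_const K t 1 (hx J), sum_const, card_range, nsmul_eq_mul]
      push_cast
      rw [mul_one, div_self hJ]
    rw [h1]
    exact tendsto_const_nhds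
  inv := by
    intro f hf
    obtain ⟨D, hD⟩ := PP_bdd K hf
    obtain ⟨C, hC⟩ := hf
    have h1 : ulim (fun J => cav K x (PP K f) J + (-1) * cav K x f J) = 0 := by
      refine ulim_of_tendsto ?_
      rw [tendsto_zero_iff_abs_tendsto_zero]
      have h2 : Tendsto (fun J : ℕ => 2 * C / ((J : ℝ) + 1)) atTop (𝓝 0) :=
        tendsto_const_div_atTop_nhds_zero_nat (2 * C) |>.comp (tendsto_add_atTop_nat 1) |>.congr fun J => by
          simp only [Function.comp]
          push_cast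
          rfl
      refine squeeze_zero (fun J => abs_nonneg _) (fun J => ?_) h2
      have h3 := cav_inv K hx hC J
      have h4 : cav K x (PP K f) J + (-1) * cav K x f J = cav K x (PP K f) J - cav K x f J := by ring
      simp only [Function.comp, h4]
      exact h3
    have h5 : ∀ J, |(-1) * cav K x f J| ≤ C := fun J => by
      rw [abs_mul, abs_neg, abs_one, one_mul]
      exact cav_abs K hx hC J
    rw [ulim_add (cav_abs K hx hD) h5, ulim_smul (-1) (cav_abs K hx hC)] at h1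
    change ulim (cav K x (PP K f)) = ulim (cav K x f)
    have h6 : ulim (cav K x (PP K f)) + -1 * ulim (cav K x f) = 0 := h1
    linarith

/-- `ulim_mono` against the zero sequence. -/
theorem cmean_nonpos (K : Ker) (x : ℕ → ℤ) (hx : ∀ J, ¬ (3 : ℤ) ∣ x J) {f : ℤ → ℝ} (hf : Bdd f)
    (h : ∀ J, ∑ t ∈ range (J + 1), (PP K)^[t] f (x J) ≤ 0) : (cmean K x hx).Θ f ≤ 0 := by
  obtain ⟨C, hC⟩ := hf
  change ulim (cav K x f) ≤ 0
  have h1 : ulim (fun _ => (0 : ℝ)) = 0 := ulim_of_tendsto tendsto_const_nhds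
  rw [← h1]
  refine ulim_mono (cav_abs K hx hC) (D := 0) (fun _ => by simp) fun J => ?_
  exact div_nonpos_of_nonpos_of_nonneg (h J) (by positivity)

end Pool.Agent.Lib.MP_d0d59f_nt.GE
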