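import Pool.Agent.Lib.MP_d0d59f_nt.GE.H1c
import Pool.Agent.Lib.MP_d0d59f_nt.GE.E4c

/-! Row ge_S8: the end point is nearly uniform given its class modulo `3`. -/

namespace Pool.Agent.Lib.MP_d0d59f_nt.GE

open Finset Filter Topology

variable {K : Ker}

theorem s8_split (m : ℕ) (g : ℕ → ℝ) :
    ∑ n ∈ range (3 * m), g n = ∑ i ∈ range m, (g (3 * i) + g (3 * i + 1) + g (3 * i + 2)) := by
  induction m with
  | zero => simp
  | succ m ih =>
    rw [show 3 * (m + 1) = 3 * m + 1 + 1 + 1 by ring, sum_range_succ, sum_range_succ,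
      sum_range_succ, ih, sum_range_succ]
    ring

theorem s8_zmod (M : ℕ) [NeZero M] (G : ℕ → ℝ) :
    ∑ x : ZMod M, G x.val = ∑ n ∈ range M, G n := by
  refine Finset.sum_bij (fun x _ => x.val) ?_ ?_ ?_ ?_
  · intro x _
    exact mem_range.2 (ZMod.val_lt x)
  · intro x _ y _ h
    exact ZMod.val_injective M h
  · intro n hn
    exact ⟨(n : ZMod M), mem_univ _, ZMod.val_natCast_of_lt (mem_range.1 hn)⟩
  · intro x _
    rfl

theorem s8_cast (i j : ℕ) : ((3 * i + j : ℕ) : ZMod (3 ^ 1)) = (j : ZMod (3 ^ 1)) := by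
  have h3 : ((3 : ℕ) : ZMod (3 ^ 1)) = 0 := by
    have := ZMod.natCast_self (3 ^ 1)
    simpa using this
  push_cast
  have h3' : (3 : ZMod (3 ^ 1)) = 0 := by exact_mod_cast h3
  rw [h3']
  ring

theorem s8_mass_zero {N : ℕ} {b : ℤ} (hb : ¬ (3 : ℤ) ∣ b) :
    mass (wn K.B N) (fun u => prb K.κ u b) (fun u => ((run u b : ℤ) : ZMod (3 ^ 1))) 0 = 0 := by
  apply mass_eq_zero
  intro u hu hp h
  apply run_unit hu hb hp
  have h1 := (ZMod.intCast_zmod_eq_zero_iff_dvd (run u b) (3 ^ 1)).1 h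
  simpa using h1

theorem s8_mass {N : ℕ} {b : ℤ} (c : ℕ) (hc : c < 3) :
    mass (wn K.B N) (fun u => prb K.κ u b) (fun u => ((run u b : ℤ) : ZMod (3 ^ 1)))
      (c : ZMod (3 ^ 1)) = PN K N (fun x => if x % 3 = (c : ℤ) then 1 else 0) b := by
  classical
  unfold mass PN
  refine Finset.sum_congr rfl fun u _ => ?_
  have hiff : (((run u b : ℤ) : ZMod (3 ^ 1)) = (c : ZMod (3 ^ 1))) ↔ run u b % 3 = (c : ℤ) := by
    have h1 : (c : ZMod (3 ^ 1)) = ((c : ℤ) : ZMod (3 ^ 1)) := by push_cast; rfl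
    rw [h1, ZMod.intCast_eq_intCast_iff]
    unfold Int.ModEq
    have h2 : (((3 ^ 1 : ℕ) : ℤ)) = 3 := by norm_num
    rw [h2]
    have h3 : (c : ℤ) % 3 = c := by omega
    rw [h3]
  by_cases h : run u b % 3 = (c : ℤ)
  · rw [if_pos (hiff.2 h)]
    show prb K.κ u b = prb K.κ u b * (if run u b % 3 = (c : ℤ) then (1 : ℝ) else 0)
    rw [if_pos h, mul_one]
  · rw [if_neg (fun h' => h (hiff.1 h'))]
    show (0 : ℝ) = prb K.κ u b * (if run u b % 3 = (c : ℤ) then (1 : ℝ) else 0)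
    rw [if_neg h, mul_zero]

/-- Pointwise: for a unit `b`, `f` of period `3^(k+1)`, `|f| ≤ C`:
`|PN N f b - ∑_{c=1,2} PN N 1_c b * avg_c f| ≤ 2 C √(k log 3 - (hh N b (k+1) - hh N b 1))`.
`l1_unif` for `X u = run u b`; `PN N f b = ∑_x mass(x) f(x)` (`sum_fiber`), `PN N 1_c b = mass (X mod 3 = c)`, the class
`0` has mass `0`, and `∑_{x ≡ c} f x / 3^k = avg k c f`. -/
theorem PN_near {N : ℕ} {b : ℤ} (hb : ¬ (3 : ℤ) ∣ b) (k : ℕ) {f : ℤ → ℝ}
    (hf : ∀ x y : ℤ, x ≡ y [ZMOD 3 ^ (k + 1)] → f x = f y) {C : ℝ} (hC : ∀ x, |f x| ≤ C) :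
    |PN K N f b - (PN K N (fun x => if x % 3 = 1 then 1 else 0) b * avg k 1 f +
        PN K N (fun x => if x % 3 = 2 then 1 else 0) b * avg k 2 f)| ≤
      2 * C * √((k : ℝ) * Real.log 3 - (hh K N b (k + 1) - hh K N b 1)) := by
  have hprob := isProb_wn K N hb
  have hC0 : 0 ≤ C := (abs_nonneg _).trans (hC 0)
  have hne : NeZero (3 ^ (k + 1)) := ⟨by positivity⟩
  set Ω := wn K.B N with hΩ
  set p : List (List ℕ) → ℝ := fun u => prb K.κ u b with hp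
  set mk : ZMod (3 ^ (k + 1)) → ℝ :=
    mass Ω p (fun u => ((run u b : ℤ) : ZMod (3 ^ (k + 1)))) with hmk
  set m1 : ZMod (3 ^ 1) → ℝ := mass Ω p (fun u => ((run u b : ℤ) : ZMod (3 ^ 1))) with hm1
  have hl1 := l1_unif hprob (fun u => run u b) k
  -- the expectation of `f`
  have hE : PN K N f b = ∑ x : ZMod (3 ^ (k + 1)), mk x * f (x.val : ℕ) := by
    rw [hmk, ← sum_fiber Ω p (fun u => ((run u b : ℤ) : ZMod (3 ^ (k + 1))))
      (fun x => f (x.val : ℕ))]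
    unfold PN
    refine Finset.sum_congr rfl fun u _ => ?_
    have h1 : f (run u b) = f ((((run u b : ℤ) : ZMod (3 ^ (k + 1))).val : ℕ) : ℤ) := by
      apply hf
      have h2 : (((run u b : ℤ) : ZMod (3 ^ (k + 1)))) =
          (((((run u b : ℤ) : ZMod (3 ^ (k + 1))).val : ℕ) : ℤ) : ZMod (3 ^ (k + 1))) := by
        rw [Int.cast_natCast, ZMod.natCast_zmod_val]
      have h3 := (ZMod.intCast_eq_intCast_iff _ _ _).1 h2
      have h4 : (((3 ^ (k + 1) : ℕ) : ℤ)) = 3 ^ (k + 1) := by push_cast; rfl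
      rw [h4] at h3
      exact h3
    rw [h1]
  -- the uniform part
  have hU : PN K N (fun x => if x % 3 = 1 then 1 else 0) b * avg k 1 f +
      PN K N (fun x => if x % 3 = 2 then 1 else 0) b * avg k 2 f =
      ∑ x : ZMod (3 ^ (k + 1)), m1 ((x.val : ℕ) : ZMod (3 ^ 1)) / 3 ^ k * f (x.val : ℕ) := by
    rw [s8_zmod (3 ^ (k + 1)) (fun n => m1 ((n : ℕ) : ZMod (3 ^ 1)) / 3 ^ k * f (n : ℕ)),
      show 3 ^ (k + 1) = 3 * 3 ^ k by ring, s8_split]
    have h0 : m1 ((0 : ℕ) : ZMod (3 ^ 1)) = 0 := by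
      rw [Nat.cast_zero]
      exact s8_mass_zero hb
    have h1 : m1 ((1 : ℕ) : ZMod (3 ^ 1)) = PN K N (fun x => if x % 3 = 1 then 1 else 0) b := by
      have := s8_mass (K := K) (N := N) (b := b) 1 (by norm_num)
      simpa using this
    have h2 : m1 ((2 : ℕ) : ZMod (3 ^ 1)) = PN K N (fun x => if x % 3 = 2 then 1 else 0) b := by
      have := s8_mass (K := K) (N := N) (b := b) 2 (by norm_num)
      simpa using this
    rw [← h1, ← h2]
    unfold avg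
    rw [mul_div_assoc', mul_div_assoc', Finset.mul_sum, Finset.mul_sum, ← add_div,
      ← Finset.sum_add_distrib, Finset.sum_div]
    refine Finset.sum_congr rfl fun i _ => ?_
    have e0 : ((3 * i : ℕ) : ZMod (3 ^ 1)) = ((0 : ℕ) : ZMod (3 ^ 1)) := s8_cast i 0
    have e1 : ((3 * i + 1 : ℕ) : ZMod (3 ^ 1)) = ((1 : ℕ) : ZMod (3 ^ 1)) := s8_cast i 1
    have e2 : ((3 * i + 2 : ℕ) : ZMod (3 ^ 1)) = ((2 : ℕ) : ZMod (3 ^ 1)) := s8_cast i 2
    rw [e0, e1, e2, h0]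
    have c1 : (((3 * i + 1 : ℕ)) : ℤ) = 1 + 3 * (i : ℤ) := by push_cast; ring
    have c2 : (((3 * i + 2 : ℕ)) : ℤ) = 2 + 3 * (i : ℤ) := by push_cast; ring
    rw [c1, c2]
    ring
  rw [hE, hU, ← Finset.sum_sub_distrib]
  calc |∑ x : ZMod (3 ^ (k + 1)), (mk x * f (x.val : ℕ) -
        m1 ((x.val : ℕ) : ZMod (3 ^ 1)) / 3 ^ k * f (x.val : ℕ))|
      ≤ ∑ x : ZMod (3 ^ (k + 1)), |mk x * f (x.val : ℕ) -
        m1 ((x.val : ℕ) : ZMod (3 ^ 1)) / 3 ^ k * f (x.val : ℕ)| := abs_sum_le_sum_abs _ _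
    _ ≤ ∑ x : ZMod (3 ^ (k + 1)), |mk x - m1 ((x.val : ℕ) : ZMod (3 ^ 1)) / 3 ^ k| * C := by
        refine Finset.sum_le_sum fun x _ => ?_
        rw [← sub_mul, abs_mul]
        exact mul_le_mul_of_nonneg_left (hC _) (abs_nonneg _)
    _ = (∑ x : ZMod (3 ^ (k + 1)), |mk x - m1 ((x.val : ℕ) : ZMod (3 ^ 1)) / 3 ^ k|) * C := by
        rw [Finset.sum_mul]
    _ ≤ (2 * √((k : ℝ) * Real.log 3 - (hh K N b (k + 1) - hh K N b 1))) * C :=
        mul_le_mul_of_nonneg_right hl1 hC0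
    _ = 2 * C * √((k : ℝ) * Real.log 3 - (hh K N b (k + 1) - hh K N b 1)) := by ring

end Pool.Agent.Lib.MP_d0d59f_nt.GE
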