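import Pool.Agent.Lib.MP_d0d59f_nt.GE.S5b
import Pool.Agent.Lib.MP_d0d59f_nt.GE.S8

/-! Row ge_S9: Theorem E. -/

namespace Pool.Agent.Lib.MP_d0d59f_nt.GE

open Finset Filter Topology

variable {K : Ker}

/-- `Θ(k log 3 - (hh N (k+1) - hh N 1)) → 0`: `dl_eq` for `j = 1..k` and `tendsto_eN`. -/
theorem defect_tendsto (m : Mean K) (k : ℕ) :
    Tendsto (fun N => m.Θ (fun b => (k : ℝ) * Real.log 3 - (hh K N b (k + 1) - hh K N b 1)))
      atTop (𝓝 0) := by
  have h1 : ∀ N, m.Θ (fun b => (k : ℝ) * Real.log 3 - (hh K N b (k + 1) - hh K N b 1)) =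
      (k : ℝ) * Real.log 3 - (eN m N (k + 1) - eN m N 1) := by
    intro N
    rw [m.sub (Bdd.const _) (Bdd.sub (hh_bdd K N (k + 1)) (hh_bdd K N 1)), m.const,
      m.sub (hh_bdd K N (k + 1)) (hh_bdd K N 1)]
    rfl
  simp_rw [h1]
  have h2 : ∀ k : ℕ, eL m (k + 1) - eL m 1 = (k : ℝ) * Real.log 3 := by
    intro k
    induction k with
    | zero => simp
    | succ k ih =>
      have h3 := dl_eq m (j := k + 1) (by omega)
      unfold dl at h3
      push_cast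
      linarith
  have h3 : Tendsto (fun N => (k : ℝ) * Real.log 3 - (eN m N (k + 1) - eN m N 1)) atTop
      (𝓝 ((k : ℝ) * Real.log 3 - (eL m (k + 1) - eL m 1))) :=
    tendsto_const_nhds.sub ((tendsto_eN m (k + 1)).sub (tendsto_eN m 1))
  rw [h2 k, sub_self] at h3
  exact h3

theorem bdd_of_periodic {k : ℕ} {f : ℤ → ℝ}
    (hf : ∀ x y : ℤ, x ≡ y [ZMOD 3 ^ k] → f x = f y) : Bdd f := by
  refine ⟨∑ i ∈ Finset.range (3 ^ k), |f (i : ℤ)|, fun x => ?_⟩
  have hpos : (0 : ℤ) < 3 ^ k := by positivity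
  have h1 : x ≡ x % 3 ^ k [ZMOD 3 ^ k] := (Int.mod_modEq x _).symm
  have h2 : 0 ≤ x % 3 ^ k := Int.emod_nonneg x hpos.ne'
  have h3 : x % 3 ^ k < 3 ^ k := Int.emod_lt_of_pos x hpos
  obtain ⟨i, hi⟩ := Int.eq_ofNat_of_zero_le h2
  rw [hf x _ h1, hi]
  have h4 : i < 3 ^ k := by
    rw [hi] at h3
    exact_mod_cast h3
  exact Finset.single_le_sum (f := fun i : ℕ => |f (i : ℤ)|) (fun j _ => abs_nonneg _)
    (Finset.mem_range.mpr h4)

/-- `√t ≤ δ + t/δ`. -/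
theorem s9_sqrt {t δ : ℝ} (ht : 0 ≤ t) (hδ : 0 < δ) : √t ≤ δ + t / δ := by
  rw [Real.sqrt_le_iff]
  constructor
  · positivity
  · have h1 : 0 ≤ t / δ := by positivity
    have h2 : δ * (t / δ) = t := by field_simp
    nlinarith [sq_nonneg (t / δ), sq_nonneg δ]

theorem s9_defect_nonneg (K : Ker) (N k : ℕ) (b : ℤ) :
    0 ≤ (k : ℝ) * Real.log 3 - (hh K N b (k + 1) - hh K N b 1) := by
  induction k with
  | zero => simp
  | succ k ih =>
    have h3 := dg_le K N b (k + 1)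
    unfold dg at h3
    push_cast
    linarith

/-- THEOREM E. Apply `Θ` to `PN_near` (`Θ (PN N f) = Θ f`), with `√t ≤ δ + t/δ` (`t ≥ 0`, `δ > 0`):
`|Θ f - ∑_c Θ(1_c) avg_c f| ≤ 2 C (δ + Θ(defect)/δ)`; `N → ∞` (`defect_tendsto`), `δ → 0`. -/
theorem theoremE (m : Mean K) (k : ℕ) (f : ℤ → ℝ)
    (hf : ∀ x y : ℤ, x ≡ y [ZMOD 3 ^ (k + 1)] → f x = f y) :
    m.Θ f = m.Θ (fun x => if x % 3 = 1 then 1 else 0) * avg k 1 f +
      m.Θ (fun x => if x % 3 = 2 then 1 else 0) * avg k 2 f := by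
  obtain ⟨C, hC⟩ := bdd_of_periodic hf
  have hC0 : 0 ≤ C := (abs_nonneg _).trans (hC 0)
  have hfb : Bdd f := ⟨C, hC⟩
  have hb : ∀ c : ℤ, Bdd (fun x : ℤ => if x % 3 = c then (1 : ℝ) else 0) := by
    intro c
    refine ⟨1, fun x => ?_⟩
    dsimp only
    split_ifs <;> simp
  set I1 : ℤ → ℝ := fun x => if x % 3 = 1 then 1 else 0 with hI1
  set I2 : ℤ → ℝ := fun x => if x % 3 = 2 then 1 else 0 with hI2
  have hb1 : Bdd I1 := hb 1
  have hb2 : Bdd I2 := hb 2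
  set Q : ℝ := m.Θ I1 * avg k 1 f + m.Θ I2 * avg k 2 f with hQ
  set df : ℕ → ℤ → ℝ := fun N b => (k : ℝ) * Real.log 3 - (hh K N b (k + 1) - hh K N b 1)
    with hdf
  have hdfb : ∀ N, Bdd (df N) := fun N =>
    Bdd.sub (Bdd.const _) (Bdd.sub (hh_bdd K N (k + 1)) (hh_bdd K N 1))
  -- the bound for every `N` and `δ`
  have key : ∀ N : ℕ, ∀ δ : ℝ, 0 < δ → |m.Θ f - Q| ≤ 2 * C * (δ + m.Θ (df N) / δ) := by
    intro N δ hδ
    set A : ℤ → ℝ := fun b => PN K N I1 b * avg k 1 f + PN K N I2 b * avg k 2 f with hA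
    have hp1 : Bdd (PN K N I1) := PN_bdd K N hb1
    have hp2 : Bdd (PN K N I2) := PN_bdd K N hb2
    have hA1 : Bdd (fun b => PN K N I1 b * avg k 1 f) := Bdd.mul hp1 (Bdd.const _)
    have hA2 : Bdd (fun b => PN K N I2 b * avg k 2 f) := Bdd.mul hp2 (Bdd.const _)
    have hAb : Bdd A := Bdd.add hA1 hA2
    have hΘA : m.Θ A = Q := by
      rw [hA, m.add _ _ hA1 hA2, hQ]
      have e1 : (fun b => PN K N I1 b * avg k 1 f) = fun b => avg k 1 f * PN K N I1 b := by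
        funext b
        ring
      have e2 : (fun b => PN K N I2 b * avg k 2 f) = fun b => avg k 2 f * PN K N I2 b := by
        funext b
        ring
      rw [e1, e2, m.smul _ _ hp1, m.smul _ _ hp2, m.inv_PN hb1, m.inv_PN hb2]
      ring
    have hΘf : m.Θ (PN K N f) = m.Θ f := m.inv_PN hfb N
    have hPf : Bdd (PN K N f) := PN_bdd K N hfb
    have hdiff : m.Θ f - Q = m.Θ (fun b => PN K N f b - A b) := by
      rw [m.sub hPf hAb, hΘf, hΘA]
    have hR : Bdd (fun b => 2 * C * (δ + δ⁻¹ * df N b)) :=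
      Bdd.smul _ (Bdd.add (Bdd.const δ) (Bdd.smul _ (hdfb N)))
    have hΘR : m.Θ (fun b => 2 * C * (δ + δ⁻¹ * df N b)) = 2 * C * (δ + m.Θ (df N) / δ) := by
      rw [m.smul _ _ (Bdd.add (Bdd.const δ) (Bdd.smul _ (hdfb N))),
        m.add _ _ (Bdd.const δ) (Bdd.smul _ (hdfb N)), m.const, m.smul _ _ (hdfb N)]
      ring
    have hpt : ∀ b : ℤ, ¬ (3 : ℤ) ∣ b → |PN K N f b - A b| ≤ 2 * C * (δ + δ⁻¹ * df N b) := by
      intro b hb3
      have h5 := PN_near (K := K) (N := N) hb3 k hf hC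
      have h6 := s9_sqrt (s9_defect_nonneg K N k b) hδ
      refine h5.trans ?_
      refine mul_le_mul_of_nonneg_left ?_ (by positivity)
      refine h6.trans (le_of_eq ?_)
      rw [hdf]
      ring
    have hS : Bdd (fun b => PN K N f b - A b) := Bdd.sub hPf hAb
    rw [hdiff, abs_le, ← hΘR]
    constructor
    · have h7 := m.mono (fun b => (-1) * (2 * C * (δ + δ⁻¹ * df N b)))
        (fun b => PN K N f b - A b) (Bdd.smul _ hR) hS (fun b hb3 => by
          have := (abs_le.mp (hpt b hb3)).1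
          linarith)
      rw [m.smul _ _ hR] at h7
      linarith
    · exact m.mono _ _ hS hR fun b hb3 => (abs_le.mp (hpt b hb3)).2
  -- `N → ∞`
  have key2 : ∀ δ : ℝ, 0 < δ → |m.Θ f - Q| ≤ 2 * C * δ := by
    intro δ hδ
    have h8 : Tendsto (fun N => 2 * C * (δ + m.Θ (df N) / δ)) atTop
        (𝓝 (2 * C * (δ + 0 / δ))) :=
      ((defect_tendsto m k).div_const δ |>.const_add δ).const_mul (2 * C)
    rw [zero_div, add_zero] at h8
    exact ge_of_tendsto' h8 fun N => key N δ hδ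
  have key3 : |m.Θ f - Q| ≤ 0 := by
    refine le_of_forall_pos_le_add fun ε hε => ?_
    rw [zero_add]
    refine (key2 (ε / (2 * C + 1)) (by positivity)).trans ?_
    rw [mul_div_assoc', div_le_iff₀ (by positivity)]
    nlinarith
  have := abs_nonpos_iff.mp key3
  linarith

end Pool.Agent.Lib.MP_d0d59f_nt.GE
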