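import Pool.Agent.Lib.MP_d0d59f_nt.GE.T8
import Pool.Agent.Lib.MP_d0d59f_nt.GE.A2

/-! Row ge_T9: typical growth of `NN L M`. -/

namespace Pool.Agent.Lib.MP_d0d59f_nt.GE

open Finset Filter Topology

theorem t9_log : -(5 : ℝ) ≤ Real.log (3 / 256) := by
  have h1 : Real.log (3 / 256 : ℝ) = -Real.log (256 / 3) := by
    rw [← Real.log_inv]
    norm_num
  have h2 : Real.log (256 / 3 : ℝ) ≤ 5 := by
    have h3 : (256 / 3 : ℝ) ≤ Real.exp 5 := by
      have h4 : (2.7 : ℝ) < Real.exp 1 := lt_trans (by norm_num) Real.exp_one_gt_d9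
      have h5 : Real.exp 5 = Real.exp 1 ^ 5 := by rw [← Real.exp_nat_mul]; norm_num
      rw [h5]
      calc (256 / 3 : ℝ) ≤ 2.7 ^ 5 := by norm_num
        _ ≤ Real.exp 1 ^ 5 := pow_le_pow_left₀ (by norm_num) h4.le 5
    exact (Real.log_le_iff_le_exp (by norm_num)).mpr h3
  linarith

/-- The average of `log NN` from the bound of the exceptional set. -/
theorem t9_avg {c : ℤ} (hc : c = 1 ∨ c = 2) {ε δ : ℝ} {L M : ℕ} (hL : 2 ≤ L) (hM : 8 ≤ M)
    (hδ : 0 < δ) (hδ1 : δ ≤ 1)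
    (hcard : (((range (3 ^ L)).filter fun i : ℕ => NN L M (c + 3 * (i : ℤ)) ≤ δ).card : ℝ) ≤
      ε * 3 ^ L) :
    Real.log δ - 5 * L * ε ≤ avg L c (fun x => Real.log (NN L M x)) := by
  have hlogδ : Real.log δ ≤ 0 := Real.log_nonpos hδ.le hδ1
  have hpt : ∀ i ∈ range (3 ^ L), Real.log δ - (if NN L M (c + 3 * (i : ℤ)) ≤ δ then 5 * (L : ℝ) else 0)
      ≤ Real.log (NN L M (c + 3 * (i : ℤ))) := by
    intro i _
    have hu : ¬ (3 : ℤ) ∣ c + 3 * (i : ℤ) := by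
      rcases hc with rfl | rfl <;> omega
    have h1 := NN_ge hL hM hu
    have h2 : (0 : ℝ) < (3 / 256 : ℝ) ^ L := by positivity
    split_ifs with h
    · have h3 : Real.log ((3 / 256 : ℝ) ^ L) ≤ Real.log (NN L M (c + 3 * (i : ℤ))) :=
        Real.log_le_log h2 h1
      rw [Real.log_pow] at h3
      have h4 : (L : ℝ) * -5 ≤ L * Real.log (3 / 256) :=
        mul_le_mul_of_nonneg_left t9_log (Nat.cast_nonneg _)
      linarith
    · push Not at h
      have h3 := Real.log_le_log hδ h.le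
      linarith
  have hsum := Finset.sum_le_sum hpt
  rw [Finset.sum_sub_distrib, Finset.sum_const, Finset.card_range, nsmul_eq_mul,
    ← Finset.sum_filter, Finset.sum_const, nsmul_eq_mul] at hsum
  unfold avg
  have h3 : (0 : ℝ) < 3 ^ L := by positivity
  rw [le_div_iff₀ h3]
  have h5 : (((range (3 ^ L)).filter fun i : ℕ => NN L M (c + 3 * (i : ℤ)) ≤ δ).card : ℝ) *
      (5 * (L : ℝ)) ≤ ε * 3 ^ L * (5 * (L : ℝ)) :=
    mul_le_mul_of_nonneg_right hcard (by positivity)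
  push_cast at hsum
  nlinarith

/-- TYPICAL GROWTH. `NN ≥ (3/256)^L` always (`NN_ge`), so `log NN ≥ log δ - 5 L 1_{NN ≤ δ}` if `δ ≤ 1` (`log (256/3) ≤ 5`), hence
`avg_c log NN ≥ log δ - 5 L (ε/10)`; `L` large: `log δ ≥ -ε L/2`. (Apply `NN_low` with `ε/10` for `c = 1` and `c = 2` and take the
minimum of the two `δ`.) -/
theorem typical (ε : ℝ) (hε : 0 < ε) : ∃ L M : ℕ, 2 ≤ L ∧ 8 ≤ M ∧
    ∀ c : ℤ, (c = 1 ∨ c = 2) → -(ε * L) ≤ avg L c (fun x => Real.log (NN L M x)) := by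
  obtain ⟨δ1, hδ1, L1, h1⟩ := NN_low (c := 1) (Or.inl rfl) (ε := ε / 10) (by positivity)
  obtain ⟨δ2, hδ2, L2, h2⟩ := NN_low (c := 2) (Or.inr rfl) (ε := ε / 10) (by positivity)
  set δ : ℝ := min (min δ1 δ2) 1 with hδdef
  have hδ : 0 < δ := lt_min (lt_min hδ1 hδ2) one_pos
  have hδle1 : δ ≤ δ1 := (min_le_left _ _).trans (min_le_left _ _)
  have hδle2 : δ ≤ δ2 := (min_le_left _ _).trans (min_le_right _ _)
  have hδ1' : δ ≤ 1 := min_le_right _ _
  obtain ⟨L3, hL3⟩ := exists_nat_ge (2 * (-Real.log δ) / ε)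
  set L : ℕ := max (max L1 L2) (max L3 2) with hL
  have hLL1 : L1 ≤ L := (le_max_left _ _).trans (le_max_left _ _)
  have hLL2 : L2 ≤ L := (le_max_right _ _).trans (le_max_left _ _)
  have hLL3 : L3 ≤ L := (le_max_left _ _).trans (le_max_right _ _)
  have hL2 : 2 ≤ L := (le_max_right _ _).trans (le_max_right _ _)
  obtain ⟨M1, hM1⟩ := h1 L hLL1
  obtain ⟨M2, hM2⟩ := h2 L hLL2
  set M : ℕ := max (max M1 M2) 8 with hM
  have hMM1 : M1 ≤ M := (le_max_left _ _).trans (le_max_left _ _)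
  have hMM2 : M2 ≤ M := (le_max_right _ _).trans (le_max_left _ _)
  have hM8 : 8 ≤ M := le_max_right _ _
  refine ⟨L, M, hL2, hM8, ?_⟩
  have hlog : -(ε * L / 2) ≤ Real.log δ := by
    have h3 : 2 * (-Real.log δ) / ε ≤ L := hL3.trans (by exact_mod_cast hLL3)
    rw [div_le_iff₀ hε] at h3
    linarith
  intro c hc
  have hcard : (((range (3 ^ L)).filter fun i : ℕ => NN L M (c + 3 * (i : ℤ)) ≤ δ).card : ℝ) ≤
      ε / 10 * 3 ^ L := by
    rcases hc with rfl | rfl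
    · refine le_trans ?_ (hM1 M hMM1)
      refine Nat.cast_le.mpr (Finset.card_le_card ?_)
      intro i hi
      rw [Finset.mem_filter] at hi ⊢
      exact ⟨hi.1, hi.2.trans hδle1⟩
    · refine le_trans ?_ (hM2 M hMM2)
      refine Nat.cast_le.mpr (Finset.card_le_card ?_)
      intro i hi
      rw [Finset.mem_filter] at hi ⊢
      exact ⟨hi.1, hi.2.trans hδle2⟩
  have h4 := t9_avg hc hL2 hM8 hδ hδ1' hcard
  linarith

end Pool.Agent.Lib.MP_d0d59f_nt.GE
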