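import Pool.Agent.Lib.MP_d0d59f_nt.GE.N2Zz
import Pool.Agent.Lib.MP_d0d59f_nt.GE.N5Mean
import Pool.Agent.Lib.MP_d0d59f_nt.GE.S9ThmE
import Pool.Agent.Lib.MP_d0d59f_nt.GE.T9Typical

/-! Row N6 (about 120 lines): `Z_J ≥ 1` on all units for some `J ≥ 1`. -/

namespace Pool.Agent.Lib.MP_d0d59f_nt.GE

open Finset

/-- `0 ≤ NN L M x ≤ ∑_{α ∈ blk L M} wt α`, and `NN L M x ≥ (3/256)^L` on units (`NN_ge`), `NN L M x = 0` and
`log 0 = 0` on multiples of `3` (`bvalid_unit`). -/
theorem rr_bdd (s : ℝ) {L M : ℕ} (hL : 2 ≤ L) (hM : 8 ≤ M) : Bdd (rr s L M) := by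
  classical
  set S : ℝ := ∑ α ∈ blk L M, wt α with hS
  have hle : ∀ x, NN L M x ≤ S := by
    intro x
    unfold NN
    refine Finset.sum_le_sum fun α _ => ?_
    split_ifs
    · exact le_rfl
    · exact (wt_pos α).le
  refine ⟨|Real.log S| + |Real.log ((3 / 256 : ℝ) ^ L)| + |(1 - s) * (7 / 100 * (L : ℝ))|, ?_⟩
  intro x
  unfold rr
  refine (abs_add_le _ _).trans ?_
  refine add_le_add ?_ le_rfl
  by_cases hx : (3 : ℤ) ∣ x
  · have h0 : NN L M x = 0 := by
      unfold NN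
      refine Finset.sum_eq_zero fun α _ => ?_
      rw [if_neg]
      intro hv
      exact bvalid_unit hv hx
    rw [h0, Real.log_zero, abs_zero]
    positivity
  · have h1 := NN_ge hL hM hx
    have h2 : (0 : ℝ) < (3 / 256 : ℝ) ^ L := by positivity
    have h3 : Real.log ((3 / 256 : ℝ) ^ L) ≤ Real.log (NN L M x) := Real.log_le_log h2 h1
    have h4 : Real.log (NN L M x) ≤ Real.log S := Real.log_le_log (lt_of_lt_of_le h2 h1) (hle x)
    rw [abs_le]
    constructor
    · have := neg_abs_le (Real.log ((3 / 256 : ℝ) ^ L))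
      have := abs_nonneg (Real.log S)
      linarith
    · have := le_abs_self (Real.log S)
      have := abs_nonneg (Real.log ((3 / 256 : ℝ) ^ L))
      linarith

/-- `valid_congr` (all blocks have length `L`). -/
theorem rr_congr (s : ℝ) {L M : ℕ} {x y : ℤ} (h : x ≡ y [ZMOD 3 ^ (L + 1)]) :
    rr s L M x = rr s L M y := by
  have hN : NN L M x = NN L M y := by
    unfold NN
    refine Finset.sum_congr rfl fun α hα => ?_
    have hlen := (mem_blk.mp hα).1
    have hv : valid α x ↔ valid α y := valid_congr (by rw [hlen]; exact h)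
    by_cases h1 : valid α x
    · rw [if_pos h1, if_pos (hv.mp h1)]
    · rw [if_neg h1, if_neg (fun h2 => h1 (hv.mpr h2))]
  unfold rr
  rw [hN]

/-- The average of the constant part is the constant (`Finset.sum_add_distrib`, `card_range`). -/
theorem avg_rr (s : ℝ) (L M : ℕ) (c : ℤ) :
    avg L c (rr s L M) =
      avg L c (fun x => Real.log (NN L M x)) + (1 - s) * (7 / 100 * (L : ℝ)) := by
  unfold avg rr
  rw [Finset.sum_add_distrib, Finset.sum_const, Finset.card_range, nsmul_eq_mul, add_div]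
  congr 1
  push_cast
  have h3 : (3 : ℝ) ^ L ≠ 0 := by positivity
  field_simp

/-- The two indicator functions sum to `1` on units; `m.add`, `m.one`, `m.mono` (twice). -/
theorem mean_classes {K : Ker} (m : Mean K) :
    m.Θ (fun x => if x % 3 = 1 then 1 else 0) + m.Θ (fun x => if x % 3 = 2 then 1 else 0) = 1 ∧
      0 ≤ m.Θ (fun x => if x % 3 = 1 then 1 else 0) ∧
      0 ≤ m.Θ (fun x => if x % 3 = 2 then 1 else 0) := by
  have hb : ∀ c : ℤ, Bdd (fun x : ℤ => if x % 3 = c then (1 : ℝ) else 0) := by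
    intro c
    refine ⟨1, fun x => ?_⟩
    dsimp only
    split_ifs <;> simp
  have hb1 : Bdd (fun _ : ℤ => (1 : ℝ)) := ⟨1, fun x => by simp⟩
  have hb0 : Bdd (fun _ : ℤ => (0 : ℝ)) := ⟨1, fun x => by simp⟩
  have hsum : Bdd (fun x : ℤ => (if x % 3 = 1 then (1 : ℝ) else 0) +
      (if x % 3 = 2 then (1 : ℝ) else 0)) := by
    refine ⟨2, fun x => ?_⟩
    dsimp only
    split_ifs <;> norm_num
  have h0 : m.Θ (fun _ => 0) = 0 := by
    have := m.smul 0 (fun _ => 1) hb1
    simpa using this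
  refine ⟨?_, ?_, ?_⟩
  · rw [← m.add _ _ (hb 1) (hb 2)]
    refine Eq.trans ?_ m.one
    refine le_antisymm (m.mono _ _ hsum hb1 ?_) (m.mono _ _ hb1 hsum ?_)
    · intro x hx
      split_ifs with h1 h2
      · omega
      · norm_num
      · norm_num
      · norm_num
    · intro x hx
      split_ifs with h1 h2
      · norm_num
      · norm_num
      · norm_num
      · omega
  · refine h0.symm.trans_le (m.mono _ _ hb0 (hb 1) ?_)
    intro x _
    split_ifs <;> norm_num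
  · refine h0.symm.trans_le (m.mono _ _ hb0 (hb 2) ?_)
    intro x _
    split_ifs <;> norm_num

/-- Take `L, M` from `typical ((1-s)/20)`, `K = natK L M hL hM`. If there is no `J ≥ 1` as wanted, then
for every `J` there is a unit `x J` with `ZZ s L M (J+1) (x J) < 1`, so
`∑_{t ≤ J} P^t rr (x J) ≤ log ZZ ≤ 0` (`log_ZZ_ge`, `ZZ_pos`), so `Θ rr ≤ 0` for the mean `cmean K x`
(`cmean_nonpos`, `rr_bdd`). By `theoremE` (with `k = L`, `rr_congr`), `avg_rr`, `typical` and
`mean_classes`: `Θ rr ≥ -((1-s)/20) L + (1-s) (7/100) L = (1-s) L / 50 > 0`. Contradiction. -/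
theorem exists_J {s : ℝ} (hs : s < 1) : ∃ L M : ℕ, 2 ≤ L ∧ 8 ≤ M ∧ ∃ J : ℕ, 1 ≤ J ∧
    ∀ x : ℤ, ¬ (3 : ℤ) ∣ x → 1 ≤ ZZ s L M J x := by
  obtain ⟨L, M, hL, hM, hty⟩ := typical ((1 - s) / 20) (by linarith)
  refine ⟨L, M, hL, hM, ?_⟩
  by_contra hcon
  push Not at hcon
  have hx : ∀ J : ℕ, ∃ x : ℤ, ¬ (3 : ℤ) ∣ x ∧ ZZ s L M (J + 1) x < 1 := fun J =>
    hcon (J + 1) (by omega)
  choose x hx3 hxZ using hx
  have hnon : (cmean (natK L M hL hM) x hx3).Θ (rr s L M) ≤ 0 := by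
    refine cmean_nonpos _ x hx3 (rr_bdd s hL hM) ?_
    intro J
    refine (log_ZZ_ge hs.le hL hM (J + 1) (hx3 J)).trans ?_
    exact Real.log_nonpos (ZZ_pos s hL hM (J + 1) (hx3 J)).le (hxZ J).le
  have hE := theoremE (cmean (natK L M hL hM) x hx3) L (rr s L M)
    (fun a b hab => rr_congr s hab)
  obtain ⟨hm1, hm2, hm3⟩ := mean_classes (cmean (natK L M hL hM) x hx3)
  rw [avg_rr, avg_rr] at hE
  have h1 := hty 1 (Or.inl rfl)
  have h2 := hty 2 (Or.inr rfl)
  have hLpos : (0 : ℝ) < L := by exact_mod_cast (by omega : 0 < L)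
  set A := (cmean (natK L M hL hM) x hx3).Θ (fun x => if x % 3 = 1 then 1 else 0)
  set B := (cmean (natK L M hL hM) x hx3).Θ (fun x => if x % 3 = 2 then 1 else 0)
  set U := avg L 1 (fun x => Real.log (NN L M x))
  set V := avg L 2 (fun x => Real.log (NN L M x))
  have hpos : 0 < (1 - s) * (L : ℝ) := mul_pos (by linarith) hLpos
  have e1 : (1 - s) * (L : ℝ) / 50 ≤ U + (1 - s) * (7 / 100 * (L : ℝ)) := by linarith
  have e2 : (1 - s) * (L : ℝ) / 50 ≤ V + (1 - s) * (7 / 100 * (L : ℝ)) := by linarith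
  have e3 := mul_le_mul_of_nonneg_left e1 hm2
  have e4 := mul_le_mul_of_nonneg_left e2 hm3
  have e5 : A * ((1 - s) * (L : ℝ) / 50) + B * ((1 - s) * (L : ℝ) / 50) =
      (1 - s) * (L : ℝ) / 50 := by rw [← add_mul, hm1, one_mul]
  linarith

end Pool.Agent.Lib.MP_d0d59f_nt.GE
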