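import Pool.Agent.Lib.MP_d0d59f_nt.GE.K2
import Pool.Agent.Lib.MP_d0d59f_nt.GE.M1

/-! Row ge_S1: mean entropies and their limits. -/

namespace Pool.Agent.Lib.MP_d0d59f_nt.GE

open Finset Filter Topology

variable {K : Ker}

/-- Mean entropy of `X_N mod 3^k`. -/
noncomputable def eN (m : Mean K) (N k : ℕ) : ℝ := m.Θ (fun b => hh K N b k)

/-- Limit of the mean entropies. -/
noncomputable def eL (m : Mean K) (k : ℕ) : ℝ := ⨆ N, eN m N k

/-- Limit of the mean digit entropies. -/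
noncomputable def dl (m : Mean K) (j : ℕ) : ℝ := eL m (j + 1) - eL m j

/-- (H2): `Θ(hh (1 + N)) ≥ Θ(PN 1 (hh N)) = Θ(hh N)` (`hh_ge`, `Mean.inv_PN`). -/
theorem eN_mono (m : Mean K) (k : ℕ) : Monotone (fun N => eN m N k) := by
  refine monotone_nat_of_le_succ fun N => ?_
  have h1 : m.Θ (PN K 1 (fun x => hh K N x k)) = eN m N k :=
    m.inv_PN (hh_bdd K N k) 1
  have h2 : m.Θ (PN K 1 (fun x => hh K N x k)) ≤ m.Θ (fun b => hh K (1 + N) b k) :=
    m.mono _ _ (PN_bdd K 1 (hh_bdd K N k)) (hh_bdd K (1 + N) k)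
      fun x hx => hh_ge K 1 N hx k
  rw [h1, add_comm 1 N] at h2
  exact h2

theorem eN_le (m : Mean K) (N k : ℕ) : eN m N k ≤ k * Real.log 3 :=
  m.le_const (hh_bdd K N k) _ fun x _ => hh_le K N x k

theorem s1_bddAbove (m : Mean K) (k : ℕ) : BddAbove (Set.range fun N => eN m N k) := by
  refine ⟨k * Real.log 3, ?_⟩
  rintro _ ⟨N, rfl⟩
  exact eN_le m N k

theorem eN_le_eL (m : Mean K) (N k : ℕ) : eN m N k ≤ eL m k :=
  le_ciSup (s1_bddAbove m k) N

theorem tendsto_eN (m : Mean K) (k : ℕ) : Tendsto (fun N => eN m N k) atTop (𝓝 (eL m k)) :=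
  tendsto_atTop_ciSup (eN_mono m k) (s1_bddAbove m k)

theorem tendsto_dg (m : Mean K) (j : ℕ) :
    Tendsto (fun N => m.Θ (fun b => dg K N b j)) atTop (𝓝 (dl m j)) := by
  have h : (fun N => m.Θ (fun b => dg K N b j)) = fun N => eN m N (j + 1) - eN m N j := by
    funext N
    exact m.sub (hh_bdd K N (j + 1)) (hh_bdd K N j)
  rw [h]
  exact (tendsto_eN m (j + 1)).sub (tendsto_eN m j)

theorem dl_nonneg (m : Mean K) (j : ℕ) : 0 ≤ dl m j :=
  ge_of_tendsto' (tendsto_dg m j) fun N => m.nonneg (dg_bdd K N j) fun x _ => dg_nonneg K N x j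

theorem dl_le (m : Mean K) (j : ℕ) : dl m j ≤ Real.log 3 :=
  le_of_tendsto' (tendsto_dg m j) fun N =>
    m.le_const (dg_bdd K N j) _ fun x _ => dg_le K N x j

/-- From `dg_shift`. -/
theorem dl_shift (m : Mean K) {j : ℕ} (hj : 1 ≤ j) (n : ℕ) : dl m (j + n * K.L) ≤ dl m j :=
  le_of_tendsto_of_tendsto' (tendsto_dg m (j + n * K.L))
    ((tendsto_dg m j).comp (tendsto_add_atTop_nat n)) fun N =>
      m.mono _ _ (dg_bdd K N (j + n * K.L)) (dg_bdd K (N + n) j)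
        fun _ hx => dg_shift K N n hx hj

theorem et1_bdd (N n j : ℕ) : Bdd (fun b => et1 K N n b j) :=
  Bdd.sub (Bdd.sub (hh_bdd K (N + n) (j + 2)) (hh_bdd K (N + n) j))
    (Bdd.sub (hh_bdd K N (j + 2 + n * K.L)) (hh_bdd K N (j + n * K.L)))

theorem et3_bdd (N n j : ℕ) : Bdd (fun b => et3 K N n b j) :=
  Bdd.sub (hh_bdd K (N + n) (j + 2)) (PN_bdd K N (hh_bdd K n (j + 2)))

/-- `Θ(η₁) → (δ_j + δ_{j+1}) - (δ_{j+nL} + δ_{j+1+nL})` as `N → ∞`. -/
theorem tendsto_et1 (m : Mean K) (n : ℕ) (j : ℕ) :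
    Tendsto (fun N => m.Θ (fun b => et1 K N n b j)) atTop
      (𝓝 ((dl m j + dl m (j + 1)) - (dl m (j + n * K.L) + dl m (j + 1 + n * K.L)))) := by
  have h : (fun N => m.Θ (fun b => et1 K N n b j)) = fun N =>
      (eN m (N + n) (j + 2) - eN m (N + n) j) -
        (eN m N (j + 2 + n * K.L) - eN m N (j + n * K.L)) := by
    funext N
    have h1 : m.Θ (fun b => hh K (N + n) b (j + 2) - hh K (N + n) b j) =
        eN m (N + n) (j + 2) - eN m (N + n) j :=
      m.sub (hh_bdd K (N + n) (j + 2)) (hh_bdd K (N + n) j)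
    have h2 : m.Θ (fun b => hh K N b (j + 2 + n * K.L) - hh K N b (j + n * K.L)) =
        eN m N (j + 2 + n * K.L) - eN m N (j + n * K.L) :=
      m.sub (hh_bdd K N (j + 2 + n * K.L)) (hh_bdd K N (j + n * K.L))
    rw [← h1, ← h2]
    exact m.sub (Bdd.sub (hh_bdd K (N + n) (j + 2)) (hh_bdd K (N + n) j))
      (Bdd.sub (hh_bdd K N (j + 2 + n * K.L)) (hh_bdd K N (j + n * K.L)))
  have hlim : (dl m j + dl m (j + 1)) - (dl m (j + n * K.L) + dl m (j + 1 + n * K.L)) =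
      (eL m (j + 2) - eL m j) - (eL m (j + 2 + n * K.L) - eL m (j + n * K.L)) := by
    have h3 : j + n * K.L + 1 = j + 1 + n * K.L := by ring
    have h4 : j + 1 + n * K.L + 1 = j + 2 + n * K.L := by ring
    unfold dl
    rw [h3, h4]
    ring
  rw [h, hlim]
  have hs := tendsto_add_atTop_nat n
  exact (((tendsto_eN m (j + 2)).comp hs).sub ((tendsto_eN m j).comp hs)).sub
    ((tendsto_eN m (j + 2 + n * K.L)).sub (tendsto_eN m (j + n * K.L)))

/-- `Θ(η₃) → e(j+2) - e_n(j+2)` as `N → ∞` (`Mean.inv_PN`). -/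
theorem tendsto_et3 (m : Mean K) (n : ℕ) (j : ℕ) :
    Tendsto (fun N => m.Θ (fun b => et3 K N n b j)) atTop
      (𝓝 (eL m (j + 2) - eN m n (j + 2))) := by
  have h : (fun N => m.Θ (fun b => et3 K N n b j)) = fun N =>
      eN m (N + n) (j + 2) - eN m n (j + 2) := by
    funext N
    have h1 : m.Θ (PN K N (fun x => hh K n x (j + 2))) = eN m n (j + 2) :=
      m.inv_PN (hh_bdd K n (j + 2)) N
    rw [← h1]
    exact m.sub (hh_bdd K (N + n) (j + 2)) (PN_bdd K N (hh_bdd K n (j + 2)))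
  rw [h]
  exact ((tendsto_eN m (j + 2)).comp (tendsto_add_atTop_nat n)).sub tendsto_const_nhds

end Pool.Agent.Lib.MP_d0d59f_nt.GE
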