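import Pool.Agent.Lib.MP_d0d59f_nt.GE.S1

/-! Row ge_S2: the dichotomy holds for most starting points. -/

namespace Pool.Agent.Lib.MP_d0d59f_nt.GE

open Finset Filter Topology

variable {K : Ker}

/-- A bounded sequence with `δ_{j+L} ≤ δ_j` (`j ≥ 1`): `δ_j - δ_{j+nL} ≤ ε` for all large `j` and all `n`.
(For each residue `r` the sequence `δ_{r+nL}` is nonincreasing and bounded below, hence Cauchy.) -/
theorem seq_cauchy {δ : ℕ → ℝ} {L : ℕ} (hL : 1 ≤ L) (h0 : ∀ j, 0 ≤ δ j)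
    (hs : ∀ j, 1 ≤ j → ∀ n, δ (j + n * L) ≤ δ j) {ε : ℝ} (hε : 0 < ε) :
    ∃ j1, 1 ≤ j1 ∧ ∀ j, j1 ≤ j → ∀ n, δ j - δ (j + n * L) ≤ ε := by
  have hbd : ∀ r : ℕ, BddBelow (Set.range fun n : ℕ => δ (1 + r + n * L)) := fun r =>
    ⟨0, by rintro _ ⟨n, rfl⟩; exact h0 _⟩
  have hex : ∀ r : ℕ, ∃ n : ℕ, δ (1 + r + n * L) < (⨅ n : ℕ, δ (1 + r + n * L)) + ε := fun r =>
    exists_lt_of_ciInf_lt (by linarith)
  choose N hN using hex
  refine ⟨1 + (∑ r ∈ range L, N r + 1) * L, by omega, fun j hj n => ?_⟩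
  obtain ⟨r, m, hr, hjr, hm⟩ : ∃ r m : ℕ, r < L ∧ j = 1 + r + m * L ∧ N r ≤ m := by
    refine ⟨(j - 1) % L, (j - 1) / L, Nat.mod_lt _ hL, ?_, ?_⟩
    · have := Nat.mod_add_div (j - 1) L
      rw [Nat.mul_comm] at this
      omega
    · have h1 : N ((j - 1) % L) ≤ ∑ r ∈ range L, N r :=
        Finset.single_le_sum (f := N) (fun _ _ => Nat.zero_le _)
          (Finset.mem_range.mpr (Nat.mod_lt _ hL))
      refine h1.trans ((Nat.le_div_iff_mul_le hL).mpr ?_)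
      have h2 : (∑ r ∈ range L, N r) * L ≤ (∑ r ∈ range L, N r + 1) * L :=
        Nat.mul_le_mul_right L (Nat.le_succ _)
      omega
  have h1 : δ j ≤ δ (1 + r + N r * L) := by
    have h2 := hs (1 + r + N r * L) (by omega) (m - N r)
    have h3 : 1 + r + N r * L + (m - N r) * L = j := by
      rw [hjr, add_assoc, ← Nat.add_mul, Nat.add_sub_cancel' hm]
    rwa [h3] at h2
  have h4 : (⨅ n : ℕ, δ (1 + r + n * L)) ≤ δ (j + n * L) := by
    have h5 := ciInf_le (hbd r) (m + n)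
    have h6 : 1 + r + (m + n) * L = j + n * L := by
      rw [hjr]
      ring
    simp only [h6] at h5
    exact h5
  have h7 := hN r
  linarith

/-- (K'). Let `η` be the constant of `K_dich ζ`. `seq_cauchy` for `dl m` with `ε = η ζ / 8` gives `j1`. For `j ≥ j1`
choose `n` with `eL (j+2) - eN n (j+2) ≤ η ζ / 4` (`tendsto_eN`). By `tendsto_et1`, `tendsto_et3`, for large `N'`:
`Θ(η₁) ≤ η ζ/2`, `Θ(η₃) ≤ η ζ/2`. If `GoodD` fails at `(N'+n, b, j)` then `η ≤ et1` or `η ≤ et3` (`K_dich`), so by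
`Mean.ind_union`, `Mean.markov` the indicator has mean `≤ ζ`. `N1 = N'_0 + n`. -/
theorem K_prime (m : Mean K) {ζ : ℝ} (hζ : 0 < ζ) : ∃ j1, 1 ≤ j1 ∧ ∀ j, j1 ≤ j →
    ∃ N1, ∀ N, N1 ≤ N → m.Θ (ind fun b => ¬ GoodD K ζ N b j) ≤ ζ := by
  obtain ⟨η, hη, hdich⟩ := K_dich ζ hζ
  have hηζ : 0 < η * ζ := mul_pos hη hζ
  obtain ⟨j1, hj1, hc⟩ := seq_cauchy (δ := dl m) K.hL (dl_nonneg m)
    (fun j hj n => dl_shift m hj n) (show 0 < η * ζ / 8 by positivity)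
  refine ⟨j1, hj1, fun j hj => ?_⟩
  have hj' : 1 ≤ j := hj1.trans hj
  obtain ⟨n, hn⟩ : ∃ n, eL m (j + 2) - eN m n (j + 2) < η * ζ / 2 := by
    have h1 := (tendsto_order.mp (tendsto_eN m (j + 2))).1 (eL m (j + 2) - η * ζ / 2)
      (by linarith)
    obtain ⟨n, hn⟩ := h1.exists
    exact ⟨n, by linarith⟩
  have h2 := hc j hj n
  have h3 := hc (j + 1) (by omega) n
  have e1 := (tendsto_order.mp (tendsto_et1 m n j)).2 (η * ζ / 2) (by linarith)
  have e3 := (tendsto_order.mp (tendsto_et3 m n j)).2 (η * ζ / 2) (by linarith)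
  obtain ⟨N0, hN0⟩ := Filter.eventually_atTop.mp (e1.and e3)
  refine ⟨N0 + n, fun N hN => ?_⟩
  obtain ⟨N', rfl⟩ : ∃ N', N = N' + n := ⟨N - n, by omega⟩
  obtain ⟨h4, h5⟩ := hN0 N' (by omega)
  have hun := m.ind_union (A := fun b => ¬ GoodD K ζ (N' + n) b j)
    (B := fun b => η ≤ et1 K N' n b j) (C := fun b => η ≤ et3 K N' n b j)
    (fun b hb hnot => by
      by_contra hcon
      push Not at hcon
      exact hnot (hdich K N' n b hb j hj' hcon.1.le hcon.2.le))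
  have hm1 := m.markov (et1_bdd N' n j) (fun b hb => et1_nonneg K N' n hb hj') hη
  have hm3 := m.markov (et3_bdd N' n j) (fun b hb => et3_nonneg K N' n hb j) hη
  have h6 : m.Θ (fun b => et1 K N' n b j) / η ≤ ζ / 2 := by
    rw [div_le_iff₀ hη]
    linarith
  have h7 : m.Θ (fun b => et3 K N' n b j) / η ≤ ζ / 2 := by
    rw [div_le_iff₀ hη]
    linarith
  linarith

end Pool.Agent.Lib.MP_d0d59f_nt.GE
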