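import Pool.Agent.Lib.MP_d0d59f_nt.GE.S2

/-! Row ge_S3: the limit `D` of the mean digit entropies. -/

namespace Pool.Agent.Lib.MP_d0d59f_nt.GE

open Finset Filter Topology

variable {K : Ker}

/-- Real sequences: if `0 ≤ δ_j`, `δ_{j+nL} ≤ δ_j` for `j ≥ 1`, and for every `ζ > 0` eventually
`δ_{j+1} ≥ δ_j - ζ`, then `δ` converges to some `D`, and `D ≤ δ_j` for `j ≥ 1`. For each residue `r` modulo `L` the
sequence `δ_{r+nL}` decreases to a limit `D_r`; `D_{r+1} ≥ D_r` (indices modulo `L`), so all `D_r` are equal. -/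
theorem seq_limit {δ : ℕ → ℝ} {L : ℕ} (hL : 1 ≤ L) (h0 : ∀ j, 0 ≤ δ j)
    (hs : ∀ j, 1 ≤ j → ∀ n, δ (j + n * L) ≤ δ j)
    (hm : ∀ ζ : ℝ, 0 < ζ → ∃ j1, ∀ j, j1 ≤ j → δ j - ζ ≤ δ (j + 1)) :
    ∃ D : ℝ, (∀ j, 1 ≤ j → D ≤ δ j) ∧ Tendsto δ atTop (𝓝 D) := by
  have hbd : BddBelow (Set.range fun j : ℕ => δ (j + 1)) :=
    ⟨0, by rintro _ ⟨n, rfl⟩; exact h0 _⟩
  have hD : ∀ j, 1 ≤ j → (⨅ j : ℕ, δ (j + 1)) ≤ δ j := by
    intro j hj
    have h1 := ciInf_le hbd (j - 1)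
    simp only [Nat.sub_add_cancel hj] at h1
    exact h1
  refine ⟨⨅ j : ℕ, δ (j + 1), hD, ?_⟩
  rw [Metric.tendsto_atTop]
  intro ε hε
  obtain ⟨j0, hj0⟩ : ∃ j : ℕ, δ (j + 1) < (⨅ j : ℕ, δ (j + 1)) + ε / 2 :=
    exists_lt_of_ciInf_lt (by linarith)
  have hLr : (0 : ℝ) < L := by exact_mod_cast hL
  obtain ⟨j1, hj1⟩ := hm (ε / (2 * L)) (by positivity)
  have hstep : ∀ k j : ℕ, j1 ≤ j → δ j - k * (ε / (2 * L)) ≤ δ (j + k) := by
    intro k
    induction k with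
    | zero => intro j _; simp
    | succ k ih =>
      intro j hj
      have h1 := ih j hj
      have h2 := hj1 (j + k) (by omega)
      rw [← add_assoc]
      push_cast
      linarith
  refine ⟨j0 + 1 + j1, fun j hj => ?_⟩
  -- the next index in the progression
  obtain ⟨n, k, hk, hjk⟩ : ∃ n k : ℕ, k < L ∧ j + k = j0 + 1 + n * L := by
    refine ⟨(j - (j0 + 1) + (L - 1)) / L, (j0 + 1 + (j - (j0 + 1) + (L - 1)) / L * L) - j, ?_, ?_⟩
    · have h1 := Nat.div_mul_le_self (j - (j0 + 1) + (L - 1)) L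
      omega
    · have h1 := Nat.lt_div_mul_add (a := j - (j0 + 1) + (L - 1)) (b := L) (by omega)
      omega
  have h3 := hstep k j (by omega)
  have h4 := hs (j0 + 1) (by omega) n
  rw [← hjk] at h4
  have h5 : (k : ℝ) * (ε / (2 * L)) ≤ ε / 2 := by
    have h6 : (k : ℝ) ≤ L := by exact_mod_cast hk.le
    calc (k : ℝ) * (ε / (2 * L)) ≤ L * (ε / (2 * L)) := by gcongr
      _ = ε / 2 := by field_simp
  have h7 := hD j (by omega)
  rw [Real.dist_eq, abs_lt]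
  constructor
  · linarith
  · linarith

/-- `GoodD` fails or the digit entropy does not drop. -/
theorem s3_drop (ζ : ℝ) (hζ : 0 ≤ ζ) (N : ℕ) (b : ℤ) (j : ℕ) :
    dg K N b j - dg K N b (j + 1) ≤ ζ + 2 * ind (fun b => ¬ GoodD K ζ N b j) b := by
  have h1 := dg_nonneg K N b (j + 1)
  have h2 := dg_le K N b j
  have h3 : Real.log 3 ≤ 2 := by
    have h4 : Real.log 3 ≤ Real.log 4 := Real.log_le_log (by norm_num) (by norm_num)
    have h5 : Real.log 4 = 2 * Real.log 2 := by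
      rw [show (4 : ℝ) = 2 ^ 2 by norm_num, Real.log_pow]
      norm_num
    have h6 := Real.log_two_lt_d9
    linarith
  unfold ind
  by_cases hG : GoodD K ζ N b j
  · rw [if_neg (not_not.mpr hG)]
    rcases hG with h | ⟨-, h⟩
    · linarith
    · linarith
  · rw [if_pos hG]
    linarith

/-- `δ_{j+1} ≥ δ_j - 3 ζ` for large `j`: where `GoodD K ζ N b j` holds,
`dg (j+1) ≥ dg j - ζ` (case 1: `dg (j+1) ≥ 0 ≥ dg j - ζ`; case 2: `dg (j+1) ≥ log 3 - ζ ≥ dg j - ζ`); elsewhere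
`dg (j+1) ≥ dg j - log 3`, `log 3 ≤ 2`. So `Θ(dg N (j+1)) ≥ Θ(dg N j) - ζ - 2 ζ` for large `N` (`K_prime`), and
`N → ∞` (`tendsto_dg`). -/
theorem dl_almost_mono (m : Mean K) {ζ : ℝ} (hζ : 0 < ζ) :
    ∃ j1, ∀ j, j1 ≤ j → dl m j - 3 * ζ ≤ dl m (j + 1) := by
  obtain ⟨j1, -, hK⟩ := K_prime m hζ
  refine ⟨j1, fun j hj => ?_⟩
  obtain ⟨N1, hN1⟩ := hK j hj
  have hpt : ∀ N, N1 ≤ N → m.Θ (fun b => dg K N b j) - 3 * ζ ≤ m.Θ (fun b => dg K N b (j + 1)) := by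
    intro N hN
    have h1 : m.Θ (fun b => dg K N b j - dg K N b (j + 1)) ≤
        m.Θ (fun b => ζ + 2 * ind (fun b => ¬ GoodD K ζ N b j) b) :=
      m.mono _ _ ((dg_bdd K N j).sub (dg_bdd K N (j + 1)))
        ((Bdd.const ζ).add ((ind_bdd _).smul 2)) (fun b _ => s3_drop ζ hζ.le N b j)
    rw [m.sub (dg_bdd K N j) (dg_bdd K N (j + 1)),
      m.add _ _ (Bdd.const ζ) ((ind_bdd _).smul 2), m.const, m.smul 2 _ (ind_bdd _)] at h1
    have h2 := hN1 N hN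
    have h3 : m.Θ (fun x => ind (fun b => ¬ GoodD K ζ N b j) x) ≤ ζ := h2
    linarith
  have hlim1 : Tendsto (fun N => m.Θ (fun b => dg K N b j) - 3 * ζ) atTop (𝓝 (dl m j - 3 * ζ)) :=
    (tendsto_dg m j).sub_const _
  exact le_of_tendsto_of_tendsto hlim1 (tendsto_dg m (j + 1))
    (Filter.eventually_atTop.mpr ⟨N1, hpt⟩)

theorem exists_D (m : Mean K) : ∃ D : ℝ, (∀ j, 1 ≤ j → D ≤ dl m j) ∧
    Tendsto (dl m) atTop (𝓝 D) := by
  refine seq_limit K.hL (dl_nonneg m) (fun j hj n => dl_shift m hj n) fun ζ hζ => ?_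
  obtain ⟨j1, h⟩ := dl_almost_mono m (show 0 < ζ / 3 by positivity)
  refine ⟨j1, fun j hj => ?_⟩
  have := h j hj
  linarith

/-- Consecutive digit entropies are close for most `b`: with `x = dg N (j+1) - dg N j`,
`|x| = x + 2 max (-x) 0`, `max (-x) 0 ≤ ζ' + 2 · 1_{¬GoodD ζ'}`, `Θ(x) → δ_{j+1} - δ_j`, which is small for large `j`
(`exists_D`). -/
theorem osc_small (m : Mean K) {ζ : ℝ} (hζ : 0 < ζ) : ∃ j1, 1 ≤ j1 ∧ ∀ j, j1 ≤ j →
    ∃ N1, ∀ N, N1 ≤ N → m.Θ (fun b => |dg K N b (j + 1) - dg K N b j|) ≤ ζ := by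
  have hζ' : 0 < ζ / 12 := by positivity
  obtain ⟨j1, hj1, hK⟩ := K_prime m hζ'
  obtain ⟨D, hD, hlim⟩ := exists_D m
  obtain ⟨j2, hj2⟩ := Filter.eventually_atTop.mp
    ((tendsto_order.mp hlim).2 (D + ζ / 4) (by linarith))
  refine ⟨max j1 j2, hj1.trans (le_max_left _ _), fun j hj => ?_⟩
  have hj1' : j1 ≤ j := (le_max_left _ _).trans hj
  have hj2' : j2 ≤ j := (le_max_right _ _).trans hj
  obtain ⟨N1, hN1⟩ := hK j hj1'
  have hdl : dl m (j + 1) - dl m j < ζ / 4 := by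
    have h1 := hj2 (j + 1) (by omega)
    have h2 := hD j (hj1.trans hj1')
    linarith
  have hlim2 : Tendsto (fun N => m.Θ (fun b => dg K N b (j + 1)) - m.Θ (fun b => dg K N b j)) atTop
      (𝓝 (dl m (j + 1) - dl m j)) := (tendsto_dg m (j + 1)).sub (tendsto_dg m j)
  obtain ⟨N2, hN2⟩ := Filter.eventually_atTop.mp ((tendsto_order.mp hlim2).2 (ζ / 4) hdl)
  refine ⟨max N1 N2, fun N hN => ?_⟩
  have h3 := hN1 N ((le_max_left _ _).trans hN)
  have h4 := hN2 N ((le_max_right _ _).trans hN)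
  have hB1 := (dg_bdd K N (j + 1)).sub (dg_bdd K N j)
  have hB2 : Bdd (fun b => 2 * (ζ / 12 + 2 * ind (fun b => ¬ GoodD K (ζ / 12) N b j) b)) :=
    ((Bdd.const (ζ / 12)).add ((ind_bdd _).smul 2)).smul 2
  have h5 : m.Θ (fun b => |dg K N b (j + 1) - dg K N b j|) ≤
      m.Θ (fun b => (dg K N b (j + 1) - dg K N b j) +
        2 * (ζ / 12 + 2 * ind (fun b => ¬ GoodD K (ζ / 12) N b j) b)) := by
    refine m.mono _ _ hB1.abs (hB1.add hB2) fun b _ => ?_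
    have h6 := s3_drop (K := K) (ζ / 12) hζ'.le N b j
    have h7 : 0 ≤ ind (fun b => ¬ GoodD K (ζ / 12) N b j) b := by
      unfold ind
      split_ifs
      · exact zero_le_one
      · exact le_rfl
    rcases abs_cases (dg K N b (j + 1) - dg K N b j) with ⟨h, _⟩ | ⟨h, _⟩
    · rw [h]
      linarith
    · rw [h]
      linarith
  rw [m.add _ _ hB1 hB2, m.sub (dg_bdd K N (j + 1)) (dg_bdd K N j),
    m.smul 2 _ ((Bdd.const (ζ / 12)).add ((ind_bdd _).smul 2)),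
    m.add _ _ (Bdd.const (ζ / 12)) ((ind_bdd _).smul 2), m.const, m.smul 2 _ (ind_bdd _)] at h5
  have h8 : m.Θ (fun x => ind (fun b => ¬ GoodD K (ζ / 12) N b j) x) ≤ ζ / 12 := h3
  linarith

end Pool.Agent.Lib.MP_d0d59f_nt.GE
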