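import Pool.Agent.Lib.MP_d0d59f_nt.GE.H3

/-! Row ge_S4: the window `1 .. W` has positive mean digit entropy, for every starting point. -/

namespace Pool.Agent.Lib.MP_d0d59f_nt.GE

open Finset Filter Topology

theorem s4_M (K : Ker) : 1 ≤ K.M := by
  have h1 := K.sum_one 1 (by norm_num)
  have h2 : K.B.Nonempty := by
    by_contra h
    rw [not_nonempty_iff_eq_empty] at h
    rw [h, sum_empty] at h1
    exact zero_ne_one h1
  obtain ⟨α, hα⟩ := h2
  have h3 := K.len α hα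
  have h4 := K.hL
  obtain ⟨a, ha⟩ : ∃ a, a ∈ α := List.exists_mem_of_length_pos (by omega)
  have h5 := K.bd α hα a ha
  omega

theorem s4_log {c C : ℝ} (hc : 0 < c) :
    ∃ W0 : ℕ, ∀ W : ℕ, W0 ≤ W → C + Real.log (W + 2) ≤ c * W := by
  have h1 : ∀ᶠ x : ℝ in atTop, Real.log x ≤ c / 2 * x := by
    have h2 := Real.isLittleO_log_id_atTop.def (show 0 < c / 2 by positivity)
    filter_upwards [h2, eventually_ge_atTop (0 : ℝ)] with x hx hx0
    rw [id, Real.norm_eq_abs, Real.norm_eq_abs, abs_of_nonneg hx0] at hx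
    exact (le_abs_self _).trans hx
  have h3 : Tendsto (fun W : ℕ => (W : ℝ) + 2) atTop atTop :=
    tendsto_atTop_add_const_right _ _ tendsto_natCast_atTop_atTop
  have h4 : ∀ᶠ W : ℕ in atTop, (C + c) / (c / 2) ≤ (W : ℝ) :=
    tendsto_natCast_atTop_atTop.eventually_ge_atTop _
  obtain ⟨W0, hW0⟩ := eventually_atTop.1 ((h3.eventually h1).and h4)
  refine ⟨W0, fun W hW => ?_⟩
  obtain ⟨h5, h6⟩ := hW0 W hW
  rw [div_le_iff₀ (by positivity)] at h6
  linarith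

/-- `∑_{i<W} dg N b (1+i) = hh N b (W+1) - hh N b 1 ≥ hh N b (W+1) - log 3`. With `n = (W+1)/(LM)` (floor;
`L M ≥ 1`: `M ≥ 1` because blocks are nonempty lists with entries in `[1,M]`, `sum_one` at `x = 1`) and `N ≥ n`, `hh_sep` gives
`hh N b (W+1) ≥ c0 n - log (nLM + 1) ≥ c0 ((W+1)/(LM) - 1) - log (W + 2)`; for large `W` this minus `log 3` is
`≥ c1 W` with `c1 = c0/(2LM)`. -/
theorem window (K : Ker) : ∃ c1 : ℝ, 0 < c1 ∧ ∃ W0 : ℕ, ∀ W, W0 ≤ W → ∃ N0, ∀ N, N0 ≤ N →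
    ∀ b : ℤ, ¬ (3 : ℤ) ∣ b → c1 * W ≤ ∑ i ∈ range W, dg K N b (1 + i) := by
  have hM := s4_M K
  have hL := K.hL
  have hLM : 0 < K.L * K.M := by positivity
  have hLMr : (0 : ℝ) < (K.L * K.M : ℕ) := by exact_mod_cast hLM
  have hc0 := K.c0_pos
  set c : ℝ := K.c0 / (2 * (K.L * K.M : ℕ)) with hc
  have hcp : 0 < c := by positivity
  obtain ⟨W0, hW0⟩ := s4_log (C := K.c0 + Real.log 3) hcp
  refine ⟨c, hcp, W0, fun W hW => ⟨(W + 1) / (K.L * K.M), fun N hN b hb => ?_⟩⟩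
  have h1 : ∑ i ∈ range W, dg K N b (1 + i) = hh K N b (1 + W) - hh K N b (1 + 0) := by
    rw [← sum_range_sub (fun i => hh K N b (1 + i)) W]
    rfl
  rw [h1]
  have h2 := hh_le K N b (1 + 0)
  have h3 : (W + 1) / (K.L * K.M) * K.L * K.M ≤ 1 + W := by
    rw [mul_assoc, add_comm 1 W]
    exact Nat.div_mul_le_self _ _
  have h4 := hh_sep K hN hb h3
  have h5 : ((W : ℝ) + 1) < (K.L * K.M : ℕ) * (((W + 1) / (K.L * K.M) : ℕ) + 1) := by
    have := Nat.lt_mul_div_succ (W + 1) hLM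
    exact_mod_cast this
  have h6 : Real.log (((W + 1) / (K.L * K.M) : ℕ) * K.L * K.M + 1) ≤ Real.log (W + 2) := by
    apply Real.log_le_log (by positivity)
    have : ((((W + 1) / (K.L * K.M) * K.L * K.M : ℕ)) : ℝ) ≤ ((1 + W : ℕ) : ℝ) := by
      exact_mod_cast h3
    push_cast at this
    linarith
  have h7 := hW0 W hW
  have h8 : 2 * c * W - K.c0 ≤ K.c0 * ((W + 1) / (K.L * K.M) : ℕ) := by
    have h9 : K.c0 = 2 * c * (K.L * K.M : ℕ) := by
      rw [hc]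
      field_simp
    have h10 : 2 * c * ((W : ℝ) + 1) ≤
        2 * c * ((K.L * K.M : ℕ) * (((W + 1) / (K.L * K.M) : ℕ) + 1)) :=
      mul_le_mul_of_nonneg_left h5.le (by positivity)
    have h11 : 2 * c * ((K.L * K.M : ℕ) * (((W + 1) / (K.L * K.M) : ℕ) + 1) : ℝ) =
        K.c0 * ((W + 1) / (K.L * K.M) : ℕ) + K.c0 := by
      rw [h9]
      ring
    rw [h11] at h10
    linarith
  push_cast at h2 h4 h6 h8 ⊢
  linarith

end Pool.Agent.Lib.MP_d0d59f_nt.GE
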