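import Pool.Agent.Lib.MP_d0d59f_nt.GE.S3
import Pool.Agent.Lib.MP_d0d59f_nt.GE.S4

/-! Row ge_S5a: few points with a small digit entropy. -/

namespace Pool.Agent.Lib.MP_d0d59f_nt.GE

open Finset Filter Topology

variable {K : Ker}

theorem s5a_tele (a : ℕ → ℝ) {i W : ℕ} (hi : i ≤ W) :
    |a i - a 0| ≤ ∑ t ∈ range W, |a (t + 1) - a t| := by
  rw [← Finset.sum_range_sub a i]
  refine (Finset.abs_sum_le_sum_abs _ _).trans ?_
  exact Finset.sum_le_sum_of_subset_of_nonneg (Finset.range_mono hi) fun _ _ _ => abs_nonneg _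

/-- For a window length `W` and `ζ > 0`: for all large `n` there is `N0` such that for `N ≥ N0`, writing
`B b = dg N b (1 + nL)` and `c1` the constant of `window`,
`Θ(1_{B ≤ c1/2}) ≤ (2/c1) (ε_W + 2 ζ)`, `ε_W = (1/W) ∑_{i<W} (δ_{1+i} - D)`.
Proof: for every unit `b` (`window` at `N + n`):
`c1 ≤ (1/W) ∑_i dg (N+n) b (1+i) = B + (1/W) ∑_i (dg N b (1+i+nL) - B) + (1/W) ∑_i (dg (N+n) b (1+i) - dg N b (1+i+nL))`.
The last mean is `≥ 0` (`dg_shift`) and its `Θ` tends (`N → ∞`) to `(1/W) ∑_i (δ_{1+i} - δ_{1+i+nL}) ≤ ε_W`; the middle one is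
at most `(1/W) ∑_i ∑_{t<i} |dg N (1+t+1+nL) - dg N (1+t+nL)|`, of mean `≤ ζ` for `n` large, `N` large
(`osc_small` with `ζ / W`). Markov for the sum `≥ c1/2`. -/
theorem small_window (m : Mean K) {D : ℝ} (hD : ∀ j, 1 ≤ j → D ≤ dl m j) {c1 : ℝ}
    (hc1 : 0 < c1) {W : ℕ} (hW : 1 ≤ W)
    (hwin : ∃ N0, ∀ N, N0 ≤ N → ∀ b : ℤ, ¬ (3 : ℤ) ∣ b → c1 * W ≤ ∑ i ∈ range W, dg K N b (1 + i))
    {ζ : ℝ} (hζ : 0 < ζ) :
    ∃ n0, ∀ n, n0 ≤ n → ∃ N0, ∀ N, N0 ≤ N →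
      m.Θ (ind fun b => dg K N b (1 + n * K.L) ≤ c1 / 2) ≤
        2 / c1 * ((∑ i ∈ range W, (dl m (1 + i) - D)) / W + 2 * ζ) := by
  have hW0 : (0 : ℝ) < W := by exact_mod_cast hW
  obtain ⟨Nw, hNw⟩ := hwin
  obtain ⟨j1, -, hosc⟩ := osc_small m (div_pos hζ hW0)
  refine ⟨j1, fun n hn => ?_⟩
  set J : ℕ := 1 + n * K.L with hJ
  have hJn : j1 ≤ J := by
    have := Nat.le_mul_of_pos_right n K.hL
    omega
  have ev1 : ∀ᶠ N in atTop, ∀ t ∈ range W,
      m.Θ (fun b => |dg K N b (J + t + 1) - dg K N b (J + t)|) ≤ ζ / W := by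
    rw [Filter.eventually_all_finset]
    intro t _
    obtain ⟨N1, hN1⟩ := hosc (J + t) (by omega)
    exact eventually_atTop.2 ⟨N1, hN1⟩
  have hb2 : ∀ N, ∀ i ∈ range W, Bdd (fun x => dg K (N + n) x (1 + i) - dg K N x (J + i)) :=
    fun N i _ => (dg_bdd K _ _).sub (dg_bdd K _ _)
  have hlim : Tendsto (fun N => m.Θ (fun x => ∑ i ∈ range W, (dg K (N + n) x (1 + i) - dg K N x (J + i))))
      atTop (𝓝 (∑ i ∈ range W, (dl m (1 + i) - dl m (J + i)))) := by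
    have e1 : (fun N => m.Θ (fun x => ∑ i ∈ range W, (dg K (N + n) x (1 + i) - dg K N x (J + i)))) =
        fun N => ∑ i ∈ range W, (m.Θ (fun x => dg K (N + n) x (1 + i)) - m.Θ (fun x => dg K N x (J + i))) := by
      funext N
      rw [m.sum (range W) (fun i x => dg K (N + n) x (1 + i) - dg K N x (J + i)) (hb2 N)]
      exact Finset.sum_congr rfl fun i _ => m.sub (dg_bdd K _ _) (dg_bdd K _ _)
    rw [e1]
    refine tendsto_finsetSum _ fun i _ => ?_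
    exact ((tendsto_dg m (1 + i)).comp (tendsto_add_atTop_nat n)).sub (tendsto_dg m (J + i))
  have hlt : ∑ i ∈ range W, (dl m (1 + i) - dl m (J + i)) < (∑ i ∈ range W, (dl m (1 + i) - D)) + W * ζ := by
    have h1 : ∑ i ∈ range W, (dl m (1 + i) - dl m (J + i)) ≤ ∑ i ∈ range W, (dl m (1 + i) - D) :=
      Finset.sum_le_sum fun i _ => sub_le_sub_left (hD (J + i) (by omega)) _
    have h2 : 0 < (W : ℝ) * ζ := mul_pos hW0 hζ
    linarith
  have ev2 := hlim.eventually_lt_const hlt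
  have ev3 : ∀ᶠ N in atTop, Nw ≤ N := eventually_ge_atTop Nw
  obtain ⟨N0, hN0⟩ := eventually_atTop.1 (ev1.and (ev2.and ev3))
  refine ⟨N0, fun N hN => ?_⟩
  obtain ⟨g1, g2, g3⟩ := hN0 N hN
  set f1 : ℤ → ℝ := fun x => ∑ t ∈ range W, |dg K N x (J + t + 1) - dg K N x (J + t)| with hf1
  set f2 : ℤ → ℝ := fun x => ∑ i ∈ range W, (dg K (N + n) x (1 + i) - dg K N x (J + i)) with hf2
  have hbf : ∀ t ∈ range W, Bdd (fun x => |dg K N x (J + t + 1) - dg K N x (J + t)|) :=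
    fun t _ => ((dg_bdd K _ _).sub (dg_bdd K _ _)).abs
  have hB1 : Bdd f1 := Bdd.sum hbf
  have hB2 : Bdd f2 := Bdd.sum (hb2 N)
  have hB : Bdd (fun x => (W : ℝ) * f1 x + f2 x) := (hB1.smul (W : ℝ)).add hB2
  have hf1n : ∀ x, 0 ≤ f1 x := fun x => Finset.sum_nonneg fun _ _ => abs_nonneg _
  have hf2n : ∀ x : ℤ, ¬ (3 : ℤ) ∣ x → 0 ≤ f2 x := by
    intro x hx
    refine Finset.sum_nonneg fun i _ => ?_
    have h1 := dg_shift K N n hx (j := 1 + i) (by omega)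
    have h2 : 1 + i + n * K.L = J + i := by omega
    rw [h2] at h1
    linarith
  have hΘ1 : m.Θ f1 ≤ ζ := by
    rw [hf1, m.sum (range W) (fun t x => |dg K N x (J + t + 1) - dg K N x (J + t)|) hbf]
    refine (Finset.sum_le_sum g1).trans (le_of_eq ?_)
    rw [Finset.sum_const, Finset.card_range, nsmul_eq_mul]
    field_simp
  have hΘ : m.Θ (fun x => (W : ℝ) * f1 x + f2 x) = W * m.Θ f1 + m.Θ f2 := by
    rw [m.add _ _ (hB1.smul (W : ℝ)) hB2, m.smul (W : ℝ) f1 hB1]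
  have hkey : ∀ x : ℤ, ¬ (3 : ℤ) ∣ x → dg K N x J ≤ c1 / 2 → c1 * W / 2 ≤ (W : ℝ) * f1 x + f2 x := by
    intro x hx hle
    have h1 := hNw (N + n) (by omega) x hx
    have h2 : ∑ i ∈ range W, dg K (N + n) x (1 + i) = f2 x + ∑ i ∈ range W, dg K N x (J + i) := by
      rw [hf2, ← Finset.sum_add_distrib]
      exact Finset.sum_congr rfl fun i _ => by ring
    have h3 : ∑ i ∈ range W, dg K N x (J + i) ≤ ∑ _i ∈ range W, (c1 / 2 + f1 x) := by
      refine Finset.sum_le_sum fun i hi => ?_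
      have h4 := s5a_tele (fun t => dg K N x (J + t)) (Finset.mem_range.1 hi).le
      have h5 : dg K N x (J + i) - dg K N x J ≤ f1 x := (le_abs_self _).trans h4
      linarith
    rw [Finset.sum_const, Finset.card_range, nsmul_eq_mul] at h3
    rw [h2] at h1
    nlinarith
  have hpos : 0 < c1 * W / 2 := by positivity
  have hmk := m.markov hB (fun x hx => add_nonneg (mul_nonneg hW0.le (hf1n x)) (hf2n x hx)) hpos
  have hle : m.Θ (ind fun b => dg K N b J ≤ c1 / 2) ≤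
      m.Θ (ind fun x => c1 * W / 2 ≤ (W : ℝ) * f1 x + f2 x) := by
    refine m.mono _ _ (ind_bdd _) (ind_bdd _) fun x hx => ?_
    unfold ind
    by_cases h : dg K N x J ≤ c1 / 2
    · rw [if_pos h, if_pos (hkey x hx h)]
    · rw [if_neg h]
      split_ifs
      · exact zero_le_one
      · exact le_rfl
  refine (hle.trans hmk).trans ?_
  rw [hΘ, div_le_iff₀ hpos]
  have e2 : 2 / c1 * ((∑ i ∈ range W, (dl m (1 + i) - D)) / W + 2 * ζ) * (c1 * W / 2) =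
      (∑ i ∈ range W, (dl m (1 + i) - D)) + 2 * ζ * W := by
    field_simp
  rw [e2]
  have g2' : m.Θ f2 < (∑ i ∈ range W, (dl m (1 + i) - D)) + W * ζ := g2
  nlinarith

end Pool.Agent.Lib.MP_d0d59f_nt.GE
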