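import Pool.Agent.Lib.MP_d0d59f_nt.GE.S5a

/-! Row ge_S5b: `D = log 3`. -/

namespace Pool.Agent.Lib.MP_d0d59f_nt.GE

open Finset Filter Topology

variable {K : Ker}

theorem s5b_log : Real.log 3 ≤ 2 := by
  have h4 : Real.log 3 ≤ Real.log 4 := Real.log_le_log (by norm_num) (by norm_num)
  have h5 : Real.log 4 = 2 * Real.log 2 := by
    rw [show (4 : ℝ) = 2 ^ 2 by norm_num, Real.log_pow]
    norm_num
  have h6 := Real.log_two_lt_d9
  linarith

/-- pointwise lower bound of the digit entropy -/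
theorem s5b_pt {c ζ : ℝ} (hζ : 0 ≤ ζ) (hc : ζ < c) (N : ℕ) (b : ℤ) (j : ℕ) :
    Real.log 3 - ζ - 2 * ind (fun b => dg K N b j ≤ c) b -
      2 * ind (fun b => ¬ GoodD K ζ N b j) b ≤ dg K N b j := by
  have h1 := dg_nonneg K N b j
  have h3 := s5b_log
  unfold ind
  by_cases hA : dg K N b j ≤ c
  · rw [if_pos hA]
    split_ifs
    · linarith
    · linarith
  · rw [if_neg hA]
    by_cases hG : GoodD K ζ N b j
    · rw [if_neg (not_not.mpr hG)]
      rcases hG with h | ⟨h, -⟩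
      · exact absurd (h.trans hc.le) hA
      · linarith
    · rw [if_pos hG]
      linarith

/-- `D ≥ log 3`. Take `c1, W0` from `window`, `W ≥ W0`, `ζ ∈ (0, c1/2)`, `j' = 1 + nL` with `n` large. For large `N`, outside a
set of mean `≤ ζ + (2/c1)(ε_W + 2ζ)`, `dg N b j' > c1/2 > ζ` and `GoodD` (`K_prime`), so `dg N b j' ≥ log 3 - ζ`. Hence
`Θ(dg N j') ≥ (log 3 - ζ)(1 - ζ - (2/c1)(ε_W + 2 ζ))` (if `ζ ≤ log 3`); `N → ∞`, `n → ∞`: the same bound for `D`. Then `ζ → 0` and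
`W → ∞` with `ε_W → 0` (Cesàro, `δ_j → D`). -/
theorem D_ge (m : Mean K) {D : ℝ} (hD : ∀ j, 1 ≤ j → D ≤ dl m j)
    (hlim : Tendsto (dl m) atTop (𝓝 D)) : Real.log 3 ≤ D := by
  obtain ⟨c1, hc1, W0, hwin⟩ := window K
  refine le_of_forall_pos_le_add fun ε hε => ?_
  obtain ⟨ζ, hζ, hζc, hζε⟩ : ∃ ζ : ℝ, 0 < ζ ∧ ζ < c1 / 2 ∧ 3 * ζ + 12 * ζ / c1 ≤ ε := by
    refine ⟨min (c1 / 4) (ε / (3 + 12 / c1)), lt_min (by positivity) (by positivity),
      lt_of_le_of_lt (min_le_left _ _) (by linarith), ?_⟩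
    have h1 : min (c1 / 4) (ε / (3 + 12 / c1)) ≤ ε / (3 + 12 / c1) := min_le_right _ _
    have h2 : (0 : ℝ) < 3 + 12 / c1 := by positivity
    rw [le_div_iff₀ h2] at h1
    calc 3 * min (c1 / 4) (ε / (3 + 12 / c1)) + 12 * min (c1 / 4) (ε / (3 + 12 / c1)) / c1
        = min (c1 / 4) (ε / (3 + 12 / c1)) * (3 + 12 / c1) := by ring
      _ ≤ ε := h1
  -- the window length
  have hces : Tendsto (fun W : ℕ => (∑ i ∈ range W, (dl m (1 + i) - D)) / W) atTop (𝓝 0) := by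
    have h1 : Tendsto (fun i => dl m (1 + i) - D) atTop (𝓝 0) := by
      have h2 : Tendsto (fun i => dl m (1 + i)) atTop (𝓝 D) :=
        hlim.comp (tendsto_add_atTop_nat 1 |>.congr fun n => by rw [add_comm])
      simpa using h2.sub_const D
    have h3 := h1.cesaro
    refine h3.congr fun W => ?_
    rw [div_eq_inv_mul]
  obtain ⟨W1, hW1⟩ := Filter.eventually_atTop.mp ((tendsto_order.mp hces).2 ζ hζ)
  obtain ⟨W, hW, hW0, hWζ⟩ : ∃ W : ℕ, 1 ≤ W ∧ W0 ≤ W ∧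
      (∑ i ∈ range W, (dl m (1 + i) - D)) / W < ζ :=
    ⟨max 1 (max W0 W1), le_max_left _ _, (le_max_left _ _).trans (le_max_right _ _),
      hW1 _ ((le_max_right _ _).trans (le_max_right _ _))⟩
  obtain ⟨n0, hn0⟩ := small_window m hD hc1 hW (hwin W hW0) hζ
  obtain ⟨j1, -, hK⟩ := K_prime m hζ
  -- the bound for the digit entropies
  have hL := K.hL
  have hmain : ∀ n, n0 + j1 ≤ n → Real.log 3 - ε ≤ dl m (1 + n * K.L) := by
    intro n hn
    have hj : j1 ≤ 1 + n * K.L := by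
      have := Nat.le_mul_of_pos_right n hL
      omega
    obtain ⟨N1, hN1⟩ := hn0 n (by omega)
    obtain ⟨N2, hN2⟩ := hK (1 + n * K.L) hj
    refine ge_of_tendsto (tendsto_dg m (1 + n * K.L))
      (Filter.eventually_atTop.mpr ⟨max N1 N2, fun N hN => ?_⟩)
    have h1 := hN1 N ((le_max_left _ _).trans hN)
    have h2 := hN2 N ((le_max_right _ _).trans hN)
    have hBA : Bdd (fun b => 2 * ind (fun b => dg K N b (1 + n * K.L) ≤ c1 / 2) b) :=
      (ind_bdd _).smul 2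
    have hBG : Bdd (fun b => 2 * ind (fun b => ¬ GoodD K ζ N b (1 + n * K.L)) b) :=
      (ind_bdd _).smul 2
    have h3 : m.Θ (fun b => (Real.log 3 - ζ) -
        2 * ind (fun b => dg K N b (1 + n * K.L) ≤ c1 / 2) b -
        2 * ind (fun b => ¬ GoodD K ζ N b (1 + n * K.L)) b) ≤
        m.Θ (fun b => dg K N b (1 + n * K.L)) :=
      m.mono _ _ (((Bdd.const _).sub hBA).sub hBG) (dg_bdd K N _)
        (fun b _ => s5b_pt hζ.le hζc N b _)
    rw [m.sub ((Bdd.const _).sub hBA) hBG, m.sub (Bdd.const _) hBA, m.const,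
      m.smul 2 _ (ind_bdd _), m.smul 2 _ (ind_bdd _)] at h3
    have h4 : m.Θ (fun x => ind (fun b => dg K N b (1 + n * K.L) ≤ c1 / 2) x) ≤
        2 / c1 * ((∑ i ∈ range W, (dl m (1 + i) - D)) / W + 2 * ζ) := h1
    have h5 : m.Θ (fun x => ind (fun b => ¬ GoodD K ζ N b (1 + n * K.L)) x) ≤ ζ := h2
    have h6 : 2 / c1 * ((∑ i ∈ range W, (dl m (1 + i) - D)) / W + 2 * ζ) ≤ 6 * ζ / c1 := by
      calc 2 / c1 * ((∑ i ∈ range W, (dl m (1 + i) - D)) / W + 2 * ζ)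
          ≤ 2 / c1 * (ζ + 2 * ζ) := by gcongr
        _ = 6 * ζ / c1 := by ring
    have h7 : 12 * ζ / c1 = 2 * (6 * ζ / c1) := by ring
    linarith
  have hsub : Tendsto (fun n => dl m (1 + n * K.L)) atTop (𝓝 D) := by
    refine hlim.comp (Filter.tendsto_atTop_mono (fun n => ?_) tendsto_id)
    have := Nat.le_mul_of_pos_right n hL
    simp only [id]
    omega
  have hfin := ge_of_tendsto hsub (Filter.eventually_atTop.mpr ⟨n0 + j1, hmain⟩)
  linarith

theorem dl_eq (m : Mean K) {j : ℕ} (hj : 1 ≤ j) : dl m j = Real.log 3 := by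
  obtain ⟨D, hD, hlim⟩ := exists_D m
  exact le_antisymm (dl_le m j) ((D_ge m hD hlim).trans (hD j hj))

end Pool.Agent.Lib.MP_d0d59f_nt.GE
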