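import Pool.Agent.Lib.MP_d0d59f_nt.GE.A1a
import Pool.Agent.Lib.MP_d0d59f_nt.AA.C2bPz

/-! Row ge_T1: the density `WW n` of the Syracuse variable modulo `3^n`. -/

namespace Pool.Agent.Lib.MP_d0d59f_nt.GE

open Finset

/-- Total mass of the Syracuse variable of `n` steps at the class `Y` modulo `3^K` (`d = 1`, `r = 0`). -/
noncomputable def tot (K n : ℕ) (Y : ZMod (3 ^ K)) : ℝ := ∑' l, AA.pz 1 0 K n l Y

/-- `WW n x = 3^n P(Syrac_n ≡ x mod 3^n)` = total weight of the words of length `n` with integer nodes at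
the root `x`. -/
noncomputable def WW (n : ℕ) (x : ℤ) : ℝ := 3 ^ n * tot n n (x : ZMod (3 ^ n))

theorem t1_pz_le (K n l : ℕ) (Y : ZMod (3 ^ K)) : AA.pz 1 0 K n l Y ≤ AA.nb n l := by
  rw [← AA.sum_pz 1 0 K n l]
  exact Finset.single_le_sum (f := fun Y => AA.pz 1 0 K n l Y)
    (fun Y _ => AA.pz_nonneg 1 0 K n l Y) (Finset.mem_univ Y)

/-- `pz ≤ nb n l` (`AA.sum_pz`, nonnegative terms) and `∑_l nb n l ≤ 1` (`AA.sum_nb_le_one`). -/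
theorem summable_pz (K n : ℕ) (Y : ZMod (3 ^ K)) : Summable (fun l => AA.pz 1 0 K n l Y) := by
  refine summable_of_sum_range_le (c := 1) (fun l => AA.pz_nonneg _ _ _ _ _ _) (fun N => ?_)
  calc ∑ l ∈ range N, AA.pz 1 0 K n l Y ≤ ∑ l ∈ range N, AA.nb n l :=
        Finset.sum_le_sum fun l _ => t1_pz_le K n l Y
    _ ≤ ∑ l ∈ range (N + 1), AA.nb n l :=
        Finset.sum_le_sum_of_subset_of_nonneg (Finset.range_mono (Nat.le_succ N))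
          (fun l _ _ => AA.nb_nonneg n l)
    _ ≤ 1 := AA.sum_nb_le_one n N

theorem tot_nonneg (K n : ℕ) (Y : ZMod (3 ^ K)) : 0 ≤ tot K n Y :=
  tsum_nonneg fun _ => AA.pz_nonneg _ _ _ _ _ _

theorem WW_nonneg (n : ℕ) (x : ℤ) : 0 ≤ WW n x :=
  mul_nonneg (by positivity) (tot_nonneg _ _ _)

/-- `∑_l nb n l = 1` (`AA.sum_nb_le_one`, `AA.one_sub_sum_nb_le` with `x = 3/2`). -/
theorem hasSum_nb (n : ℕ) : HasSum (fun l => AA.nb n l) 1 := by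
  rw [hasSum_iff_tendsto_nat_of_nonneg (fun l => AA.nb_nonneg n l)]
  rw [← Filter.tendsto_add_atTop_iff_nat 1]
  have h1 : Filter.Tendsto (fun L : ℕ => 1 - ((3 / 2 : ℝ)⁻¹) ^ (L + 1) * ((3 / 2 : ℝ) / (2 - 3 / 2)) ^ n)
      Filter.atTop (nhds (1 - 0 * ((3 / 2 : ℝ) / (2 - 3 / 2)) ^ n)) := by
    refine Filter.Tendsto.const_sub 1 (Filter.Tendsto.mul_const _ ?_)
    rw [Filter.tendsto_add_atTop_iff_nat (f := fun k => ((3 / 2 : ℝ)⁻¹) ^ k) 1]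
    exact tendsto_pow_atTop_nhds_zero_of_lt_one (by norm_num) (by norm_num)
  rw [zero_mul, sub_zero] at h1
  refine tendsto_of_tendsto_of_tendsto_of_le_of_le h1 tendsto_const_nhds ?_ ?_
  · intro L
    have := AA.one_sub_sum_nb_le n L (3 / 2) (by norm_num) (by norm_num)
    simp only
    linarith
  · intro L
    exact AA.sum_nb_le_one n L

theorem sum_tot (K n : ℕ) : ∑ Y : ZMod (3 ^ K), tot K n Y = 1 := by
  unfold tot
  rw [← Summable.tsum_finsetSum (fun Y _ => summable_pz K n Y)]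
  have : (fun l => ∑ Y : ZMod (3 ^ K), AA.pz 1 0 K n l Y) = fun l => AA.nb n l := by
    funext l
    exact AA.sum_pz 1 0 K n l
  rw [this]
  exact (hasSum_nb n).tsum_eq

theorem WW_congr {n : ℕ} {x y : ℤ} (h : x ≡ y [ZMOD 3 ^ n]) : WW n x = WW n y := by
  unfold WW
  have : ((x : ℤ) : ZMod (3 ^ n)) = ((y : ℤ) : ZMod (3 ^ n)) := by
    rw [ZMod.intCast_eq_intCast_iff]
    exact_mod_cast h
  rw [this]

/-- Mean one. -/
theorem sum_WW (n : ℕ) : ∑ x ∈ range (3 ^ n), WW n (x : ℤ) = 3 ^ n := by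
  unfold WW
  rw [← Finset.mul_sum]
  have h := AA.sum_range_eq_sum_zmod n (fun Y => tot n n Y)
  rw [sum_tot] at h
  have h2 : ∑ x ∈ range (3 ^ n), tot n n (((x : ℕ) : ℤ) : ZMod (3 ^ n)) = 1 := by
    rw [← h]
    refine Finset.sum_congr rfl fun x _ => ?_
    push_cast
    rfl
  rw [h2, mul_one]

theorem t1_two_i2 (K : ℕ) : (2 : ZMod (3 ^ K)) * AA.i2 K = 1 := by
  unfold AA.i2
  have : IsUnit (2 : ZMod (3 ^ K)) := by
    have h := (ZMod.isUnit_iff_coprime 2 (3 ^ K)).2 (Nat.Coprime.pow_right K (by norm_num))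
    exact_mod_cast h
  exact ZMod.mul_inv_of_unit _ this

/-- The condition `hz = x`, for `d = 1`, `r = 0`: `2^{-|e|} cc e = x` in `ℤ/3^K` iff
`3^K ∣ 2^{|e|} x - cc e`. -/
theorem hz_iff (K : ℕ) (e : List ℕ) (x : ℤ) :
    AA.hz 1 0 K e = (x : ZMod (3 ^ K)) ↔ (3 : ℤ) ^ K ∣ 2 ^ e.sum * x - (AA.cc e : ℤ) := by
  have h1 : AA.hz 1 0 K e = AA.i2 K ^ e.sum * (AA.cc e : ZMod (3 ^ K)) := by
    unfold AA.hz
    push_cast
    ring
  have h2 : (2 : ZMod (3 ^ K)) ^ e.sum * AA.i2 K ^ e.sum = 1 := by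
    rw [← mul_pow, t1_two_i2, one_pow]
  have h3 : (3 : ℤ) ^ K ∣ 2 ^ e.sum * x - (AA.cc e : ℤ) ↔
      (2 : ZMod (3 ^ K)) ^ e.sum * (x : ZMod (3 ^ K)) = (AA.cc e : ZMod (3 ^ K)) := by
    have h4 := ZMod.intCast_zmod_eq_zero_iff_dvd (2 ^ e.sum * x - (AA.cc e : ℤ)) (3 ^ K)
    push_cast at h4
    rw [← h4, sub_eq_zero]
  rw [h3, h1]
  constructor
  · intro h
    rw [← h, ← mul_assoc, h2, one_mul]
  · intro h
    rw [← h, ← mul_assoc, mul_comm (AA.i2 K ^ e.sum), h2, one_mul]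

/-- One step: `3^(n+1) ∣ 2^{|a::e|} x - cc (a::e)` iff `3 ∣ 2^a x - 1` and
`3^n ∣ 2^{|e|} stp a x - cc e`. (`2^{a+|e|} x - 2^{|e|} - 3 cc e = 2^{|e|} (2^a x - 1) - 3 cc e`.) -/
theorem node_iff (n a : ℕ) (e : List ℕ) (x : ℤ) :
    (3 : ℤ) ^ (n + 1) ∣ 2 ^ (a :: e).sum * x - (AA.cc (a :: e) : ℤ) ↔
      (3 : ℤ) ∣ 2 ^ a * x - 1 ∧ (3 : ℤ) ^ n ∣ 2 ^ e.sum * stp a x - (AA.cc e : ℤ) := by
  have h1 : (2 : ℤ) ^ (a :: e).sum * x - (AA.cc (a :: e) : ℤ) =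
      2 ^ e.sum * (2 ^ a * x - 1) - 3 * (AA.cc e : ℤ) := by
    rw [List.sum_cons, AA.cc, pow_add]
    push_cast
    ring
  rw [h1]
  constructor
  · intro h
    have h3 : (3 : ℤ) ∣ 2 ^ a * x - 1 := by
      have h4 : (3 : ℤ) ∣ 2 ^ e.sum * (2 ^ a * x - 1) - 3 * (AA.cc e : ℤ) :=
        (dvd_pow_self 3 (Nat.succ_ne_zero n)).trans h
      have h5 : (3 : ℤ) ∣ 2 ^ e.sum * (2 ^ a * x - 1) := by
        have := dvd_add h4 (dvd_mul_right 3 (AA.cc e : ℤ))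
        simpa using this
      have hc : IsCoprime (3 : ℤ) (2 ^ e.sum) := IsCoprime.pow_right (by norm_num)
      exact hc.dvd_of_dvd_mul_left h5
    refine ⟨h3, ?_⟩
    have h6 : 3 * stp a x = 2 ^ a * x - 1 := Int.mul_ediv_cancel' h3
    rw [← h6] at h
    have h7 : (2 : ℤ) ^ e.sum * (3 * stp a x) - 3 * (AA.cc e : ℤ) =
        3 * (2 ^ e.sum * stp a x - (AA.cc e : ℤ)) := by ring
    rw [h7, pow_succ, mul_comm ((3 : ℤ) ^ n) 3] at h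
    exact (mul_dvd_mul_iff_left (by norm_num : (3 : ℤ) ≠ 0)).1 h
  · rintro ⟨h3, h⟩
    have h6 : 3 * stp a x = 2 ^ a * x - 1 := Int.mul_ediv_cancel' h3
    rw [← h6]
    have h7 : (2 : ℤ) ^ e.sum * (3 * stp a x) - 3 * (AA.cc e : ℤ) =
        3 * (2 ^ e.sum * stp a x - (AA.cc e : ℤ)) := by ring
    rw [h7, pow_succ, mul_comm ((3 : ℤ) ^ n) 3]
    exact mul_dvd_mul_left 3 h

end Pool.Agent.Lib.MP_d0d59f_nt.GE
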