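import Pool.Agent.Lib.MP_d0d59f_nt.GE.T1

/-! Row ge_T2: the recursion inequality. -/

namespace Pool.Agent.Lib.MP_d0d59f_nt.GE

open Finset

/-- The part of `pz (n+1) (n+1) l x` with first letter `a`. -/
theorem t2_part (n : ℕ) (x : ℤ) {a l : ℕ} (ha : (3 : ℤ) ∣ 2 ^ a * x - 1) (hl : a ≤ l) :
    (1 / 2 : ℝ) ^ a * AA.pz 1 0 n n (l - a) (stp a x : ZMod (3 ^ n)) =
      (1 / 2 : ℝ) ^ l * ∑ e ∈ AA.comps n (l - a),
        if AA.hz 1 0 (n + 1) (a :: e) = (x : ZMod (3 ^ (n + 1))) then (1 : ℝ) else 0 := by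
  have h1 : ∀ e ∈ AA.comps n (l - a),
      (if AA.hz 1 0 (n + 1) (a :: e) = (x : ZMod (3 ^ (n + 1))) then (1 : ℝ) else 0) =
        if AA.hz 1 0 n e = (stp a x : ZMod (3 ^ n)) then (1 : ℝ) else 0 := by
    intro e _
    have h2 : AA.hz 1 0 (n + 1) (a :: e) = (x : ZMod (3 ^ (n + 1))) ↔
        AA.hz 1 0 n e = (stp a x : ZMod (3 ^ n)) := by
      rw [hz_iff, node_iff, hz_iff]
      exact ⟨fun h => h.2, fun h => ⟨ha, h⟩⟩
    rw [if_congr h2 rfl rfl]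
  rw [sum_congr rfl h1, ← sum_filter, sum_const, nsmul_eq_mul, mul_one]
  unfold AA.pz
  rw [← mul_assoc, ← pow_add, Nat.add_sub_cancel' hl]

/-- the terms of the sum over `l` -/
noncomputable def t2_F (n : ℕ) (x : ℤ) (a l : ℕ) : ℝ :=
  if a ≤ l then (1 / 2 : ℝ) ^ a * AA.pz 1 0 n n (l - a) (stp a x : ZMod (3 ^ n)) else 0

theorem t2_shift (n : ℕ) (x : ℤ) (a : ℕ) :
    (fun l => t2_F n x a (l + a)) =
      fun l => (1 / 2 : ℝ) ^ a * AA.pz 1 0 n n l (stp a x : ZMod (3 ^ n)) := by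
  funext l
  unfold t2_F
  rw [if_pos (Nat.le_add_left _ _), Nat.add_sub_cancel]

theorem t2_summable (n : ℕ) (x : ℤ) (a : ℕ) : Summable (t2_F n x a) := by
  rw [← summable_nat_add_iff a, t2_shift]
  exact (summable_pz n n _).mul_left _

theorem t2_tsum (n : ℕ) (x : ℤ) (a : ℕ) :
    ∑' l, t2_F n x a l = (1 / 2 : ℝ) ^ a * tot n n (stp a x : ZMod (3 ^ n)) := by
  rw [← (t2_summable n x a).sum_add_tsum_nat_add a, t2_shift, tsum_mul_left]
  have h0 : ∑ i ∈ range a, t2_F n x a i = 0 := by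
    refine sum_eq_zero fun i hi => ?_
    rw [mem_range] at hi
    unfold t2_F
    rw [if_neg (by omega)]
  rw [h0, zero_add]
  rfl

theorem t2_le (n : ℕ) (x : ℤ) (A : Finset ℕ)
    (hA : ∀ a ∈ A, 1 ≤ a ∧ (3 : ℤ) ∣ 2 ^ a * x - 1) (l : ℕ) :
    ∑ a ∈ A, t2_F n x a l ≤ AA.pz 1 0 (n + 1) (n + 1) l (x : ZMod (3 ^ (n + 1))) := by
  have h1 : AA.pz 1 0 (n + 1) (n + 1) l (x : ZMod (3 ^ (n + 1))) =
      ∑ a ∈ Icc 1 l, (1 / 2 : ℝ) ^ l * ∑ e ∈ AA.comps n (l - a),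
        if AA.hz 1 0 (n + 1) (a :: e) = (x : ZMod (3 ^ (n + 1))) then (1 : ℝ) else 0 := by
    unfold AA.pz
    rw [← mul_sum, ← AA.sum_comps_succ n l
      (fun e => if AA.hz 1 0 (n + 1) e = (x : ZMod (3 ^ (n + 1))) then (1 : ℝ) else 0),
      ← sum_filter, sum_const, nsmul_eq_mul, mul_one]
  rw [h1]
  have h2 : ∑ a ∈ A, t2_F n x a l = ∑ a ∈ A.filter (fun a => a ≤ l), (1 / 2 : ℝ) ^ l *
      ∑ e ∈ AA.comps n (l - a),
        if AA.hz 1 0 (n + 1) (a :: e) = (x : ZMod (3 ^ (n + 1))) then (1 : ℝ) else 0 := by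
    rw [sum_filter]
    refine sum_congr rfl fun a ha => ?_
    unfold t2_F
    split_ifs with h
    · exact t2_part n x (hA a ha).2 h
    · rfl
  rw [h2]
  refine sum_le_sum_of_subset_of_nonneg ?_ ?_
  · intro a ha
    rw [mem_filter] at ha
    exact mem_Icc.2 ⟨(hA a ha.1).1, ha.2⟩
  · intro a _ _
    refine mul_nonneg (by positivity) (sum_nonneg fun e _ => ?_)
    split_ifs <;> norm_num

/-- `WW (n+1) x ≥ ∑_{a ∈ A} (3/2^a) WW n (stp a x)` for every finite set `A` of letters applicable at `x`.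
For each `l`: `pz (n+1) (n+1) l x ≥ ∑_{a ∈ A, a ≤ l} 2^{-a} pz n n (l - a) (stp a x)`: the words `a :: e`,
`a ∈ A`, `e ∈ comps n (l-a)`, are distinct elements of `comps (n+1) l` (`AA.sum_comps_succ`, `hz_iff`, `node_iff`). Sum over `l`
(for fixed `a`, `l ↦ l - a`, `l ≥ a`, `Summable`). -/
theorem WW_rec (n : ℕ) (x : ℤ) (A : Finset ℕ)
    (hA : ∀ a ∈ A, 1 ≤ a ∧ (3 : ℤ) ∣ 2 ^ a * x - 1) :
    ∑ a ∈ A, 3 / 2 ^ a * WW n (stp a x) ≤ WW (n + 1) x := by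
  have h1 : ∑ a ∈ A, 3 / 2 ^ a * WW n (stp a x) = 3 ^ (n + 1) * ∑' l, ∑ a ∈ A, t2_F n x a l := by
    rw [Summable.tsum_finsetSum fun a _ => t2_summable n x a, mul_sum]
    refine sum_congr rfl fun a _ => ?_
    rw [t2_tsum]
    unfold WW
    rw [one_div, inv_pow, pow_succ]
    ring
  rw [h1]
  unfold WW tot
  refine mul_le_mul_of_nonneg_left ?_ (by positivity)
  exact Summable.tsum_le_tsum (t2_le n x A hA) (summable_sum fun a _ => t2_summable n x a)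
    (summable_pz (n + 1) (n + 1) _)

end Pool.Agent.Lib.MP_d0d59f_nt.GE
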