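import Pool.Agent.Lib.MP_d0d59f_nt.GE.T1
import Pool.Agent.Lib.MP_d0d59f_nt.AA.C7bSingle
import Pool.Agent.Lib.MP_d0d59f_nt.AA.C8Tele

/-! Row ge_T3: `WW n` is Cauchy in `L¹`. -/

namespace Pool.Agent.Lib.MP_d0d59f_nt.GE

open Finset Filter Topology

theorem t3_pz_zero (n l : ℕ) (Y : ZMod (3 ^ 0)) : AA.pz 1 0 0 n l Y = AA.nb n l := by
  have h := AA.sum_pz 1 0 0 n l
  rw [← h]
  have hY : ∀ Z : ZMod (3 ^ 0), Z = Y := by
    have : Subsingleton (ZMod (3 ^ 0)) := by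
      rw [pow_zero]
      infer_instance
    exact fun Z => Subsingleton.elim _ _
  rw [Finset.sum_eq_single Y (fun Z _ hZ => absurd (hY Z) hZ)
    (fun h => absurd (Finset.mem_univ _) h)]

/-- The law modulo `3^K` of `n + 1` steps is that of `n` steps for `n ≥ K`: for `e = e' ++ [b]`,
`cc (e' ++ [b]) = 2^b cc e' + 3^n` (`AA.cc_append`), so `hz 1 0 K (e' ++ [b]) = hz 1 0 K e'`; hence
`pz K (n+1) l Y = ∑_{s ≤ l} pz K n s Y * nb 1 (l - s)` (`AA.sum_comps_add` with `n + 1`; or `AA.pz_reduce`), and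
`∑_l nb 1 l = 1` (Cauchy product of nonnegative summable sequences, `tsum_mul_tsum_eq_tsum_sum_antidiagonal`). We need `n = K`. -/
theorem tot_succ (K : ℕ) (Y : ZMod (3 ^ K)) : tot K (K + 1) Y = tot K K Y := by
  cases K with
  | zero =>
    unfold tot
    simp only [t3_pz_zero]
    rw [(hasSum_nb 0).tsum_eq, (hasSum_nb (0 + 1)).tsum_eq]
  | succ K =>
    unfold tot
    have h1 : ∀ l, AA.pz 1 0 (K + 1) (K + 1 + 1) l Y =
        ∑ s ∈ range (l + 1), AA.pz 1 0 (K + 1) (K + 1) s Y * AA.nb 1 (l - s) := by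
      intro l
      have h := AA.pz_reduce 1 0 K (K + 1) (K + 1 + 1) l le_rfl (by omega) Y
      rw [h]
      refine Finset.sum_congr rfl fun s _ => ?_
      rw [show K + 1 + 1 - (K + 1) = 1 by omega]
    have hf := summable_pz (K + 1) (K + 1) Y
    have hg := (hasSum_nb 1).summable
    have h2 := tsum_mul_tsum_eq_tsum_sum_range_of_summable_norm hf.norm hg.norm
    rw [(hasSum_nb 1).tsum_eq, mul_one] at h2
    rw [h2]
    exact tsum_congr h1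

theorem t3_sum_pz (K n l : ℕ) :
    ∑ x ∈ range (3 ^ K), AA.pz 1 0 K n l ((x : ℤ) : ZMod (3 ^ K)) = AA.nb n l := by
  rw [← AA.sum_pz 1 0 K n l, ← AA.c2b_sum_range_zmod]
  refine Finset.sum_congr rfl fun x _ => ?_
  rw [Int.cast_natCast]

theorem t3_sum_tot (K n : ℕ) :
    ∑ x ∈ range (3 ^ K), tot K n ((x : ℤ) : ZMod (3 ^ K)) = 1 := by
  rw [← sum_tot K n, ← AA.c2b_sum_range_zmod]
  refine Finset.sum_congr rfl fun x _ => ?_
  rw [Int.cast_natCast]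

theorem t3_period (K : ℕ) (g : ZMod (3 ^ K) → ℝ) :
    ∑ x ∈ range (3 ^ (K + 1)), g ((x : ℤ) : ZMod (3 ^ K)) =
      3 * ∑ x ∈ range (3 ^ K), g ((x : ℤ) : ZMod (3 ^ K)) := by
  have h := AA.sum_range_periodic (K + 1) K (Nat.le_succ K) g
  simp only [Int.cast_natCast]
  rw [h, pow_succ]
  congr 1
  have : (3 : ℝ) ^ K ≠ 0 := by positivity
  field_simp

theorem t3_tail_nonneg (K n L : ℕ) (Y : ZMod (3 ^ K)) :
    0 ≤ tot K n Y - ∑ l ∈ range (L + 1), AA.pz 1 0 K n l Y := by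
  have := (summable_pz K n Y).sum_le_tsum (range (L + 1)) (fun l _ => AA.pz_nonneg 1 0 K n l Y)
  unfold tot
  linarith

theorem t3_main (K n L : ℕ) :
    ∑ x ∈ range (3 ^ (K + 1)), |tot (K + 1) n ((x : ℤ) : ZMod (3 ^ (K + 1))) -
        tot K n ((x : ℤ) : ZMod (3 ^ K)) / 3| ≤
      AA.osc 1 0 (K + 1) K n L + 2 * (1 - ∑ l ∈ range (L + 1), AA.nb n l) := by
  have hpt : ∀ x : ℕ, |tot (K + 1) n ((x : ℤ) : ZMod (3 ^ (K + 1))) -
        tot K n ((x : ℤ) : ZMod (3 ^ K)) / 3| ≤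
      ∑ l ∈ range (L + 1), |AA.pz 1 0 (K + 1) n l ((x : ℤ) : ZMod (3 ^ (K + 1))) -
        (3 : ℝ) ^ K / 3 ^ (K + 1) * AA.pz 1 0 K n l ((x : ℤ) : ZMod (3 ^ K))| +
      ((tot (K + 1) n ((x : ℤ) : ZMod (3 ^ (K + 1))) -
        ∑ l ∈ range (L + 1), AA.pz 1 0 (K + 1) n l ((x : ℤ) : ZMod (3 ^ (K + 1)))) +
      (tot K n ((x : ℤ) : ZMod (3 ^ K)) -
        ∑ l ∈ range (L + 1), AA.pz 1 0 K n l ((x : ℤ) : ZMod (3 ^ K))) / 3) := by
    intro x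
    have h1 := t3_tail_nonneg (K + 1) n L ((x : ℤ) : ZMod (3 ^ (K + 1)))
    have h2 := t3_tail_nonneg K n L ((x : ℤ) : ZMod (3 ^ K))
    have h3 : (3 : ℝ) ^ K / 3 ^ (K + 1) = 1 / 3 := by
      rw [pow_succ]
      have : (3 : ℝ) ^ K ≠ 0 := by positivity
      field_simp
    have h4 := Finset.abs_sum_le_sum_abs
      (fun l => AA.pz 1 0 (K + 1) n l ((x : ℤ) : ZMod (3 ^ (K + 1))) -
        1 / 3 * AA.pz 1 0 K n l ((x : ℤ) : ZMod (3 ^ K))) (range (L + 1))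
    rw [Finset.sum_sub_distrib, ← Finset.mul_sum] at h4
    rw [h3]
    have h5 := abs_le.1 h4
    rw [abs_le]
    constructor
    · have := h5.1
      linarith
    · have := h5.2
      linarith
  refine (Finset.sum_le_sum fun x _ => hpt x).trans (le_of_eq ?_)
  rw [Finset.sum_add_distrib, Finset.sum_add_distrib, Finset.sum_sub_distrib,
    ← Finset.sum_div]
  have e1 : ∑ x ∈ range (3 ^ (K + 1)), ∑ l ∈ range (L + 1),
      |AA.pz 1 0 (K + 1) n l ((x : ℤ) : ZMod (3 ^ (K + 1))) -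
        (3 : ℝ) ^ K / 3 ^ (K + 1) * AA.pz 1 0 K n l ((x : ℤ) : ZMod (3 ^ K))| =
      AA.osc 1 0 (K + 1) K n L := by
    unfold AA.osc
    rw [Finset.sum_comm]
    simp only [Int.cast_natCast]
  have e2 : ∑ x ∈ range (3 ^ (K + 1)), ∑ l ∈ range (L + 1),
      AA.pz 1 0 (K + 1) n l ((x : ℤ) : ZMod (3 ^ (K + 1))) = ∑ l ∈ range (L + 1), AA.nb n l := by
    rw [Finset.sum_comm]
    exact Finset.sum_congr rfl fun l _ => t3_sum_pz (K + 1) n l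
  have e3 : ∑ x ∈ range (3 ^ (K + 1)), (tot K n ((x : ℤ) : ZMod (3 ^ K)) -
        ∑ l ∈ range (L + 1), AA.pz 1 0 K n l ((x : ℤ) : ZMod (3 ^ K))) =
      3 * (1 - ∑ l ∈ range (L + 1), AA.nb n l) := by
    rw [t3_period K fun Y => tot K n Y - ∑ l ∈ range (L + 1), AA.pz 1 0 K n l Y,
      Finset.sum_sub_distrib, t3_sum_tot, Finset.sum_comm]
    congr 2
    exact Finset.sum_congr rfl fun l _ => t3_sum_pz K n l
  rw [e1, e2, e3, t3_sum_tot]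
  ring

/-- `∑_{x < 3^{K+1}} |WW (K+1) x - WW K x| ≤ 3^{K+1} C / (K+1)²`. With `n = K+1`, `tot_succ`:
`WW (K+1) x - WW K x = 3^{K+1} (tot (K+1) n x - tot K n x / 3)`, and
`∑_x |tot (K+1) n x - tot K n x / 3| ≤ osc 1 0 (K+1) K n (20 n) + 2 (1 - ∑_{l ≤ 20 n} nb n l)`
(split the series at `l = 20 n`; `∑_x pz (K+1) n l x = nb n l`, `∑_{x<3^{K+1}} pz K n l x / 3 = nb n l`:
`AA.sum_pz`, `AA.sum_range_periodic`). `AA.single_step` with `A = 3` (`20 n + 1 ≤ 21 n`): `osc ≤ 21 C / n²`; `AA.one_sub_sum_nb_le` with `x = 3/2`: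
`1 - ∑ ≤ (2/3)^{20 n} 3^n ≤ (3 (2/3)^{20})^n ≤ 2^{-n}`, `≤ 4 / n²`. -/
theorem WW_step : ∃ C : ℝ, 0 < C ∧ ∀ K : ℕ,
    ∑ x ∈ range (3 ^ (K + 1)), |WW (K + 1) (x : ℤ) - WW K (x : ℤ)| ≤
      3 ^ (K + 1) * (C / ((K : ℝ) + 1) ^ 2) := by
  obtain ⟨C, hC, hstep⟩ := AA.single_step (d := 1) (by norm_num) 3
  refine ⟨21 * C + 2, by linarith, fun K => ?_⟩
  have hn0 : (0 : ℝ) < (K : ℝ) + 1 := by positivity
  have h1 : ∑ x ∈ range (3 ^ (K + 1)), |WW (K + 1) (x : ℤ) - WW K (x : ℤ)| =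
      3 ^ (K + 1) * ∑ x ∈ range (3 ^ (K + 1)),
        |tot (K + 1) (K + 1) ((x : ℤ) : ZMod (3 ^ (K + 1))) -
        tot K (K + 1) ((x : ℤ) : ZMod (3 ^ K)) / 3| := by
    rw [Finset.mul_sum]
    refine Finset.sum_congr rfl fun x _ => ?_
    have h3 : (0 : ℝ) < 3 ^ (K + 1) := by positivity
    have h3' : WW (K + 1) (x : ℤ) - WW K (x : ℤ) = 3 ^ (K + 1) *
        (tot (K + 1) (K + 1) ((x : ℤ) : ZMod (3 ^ (K + 1))) -
        tot K (K + 1) ((x : ℤ) : ZMod (3 ^ K)) / 3) := by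
      unfold WW
      rw [tot_succ, pow_succ (3 : ℝ)]
      ring
    rw [h3', abs_mul, abs_of_pos h3]
  have h2 := t3_main K (K + 1) (20 * (K + 1))
  have h3 := hstep 0 K (K + 1) (20 * (K + 1)) le_rfl (by simp)
  have h4 := AA.one_sub_sum_nb_le (K + 1) (20 * (K + 1)) (3 / 2) (by norm_num) (by norm_num)
  have h5 : C * (((20 * (K + 1) : ℕ) : ℝ) + 1) / ((K : ℝ) + 1) ^ 3 ≤
      21 * C / ((K : ℝ) + 1) ^ 2 := by
    rw [div_le_div_iff₀ (by positivity) (by positivity)]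
    push_cast
    have h6 : 20 * ((K : ℝ) + 1) + 1 ≤ 21 * ((K : ℝ) + 1) := by
      have : (0 : ℝ) ≤ K := Nat.cast_nonneg K
      linarith
    calc C * (20 * ((K : ℝ) + 1) + 1) * ((K : ℝ) + 1) ^ 2
        ≤ C * (21 * ((K : ℝ) + 1)) * ((K : ℝ) + 1) ^ 2 := by gcongr
      _ = 21 * C * ((K : ℝ) + 1) ^ 3 := by ring
  have h7 : ((3 / 2 : ℝ)⁻¹) ^ (20 * (K + 1) + 1) * ((3 / 2) / (2 - 3 / 2)) ^ (K + 1) ≤
      1 / ((K : ℝ) + 1) ^ 2 := by
    have e1 : ((3 / 2 : ℝ)⁻¹) ^ (20 * (K + 1) + 1) * ((3 / 2) / (2 - 3 / 2)) ^ (K + 1) =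
        (((2 / 3 : ℝ) ^ 20 * 3) ^ (K + 1)) * (2 / 3) := by
      rw [mul_pow, ← pow_mul, pow_succ]
      norm_num
      ring
    rw [e1]
    have h8 : ((2 / 3 : ℝ) ^ 20 * 3) ^ (K + 1) ≤ (1 / 4) ^ (K + 1) :=
      pow_le_pow_left₀ (by positivity) (by norm_num) _
    have h9 : (1 / 4 : ℝ) ^ (K + 1) ≤ 1 / ((K : ℝ) + 1) ^ 2 := by
      have h10 : (K : ℝ) + 1 ≤ 2 ^ (K + 1) := by
        have : K + 1 ≤ 2 ^ (K + 1) := Nat.lt_two_pow_self.le
        exact_mod_cast this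
      have h11 : (1 / 4 : ℝ) ^ (K + 1) = 1 / ((2 : ℝ) ^ (K + 1)) ^ 2 := by
        rw [← pow_mul, mul_comm (K + 1) 2, pow_mul, one_div_pow]
        norm_num
      rw [h11]
      exact one_div_le_one_div_of_le (by positivity) (by gcongr)
    have h12 : 0 ≤ ((2 / 3 : ℝ) ^ 20 * 3) ^ (K + 1) := by positivity
    linarith
  have h13 : ∑ x ∈ range (3 ^ (K + 1)),
        |tot (K + 1) (K + 1) ((x : ℤ) : ZMod (3 ^ (K + 1))) -
        tot K (K + 1) ((x : ℤ) : ZMod (3 ^ K)) / 3| ≤ (21 * C + 2) / ((K : ℝ) + 1) ^ 2 := by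
    have e : (21 * C + 2) / ((K : ℝ) + 1) ^ 2 =
        21 * C / ((K : ℝ) + 1) ^ 2 + 2 * (1 / ((K : ℝ) + 1) ^ 2) := by ring
    rw [e]
    linarith
  rw [h1]
  exact mul_le_mul_of_nonneg_left h13 (by positivity)

theorem t3_periodW (k n : ℕ) (hkn : k ≤ n) :
    ∑ x ∈ range (3 ^ (n + 1)), |WW n (x : ℤ) - WW k (x : ℤ)| =
      3 * ∑ x ∈ range (3 ^ n), |WW n (x : ℤ) - WW k (x : ℤ)| := by
  have h := t3_period n fun Y => |WW n ((Y.val : ℕ) : ℤ) - WW k ((Y.val : ℕ) : ℤ)|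
  have hmod : ∀ x : ℕ, ((((x : ℤ) : ZMod (3 ^ n)).val : ℕ) : ℤ) ≡ (x : ℤ) [ZMOD 3 ^ n] := by
    intro x
    have h2 : ((3 ^ n : ℕ) : ℤ) = 3 ^ n := by push_cast; rfl
    rw [← h2, ← ZMod.intCast_eq_intCast_iff, Int.cast_natCast, ZMod.natCast_zmod_val]
  have hval : ∀ x : ℕ, |WW n ((((x : ℤ) : ZMod (3 ^ n)).val : ℕ) : ℤ) -
      WW k ((((x : ℤ) : ZMod (3 ^ n)).val : ℕ) : ℤ)| = |WW n (x : ℤ) - WW k (x : ℤ)| := by
    intro x
    rw [WW_congr (hmod x), WW_congr ((hmod x).of_dvd (pow_dvd_pow 3 hkn))]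
  simp only [hval] at h
  exact h

/-- Telescoping (`WW K` is periodic modulo `3^K`: sums over `range (3^n)` are `3^{n-K}` times sums over
`range (3^K)`), with `η k = C ∑_{j ≥ k} 1/(j+1)²`, the tail of a convergent series. -/
theorem WW_cauchy : ∃ η : ℕ → ℝ, Tendsto η atTop (𝓝 0) ∧ ∀ k n : ℕ, k ≤ n →
    ∑ x ∈ range (3 ^ n), |WW n (x : ℤ) - WW k (x : ℤ)| ≤ η k * 3 ^ n := by
  obtain ⟨C, hC, hW⟩ := WW_step
  have hsum : Summable fun j : ℕ => C / ((j : ℝ) + 1) ^ 2 := by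
    have h1 : Summable fun j : ℕ => 1 / ((j : ℝ)) ^ 2 :=
      Real.summable_one_div_nat_pow.2 (by norm_num)
    have h2 := (summable_nat_add_iff 1).2 h1
    have h3 := h2.mul_left C
    refine h3.congr fun j => ?_
    push_cast
    ring
  refine ⟨fun k => ∑' j, C / (((j + k : ℕ) : ℝ) + 1) ^ 2,
    tendsto_sum_nat_add fun j : ℕ => C / ((j : ℝ) + 1) ^ 2, ?_⟩
  have key : ∀ k m : ℕ, ∑ x ∈ range (3 ^ (k + m)), |WW (k + m) (x : ℤ) - WW k (x : ℤ)| ≤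
      (∑ j ∈ range m, C / (((j + k : ℕ) : ℝ) + 1) ^ 2) * 3 ^ (k + m) := by
    intro k m
    induction m with
    | zero => simp
    | succ m ih =>
      have h1 : ∑ x ∈ range (3 ^ (k + m + 1)), |WW (k + m + 1) (x : ℤ) - WW k (x : ℤ)| ≤
          ∑ x ∈ range (3 ^ (k + m + 1)), |WW (k + m + 1) (x : ℤ) - WW (k + m) (x : ℤ)| +
          ∑ x ∈ range (3 ^ (k + m + 1)), |WW (k + m) (x : ℤ) - WW k (x : ℤ)| := by
        rw [← Finset.sum_add_distrib]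
        exact Finset.sum_le_sum fun x _ => abs_sub_le _ _ _
      have h2 := hW (k + m)
      rw [t3_periodW k (k + m) (Nat.le_add_right k m)] at h1
      rw [← Nat.add_assoc, Finset.sum_range_succ]
      have e3 : (3 : ℝ) ^ (k + m + 1) = 3 ^ (k + m) * 3 := pow_succ _ _
      rw [e3] at h2 ⊢
      push_cast at h2 ⊢
      have e1 : (m : ℝ) + k = k + m := by ring
      rw [e1]
      calc _ ≤ _ := h1
        _ ≤ 3 ^ (k + m) * 3 * (C / ((k : ℝ) + m + 1) ^ 2) +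
            3 * ((∑ j ∈ range m, C / (((j + k : ℕ) : ℝ) + 1) ^ 2) * 3 ^ (k + m)) := by
          gcongr
        _ = _ := by push_cast; ring
  intro k n hkn
  obtain ⟨m, rfl⟩ := Nat.exists_eq_add_of_le hkn
  refine (key k m).trans ?_
  refine mul_le_mul_of_nonneg_right ?_ (by positivity)
  refine Summable.sum_le_tsum (range m) (fun j _ => by positivity) ?_
  exact (summable_nat_add_iff k).2 hsum

end Pool.Agent.Lib.MP_d0d59f_nt.GE
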