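import Pool.Agent.Lib.MP_d0d59f_nt.GE.T3

/-! Row ge_T5a: the densities are not small on a set of positive measure. -/

namespace Pool.Agent.Lib.MP_d0d59f_nt.GE

open Finset Filter Topology

theorem t5a_le (k : ℕ) (x : ℤ) : WW k x ≤ 3 ^ k := by
  have h3 : (0 : ℤ) < 3 ^ k := by positivity
  have hx0 : 0 ≤ x % (3 ^ k) := Int.emod_nonneg _ h3.ne'
  have hx1 : x % (3 ^ k) < 3 ^ k := Int.emod_lt_of_pos _ h3
  obtain ⟨y, hy⟩ := Int.eq_ofNat_of_zero_le hx0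
  have hcong : WW k x = WW k (y : ℤ) := by
    apply WW_congr
    rw [← hy]
    exact (Int.mod_modEq x (3 ^ k)).symm
  have hymem : y ∈ range (3 ^ k) := by
    rw [mem_range]
    have : (y : ℤ) < 3 ^ k := by rw [← hy]; exact hx1
    exact_mod_cast this
  rw [hcong, ← sum_WW k]
  exact single_le_sum (f := fun x : ℕ => WW k (x : ℤ)) (fun i _ => WW_nonneg k _) hymem

/-- Fix `k0` with `η k ≤ 1/4` for `k ≥ k0` (`WW_cauchy`), `B = max 1 (max_{x < 3^{k0}} WW k0 x)`. For `k ≥ k0`: the sum of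
`WW k` over the `x` with `WW k x < 1/4` is `≤ 3^k/4`, so the sum over the others is `≥ (3/4) 3^k` (`sum_WW`), and it is
`≤ ∑ |WW k - WW k0| + B #{...} ≤ 3^k/4 + B #{...}`. So `#{...} ≥ 3^k/(2B)`. -/
theorem WW_pos : ∃ c2 : ℝ, 0 < c2 ∧ ∃ k0 : ℕ, ∀ k, k0 ≤ k →
    c2 * 3 ^ k ≤ (((range (3 ^ k)).filter fun x : ℕ => (1 / 4 : ℝ) ≤ WW k (x : ℤ)).card : ℝ) := by
  obtain ⟨η, hη, hc⟩ := WW_cauchy
  have hev : ∀ᶠ k in atTop, η k < 1 / 4 := hη.eventually (gt_mem_nhds (by norm_num))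
  obtain ⟨k0, hk0⟩ := hev.exists
  refine ⟨1 / (2 * 3 ^ k0), by positivity, k0, fun k hk => ?_⟩
  have h1 := sum_WW k
  have h2 := hc k0 k hk
  set F := (range (3 ^ k)).filter fun x : ℕ => (1 / 4 : ℝ) ≤ WW k (x : ℤ) with hF
  have hsplit : ∑ x ∈ range (3 ^ k), WW k (x : ℤ) =
      ∑ x ∈ F, WW k (x : ℤ) +
        ∑ x ∈ (range (3 ^ k)).filter (fun x : ℕ => ¬ (1 / 4 : ℝ) ≤ WW k (x : ℤ)), WW k (x : ℤ) :=
    (sum_filter_add_sum_filter_not _ _ _).symm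
  have hsmall : ∑ x ∈ (range (3 ^ k)).filter (fun x : ℕ => ¬ (1 / 4 : ℝ) ≤ WW k (x : ℤ)), WW k (x : ℤ)
      ≤ 3 ^ k * (1 / 4) := by
    calc ∑ x ∈ (range (3 ^ k)).filter (fun x : ℕ => ¬ (1 / 4 : ℝ) ≤ WW k (x : ℤ)), WW k (x : ℤ)
        ≤ ∑ x ∈ (range (3 ^ k)).filter (fun x : ℕ => ¬ (1 / 4 : ℝ) ≤ WW k (x : ℤ)), (1 / 4 : ℝ) := by
          apply sum_le_sum
          intro i hi
          exact (not_le.1 (mem_filter.1 hi).2).le
      _ ≤ ∑ x ∈ range (3 ^ k), (1 / 4 : ℝ) := by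
          apply sum_le_sum_of_subset_of_nonneg (filter_subset _ _)
          intro i _ _; norm_num
      _ = 3 ^ k * (1 / 4) := by
          rw [sum_const, card_range, nsmul_eq_mul]; push_cast; ring
  have hbig : ∑ x ∈ F, WW k (x : ℤ) ≤ η k0 * 3 ^ k + F.card * 3 ^ k0 := by
    calc ∑ x ∈ F, WW k (x : ℤ)
        ≤ ∑ x ∈ F, (|WW k (x : ℤ) - WW k0 (x : ℤ)| + 3 ^ k0) := by
          apply sum_le_sum
          intro i _
          have := le_abs_self (WW k (i : ℤ) - WW k0 (i : ℤ))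
          have h' := t5a_le k0 (i : ℤ)
          linarith
      _ = ∑ x ∈ F, |WW k (x : ℤ) - WW k0 (x : ℤ)| + F.card * 3 ^ k0 := by
          rw [sum_add_distrib, sum_const, nsmul_eq_mul]
      _ ≤ ∑ x ∈ range (3 ^ k), |WW k (x : ℤ) - WW k0 (x : ℤ)| + F.card * 3 ^ k0 := by
          gcongr
          exact filter_subset _ _
      _ ≤ η k0 * 3 ^ k + F.card * 3 ^ k0 := by gcongr
  have hp : (0 : ℝ) < 3 ^ k := by positivity
  have hp0 : (0 : ℝ) < 3 ^ k0 := by positivity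
  have hmul : η k0 * 3 ^ k ≤ 1 / 4 * 3 ^ k := by gcongr
  have hfin : (3 : ℝ) ^ k ≤ 2 * (F.card * 3 ^ k0) := by
    rw [hsplit] at h1
    linarith
  rw [div_mul_eq_mul_div, one_mul, div_le_iff₀ (by positivity)]
  linarith

end Pool.Agent.Lib.MP_d0d59f_nt.GE
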