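import Pool.Agent.Lib.MP_d0d59f_nt.GE.T1

/-! Row ge_T5b: the full cycle `z ↦ 4 z + 1`. -/

namespace Pool.Agent.Lib.MP_d0d59f_nt.GE

open Finset Filter Topology

theorem t5b_iter (j : ℕ) (u : ℤ) :
    3 * (fun z : ℤ => 4 * z + 1)^[j] u = 4 ^ j * (3 * u + 1) - 1 := by
  induction j with
  | zero => simp
  | succ n ih =>
    rw [Function.iterate_succ_apply']
    have : 3 * (4 * (fun z : ℤ => 4 * z + 1)^[n] u + 1) =
        4 * (3 * (fun z : ℤ => 4 * z + 1)^[n] u) + 3 := by ring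
    show 3 * (4 * (fun z : ℤ => 4 * z + 1)^[n] u + 1) = _
    rw [this, ih]
    ring

theorem t5b_lte (k m : ℕ) (h : (3 : ℤ) ^ (k + 1) ∣ 4 ^ m - 1) : 3 ^ k ∣ m := by
  rcases Nat.eq_zero_or_pos m with rfl | hm
  · exact dvd_zero _
  have h1 : emultiplicity (3 : ℤ) ((4 : ℤ) ^ m - 1 ^ m) =
      emultiplicity (3 : ℤ) ((4 : ℤ) - 1) + emultiplicity 3 m := by
    have := Int.emultiplicity_pow_sub_pow (p := 3) (by norm_num) (by decide)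
      (x := (4 : ℤ)) (y := 1) (by norm_num) (by norm_num) m
    exact_mod_cast this
  have h2 : emultiplicity (3 : ℤ) ((4 : ℤ) - 1) = 1 := by
    have h : (4 : ℤ) - 1 = 3 ^ 1 := by norm_num
    have hu : ¬ IsUnit (3 : ℤ) := by decide
    rw [h, emultiplicity_pow_self (by norm_num) hu]
    rfl
  rw [one_pow, h2] at h1
  have h3 : ((k + 1 : ℕ) : ℕ∞) ≤ emultiplicity (3 : ℤ) ((4 : ℤ) ^ m - 1) :=
    le_emultiplicity_of_pow_dvd h
  rw [h1] at h3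
  apply pow_dvd_of_le_emultiplicity
  have h4 : (1 : ℕ∞) + (k : ℕ∞) ≤ 1 + emultiplicity 3 m := by
    calc (1 : ℕ∞) + (k : ℕ∞) = ((k + 1 : ℕ) : ℕ∞) := by push_cast; ring
      _ ≤ _ := h3
  exact (ENat.add_le_add_iff_left (by simp)).1 h4

theorem t5b_aux (k : ℕ) (u : ℤ) (i j : ℕ) (hij : i ≤ j) (hj : j < 3 ^ k)
    (h : (fun z : ℤ => 4 * z + 1)^[i] u ≡ (fun z : ℤ => 4 * z + 1)^[j] u [ZMOD 3 ^ k]) : i = j := by
  have hd : (3 : ℤ) ^ k ∣ (fun z : ℤ => 4 * z + 1)^[j] u - (fun z : ℤ => 4 * z + 1)^[i] u :=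
    h.dvd
  have hd3 : (3 : ℤ) ^ (k + 1) ∣ 4 ^ i * ((4 ^ (j - i) - 1) * (3 * u + 1)) := by
    have h1 : (3 : ℤ) ^ (k + 1) ∣
        3 * ((fun z : ℤ => 4 * z + 1)^[j] u - (fun z : ℤ => 4 * z + 1)^[i] u) := by
      rw [pow_succ, mul_comm]
      exact mul_dvd_mul_left 3 hd
    have h2 : 3 * ((fun z : ℤ => 4 * z + 1)^[j] u - (fun z : ℤ => 4 * z + 1)^[i] u) =
        4 ^ i * ((4 ^ (j - i) - 1) * (3 * u + 1)) := by
      rw [mul_sub, t5b_iter, t5b_iter]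
      have : (4 : ℤ) ^ j = 4 ^ i * 4 ^ (j - i) := by rw [← pow_add]; congr 1; omega
      rw [this]; ring
    rwa [h2] at h1
  have hc1 : IsCoprime ((3 : ℤ) ^ (k + 1)) (4 ^ i) :=
    IsCoprime.pow (by exact ⟨-1, 1, by norm_num⟩)
  have hc2 : IsCoprime ((3 : ℤ) ^ (k + 1)) (3 * u + 1) :=
    IsCoprime.pow_left ⟨-u, 1, by ring⟩
  have h3 : (3 : ℤ) ^ (k + 1) ∣ 4 ^ (j - i) - 1 :=
    hc2.dvd_of_dvd_mul_right (hc1.dvd_of_dvd_mul_left hd3)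
  have h4 := t5b_lte k (j - i) h3
  have h5 : j - i = 0 := Nat.eq_zero_of_dvd_of_lt h4 (by omega)
  omega

/-- `T z = 4 z + 1` is a full cycle modulo `3^k`: for every `u` the map `j ↦ T^j u mod 3^k`, `j < 3^k`, is a
bijection onto the residues. `T^j u = 4^j u + (4^j - 1)/3`; if `T^i u ≡ T^j u mod 3^k` (`i < j < 3^k`) then
`(4^{j-i} - 1)(3u + 1) ≡ 0 mod 3^{k+1}`, so `3^{k+1} ∣ 4^{j-i} - 1`, so `3^k ∣ j - i` (lifting the exponent: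
`v_3(4^m - 1) = 1 + v_3(m)`). -/
theorem run_inj (k : ℕ) (u : ℤ) : ∀ i < 3 ^ k, ∀ j < 3 ^ k,
    (fun z : ℤ => 4 * z + 1)^[i] u ≡ (fun z : ℤ => 4 * z + 1)^[j] u [ZMOD 3 ^ k] → i = j := by
  intro i hi j hj h
  rcases le_total i j with hij | hij
  · exact t5b_aux k u i j hij hj h
  · exact (t5b_aux k u j i hij hi h.symm).symm

/-- `stp (a + 2 j) x = T^j (stp a x)` for an applicable letter `a`. -/
theorem stp_run {x : ℤ} {a : ℕ} (h : (3 : ℤ) ∣ 2 ^ a * x - 1) (j : ℕ) :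
    (3 : ℤ) ∣ 2 ^ (a + 2 * j) * x - 1 ∧
      stp (a + 2 * j) x = (fun z : ℤ => 4 * z + 1)^[j] (stp a x) := by
  obtain ⟨c, hc⟩ := h
  have hs : stp a x = c := by
    unfold stp; rw [hc]; exact Int.mul_ediv_cancel_left _ (by norm_num)
  have h2 : (2 : ℤ) ^ (a + 2 * j) = 4 ^ j * 2 ^ a := by
    rw [pow_add, pow_mul]; norm_num; ring
  have h3 : (2 : ℤ) ^ (a + 2 * j) * x - 1 = 3 * (fun z : ℤ => 4 * z + 1)^[j] c := by
    rw [t5b_iter, h2]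
    have : (2 : ℤ) ^ a * x = 3 * c + 1 := by linarith
    rw [mul_assoc, this]
  refine ⟨⟨_, h3⟩, ?_⟩
  rw [hs]
  unfold stp
  rw [h3]
  exact Int.mul_ediv_cancel_left _ (by norm_num)

end Pool.Agent.Lib.MP_d0d59f_nt.GE
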