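import Pool.Agent.Lib.MP_d0d59f_nt.GE.T2
import Pool.Agent.Lib.MP_d0d59f_nt.GE.T5b

/-! Row ge_T6a: runs of the cycle `T`. -/

namespace Pool.Agent.Lib.MP_d0d59f_nt.GE

open Finset Filter Topology

/-- If `WW (n+1) x ≤ (3/4) 4^{-3^k} / 8` (`x` in the class `c ∈ {1,2}`), then with `a = 2` (`c = 1`) or `a = 1` (`c = 2`) and
`u = stp a x`: `WW n (T^j u) ≤ 1/8` for all `j < 3^k`: `WW_rec` with `A = {a + 2j}` and `stp_run`:
`(3/4) 4^{-j} WW n (T^j u) ≤ WW (n+1) x`. -/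
theorem low_run {n k : ℕ} {x : ℤ} {a : ℕ} (ha : 1 ≤ a ∧ a ≤ 2) (h : (3 : ℤ) ∣ 2 ^ a * x - 1)
    (hx : WW (n + 1) x ≤ 3 / 4 / 4 ^ (3 ^ k) / 8) : ∀ j < 3 ^ k,
    WW n ((fun z : ℤ => 4 * z + 1)^[j] (stp a x)) ≤ 1 / 8 := by
  intro j hj
  obtain ⟨h1, h2⟩ := stp_run h j
  have h3 := WW_rec n x {a + 2 * j} (by
    intro b hb
    rw [Finset.mem_singleton] at hb
    subst hb
    exact ⟨by omega, h1⟩)
  rw [Finset.sum_singleton, h2] at h3
  set W := WW n ((fun z : ℤ => 4 * z + 1)^[j] (stp a x)) with hW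
  have hW0 : 0 ≤ W := WW_nonneg _ _
  have h4 : (2 : ℝ) ^ (a + 2 * j) ≤ 4 * 4 ^ j := by
    rw [pow_add, pow_mul]
    have h5 : (2 : ℝ) ^ a ≤ 4 := by
      calc (2 : ℝ) ^ a ≤ 2 ^ 2 := pow_le_pow_right₀ (by norm_num) ha.2
        _ = 4 := by norm_num
    have h6 : ((2 : ℝ) ^ 2) = 4 := by norm_num
    rw [h6]
    exact mul_le_mul_of_nonneg_right h5 (by positivity)
  have h7 : 3 / (4 * 4 ^ j) * W ≤ 3 / 4 / 4 ^ (3 ^ k) / 8 := by
    refine le_trans (mul_le_mul_of_nonneg_right ?_ hW0) (h3.trans hx)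
    exact div_le_div_of_nonneg_left (by norm_num) (by positivity) h4
  have h8 : (4 : ℝ) ^ j ≤ 4 ^ (3 ^ k) := pow_le_pow_right₀ (by norm_num) hj.le
  have hp : (0 : ℝ) < 4 ^ j := by positivity
  have hq : (0 : ℝ) < 4 ^ (3 ^ k) := by positivity
  have h9 : W = (4 * 4 ^ j / 3) * (3 / (4 * 4 ^ j) * W) := by
    field_simp
  rw [h9]
  calc (4 * 4 ^ j / 3 : ℝ) * (3 / (4 * 4 ^ j) * W)
      ≤ (4 * 4 ^ j / 3 : ℝ) * (3 / 4 / 4 ^ (3 ^ k) / 8) :=
        mul_le_mul_of_nonneg_left h7 (by positivity)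
    _ = 4 ^ j / 4 ^ (3 ^ k) * (1 / 8) := by
        field_simp
    _ ≤ 1 * (1 / 8) := by
        refine mul_le_mul_of_nonneg_right ?_ (by norm_num)
        rw [div_le_one hq]
        exact h8
    _ = 1 / 8 := by norm_num

theorem t6a_sum (N : ℕ) [NeZero N] (φ : ZMod N → ℝ) :
    ∑ i ∈ range N, φ (i : ZMod N) = ∑ z, φ z := by
  refine Finset.sum_nbij' (fun i : ℕ => (i : ZMod N)) (fun z => z.val) ?_ ?_ ?_ ?_ ?_
  · intro i _
    exact Finset.mem_univ _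
  · intro z _
    exact Finset.mem_range.mpr (ZMod.val_lt z)
  · intro i hi
    exact ZMod.val_cast_of_lt (Finset.mem_range.mp hi)
  · intro z _
    exact ZMod.natCast_zmod_val z
  · intro i _
    rfl

/-- `∑_{i < 3^n} ∑_{j < 3^k} |WW n - WW k| (T^j u_i) = 3^k ∑_{z < 3^n} |WW n - WW k|(z)` when `i ↦ u_i mod 3^n` is a
bijection of `range (3^n)` with the residues: `T` is a bijection modulo `3^n`, `k ≤ n`. Here `u_i = 1 + 2^a i`
(`a = 1, 2`), which is `stp a (c + 3 i)` for `c = 1, a = 2` and `c = 2, a = 1`. -/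
theorem sum_run (n k : ℕ) (hk : k ≤ n) (a : ℕ) :
    ∑ i ∈ range (3 ^ n), ∑ j ∈ range (3 ^ k),
      |WW n ((fun z : ℤ => 4 * z + 1)^[j] (1 + 2 ^ a * (i : ℤ))) -
        WW k ((fun z : ℤ => 4 * z + 1)^[j] (1 + 2 ^ a * (i : ℤ)))| =
      3 ^ k * ∑ z ∈ range (3 ^ n), |WW n (z : ℤ) - WW k (z : ℤ)| := by
  have : NeZero (3 ^ n) := ⟨by positivity⟩
  set F : ZMod (3 ^ n) → ℝ := fun z => |WW n ((z.val : ℕ) : ℤ) - WW k ((z.val : ℕ) : ℤ)| with hF
  have hval : ∀ x : ℤ, |WW n x - WW k x| = F (x : ZMod (3 ^ n)) := by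
    intro x
    have h1 : x ≡ (((x : ZMod (3 ^ n)).val : ℕ) : ℤ) [ZMOD 3 ^ n] := by
      have h2 : ((x : ℤ) : ZMod (3 ^ n)) =
          (((((x : ZMod (3 ^ n)).val : ℕ) : ℤ)) : ZMod (3 ^ n)) := by
        rw [Int.cast_natCast, ZMod.natCast_zmod_val]
      have h3 := (ZMod.intCast_eq_intCast_iff _ _ _).mp h2
      exact_mod_cast h3
    rw [hF]
    simp only []
    rw [← WW_congr h1, ← WW_congr (h1.of_dvd (pow_dvd_pow 3 hk))]
  have hun : ∀ m : ℕ, Nat.Coprime m 3 → IsUnit (m : ZMod (3 ^ n)) := by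
    intro m hm
    exact (ZMod.isUnit_iff_coprime m (3 ^ n)).mpr (Nat.Coprime.pow_right n hm)
  have hT : Function.Bijective (fun z : ZMod (3 ^ n) => 4 * z + 1) := by
    rw [← Finite.injective_iff_bijective]
    intro z w hzw
    have h4 : IsUnit (4 : ZMod (3 ^ n)) := by
      exact_mod_cast hun 4 (by norm_num)
    exact h4.mul_left_cancel (add_right_cancel hzw)
  have hU : Function.Bijective (fun z : ZMod (3 ^ n) => 1 + 2 ^ a * z) := by
    rw [← Finite.injective_iff_bijective]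
    intro z w hzw
    have h2 : IsUnit (2 : ZMod (3 ^ n)) := by
      exact_mod_cast hun 2 (by norm_num)
    exact (h2.pow a).mul_left_cancel (add_left_cancel hzw)
  have hit : ∀ (j : ℕ) (u : ℤ), (((fun z : ℤ => 4 * z + 1)^[j] u : ℤ) : ZMod (3 ^ n)) =
      (fun z : ZMod (3 ^ n) => 4 * z + 1)^[j] (u : ZMod (3 ^ n)) := by
    intro j
    induction j with
    | zero =>
      intro u
      rfl
    | succ j ih =>
      intro u
      rw [Function.iterate_succ_apply', Function.iterate_succ_apply', ← ih u]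
      push_cast
      rfl
  rw [Finset.sum_comm]
  have hj : ∀ j ∈ range (3 ^ k), ∑ i ∈ range (3 ^ n),
      |WW n ((fun z : ℤ => 4 * z + 1)^[j] (1 + 2 ^ a * (i : ℤ))) -
        WW k ((fun z : ℤ => 4 * z + 1)^[j] (1 + 2 ^ a * (i : ℤ)))| =
      ∑ z ∈ range (3 ^ n), |WW n (z : ℤ) - WW k (z : ℤ)| := by
    intro j _
    have e1 : ∀ i ∈ range (3 ^ n),
        |WW n ((fun z : ℤ => 4 * z + 1)^[j] (1 + 2 ^ a * (i : ℤ))) -
          WW k ((fun z : ℤ => 4 * z + 1)^[j] (1 + 2 ^ a * (i : ℤ)))| =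
        (fun z => F ((fun z : ZMod (3 ^ n) => 4 * z + 1)^[j] (1 + 2 ^ a * z)))
          ((i : ℕ) : ZMod (3 ^ n)) := by
      intro i _
      rw [hval, hit]
      push_cast
      rfl
    have e2 : ∀ i ∈ range (3 ^ n), |WW n (i : ℤ) - WW k (i : ℤ)| = F ((i : ℕ) : ZMod (3 ^ n)) := by
      intro i _
      rw [hval]
      push_cast
      rfl
    rw [Finset.sum_congr rfl e1, Finset.sum_congr rfl e2]
    have s1 := t6a_sum (3 ^ n)
      (fun z => F ((fun z : ZMod (3 ^ n) => 4 * z + 1)^[j] (1 + 2 ^ a * z)))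
    have s2 := t6a_sum (3 ^ n) F
    have s3 := Function.Bijective.sum_comp ((hT.iterate j).comp hU) F
    exact s1.trans (s3.trans s2.symm)
  rw [Finset.sum_congr rfl hj, Finset.sum_const, Finset.card_range, nsmul_eq_mul]
  push_cast
  rfl

end Pool.Agent.Lib.MP_d0d59f_nt.GE
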