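import Pool.Agent.Lib.MP_d0d59f_nt.GE.T5a
import Pool.Agent.Lib.MP_d0d59f_nt.GE.T6a

/-! Row ge_T6b: the densities are bounded below outside a small set. -/

namespace Pool.Agent.Lib.MP_d0d59f_nt.GE

open Finset Filter Topology

/-- Along a run of length `3^k` of the full cycle `T`, the number of large values of `WW k` is at least
the number of residues with a large value. -/
theorem t6b_count (k : ℕ) (u : ℤ) :
    ((range (3 ^ k)).filter fun x : ℕ => (1 / 4 : ℝ) ≤ WW k (x : ℤ)).card ≤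
      ((range (3 ^ k)).filter fun j : ℕ =>
        (1 / 4 : ℝ) ≤ WW k ((fun z : ℤ => 4 * z + 1)^[j] u)).card := by
  classical
  have h3 : (0 : ℤ) < 3 ^ k := by positivity
  set φ : ℕ → ℕ := fun j => (((fun z : ℤ => 4 * z + 1)^[j] u) % 3 ^ k).toNat with hφ
  have hφc : ∀ j, ((φ j : ℕ) : ℤ) = ((fun z : ℤ => 4 * z + 1)^[j] u) % 3 ^ k := by
    intro j
    exact Int.toNat_of_nonneg (Int.emod_nonneg _ h3.ne')
  have hφm : ∀ j, ((φ j : ℕ) : ℤ) ≡ (fun z : ℤ => 4 * z + 1)^[j] u [ZMOD 3 ^ k] := by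
    intro j
    rw [hφc j]
    exact Int.mod_modEq _ _
  have hmem : ∀ j, φ j ∈ range (3 ^ k) := by
    intro j
    rw [Finset.mem_range]
    have h1 := Int.emod_lt_of_pos ((fun z : ℤ => 4 * z + 1)^[j] u) h3
    rw [← hφc j] at h1
    exact_mod_cast h1
  have hinj : Set.InjOn φ (range (3 ^ k) : Finset ℕ) := by
    intro i hi j hj hij
    refine run_inj k u i (Finset.mem_range.1 (Finset.mem_coe.1 hi)) j
      (Finset.mem_range.1 (Finset.mem_coe.1 hj)) ?_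
    have h1 := hφm i
    rw [hij] at h1
    exact h1.symm.trans (hφm j)
  have himg : (range (3 ^ k)).image φ = range (3 ^ k) := by
    refine Finset.eq_of_subset_of_card_le ?_ ?_
    · intro x hx
      obtain ⟨j, _, rfl⟩ := Finset.mem_image.1 hx
      exact hmem j
    · rw [Finset.card_image_of_injOn hinj]
  refine le_trans (Finset.card_le_card (t := ((range (3 ^ k)).filter fun j : ℕ =>
        (1 / 4 : ℝ) ≤ WW k ((fun z : ℤ => 4 * z + 1)^[j] u)).image φ) ?_) Finset.card_image_le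
  intro x hx
  rw [Finset.mem_filter] at hx
  have hx1 := hx.1
  rw [← himg] at hx1
  obtain ⟨j, hj, rfl⟩ := Finset.mem_image.1 hx1
  refine Finset.mem_image.2 ⟨j, ?_, rfl⟩
  rw [Finset.mem_filter]
  refine ⟨hj, ?_⟩
  rw [← WW_congr (hφm j)]
  exact hx.2

/-- For every `ε > 0` there is `δ > 0` such that for all large `n` at most `ε 3^n` of the `i < 3^n` have
`WW (n+1) (c + 3i) ≤ δ` (`c = 1` or `2`). Choose `k ≥ k0` with `8 η_k / c2 ≤ ε`, `δ = (3/4) 4^{-3^k}/8`, `n ≥ k`. For such an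
`i` (`low_run`) all `WW n (T^j u) ≤ 1/8`, `j < 3^k`, whereas (`run_inj`, `WW_pos`, periodicity) at least `c2 3^k` of the `j` have
`WW k (T^j u) ≥ 1/4`, so `∑_{j<3^k} |WW n - WW k|(T^j u) ≥ c2 3^k / 8`. With `sum_run` and `WW_cauchy`:
`#{i} c2 3^k/8 ≤ 3^k η_k 3^n`. -/
theorem WW_low {c : ℤ} (hc : c = 1 ∨ c = 2) {ε : ℝ} (hε : 0 < ε) : ∃ δ : ℝ, 0 < δ ∧ ∃ n0 : ℕ,
    ∀ n, n0 ≤ n →
      (((range (3 ^ n)).filter fun i : ℕ => WW (n + 1) (c + 3 * (i : ℤ)) ≤ δ).card : ℝ) ≤ ε * 3 ^ n := by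
  obtain ⟨c2, hc2, k0, hk0⟩ := WW_pos
  obtain ⟨η, hη, hcau⟩ := WW_cauchy
  have hev : ∀ᶠ k in atTop, η k < ε * c2 / 8 :=
    hη.eventually (gt_mem_nhds (by positivity))
  obtain ⟨k, hk, hkk⟩ := (hev.and (eventually_ge_atTop k0)).exists
  refine ⟨3 / 4 / 4 ^ (3 ^ k) / 8, by positivity, k, fun n hn => ?_⟩
  -- the letter
  obtain ⟨a, ha, hac⟩ : ∃ a : ℕ, (1 ≤ a ∧ a ≤ 2) ∧ (2 : ℤ) ^ a * c = 4 := by
    rcases hc with rfl | rfl
    · exact ⟨2, by norm_num, by norm_num⟩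
    · exact ⟨1, by norm_num, by norm_num⟩
  have hx3 : ∀ i : ℕ, (2 : ℤ) ^ a * (c + 3 * (i : ℤ)) - 1 = 3 * (1 + 2 ^ a * (i : ℤ)) := by
    intro i
    linear_combination hac
  have hdiv : ∀ i : ℕ, (3 : ℤ) ∣ 2 ^ a * (c + 3 * (i : ℤ)) - 1 := fun i => ⟨_, hx3 i⟩
  have hstp : ∀ i : ℕ, stp a (c + 3 * (i : ℤ)) = 1 + 2 ^ a * (i : ℤ) := by
    intro i
    unfold stp
    rw [hx3 i]
    exact Int.mul_ediv_cancel_left _ (by norm_num)
  set S := (range (3 ^ n)).filter fun i : ℕ =>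
    WW (n + 1) (c + 3 * (i : ℤ)) ≤ 3 / 4 / 4 ^ (3 ^ k) / 8 with hS
  set F : ℕ → ℝ := fun i => ∑ j ∈ range (3 ^ k),
      |WW n ((fun z : ℤ => 4 * z + 1)^[j] (1 + 2 ^ a * (i : ℤ))) -
        WW k ((fun z : ℤ => 4 * z + 1)^[j] (1 + 2 ^ a * (i : ℤ)))| with hF
  have hF0 : ∀ i, 0 ≤ F i := fun i => Finset.sum_nonneg fun j _ => abs_nonneg _
  have hlow : ∀ i ∈ S, c2 * 3 ^ k * (1 / 8) ≤ F i := by
    intro i hi
    have hi2 := (Finset.mem_filter.1 hi).2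
    have hrun := low_run ha (hdiv i) hi2
    rw [hstp i] at hrun
    set G := (range (3 ^ k)).filter fun j : ℕ =>
        (1 / 4 : ℝ) ≤ WW k ((fun z : ℤ => 4 * z + 1)^[j] (1 + 2 ^ a * (i : ℤ))) with hG
    have hcard : c2 * 3 ^ k ≤ (G.card : ℝ) :=
      le_trans (hk0 k hkk) (by exact_mod_cast t6b_count k (1 + 2 ^ a * (i : ℤ)))
    calc c2 * 3 ^ k * (1 / 8) ≤ (G.card : ℝ) * (1 / 8) :=
          mul_le_mul_of_nonneg_right hcard (by norm_num)
      _ = ∑ j ∈ G, (1 / 8 : ℝ) := by rw [Finset.sum_const, nsmul_eq_mul]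
      _ ≤ ∑ j ∈ G, |WW n ((fun z : ℤ => 4 * z + 1)^[j] (1 + 2 ^ a * (i : ℤ))) -
            WW k ((fun z : ℤ => 4 * z + 1)^[j] (1 + 2 ^ a * (i : ℤ)))| := by
          refine Finset.sum_le_sum fun j hj => ?_
          obtain ⟨hj1, hj2⟩ := Finset.mem_filter.1 hj
          have h1 := hrun j (Finset.mem_range.1 hj1)
          rw [abs_sub_comm]
          refine le_trans ?_ (le_abs_self _)
          linarith
      _ ≤ F i := Finset.sum_le_sum_of_subset_of_nonneg (Finset.filter_subset _ _)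
          fun j _ _ => abs_nonneg _
  have htot : (S.card : ℝ) * (c2 * 3 ^ k * (1 / 8)) ≤ 3 ^ k * (η k * 3 ^ n) := by
    calc (S.card : ℝ) * (c2 * 3 ^ k * (1 / 8)) = ∑ i ∈ S, c2 * 3 ^ k * (1 / 8) := by
          rw [Finset.sum_const, nsmul_eq_mul]
      _ ≤ ∑ i ∈ S, F i := Finset.sum_le_sum hlow
      _ ≤ ∑ i ∈ range (3 ^ n), F i := Finset.sum_le_sum_of_subset_of_nonneg
          (Finset.filter_subset _ _) fun i _ _ => hF0 i
      _ = 3 ^ k * ∑ z ∈ range (3 ^ n), |WW n (z : ℤ) - WW k (z : ℤ)| := sum_run n k hn a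
      _ ≤ 3 ^ k * (η k * 3 ^ n) := mul_le_mul_of_nonneg_left (hcau k n hn) (by positivity)
  have h3k : (0 : ℝ) < 3 ^ k := by positivity
  have h3n : (0 : ℝ) < 3 ^ n := by positivity
  have h1 : (S.card : ℝ) * (c2 / 8) ≤ η k * 3 ^ n := by
    have e1 : (S.card : ℝ) * (c2 * 3 ^ k * (1 / 8)) = 3 ^ k * ((S.card : ℝ) * (c2 / 8)) := by ring
    rw [e1] at htot
    exact le_of_mul_le_mul_left htot h3k
  have h2 : η k * 3 ^ n ≤ ε * c2 / 8 * 3 ^ n := mul_le_mul_of_nonneg_right hk.le h3n.le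
  have h4 : (S.card : ℝ) * (c2 / 8) ≤ ε * 3 ^ n * (c2 / 8) := by
    refine h1.trans (h2.trans (le_of_eq ?_))
    ring
  exact le_of_mul_le_mul_right h4 (by positivity)

end Pool.Agent.Lib.MP_d0d59f_nt.GE
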