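import Pool.Agent.Lib.MP_d0d59f_nt.GE.T1
import Pool.Agent.Lib.MP_d0d59f_nt.GE.A1c

/-! Row ge_T7a: words with bounded letters. -/

namespace Pool.Agent.Lib.MP_d0d59f_nt.GE

open Finset

/-- Weight of the words of length `n` with letters `≤ M` and integer nodes. -/
noncomputable def WM (n M : ℕ) (x : ℤ) : ℝ :=
  ∑ α ∈ wds M n, if (3 : ℤ) ^ n ∣ 2 ^ α.sum * x - (AA.cc α : ℤ) then wt α else 0

open Classical in
/-- Weight of the words of length `n` with letters `≤ M` which are valid (the end point is a unit). -/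
noncomputable def VM (n M : ℕ) (x : ℤ) : ℝ := ∑ α ∈ wds M n, if valid α x then wt α else 0

/-- Weight of the words with letters `≤ M`, integer nodes and sum `≤ t`. -/
noncomputable def LM (n M t : ℕ) (x : ℤ) : ℝ :=
  ∑ α ∈ (wds M n).filter (fun α => α.sum ≤ t),
    if (3 : ℤ) ^ n ∣ 2 ^ α.sum * x - (AA.cc α : ℤ) then wt α else 0

private theorem t7a_wt_nonneg (α : List ℕ) : 0 ≤ wt α := by
  unfold wt
  positivity

private theorem t7a_wt {n : ℕ} {α : List ℕ} (h : α.length = n) :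
    wt α = 3 ^ n * (1 / 2 : ℝ) ^ α.sum := by
  unfold wt
  rw [h, one_div, inv_pow, div_eq_mul_inv]

private theorem t7a_mem {M n : ℕ} {α : List ℕ} (h : α ∈ wds M n) :
    α ∈ AA.comps n α.sum := by
  obtain ⟨h1, h2⟩ := mem_wds.1 h
  exact AA.mem_comps.2 ⟨h1, rfl, fun a ha => (h2 a ha).1⟩

private theorem t7a_sum_le {M n : ℕ} {α : List ℕ} (h : α ∈ wds M n) : α.sum ≤ n * M := by
  obtain ⟨h1, h2⟩ := mem_wds.1 h
  have h3 := List.sum_le_card_nsmul α M fun a ha => (h2 a ha).2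
  rw [h1, smul_eq_mul] at h3
  exact h3

/-- The words of `wds M n` of sum `l` are in `comps n l`; `WM n M x = ∑_{l ≤ nM} 3^n 2^{-l} #{...} ≤ 3^n ∑' l pz`. -/
theorem WM_le (n M : ℕ) (x : ℤ) : WM n M x ≤ WW n x := by
  unfold WM WW tot
  have h1 : ∀ α ∈ wds M n, α.sum ∈ range (n * M + 1) := fun α hα => by
    rw [mem_range]
    exact Nat.lt_succ_of_le (t7a_sum_le hα)
  rw [← Finset.sum_fiberwise_of_maps_to h1]
  have h2 : ∀ l ∈ range (n * M + 1), (∑ α ∈ wds M n with α.sum = l,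
      if (3 : ℤ) ^ n ∣ 2 ^ α.sum * x - (AA.cc α : ℤ) then wt α else 0) ≤
      3 ^ n * AA.pz 1 0 n n l (x : ZMod (3 ^ n)) := by
    intro l _
    rw [← Finset.sum_filter]
    have h3 : ∀ α ∈ ((wds M n).filter fun α => α.sum = l).filter
        (fun α => (3 : ℤ) ^ n ∣ 2 ^ α.sum * x - (AA.cc α : ℤ)), wt α = 3 ^ n * (1 / 2 : ℝ) ^ l := by
      intro α hα
      rw [mem_filter, mem_filter] at hα
      rw [t7a_wt (mem_wds.1 hα.1.1).1, hα.1.2]
    rw [Finset.sum_congr rfl h3, Finset.sum_const, nsmul_eq_mul, AA.pz, mul_comm, mul_assoc]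
    refine mul_le_mul_of_nonneg_left (mul_le_mul_of_nonneg_left ?_ (by positivity)) (by positivity)
    rw [Nat.cast_le]
    refine Finset.card_le_card fun α hα => ?_
    rw [mem_filter, mem_filter] at hα
    rw [mem_filter]
    refine ⟨?_, (hz_iff n α x).2 hα.2⟩
    have h4 := t7a_mem hα.1.1
    rwa [hα.1.2] at h4
  refine (Finset.sum_le_sum h2).trans ?_
  rw [← Finset.mul_sum]
  refine mul_le_mul_of_nonneg_left ?_ (by positivity)
  refine (summable_pz n n (x : ZMod (3 ^ n))).sum_le_tsum _ fun l _ => ?_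
  unfold AA.pz
  positivity

private theorem t7a_one (n : ℕ) (α : List ℕ) (w : ℝ) :
    ∑ x ∈ range (3 ^ n), (if (3 : ℤ) ^ n ∣ 2 ^ α.sum * (x : ℤ) - (AA.cc α : ℤ) then w else 0) = w := by
  have h3 : NeZero (3 ^ n) := ⟨by positivity⟩
  have h1 : ∀ x ∈ range (3 ^ n),
      (if (3 : ℤ) ^ n ∣ 2 ^ α.sum * (x : ℤ) - (AA.cc α : ℤ) then w else 0) =
        if (AA.hz 1 0 n α).val = x then w else 0 := by
    intro x hx
    rw [mem_range] at hx
    refine if_congr ?_ rfl rfl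
    rw [← hz_iff n α (x : ℤ), Int.cast_natCast]
    constructor
    · intro h
      rw [h, ZMod.val_natCast_of_lt hx]
    · intro h
      rw [← h, ZMod.natCast_zmod_val]
  rw [Finset.sum_congr rfl h1, Finset.sum_ite_eq, if_pos]
  rw [mem_range]
  exact ZMod.val_lt _

private theorem t7a_inj : Function.Injective fun q : ℕ × List ℕ => q.1 :: q.2 := by
  rintro ⟨a, α⟩ ⟨b, β⟩ h
  have h1 : a :: α = b :: β := h
  rw [List.cons.injEq] at h1
  rw [h1.1, h1.2]

private theorem t7a_geom (M : ℕ) : ∑ a ∈ Icc 1 M, (1 / 2 : ℝ) ^ a = 1 - (1 / 2) ^ M := by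
  induction M with
  | zero => simp
  | succ M ih =>
    rw [Finset.sum_Icc_succ_top (by omega), ih, pow_succ]
    ring

private theorem t7a_total (n M : ℕ) :
    ∑ α ∈ wds M n, wt α = 3 ^ n * (1 - (1 / 2 : ℝ) ^ M) ^ n := by
  induction n with
  | zero => simp [wds, wt]
  | succ n ih =>
    rw [wds, Finset.sum_image (t7a_inj.injOn), Finset.sum_product]
    have h1 : ∀ a ∈ Icc 1 M, ∑ α ∈ wds M n, wt (a :: α) =
        3 * (1 / 2 : ℝ) ^ a * ∑ α ∈ wds M n, wt α := by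
      intro a _
      rw [Finset.mul_sum]
      refine Finset.sum_congr rfl fun α _ => ?_
      rw [t7a_wt rfl, t7a_wt rfl, List.length_cons, List.sum_cons, pow_add, pow_succ]
      ring
    rw [Finset.sum_congr rfl h1, ← Finset.sum_mul, ← Finset.mul_sum, t7a_geom, ih, pow_succ,
      pow_succ]
    ring

/-- `∑_{x < 3^n} WM n M x = 3^n ∑_{α ∈ wds M n} 2^{-|α|} = 3^n (1 - 2^{-M})^n ≥ 3^n (1 - n 2^{-M})` (exactly one `x`
modulo `3^n` satisfies the condition of a given word). -/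
theorem sum_WM (n M : ℕ) : (3 : ℝ) ^ n * (1 - n / 2 ^ M) ≤ ∑ x ∈ range (3 ^ n), WM n M (x : ℤ) := by
  unfold WM
  rw [Finset.sum_comm, Finset.sum_congr rfl fun α _ => t7a_one n α (wt α), t7a_total]
  refine mul_le_mul_of_nonneg_left ?_ (by positivity)
  have h0 : (1 / 2 : ℝ) ^ M ≤ 1 := pow_le_one₀ (by norm_num) (by norm_num)
  have h1 := one_add_mul_le_pow (a := -(1 / 2 : ℝ) ^ M) (by linarith) n
  have h2 : (1 : ℝ) - n / 2 ^ M = 1 + n * -(1 / 2 : ℝ) ^ M := by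
    rw [one_div, inv_pow]
    ring
  rw [h2, sub_eq_add_neg]
  exact h1

/-- `∑_{x < 3^n} LM n M t x ≤ 3^n ∑_{s ≤ t} nb n s`. -/
theorem sum_LM (n M t : ℕ) :
    ∑ x ∈ range (3 ^ n), LM n M t (x : ℤ) ≤ 3 ^ n * ∑ s ∈ range (t + 1), AA.nb n s := by
  unfold LM
  rw [Finset.sum_comm, Finset.sum_congr rfl fun α _ => t7a_one n α (wt α)]
  have h1 : ∀ α ∈ (wds M n).filter (fun α => α.sum ≤ t), α.sum ∈ range (t + 1) := fun α hα => by
    rw [mem_range]
    exact Nat.lt_succ_of_le (mem_filter.1 hα).2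
  rw [← Finset.sum_fiberwise_of_maps_to h1, Finset.mul_sum]
  refine Finset.sum_le_sum fun l _ => ?_
  have h3 : ∀ α ∈ ((wds M n).filter fun α => α.sum ≤ t).filter (fun α => α.sum = l),
      wt α = 3 ^ n * (1 / 2 : ℝ) ^ l := by
    intro α hα
    rw [mem_filter, mem_filter] at hα
    rw [t7a_wt (mem_wds.1 hα.1.1).1, hα.2]
  rw [Finset.sum_congr rfl h3, Finset.sum_const, nsmul_eq_mul, AA.nb, mul_comm, mul_assoc]
  refine mul_le_mul_of_nonneg_left (mul_le_mul_of_nonneg_left ?_ (by positivity)) (by positivity)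
  rw [Nat.cast_le]
  refine Finset.card_le_card fun α hα => ?_
  rw [mem_filter, mem_filter] at hα
  have h4 := t7a_mem hα.1.1
  rwa [hα.2] at h4

theorem WM_nonneg (n M : ℕ) (x : ℤ) : 0 ≤ WM n M x := by
  refine Finset.sum_nonneg fun α _ => ?_
  split_ifs
  · exact t7a_wt_nonneg α
  · exact le_rfl

theorem LM_nonneg (n M t : ℕ) (x : ℤ) : 0 ≤ LM n M t x := by
  refine Finset.sum_nonneg fun α _ => ?_
  split_ifs
  · exact t7a_wt_nonneg α
  · exact le_rfl

private theorem t7a_dvd {n : ℕ} {x y : ℤ} (h : x ≡ y [ZMOD 3 ^ n]) (a c : ℤ) :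
    (3 : ℤ) ^ n ∣ a * x - c ↔ (3 : ℤ) ^ n ∣ a * y - c := by
  have h1 : a * x - c ≡ a * y - c [ZMOD 3 ^ n] := (h.mul_left a).sub_right c
  rw [← Int.modEq_zero_iff_dvd, ← Int.modEq_zero_iff_dvd]
  exact ⟨fun h2 => h1.symm.trans h2, fun h2 => h1.trans h2⟩

theorem LM_congr {n M t : ℕ} {x y : ℤ} (h : x ≡ y [ZMOD 3 ^ n]) : LM n M t x = LM n M t y := by
  refine Finset.sum_congr rfl fun α _ => ?_
  exact if_congr (t7a_dvd h _ _) rfl rfl

theorem WM_congr {n M : ℕ} {x y : ℤ} (h : x ≡ y [ZMOD 3 ^ n]) : WM n M x = WM n M y := by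
  refine Finset.sum_congr rfl fun α _ => ?_
  exact if_congr (t7a_dvd h _ _) rfl rfl

end Pool.Agent.Lib.MP_d0d59f_nt.GE
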