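import Pool.Agent.Lib.MP_d0d59f_nt.GE.T7a

/-! Row ge_T7b: `WM (n+1) ≤ 2 VM n`. -/

namespace Pool.Agent.Lib.MP_d0d59f_nt.GE

open Finset

theorem t7b_wt_cons (a : ℕ) (α : List ℕ) : wt (a :: α) = 3 / 2 ^ a * wt α := by
  unfold wt
  rw [List.length_cons, List.sum_cons, pow_succ, pow_add]
  field_simp

theorem t7b_sum_wds (M n : ℕ) (f : List ℕ → ℝ) :
    ∑ α ∈ wds M (n + 1), f α = ∑ a ∈ Icc 1 M, ∑ α ∈ wds M n, f (a :: α) := by
  rw [wds, Finset.sum_image, Finset.sum_product]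
  intro q _ q' _ h
  rw [List.cons.injEq] at h
  exact Prod.ext h.1 h.2

theorem t7b_WM_succ (n M : ℕ) (x : ℤ) : WM (n + 1) M x =
    ∑ a ∈ Icc 1 M, if (3 : ℤ) ∣ 2 ^ a * x - 1 then 3 / 2 ^ a * WM n M (stp a x) else 0 := by
  unfold WM
  rw [t7b_sum_wds]
  refine Finset.sum_congr rfl fun a _ => ?_
  by_cases h : (3 : ℤ) ∣ 2 ^ a * x - 1
  · rw [if_pos h, Finset.mul_sum]
    refine Finset.sum_congr rfl fun α _ => ?_
    by_cases h2 : (3 : ℤ) ^ n ∣ 2 ^ α.sum * stp a x - (AA.cc α : ℤ)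
    · rw [if_pos ((node_iff n a α x).mpr ⟨h, h2⟩), if_pos h2, t7b_wt_cons]
    · rw [if_neg (fun h3 => h2 ((node_iff n a α x).mp h3).2), if_neg h2, mul_zero]
  · rw [if_neg h]
    refine Finset.sum_eq_zero fun α _ => ?_
    rw [if_neg (fun h3 => h ((node_iff n a α x).mp h3).1)]

theorem t7b_unit {a : ℕ} {x : ℤ} (h : (3 : ℤ) ∣ 2 ^ a * x - 1) : ¬ (3 : ℤ) ∣ x := by
  intro h3
  have h4 : (3 : ℤ) ∣ 1 := by
    have h5 := dvd_sub (h3.mul_left (2 ^ a)) h
    have h6 : 2 ^ a * x - (2 ^ a * x - 1) = (1 : ℤ) := by ring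
    rwa [h6] at h5
  norm_num at h4

open Classical in
theorem t7b_VM_succ (n M : ℕ) (x : ℤ) : VM (n + 1) M x =
    ∑ a ∈ Icc 1 M, if (3 : ℤ) ∣ 2 ^ a * x - 1 then 3 / 2 ^ a * VM n M (stp a x) else 0 := by
  unfold VM
  rw [t7b_sum_wds]
  refine Finset.sum_congr rfl fun a ha => ?_
  have ha1 : 1 ≤ a := (Finset.mem_Icc.mp ha).1
  by_cases h : (3 : ℤ) ∣ 2 ^ a * x - 1
  · rw [if_pos h, Finset.mul_sum]
    refine Finset.sum_congr rfl fun α _ => ?_
    by_cases h2 : valid α (stp a x)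
    · rw [if_pos h2, if_pos (show valid (a :: α) x from ⟨t7b_unit h, ha1, h, h2⟩), t7b_wt_cons]
    · rw [if_neg h2, if_neg (fun h3 : valid (a :: α) x => h2 h3.2.2.2), mul_zero]
  · rw [if_neg h]
    refine Finset.sum_eq_zero fun α _ => ?_
    rw [if_neg (fun h3 : valid (a :: α) x => h h3.2.2.1)]

theorem t7b_WM_zero (M : ℕ) (x : ℤ) : WM 0 M x = 1 := by
  unfold WM
  rw [wds, Finset.sum_singleton, pow_zero, if_pos (one_dvd _)]
  simp [wt]

theorem t7b_VM_zero {M : ℕ} {x : ℤ} (hx : ¬ (3 : ℤ) ∣ x) : VM 0 M x = 1 := by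
  unfold VM
  rw [wds, Finset.sum_singleton, if_pos (show valid [] x from hx)]
  simp [wt]

theorem t7b_parity {a b : ℕ} {x : ℤ} (h : (3 : ℤ) ∣ 2 ^ a * x - 1)
    (h' : (3 : ℤ) ∣ 2 ^ b * x - 1) : a % 2 = b % 2 := by
  have hpow : ∀ m : ℕ, (2 : ℤ) ^ m ≡ (-1) ^ m [ZMOD 3] := fun m =>
    Int.ModEq.pow m (by decide)
  have h1 : (-1 : ℤ) ^ a * x ≡ 1 [ZMOD 3] :=
    ((hpow a).symm.mul_right x).trans ((Int.modEq_iff_dvd.mpr (by
      have := (dvd_neg.mpr h)
      rwa [neg_sub] at this)))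
  have h2 : (-1 : ℤ) ^ b * x ≡ 1 [ZMOD 3] :=
    ((hpow b).symm.mul_right x).trans ((Int.modEq_iff_dvd.mpr (by
      have := (dvd_neg.mpr h')
      rwa [neg_sub] at this)))
  rcases Nat.even_or_odd a with ha | ha <;> rcases Nat.even_or_odd b with hb | hb
  · rw [Nat.even_iff.mp ha, Nat.even_iff.mp hb]
  · exfalso
    rw [ha.neg_one_pow] at h1
    rw [hb.neg_one_pow] at h2
    rw [Int.modEq_iff_dvd] at h1 h2
    omega
  · exfalso
    rw [ha.neg_one_pow] at h1
    rw [hb.neg_one_pow] at h2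
    rw [Int.modEq_iff_dvd] at h1 h2
    omega
  · rw [Nat.odd_iff.mp ha, Nat.odd_iff.mp hb]

/-- The sum of `3 / 2 ^ a` over the letters of one parity is at most `2`. -/
theorem t7b_geom (M : ℕ) (s : ℕ) : ∑ a ∈ Icc 1 M, (if a % 2 = s then (3 : ℝ) / 2 ^ a else 0) ≤ 2 := by
  have key : ∀ m : ℕ, (∑ a ∈ Icc 1 m, (if a % 2 = 1 then (3 : ℝ) / 2 ^ a else 0) +
      (if m % 2 = 1 then 1 / 2 ^ m else 2 / 2 ^ m) = 2) ∧
      (∑ a ∈ Icc 1 m, (if a % 2 = 0 then (3 : ℝ) / 2 ^ a else 0) +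
      (if m % 2 = 1 then 2 / 2 ^ m else 1 / 2 ^ m) = 1) := by
    intro m
    induction m with
    | zero => norm_num
    | succ m ih =>
      obtain ⟨ih1, ih2⟩ := ih
      rw [Finset.sum_Icc_succ_top (by omega), Finset.sum_Icc_succ_top (by omega)]
      rcases Nat.mod_two_eq_zero_or_one m with h | h
      · have h' : (m + 1) % 2 = 1 := by omega
        rw [if_neg (by omega)] at ih1 ih2
        rw [if_pos h', if_pos h', if_neg (by omega), if_pos h', pow_succ]
        constructor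
        · have e : (3 : ℝ) / (2 ^ m * 2) + 1 / (2 ^ m * 2) = 2 / 2 ^ m := by
            field_simp
            norm_num
          linarith
        · have e : (2 : ℝ) / (2 ^ m * 2) = 1 / 2 ^ m := by
            field_simp
          linarith
      · have h' : (m + 1) % 2 = 0 := by omega
        rw [if_pos h] at ih1 ih2
        rw [if_neg (by omega), if_neg (by omega), if_pos h', if_neg (by omega), pow_succ]
        constructor
        · have e : (2 : ℝ) / (2 ^ m * 2) = 1 / 2 ^ m := by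
            field_simp
          linarith
        · have e : (3 : ℝ) / (2 ^ m * 2) + 1 / (2 ^ m * 2) = 2 / 2 ^ m := by
            field_simp
            norm_num
          linarith
  by_cases h1 : s = 1
  · subst h1
    have h2 := (key M).1
    have h3 : (0 : ℝ) ≤ (if M % 2 = 1 then 1 / 2 ^ M else 2 / 2 ^ M) := by
      split_ifs <;> positivity
    linarith
  · by_cases h0 : s = 0
    · subst h0
      have h2 := (key M).2
      have h3 : (0 : ℝ) ≤ (if M % 2 = 1 then 2 / 2 ^ M else 1 / 2 ^ M) := by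
        split_ifs <;> positivity
      linarith
    · have h4 : ∀ a ∈ Icc 1 M, (if a % 2 = s then (3 : ℝ) / 2 ^ a else 0) = 0 := by
        intro a _
        rw [if_neg (by omega)]
      rw [Finset.sum_congr rfl h4, Finset.sum_const_zero]
      norm_num

/-- `WM (n+1) M x ≤ 2 VM n M x`. Induction on `n` with `node_iff`: `n = 0`: `∑_{a ≤ M, 3 ∣ 2^a x - 1} 3/2^a ≤ 2` if `x` is a unit, `0`
otherwise; `WM (n+2) M x = ∑_{a ≤ M} [3 ∣ 2^a x - 1] (3/2^a) WM (n+1) M (stp a x) ≤ 2 ∑_a [..] (3/2^a) VM n M (stp a x) = 2 VM (n+1) M x`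
(`valid (a::α) x ↔ ...`; `3 ∣ 2^a x - 1` implies that `x` is a unit). -/
theorem WM_le_VM (n M : ℕ) (x : ℤ) : WM (n + 1) M x ≤ 2 * VM n M x := by
  induction n generalizing x with
  | zero =>
    rw [t7b_WM_succ]
    by_cases hex : ∃ b : ℕ, (3 : ℤ) ∣ 2 ^ b * x - 1
    · obtain ⟨b, hb⟩ := hex
      rw [t7b_VM_zero (t7b_unit hb), mul_one]
      refine le_trans (Finset.sum_le_sum fun a _ => ?_) (t7b_geom M (b % 2))
      by_cases h : (3 : ℤ) ∣ 2 ^ a * x - 1
      · rw [if_pos h, t7b_WM_zero, mul_one, if_pos (t7b_parity h hb)]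
      · rw [if_neg h]
        split_ifs <;> positivity
    · have h0 : ∀ a ∈ Icc 1 M, (if (3 : ℤ) ∣ 2 ^ a * x - 1 then
          (3 : ℝ) / 2 ^ a * WM 0 M (stp a x) else 0) = 0 := by
        intro a _
        rw [if_neg (fun h => hex ⟨a, h⟩)]
      rw [Finset.sum_congr rfl h0, Finset.sum_const_zero]
      have : 0 ≤ VM 0 M x := by
        classical
        unfold VM
        refine Finset.sum_nonneg fun α _ => ?_
        split_ifs
        · unfold wt
          positivity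
        · exact le_refl _
      linarith
  | succ n ih =>
    rw [t7b_WM_succ, t7b_VM_succ, Finset.mul_sum]
    refine Finset.sum_le_sum fun a _ => ?_
    by_cases h : (3 : ℤ) ∣ 2 ^ a * x - 1
    · rw [if_pos h, if_pos h]
      calc (3 : ℝ) / 2 ^ a * WM (n + 1) M (stp a x) ≤ 3 / 2 ^ a * (2 * VM n M (stp a x)) :=
            mul_le_mul_of_nonneg_left (ih _) (by positivity)
        _ = 2 * (3 / 2 ^ a * VM n M (stp a x)) := by ring
    · rw [if_neg h, if_neg h, mul_zero]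

end Pool.Agent.Lib.MP_d0d59f_nt.GE
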