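import Pool.Agent.Lib.MP_d0d59f_nt.GE.T7a

/-! Row ge_T7c: extension to blocks. -/

namespace Pool.Agent.Lib.MP_d0d59f_nt.GE

open Finset

open Classical in
/-- the extension of a word by two letters. -/
private noncomputable def t7c_ext (x : ℤ) (α : List ℕ) : List ℕ :=
  if h : valid α x then
    α ++ [(extend_two h (c := 1) (Or.inl rfl)).choose,
      (extend_two h (c := 1) (Or.inl rfl)).choose_spec.choose]
  else α

private lemma t7c_ext_spec {x : ℤ} {α : List ℕ} (h : valid α x) :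
    ∃ a a' : ℕ, t7c_ext x α = α ++ [a, a'] ∧ 3 ≤ a ∧ a ≤ 8 ∧ 3 ≤ a' ∧ a' ≤ 8 ∧
      valid (α ++ [a, a']) x ∧ Even (α ++ [a, a']).sum := by
  have h1 := (extend_two h (c := 1) (Or.inl rfl)).choose_spec.choose_spec
  refine ⟨_, _, ?_, h1.1, h1.2.1, h1.2.2.1, h1.2.2.2.1, h1.2.2.2.2.1, h1.2.2.2.2.2.1⟩
  unfold t7c_ext
  rw [dif_pos h]

private lemma t7c_wt (α : List ℕ) {a a' : ℕ} (ha : a ≤ 8) (ha' : a' ≤ 8) :
    (3 / 256 : ℝ) ^ 2 * wt α ≤ wt (α ++ [a, a']) := by
  have h1 : wt (α ++ [a, a']) = wt α * (3 / 2 ^ a) * (3 / 2 ^ a') := by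
    unfold wt
    simp only [List.length_append, List.sum_append, List.length_cons, List.length_nil,
      List.sum_cons, List.sum_nil]
    rw [pow_add, pow_add, add_zero, pow_add]
    field_simp
    ring
  have h0 : 0 ≤ wt α := by unfold wt; positivity
  have h2 : ∀ b : ℕ, b ≤ 8 → (3 / 256 : ℝ) ≤ 3 / 2 ^ b := by
    intro b hb
    have h3 : (2 : ℝ) ^ b ≤ 256 := by
      calc (2 : ℝ) ^ b ≤ 2 ^ 8 := pow_le_pow_right₀ (by norm_num) hb
        _ = 256 := by norm_num
    exact div_le_div_of_nonneg_left (by norm_num) (by positivity) h3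
  rw [h1]
  have h4 : (3 / 256 : ℝ) * (3 / 256) ≤ (3 / 2 ^ a) * (3 / 2 ^ a') :=
    mul_le_mul (h2 a ha) (h2 a' ha') (by norm_num) (by positivity)
  calc (3 / 256 : ℝ) ^ 2 * wt α = wt α * ((3 / 256 : ℝ) * (3 / 256)) := by ring
    _ ≤ wt α * ((3 / 2 ^ a) * (3 / 2 ^ a')) := mul_le_mul_of_nonneg_left h4 h0
    _ = wt α * (3 / 2 ^ a) * (3 / 2 ^ a') := by ring

open Classical in
private lemma t7c_split (n M t : ℕ) (x : ℤ) :
    VM n M x - LM n M t x ≤
      ∑ α ∈ (wds M n).filter (fun α => valid α x ∧ t < α.sum), wt α := by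
  have hw : ∀ α : List ℕ, 0 ≤ wt α := fun α => by unfold wt; positivity
  unfold VM LM
  rw [Finset.sum_filter, Finset.sum_filter, ← Finset.sum_sub_distrib]
  apply Finset.sum_le_sum
  intro α hα
  have hlen : α.length = n := (mem_wds.mp hα).1
  by_cases hv : valid α x
  · rw [if_pos hv]
    by_cases ht : α.sum ≤ t
    · have h1 : (3 : ℤ) ^ n ∣ 2 ^ α.sum * x - (AA.cc α : ℤ) := by
        rw [← act_identity hv, hlen]
        exact Dvd.intro _ rfl
      rw [if_pos ht, if_pos h1, if_neg (by omega), sub_self]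
    · rw [if_neg ht, if_pos ⟨hv, by omega⟩, sub_zero]
  · have h2 : ¬ (valid α x ∧ t < α.sum) := fun h => hv h.1
    rw [if_neg hv, if_neg h2]
    by_cases ht : α.sum ≤ t
    · rw [if_pos ht]
      split_ifs
      · have := hw α
        linarith
      · simp
    · rw [if_neg ht, sub_zero]

/-- `L ≥ 2`, `M ≥ 8`, `17 L ≤ 10 t + 70` (so that words of sum `> t` and two more letters `≥ 3` have sum
`≥ 17 L / 10`): `NN L M x ≥ (3/256)² (VM (L-2) M x - LM (L-2) M t x)`. For each `α ∈ wds M (L-2)` valid at `x` with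
`|α| > t` choose `α ++ [a, a'] ∈ blk L M` by `extend_two` (`10 (|α| + 6) ≥ 10 t + 70 ≥ 17 L`); the map is injective and
`wt (α ++ [a,a']) ≥ wt α (3/256)²`; a valid word of length `L - 2` satisfies the divisibility (`act_identity`). -/
theorem NN_ge_VM {L M t : ℕ} (hL : 2 ≤ L) (hM : 8 ≤ M) (ht : 17 * L ≤ 10 * t + 70) (x : ℤ) :
    (3 / 256 : ℝ) ^ 2 * (VM (L - 2) M x - LM (L - 2) M t x) ≤ NN L M x := by
  classical
  have h1 := mul_le_mul_of_nonneg_left (t7c_split (L - 2) M t x)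
    (by norm_num : (0 : ℝ) ≤ (3 / 256 : ℝ) ^ 2)
  refine h1.trans ?_
  set S := (wds M (L - 2)).filter (fun α => valid α x ∧ t < α.sum) with hS
  have hmem : ∀ α ∈ S, α.length = L - 2 ∧ (∀ a ∈ α, 1 ≤ a ∧ a ≤ M) ∧ valid α x ∧ t < α.sum := by
    intro α hα
    rw [hS, Finset.mem_filter, mem_wds] at hα
    exact ⟨hα.1.1, hα.1.2, hα.2.1, hα.2.2⟩
  have hinj : Set.InjOn (t7c_ext x) (S : Set (List ℕ)) := by
    intro α hα β hβ h
    have hα' := hmem α hα
    have hβ' := hmem β hβ
    obtain ⟨a, a', h2, -⟩ := t7c_ext_spec hα'.2.2.1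
    obtain ⟨b, b', h3, -⟩ := t7c_ext_spec hβ'.2.2.1
    rw [h2, h3] at h
    exact List.append_inj_left h (by rw [hα'.1, hβ'.1])
  have hsub : S.image (t7c_ext x) ⊆ blk L M := by
    intro β hβ
    rw [Finset.mem_image] at hβ
    obtain ⟨α, hα, rfl⟩ := hβ
    have hα' := hmem α hα
    obtain ⟨a, a', h2, ha3, ha8, ha3', ha8', hv, hev⟩ := t7c_ext_spec hα'.2.2.1
    rw [h2]
    unfold blk
    rw [Finset.mem_filter, mem_wds]
    refine ⟨⟨?_, ?_⟩, hev, ?_⟩
    · simp only [List.length_append, List.length_cons, List.length_nil]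
      omega
    · intro c hc
      rw [List.mem_append] at hc
      rcases hc with hc | hc
      · exact hα'.2.1 c hc
      · simp only [List.mem_cons, List.not_mem_nil, or_false] at hc
        rcases hc with rfl | rfl
        · omega
        · omega
    · simp only [List.sum_append, List.sum_cons, List.sum_nil]
      have := hα'.2.2.2
      omega
  unfold NN
  calc (3 / 256 : ℝ) ^ 2 * ∑ α ∈ S, wt α = ∑ α ∈ S, (3 / 256 : ℝ) ^ 2 * wt α := by
        rw [Finset.mul_sum]
    _ ≤ ∑ α ∈ S, (fun β => if valid β x then wt β else 0) (t7c_ext x α) := by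
        apply Finset.sum_le_sum
        intro α hα
        obtain ⟨a, a', h2, ha3, ha8, ha3', ha8', hv, hev⟩ := t7c_ext_spec (hmem α hα).2.2.1
        show (3 / 256 : ℝ) ^ 2 * wt α ≤ if valid (t7c_ext x α) x then wt (t7c_ext x α) else 0
        rw [h2, if_pos hv]
        exact t7c_wt α ha8 ha8'
    _ = ∑ β ∈ S.image (t7c_ext x), (fun β => if valid β x then wt β else 0) β := by
        rw [Finset.sum_image hinj]
    _ ≤ ∑ β ∈ blk L M, (fun β => if valid β x then wt β else 0) β := by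
        apply Finset.sum_le_sum_of_subset_of_nonneg hsub
        intro β _ _
        show 0 ≤ if valid β x then wt β else 0
        split_ifs
        · unfold wt; positivity
        · exact le_rfl
    _ = _ := by
        apply Finset.sum_congr rfl
        intro β _
        rfl

end Pool.Agent.Lib.MP_d0d59f_nt.GE
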