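import Pool.Agent.Lib.MP_d0d59f_nt.GE.T6b
import Pool.Agent.Lib.MP_d0d59f_nt.GE.T7b
import Pool.Agent.Lib.MP_d0d59f_nt.GE.T7c
import Pool.Agent.Lib.MP_d0d59f_nt.AA.A5Tails

/-! Row ge_T8: `NN L M` is bounded below outside a small set. -/

namespace Pool.Agent.Lib.MP_d0d59f_nt.GE

open Finset Filter Topology

theorem t8_sum_periodic (f : ℕ → ℝ) (p : ℕ) (hf : ∀ i, f (i + p) = f i) (m : ℕ) :
    ∑ i ∈ range (m * p), f i = m * ∑ i ∈ range p, f i := by
  have hper : Function.Periodic f p := hf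
  induction m with
  | zero => simp
  | succ m ih =>
    rw [Nat.succ_mul, Finset.sum_range_add, ih]
    have h1 : ∑ x ∈ range p, f (m * p + x) = ∑ x ∈ range p, f x := by
      refine Finset.sum_congr rfl fun x _ => ?_
      have h2 := hper.nat_mul m x
      simp only [Nat.cast_id] at h2
      rw [add_comm]
      exact h2
    rw [h1]
    push_cast
    ring

/-- The class of `c` modulo `3`, `0 ≤ c ≤ 2`, is part of all the residues. -/
theorem t8_sum_class (c : ℕ) (hc : c ≤ 2) (L : ℕ) (f : ℕ → ℝ) (hf : ∀ i, 0 ≤ f i) :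
    ∑ i ∈ range (3 ^ L), f (c + 3 * i) ≤ ∑ x ∈ range (3 ^ (L + 1)), f x := by
  have hinj : Set.InjOn (fun i : ℕ => c + 3 * i) (range (3 ^ L) : Finset ℕ) := by
    intro i _ j _ hij
    simp only at hij
    omega
  rw [← Finset.sum_image (f := f) hinj]
  refine Finset.sum_le_sum_of_subset_of_nonneg ?_ fun i _ _ => hf i
  intro x hx
  obtain ⟨i, hi, rfl⟩ := Finset.mem_image.1 hx
  rw [Finset.mem_range] at hi ⊢
  rw [pow_succ]
  omega

/-- Markov's inequality. -/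
theorem t8_markov (s : Finset ℕ) (f : ℕ → ℝ) (hf : ∀ i, 0 ≤ f i) {κ : ℝ} (hκ : 0 < κ) :
    ((s.filter fun i => κ ≤ f i).card : ℝ) ≤ (∑ i ∈ s, f i) / κ := by
  rw [le_div_iff₀ hκ]
  calc ((s.filter fun i => κ ≤ f i).card : ℝ) * κ = ∑ i ∈ s.filter fun i => κ ≤ f i, κ := by
        rw [Finset.sum_const, nsmul_eq_mul]
    _ ≤ ∑ i ∈ s.filter fun i => κ ≤ f i, f i :=
        Finset.sum_le_sum fun i hi => (Finset.mem_filter.1 hi).2
    _ ≤ ∑ i ∈ s, f i :=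
        Finset.sum_le_sum_of_subset_of_nonneg (Finset.filter_subset _ _) fun i _ _ => hf i

/-- The numbers `(5/4)^t (2/3)^(L-2)` are small. -/
theorem t8_small {η : ℝ} (hη : 0 < η) : ∃ L0 : ℕ, ∀ L, L0 ≤ L → ∀ t, 10 * t ≤ 17 * L → 2 ≤ L →
    (5 / 4 : ℝ) ^ t * (2 / 3) ^ (L - 2) ≤ η := by
  have h1 : Tendsto (fun L : ℕ => (0.78 : ℝ) ^ L) atTop (𝓝 0) :=
    tendsto_pow_atTop_nhds_zero_of_lt_one (by norm_num) (by norm_num)
  have h2 : (0 : ℝ) < η ^ 10 / (3 / 2) ^ 20 := by positivity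
  obtain ⟨L0, hL0⟩ := Filter.eventually_atTop.1 (h1.eventually (gt_mem_nhds h2))
  refine ⟨L0, fun L hL t ht hL2 => ?_⟩
  have h3 := hL0 L hL
  rw [lt_div_iff₀ (by positivity)] at h3
  have h4 : ((5 / 4 : ℝ) ^ t * (2 / 3) ^ (L - 2)) ^ 10 ≤ η ^ 10 := by
    obtain ⟨m, rfl⟩ : ∃ m, L = m + 2 := ⟨L - 2, by omega⟩
    rw [Nat.add_sub_cancel]
    calc ((5 / 4 : ℝ) ^ t * (2 / 3) ^ m) ^ 10
        = (5 / 4 : ℝ) ^ (10 * t) * ((2 / 3) ^ 10) ^ m := by
          rw [mul_pow, ← pow_mul, ← pow_mul, ← pow_mul, mul_comm t, mul_comm m]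
      _ ≤ (5 / 4 : ℝ) ^ (17 * (m + 2)) * ((2 / 3) ^ 10) ^ m := by
          refine mul_le_mul_of_nonneg_right ?_ (by positivity)
          exact pow_le_pow_right₀ (by norm_num) ht
      _ = ((5 / 4 : ℝ) ^ 17 * (2 / 3) ^ 10) ^ (m + 2) * (3 / 2) ^ 20 := by
          rw [pow_mul, mul_pow, pow_add ((2 / 3 : ℝ) ^ 10) m 2]
          have h5 : ((2 / 3 : ℝ) ^ 10) ^ 2 * (3 / 2) ^ 20 = 1 := by norm_num
          rw [mul_assoc, mul_assoc, h5, mul_one]
      _ ≤ (0.78 : ℝ) ^ (m + 2) * (3 / 2) ^ 20 := by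
          refine mul_le_mul_of_nonneg_right ?_ (by positivity)
          exact pow_le_pow_left₀ (by positivity) (by norm_num) _
      _ ≤ η ^ 10 := h3.le
  exact le_of_pow_le_pow_left₀ (by norm_num) hη.le h4

/-- The shift by `p` of the residue `c + 3 i`. -/
theorem t8_modEq (c : ℤ) (n i : ℕ) :
    (c + 3 * ((i + 3 ^ n : ℕ) : ℤ)) ≡ c + 3 * (i : ℤ) [ZMOD 3 ^ (n + 1)] := by
  rw [Int.modEq_iff_dvd]
  refine ⟨-1, ?_⟩
  push_cast
  ring

theorem t8_modEq' (n i : ℕ) : (((i + 3 ^ n : ℕ) : ℤ)) ≡ (i : ℤ) [ZMOD 3 ^ n] := by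
  rw [Int.modEq_iff_dvd]
  refine ⟨-1, ?_⟩
  push_cast
  ring

/-- Outside a small set `NN L M` is bounded below. -/
theorem NN_low {c : ℤ} (hc : c = 1 ∨ c = 2) {ε : ℝ} (hε : 0 < ε) : ∃ δ : ℝ, 0 < δ ∧ ∃ L0 : ℕ,
    ∀ L, L0 ≤ L → ∃ M0 : ℕ, ∀ M, M0 ≤ M →
      (((range (3 ^ L)).filter fun i : ℕ => NN L M (c + 3 * (i : ℤ)) ≤ δ).card : ℝ) ≤ ε * 3 ^ L := by
  obtain ⟨δ, hδ, n0, hn0⟩ := WW_low hc (show 0 < ε / 3 by positivity)
  obtain ⟨L1, hL1⟩ := t8_small (show 0 < ε * δ / 72 by positivity)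
  obtain ⟨c', hc', rfl⟩ : ∃ c' : ℕ, c' ≤ 2 ∧ (c' : ℤ) = c := by
    rcases hc with rfl | rfl
    · exact ⟨1, by norm_num, by norm_num⟩
    · exact ⟨2, by norm_num, by norm_num⟩
  refine ⟨(3 / 256) ^ 2 * δ / 8, by positivity, max (max (n0 + 2) 5) L1, fun L hL => ?_⟩
  have hLn : n0 + 2 ≤ L := le_trans (le_trans (le_max_left _ _) (le_max_left _ _)) hL
  have hL5 : 5 ≤ L := le_trans (le_trans (le_max_right _ _) (le_max_left _ _)) hL
  have hLL1 : L1 ≤ L := le_trans (le_max_right _ _) hL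
  -- the choice of `M`
  have h2M : Tendsto (fun M : ℕ => (1 / 2 : ℝ) ^ M) atTop (𝓝 0) :=
    tendsto_pow_atTop_nhds_zero_of_lt_one (by norm_num) (by norm_num)
  have hpos : 0 < ε * δ / (18 * L) := by
    have : (0 : ℝ) < L := by exact_mod_cast (by omega : 0 < L)
    positivity
  obtain ⟨M1, hM1⟩ := Filter.eventually_atTop.1 (h2M.eventually (gt_mem_nhds hpos))
  refine ⟨max M1 8, fun M hM => ?_⟩
  have hM8 : 8 ≤ M := le_trans (le_max_right _ _) hM
  have hMM := hM1 M (le_trans (le_max_left _ _) hM)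
  obtain ⟨n, rfl⟩ : ∃ n, L = n + 2 := ⟨L - 2, by omega⟩
  -- the number `t`
  obtain ⟨t, ht1, ht2⟩ : ∃ t, 10 * t ≤ 17 * (n + 2) ∧ 17 * (n + 2) ≤ 10 * t + 70 :=
    ⟨(17 * (n + 2) - 61) / 10, by omega, by omega⟩
  have hsm := hL1 (n + 2) hLL1 t ht1 (by omega)
  rw [Nat.add_sub_cancel] at hsm
  -- the three sets
  set x : ℕ → ℤ := fun i => (c' : ℤ) + 3 * (i : ℤ) with hx
  set A : Finset ℕ := (range (3 ^ (n + 2))).filter fun i => WW (n + 1) (x i) ≤ δ with hA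
  set B : Finset ℕ := (range (3 ^ (n + 2))).filter
    fun i => δ / 2 ≤ WW (n + 1) (x i) - WM (n + 1) M (x i) with hB
  set D : Finset ℕ := (range (3 ^ (n + 2))).filter fun i => δ / 8 ≤ LM n M t (x i) with hD
  have hsub : ((range (3 ^ (n + 2))).filter
      fun i : ℕ => NN (n + 2) M ((c' : ℤ) + 3 * (i : ℤ)) ≤ (3 / 256) ^ 2 * δ / 8) ⊆ A ∪ (B ∪ D) := by
    intro i hi
    rw [Finset.mem_filter] at hi
    by_contra hcon
    rw [Finset.mem_union, Finset.mem_union, hA, hB, hD, Finset.mem_filter, Finset.mem_filter,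
      Finset.mem_filter] at hcon
    push Not at hcon
    obtain ⟨h1, h2, h3⟩ := hcon
    have h1' := h1 hi.1
    have h2' := h2 hi.1
    have h3' := h3 hi.1
    have h4 := WM_le_VM n M (x i)
    have h5 := NN_ge_VM (L := n + 2) (by omega) hM8 ht2 (x i)
    rw [Nat.add_sub_cancel] at h5
    have h6 := hi.2
    change NN (n + 2) M (x i) ≤ _ at h6
    nlinarith
  have hcard := (Finset.card_le_card hsub).trans
    ((Finset.card_union_le A (B ∪ D)).trans (Nat.add_le_add_left (Finset.card_union_le B D) _))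
  have hcard' : (((range (3 ^ (n + 2))).filter
      fun i : ℕ => NN (n + 2) M ((c' : ℤ) + 3 * (i : ℤ)) ≤ (3 / 256) ^ 2 * δ / 8).card : ℝ) ≤
        (A.card : ℝ) + ((B.card : ℝ) + (D.card : ℝ)) := by exact_mod_cast hcard
  have h3n : (3 : ℝ) ^ (n + 2) = 9 * 3 ^ n := by rw [pow_add]; norm_num; ring
  have h3n1 : (3 : ℝ) ^ (n + 1) = 3 * 3 ^ n := by rw [pow_succ]; ring
  have hp3 : (0 : ℝ) < 3 ^ n := by positivity
  -- the first set
  have hAc : (A.card : ℝ) ≤ ε / 3 * 3 ^ (n + 2) := by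
    have h1 : (A.card : ℝ) = ∑ i ∈ range (9 * 3 ^ n),
        (if WW (n + 1) (x i) ≤ δ then (1 : ℝ) else 0) := by
      rw [hA, Finset.card_filter]
      push_cast
      congr 2
      rw [pow_add]; norm_num; ring
    have h2 := t8_sum_periodic (fun i => if WW (n + 1) (x i) ≤ δ then (1 : ℝ) else 0) (3 ^ n)
      (fun i => by
        simp only [hx]
        rw [WW_congr (t8_modEq (c' : ℤ) n i)]) 9
    have h3 := hn0 n (by omega)
    have h4 : (((range (3 ^ n)).filter fun i : ℕ => WW (n + 1) ((c' : ℤ) + 3 * (i : ℤ)) ≤ δ).card : ℝ)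
        = ∑ i ∈ range (3 ^ n), (if WW (n + 1) (x i) ≤ δ then (1 : ℝ) else 0) := by
      rw [Finset.card_filter]
      push_cast
      rfl
    rw [h1, h2, ← h4, h3n]
    push_cast
    linarith
  -- the second set
  have hnonneg : ∀ y : ℤ, 0 ≤ WW (n + 1) y - WM (n + 1) M y := fun y =>
    sub_nonneg.2 (WM_le (n + 1) M y)
  have hBc : (B.card : ℝ) ≤ ε / 3 * 3 ^ (n + 2) := by
    have h1 := t8_markov (range (3 ^ (n + 2)))
      (fun i => WW (n + 1) (x i) - WM (n + 1) M (x i)) (fun i => hnonneg _)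
      (show 0 < δ / 2 by positivity)
    have h2 := t8_sum_class c' hc' (n + 2)
      (fun i => WW (n + 1) (i : ℤ) - WM (n + 1) M (i : ℤ)) (fun i => hnonneg _)
    have h3 := t8_sum_periodic (fun i => WW (n + 1) (i : ℤ) - WM (n + 1) M (i : ℤ)) (3 ^ (n + 1))
      (fun i => by
        rw [WW_congr (t8_modEq' (n + 1) i), WM_congr (t8_modEq' (n + 1) i)]) 9
    have h4 : 9 * 3 ^ (n + 1) = 3 ^ (n + 2 + 1) := by ring
    have h4' : ∑ i ∈ range (3 ^ (n + 1)), (WW (n + 1) (i : ℤ) - WM (n + 1) M (i : ℤ)) =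
        3 ^ (n + 1) - ∑ i ∈ range (3 ^ (n + 1)), WM (n + 1) M (i : ℤ) := by
      rw [Finset.sum_sub_distrib, sum_WW]
    rw [h4, h4'] at h3
    have h5 := sum_WM (n + 1) M
    have h6 : ∑ i ∈ range (3 ^ (n + 2)), (WW (n + 1) (x i) - WM (n + 1) M (x i)) ≤
        9 * (3 ^ (n + 1) * (((n + 1 : ℕ) : ℝ) / 2 ^ M)) := by
      have h7 : ∑ i ∈ range (3 ^ (n + 2)), (WW (n + 1) (x i) - WM (n + 1) M (x i)) =
          ∑ i ∈ range (3 ^ (n + 2)), (fun i : ℕ => WW (n + 1) (i : ℤ) - WM (n + 1) M (i : ℤ))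
            (c' + 3 * i) := by
        refine Finset.sum_congr rfl fun i _ => ?_
        simp only [hx]
        push_cast
        rfl
      rw [h7]
      refine h2.trans ?_
      rw [h3]
      push_cast at h5 ⊢
      nlinarith
    refine h1.trans ?_
    rw [div_le_iff₀ (by positivity)]
    refine h6.trans ?_
    have h8 : (((n + 1 : ℕ) : ℝ)) / 2 ^ M ≤ ε * δ / 18 := by
      have h9 : (0 : ℝ) < ((n + 2 : ℕ) : ℝ) := by positivity
      have h10 : ((n + 1 : ℕ) : ℝ) ≤ ((n + 2 : ℕ) : ℝ) := by exact_mod_cast Nat.le_succ _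
      rw [lt_div_iff₀ (by positivity), one_div, inv_pow] at hMM
      rw [div_eq_mul_inv]
      have h11 : (0 : ℝ) < (2 ^ M)⁻¹ := by positivity
      nlinarith
    rw [h3n, h3n1]
    nlinarith
  -- the third set
  have hDc : (D.card : ℝ) ≤ ε / 3 * 3 ^ (n + 2) := by
    have h1 := t8_markov (range (3 ^ (n + 2)))
      (fun i => LM n M t (x i)) (fun i => LM_nonneg _ _ _ _) (show 0 < δ / 8 by positivity)
    have h2 := t8_sum_class c' hc' (n + 2)
      (fun i => LM n M t (i : ℤ)) (fun i => LM_nonneg _ _ _ _)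
    have h3 := t8_sum_periodic (fun i => LM n M t (i : ℤ)) (3 ^ n)
      (fun i => by
        rw [LM_congr (t8_modEq' n i)]) 27
    have h4 : 27 * 3 ^ n = 3 ^ (n + 2 + 1) := by ring
    rw [h4] at h3
    have h5 := sum_LM n M t
    have h5' := AA.low_tail2 n t
    have h6 : ∑ i ∈ range (3 ^ (n + 2)), LM n M t (x i) ≤ 27 * (3 ^ n * (ε * δ / 72)) := by
      have h7 : ∑ i ∈ range (3 ^ (n + 2)), LM n M t (x i) =
          ∑ i ∈ range (3 ^ (n + 2)), (fun i : ℕ => LM n M t (i : ℤ)) (c' + 3 * i) := by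
        refine Finset.sum_congr rfl fun i _ => ?_
        simp only [hx]
        push_cast
        rfl
      rw [h7]
      refine h2.trans ?_
      rw [h3]
      have h8 : ∑ i ∈ range (3 ^ n), LM n M t (i : ℤ) ≤ 3 ^ n * (ε * δ / 72) :=
        h5.trans (mul_le_mul_of_nonneg_left (h5'.trans hsm) hp3.le)
      push_cast
      linarith
    refine h1.trans ?_
    rw [div_le_iff₀ (by positivity)]
    refine h6.trans ?_
    rw [h3n]
    nlinarith [mul_pos hp3 (mul_pos hε hδ)]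
  calc _ ≤ (A.card : ℝ) + ((B.card : ℝ) + (D.card : ℝ)) := hcard'
    _ ≤ ε / 3 * 3 ^ (n + 2) + (ε / 3 * 3 ^ (n + 2) + ε / 3 * 3 ^ (n + 2)) := by gcongr
    _ = ε * 3 ^ (n + 2) := by ring

end Pool.Agent.Lib.MP_d0d59f_nt.GE
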